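import Pool.Agent.Lib.MP_8622f1_pr.SpecIs

set_option autoImplicit false

open Classical Filter Topology

/-!
# The Ising model on nonunimodular transitive graphs: definitions (helper66)

Finite systems: `corr P E Λ A` = expectation of the product of the spins over `A`; the spins in
`Λ` are free, the spins outside `Λ` are plus, `E` is ANY finite set of edges, `P e` the opening
probability of `e` (`P e = 1 - exp (-2 J_e)`, `t_e = tanh J_e = P e / (2 - P e)`). `P e = 1` means
that the ends of `e` have the same spin. Edges with both ends outside `Λ` are irrelevant.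
-/

namespace MP8622

namespace NU

/-- two point function of a finite system -/
noncomputable def c2 {V : Type} (P : Sym2 V → ℝ) (E : Finset (Sym2 V)) (Λ : Finset V) (x y : V) :
    ℝ := corr P E Λ (symmDiff {x} {y})

/-- `tanh J = P / (2 - P)` -/
noncomputable def th (p : ℝ) : ℝ := p / (2 - p)

/-- the edges of `E` which do not contain `z` -/
noncomputable def del {V : Type} (E : Finset (Sym2 V)) (z : V) : Finset (Sym2 V) :=
  E.filter (fun e => z ∉ e)

/-- the edges `s(x, u x)`, `x ∈ L` -/
noncomputable def fan {V : Type} (L : Finset V) (u : V → V) : Finset (Sym2 V) :=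
  L.image (fun x => s(x, u x))

/-- weight of a set `S` of minus spins with real external fields `b` -/
noncomputable def wf {V : Type} (P : Sym2 V → ℝ) (E : Finset (Sym2 V)) (Λ : Finset V) (b : V → ℝ)
    (S : Finset V) : ℝ := sw P E S * ∏ v ∈ Λ, Real.exp (b v * chi {v} S)

/-- magnetisation with real external fields `b` (of any sign) -/
noncomputable def mf {V : Type} (P : Sym2 V → ℝ) (E : Finset (Sym2 V)) (Λ : Finset V) (b : V → ℝ)
    (x : V) : ℝ :=
  (∑ S ∈ Λ.powerset, chi {x} S * wf P E Λ b S) / ∑ S ∈ Λ.powerset, wf P E Λ b S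

/-- `P` with the value `a` at the edge `e` -/
noncomputable def upd {V : Type} (P : Sym2 V → ℝ) (e : Sym2 V) (a : ℝ) : Sym2 V → ℝ :=
  fun f => if f = e then a else P f

/-! ### Infinite volume -/

section Graph

variable {V : Type} (G : SimpleGraph V) [G.LocallyFinite]

/-- free two point function in the region `R` -/
noncomputable def TT (p : ℝ) (R : Set V) (x y : V) : ENNReal :=
  ⨆ Λ : Finset V, ENNReal.ofReal (tau G p (Λ.filter (· ∈ R)) x y)

/-- the edges of `G` which touch `Λ` and have both ends in `Λ ∪ D` -/
noncomputable def edD (Λ : Finset V) (D : Set V) : Finset (Sym2 V) :=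
  (ed G Λ).filter (fun e => ∀ z ∈ e, z ∈ Λ ∨ z ∈ D)

/-- magnetisation in the finite set `Λ`, plus spins on `D` (outside `Λ`) -/
noncomputable def mag (p : ℝ) (Λ : Finset V) (D : Set V) (x : V) : ℝ :=
  if x ∈ Λ then corr (fun _ => p) (edD G Λ D) Λ {x} else 0

/-- magnetisation in the region `R`, plus spins on `D` -/
noncomputable def MM (p : ℝ) (R D : Set V) (x : V) : ENNReal :=
  ⨆ Λ : Finset V, ENNReal.ofReal (mag G p (Λ.filter (· ∈ R)) D x)

/-- opening probabilities `p` inside `R`, `k` elsewhere -/
noncomputable def Pk (p k : ℝ) (R : Set V) (e : Sym2 V) : ℝ := if ∀ z ∈ e, z ∈ R then p else k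

/-- magnetisation in the finite set `Λ ⊆ R` with weak fields: every `y ∈ Λ ∩ L` is joined to the
plus spin `u y` (outside `R`) by an edge of opening probability `k` -/
noncomputable def fld (p k : ℝ) (R : Set V) (Λ : Finset V) (L : Set V) (u : V → V) (x : V) : ℝ :=
  if x ∈ Λ then corr (Pk p k R) (ed0 G Λ ∪ fan (Λ.filter (· ∈ L)) u) Λ {x} else 0

/-- magnetisation in the region `R` with weak fields on `L` -/
noncomputable def FF (p k : ℝ) (R L : Set V) (u : V → V) (x : V) : ENNReal :=
  ⨆ Λ : Finset V, ENNReal.ofReal (fld G p k R (Λ.filter (· ∈ R)) L u x)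

end Graph

end NU

end MP8622
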