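import Pool.Agent.Lib.MP_8622f1_pr.NU.Defs

set_option autoImplicit false

open Classical Filter Topology

/-!
# MP_8622f1_pr, nonunimodular transitive graphs, block F: finite systems (helper66)

THEOREM N. `G` connected, locally finite, `Γ` acting transitively by automorphisms and NOT
unimodular. Then for every `β` slightly above `β_c` the free two point function is bounded on
`ℓ²(V)` and the free state differs from the symmetric mixture.

Module `XXX`: file `Pool/Agent/Lib/MP_8622f1_pr/NU/XXX.lean`, `import ..NU.SpecF` (and `Sl`, `Fkg`,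
`Isf`, .. of the library if you use them), namespace `MP8622.NU`, `theorem specXXX (hYYY : SpecYYY)
.. : SpecXXX`; every other Spec may be a hypothesis; own lemmas in the namespace
`MP8622.NU.XXXM`. No double quotes. Library: `Basic.lean` (`corr_mono` (in `P` and, decreasing, in
`Λ`), `corr_gks`, `corr_nonneg`, `corr_le_one`, `corr_congr`, `corr_union`, `corr_extend`, `Z_pos`),
`Sl.lean` (`SlM.corr_insert`, `SlM.factor`, `SlM.num`, `SlM.chi_single`, `SlM.mono_mk`,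
`SlM.corr_mono_edges`, `SlM.corr_ein_le`, `SlM.corr_zero`, `specSL`), `Fkg.lean` (`fkg_anti`,
`sw_mul_le`, `corr_single_zero`). All statements were checked numerically (also with `P e = 1`).

`P ≤ 1` everywhere. In all proofs `t = th (P e) = P e / (2 - P e) ∈ [0, 1]`.
-/

namespace MP8622

namespace NU

/-! ### Elementary tools -/

/-- CTP: continuity of the correlations in the opening probabilities.
Proof: `sw` is a finite product, numerator and denominator are finite sums, and the denominator of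
the limit is positive (`Z_pos`). -/
def SpecCTP : Prop :=
  ∀ (V ι : Type) (F : Filter ι) (Pn : ι → Sym2 V → ℝ) (P : Sym2 V → ℝ) (E : Finset (Sym2 V))
    (Λ A : Finset V), (∀ e, P e ≤ 1) → (∀ e ∈ E, Tendsto (fun i => Pn i e) F (𝓝 (P e))) →
    Tendsto (fun i => corr (Pn i) E Λ A) F (𝓝 (corr P E Λ A))

/-- FLP: a zero field system: fixing one of the spins to be plus does not change the even
correlations. Proof: `S ↦ Λ \ S` exchanges the sets containing `z` and the sets not containing `z`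
and preserves `sw` (all edges are inside `Λ`) and `chi A` (`A.card` even); both sums are twice the
sum over the `S` not containing `z`. Compare `corr_single_zero` in `Fkg.lean`. -/
def SpecFLP : Prop :=
  ∀ (V : Type) (P : Sym2 V → ℝ) (E : Finset (Sym2 V)) (Λ A : Finset V) (z : V),
    (∀ e ∈ E, ∀ w ∈ e, w ∈ Λ) → A ⊆ Λ → Even A.card → z ∈ Λ →
    corr P E Λ A = corr P E (Λ.erase z) A

/-- WIR: a vertex joined to a plus spin by an edge with `P = 1` is plus.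
Proof: the sets `S` containing `x` have weight `0`. -/
def SpecWIR : Prop :=
  ∀ (V : Type) (P : Sym2 V → ℝ) (E : Finset (Sym2 V)) (Λ A : Finset V) (x y : V),
    s(x, y) ∈ E → P s(x, y) = 1 → x ∈ Λ → y ∉ Λ → corr P E Λ A = corr P E (Λ.erase x) A

/-- ONE: the same under the assumption that the spin at `x` is almost surely plus.
Proof: `corr {x} = 1` means `∑_S (1 - chi {x} S) sw = 0`, so `sw = 0` for all `S ∋ x`. -/
def SpecONE : Prop :=
  ∀ (V : Type) (P : Sym2 V → ℝ) (E : Finset (Sym2 V)) (Λ A : Finset V) (x : V),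
    (∀ e, 0 ≤ P e) → (∀ e, P e ≤ 1) → corr P E Λ {x} = 1 → corr P E Λ A = corr P E (Λ.erase x) A

/-- ZON: if all `P e ∈ {0, 1}`, the correlations are `0` or `1`.
Proof: `corr_eq`: only one `ω ⊆ E` has a nonzero weight (`bw`), so `corr = ind`. -/
def SpecZON : Prop :=
  ∀ (V : Type) (P : Sym2 V → ℝ) (E : Finset (Sym2 V)) (Λ A : Finset V),
    (∀ e ∈ E, P e = 0 ∨ P e = 1) → corr P E Λ A = 0 ∨ corr P E Λ A = 1

/-- MIX: the system with opening probability `P e` is a mixture of the systems with `e` removed and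
with `e` contracted (`P e = 1`). Proof: `SlM.corr_insert` for `P` and for `upd P e 1`, field_simp. -/
def SpecMIX : Prop :=
  ∀ (V : Type) (P : Sym2 V → ℝ) (E : Finset (Sym2 V)) (Λ : Finset V) (x v : V),
    (∀ e, 0 ≤ P e) → (∀ e, P e ≤ 1) → s(x, v) ∈ E → ∀ q : ℝ,
    q = th (P s(x, v)) * (1 + c2 P (E.erase s(x, v)) Λ x v) /
      (1 + th (P s(x, v)) * c2 P (E.erase s(x, v)) Λ x v) →
    0 ≤ q ∧ q ≤ 1 ∧ ∀ A : Finset V,
      corr P E Λ A = (1 - q) * corr P (E.erase s(x, v)) Λ A + q * corr (upd P s(x, v) 1) E Λ A ∧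
      corr (upd P s(x, v) 0) E Λ A = corr P (E.erase s(x, v)) Λ A

/-- CHG: the plus end of a field edge is irrelevant.
Proof: the weights `sw` agree: for `v ∈ Λ` and `w ∉ Λ`, `Mono S s(v, w) ↔ v ∉ S`; the edges of
`fan L u` are distinct for distinct `v ∈ L` (`v ∈ Λ`, `u v ∉ Λ`). -/
def SpecCHG : Prop :=
  ∀ (V : Type) (P P' : Sym2 V → ℝ) (E : Finset (Sym2 V)) (Λ L A : Finset V) (u u' : V → V),
    L ⊆ Λ → (∀ v ∈ L, u v ∉ Λ) → (∀ v ∈ L, u' v ∉ Λ) → (∀ v ∈ L, s(v, u v) ∉ E) →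
    (∀ v ∈ L, s(v, u' v) ∉ E) → (∀ v ∈ L, P s(v, u v) = P' s(v, u' v)) → (∀ e ∈ E, P e = P' e) →
    corr P (E ∪ fan L u) Λ A = corr P' (E ∪ fan L u') Λ A

/-- FLD: edges to plus spins are fields. Proof: for `e = s(v, w)`, `v ∈ Λ`, `w ∉ Λ` and
`J = -log (1 - P e) / 2`: the factor is `exp (J (σ_v - 1))`; the constants cancel; edges with both
ends outside `Λ` have factor `1`. -/
def SpecFLD : Prop :=
  ∀ (V : Type) (P : Sym2 V → ℝ) (E : Finset (Sym2 V)) (Λ : Finset V) (x : V),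
    (∀ e, 0 ≤ P e) → (∀ e, P e < 1) → x ∈ Λ →
    corr P E Λ {x} = mf P (ein E Λ) Λ
      (fun v => ∑ e ∈ E.filter (fun e => v ∈ e ∧ ¬ ∀ z ∈ e, z ∈ Λ), -Real.log (1 - P e) / 2) x

/-! ### The Ellis-Monroe inequality -/

/-- signs of the four combinations of four copies -/
def sg : Fin 4 → Fin 4 → ℝ :=
  ![![1, 1, 1, 1], ![1, 1, -1, -1], ![1, -1, 1, -1], ![-1, 1, 1, -1]]

/-- the variables `β_k = (1/2) ∑_i sg k i σ^i_v` of four copies with minus sets `S i` -/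
noncomputable def be {V : Type} (S : Fin 4 → Finset V) (k : Fin 4) (v : V) : ℝ :=
  (∑ i, sg k i * chi {v} (S i)) / 2

/-- EMP: Ellis-Monroe positivity.
Proof. (a) `P = 0`, `a = 0`: the sum over the configurations factorises over the vertices (induction
on `Λ`), and the sum over one vertex, over `σ ∈ {±1}^4`, of `∏_k β_k ^ n_k` is `≥ 0`: the values of
`(β_0, .., β_3)` are `±2 e_k` (8 configurations) and the 8 sign vectors with product `+1`; the sum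
over the latter is `8` if all `n_k` have the same parity, else `0`; the sum over the former is
`≥ 0` (`n` concentrated on one `k`, `n_k` even, or `n = 0`), else `0`.
(b) Call `F` good if `0 ≤ ∑_S (∏ be ^ N) F S` for all `N`. If `F` is good so is `F * be k v * be k w`
(`v, w ∈ Λ`), and so is `F * exp (c * be k v * be k w)` for `c ≥ 0` (power series of `exp`: limits of
nonnegative combinations); the same for `F * exp (c * be k v)`.
(c) `∑_k be k v * be k w = ∑_i σ^i_v σ^i_w`, so for `e = s(v, w)` and `J = -log (1 - P e) / 2 ≥ 0`: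
`∏_i (if Mono (S i) e then 1 else 1 - P e) = exp (-4 J) ∏_k exp (J be k v * be k w)`. -/
def SpecEMP : Prop :=
  ∀ (V : Type) (P : Sym2 V → ℝ) (E : Finset (Sym2 V)) (Λ : Finset V) (a : Fin 4 → V → ℝ)
    (N : V → Fin 4 → ℕ),
    (∀ e, 0 ≤ P e) → (∀ e, P e < 1) → (∀ e ∈ E, ∀ z ∈ e, z ∈ Λ) → (∀ k v, 0 ≤ a k v) →
    0 ≤ ∑ S ∈ Fintype.piFinset (fun _ : Fin 4 => Λ.powerset),
      (∏ v ∈ Λ, ∏ k, be S k v ^ N v k) * (∏ i, sw P E (S i)) *
        Real.exp (∑ v ∈ Λ, ∑ k, a k v * be S k v)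

/-- GHS: the difference form of the GHS inequality (from EMP). Contains `GHS` (`b₁ = h + a + b`,
`b₂ = h + a`, `b₃ = h + b`, `b₄ = h`), `m(h+J) + m(h-J) ≤ 2 m(h)`, `m(h+J) ≤ m(h) + m(J)`.
Proof: `P < 1` first. `∑_i b_i σ^i = ∑_k a_k β_k` with `a_k = (1/2) ∑_i sg k i * b_i ≥ 0`. EMP with
`N = 1` at `(x, 3)` and `0` elsewhere, `be S 3 x = (1/2) (-σ¹ + σ² + σ³ - σ⁴)`; the sum over the four
copies factorises: `0 ≤ (1/2) (-m₁ + m₂ + m₃ - m₄) ∏ Z_i`. Then `P ≤ 1` as the limit of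
`(1 - 1/n) P` (as in CTP: the denominators are at least the term `S = ∅`, which is positive). -/
def SpecGHS : Prop :=
  ∀ (V : Type) (P : Sym2 V → ℝ) (E : Finset (Sym2 V)) (Λ : Finset V) (b₁ b₂ b₃ b₄ : V → ℝ),
    (∀ e, 0 ≤ P e) → (∀ e, P e ≤ 1) → (∀ e ∈ E, ∀ z ∈ e, z ∈ Λ) →
    (∀ v, 0 ≤ b₁ v + b₂ v + b₃ v + b₄ v) → (∀ v, b₃ v + b₄ v ≤ b₁ v + b₂ v) →
    (∀ v, b₂ v + b₄ v ≤ b₁ v + b₃ v) → (∀ v, b₁ v + b₄ v ≤ b₂ v + b₃ v) →
    ∀ x ∈ Λ, mf P E Λ b₁ x + mf P E Λ b₄ x ≤ mf P E Λ b₂ x + mf P E Λ b₃ x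

/-- SBM: submodularity in the set of plus edges (from GHS, FLD, CTP).
Proof: `P < 1`: FLD for the four systems; the fields are `h + a + b`, `h`, `h + a`, `h + b`, the
edges inside `Λ` are the same (`ein E₀ Λ`, edges of `Ea`, `Eb` are not inside `Λ`). `P ≤ 1`: CTP with
`(1 - 1/n) P`. -/
def SpecSBM : Prop :=
  ∀ (V : Type) (P : Sym2 V → ℝ) (E₀ Ea Eb : Finset (Sym2 V)) (Λ : Finset V) (x : V),
    (∀ e, 0 ≤ P e) → (∀ e, P e ≤ 1) → x ∈ Λ → Disjoint E₀ Ea → Disjoint E₀ Eb → Disjoint Ea Eb →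
    (∀ e ∈ Ea, ¬ ∀ z ∈ e, z ∈ Λ) → (∀ e ∈ Eb, ¬ ∀ z ∈ e, z ∈ Λ) →
    corr P (E₀ ∪ Ea ∪ Eb) Λ {x} + corr P E₀ Λ {x} ≤
      corr P (E₀ ∪ Ea) Λ {x} + corr P (E₀ ∪ Eb) Λ {x}

/-- VRM: removing one vertex (from GHS, FLD, FLP, CTP).
Proof: let `A = Λ \ {z}`, `P < 1` first. `h` = the field on `A` from the edges to the outside of
`Λ`, `J v = -log (1 - P s(v,z)) / 2` for `s(v, z) ∈ E`. `a(r) = mf (ein E A) (h + r J) x`.
Splitting the sum over `S` according to `z ∈ S`: `corr P E Λ {x} = p a(1) + (1 - p) a(-1)`,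
`p = (1 + corr P E Λ {z}) / 2 ≥ 1/2`; `corr P (del E z) A {x} = a(0)`, and
`c2 P (ein E Λ) Λ x z = mf (ein E A) J x =: b` (FLP with `z` plus). GHS: `a(1) + a(-1) ≤ 2 a(0)` and
`a(1) + mf 0 ≤ a(0) + b`, `mf 0 = 0`. Hence `p a(1) + (1-p) a(-1) = (1-p)(a(1) + a(-1)) +
(2p-1) a(1) ≤ a(0) + (2p-1) b`. -/
def SpecVRM : Prop :=
  ∀ (V : Type) (P : Sym2 V → ℝ) (E : Finset (Sym2 V)) (Λ : Finset V) (x z : V),
    (∀ e, 0 ≤ P e) → (∀ e, P e ≤ 1) → (∀ e ∈ E, ¬ e.IsDiag) → x ∈ Λ → z ∈ Λ → x ≠ z →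
    corr P E Λ {x} ≤ corr P (del E z) (Λ.erase z) {x} +
      c2 P (ein E Λ) Λ x z * corr P E Λ {z}

/-- MRC: removing a set of vertices, magnetisation (from VRM). Induction on `C`; the two point
functions and magnetisations of the smaller systems are bounded by those of the full one
(`corr_mono`, `SlM.corr_ein_le`). If `x ∈ C` the term `z = x` alone is `corr P E Λ {x}`. -/
def SpecMRC : Prop :=
  ∀ (V : Type) (P : Sym2 V → ℝ) (E : Finset (Sym2 V)) (Λ C : Finset V) (x : V),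
    (∀ e, 0 ≤ P e) → (∀ e, P e ≤ 1) → (∀ e ∈ E, ¬ e.IsDiag) → x ∈ Λ → C ⊆ Λ →
    corr P E Λ {x} ≤ (if x ∈ C then 0 else
        corr P (E.filter (fun e => ∀ z ∈ e, z ∉ C)) (Λ \ C) {x}) +
      ∑ z ∈ C, c2 P (ein E Λ) Λ x z * corr P E Λ {z}

/-- VRC: removing a set of vertices, two point function of a zero field system (from MRC, FLP).
Proof: if `x ∈ C` or `y ∈ C` one term of the sum is the left side; if `x = y` trivial. Otherwise
make `y` plus (FLP): `c2 P E Λ x y = corr P E (Λ.erase y) {x}` (both `chi` agree, `y ∉ S`), MRC, and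
`c2 P (ein E (Λ.erase y)) (Λ.erase y) x z ≤ c2 P E Λ x z`, `corr P E (Λ.erase y) {z} = c2 P E Λ z y`. -/
def SpecVRC : Prop :=
  ∀ (V : Type) (P : Sym2 V → ℝ) (E : Finset (Sym2 V)) (Λ C : Finset V) (x y : V),
    (∀ e, 0 ≤ P e) → (∀ e, P e ≤ 1) → (∀ e ∈ E, ¬ e.IsDiag) → (∀ e ∈ E, ∀ z ∈ e, z ∈ Λ) →
    x ∈ Λ → y ∈ Λ → C ⊆ Λ →
    c2 P E Λ x y ≤ (if x ∈ C ∨ y ∈ C then 0 else c2 P (ein E (Λ \ C)) (Λ \ C) x y) +
      ∑ z ∈ C, c2 P E Λ x z * c2 P E Λ z y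

/-! ### Lower bound for truncated functions -/

/-- FKM: FKG with a minus spin at `g`: `⟨v⟩_{g = -} ≤ ⟨v⟩_{Λ \ g}`.
Proof: `1 - chi {g} S = 2` if `g ∈ S`, else `0`. The claim is
`(∑_{S ∋ g} chi {v} S sw) (∑_{S ⊆ Λ \ g} sw') ≤ (∑_{S ∋ g} sw) (∑_{S ⊆ Λ \ g} chi {v} S sw')`,
`sw' = sw P (del E g)`. For `S = insert g S'`: `sw P E S = sw' S' * φ S'`, `φ S'` = the product over
the edges `s(g, w)` of `1` if `w ∈ S'` and `1 - P` if not: increasing, in `[0,1]`. `fkg_anti` for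
`P`, `del E g`, `Λ \ g` with the decreasing functions `1 - φ` and `1 + chi {v}`. -/
def SpecFKM : Prop :=
  ∀ (V : Type) (P : Sym2 V → ℝ) (E : Finset (Sym2 V)) (Λ : Finset V) (v g : V),
    (∀ e, 0 ≤ P e) → (∀ e, P e ≤ 1) → (∀ e ∈ E, ¬ e.IsDiag) → v ∈ Λ → g ∈ Λ → v ≠ g →
    corr P E Λ {v} - c2 P E Λ v g ≤
      (1 - corr P E Λ {g}) * corr P (del E g) (Λ.erase g) {v}

/-- EXP: lower bound for the truncated two point function (from MIX, WIR, FKM).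
Write `m_x = corr P E Λ {x}`, `θ_z = corr P (del E g) (Λ.erase g) {z}`.
Proof: induction on `Λ.card`, then on the number of boundary edges `s(v, s) ∈ E`, `v ∈ Λ`, `s ∉ Λ`.
No such edge: `m_g = 0` (`corr_single_zero`; edges outside `Λ` are irrelevant, `corr_congr`) and the
hypothesis for `C = ∅`. Otherwise take such an edge `e`, MIX for `Λ`: `(1 - q)` times the system `0`
with `e` removed plus `q` times the system `+` with `P e = 1`, which by WIR is the system on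
`Λ.erase v` with the edges of `E` (edges at `v` are now boundary edges). Covariances are
superadditive: `Cov ≥ (1-q) Cov_0 + q Cov_+` since `y_+ ≥ y_0`, `g_+ ≥ g_0`. Cases:
`v = g` or `v = y`: `Cov_+ = 0` and the lower bound for it is `≤ 0` (`v = g`: factor `1 - g_+ = 0`;
`v = y`: `T ≤ τ y` by the hypothesis with `C = {y}`). Otherwise the induction hypothesis applies to
`+` with `T - τ v` instead of `T` (`C ↦ insert v C`; the system on `(Λ.erase v) \ C` is the system on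
`Λ \ insert v C`). With `a = (1-q)(1-g_0)`, `b = q(1-g_+)`, `a + b = 1 - m_g`, the sum of the two
bounds is `(a+b) T - ∑_{z ≠ g} (a θ⁰_z + b θ⁺_z) τ_z`, `θ⁺_v := 1`. MIX for `Λ.erase g`, `del E g`:
`θ_z = (1-ρ) θ⁰_z + ρ θ⁺_z`, `θ⁰ ≤ θ⁺`, so it suffices that `b ≤ ρ (a + b)`. With `t = th (P e)`:
`b/(a+b) = t (1 + u)/(1 + t u)`, `u = (v_0 - vg_0)/(1 - g_0)` (system `0`),
`ρ = t (1 + v')/(1 + t v')`, `v' = corr` of `v` in system `0` on `Λ.erase g`; `u ≤ v'` by FKM and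
`x ↦ t(1+x)/(1+tx)` is increasing. (If `e` contains `g` as its inner end `v = g`: the case above;
note that then `θ⁰ = θ` and `a ≤ a + b`.) -/
def SpecEXP : Prop :=
  ∀ (V : Type) (P : Sym2 V → ℝ) (E : Finset (Sym2 V)) (Λ : Finset V) (y g : V) (T : ℝ)
    (τ : V → ℝ),
    (∀ e, 0 ≤ P e) → (∀ e, P e ≤ 1) → (∀ e ∈ E, ¬ e.IsDiag) → y ∈ Λ → g ∈ Λ → y ≠ g →
    (∀ z, 0 ≤ τ z) →
    (∀ C : Finset V, C ⊆ Λ → T - ∑ z ∈ C, τ z ≤
      if y ∈ C ∨ g ∈ C then 0 else c2 P (ein E (Λ \ C)) (Λ \ C) y g) →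
    (1 - corr P E Λ {g}) *
        (T - ∑ z ∈ Λ.erase g, corr P (del E g) (Λ.erase g) {z} * τ z) ≤
      c2 P E Λ y g - corr P E Λ {y} * corr P E Λ {g}

/-- MUB: upper bound for the magnetisation (from `specSL` with `S = Λ`, `A = ∅`; or by induction on
`L` from `SlM.corr_insert` and GKS). -/
def SpecMUB : Prop :=
  ∀ (V : Type) (P : Sym2 V → ℝ) (E : Finset (Sym2 V)) (Λ L : Finset V) (u : V → V) (k : ℝ)
    (x : V), (∀ e, 0 ≤ P e) → (∀ e, P e ≤ 1) → (∀ e ∈ E, ¬ e.IsDiag) →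
    (∀ e ∈ E, ∀ z ∈ e, z ∈ Λ) → L ⊆ Λ → (∀ v ∈ L, u v ∉ Λ ∧ P s(v, u v) = k) → x ∈ Λ →
    corr P (E ∪ fan L u) Λ {x} ≤ th k * ∑ v ∈ L, c2 P E Λ x v

/-- QUA: quadratic lower bound for the magnetisation (from EXP, VRC, MUB). `t = th k`,
`e z = ∑_{y ∈ L} c2 P E Λ z y`.
Proof: `L = {y_1, ..}`, `F_i` = the magnetisation at `o` when only `y_1, .., y_i` have fields.
`SlM.corr_insert`: `F_{i+1} - F_i = t Cov_i(o, y) / (1 + t ⟨y⟩_i) ≥ (t/2) Cov_i(o, y)`, `y = y_{i+1}`,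
`Cov_i ≥ 0`. EXP with `g = o`, `T = c2 o y`, `τ z = c2 o z * c2 z y` (hypothesis: VRC, only the edges of
`E` are inside `Λ \ C`) and `θ_z ≤ t e z` (the magnetisation at `z` without `o` is at most the one
with `o`; MUB): `Cov_i ≥ (1 - F_i) D_y`, `D_y = c2 o y - t ∑_{z ≠ o} c2 o z * c2 z y * e z`; for
`y = o` directly: `Cov = 1 - F_i² ≥ 1 - F_i`. Since `Cov_i ≥ 0` and `F_i ≤ F`: `Cov_i ≥ (1 - F) D_y`.
Sum: `2F ≥ t (1 - F) (e o - t Q')`, `Q' = ∑_{z ≠ o} c2 o z (e z)²`. If `e o ≤ t Q'` the claim is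
trivial. Otherwise `(1-F)(e o - t Q') ≥ e o - t Q' - F e o ≥ e o - t Q' - t (e o)²` (MUB). -/
def SpecQUA : Prop :=
  ∀ (V : Type) (P : Sym2 V → ℝ) (E : Finset (Sym2 V)) (Λ L : Finset V) (u : V → V) (k : ℝ)
    (o : V), (∀ e, 0 ≤ P e) → (∀ e, P e ≤ 1) → (∀ e ∈ E, ¬ e.IsDiag) →
    (∀ e ∈ E, ∀ z ∈ e, z ∈ Λ) → L ⊆ Λ → (∀ v ∈ L, u v ∉ Λ ∧ P s(v, u v) = k) → o ∈ Λ →
    0 ≤ k → k ≤ 1 →
    th k * ∑ y ∈ L, c2 P E Λ o y ≤ 2 * corr P (E ∪ fan L u) Λ {o} +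
      th k ^ 2 * ∑ z ∈ Λ, c2 P E Λ o z * (∑ y ∈ L, c2 P E Λ z y) ^ 2

/-! ### Comparison of systems -/

/-- SMU: supermultiplicativity (from SBM, MIX, ZON, ONE).
`I` inner, `O` outer free spins, `B` the vertices at the boundary of `I` (in `O`, or plus).
Proof: `B = {b_1, .., b_m}`, `f S = corr P (the edges of EI inside I ∪ S) I {o}` for `S ⊆ B`,
`f ∅ = 0` (`corr_single_zero`), `f B = corr P EI I {o}`, `w_j = f {b_1, .., b_j} - f {b_1, ..,
b_{j-1}} ≥ 0`; SBM: `∑_{b_j ∈ S} w_j ≤ f S`. Claim: `∑_j w_j corr P EO O {b_j} ≤ corr P (EI ∪ EO)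
(I ∪ O) {o}` (this gives the result). Induction on the number of edges `e ∈ EO` with `0 < P e < 1`,
changing `P` only on `EO`: MIX for such an edge in both systems; the weight `q` is increasing in `c`,
and `c` is larger in the full system (GKS), and contracting increases the magnetisation. If all
`P e ∈ {0,1}` on `EO`: `corr P EO O {b} ∈ {0, 1}` (ZON); let `S` be the set of the `b` with value `1`;
the left side is at most `f S`; in the full system the spins of `S` are plus (GKS), so by ONE they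
may be moved out of the free set, and then monotonicity in the edges gives `f S`. -/
def SpecSMU : Prop :=
  ∀ (V : Type) (P : Sym2 V → ℝ) (EI EO : Finset (Sym2 V)) (I O B : Finset V) (o : V) (a : ℝ),
    (∀ e, 0 ≤ P e) → (∀ e, P e ≤ 1) → (∀ e ∈ EI, ¬ e.IsDiag) → (∀ e ∈ EO, ¬ e.IsDiag) →
    Disjoint I O → Disjoint I B → o ∈ I →
    (∀ e ∈ EI, (∃ z ∈ e, z ∈ I) ∧ ∀ z ∈ e, z ∈ I ∨ z ∈ B) → (∀ e ∈ EO, ∀ z ∈ e, z ∉ I) →
    0 ≤ a → (∀ b ∈ B, a ≤ corr P EO O {b}) →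
    a * corr P EI I {o} ≤ corr P (EI ∪ EO) (I ∪ O) {o}

/-- CMB: the base case of CMP: `P e ∈ {0, 1}` on `Em` (from FLP, WIR).
Proof: induction on `A.card`. `A = ∅`: both sides `1`. Let `x ∈ A` and `K` the set of the vertices of
`Λm` connected with `x` by edges of `Em` with `P = 1`; `A₁ = A ∩ K`, `A₂ = A \ K`. Left side:
`corr (A₁) * corr (A₂)` (`corr_union`, after removing the edges with `P = 0`); right side
`≥ corr (A₁) * corr (A₂)` (`corr_gks`); induction hypothesis for `A₂`. `A₁`: on both sides all spins of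
`K` are equal (P = 1). `A₁.card` even: both are `1`. Odd: with `X = K ∩ D`: the left side is
`(1 - (1-k)^n) / (1 + (1-k)^n)`, `n = X.card` (`0` if `X = ∅`); right side: `corr {x₀}`, `x₀ ∈ X`, drop
all edges of `Em` outside `K` and the edges `s(x, u x)`, `x ∉ X`; in this system
`corr {x₀} = corr {x₀, g} (with g free)` (FLP) `= corr {g}` with `x₀` plus (FLP), then all of `K` is
plus (WIR): this is the right side of the hypothesis. -/
def SpecCMB : Prop :=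
  ∀ (V : Type) (P : Sym2 V → ℝ) (Em Ep : Finset (Sym2 V)) (Λm Λp D : Finset V) (g : V)
    (u : V → V) (k : ℝ), (∀ e, 0 ≤ P e) → (∀ e, P e ≤ 1) → (∀ e ∈ Em, P e = 0 ∨ P e = 1) →
    (∀ e ∈ Em, ¬ e.IsDiag) → (∀ e ∈ Ep, ¬ e.IsDiag) → Disjoint Λm Λp → g ∉ Λm → g ∉ Λp →
    (∀ e ∈ Em, ∀ z ∈ e, z ∈ Λm) → (∀ e ∈ Ep, ∀ z ∈ e, z ∈ insert g Λp) → D ⊆ Λm →
    (∀ x ∈ D, u x ∈ Λp ∧ P s(x, g) = k) → 0 ≤ k → k ≤ 1 →
    (∀ X : Finset V, X ⊆ D → X.Nonempty → (1 - (1 - k) ^ X.card) / (1 + (1 - k) ^ X.card) ≤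
      corr P (Ep ∪ fan X u) (insert g Λp) {g}) →
    ∀ A : Finset V, A ⊆ Λm → corr P (Em ∪ fan D (fun _ => g)) Λm A ≤
      corr P (Em ∪ fan D u ∪ Ep) (Λm ∪ Λp) A

/-- CMP: comparison of an environment with a field (from CMB, MIX). In the hypothesis the spins of
`X` are plus (outside the free set) and `g` is free.
Proof: induction on the number of edges `e ∈ Em` with `0 < P e < 1`. MIX for `e = s(x, v)` in both
systems; by the induction hypothesis for `A = {x, v}` with `e` removed (`upd P e 0`) the number `c` is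
larger in the system on the right, hence its `q` is larger; contracting `e` increases the
correlations (`corr_mono`); the induction hypothesis for `upd P e 0` and `upd P e 1`. -/
def SpecCMP : Prop :=
  ∀ (V : Type) (P : Sym2 V → ℝ) (Em Ep : Finset (Sym2 V)) (Λm Λp D : Finset V) (g : V)
    (u : V → V) (k : ℝ), (∀ e, 0 ≤ P e) → (∀ e, P e ≤ 1) →
    (∀ e ∈ Em, ¬ e.IsDiag) → (∀ e ∈ Ep, ¬ e.IsDiag) → Disjoint Λm Λp → g ∉ Λm → g ∉ Λp →
    (∀ e ∈ Em, ∀ z ∈ e, z ∈ Λm) → (∀ e ∈ Ep, ∀ z ∈ e, z ∈ insert g Λp) → D ⊆ Λm →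
    (∀ x ∈ D, u x ∈ Λp ∧ P s(x, g) = k) → 0 ≤ k → k ≤ 1 →
    (∀ X : Finset V, X ⊆ D → X.Nonempty → (1 - (1 - k) ^ X.card) / (1 + (1 - k) ^ X.card) ≤
      corr P (Ep ∪ fan X u) (insert g Λp) {g}) →
    ∀ A : Finset V, A ⊆ Λm → corr P (Em ∪ fan D (fun _ => g)) Λm A ≤
      corr P (Em ∪ fan D u ∪ Ep) (Λm ∪ Λp) A

/-- PSI: the magnetisation of the ghost `g` when the set `X` is plus (from EXP, VRC, QUA, MUB, CHG).
`T = c2 P E Λ`, `e z = ∑_{v ∈ L} T z v`, `a = th k₀`, `t = th q`.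
Proof: `X = {x_1, ..}`, `ψ_i` = the magnetisation at `g` when only the edges `s(x_j, u x_j)`, `j ≤ i`,
are present; `ψ_0 = 0`; `y = u x_{i+1}`. `SlM.corr_insert`: `ψ_{i+1} - ψ_i = t Cov_i(g, y) /
(1 + t ⟨y⟩_i) ≥ (t/2) Cov_i(g, y)`. EXP on `insert g Λ` with `T' = (a/2) e y - (a²/2) Q`,
`Q = ∑_z T y z (e z)²`, `τ z = (a/2) T y z * e z` for `z ∈ Λ`, `τ g = T' ≥ 0`: hypothesis for
`C ∌ g, y`: `c2` of `y, g` in `insert g Λ \ C` is the magnetisation at `y` with `g` plus (FLP), QUA for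
`Λ \ C` with the fields on `L \ C`, and VRC: `∑_{v ∈ L \ C} T_C y v ≥ e y - ∑_{z ∈ C} T y z * e z`
(the terms `v ∈ L ∩ C` are `≤ 0`), `Q_C ≤ Q`. If `y ∈ C`: `T' ≤ τ y`. `θ_z ≤ t ∑_{x' ∈ X} T z (u x')`
(MUB, several field edges at one vertex: the fields come from the distinct plus vertices `x'`; use
`specSL` or induction). `T' ≥ a e y / 4` (`a Q ≤ e/2 ≤ e y / 2`), `∑ θ_z τ_z ≤ (a/2) (e/4)`, hence
`ψ_{i+1} - ψ_i ≥ (t/2) (1 - ψ_i) (a e / 4 - a e / 8)`, i.e.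
`1 - ψ_{i+1} ≤ (1 - ψ_i) (1 - t a e / 16)`. -/
def SpecPSI : Prop :=
  ∀ (V : Type) (P : Sym2 V → ℝ) (E : Finset (Sym2 V)) (Λ L X : Finset V) (g : V) (u : V → V)
    (k₀ q e : ℝ), (∀ e, 0 ≤ P e) → (∀ e, P e ≤ 1) → (∀ e ∈ E, ¬ e.IsDiag) →
    (∀ e ∈ E, ∀ z ∈ e, z ∈ Λ) → g ∉ Λ → L ⊆ Λ → Disjoint X Λ → g ∉ X →
    (∀ v ∈ L, P s(v, g) = k₀) → (∀ x ∈ X, u x ∈ Λ ∧ P s(x, u x) = q) → 0 ≤ k₀ → k₀ ≤ 1 →
    0 ≤ q → q ≤ 1 → 0 ≤ e →
    (∀ x ∈ X, e ≤ ∑ v ∈ L, c2 P E Λ (u x) v) →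
    (∀ x ∈ X, th k₀ * ∑ z ∈ Λ, c2 P E Λ (u x) z * (∑ v ∈ L, c2 P E Λ z v) ^ 2 ≤ e / 2) →
    (∀ x ∈ X, th q * ∑ z ∈ Λ, c2 P E Λ (u x) z * (∑ v ∈ L, c2 P E Λ z v) *
      (∑ x' ∈ X, c2 P E Λ z (u x')) ≤ e / 4) →
    1 - (1 - th q * th k₀ * e / 16) ^ X.card ≤
      corr P (E ∪ fan L (fun _ => g) ∪ fan X u) (insert g Λ) {g}

end NU

end MP8622
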