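import Pool.Agent.Lib.MP_8622f1_pr.NU.SpecF

set_option autoImplicit false

open Classical Filter Topology

/-!
# MP_8622f1_pr, nonunimodular transitive graphs, block I: infinite volume (helper66)

`TT G p R x y` = free two point function in the region `R` (an arbitrary set of vertices);
`MM G p R D x` = magnetisation in `R` with plus spins on `D`; `FF G p k R L u x` = magnetisation in
`R` when each `y ∈ L` has a weak field (edge of opening probability `k` to the plus spin `u y ∉ R`).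
All are suprema over finite `Λ`, of the finite volume quantities in `Λ.filter (· ∈ R)`, which are
increasing in `Λ` (`IsfM.tau_mono`, `corr_mono`); values in `ENNReal`.

Same rules as in `SpecF.lean` (modules `XXX`: file `NU/XXX.lean`, `import ..NU.SpecI`).
Useful: `ENNReal.ofReal` is monotone and continuous; a supremum over the directed set of finite sets
can be tested with `le_iSup`, `iSup_le`; `ENNReal.iSup_add_iSup_of_monotone`,
`ENNReal.tsum_eq_iSup_sum`.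
-/

namespace MP8622

namespace NU

/-- properties of `TT`, part A -/
structure TTA {V : Type} (G : SimpleGraph V) [G.LocallyFinite] (p : ℝ) : Prop where
  le_one : ∀ (R : Set V) (x y : V), TT G p R x y ≤ 1
  self : ∀ (R : Set V) (x : V), x ∈ R → TT G p R x x = 1
  out : ∀ (R : Set V) (x y : V), x ∉ R ∨ y ∉ R → TT G p R x y = 0
  symm : ∀ (R : Set V) (x y : V), TT G p R x y = TT G p R y x
  mono : ∀ R R' : Set V, R ⊆ R' → ∀ x y : V, TT G p R x y ≤ TT G p R' x y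
  mul : ∀ (R : Set V) (x y z : V), TT G p R x y * TT G p R y z ≤ TT G p R x z
  edge : ∀ (R : Set V) (x y : V), x ∈ R → y ∈ R → G.Adj x y →
    ENNReal.ofReal (th p) ≤ TT G p R x y
  inv : ∀ g : V ≃ V, IsAut G g → ∀ (R : Set V) (x y : V),
    TT G p (g '' R) (g x) (g y) = TT G p R x y
  /-- regions which are increasing unions -/
  dir : ∀ Rn : ℕ → Set V, Monotone Rn → ∀ x y : V,
    TT G p (⋃ n, Rn n) x y = ⨆ n, TT G p (Rn n) x y
  tau_le : ∀ (Λ : Finset V) (x y : V), ENNReal.ofReal (tau G p Λ x y) ≤ TT G p Set.univ x y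
  /-- finite approximation from inside: finitely many values at once -/
  appr : ∀ (R : Set V) (Y : Finset V) (ψ : V → V → ENNReal), (∀ x ∈ Y, ∀ y ∈ Y, y ∈ R →
    ψ x y < TT G p R x y ∨ ψ x y = 0) → ∃ Λ : Finset V, (∀ z ∈ Λ, z ∈ R) ∧
      (∀ z ∈ Y, z ∈ R → z ∈ Λ) ∧
      ∀ x ∈ Y, ∀ y ∈ Y, y ∈ R → ψ x y ≤ ENNReal.ofReal (tau G p Λ x y)

/-- ITA. All properties are immediate from the finite volume ones in `Isf.lean` (`tau_mono`,
`tau_mul`, `tau_map`, `mem_edge`, ..). -/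
def SpecITA : Prop :=
  ∀ (V : Type) (G : SimpleGraph V) [G.LocallyFinite] (p : ℝ), 0 ≤ p → p ≤ 1 → TTA G p

/-- ITP: monotonicity in `p`. -/
def SpecITP : Prop :=
  ∀ (V : Type) (G : SimpleGraph V) [G.LocallyFinite] (p p' : ℝ), 0 ≤ p → p ≤ p' → p' ≤ 1 →
    ∀ (R : Set V) (x y : V), TT G p R x y ≤ TT G p' R x y

/-- ITR: removing the set `C` from the region (from VRC).
Proof: for a finite `Λ ⊆ R` with `x, y ∈ Λ`, VRC with `C ∩ Λ` and `E = ed0 G Λ`
(`ein (ed0 G Λ) (Λ \ C) = ed0 G (Λ \ C)`, `IsfM.ein_ed0`); every finite volume quantity on the right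
is at most the infinite volume one. -/
def SpecITR : Prop :=
  ∀ (V : Type) (G : SimpleGraph V) [G.LocallyFinite] (p : ℝ), 0 ≤ p → p ≤ 1 →
    ∀ (R C : Set V) (x y : V), TT G p R x y ≤ TT G p (R \ C) x y +
      ∑' z, C.indicator (fun z => TT G p R x z * TT G p R z y) z

/-- properties of `MM`, part A -/
structure MMA {V : Type} (G : SimpleGraph V) [G.LocallyFinite] (p : ℝ) : Prop where
  le_one : ∀ (R D : Set V) (x : V), MM G p R D x ≤ 1
  out : ∀ (R D : Set V) (x : V), x ∉ R → MM G p R D x = 0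
  /-- more vertices, more plus spins, or plus spins instead of free spins -/
  mono : ∀ R D R' D' : Set V, D ⊆ D' → R ⊆ R' ∪ D' → Disjoint R' D' → ∀ x ∈ R',
    MM G p R D x ≤ MM G p R' D' x
  inv : ∀ g : V ≃ V, IsAut G g → ∀ (R D : Set V) (x : V),
    MM G p (g '' R) (g '' D) (g x) = MM G p R D x
  mul : ∀ (R D : Set V) (x y : V), Disjoint R D → TT G p R x y * MM G p R D y ≤ MM G p R D x
  bdry : ∀ (R D : Set V) (x y : V), x ∈ R → y ∈ D → y ∉ R → G.Adj x y →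
    ENNReal.ofReal (th p) ≤ MM G p R D x
  dir : ∀ (Rn : ℕ → Set V) (D : Set V), Monotone Rn → ∀ x : V,
    MM G p (⋃ n, Rn n) D x = ⨆ n, MM G p (Rn n) D x

/-- IMA. Proofs: `corr_mono` (increasing in `P`, decreasing in `Λ`), `corr_congr` (edges with both
ends outside `Λ` are irrelevant), `corr_gks`, `SlM.corr_mono_edges`, `corr_map`, `ed_map`. For `mono`:
`Λ' = Λ ∩ R'`: the edges of `edD G Λ D` which touch `Λ'` are in `edD G Λ' D'`. For the increasing in
`Λ`: `corr P E Λ A` with `E = edD G Λ D` (all ends in `Λ ∪ D`), `Λ ⊆ Λ'`, `Λ' ∩ D = ∅`: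
`corr P E Λ' A = corr P E Λ A` (`corr_extend`-like: the new vertices do not occur in `E`), then more
edges. If `D` meets `R` replace `D` by `D \ R` first. `bdry`: `SlM.corr_insert` with one edge. -/
def SpecIMA : Prop :=
  ∀ (V : Type) (G : SimpleGraph V) [G.LocallyFinite] (p : ℝ), 0 ≤ p → p ≤ 1 → MMA G p

/-- IMP: monotonicity in `p`. -/
def SpecIMP : Prop :=
  ∀ (V : Type) (G : SimpleGraph V) [G.LocallyFinite] (p p' : ℝ), 0 ≤ p → p ≤ p' → p' ≤ 1 →
    ∀ (R D : Set V) (x : V), MM G p R D x ≤ MM G p' R D x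

/-- IMU: upper bound for the magnetisation (from `specSL`).
Proof: for finite `Λ ⊆ R`, `specSL` with `S = Λ`, `A = ∅`, `E = edD G Λ D`: `corr {x} ≤
∑_{u ∈ Λ} ∑_{v ∉ Λ} [s(u,v) ∈ E] th p * c2 (ein E Λ) Λ x u`; `ein E Λ = ed0 G Λ`, `th p ≤ 1`, at most `d`
vertices `v` for each `u`. -/
def SpecIMU : Prop :=
  ∀ (V : Type) (G : SimpleGraph V) [G.LocallyFinite] (d : ℕ) (p : ℝ), 0 ≤ p → p ≤ 1 →
    (∀ x, (G.neighborFinset x).card ≤ d) → ∀ (R D : Set V) (x : V), Disjoint R D →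
    MM G p R D x ≤ (d : ENNReal) *
      ∑' y, {y | ∃ z ∈ D, G.Adj y z}.indicator (fun y => TT G p R x y) y

/-- IMR: removing the set `C` (from MRC); as ITR. -/
def SpecIMR : Prop :=
  ∀ (V : Type) (G : SimpleGraph V) [G.LocallyFinite] (p : ℝ), 0 ≤ p → p ≤ 1 →
    ∀ (R D C : Set V) (x : V), Disjoint R D → MM G p R D x ≤ MM G p (R \ C) D x +
      ∑' z, C.indicator (fun z => TT G p R x z * MM G p R D z) z

/-- ISM: supermultiplicativity (from SMU).
Proof: let `Λ ⊆ I` be finite, `x ∈ Λ`, `B` the set of the neighbours of `Λ` in `O ∪ D`; let `a' < a`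
(real, `0 < a'`). For every `b ∈ B ∩ O` there is a finite `Λ_b ⊆ O`, `b ∈ Λ_b`, with
`a' ≤ mag G p Λ_b D b`; `Λ_O` = their union. SMU with `EI = edD G Λ (O ∪ D)`, `EO = edD G Λ_O D`,
`B`: the edges of `EI ∪ EO` are in `edD G (Λ ∪ Λ_O) D`, so `a' * mag G p Λ (O ∪ D) x ≤
mag G p (Λ ∪ Λ_O) D x ≤ MM`. -/
def SpecISM : Prop :=
  ∀ (V : Type) (G : SimpleGraph V) [G.LocallyFinite] (p : ℝ), 0 ≤ p → p ≤ 1 →
    ∀ (I O D : Set V) (a : ENNReal), Disjoint I O → Disjoint I D → Disjoint O D → a ≤ 1 →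
    (∀ b ∈ O, (∃ i ∈ I, G.Adj i b) → a ≤ MM G p O D b) →
    ∀ x ∈ I, a * MM G p I (O ∪ D) x ≤ MM G p (I ∪ O) D x

/-- IFA: properties of `FF`. `mono`: `corr_mono` in `P`. `le_MM`: `k ≤ p`, and the edges
`s(y, u y)` are edges of `edD G Λ D` (`corr_mono`, `SlM.corr_mono_edges`). -/
structure FFA {V : Type} (G : SimpleGraph V) [G.LocallyFinite] (p : ℝ) : Prop where
  mono : ∀ (k k' : ℝ) (R L : Set V) (u : V → V) (x : V), 0 ≤ k → k ≤ k' → k' ≤ 1 →
    FF G p k R L u x ≤ FF G p k' R L u x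
  le_MM : ∀ (k : ℝ) (R L D : Set V) (u : V → V) (x : V), 0 ≤ k → k ≤ p → Disjoint R D →
    (∀ y ∈ L, G.Adj y (u y) ∧ u y ∈ D) → FF G p k R L u x ≤ MM G p R D x

def SpecIFA : Prop :=
  ∀ (V : Type) (G : SimpleGraph V) [G.LocallyFinite] (p : ℝ), 0 ≤ p → p ≤ 1 → FFA G p

/-- IFQ: the quadratic inequality (from QUA).
Proof: for finite `Λ ⊆ R`, `x ∈ Λ`: QUA with `P = Pk p k R`, `E = ed0 G Λ`, `L ∩ Λ`; on `ed0 G Λ` the
value of `P` is `p`, so `c2 = tau G p Λ`; `Pk = k` on `s(v, u v)` because `u v ∉ R`. Left side: for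
every finite set `Y ⊆ L` and every `Λ ⊇ Y`, `th k * ∑_{y ∈ Y} tau Λ x y` is at most the left side of
QUA; the right side is at most the right side of the claim; take the supremum over `Λ`, then over
`Y`. (If `x ∉ R` or `u` is irrelevant the left side is `0`.) -/
def SpecIFQ : Prop :=
  ∀ (V : Type) (G : SimpleGraph V) [G.LocallyFinite] (p k : ℝ), 0 ≤ p → p ≤ 1 → 0 ≤ k → k ≤ 1 →
    ∀ (R L : Set V) (u : V → V) (x : V), (∀ y ∈ L, u y ∉ R) →
    ENNReal.ofReal (th k) * ∑' y, L.indicator (fun y => TT G p R x y) y ≤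
      2 * FF G p k R L u x + ENNReal.ofReal (th k ^ 2) *
        ∑' z, TT G p R x z * (∑' y, L.indicator (fun y => TT G p R z y) y) ^ 2

/-- IDC: a weak field on `L` is weaker than the environment `R₁` above it (from CMP, PSI, CHG, ITA).
`L ⊆ R₀` is attached to `R₁` by the edges `s(y, u y)`; `L₁ ⊆ R₁` is attached to the plus spins `D` by
the edges `s(v, u v)`. The environment is used at the smaller parameter `p'`.
Proof: `k = th q * th k₀ * e / 16`. Let `Λ ⊆ R₀` be finite, `x ∈ Λ`, `Y = Λ ∩ L`. By `hE` and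
`TTA.appr` there is a finite `Λp ⊆ R₁` containing all `u y`, `y ∈ Y`, with
`e ≤ ∑_{v ∈ L₁ ∩ Λp} tau G p' Λp (u y) v`. Choose `g` outside all these sets, their images under `u` and
`D`-neighbours used (`V` is infinite). `P e =` `p` for `e` inside `R₀`, `p'` for `e` inside `R₁`, and
`P s(v, g) = k₀` (`v ∈ L₁ ∩ Λp`), `P s(y, u y) = q`, `P s(y, g) = k` (`y ∈ Y`). PSI with `E = ed0 G Λp`,
`L = L₁ ∩ Λp`, `X ⊆ Y`: the hypotheses follow from `hE`, `hQ`, `hL` since finite volume two point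
functions are smaller. `(1-w)/(1+w) ≤ 1 - w`. CMP with `Em = ed0 G Λ`, `Ep = ed0 G Λp ∪ fan (L₁ ∩ Λp) g`,
`D = Y`, `A = {x}`. Left side `= fld G p k R₀ Λ L u x` (CHG: plus ends `g` and `u y ∉ R₀`); right side: CHG
from `s(v, g)` to `s(v, u v)`, then `P ≤ p` and the edges are in `edD G (Λ ∪ Λp) D`. -/
def SpecIDC : Prop :=
  ∀ (V : Type) [Infinite V] (G : SimpleGraph V) [G.LocallyFinite] (p p' k₀ q e : ℝ),
    0 ≤ p' → p' ≤ p → p ≤ 1 → 0 ≤ k₀ → k₀ ≤ p' → 0 ≤ q → q ≤ p' → 0 ≤ e → e ≤ 1 →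
    ∀ (R₀ R₁ D L L₁ : Set V) (u : V → V), Disjoint R₀ R₁ → Disjoint R₀ D → Disjoint R₁ D →
    L ⊆ R₀ → L₁ ⊆ R₁ → (∀ y ∈ L, G.Adj y (u y) ∧ u y ∈ R₁) →
    (∀ v ∈ L₁, G.Adj v (u v) ∧ u v ∈ D) →
    (∀ y ∈ L, ENNReal.ofReal e < ∑' v, L₁.indicator (fun v => TT G p' R₁ (u y) v) v) →
    (∀ y ∈ L, ENNReal.ofReal (th k₀) * ∑' z, TT G p' R₁ (u y) z *
      (∑' v, L₁.indicator (fun v => TT G p' R₁ z v) v) ^ 2 ≤ ENNReal.ofReal (e / 2)) →
    (∀ y ∈ L, ENNReal.ofReal (th q) * ∑' z, TT G p' R₁ (u y) z *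
      (∑' v, L₁.indicator (fun v => TT G p' R₁ z v) v) *
      (∑' x', L.indicator (fun x' => TT G p' R₁ z (u x')) x') ≤ ENNReal.ofReal (e / 4)) →
    ∀ x, FF G p (th q * th k₀ * e / 16) R₀ L u x ≤ MM G p (R₀ ∪ R₁) D x

end NU

end MP8622
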