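import Pool.Agent.Lib.MP_8622f1_pr.NU.SpecI

set_option autoImplicit false

open Classical Filter Topology

/-!
# MP_8622f1_pr, nonunimodular transitive graphs, block L: heights and bootstrap (helper66)

Heights: `h : V → ℝ`, the logarithm of the modular function: the mass transport principle reads
`∑_y F(x,y) = ∑_y F(y,x) exp (h y - h x)`; edges change the height by at most `τ`, every vertex `x`
has a neighbour at height `h x + τ` and one at height `h x - τ`.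

Quantities (`T` is an absolute height, usually `T > h x`):
* `ET T x` = sum over the top layer `[T-τ, T)` of the half space two point function (region `h < T`),
* `UT T x` = sum over the layer `[T-τ, T)` of the two point function in the region above `x`,
* `GT T x` = sum over the top layer of the two point function in the slab `[h x, T)`,
* `AT T x` = magnetisation at `x` in the half space `h < T` with plus spins on `T ≤ h`,
* `ST T x` = magnetisation at `x` in the slab `[h x, T)` with plus spins on `T ≤ h`.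
`Bd h f A c`: `f T x ≤ A exp (-c (T - h x))` for all `T`, `x` (for `T ≤ h x` all these `f` vanish).

SCHEME. `p < p_c`: `χ < ∞`, so `ET, UT, GT` are `O(exp (-(T - h x)))` (FCH), not uniformly.
`α ≥ 1` = the exponential rate of `ST` (ALP). RAT: at a fixed `p' < p_c`, `ET = O(exp (-(α-η) t))`.
DCL: at `p ∈ [p', p_c)` weak fields `k_s = c₀ exp (-(α + 6η) s)` on the top layer are weaker than plus
spins at height `s` above it. QUA with `k = k_s`: ETA (`GT`) and ETB (`ET`). UBD: `UT` from `GT, ET`.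
THB: `AT` from `UT` with an exponent `ω < 1`. BOO: the resulting inequality `A ≤ K A^θ`, `θ < 1`, gives
a bound uniform in `p < p_c`. SCT: Schur test with the weight `exp (h / 2)`.

Same rules (modules `XXX`: file `NU/XXX.lean`, `import ..NU.SpecL`). All constants `K` are independent
of `p`.
-/

namespace MP8622

namespace NU

section Defs

variable {V : Type}

/-- the vertices at heights in `[a, b)` -/
def lay (h : V → ℝ) (a b : ℝ) : Set V := {y | a ≤ h y ∧ h y < b}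

/-- the vertices below height `T` -/
def bel (h : V → ℝ) (T : ℝ) : Set V := {y | h y < T}

/-- the vertices at height at least `T` -/
def abv (h : V → ℝ) (T : ℝ) : Set V := {y | T ≤ h y}

/-- sum over a set -/
noncomputable def sm (C : Set V) (f : V → ENNReal) : ENNReal := ∑' y, C.indicator f y

variable (G : SimpleGraph V) [G.LocallyFinite]

noncomputable def ET (p : ℝ) (h : V → ℝ) (τ T : ℝ) (x : V) : ENNReal :=
  sm (lay h (T - τ) T) (fun y => TT G p (bel h T) x y)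

noncomputable def UT (p : ℝ) (h : V → ℝ) (τ T : ℝ) (x : V) : ENNReal :=
  sm (lay h (T - τ) T) (fun y => TT G p (abv h (h x)) x y)

noncomputable def GT (p : ℝ) (h : V → ℝ) (τ T : ℝ) (x : V) : ENNReal :=
  sm (lay h (T - τ) T) (fun y => TT G p (lay h (h x) T) x y)

noncomputable def AT (p : ℝ) (h : V → ℝ) (T : ℝ) (x : V) : ENNReal :=
  MM G p (bel h T) (abv h T) x

noncomputable def ST (p : ℝ) (h : V → ℝ) (T : ℝ) (x : V) : ENNReal :=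
  MM G p (lay h (h x) T) (abv h T) x

end Defs

/-- exponential bound -/
def Bd {V : Type} (h : V → ℝ) (f : ℝ → V → ENNReal) (A c : ℝ) : Prop :=
  ∀ (T : ℝ) (x : V), f T x ≤ ENNReal.ofReal (A * Real.exp (-c * (T - h x)))

/-- the susceptibility is at most `X` -/
def Chi {V : Type} (G : SimpleGraph V) [G.LocallyFinite] (p X : ℝ) : Prop :=
  ∀ x : V, ∑' y, TT G p Set.univ x y ≤ ENNReal.ofReal X

/-- heights -/
structure HT (Γ : Type) {V : Type} [Group Γ] [MulAction Γ V] (G : SimpleGraph V) (h : V → ℝ)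
    (τ : ℝ) : Prop where
  pos : 0 < τ
  aut : ∀ (γ : Γ) (x y : V), G.Adj (γ • x) (γ • y) ↔ G.Adj x y
  tra : ∀ x y : V, ∃ γ : Γ, γ • x = y
  eqv : ∀ (γ : Γ) (x y : V), h (γ • y) - h (γ • x) = h y - h x
  lip : ∀ x y : V, G.Adj x y → |h y - h x| ≤ τ
  up : ∀ x : V, ∃ y, G.Adj x y ∧ h y = h x + τ
  dn : ∀ x : V, ∃ y, G.Adj x y ∧ h y = h x - τ
  mtp : ∀ F : V → V → ENNReal, (∀ (γ : Γ) (x y : V), F (γ • x) (γ • y) = F x y) →
    ∀ x : V, ∑' y, F x y = ∑' y, F y x * ENNReal.ofReal (Real.exp (h y - h x))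

/-- the setting of all modules: heights, degree at most `d`, `p ≥ p₀ > 0` -/
structure Cx (Γ : Type) {V : Type} [Group Γ] [MulAction Γ V] (G : SimpleGraph V)
    [G.LocallyFinite] (h : V → ℝ) (τ : ℝ) (d : ℕ) (p₀ : ℝ) : Prop where
  ht : HT Γ G h τ
  conn : G.Connected
  deg : ∀ x : V, (G.neighborFinset x).card ≤ d
  dpos : 1 ≤ d
  ppos : 0 < p₀
  plt : p₀ < 1

/-! ### Heights of a nonunimodular action -/

/-- size of the orbit of `y` under the stabilizer of `x` -/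
noncomputable def os (Γ : Type) {V : Type} [Group Γ] [MulAction Γ V] (x y : V) : ℕ :=
  (MulAction.orbit (MulAction.stabilizer Γ x) y).ncard

/-- MOD: the modular cocycle (group theory).
Proof: `os x y = [Γ_x : Γ_x ∩ Γ_y]`. With `Γ_xyz` the common stabilizer and `i_xy = [Γ_xy : Γ_xyz]`
(finite): `os x y * i_xy = os x z * i_xz = [Γ_x : Γ_xyz]`, and cyclically. Multiply:
`(os x y * i_xy) (os y z * i_yz) (os z x * i_xz) = (os x z * i_xz) (os y x * i_xy) (os z y * i_yz)`. -/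
def SpecMOD : Prop :=
  ∀ (Γ V : Type) [Group Γ] [MulAction Γ V],
    (∀ x y : V, (MulAction.orbit (MulAction.stabilizer Γ x) y).Finite) → ∀ x y z : V,
    0 < os Γ x y ∧ os Γ x y * os Γ y z * os Γ z x = os Γ y x * os Γ z y * os Γ x z

/-- MTT: mass transport principle.
Proof: for `y'` choose `γ` with `γ • y' = x` and put `y'^* = γ • x`. Then `F y' x = F x y'^*`, and
`F x` is constant on the orbit `Γ_x y'^*`. Write
`F x y = ∑_{y'} [y' ∈ Γ_x y^*] F x y / |Γ_x y^*|` (`y^*` defined in the same way), exchange the sums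
(`ENNReal.tsum_comm`): `y' ∈ Γ_x y^*` iff `y ∈ Γ_x y'^*`, then `F x y = F y' x`, `|Γ_x y^*| = |Γ_x y'|
= os x y'`, and the number of these `y` is `|Γ_x y'^*| = |Γ_{y'} x| = os y' x`. -/
def SpecMTT : Prop :=
  ∀ (Γ V : Type) [Group Γ] [MulAction Γ V],
    (∀ x y : V, (MulAction.orbit (MulAction.stabilizer Γ x) y).Finite) →
    (∀ x y : V, ∃ γ : Γ, γ • x = y) →
    ∀ F : V → V → ENNReal, (∀ (γ : Γ) (x y : V), F (γ • x) (γ • y) = F x y) →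
    ∀ x : V, ∑' y, F x y = ∑' y, F y x * ((os Γ y x : ENNReal) / (os Γ x y : ENNReal))

/-- HGT: heights (from MOD, MTT). `h x = log (os x o / os o x)` for a base point `o`, so that
`h y - h x = log (os y x / os x y)` (MOD); stabilizer orbits are finite because balls are finite.
`h` is invariant under a simultaneous translation: `os (γ x) (γ y) = os x y`. Some edge has
`h y ≠ h x` (else `h` is constant by connectedness, contradicting the hypothesis); `τ` = the maximum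
of `|h y - h x|` over the neighbours `y` of `x` (independent of `x`). If `h y = h x + τ` for an edge
`x y`, all vertices have an up-neighbour and (translates of `(y, x)`) a down-neighbour; the same if
`h y = h x - τ`. -/
def SpecHGT : Prop :=
  ∀ (Γ V : Type) [Group Γ] [MulAction Γ V] (G : SimpleGraph V) [G.LocallyFinite], G.Connected →
    (∀ (γ : Γ) (x y : V), G.Adj (γ • x) (γ • y) ↔ G.Adj x y) → (∀ x y : V, ∃ γ : Γ, γ • x = y) →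
    (∃ x y : V, os Γ x y ≠ os Γ y x) → ∃ (h : V → ℝ) (τ : ℝ), HT Γ G h τ

/-! ### Sums over layers -/

/-- MTI: the mass transport principle for two point functions in regions depending on the second
vertex (from `HT.mtp`, ITA.inv: the regions are equivariant). -/
def SpecMTI : Prop :=
  ∀ (Γ V : Type) [Group Γ] [MulAction Γ V] (G : SimpleGraph V) [G.LocallyFinite] (h : V → ℝ)
    (τ p : ℝ), HT Γ G h τ → 0 ≤ p → p ≤ 1 → ∀ (ϕ : ℝ → ENNReal) (r : ℝ) (x : V),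
    (∑' z, TT G p (bel h (h z + r)) x z * ϕ (h z - h x) =
      ∑' z, TT G p (bel h (h x + r)) z x * ϕ (h x - h z) *
        ENNReal.ofReal (Real.exp (h z - h x))) ∧
    (∑' z, TT G p (abv h (h z + r)) x z * ϕ (h z - h x) =
      ∑' z, TT G p (abv h (h x + r)) z x * ϕ (h x - h z) *
        ENNReal.ofReal (Real.exp (h z - h x))) ∧
    (∑' z, TT G p Set.univ x z * ϕ (h z - h x) =
      ∑' z, TT G p Set.univ z x * ϕ (h x - h z) * ENNReal.ofReal (Real.exp (h z - h x)))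

/-- PSH: pushing a layer up or down by `τ` (finite energy), `K = d / th p₀`.
Proof: `up y` = an up-neighbour of `y`. `TT R x y * th p ≤ TT R x y * TT R y (up y) ≤ TT R x (up y)` for
`y ∈ R` in the layer (`up y ∈ R` by assumption); at most `d` vertices `y` have the same `up y`. -/
def SpecPSH : Prop :=
  ∀ (Γ V : Type) [Group Γ] [MulAction Γ V] (G : SimpleGraph V) [G.LocallyFinite] (h : V → ℝ)
    (τ : ℝ) (d : ℕ) (p₀ : ℝ), Cx Γ G h τ d p₀ → ∃ K : ℝ, 1 ≤ K ∧ ∀ p : ℝ, p₀ ≤ p → p ≤ 1 →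
    ∀ (R : Set V) (x : V) (a b : ℝ),
      (lay h (a + τ) (b + τ) ⊆ R → sm (lay h a b) (fun y => TT G p R x y) ≤
        ENNReal.ofReal K * sm (lay h (a + τ) (b + τ)) (fun y => TT G p R x y)) ∧
      (lay h (a - τ) (b - τ) ⊆ R → sm (lay h a b) (fun y => TT G p R x y) ≤
        ENNReal.ofReal K * sm (lay h (a - τ) (b - τ)) (fun y => TT G p R x y))

/-- DWN: sums downwards from the top layer (from MTI, PSH).
Proof: let `y ∈ [T-τ, T)` (if `h y ≥ T` the left side is `0`). `bel h T ⊆ bel h (h y + τ)` and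
`h y - h z ∈ (u - τ, u + τ)` for the `z` of the layer. MTI (first part, `r = τ`, base point `y`, read
from right to left, `ϕ` times the exponential): the sum is at most `exp (u + τ)` times the sum over
`z'`, `h z' - h y ∈ (u - τ, u + τ)`, of `TT (bel h (h z' + τ)) y z' ≤ TT (bel h (h y + u + 2τ)) y z'`; PSH
twice for `[h y + u - τ, h y + u)`, once for `[h y + u, h y + u + τ)`: at most `2 K₁² ET (h y + u + 2τ) y`. -/
def SpecDWN : Prop :=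
  ∀ (Γ V : Type) [Group Γ] [MulAction Γ V] (G : SimpleGraph V) [G.LocallyFinite] (h : V → ℝ)
    (τ : ℝ) (d : ℕ) (p₀ : ℝ), Cx Γ G h τ d p₀ → ∃ K : ℝ, 1 ≤ K ∧ ∀ p : ℝ, p₀ ≤ p → p ≤ 1 →
    ∀ A c : ℝ, 0 ≤ A → 0 ≤ c → Bd h (ET G p h τ) A c → ∀ (T u : ℝ) (y : V), T - τ ≤ h y → 0 ≤ u →
      sm (lay h (T - u - τ) (T - u)) (fun z => TT G p (bel h T) y z) ≤
        ENNReal.ofReal (K * A * Real.exp ((1 - c) * u))

/-- HPD: decomposition at the highest layer (from ITR, ITA.dir).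
Proof: `R_n = R₀ ∩ bel h (T₀ + n τ)`; `R_{n+1} \ lay h (T₀ + nτ) (T₀ + (n+1)τ) = R_n`; ITR; sum over `n < N`
(telescoping), supremum over `N`. -/
def SpecHPD : Prop :=
  ∀ (V : Type) (G : SimpleGraph V) [G.LocallyFinite] (h : V → ℝ) (τ p : ℝ), 0 < τ → 0 ≤ p →
    p ≤ 1 → ∀ (R₀ : Set V) (T₀ : ℝ) (x z : V),
    TT G p R₀ x z ≤ TT G p (R₀ ∩ bel h T₀) x z +
      ∑' i : ℕ, sm (lay h (T₀ + i * τ) (T₀ + (i + 1) * τ)) (fun y =>
        TT G p (R₀ ∩ bel h (T₀ + (i + 1) * τ)) x y * TT G p (R₀ ∩ bel h (T₀ + (i + 1) * τ)) y z)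

/-- LPD: decomposition of the magnetisation at the lowest layer (from IMR, IMA.dir), as HPD with
`R_n = lay h (b - nτ) T`. -/
def SpecLPD : Prop :=
  ∀ (V : Type) (G : SimpleGraph V) [G.LocallyFinite] (h : V → ℝ) (τ p : ℝ), 0 < τ → 0 ≤ p →
    p ≤ 1 → ∀ (b T : ℝ) (x : V),
    MM G p (bel h T) (abv h T) x ≤ MM G p (lay h b T) (abv h T) x +
      ∑' i : ℕ, sm (lay h (b - (i + 1) * τ) (b - i * τ)) (fun z =>
        TT G p (lay h (b - (i + 1) * τ) T) x z * MM G p (lay h (b - (i + 1) * τ) T) (abv h T) z)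

/-- FSU: sums over layers in the whole space (from HPD, DWN, PSH, MTI); `c > 1/2`.
Proof of the first: HPD with `R₀ = univ`, `T₀ = T + τ`, sum over `z ∈ lay h T (T+τ)`: the first term is
`ET (T+τ) x`; the `i`-th term: `∑_y TT (bel ..) x y = ET (T₀ + (i+1)τ) x ≤ A exp (-c (T₀ + (i+1)τ - h x))`
times `∑_z TT (bel h (T₀ + (i+1)τ)) y z ≤ K A exp ((1-c)(i+1)τ)` (DWN, `u = (i+1)τ`); the series
`∑ exp ((1-2c)(i+1)τ)` converges. Second: `s = h x - T`; MTI (third part): the sum is at most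
`exp (s+τ)` times the sum over `h z - h x ∈ (s, s+τ]`, contained in two layers of the first kind. -/
def SpecFSU : Prop :=
  ∀ (Γ V : Type) [Group Γ] [MulAction Γ V] (G : SimpleGraph V) [G.LocallyFinite] (h : V → ℝ)
    (τ : ℝ) (d : ℕ) (p₀ : ℝ), Cx Γ G h τ d p₀ → ∀ c : ℝ, 1 / 2 < c →
    ∃ K : ℝ, 1 ≤ K ∧ ∀ p : ℝ, p₀ ≤ p → p ≤ 1 → ∀ A : ℝ, 1 ≤ A → Bd h (ET G p h τ) A c →
      (∀ (x : V) (T : ℝ), h x ≤ T → sm (lay h T (T + τ)) (fun z => TT G p Set.univ x z) ≤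
        ENNReal.ofReal (K * A ^ 2 * Real.exp (-c * (T - h x)))) ∧
      (∀ (x : V) (T : ℝ), T ≤ h x → sm (lay h (T - τ) T) (fun z => TT G p Set.univ x z) ≤
        ENNReal.ofReal (K * A ^ 2 * Real.exp ((1 - c) * (h x - T))))

/-- QBD (from FSU). Let `t = T - h x ≥ 0` (else the left side is `0`). Layers
`z ∈ [h x + jτ, h x + (j+1)τ)`, `jτ < t`: `∑ TT ≤ K A² exp (-c j τ)`, `ET T z ≤ A exp (-c (t - (j+1)τ))`, the
sum of the terms `exp (-cjτ - 2ct + 2c(j+1)τ)` is at most `C exp (-ct)`. Layers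
`[h x - (j+1)τ, h x - jτ)`: `∑ TT ≤ K A² exp ((1-c)jτ)`, `ET ≤ A exp (-c(t + jτ))`. -/
def SpecQBD : Prop :=
  ∀ (Γ V : Type) [Group Γ] [MulAction Γ V] (G : SimpleGraph V) [G.LocallyFinite] (h : V → ℝ)
    (τ : ℝ) (d : ℕ) (p₀ : ℝ), Cx Γ G h τ d p₀ → ∀ c : ℝ, 1 / 2 < c →
    ∃ K : ℝ, 1 ≤ K ∧ ∀ p : ℝ, p₀ ≤ p → p ≤ 1 → ∀ A : ℝ, 1 ≤ A → Bd h (ET G p h τ) A c →
      Bd h (fun T x => ∑' z, TT G p (bel h T) x z * ET G p h τ T z ^ 2) (K * A ^ 4) c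

/-- UBD (from HPD, DWN). HPD with `R₀ = abv h (h x)`, `T₀ = T`, sum over `z ∈ lay h (T-τ) T`; the first
term is `GT T x`, the `i`-th term at most `GT (T + (i+1)τ) x` times `K A exp ((1-c)(i+1)τ)`. -/
def SpecUBD : Prop :=
  ∀ (Γ V : Type) [Group Γ] [MulAction Γ V] (G : SimpleGraph V) [G.LocallyFinite] (h : V → ℝ)
    (τ : ℝ) (d : ℕ) (p₀ : ℝ), Cx Γ G h τ d p₀ → ∀ c : ℝ, 1 / 2 < c →
    ∃ K : ℝ, 1 ≤ K ∧ ∀ p : ℝ, p₀ ≤ p → p ≤ 1 → ∀ A B : ℝ, 1 ≤ A → 0 ≤ B →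
      Bd h (ET G p h τ) A c → Bd h (GT G p h τ) B c → Bd h (UT G p h τ) (K * B * A) c

/-- THB (from LPD, MTI, IMA, ITA). `t₀ = th p₀`, `κ = log (1/t₀) / τ`, `ω = κ / (κ + c)`.
Proof: `t = T - h x > 0`, `ℓ ≥ 0`, LPD with `b = h x - ℓ`. First term: with `n = ⌈ℓ/τ⌉` and `z` the vertex
reached from `x` by `n` steps down, `ST T z ≥ t₀^n MM (lay h b T) x`, so it is at most
`t₀^{-n} exp (-α t) ≤ t₀^{-1} exp (κℓ) exp (-αt)`. `i`-th term: `z' ` = a down-neighbour of `z`, at height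
`h z - τ < b - (i+1)τ + ..` below the bottom of the slab: `MM (lay ..) z ≤ t₀^{-1} ST T z' ≤
t₀^{-1} exp (-αt) exp (-(h x - h z))` (`α ≥ 1`), `TT (lay ..) x z ≤ t₀^{-1} TT (abv h (h z')) x z'`; at most `d`
vertices `z` have the same `z'`; `∑_{z'} TT (abv h (h z')) x z' exp (-(h x - h z'))` over a range of heights
equals (MTI, second part, `r = 0`) the sum of `TT (abv h (h x)) x z''` over `h z'' - h x ∈
(ℓ + (i+1)τ, ℓ + (i+2)τ]`, at most two values of `UT`: `≤ 2 A exp (-c (ℓ + iτ))`. Hence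
`AT T x ≤ C exp (-αt) (exp (κℓ) + A exp (-cℓ))`; choose `exp ((κ+c) ℓ) = A`. -/
def SpecTHB : Prop :=
  ∀ (Γ V : Type) [Group Γ] [MulAction Γ V] (G : SimpleGraph V) [G.LocallyFinite] (h : V → ℝ)
    (τ : ℝ) (d : ℕ) (p₀ : ℝ), Cx Γ G h τ d p₀ → ∀ c : ℝ, 0 < c →
    ∃ K ω : ℝ, 1 ≤ K ∧ 0 ≤ ω ∧ ω < 1 ∧ ∀ p : ℝ, p₀ ≤ p → p ≤ 1 → ∀ A α : ℝ, 1 ≤ A → 1 ≤ α →
      Bd h (ST G p h) 1 α → Bd h (UT G p h τ) A c → Bd h (AT G p h) (K * A ^ ω) α

/-- FCH: finite susceptibility (from MTI, third part). For `T > h x` the layer `[T-τ, T)` is at least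
`T - τ - h x` above `x`; upward sums are at most `exp (-(T - τ - h x)) X`. -/
def SpecFCH : Prop :=
  ∀ (Γ V : Type) [Group Γ] [MulAction Γ V] (G : SimpleGraph V) [G.LocallyFinite] (h : V → ℝ)
    (τ : ℝ) (d : ℕ) (p₀ : ℝ), Cx Γ G h τ d p₀ → ∀ p X : ℝ, p₀ ≤ p → p ≤ 1 → 0 ≤ X → Chi G p X →
    ∀ c : ℝ, 0 ≤ c → c ≤ 1 → Bd h (ET G p h τ) (X * Real.exp τ) c ∧
      Bd h (GT G p h τ) (X * Real.exp τ) c ∧ Bd h (UT G p h τ) (X * Real.exp τ) c ∧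
      ∀ (x : V) (T : ℝ), sm (lay h (T - τ) T) (fun z => TT G p Set.univ x z) ≤
        ENNReal.ofReal (X * Real.exp τ * Real.exp (-(T - h x)))

/-! ### The rate `α` -/

/-- ALP (from ISM, IMA, IMU, FCH, ITA).
Proof: `s_p(t) = ST p (h x + t) x`, `t > 0`, is independent of `x` (transitivity, `MMA.inv`).
(1) `s_p(t) ≥ th p₀ ^ (⌈t/τ⌉ + 1)`: go up by up-neighbours to the last vertex below `h x + t`
(`MMA.bdry`, `MMA.mul`). (2) `s_p(s+t) ≥ s_p(s) s_p(t)`: ISM with `I = lay (h x) (h x + s)`,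
`O = lay (h x + s) (h x + s + t)`, `D = abv (h x + s + t)`, `a = s_p(t)`; for `b ∈ O`, `MM O D b ≥ s_p(t)` by
`MMA.mono` since `h b ≥ h x + s`. (3) `s_p(t) ≤ d X exp τ exp (-t)` (IMU: the vertices adjacent to `D` are
in the top layer; FCH), hence `s_p(t)^n ≤ s_p(nt)` gives `s_p(t) ≤ exp (-t)`.
`α` = infimum of `-log s_p(t) / t` over `p ∈ [p₀, p_c)`, `t > 0`. For `η > 0` choose `p'`, `t₁` with
`s_{p'}(t₁) ≥ exp (-(α+η) t₁)`; for `t = n t₁ + r`, `0 < r ≤ t₁`: `s_{p'}(t) ≥ exp (-(α+η) n t₁) s_{p'}(r)`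
and (1). -/
def SpecALP : Prop :=
  ∀ (Γ V : Type) [Group Γ] [MulAction Γ V] (G : SimpleGraph V) [G.LocallyFinite] (h : V → ℝ)
    (τ : ℝ) (d : ℕ) (p₀ : ℝ), Cx Γ G h τ d p₀ → ∀ pc : ℝ, p₀ < pc → pc ≤ 1 →
    (∀ p : ℝ, p₀ ≤ p → p < pc → ∃ X : ℝ, 0 ≤ X ∧ Chi G p X) →
    ∃ α : ℝ, 1 ≤ α ∧ (∀ p : ℝ, p₀ ≤ p → p < pc → Bd h (ST G p h) 1 α) ∧
      ∀ η : ℝ, 0 < η → ∃ p' c₁ : ℝ, p₀ ≤ p' ∧ p' < pc ∧ 0 < c₁ ∧ c₁ ≤ 1 ∧
        ∀ (x : V) (T : ℝ), h x < T →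
          ENNReal.ofReal (c₁ * Real.exp (-(α + η) * (T - h x))) ≤ ST G p' h T x

/-- RAT: rates at a fixed parameter (from FCH, THB, QBD, IFA, IFQ).
Proof: `c = 3/4`: FCH. Step from `c` to `(α + c)/2` (`3/4 ≤ c < α`): `AT ≤ Θ exp (-αt)` with some `Θ`
(FCH, THB). IFQ with `R = bel h T`, `L = lay h (T-τ) T`, `u` = up-neighbours, `k ≤ p`:
`th k * ET T x ≤ 2 AT T x + (th k)² ∑ TT * ET²` (IFA.le_MM with `D = abv h T`), QBD for the last sum. With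
`k = p exp (-(α-c) t / 2)` (so `k/2 ≤ th k ≤ k`): `ET ≤ C exp (-(α+c) t/2)`. Iterate: `α - c` is halved. -/
def SpecRAT : Prop :=
  ∀ (Γ V : Type) [Group Γ] [MulAction Γ V] (G : SimpleGraph V) [G.LocallyFinite] (h : V → ℝ)
    (τ : ℝ) (d : ℕ) (p₀ : ℝ), Cx Γ G h τ d p₀ → ∀ p X α : ℝ, p₀ ≤ p → p ≤ 1 → 0 ≤ X →
    Chi G p X → 1 ≤ α → Bd h (ST G p h) 1 α → ∀ c : ℝ, c < α →
      ∃ K : ℝ, 1 ≤ K ∧ Bd h (ET G p h τ) K c

/-- the conclusion of DCL: for `s ≥ τ` the fields `c₀ exp (-b s)` on the top layer of a region `R₀` below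
`T` are weaker than plus spins at height `T + s` -/
def Dec {V : Type} (G : SimpleGraph V) [G.LocallyFinite] (h : V → ℝ) (τ p' c₀ b : ℝ) : Prop :=
  ∀ u : V → V, (∀ y, G.Adj y (u y) ∧ h (u y) = h y + τ) → ∀ p : ℝ, p' ≤ p → p ≤ 1 →
    ∀ (s T : ℝ) (R₀ : Set V), τ ≤ s → R₀ ⊆ bel h T → ∀ x : V,
      FF G p (c₀ * Real.exp (-b * s)) R₀ (lay h (T - τ) T ∩ R₀) u x ≤
        MM G p (R₀ ∪ lay h T (T + s)) (abv h (T + s)) x

/-- DCL (from IDC, IMU, FSU, ITA, IMA).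
Proof: `c = α - η`. IDC with `R₁ = lay h T (T+s)`, `D = abv h (T+s)`, `L = lay h (T-τ) T ∩ R₀`,
`L₁ = lay h (T+s-τ) (T+s)`. Let `y' = u y ∈ [T, T+τ)`. Write `e z = ∑_{v ∈ L₁} TT p' R₁ z v ≤ ET p' (T+s) z ≤
K exp (-c (T+s-h z))`. Lower bound: IMU and `h₁`: `ST p' (T+s) y' ≤ d * e y'` (`lay h (h y') (T+s) ⊆ R₁`; the
vertices adjacent to `D` are in `L₁`), so `e y' ≥ (c₁/d) exp (-(α+η) s) > e₀ := (c₁/(2d)) exp (-(α+η) s)`.
`∑_z TT R₁ y' z (e z)²`: layers `[T + jτ, T+(j+1)τ)`, `j ≤ s/τ`: `∑ TT ≤ C exp (-c (j-1) τ)` (FSU, `j = 0` from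
both parts), `e z ≤ K exp (-c (s - (j+1)τ))`: total `≤ C exp (-c s)`. `∑_{x' ∈ L} TT R₁ z (u x') ≤ d X`; so the
third sum is `≤ C (s/τ + 1) exp (-c s) ≤ C' exp (-(c - η) s)`. Hence `hQ` holds for
`k₀ = c₂ exp (-2ηs)` and `hL` for `q = c₃ exp (-3ηs)` with small `c₂, c₃ ≤ p'`, and
`th q * th k₀ * e₀ / 16 ≥ c₀ exp (-(α+η) s - 5ηs)` (`IFA.mono`). -/
def SpecDCL : Prop :=
  ∀ (Γ V : Type) [Group Γ] [MulAction Γ V] (G : SimpleGraph V) [G.LocallyFinite] (h : V → ℝ)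
    (τ : ℝ) (d : ℕ) (p₀ : ℝ), Cx Γ G h τ d p₀ → ∀ p' X α η K c₁ : ℝ, p₀ ≤ p' → p' < 1 → 0 ≤ X →
    Chi G p' X → 0 < η → 1 / 2 < α - η → 1 ≤ K → Bd h (ET G p' h τ) K (α - η) → 0 < c₁ → c₁ ≤ 1 →
    (∀ (x : V) (T : ℝ), h x < T →
      ENNReal.ofReal (c₁ * Real.exp (-(α + η) * (T - h x))) ≤ ST G p' h T x) →
    ∃ c₀ : ℝ, 0 < c₀ ∧ c₀ ≤ 1 ∧ Dec G h τ p' c₀ (α + 6 * η)

/-- ETA: bound for `GT` (from IFQ, QBD). `δ = 24 η`, `K` independent of `p`, `A`.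
Proof: `t = T - h x > 0`. IFQ with `R = R₀ = lay h (h x) T`, `L = lay h (T-τ) T ∩ R₀`, and Dec:
`th k * GT T x ≤ 2 ST (T+s) x + (th k)² Q`, `k = c₀ exp (-(α+6η) s)`, `ST (T+s) x ≤ exp (-α (t+s))`,
`Q ≤ ∑ TT (bel h T) x z (ET T z)² ≤ K₁ A⁴ exp (-3t/4)` (QBD). Choose `s = τ + 4 log A / (α + 6η)`, so
`k = c₀ exp (-(α+6η)τ) A^{-4}`; `k/2 ≤ th k ≤ k`; `k^{-1} exp (-αs) = C exp (6ηs) ≤ C' A^{24η/(α+6η)} ≤
C' A^{24η}`, `k A⁴ ≤ 1`. -/
def SpecETA : Prop :=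
  ∀ (Γ V : Type) [Group Γ] [MulAction Γ V] (G : SimpleGraph V) [G.LocallyFinite] (h : V → ℝ)
    (τ : ℝ) (d : ℕ) (p₀ : ℝ), Cx Γ G h τ d p₀ → ∀ p' α η c₀ : ℝ, p₀ ≤ p' → p' < 1 → 1 ≤ α →
    0 < η → η ≤ 1 → 0 < c₀ → c₀ ≤ 1 → Dec G h τ p' c₀ (α + 6 * η) →
    ∃ K : ℝ, 1 ≤ K ∧ ∀ p A : ℝ, p' ≤ p → p ≤ 1 → 1 ≤ A → Bd h (ET G p h τ) A (3 / 4) →
      Bd h (ST G p h) 1 α → Bd h (GT G p h τ) (K * A ^ (24 * η)) (3 / 4)

/-- ETB: bound for `ET` (from IFQ, QBD). As ETA with `R₀ = bel h T`: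
`th k * ET T x ≤ 2 AT (T+s) x + (th k)² Q`, `AT (T+s) x ≤ Θ exp (-α(t+s))`. -/
def SpecETB : Prop :=
  ∀ (Γ V : Type) [Group Γ] [MulAction Γ V] (G : SimpleGraph V) [G.LocallyFinite] (h : V → ℝ)
    (τ : ℝ) (d : ℕ) (p₀ : ℝ), Cx Γ G h τ d p₀ → ∀ p' α η c₀ : ℝ, p₀ ≤ p' → p' < 1 → 1 ≤ α →
    0 < η → η ≤ 1 → 0 < c₀ → c₀ ≤ 1 → Dec G h τ p' c₀ (α + 6 * η) →
    ∃ K : ℝ, 1 ≤ K ∧ ∀ p A Θ : ℝ, p' ≤ p → p ≤ 1 → 1 ≤ A → 1 ≤ Θ →
      Bd h (ET G p h τ) A (3 / 4) → Bd h (AT G p h) Θ α →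
      Bd h (ET G p h τ) (K * Θ * A ^ (24 * η)) (3 / 4)

/-- BOO: the uniform bound (from FCH, ALP, RAT, DCL, ETA, ETB, UBD, THB).
Proof: THB with `c = 3/4` gives `K_T`, `ω`. `24η = δ = (1-ω)/4`. ALP: `α`, `p'`, `c₁`. RAT at `p'` with
`c = α - η`; DCL; ETA, ETB; UBD with `c = 3/4`. For `p ∈ [p', pc)`: some `A ≥ 1` with `Bd ET A (3/4)` (FCH).
`GT`: `K A^δ`; `UT`: `K K A^{1+δ}`; `AT`: `K_T (K² A^{1+δ})^ω`; `ET`: `K' A^θ`, `θ = ω(1+δ) + δ < 1`, `K'`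
independent of `p`, `A`. So `Bd ET A` implies `Bd ET (K' A^θ)`; iterate; the limit is `K'^(1/(1-θ))`. -/
def SpecBOO : Prop :=
  ∀ (Γ V : Type) [Group Γ] [MulAction Γ V] (G : SimpleGraph V) [G.LocallyFinite] (h : V → ℝ)
    (τ : ℝ) (d : ℕ) (p₀ : ℝ), Cx Γ G h τ d p₀ → ∀ pc : ℝ, p₀ < pc → pc ≤ 1 →
    (∀ p : ℝ, p₀ ≤ p → p < pc → ∃ X : ℝ, 0 ≤ X ∧ Chi G p X) →
    ∃ p' A : ℝ, p₀ ≤ p' ∧ p' < pc ∧ 1 ≤ A ∧
      ∀ p : ℝ, p' ≤ p → p < pc → Bd h (ET G p h τ) A (3 / 4)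

/-- SCT: Schur test (from FSU with `c = 3/4`, ITA).
Proof: `∑_y TT univ x y exp ((h y - h x)/2) ≤ B₀` (layers: `exp ((j+1)τ/2 - 3jτ/4)` above and
`exp (-jτ/2 + jτ/4)` below). Schur test with the weight `w y = exp (h y / 2)`: for `v ≥ 0`,
`(∑_y K x y v y)² ≤ (∑_y K x y w y) (∑_y K x y v y² / w y) ≤ B₀ w x ∑_y K x y v y² / w y`, sum over `x`
with the symmetry of `K = tau G p Λ ≤ TT univ`: `≤ B₀² ∑ v y²`. -/
def SpecSCT : Prop :=
  ∀ (Γ V : Type) [Group Γ] [MulAction Γ V] (G : SimpleGraph V) [G.LocallyFinite] (h : V → ℝ)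
    (τ : ℝ) (d : ℕ) (p₀ : ℝ), Cx Γ G h τ d p₀ → ∀ A : ℝ, 1 ≤ A →
    ∃ B : ℝ, 0 < B ∧ ∀ p : ℝ, p₀ ≤ p → p ≤ 1 → Bd h (ET G p h τ) A (3 / 4) →
      ∀ Λ : Finset V, AHP.OB 2 (tau G p Λ) B

/-- UNI: uniform operator bound (from BOO, SCT). Monotonicity in `p` for `p < p'`. -/
def SpecUNI : Prop :=
  ∀ (Γ V : Type) [Group Γ] [MulAction Γ V] (G : SimpleGraph V) [G.LocallyFinite] (h : V → ℝ)
    (τ : ℝ), HT Γ G h τ → G.Connected → ∀ pc : ℝ, 0 < pc → pc ≤ 1 →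
    (∀ p : ℝ, 0 < p → p < pc → ∃ B : ℝ, ∀ (Λ : Finset V) (x : V), ∑ z ∈ Λ, tau G p Λ x z ≤ B) →
    ∃ B : ℝ, 0 < B ∧ ∀ p : ℝ, 0 ≤ p → p < pc → ∀ Λ : Finset V, AHP.OB 2 (tau G p Λ) B

/-- END: the final statement (from HGT, UNI, `RP.SpecSHA`, `RP.SpecPSS`; compare `RP/FIN.lean`,
`RP/END.lean`). `β_c = inf {β > 0 | 0 < tp G β {o}}`; if the set were empty, UNI with `pc = 1` (SHA)
and continuity in `p` would bound `tau G 1 Λ` on `ℓ²`, but `tau G 1 Λ x y = 1` if `x, y` are connected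
inside `Λ`. -/
def SpecNUN : Prop :=
  ∀ (Γ V : Type) [Group Γ] [MulAction Γ V] (G : SimpleGraph V) [G.LocallyFinite], G.Connected →
    (∀ (γ : Γ) (x y : V), G.Adj (γ • x) (γ • y) ↔ G.Adj x y) → (∀ x y : V, ∃ γ : Γ, γ • x = y) →
    (∃ x y : V, (MulAction.orbit (MulAction.stabilizer Γ x) y).ncard ≠
      (MulAction.orbit (MulAction.stabilizer Γ y) x).ncard) →
    ∀ (o : V) (σ : ℝ → Finset V → Finset V → V → ℝ),
      (∀ (h : ℝ) (Λ S : Finset V) (x : V),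
          σ h Λ S x = if x ∈ Λ then (if x ∈ S then (1 : ℝ) else -1) else h) →
    ∀ E : ℝ → Finset V → Finset V → ℝ,
      (∀ (h : ℝ) (Λ S : Finset V),
          E h Λ S = ∑ x ∈ Λ, ∑ y ∈ G.neighborFinset x,
            (if y ∈ Λ then (1 / 2 : ℝ) else 1) * σ h Λ S x * σ h Λ S y) →
    ∀ C : ℝ → ℝ → Finset V → Finset V → ℝ,
      (∀ (β h : ℝ) (A Λ : Finset V),
          C β h A Λ =
            (∑ S ∈ Λ.powerset, (∏ x ∈ A, σ h Λ S x) * Real.exp (β * E h Λ S)) /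
              ∑ S ∈ Λ.powerset, Real.exp (β * E h Λ S)) →
    (∃ β : ℝ, 0 < β ∧ ∃ p : ℝ, 0 < p ∧
      Tendsto (fun Λ : Finset V => C β 1 {o} Λ) atTop (𝓝 p)) ∧
    ∃ ε : ℝ, 0 < ε ∧ ∀ β : ℝ,
      sInf {β : ℝ | 0 < β ∧ ∃ p : ℝ, 0 < p ∧
        Tendsto (fun Λ : Finset V => C β 1 {o} Λ) atTop (𝓝 p)} < β →
      β < sInf {β : ℝ | 0 < β ∧ ∃ p : ℝ, 0 < p ∧
        Tendsto (fun Λ : Finset V => C β 1 {o} Λ) atTop (𝓝 p)} + ε →
      (∃ τ : V → V → ℝ, (∀ x, τ x x = 1) ∧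
        (∀ x y, x ≠ y → Tendsto (fun Λ : Finset V => C β 0 {x, y} Λ) atTop (𝓝 (τ x y))) ∧
        ∃ B : ℝ, ∀ (S R : Finset V) (f : V → ℝ),
          ∑ x ∈ R, (∑ y ∈ S, τ x y * f y) ^ 2 ≤ B * ∑ y ∈ S, f y ^ 2) ∧
      ∃ A : Finset V, ∃ a p m : ℝ,
        Tendsto (fun Λ : Finset V => C β 0 A Λ) atTop (𝓝 a) ∧
        Tendsto (fun Λ : Finset V => C β 1 A Λ) atTop (𝓝 p) ∧
        Tendsto (fun Λ : Finset V => C β (-1) A Λ) atTop (𝓝 m) ∧
        a ≠ (p + m) / 2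

end NU

end MP8622
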