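import Pool.Agent.Lib.MP_8622f1_pr.SpecIs
import Pool.Agent.Lib.MP_8622f1_pr.Mtpc
import Pool.Agent.Lib.AHP.Spec
import Pool.Agent.Lib.AHP.FamMain
import Pool.Agent.Lib.MP_8622f1_pr.NU.SpecF
import Pool.Agent.Lib.MP_8622f1_pr.NU.SpecI
import Pool.Agent.Lib.MP_8622f1_pr.NU.SpecL

section
set_option autoImplicit false

open Classical Filter Topology MeasureTheory

/-!
Sharpness in finite volume: from the covariance inequality and the domain Markov property.
-/

namespace MP8622

namespace ShpM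

variable {V : Type}

/-- weights for the constant opening probability `1 - exp (-2 β)` -/
theorem fwt_eq (θ : ℕ) (β : ℝ) {E ω : Finset (Sym2 V)} (Λ : Finset V) :
    fwt θ (fun _ => pr β) E Λ ω =
      pr β ^ ω.card * Real.exp (-2 * β) ^ (E \ ω).card * ((Hs Λ ω).card : ℝ) ^ θ := by
  unfold fwt
  rw [Finset.prod_const, Finset.prod_const]
  have : 1 - pr β = Real.exp (-2 * β) := by unfold pr; ring
  rw [this]

theorem fwt_nonneg {θ : ℕ} {P : Sym2 V → ℝ} (h0 : ∀ e, 0 ≤ P e) (h1 : ∀ e, P e ≤ 1)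
    (E : Finset (Sym2 V)) (Λ : Finset V) (ω : Finset (Sym2 V)) : 0 ≤ fwt θ P E Λ ω :=
  mul_nonneg (bw_nonneg h0 h1 E ω) (pow_nonneg (Nat.cast_nonneg _) _)

theorem Z_pos' {θ : ℕ} {P : Sym2 V → ℝ} (h0 : ∀ e, 0 ≤ P e) (h1 : ∀ e, P e < 1)
    (E : Finset (Sym2 V)) (Λ : Finset V) : 0 < ∑ ω ∈ E.powerset, fwt θ P E Λ ω := by
  have h1' : ∀ e, P e ≤ 1 := fun e => (h1 e).le
  refine lt_of_lt_of_le ?_ (Finset.single_le_sum (f := fun ω => fwt θ P E Λ ω)
    (fun ω _ => fwt_nonneg h0 h1' E Λ ω) (Finset.empty_mem_powerset E))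
  unfold fwt
  rw [Finset.prod_empty, one_mul]
  refine mul_pos (Finset.prod_pos fun e _ => by linarith [h1 e]) (pow_pos ?_ _)
  exact_mod_cast card_Hs_pos Λ ∅

theorem pr_lt_one (β : ℝ) : pr β < 1 := by
  unfold pr
  linarith [Real.exp_pos (-2 * β)]

theorem hasDerivAt_pr (β : ℝ) : HasDerivAt pr (2 * Real.exp (-2 * β)) β := by
  unfold pr
  have h1 : HasDerivAt (fun x : ℝ => -2 * x) (-2) β := by
    simpa using (hasDerivAt_id β).const_mul (-2 : ℝ)
  have h2 := (h1.exp).const_sub 1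
  exact h2.congr_deriv (by ring)

theorem hasDerivAt_w (β : ℝ) (hβ : 0 < β) (n m : ℕ) :
    HasDerivAt (fun β => pr β ^ n * Real.exp (-2 * β) ^ m)
      ((2 / pr β * n - 2 * (n + m)) * (pr β ^ n * Real.exp (-2 * β) ^ m)) β := by
  have hp : 0 < pr β := by
    unfold pr
    have : Real.exp (-2 * β) < 1 := Real.exp_lt_one_iff.2 (by linarith)
    linarith
  have hE : Real.exp (-2 * β) = 1 - pr β := by unfold pr; ring
  have h1 : HasDerivAt (fun x : ℝ => -2 * x) (-2) β := by
    simpa using (hasDerivAt_id β).const_mul (-2 : ℝ)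
  have h2 := h1.exp
  have h3 := (hasDerivAt_pr β).fun_pow n
  have h4 := h2.fun_pow m
  have h5 := h3.fun_mul h4
  refine h5.congr_deriv ?_
  rw [hE]
  rcases n with _ | n
  · rcases m with _ | m
    · simp
    · simp only [Nat.cast_zero, mul_zero, zero_mul, pow_zero, Nat.add_sub_cancel]
      push_cast
      ring
  · rcases m with _ | m
    · simp only [Nat.cast_zero, mul_zero, zero_mul, pow_zero, Nat.add_sub_cancel]
      push_cast
      field_simp
      ring
    · simp only [Nat.add_sub_cancel]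
      push_cast
      field_simp
      ring

/-- derivative of an expectation -/
theorem hasDerivAt_pt (θ : ℕ) (E : Finset (Sym2 V)) (Λ : Finset V)
    (f : Finset (Sym2 V) → ℝ) (β : ℝ) (hβ : 0 < β) :
    HasDerivAt (fun β => pt θ (fun _ => pr β) E Λ f)
      (2 / pr β * (pt θ (fun _ => pr β) E Λ (fun ω => f ω * (ω.card : ℝ)) -
        pt θ (fun _ => pr β) E Λ f * pt θ (fun _ => pr β) E Λ (fun ω => (ω.card : ℝ)))) β := by
  have hp : 0 < pr β := by
    unfold pr
    have : Real.exp (-2 * β) < 1 := Real.exp_lt_one_iff.2 (by linarith)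
    linarith
  have hZ := Z_pos' (θ := θ) (P := fun _ => pr β) (fun _ => hp.le) (fun _ => pr_lt_one β) E Λ
  have key : ∀ g : Finset (Sym2 V) → ℝ, HasDerivAt
      (fun β => ∑ ω ∈ E.powerset, g ω * fwt θ (fun _ => pr β) E Λ ω)
      (2 / pr β * (∑ ω ∈ E.powerset, g ω * (ω.card : ℝ) * fwt θ (fun _ => pr β) E Λ ω) -
        2 * E.card * ∑ ω ∈ E.powerset, g ω * fwt θ (fun _ => pr β) E Λ ω) β := by
    intro g
    have h1 : ∀ ω ∈ E.powerset, HasDerivAt (fun β => g ω * fwt θ (fun _ => pr β) E Λ ω)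
        ((2 / pr β * (ω.card : ℝ) - 2 * E.card) * (g ω * fwt θ (fun _ => pr β) E Λ ω)) β := by
      intro ω hω
      rw [Finset.mem_powerset] at hω
      have hc : (ω.card : ℝ) + ((E \ ω).card : ℝ) = E.card := by
        rw [Finset.card_sdiff_of_subset hω, Nat.cast_sub (Finset.card_le_card hω)]
        ring
      have h2 := ((hasDerivAt_w β hβ ω.card (E \ ω).card).mul_const
        (((Hs Λ ω).card : ℝ) ^ θ)).const_mul (g ω)
      simp only [fwt_eq]
      refine h2.congr_deriv ?_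
      rw [← hc]
      ring
    have h3 := HasDerivAt.fun_sum h1
    refine h3.congr_deriv ?_
    rw [Finset.mul_sum, Finset.mul_sum, ← Finset.sum_sub_distrib]
    refine Finset.sum_congr rfl fun ω _ => ?_
    ring
  have hN := key f
  have hD := key (fun _ => 1)
  simp only [one_mul] at hD
  have h4 := hN.fun_div hD hZ.ne'
  unfold pt
  refine h4.congr_deriv ?_
  field_simp
  ring

theorem pt_one {θ : ℕ} {P : Sym2 V → ℝ} (h0 : ∀ e, 0 ≤ P e) (h1 : ∀ e, P e < 1)
    (E : Finset (Sym2 V)) (Λ : Finset V) {f : Finset (Sym2 V) → ℝ} (hf : ∀ ω, f ω ≤ 1) :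
    pt θ P E Λ f ≤ 1 := by
  unfold pt
  rw [div_le_one (Z_pos' h0 h1 E Λ)]
  refine Finset.sum_le_sum fun ω _ => ?_
  have := mul_le_mul_of_nonneg_right (hf ω) (fwt_nonneg (θ := θ) h0 (fun e => (h1 e).le) E Λ ω)
  simpa using this

theorem pt_nonneg {θ : ℕ} {P : Sym2 V → ℝ} (h0 : ∀ e, 0 ≤ P e) (h1 : ∀ e, P e < 1)
    (E : Finset (Sym2 V)) (Λ : Finset V) {f : Finset (Sym2 V) → ℝ} (hf : ∀ ω, 0 ≤ f ω) :
    0 ≤ pt θ P E Λ f :=
  div_nonneg (Finset.sum_nonneg fun ω _ => mul_nonneg (hf ω)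
    (fwt_nonneg h0 (fun e => (h1 e).le) E Λ ω)) (Z_pos' h0 h1 E Λ).le

theorem pt_sum {θ : ℕ} {P : Sym2 V → ℝ} (E : Finset (Sym2 V)) (Λ : Finset V) {ι : Type}
    (I : Finset ι) (f : ι → Finset (Sym2 V) → ℝ) :
    pt θ P E Λ (fun ω => ∑ i ∈ I, f i ω) = ∑ i ∈ I, pt θ P E Λ (f i) := by
  unfold pt
  rw [← Finset.sum_div]
  congr 1
  rw [Finset.sum_comm]
  refine Finset.sum_congr rfl fun ω _ => ?_
  rw [Finset.sum_mul]

theorem pt_congr {θ : ℕ} {P : Sym2 V → ℝ} {E : Finset (Sym2 V)} {Λ : Finset V}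
    {f g : Finset (Sym2 V) → ℝ} (h : ∀ ω, ω ⊆ E → f ω = g ω) :
    pt θ P E Λ f = pt θ P E Λ g := by
  unfold pt
  congr 1
  refine Finset.sum_congr rfl fun ω hω => ?_
  rw [h ω (Finset.mem_powerset.1 hω)]

theorem card_eq_sum {E ω : Finset (Sym2 V)} (h : ω ⊆ E) :
    (ω.card : ℝ) = ∑ e ∈ E, if e ∈ ω then (1 : ℝ) else 0 := by
  rw [Finset.sum_ite_mem, Finset.sum_const, nsmul_eq_mul, mul_one,
    Finset.inter_eq_right.2 h]

theorem ind_eq (Λ A : Finset V) (ω : Finset (Sym2 V)) :
    ind Λ A ω = if ind Λ A ω = 1 then 1 else 0 := by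
  unfold ind
  split_ifs with h1 h2 h2
  · rfl
  · exact absurd rfl h2
  · exact absurd h2 (by norm_num)
  · rfl

/-- the differential inequality -/
theorem deriv_ineq (hC : SpecCov) (hD : SpecDmp) {θ : ℕ} (hθ : θ ≤ 1) (E : Finset (Sym2 V))
    (Λ : Finset V) (x : V) (hdiag : ∀ e ∈ E, ¬ e.IsDiag) (hx : x ∈ Λ) (β : ℝ) (hβ : 0 < β)
    (hψ : ∀ S ⊆ Λ, x ∈ S → 1 ≤ psi θ (fun _ => pr β) E S x) :
    1 - pt θ (fun _ => pr β) E Λ (ind Λ {x}) ≤
      2 / pr β * (pt θ (fun _ => pr β) E Λ (fun ω => ind Λ {x} ω * (ω.card : ℝ)) -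
        pt θ (fun _ => pr β) E Λ (ind Λ {x}) *
          pt θ (fun _ => pr β) E Λ (fun ω => (ω.card : ℝ))) := by
  have hp : 0 < pr β := by
    unfold pr
    have : Real.exp (-2 * β) < 1 := Real.exp_lt_one_iff.2 (by linarith)
    linarith
  have h1 := hD θ V (fun _ => pr β) E Λ x (fun _ => hp.le) (fun _ => pr_lt_one β) hdiag hx 1 hψ
  rw [one_mul] at h1
  refine h1.trans ?_
  have h2 := hC θ hθ V (fun _ => pr β) E Λ (fun _ => hp.le) (fun _ => pr_le_one β)
    (fun ω => ind Λ {x} ω = 1) (by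
      intro a b hab _ h
      have := ind_mono (A := {x}) (Finset.Subset.refl Λ) hab
      have h3 := ind_le_one Λ {x} b
      linarith)
  have h3 : pt θ (fun _ => pr β) E Λ (fun ω => ind Λ {x} ω * (ω.card : ℝ)) =
      ∑ e ∈ E, pt θ (fun _ => pr β) E Λ (fun ω => if ind Λ {x} ω = 1 ∧ e ∈ ω then 1 else 0) := by
    rw [← pt_sum]
    refine pt_congr fun ω hω => ?_
    rw [card_eq_sum hω, Finset.mul_sum]
    refine Finset.sum_congr rfl fun e _ => ?_
    conv_lhs => rw [ind_eq]
    by_cases h4 : ind Λ {x} ω = 1 <;> by_cases h5 : e ∈ ω <;> simp [h4, h5]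
  have h4 : pt θ (fun _ => pr β) E Λ (fun ω => (ω.card : ℝ)) =
      ∑ e ∈ E, pt θ (fun _ => pr β) E Λ (fun ω => if e ∈ ω then 1 else 0) := by
    rw [← pt_sum]
    exact pt_congr fun ω hω => card_eq_sum hω
  have h5 : pt θ (fun _ => pr β) E Λ (ind Λ {x}) =
      pt θ (fun _ => pr β) E Λ (fun ω => if ind Λ {x} ω = 1 then 1 else 0) :=
    pt_congr fun ω _ => ind_eq Λ {x} ω
  rw [h3, h4, h5, Finset.mul_sum, ← Finset.sum_sub_distrib, Finset.mul_sum]
  refine Finset.sum_le_sum fun e he => ?_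
  have h6 := h2 e he
  have h7 : (fun ω => if ind Λ {x} ω = 0 ∧ ind Λ {x} (insert e ω) = 1 then (1 : ℝ) else 0) =
      fun ω => if ¬ ind Λ {x} ω = 1 ∧ ind Λ {x} (insert e ω) = 1 then (1 : ℝ) else 0 := by
    funext ω
    have : ind Λ {x} ω = 0 ↔ ¬ ind Λ {x} ω = 1 := by
      unfold ind
      split_ifs <;> norm_num
    simp only [this]
  rw [h7]
  have h8 := mul_le_mul_of_nonneg_left h6 (div_pos two_pos hp).le
  refine le_trans (le_of_eq ?_) h8
  field_simp

theorem continuous_pt (θ : ℕ) (E : Finset (Sym2 V)) (Λ : Finset V) (f : Finset (Sym2 V) → ℝ) :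
    ContinuousOn (fun β => pt θ (fun _ => pr β) E Λ f) (Set.Ici 0) := by
  unfold pt
  have h : ∀ g : Finset (Sym2 V) → ℝ, Continuous
      (fun β => ∑ ω ∈ E.powerset, g ω * fwt θ (fun _ => pr β) E Λ ω) := by
    intro g
    refine continuous_finsetSum _ fun ω _ => ?_
    simp only [fwt_eq]
    unfold pr
    fun_prop
  have h1 := h (fun _ => 1)
  simp only [one_mul] at h1
  exact (h f).continuousOn.div h1.continuousOn fun β hβ =>
    (Z_pos' (fun _ => pr_nonneg hβ) (fun _ => pr_lt_one β) E Λ).ne'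

end ShpM

open ShpM in
theorem specShp (hC : SpecCov) (hD : SpecDmp) : SpecShp := by
  intro θ hθ V E Λ x hdiag hx b hb hψ β hβ
  set M : ℝ → ℝ := fun β => pt θ (fun _ => pr β) E Λ (ind Λ {x}) with hM
  have hanti : AntitoneOn (fun β => (1 - M β) * Real.exp β) (Set.Ici b) := by
    have hder : ∀ y ∈ interior (Set.Ici b), HasDerivAt (fun β => (1 - M β) * Real.exp β)
        (-(2 / pr y * (pt θ (fun _ => pr y) E Λ (fun ω => ind Λ {x} ω * (ω.card : ℝ)) -
          pt θ (fun _ => pr y) E Λ (ind Λ {x}) *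
          pt θ (fun _ => pr y) E Λ (fun ω => (ω.card : ℝ)))) * Real.exp y +
          (1 - M y) * Real.exp y) y := by
      intro y hy
      rw [interior_Ici, Set.mem_Ioi] at hy
      exact ((hasDerivAt_pt θ E Λ (ind Λ {x}) y (hb.trans_lt hy)).const_sub 1).fun_mul
        (Real.hasDerivAt_exp y)
    refine antitoneOn_of_deriv_nonpos (convex_Ici b) ?_ ?_ ?_
    · refine ContinuousOn.mul (continuousOn_const.sub ?_) Real.continuous_exp.continuousOn
      exact (continuous_pt θ E Λ (ind Λ {x})).mono (Set.Ici_subset_Ici.2 hb)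
    · intro y hy
      exact (hder y hy).differentiableAt.differentiableWithinAt
    · intro y hy
      rw [(hder y hy).deriv]
      rw [interior_Ici, Set.mem_Ioi] at hy
      have h1 := deriv_ineq hC hD hθ E Λ x hdiag hx y (hb.trans_lt hy) (hψ y hy)
      have h2 := mul_le_mul_of_nonneg_right h1 (Real.exp_pos y).le
      have h3 : (1 - M y) * Real.exp y = (1 - pt θ (fun _ => pr y) E Λ (ind Λ {x})) *
        Real.exp y := rfl
      rw [h3]
      linarith
  have h1 := hanti (Set.mem_Ici.2 le_rfl) (Set.mem_Ici.2 hβ) hβ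
  simp only at h1
  have h2 : 0 ≤ M b := pt_nonneg (fun _ => pr_nonneg hb) (fun _ => pr_lt_one b) E Λ
    (ind_nonneg Λ {x})
  have h3 : (1 - M b) * Real.exp b ≤ Real.exp b := by
    have := mul_le_mul_of_nonneg_right (show 1 - M b ≤ 1 by linarith) (Real.exp_pos b).le
    linarith
  have h4 : 1 - M β ≤ Real.exp (-(β - b)) := by
    have h5 : (1 - M β) * Real.exp β ≤ Real.exp b := h1.trans h3
    have h6 : Real.exp (-(β - b)) = Real.exp b / Real.exp β := by
      rw [← Real.exp_sub]; congr 1; ring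
    rw [h6, le_div_iff₀ (Real.exp_pos β)]
    exact h5
  have h7 : M β = pt θ (fun _ => pr β) E Λ (ind Λ {x}) := rfl
  linarith

end MP8622
end

section
set_option autoImplicit false

open Classical Filter Topology MeasureTheory

/-!
The Simon-Lieb inequality for finite Ising systems, by induction on the number of edges.
-/

namespace MP8622

namespace SlM

variable {V : Type}

theorem chi_single (x : V) (S : Finset V) : chi {x} S = if x ∈ S then (-1 : ℝ) else 1 := by
  rw [chi_eq_prod, Finset.prod_singleton]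

theorem mono_mk (S : Finset V) (a b : V) : Mono S s(a, b) ↔ (a ∈ S ↔ b ∈ S) := by
  unfold Mono
  simp only [Sym2.mem_iff]
  constructor
  · intro h
    exact h a (Or.inl rfl) b (Or.inr rfl)
  · rintro h x (rfl | rfl) y (rfl | rfl)
    · exact Iff.rfl
    · exact h
    · exact h.symm
    · exact Iff.rfl

/-- Boltzmann factor of one edge -/
theorem factor {p : ℝ} (hp : p ≤ 1) (S : Finset V) (x v : V) :
    (if Mono S s(x, v) then (1 : ℝ) else 1 - p) =
      (2 - p) / 2 * (1 + p / (2 - p) * chi (symmDiff {x} {v}) S) := by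
  have h2 : (2 : ℝ) - p ≠ 0 := by linarith
  rw [chi_symmDiff_left, chi_single, chi_single]
  simp only [mono_mk]
  by_cases hx : x ∈ S <;> by_cases hv : v ∈ S <;> simp [hx, hv] <;> field_simp <;> ring

/-- numerator of the correlation -/
noncomputable def num (P : Sym2 V → ℝ) (E : Finset (Sym2 V)) (Λ A : Finset V) : ℝ :=
  ∑ S ∈ Λ.powerset, chi A S * sw P E S

theorem num_empty (P : Sym2 V → ℝ) (E : Finset (Sym2 V)) (Λ : Finset V) :
    num P E Λ ∅ = ∑ S ∈ Λ.powerset, sw P E S := by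
  unfold num
  refine Finset.sum_congr rfl fun S _ => ?_
  simp [chi]

theorem corr_num (P : Sym2 V → ℝ) (E : Finset (Sym2 V)) (Λ A : Finset V) :
    corr P E Λ A = num P E Λ A / num P E Λ ∅ := by
  rw [num_empty]; rfl

theorem num_insert {P : Sym2 V → ℝ} (h1 : ∀ e, P e ≤ 1) {E : Finset (Sym2 V)} {x v : V}
    (he : s(x, v) ∉ E) (Λ A : Finset V) :
    num P (insert s(x, v) E) Λ A = (2 - P s(x, v)) / 2 *
      (num P E Λ A + P s(x, v) / (2 - P s(x, v)) *
        num P E Λ (symmDiff A (symmDiff {x} {v}))) := by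
  unfold num
  rw [Finset.mul_sum, ← Finset.sum_add_distrib, Finset.mul_sum]
  refine Finset.sum_congr rfl fun S _ => ?_
  have : sw P (insert s(x, v) E) S = (if Mono S s(x, v) then (1 : ℝ) else 1 - P s(x, v)) *
      sw P E S := by
    unfold sw
    rw [Finset.prod_insert he]
  rw [this, factor (h1 _), chi_symmDiff_left A]
  ring

theorem num_empty_pos {P : Sym2 V → ℝ} (h1 : ∀ e, P e ≤ 1) (E : Finset (Sym2 V))
    (Λ : Finset V) : 0 < num P E Λ ∅ := by
  rw [num_empty]; exact Z_pos h1 E Λ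

theorem corr_insert {P : Sym2 V → ℝ} (h1 : ∀ e, P e ≤ 1) {E : Finset (Sym2 V)} {x v : V}
    (he : s(x, v) ∉ E) (Λ A : Finset V) :
    corr P (insert s(x, v) E) Λ A =
      (corr P E Λ A + P s(x, v) / (2 - P s(x, v)) *
        corr P E Λ (symmDiff A (symmDiff {x} {v}))) /
      (1 + P s(x, v) / (2 - P s(x, v)) * corr P E Λ (symmDiff {x} {v})) := by
  have hZ := num_empty_pos h1 E Λ
  have h2 : (0 : ℝ) < (2 - P s(x, v)) / 2 := by linarith [h1 s(x, v)]
  have h3 : symmDiff (∅ : Finset V) (symmDiff {x} {v}) = symmDiff {x} {v} := by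
    rw [← Finset.bot_eq_empty, bot_symmDiff]
  rw [corr_num, num_insert h1 he, num_insert h1 he, h3, corr_num P E Λ A,
    corr_num P E Λ (symmDiff A (symmDiff {x} {v})), corr_num P E Λ (symmDiff {x} {v})]
  rw [mul_div_mul_left _ _ h2.ne']
  generalize P s(x, v) / (2 - P s(x, v)) = t
  have e1 : num P E Λ A / num P E Λ ∅ + t * (num P E Λ (symmDiff A (symmDiff {x} {v})) /
      num P E Λ ∅) = (num P E Λ A + t * num P E Λ (symmDiff A (symmDiff {x} {v}))) /
      num P E Λ ∅ := by ring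
  have e2 : 1 + t * (num P E Λ (symmDiff {x} {v}) / num P E Λ ∅) =
      (num P E Λ ∅ + t * num P E Λ (symmDiff {x} {v})) / num P E Λ ∅ := by
    field_simp
  rw [e1, e2, div_div_div_cancel_right₀ hZ.ne']

theorem corr_zero {P : Sym2 V → ℝ} {E : Finset (Sym2 V)} {Λ A : Finset V} {x : V}
    (hx : x ∈ Λ) (hA : x ∈ A) (h : ∀ e ∈ E, x ∉ e) : corr P E Λ A = 0 := by
  rw [corr_eq]
  rw [Finset.sum_eq_zero, zero_div]
  intro ω hω
  rw [Finset.mem_powerset] at hω
  have : ind Λ A ω = 0 := by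
    unfold ind
    rw [if_neg]
    intro h2
    have h3 := h2 {x} (mem_Hs.2 ⟨Finset.singleton_subset_iff.2 hx, fun e he =>
      mono_of_disjoint fun z hz hzx => h e (hω he) (Finset.mem_singleton.1 hzx ▸ hz)⟩)
    rw [Finset.inter_singleton_of_mem hA, Finset.card_singleton] at h3
    exact absurd h3 (by decide)
  rw [this, zero_mul]

theorem corr_mono_edges {P : Sym2 V → ℝ} (h0 : ∀ e, 0 ≤ P e) (h1 : ∀ e, P e ≤ 1)
    {E E' : Finset (Sym2 V)} (hE : E ⊆ E') (Λ A : Finset V) :
    corr P E Λ A ≤ corr P E' Λ A := by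
  rw [corr_congr (P' := fun e => if e ∈ E then P e else 0) hE
    (fun e he => by simp [he]) (fun e _ hne => Or.inr (by simp [hne])) A]
  refine corr_mono ?_ ?_ h1 (Finset.Subset.refl Λ) A
  · intro e
    show 0 ≤ if e ∈ E then P e else 0
    split_ifs
    · exact h0 e
    · exact le_rfl
  · intro e
    show (if e ∈ E then P e else 0) ≤ P e
    split_ifs
    · exact le_rfl
    · exact h0 e

theorem ein_subset (E : Finset (Sym2 V)) (S : Finset V) : ein E S ⊆ E :=
  Finset.filter_subset _ _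

theorem mem_ein {E : Finset (Sym2 V)} {S : Finset V} {e : Sym2 V} :
    e ∈ ein E S ↔ e ∈ E ∧ ∀ z ∈ e, z ∈ S := by
  simp [ein]

theorem corr_ein_le {P : Sym2 V → ℝ} (h0 : ∀ e, 0 ≤ P e) (h1 : ∀ e, P e ≤ 1)
    (E : Finset (Sym2 V)) {S Λ B : Finset V} (hS : S ⊆ Λ) (hB : B ⊆ S) :
    corr P (ein E S) S B ≤ corr P E Λ B := by
  rw [← corr_extend h1 hS (fun e he => (mem_ein.1 he).2) hB]
  exact corr_mono_edges h0 h1 (ein_subset E S) Λ B

theorem symmDiff_self_empty (x : V) : symmDiff ({x} : Finset V) {x} = ∅ := by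
  rw [symmDiff_self, Finset.bot_eq_empty]

theorem pair_subset {x u : V} {S : Finset V} (hx : x ∈ S) (hu : u ∈ S) :
    symmDiff ({x} : Finset V) {u} ⊆ S := by
  intro z hz
  rw [Finset.mem_symmDiff, Finset.mem_singleton, Finset.mem_singleton] at hz
  rcases hz with ⟨rfl, -⟩ | ⟨rfl, -⟩
  · exact hx
  · exact hu

/-- right side of the inequality -/
noncomputable def rhs (P : Sym2 V → ℝ) (E : Finset (Sym2 V)) (Λ S A W : Finset V) (x : V) : ℝ :=
  ∑ u ∈ S, ∑ v ∈ W \ S, if s(u, v) ∈ E then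
    P s(u, v) / (2 - P s(u, v)) * corr P (ein E S) S (symmDiff {x} {u}) *
      corr P E Λ (symmDiff {v} A) else 0

theorem t_nonneg {P : Sym2 V → ℝ} (h0 : ∀ e, 0 ≤ P e) (h1 : ∀ e, P e ≤ 1) (e : Sym2 V) :
    0 ≤ P e / (2 - P e) := div_nonneg (h0 e) (by linarith [h1 e])

theorem rhs_nonneg {P : Sym2 V → ℝ} (h0 : ∀ e, 0 ≤ P e) (h1 : ∀ e, P e ≤ 1)
    (E : Finset (Sym2 V)) (Λ S A W : Finset V) (x : V) : 0 ≤ rhs P E Λ S A W x := by
  refine Finset.sum_nonneg fun u _ => Finset.sum_nonneg fun v _ => ?_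
  split_ifs
  · exact mul_nonneg (mul_nonneg (t_nonneg h0 h1 _) (corr_nonneg h0 h1 _)) (corr_nonneg h0 h1 _)
  · exact le_rfl

theorem main {P : Sym2 V → ℝ} (h0 : ∀ e, 0 ≤ P e) (h1 : ∀ e, P e ≤ 1) {Λ S A W : Finset V}
    (hS : S ⊆ Λ) (hA : Disjoint A S) (n : ℕ) :
    ∀ E : Finset (Sym2 V), E.card = n → (∀ e ∈ E, ¬ e.IsDiag) → (∀ e ∈ E, ∀ z ∈ e, z ∈ W) →
      ∀ x ∈ S, corr P E Λ (symmDiff {x} A) ≤ rhs P E Λ S A W x := by
  induction n using Nat.strong_induction_on with
  | _ n ih =>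
    intro E hcard hdiag hW x hx
    have hxA : x ∉ A := fun h => (Finset.disjoint_left.1 hA) h hx
    by_cases hex : ∃ e ∈ E, x ∈ e
    · obtain ⟨e, heE, hxe⟩ := hex
      obtain ⟨v, rfl⟩ := Sym2.mem_iff_exists.1 hxe
      have hxv : x ≠ v := fun h => hdiag _ heE (by rw [h]; exact Sym2.mk_isDiag_iff.2 rfl)
      set E' := E.erase s(x, v) with hE'
      have hne : s(x, v) ∉ E' := Finset.notMem_erase _ _
      have hins : insert s(x, v) E' = E := Finset.insert_erase heE
      have hsub : E' ⊆ E := Finset.erase_subset _ _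
      have hlt : E'.card < n := by rw [← hcard]; exact Finset.card_erase_lt_of_mem heE
      have IH := ih E'.card hlt E' rfl (fun e he => hdiag e (hsub he))
        (fun e he => hW e (hsub he))
      set t := P s(x, v) / (2 - P s(x, v)) with ht
      have ht0 : 0 ≤ t := t_nonneg h0 h1 _
      have hsd : symmDiff (symmDiff {x} A) (symmDiff {x} {v}) = symmDiff {v} A := by
        rw [symmDiff_comm ({x} : Finset V) A, symmDiff_assoc, symmDiff_symmDiff_cancel_left,
          symmDiff_comm]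
      have hL : corr P E Λ (symmDiff {x} A) =
          (corr P E' Λ (symmDiff {x} A) + t * corr P E' Λ (symmDiff {v} A)) /
            (1 + t * corr P E' Λ (symmDiff {x} {v})) := by
        rw [← hins, corr_insert h1 hne, hsd]
      have hc0 : 0 ≤ corr P E' Λ (symmDiff {x} {v}) := corr_nonneg h0 h1 _
      have hden : 1 ≤ 1 + t * corr P E' Λ (symmDiff {x} {v}) := by
        have := mul_nonneg ht0 hc0
        linarith
      have hcm : ∀ B, corr P E' Λ B ≤ corr P E Λ B := fun B => corr_mono_edges h0 h1 hsub Λ B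
      by_cases hv : v ∈ S
      · -- internal edge
        have hein : ein E S = insert s(x, v) (ein E' S) := by
          ext e
          rw [mem_ein, Finset.mem_insert, mem_ein, hE', Finset.mem_erase]
          constructor
          · rintro ⟨h2, h3⟩
            by_cases h4 : e = s(x, v)
            · exact Or.inl h4
            · exact Or.inr ⟨⟨h4, h2⟩, h3⟩
          · rintro (rfl | ⟨⟨h4, h2⟩, h3⟩)
            · refine ⟨heE, fun z hz => ?_⟩
              rcases Sym2.mem_iff.1 hz with rfl | rfl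
              · exact hx
              · exact hv
            · exact ⟨h2, h3⟩
        have hne' : s(x, v) ∉ ein E' S := fun h => hne (mem_ein.1 h).1
        have hS1 : ∀ u : V, (corr P (ein E' S) S (symmDiff {x} {u}) +
            t * corr P (ein E' S) S (symmDiff {v} {u})) =
            corr P (ein E S) S (symmDiff {x} {u}) *
              (1 + t * corr P (ein E' S) S (symmDiff {x} {v})) := by
          intro u
          have h5 : symmDiff (symmDiff {x} {u}) (symmDiff {x} {v}) = symmDiff {v} ({u} : Finset V) := by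
            rw [symmDiff_comm ({x} : Finset V) {u}, symmDiff_assoc, symmDiff_symmDiff_cancel_left,
              symmDiff_comm]
          have h6 : 0 < 1 + t * corr P (ein E' S) S (symmDiff {x} {v}) := by
            have := mul_nonneg ht0 (corr_nonneg (P := P) (E := ein E' S) (Λ := S) h0 h1
              (symmDiff {x} {v}))
            linarith
          rw [hein, corr_insert h1 hne', h5, div_mul_cancel₀ _ h6.ne']
        have hS2 : corr P (ein E' S) S (symmDiff {x} {v}) ≤ corr P E' Λ (symmDiff {x} {v}) :=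
          corr_ein_le h0 h1 E' hS (pair_subset hx hv)
        rw [hL, div_le_iff₀ (by linarith)]
        have h7 : corr P E' Λ (symmDiff {x} A) + t * corr P E' Λ (symmDiff {v} A) ≤
            rhs P E' Λ S A W x + t * rhs P E' Λ S A W v :=
          add_le_add (IH x hx) (mul_le_mul_of_nonneg_left (IH v hv) ht0)
        refine h7.trans ?_
        have h8 : rhs P E' Λ S A W x + t * rhs P E' Λ S A W v =
            (∑ u ∈ S, ∑ w ∈ W \ S, if s(u, w) ∈ E' then
              P s(u, w) / (2 - P s(u, w)) * corr P (ein E S) S (symmDiff {x} {u}) *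
                corr P E' Λ (symmDiff {w} A) else 0) *
              (1 + t * corr P (ein E' S) S (symmDiff {x} {v})) := by
          unfold rhs
          rw [Finset.mul_sum, ← Finset.sum_add_distrib, Finset.sum_mul]
          refine Finset.sum_congr rfl fun u _ => ?_
          rw [Finset.mul_sum, ← Finset.sum_add_distrib, Finset.sum_mul]
          refine Finset.sum_congr rfl fun w _ => ?_
          split_ifs
          · have := hS1 u
            linear_combination (P s(u, w) / (2 - P s(u, w)) * corr P E' Λ (symmDiff {w} A)) * this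
          · ring
        rw [h8]
        refine mul_le_mul ?_ ?_ ?_ (rhs_nonneg h0 h1 _ _ _ _ _ _)
        · refine Finset.sum_le_sum fun u _ => Finset.sum_le_sum fun w _ => ?_
          by_cases h9 : s(u, w) ∈ E'
          · rw [if_pos h9, if_pos (hsub h9)]
            exact mul_le_mul_of_nonneg_left (hcm _)
              (mul_nonneg (t_nonneg h0 h1 _) (corr_nonneg h0 h1 _))
          · rw [if_neg h9]
            split_ifs
            · exact mul_nonneg (mul_nonneg (t_nonneg h0 h1 _) (corr_nonneg h0 h1 _))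
                (corr_nonneg h0 h1 _)
            · exact le_rfl
        · have := mul_le_mul_of_nonneg_left hS2 ht0
          linarith
        · have := mul_nonneg ht0 (corr_nonneg (P := P) (E := ein E' S) (Λ := S) h0 h1
              (symmDiff {x} {v}))
          linarith
      · -- boundary edge
        have hvW : v ∈ W \ S := Finset.mem_sdiff.2 ⟨hW _ heE v (Sym2.mem_mk_right x v), hv⟩
        have hein : ein E S = ein E' S := by
          ext e
          rw [mem_ein, mem_ein, hE', Finset.mem_erase]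
          constructor
          · rintro ⟨h2, h3⟩
            refine ⟨⟨?_, h2⟩, h3⟩
            rintro rfl
            exact hv (h3 v (Sym2.mem_mk_right x v))
          · rintro ⟨⟨_, h2⟩, h3⟩
            exact ⟨h2, h3⟩
        have hnum : 0 ≤ corr P E' Λ (symmDiff {x} A) + t * corr P E' Λ (symmDiff {v} A) :=
          add_nonneg (corr_nonneg h0 h1 _) (mul_nonneg ht0 (corr_nonneg h0 h1 _))
        have h3 : corr P E Λ (symmDiff {x} A) ≤
            corr P E' Λ (symmDiff {x} A) + t * corr P E' Λ (symmDiff {v} A) := by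
          rw [hL]
          exact div_le_self hnum hden
        refine h3.trans ((add_le_add_left (IH x hx) _).trans ?_)
        have h4 : t * corr P E' Λ (symmDiff {v} A) = ∑ u ∈ S, ∑ w ∈ W \ S,
            if u = x then (if w = v then t * corr P E' Λ (symmDiff {v} A) else 0) else 0 := by
          have h5 : ∀ u ∈ S, (∑ w ∈ W \ S,
            if u = x then (if w = v then t * corr P E' Λ (symmDiff {v} A) else 0) else 0) =
              if u = x then t * corr P E' Λ (symmDiff {v} A) else 0 := by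
            intro u _
            split_ifs
            · rw [Finset.sum_ite_eq', if_pos hvW]
            · simp
          rw [Finset.sum_congr rfl h5, Finset.sum_ite_eq', if_pos hx]
        rw [h4]
        unfold rhs
        rw [← Finset.sum_add_distrib]
        refine Finset.sum_le_sum fun u hu => ?_
        rw [← Finset.sum_add_distrib]
        refine Finset.sum_le_sum fun w hw => ?_
        by_cases h9 : u = x ∧ w = v
        · obtain ⟨rfl, rfl⟩ := h9
          rw [if_neg hne, if_pos rfl, if_pos rfl, if_pos heE, zero_add, symmDiff_self_empty,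
            corr_empty h1, mul_one]
          exact mul_le_mul_of_nonneg_left (hcm _) ht0
        · have h10 : (if u = x then (if w = v then t * corr P E' Λ (symmDiff {v} A) else 0)
              else 0) = 0 := by
            split_ifs with h11 h12
            · exact absurd ⟨h11, h12⟩ h9
            · rfl
            · rfl
          rw [h10, add_zero]
          by_cases h11 : s(u, w) ∈ E'
          · rw [if_pos h11, if_pos (hsub h11), hein]
            exact mul_le_mul_of_nonneg_left (hcm _)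
              (mul_nonneg (t_nonneg h0 h1 _) (corr_nonneg h0 h1 _))
          · rw [if_neg h11]
            split_ifs
            · exact mul_nonneg (mul_nonneg (t_nonneg h0 h1 _) (corr_nonneg h0 h1 _))
                (corr_nonneg h0 h1 _)
            · exact le_rfl
    · push Not at hex
      have h2 : x ∈ symmDiff ({x} : Finset V) A := by
        rw [Finset.mem_symmDiff]
        exact Or.inl ⟨Finset.mem_singleton_self x, hxA⟩
      rw [corr_zero (hS hx) h2 hex]
      exact rhs_nonneg h0 h1 _ _ _ _ _ _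

end SlM

theorem specSL : SpecSL := by
  intro V P E Λ S A x h0 h1 hdiag hS hx hA W hW
  exact SlM.main h0 h1 hS hA E.card E rfl hdiag hW x hx

end MP8622
end

section
set_option autoImplicit false

open Classical Filter Topology MeasureTheory

/-!
The Ising model on a Cayley graph is a family of two point functions (`AHP.Fam`), and the plus
state on both sides of the critical point.
-/

namespace MP8622

namespace IsfM

section General

variable {V : Type} (G : SimpleGraph V) [G.LocallyFinite]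

theorem t_nonneg {p : ℝ} (h0 : 0 ≤ p) (h1 : p ≤ 1) : 0 ≤ p / (2 - p) :=
  div_nonneg h0 (by linarith)

theorem t_le_one {p : ℝ} (h1 : p ≤ 1) : p / (2 - p) ≤ 1 := by
  rw [div_le_one (by linarith)]
  linarith

theorem tau_eq {p : ℝ} {Λ : Finset V} {x y : V} (hx : x ∈ Λ) (hy : y ∈ Λ) :
    tau G p Λ x y = corr (fun _ => p) (ed0 G Λ) Λ (symmDiff {x} {y}) := if_pos ⟨hx, hy⟩

theorem tau_nonneg {p : ℝ} (h0 : 0 ≤ p) (h1 : p ≤ 1) (Λ : Finset V) (x y : V) :
    0 ≤ tau G p Λ x y := by
  unfold tau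
  split_ifs
  · exact corr_nonneg (fun _ => h0) (fun _ => h1) _
  · exact le_rfl

theorem tau_le_one {p : ℝ} (h1 : p ≤ 1) (Λ : Finset V) (x y : V) :
    tau G p Λ x y ≤ 1 := by
  unfold tau
  split_ifs
  · exact corr_le_one (fun _ => h1) _
  · exact zero_le_one

theorem continuousOn_corr (E : Finset (Sym2 V)) (Λ A : Finset V) :
    ContinuousOn (fun p : ℝ => corr (fun _ => p) E Λ A) (Set.Icc 0 1) := by
  have hsw : ∀ S : Finset V, Continuous fun p : ℝ => sw (fun _ => p) E S := by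
    intro S
    unfold sw
    refine continuous_finsetProd _ fun e _ => ?_
    split_ifs
    · exact continuous_const
    · fun_prop
  unfold corr
  refine ContinuousOn.div ?_ ?_ fun p hp => (Z_pos (fun _ => hp.2) E Λ).ne'
  · exact (continuous_finsetSum _ fun S _ => continuous_const.mul (hsw S)).continuousOn
  · exact (continuous_finsetSum _ fun S _ => hsw S).continuousOn

theorem continuousOn_tau (Λ : Finset V) (x y : V) :
    ContinuousOn (fun p : ℝ => tau G p Λ x y) (Set.Icc 0 1) := by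
  unfold tau
  split_ifs
  · exact continuousOn_corr _ _ _
  · exact continuousOn_const

theorem mem_edge {p : ℝ} (h0 : 0 ≤ p) (h1 : p ≤ 1) {Λ : Finset V} {x y : V} (hx : x ∈ Λ)
    (hy : y ∈ Λ) (hxy : G.Adj x y) : p / (2 - p) ≤ tau G p Λ x y := by
  rw [tau_eq G hx hy]
  have hne : x ≠ y := hxy.ne
  have h2 : ({s(x, y)} : Finset (Sym2 V)) ⊆ ed0 G Λ := by
    rw [Finset.singleton_subset_iff, mem_ed0_mk]
    exact ⟨hxy, hx, hy⟩
  refine le_trans (le_of_eq ?_) (SlM.corr_mono_edges (P := fun _ => p) (fun _ => h0)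
    (fun _ => h1) h2 Λ _)
  have h3 := SlM.corr_insert (P := fun _ : Sym2 V => p) (fun _ => h1) (E := ∅) (x := x) (v := y)
    (Finset.notMem_empty _) Λ (symmDiff {x} {y})
  have h4 : corr (fun _ : Sym2 V => p) ∅ Λ (symmDiff {x} {y}) = 0 := by
    refine SlM.corr_zero hx ?_ (by simp)
    rw [Finset.mem_symmDiff]
    exact Or.inl ⟨Finset.mem_singleton_self x, fun h => hne (Finset.mem_singleton.1 h)⟩
  rw [h4, symmDiff_self, Finset.bot_eq_empty, corr_empty (fun _ => h1)] at h3
  have h5 : (insert s(x, y) ∅ : Finset (Sym2 V)) = {s(x, y)} := rfl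
  rw [h5] at h3
  rw [h3]
  simp

theorem ein_ed {Λ S : Finset V} (hS : S ⊆ Λ) : ein (ed G Λ) S = ed0 G S := by
  ext e
  rw [SlM.mem_ein, mem_ed0, mem_ed', mem_ed']
  constructor
  · rintro ⟨⟨h1, x, hx, -⟩, h3⟩
    exact ⟨⟨h1, x, hx, h3 x hx⟩, h3⟩
  · rintro ⟨⟨h1, x, hx, hxS⟩, h3⟩
    exact ⟨⟨h1, x, hx, hS hxS⟩, h3⟩

theorem ein_ed0 {Λ S : Finset V} (hS : S ⊆ Λ) : ein (ed0 G Λ) S = ed0 G S := by
  ext e
  rw [SlM.mem_ein, mem_ed0, mem_ed0, mem_ed', mem_ed']
  constructor
  · rintro ⟨⟨⟨h1, x, hx, -⟩, -⟩, h3⟩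
    exact ⟨⟨h1, x, hx, h3 x hx⟩, h3⟩
  · rintro ⟨⟨h1, x, hx, hxS⟩, h3⟩
    exact ⟨⟨⟨h1, x, hx, hS hxS⟩, fun z hz => hS (h3 z hz)⟩, h3⟩

theorem not_isDiag_ed {Λ : Finset V} {e : Sym2 V} (he : e ∈ ed G Λ) : ¬ e.IsDiag :=
  G.not_isDiag_of_mem_edgeSet ((mem_ed' G).1 he).1

theorem tau_mono {p p' : ℝ} (h0 : 0 ≤ p) (hpp : p ≤ p') (h1 : p' ≤ 1) {Λ Λ' : Finset V}
    (hΛ : Λ ⊆ Λ') (x y : V) : tau G p Λ x y ≤ tau G p' Λ' x y := by
  by_cases hxy : x ∈ Λ ∧ y ∈ Λ
  · rw [tau_eq G hxy.1 hxy.2, tau_eq G (hΛ hxy.1) (hΛ hxy.2)]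
    have h2 : corr (fun _ => p) (ed0 G Λ) Λ (symmDiff {x} {y}) ≤
        corr (fun _ => p) (ed0 G Λ') Λ' (symmDiff {x} {y}) := by
      rw [← ein_ed0 G hΛ]
      exact SlM.corr_ein_le (fun _ => h0) (fun _ => hpp.trans h1) _ hΛ
        (SlM.pair_subset hxy.1 hxy.2)
    exact h2.trans (corr_mono (fun _ => h0) (fun _ => hpp) (fun _ => h1)
      (Finset.Subset.refl _) _)
  · have : tau G p Λ x y = 0 := if_neg hxy
    rw [this]
    exact tau_nonneg G (h0.trans hpp) h1 Λ' x y

theorem tau_mul {p : ℝ} (h0 : 0 ≤ p) (h1 : p ≤ 1) (Λ : Finset V) (x y z : V) :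
    tau G p Λ x y * tau G p Λ y z ≤ tau G p Λ x z := by
  by_cases h : (x ∈ Λ ∧ y ∈ Λ) ∧ y ∈ Λ ∧ z ∈ Λ
  · rw [tau_eq G h.1.1 h.1.2, tau_eq G h.2.1 h.2.2, tau_eq G h.1.1 h.2.2]
    have h2 := corr_gks (P := fun _ => p) (E := ed0 G Λ) (Λ := Λ) (fun _ => h0) (fun _ => h1)
      (symmDiff {x} {y}) (symmDiff {y} {z})
    have h3 : symmDiff (symmDiff {x} {y}) (symmDiff {y} {z}) = symmDiff ({x} : Finset V) {z} := by
      rw [symmDiff_assoc, symmDiff_symmDiff_cancel_left]
    rwa [h3] at h2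
  · have h4 : tau G p Λ x y * tau G p Λ y z = 0 := by
      rw [not_and_or] at h
      rcases h with h | h
      · rw [tau, if_neg h, zero_mul]
      · rw [mul_comm, tau, if_neg h, zero_mul]
    rw [h4]
    exact tau_nonneg G h0 h1 Λ x z

theorem tau_map {g : V ≃ V} (hg : IsAut G g) (p : ℝ) (Λ : Finset V) (x y : V) :
    tau G p (Λ.map g.toEmbedding) (g x) (g y) = tau G p Λ x y := by
  unfold tau
  have h1 : (g x ∈ Λ.map g.toEmbedding ∧ g y ∈ Λ.map g.toEmbedding) ↔ (x ∈ Λ ∧ y ∈ Λ) := by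
    rw [Finset.mem_map_equiv, Finset.mem_map_equiv, Equiv.symm_apply_apply,
      Equiv.symm_apply_apply]
  have h2 : symmDiff ({g x} : Finset V) {g y} =
      (symmDiff ({x} : Finset V) {y}).map g.toEmbedding := by
    ext z
    simp only [Finset.mem_symmDiff, Finset.mem_singleton, Finset.mem_map_equiv]
    rw [Equiv.symm_apply_eq, Equiv.symm_apply_eq]
  simp only [h1]
  rw [h2, ed0_map G hg, corr_map]

end General

section Cayley

variable {Γ : Type} [Group Γ] {A : Finset Γ} (G : SimpleGraph Γ) [G.LocallyFinite]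

omit [G.LocallyFinite] in
theorem isAut_mulLeft (hadj : ∀ x y, G.Adj x y ↔ x⁻¹ * y ∈ A) (g : Γ) :
    IsAut G (Equiv.mulLeft g) := by
  intro x y
  rw [hadj, hadj, Equiv.coe_mulLeft]
  have : (g * x)⁻¹ * (g * y) = x⁻¹ * y := by group
  rw [this]

omit [G.LocallyFinite] in
/-- reindexing of the sum over the outer neighbours -/
theorem sum_nbr (hadj : ∀ x y, G.Adj x y ↔ x⁻¹ * y ∈ A) (S W : Finset Γ) (u : Γ)
    (E : Finset (Sym2 Γ)) (hE : ∀ e ∈ E, e ∈ G.edgeSet) (f : Γ → ℝ) (hf : ∀ v, 0 ≤ f v) :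
    ∑ v ∈ W \ S, (if s(u, v) ∈ E then f v else 0) ≤
      ∑ a ∈ A with u * a ∉ S, if s(u, u * a) ∈ E then f (u * a) else 0 := by
  have h1 : ∑ a ∈ A with u * a ∉ S, (if s(u, u * a) ∈ E then f (u * a) else 0) =
      ∑ v ∈ (A.filter (fun a => u * a ∉ S)).image (fun a => u * a),
        if s(u, v) ∈ E then f v else 0 := by
    rw [Finset.sum_image fun a _ b _ h => mul_left_cancel h]
  rw [h1, ← Finset.sum_filter_add_sum_filter_not (W \ S) (fun v => s(u, v) ∈ E)]
  have h2 : ∑ v ∈ (W \ S).filter (fun v => ¬ s(u, v) ∈ E), (if s(u, v) ∈ E then f v else 0) =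
      0 := by
    refine Finset.sum_eq_zero fun v hv => ?_
    rw [if_neg (Finset.mem_filter.1 hv).2]
  rw [h2, add_zero]
  refine Finset.sum_le_sum_of_subset_of_nonneg ?_ ?_
  · intro v hv
    rw [Finset.mem_filter, Finset.mem_sdiff] at hv
    rw [Finset.mem_image]
    refine ⟨u⁻¹ * v, ?_, by group⟩
    rw [Finset.mem_filter]
    refine ⟨(hadj u v).1 ((SimpleGraph.mem_edgeSet _).1 (hE _ hv.2)), ?_⟩
    have : u * (u⁻¹ * v) = v := by group
    rw [this]
    exact hv.1.2
  · intro v _ _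
    split_ifs
    · exact hf v
    · exact le_rfl

/-- Simon-Lieb inequality on a Cayley graph, any edge set. -/
theorem slg (hadj : ∀ x y, G.Adj x y ↔ x⁻¹ * y ∈ A) {p : ℝ} (h0 : 0 ≤ p) (h1 : p ≤ 1)
    {E : Finset (Sym2 Γ)} (hE : ∀ e ∈ E, e ∈ G.edgeSet) {Λ S B : Finset Γ} (hS : S ⊆ Λ)
    (hein : ein E S = ed0 G S) {x : Γ} (hx : x ∈ S) (hB : Disjoint B S) :
    corr (fun _ => p) E Λ (symmDiff {x} B) ≤ ∑ u ∈ S, ∑ a ∈ A with u * a ∉ S,
      if s(u, u * a) ∈ E then p / (2 - p) * tau G p S x u *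
        corr (fun _ => p) E Λ (symmDiff {u * a} B) else 0 := by
  set W : Finset Γ := E.biUnion (fun e => e.toFinset) with hW
  have hW' : ∀ e ∈ E, ∀ z ∈ e, z ∈ W := by
    intro e he z hz
    rw [hW, Finset.mem_biUnion]
    exact ⟨e, he, by rw [Sym2.mem_toFinset]; exact hz⟩
  have h2 := specSL Γ (fun _ => p) E Λ S B x (fun _ => h0) (fun _ => h1)
    (fun e he => G.not_isDiag_of_mem_edgeSet (hE e he)) hS hx hB W hW'
  refine h2.trans (Finset.sum_le_sum fun u hu => ?_)
  rw [hein]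
  have h3 := sum_nbr G hadj S W u E hE (fun v => p / (2 - p) * tau G p S x u *
        corr (fun _ => p) E Λ (symmDiff {v} B)) (fun v => mul_nonneg (mul_nonneg
        (t_nonneg h0 h1) (tau_nonneg G h0 h1 S x u)) (corr_nonneg (fun _ => h0) (fun _ => h1) _))
  refine le_trans (le_of_eq ?_) h3
  refine Finset.sum_congr rfl fun v _ => ?_
  rw [tau_eq G hx hu]

end Cayley

end IsfM

open IsfM in
theorem specISF : SpecISF := by
  intro Γ _ A h1A hsymm hgen G _ hadj
  constructor
  · exact hsymm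
  · exact h1A
  · exact hgen
  · norm_num
  · norm_num
  · refine continuousOn_id.div (continuousOn_const.sub continuousOn_id) fun p hp => ?_
    have := hp.2
    intro h
    have h2 : (2 : ℝ) - p = 0 := h
    linarith
  · intro p hp p' hp' hpp
    show p / (2 - p) ≤ p' / (2 - p')
    have h1 := hp.1; have h2 := hp.2; have h3 := hp'.2
    rw [div_le_div_iff₀ (by linarith) (by linarith)]
    nlinarith
  · intro p h0 h1
    exact div_pos h0 (by linarith)
  · exact fun Λ x y => continuousOn_tau G Λ x y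
  · exact fun p hp Λ x y => tau_nonneg G hp.1 hp.2 Λ x y
  · exact fun p hp Λ x y => tau_le_one G hp.2 Λ x y
  · intro p hp Λ x hx
    rw [tau_eq G hx hx, SlM.symmDiff_self_empty, corr_empty (fun _ => hp.2)]
  · intro p _ Λ x y h
    unfold tau
    rw [if_neg]
    tauto
  · intro p _ Λ x y
    unfold tau
    rw [symmDiff_comm]
    simp only [and_comm]
  · intro p _ Λ x y g
    exact tau_map G (isAut_mulLeft G hadj g) p Λ x y
  · intro p hp p' hp' hpp Λ Λ' hΛ x y
    exact tau_mono G hp.1 hpp hp'.2 hΛ x y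
  · intro p hp Λ x y z
    exact tau_mul G hp.1 hp.2 Λ x y z
  · intro p hp Λ x hx a ha hxa
    refine mem_edge G hp.1 hp.2 hx hxa ((hadj _ _).2 ?_)
    have : x⁻¹ * (x * a) = a := by group
    rw [this]; exact ha
  · intro p hp S Λ hS x hx z hz hzS
    have hzS' : Disjoint ({z} : Finset Γ) S := Finset.disjoint_singleton_left.2 hzS
    have h2 := slg G hadj hp.1 hp.2 (E := ed0 G Λ) (fun e he => ((mem_ed' G).1
      ((mem_ed0 G).1 he).1).1) hS (ein_ed0 G hS) hx hzS'
    rw [tau_eq G (hS hx) hz]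
    refine h2.trans (Finset.sum_le_sum fun u hu => ?_)
    refine le_trans (le_of_eq (Finset.sum_congr ?_ fun a _ => rfl))
      (Finset.sum_le_sum fun a _ => ?_)
    · rfl
    · show _ ≤ p / (2 - p) * tau G p S x u * tau G p Λ (u * a) z
      split_ifs with h3
      · rw [tau_eq G ((mem_ed0_mk G).1 h3).2.2 hz]
      · exact mul_nonneg (mul_nonneg (t_nonneg hp.1 hp.2) (tau_nonneg G hp.1 hp.2 _ _ _))
          (tau_nonneg G hp.1 hp.2 _ _ _)

end MP8622
end

section
set_option autoImplicit false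

open Classical Filter Topology MeasureTheory

/-!
The plus state of the Ising model on a Cayley graph, on both sides of the critical point.
-/

namespace MP8622

namespace IspM

open IsfM

variable {Γ : Type} [Group Γ] {A : Finset Γ} (G : SimpleGraph Γ) [G.LocallyFinite]

theorem tp_single (hadj : ∀ x y, G.Adj x y ↔ x⁻¹ * y ∈ A) (β : ℝ) (g : Γ) :
    tp G β {g} = tp G β {1} := by
  have h := tp_map G (isAut_mulLeft G hadj g) β {1}
  rw [Finset.map_singleton] at h
  simpa using h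

/-- subcritical: the magnetisation vanishes -/
theorem sub (hadj : ∀ x y, G.Adj x y ↔ x⁻¹ * y ∈ A) (β : ℝ) (hβ : 0 ≤ β)
    (S : Finset Γ) (h1S : (1 : Γ) ∈ S)
    (hphi : AHP.phi A (fun p => p / (2 - p)) (tau G) (pr β) S < 1) : tp G β {1} = 0 := by
  have hp0 : 0 ≤ pr β := pr_nonneg hβ
  have hp1 : pr β ≤ 1 := pr_le_one β
  have key : ∀ Λ : Finset Γ, S ⊆ Λ → Tp G β Λ {1} ≤ ∑ u ∈ S, ∑ a ∈ A with u * a ∉ S,
      pr β / (2 - pr β) * tau G (pr β) S 1 u * Tp G β Λ {u * a} := by
    intro Λ hS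
    have h2 := slg G hadj hp0 hp1 (E := ed G Λ) (B := ∅) (fun e he => ((mem_ed' G).1 he).1) hS
      (ein_ed G hS) h1S (Finset.disjoint_empty_left S)
    have h3 : ∀ z : Γ, symmDiff ({z} : Finset Γ) ∅ = {z} := by
      intro z
      rw [← Finset.bot_eq_empty, symmDiff_bot]
    simp only [h3] at h2
    refine h2.trans (Finset.sum_le_sum fun u _ => Finset.sum_le_sum fun a _ => ?_)
    split_ifs
    · exact le_rfl
    · exact mul_nonneg (mul_nonneg (t_nonneg hp0 hp1) (tau_nonneg G hp0 hp1 _ _ _))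
        (Tp_nonneg G hβ _ _)
  have hlim : Tendsto (fun Λ : Finset Γ => ∑ u ∈ S, ∑ a ∈ A with u * a ∉ S,
      pr β / (2 - pr β) * tau G (pr β) S 1 u * Tp G β Λ {u * a}) atTop
      (𝓝 (∑ u ∈ S, ∑ a ∈ A with u * a ∉ S,
      pr β / (2 - pr β) * tau G (pr β) S 1 u * tp G β {u * a})) := by
    refine tendsto_finsetSum _ fun u _ => tendsto_finsetSum _ fun a _ => ?_
    exact (tendsto_Tp G hβ {u * a}).const_mul _
  have h4 := le_of_tendsto_of_tendsto (tendsto_Tp G hβ {1}) hlim (by
    filter_upwards [eventually_ge_atTop S] with Λ hΛ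
    exact key Λ hΛ)
  have h5 : (∑ u ∈ S, ∑ a ∈ A with u * a ∉ S,
      pr β / (2 - pr β) * tau G (pr β) S 1 u * tp G β {u * a}) =
      AHP.phi A (fun p => p / (2 - p)) (tau G) (pr β) S * tp G β {1} := by
    unfold AHP.phi
    rw [Finset.sum_mul]
    refine Finset.sum_congr rfl fun u _ => ?_
    rw [Finset.sum_mul]
    refine Finset.sum_congr rfl fun a _ => ?_
    rw [tp_single G hadj]
  rw [h5] at h4
  have h6 := tp_nonneg G hβ {1}
  nlinarith

/-- the psi functional in terms of phi -/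
theorem phi_le_psi (hadj : ∀ x y, G.Adj x y ↔ x⁻¹ * y ∈ A) (β : ℝ) (hβ : 0 ≤ β)
    {S Λ : Finset Γ} (h1S : (1 : Γ) ∈ S) (hS : S ⊆ Λ) :
    AHP.phi A (fun p => p / (2 - p)) (tau G) (pr β) S ≤
      psi 1 (fun _ => pr β) (ed G Λ) S 1 := by
  have hp0 : 0 ≤ pr β := pr_nonneg hβ
  have hp1 : pr β ≤ 1 := pr_le_one β
  unfold AHP.phi psi
  refine Finset.sum_le_sum fun u hu => ?_
  rw [Finset.sum_const, nsmul_eq_mul, mul_comm]
  have h2 : pt 1 (fun _ => pr β) (ein (ed G Λ) S) S (ind S (symmDiff {1} {u})) =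
      tau G (pr β) S 1 u := by
    rw [tau_eq G h1S hu, corr_eq, ein_ed G hS]
    unfold pt fwt fw
    simp only [pow_one]
  rw [h2]
  have h3 : (A.filter (fun a => u * a ∉ S)).card ≤ nout (ed G Λ) S u := by
    unfold nout
    refine Finset.card_le_card_of_injOn (fun a => s(u, u * a)) ?_ ?_
    · intro a ha
      rw [Finset.mem_coe, Finset.mem_filter] at ha
      rw [Finset.mem_coe, Finset.mem_filter, mem_ed_mk]
      refine ⟨⟨(hadj _ _).2 ?_, Or.inl (hS hu)⟩, Sym2.mem_mk_left _ _, fun h =>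
        ha.2 (h _ (Sym2.mem_mk_right _ _))⟩
      have : u⁻¹ * (u * a) = a := by group
      rw [this]
      exact ha.1
    · intro a _ b _ hab
      simp only at hab
      rw [Sym2.congr_right] at hab
      exact mul_left_cancel hab
  have h4 : ((A.filter (fun a => u * a ∉ S)).card : ℝ) ≤ (nout (ed G Λ) S u : ℝ) := by
    exact_mod_cast h3
  have h5 := tau_nonneg G hp0 hp1 S 1 u
  have h6 : pr β / (2 - pr β) * tau G (pr β) S 1 u ≤ tau G (pr β) S 1 u :=
    mul_le_of_le_one_left h5 (t_le_one hp1)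
  exact mul_le_mul h6 h4 (Nat.cast_nonneg _) h5

end IspM

open IsfM IspM in
theorem specISP (hShp : SpecShp) : SpecISP := by
  intro Γ _ A h1A hsymm G _ hadj
  refine ⟨fun β hβ ⟨S, h1S, hphi⟩ => sub G hadj β hβ S h1S hphi, ?_⟩
  intro b hb hge β hβ
  have key : ∀ Λ : Finset Γ, (1 : Γ) ∈ Λ → 1 - Real.exp (-(β - b)) ≤ Tp G β Λ {1} := by
    intro Λ h1
    have h2 := hShp 1 le_rfl Γ (ed G Λ) Λ 1 (fun e he => not_isDiag_ed G he) h1 b hb
      (fun β' hβ' S hS h1S => (hge β' hβ'.le S h1S).trans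
        (phi_le_psi G hadj β' (hb.trans hβ'.le) h1S hS)) β hβ
    have h3 : pt 1 (fun _ => pr β) (ed G Λ) Λ (ind Λ {1}) = Tp G β Λ {1} := by
      unfold Tp
      rw [corr_eq]
      unfold pt fwt fw
      simp only [pow_one]
    rwa [h3] at h2
  refine le_ciInf fun Λ => ?_
  refine (key (insert 1 Λ) (Finset.mem_insert_self _ _)).trans ?_
  exact Tp_anti G (hb.trans hβ) (Finset.subset_insert _ _) {1}

end MP8622
end

section
set_option autoImplicit false

open Classical Filter Topology MeasureTheory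

/-!
The Ising model on acylindrically hyperbolic groups: assembly.
-/

namespace MP8622

namespace AhM

open IsfM IspM

theorem infinite_of_acylHyp {Γ : Type} [Group Γ] (h : AHP.AcylHyp Γ) : Infinite Γ := by
  obtain ⟨X, _, _, _, -, -, -, f, g, ⟨x, c, hc, hf⟩, -, -⟩ := h
  by_contra hfin
  rw [not_infinite_iff_finite] at hfin
  obtain ⟨M, hM⟩ := (Set.finite_range fun γ : Γ => dist x (γ • x)).bddAbove
  obtain ⟨n, hn⟩ := exists_nat_gt (M / c)
  have h1 := hf n
  have h2 : dist x (f ^ n • x) ≤ M := hM ⟨f ^ n, rfl⟩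
  rw [div_lt_iff₀ hc] at hn
  linarith [mul_comm c n]

/-- the inverse of `pr` -/
theorem exists_pr {p : ℝ} (h0 : 0 < p) (h1 : p < 1) : ∃ b : ℝ, 0 < b ∧ pr b = p := by
  refine ⟨-Real.log (1 - p) / 2, ?_, ?_⟩
  · have : Real.log (1 - p) < 0 := Real.log_neg (by linarith) (by linarith)
    linarith
  · unfold pr
    have : -2 * (-Real.log (1 - p) / 2) = Real.log (1 - p) := by ring
    rw [this, Real.exp_log (by linarith)]
    ring

theorem pr_lt {β β' : ℝ} (h : β < β') : pr β < pr β' := by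
  unfold pr
  have : Real.exp (-2 * β') < Real.exp (-2 * β) := Real.exp_lt_exp.2 (by linarith)
  linarith

theorem pr_mono {β β' : ℝ} (h : β ≤ β') : pr β ≤ pr β' := by
  rcases h.eq_or_lt with rfl | h
  · exact le_rfl
  · exact (pr_lt h).le

variable {Γ : Type} [Group Γ] {A : Finset Γ} (G : SimpleGraph Γ) [G.LocallyFinite]

omit [Group Γ] in
theorem tendsto_tau {β : ℝ} (hβ : 0 ≤ β) (x y : Γ) :
    Tendsto (fun Λ : Finset Γ => tau G (pr β) Λ x y) atTop (𝓝 (tf G β (symmDiff {x} {y}))) := by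
  refine (tendsto_Tf G hβ (symmDiff {x} {y})).congr' ?_
  filter_upwards [eventually_ge_atTop ({x, y} : Finset Γ)] with Λ hΛ
  rw [tau_eq G (hΛ (by simp)) (hΛ (by simp))]
  rfl

omit [Group Γ] in
/-- boundedness passes to the limit -/
theorem ob_tf {q : ℝ} (hq : 1 < q) {β B : ℝ} (hβ : 0 ≤ β)
    (h : ∀ Λ : Finset Γ, AHP.OB q (tau G (pr β) Λ) B) :
    AHP.OB q (fun x y => tf G β (symmDiff {x} {y})) B := by
  intro U W v hv
  have hlim : Tendsto (fun Λ : Finset Γ => ∑ x ∈ U, (∑ y ∈ W, tau G (pr β) Λ x y * v y) ^ q)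
      atTop (𝓝 (∑ x ∈ U, (∑ y ∈ W, tf G β (symmDiff {x} {y}) * v y) ^ q)) := by
    refine tendsto_finsetSum _ fun x _ => ?_
    refine ((Real.continuous_rpow_const (by linarith : 0 ≤ q)).tendsto _).comp ?_
    exact tendsto_finsetSum _ fun y _ => (tendsto_tau G hβ x y).mul_const _
  exact le_of_tendsto' hlim fun Λ => h Λ U W v hv

omit [Group Γ] in
/-- a square summable two point function is small somewhere -/
theorem exists_small [Infinite Γ] {β B : ℝ}
    (h : AHP.OB 2 (fun x y => tf G β (symmDiff {x} {y})) B) (o : Γ) {m : ℝ} (hm : 0 < m) :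
    ∃ x : Γ, x ≠ o ∧ tf G β {x, o} < m := by
  by_contra hcon
  push Not at hcon
  obtain ⟨n, hn⟩ := exists_nat_gt (B / m ^ 2)
  obtain ⟨U, hU, hcard⟩ := (Set.infinite_univ (α := Γ)).sdiff (Set.finite_singleton o)
    |>.exists_subset_card_eq n
  have h1 := h U {o} (fun _ => 1) (fun _ => zero_le_one)
  simp only [Finset.sum_singleton, mul_one, Real.one_rpow] at h1
  have h2 : ∀ x ∈ U, m ^ (2 : ℝ) ≤ tf G β (symmDiff {x} {o}) ^ (2 : ℝ) := by
    intro x hx
    have hxo : x ≠ o := fun h3 => (hU hx).2 h3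
    have h3 : symmDiff ({x} : Finset Γ) {o} = {x, o} := by
      ext z
      simp only [Finset.mem_symmDiff, Finset.mem_singleton, Finset.mem_insert]
      constructor
      · rintro (h | h)
        · exact Or.inl h.1
        · exact Or.inr h.1
      · rintro (rfl | rfl)
        · exact Or.inl ⟨rfl, hxo⟩
        · exact Or.inr ⟨rfl, fun h => hxo h.symm⟩
    rw [h3]
    exact Real.rpow_le_rpow hm.le (hcon x hxo) (by norm_num)
  have h3 := Finset.sum_le_sum h2
  rw [Finset.sum_const, hcard, nsmul_eq_mul, Real.rpow_two] at h3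
  rw [div_lt_iff₀ (by positivity)] at hn
  linarith

end AhM

open IsfM IspM AhM in
/-- Assembly. -/
theorem ahMain (hFAM : AHP.SpecFAM) (hISP : SpecISP) (Γ : Type) [Group Γ]
    (hAH : AHP.AcylHyp Γ) (A : Finset Γ) (h1A : (1 : Γ) ∉ A) (hsymm : ∀ a ∈ A, a⁻¹ ∈ A)
    (hgen : Subgroup.closure (A : Set Γ) = ⊤) (G : SimpleGraph Γ) [G.LocallyFinite]
    (hadj : ∀ x y, G.Adj x y ↔ x⁻¹ * y ∈ A)
    (σ : ℝ → Finset Γ → Finset Γ → Γ → ℝ)
    (hσ : ∀ (h : ℝ) (Λ S : Finset Γ) (x : Γ),
          σ h Λ S x = if x ∈ Λ then (if x ∈ S then (1 : ℝ) else -1) else h)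
    (E : ℝ → Finset Γ → Finset Γ → ℝ)
    (hE : ∀ (h : ℝ) (Λ S : Finset Γ),
          E h Λ S = ∑ x ∈ Λ, ∑ y ∈ G.neighborFinset x,
            (if y ∈ Λ then (1 / 2 : ℝ) else 1) * σ h Λ S x * σ h Λ S y)
    (C : ℝ → ℝ → Finset Γ → Finset Γ → ℝ)
    (hC : ∀ (β h : ℝ) (A Λ : Finset Γ),
          C β h A Λ =
            (∑ S ∈ Λ.powerset, (∏ x ∈ A, σ h Λ S x) * Real.exp (β * E h Λ S)) /
              ∑ S ∈ Λ.powerset, Real.exp (β * E h Λ S)) :
    ∃ βc : ℝ, 0 < βc ∧
      (∀ β : ℝ, 0 < β → β < βc → Tendsto (fun Λ : Finset Γ => C β 1 {1} Λ) atTop (𝓝 0)) ∧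
      (∀ β : ℝ, βc < β → ∃ p : ℝ, 0 < p ∧
        Tendsto (fun Λ : Finset Γ => C β 1 {1} Λ) atTop (𝓝 p)) ∧
      (∃ T : ℝ → Γ → Γ → ℝ,
        (∀ β : ℝ, 0 ≤ β → ∀ x y : Γ, Tendsto (fun Λ : Finset Γ => C β 0 (symmDiff {x} {y}) Λ)
          atTop (𝓝 (T β x y))) ∧
        ∀ q : ℝ, 1 < q → ∃ b B : ℝ, βc < b ∧ ∀ β : ℝ, 0 ≤ β → β ≤ b → AHP.OB q (T β) B) ∧
      ∃ b : ℝ, βc < b ∧ ∀ β : ℝ, βc < β → β ≤ b →
        ∃ D : Finset Γ, ∃ a p m : ℝ,
          Tendsto (fun Λ : Finset Γ => C β 0 D Λ) atTop (𝓝 a) ∧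
          Tendsto (fun Λ : Finset Γ => C β 1 D Λ) atTop (𝓝 p) ∧
          Tendsto (fun Λ : Finset Γ => C β (-1) D Λ) atTop (𝓝 m) ∧
          a ≠ (p + m) / 2 := by
  have : Infinite Γ := infinite_of_acylHyp hAH
  obtain ⟨hl0, hl1, hlm⟩ := specLink Γ G σ hσ E hE C hC
  obtain ⟨pc, hpc0, hpc1, hlt, hge, hq⟩ := hFAM Γ A (fun p => p / (2 - p)) (tau G) hAH
    (specISF Γ A h1A hsymm hgen G hadj)
  obtain ⟨βc, hβc, hprc⟩ := exists_pr hpc0 hpc1
  obtain ⟨hsub, hsup⟩ := hISP Γ A h1A hsymm G hadj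
  have hm0 : ∀ β : ℝ, 0 ≤ β → β < βc → tp G β {1} = 0 := fun β hβ0 hβ1 =>
    hsub β hβ0 (hlt (pr β) (pr_nonneg hβ0) (by rw [← hprc]; exact pr_lt hβ1))
  have hm1 : ∀ β : ℝ, βc < β → 0 < tp G β {1} := by
    intro β hβ
    have h1 := hsup βc hβc.le (fun β' hβ' S h1S => hge (pr β')
      (by rw [← hprc]; exact pr_mono hβ') (pr_le_one β') S h1S) β hβ.le
    have h2 : Real.exp (-(β - βc)) < 1 := Real.exp_lt_one_iff.2 (by linarith)
    linarith
  have hT0 : ∀ β : ℝ, 0 ≤ β → ∀ D : Finset Γ, Tendsto (fun Λ : Finset Γ => C β 0 D Λ) atTop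
      (𝓝 (tf G β D)) := by
    intro β hβ D
    refine (tendsto_Tf G hβ D).congr' ?_
    filter_upwards [eventually_ge_atTop D] with Λ hΛ
    exact (hl0 β D Λ hΛ).symm
  have hob : ∀ q : ℝ, 1 < q → ∃ b B : ℝ, βc < b ∧ ∀ β : ℝ, 0 ≤ β → β ≤ b →
      AHP.OB q (fun x y => tf G β (symmDiff {x} {y})) B := by
    intro q hq1
    obtain ⟨ε, B, hε, hε1, hB⟩ := hq q hq1
    obtain ⟨b, hb, hprb⟩ := exists_pr (p := pc + ε / 2) (by linarith) (by linarith)
    refine ⟨b, B, ?_, ?_⟩
    · by_contra hcon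
      have := pr_mono (not_lt.1 hcon)
      rw [hprb, hprc] at this
      linarith
    · intro β hβ0 hβ1
      refine ob_tf G hq1 hβ0 fun Λ => hB (pr β) (pr_nonneg hβ0) ?_ Λ
      have := pr_mono hβ1
      rw [hprb] at this
      linarith
  refine ⟨βc, hβc, ?_, ?_, ⟨fun β x y => tf G β (symmDiff {x} {y}), ?_, hob⟩, ?_⟩
  · intro β hβ0 hβ1
    simp only [hl1]
    have := tendsto_Tp G hβ0.le {1}
    rwa [hm0 β hβ0.le hβ1] at this
  · intro β hβ
    refine ⟨tp G β {1}, hm1 β hβ, ?_⟩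
    simp only [hl1]
    exact tendsto_Tp G (hβc.trans hβ).le {1}
  · intro β hβ x y
    exact hT0 β hβ _
  · obtain ⟨b, B, hb, hB⟩ := hob 2 one_lt_two
    refine ⟨b, hb, fun β hβ hβb => ?_⟩
    have hβ0 : 0 ≤ β := (hβc.trans hβ).le
    have hm := hm1 β hβ
    obtain ⟨x, hx, hlt'⟩ := exists_small G (hB β hβ0 hβb) (1 : Γ)
      (m := tp G β {1} ^ 2) (by positivity)
    have h2 := sq_le_tp G hβ0 (fun u w => ⟨Equiv.mulLeft (w * u⁻¹),
      isAut_mulLeft G hadj _, by simp⟩) hx (1 : Γ)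
    refine ⟨{x, 1}, tf G β {x, 1}, tp G β {x, 1}, tp G β {x, 1}, hT0 β hβ0 _, ?_, ?_, ?_⟩
    · simp only [hl1]
      exact tendsto_Tp G hβ0 {x, 1}
    · simp only [hlm, Finset.card_pair hx]
      norm_num
      exact tendsto_Tp G hβ0 {x, 1}
    · intro h3
      have h4 : (tp G β {x, 1} + tp G β {x, 1}) / 2 = tp G β {x, 1} := by ring
      rw [h4] at h3
      linarith

end MP8622
end

section
set_option autoImplicit false

open Classical Filter Topology MeasureTheory

/-!
Assembly of the Ising theorem on acylindrically hyperbolic groups.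
-/

namespace MP8622

namespace IsFinM

/-- A Cayley graph in terms of the neighbours of `1`. -/
lemma cayley {Γ : Type} [Group Γ] (G : SimpleGraph Γ) [G.LocallyFinite] (hconn : G.Connected)
    (hinv : ∀ γ x y : Γ, G.Adj (γ * x) (γ * y) ↔ G.Adj x y) :
    (1 : Γ) ∉ G.neighborFinset 1 ∧ (∀ a ∈ G.neighborFinset 1, a⁻¹ ∈ G.neighborFinset 1) ∧
      Subgroup.closure (G.neighborFinset 1 : Set Γ) = ⊤ ∧
      ∀ x y, G.Adj x y ↔ x⁻¹ * y ∈ G.neighborFinset 1 := by
  have h4 : ∀ x y, G.Adj x y ↔ x⁻¹ * y ∈ G.neighborFinset 1 := by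
    intro x y
    rw [SimpleGraph.mem_neighborFinset, ← hinv x⁻¹ x y, inv_mul_cancel]
  refine ⟨fun h => ?_, fun a ha => ?_, ?_, h4⟩
  · rw [SimpleGraph.mem_neighborFinset] at h
    exact h.ne rfl
  · rw [SimpleGraph.mem_neighborFinset] at ha ⊢
    have := (hinv a⁻¹ 1 a).2 ha
    rw [mul_one, inv_mul_cancel] at this
    exact this.symm
  · rw [eq_top_iff]
    intro g _
    obtain ⟨w⟩ := hconn.preconnected 1 g
    have key : ∀ (x y : Γ) (w : G.Walk x y), x⁻¹ * y ∈
        Subgroup.closure (G.neighborFinset 1 : Set Γ) := by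
      intro x y w
      induction w with
      | nil => rw [inv_mul_cancel]; exact Subgroup.one_mem _
      | @cons u v w' h p ih =>
        have h1 : u⁻¹ * v ∈ Subgroup.closure (G.neighborFinset 1 : Set Γ) :=
          Subgroup.subset_closure ((h4 u v).1 h)
        have h2 := Subgroup.mul_mem _ h1 ih
        have h3 : u⁻¹ * v * (v⁻¹ * w') = u⁻¹ * w' := by group
        rwa [h3] at h2
    have := key 1 g w
    rwa [inv_one, one_mul] at this

lemma pr_log {p : ℝ} (h1 : p < 1) : pr (-Real.log (1 - p) / 2) = p := by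
  unfold pr
  have h : -2 * (-Real.log (1 - p) / 2) = Real.log (1 - p) := by ring
  rw [h, Real.exp_log (by linarith)]
  ring

lemma pr_lt_iff {a b : ℝ} : pr a < pr b ↔ a < b := by
  unfold pr
  rw [sub_lt_sub_iff_left, Real.exp_lt_exp]
  constructor <;> intro h <;> linarith

lemma pr_le_iff {a b : ℝ} : pr a ≤ pr b ↔ a ≤ b := by
  unfold pr
  rw [sub_le_sub_iff_left, Real.exp_le_exp]
  constructor <;> intro h <;> linarith

lemma pr_sub_le {a b : ℝ} (ha : 0 ≤ a) (hab : a ≤ b) : pr b ≤ pr a + 2 * (b - a) := by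
  unfold pr
  have h1 : Real.exp (-2 * b) = Real.exp (-2 * a) * Real.exp (-2 * (b - a)) := by
    rw [← Real.exp_add]
    congr 1
    ring
  have h2 : Real.exp (-2 * a) ≤ 1 := Real.exp_le_one_iff.2 (by linarith)
  have h3 : 1 - 2 * (b - a) ≤ Real.exp (-2 * (b - a)) := by
    have := Real.add_one_le_exp (-2 * (b - a))
    linarith
  have h4 : 0 < Real.exp (-2 * a) := Real.exp_pos _
  have h5 : Real.exp (-2 * a) * (1 - 2 * (b - a)) ≤ Real.exp (-2 * b) := by
    rw [h1]
    exact mul_le_mul_of_nonneg_left h3 h4.le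
  nlinarith

lemma symmDiff_pair {V : Type} {x y : V} (hxy : x ≠ y) :
    symmDiff ({x} : Finset V) {y} = {x, y} := by
  ext z
  simp only [Finset.mem_symmDiff, Finset.mem_singleton, Finset.mem_insert]
  constructor
  · rintro (h | h)
    · exact Or.inl h.1
    · exact Or.inr h.1
  · rintro (rfl | rfl)
    · exact Or.inl ⟨rfl, hxy⟩
    · exact Or.inr ⟨rfl, fun h => hxy h.symm⟩

lemma tau_tendsto {V : Type} (G : SimpleGraph V) [G.LocallyFinite] {β : ℝ} (hβ : 0 ≤ β)
    (x y : V) : Tendsto (fun Λ : Finset V => tau G (pr β) Λ x y) atTop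
      (𝓝 (if x = y then 1 else tf G β {x, y})) := by
  by_cases hxy : x = y
  · subst hxy
    rw [if_pos rfl]
    refine Tendsto.congr' ?_ tendsto_const_nhds
    filter_upwards [eventually_ge_atTop ({x} : Finset V)] with Λ hΛ
    have hx : x ∈ Λ := hΛ (Finset.mem_singleton_self x)
    unfold tau
    rw [if_pos ⟨hx, hx⟩, symmDiff_self]
    exact (corr_empty (fun _ => pr_le_one β)).symm
  · rw [if_neg hxy]
    refine (tendsto_Tf G hβ {x, y}).congr' ?_
    filter_upwards [eventually_ge_atTop ({x, y} : Finset V)] with Λ hΛ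
    have hx : x ∈ Λ := hΛ (Finset.mem_insert_self x _)
    have hy : y ∈ Λ := hΛ (Finset.mem_insert_of_mem (Finset.mem_singleton_self y))
    unfold tau
    rw [if_pos ⟨hx, hy⟩, symmDiff_pair hxy]
    rfl

end IsFinM

open IsFinM

theorem isFin (hFAM : AHP.SpecFAM) (hISF : SpecISF) (hISP : SpecISP)
    (Γ : Type) [Group Γ] (hΓ : AHP.AcylHyp Γ) (G : SimpleGraph Γ) [G.LocallyFinite]
    (hconn : G.Connected) (hinv : ∀ γ x y : Γ, G.Adj (γ * x) (γ * y) ↔ G.Adj x y)
    (σ : ℝ → Finset Γ → Finset Γ → Γ → ℝ)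
    (hσ : ∀ (h : ℝ) (Λ S : Finset Γ) (x : Γ),
          σ h Λ S x = if x ∈ Λ then (if x ∈ S then (1 : ℝ) else -1) else h)
    (E : ℝ → Finset Γ → Finset Γ → ℝ)
    (hE : ∀ (h : ℝ) (Λ S : Finset Γ),
          E h Λ S = ∑ x ∈ Λ, ∑ y ∈ G.neighborFinset x,
            (if y ∈ Λ then (1 / 2 : ℝ) else 1) * σ h Λ S x * σ h Λ S y)
    (C : ℝ → ℝ → Finset Γ → Finset Γ → ℝ)
    (hC : ∀ (β h : ℝ) (A Λ : Finset Γ),
          C β h A Λ =
            (∑ S ∈ Λ.powerset, (∏ x ∈ A, σ h Λ S x) * Real.exp (β * E h Λ S)) /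
              ∑ S ∈ Λ.powerset, Real.exp (β * E h Λ S)) :
    ∃ βc : ℝ, 0 < βc ∧
      (∀ β : ℝ, 0 < β → β < βc → Tendsto (fun Λ : Finset Γ => C β 1 {1} Λ) atTop (𝓝 0)) ∧
      (∀ β : ℝ, βc < β → ∃ p : ℝ, 0 < p ∧
        Tendsto (fun Λ : Finset Γ => C β 1 {1} Λ) atTop (𝓝 p)) ∧
      (∃ ε : ℝ, 0 < ε ∧ ∀ β : ℝ, βc < β → β < βc + ε →
        ∃ A : Finset Γ, ∃ a p m : ℝ,
          Tendsto (fun Λ : Finset Γ => C β 0 A Λ) atTop (𝓝 a) ∧
          Tendsto (fun Λ : Finset Γ => C β 1 A Λ) atTop (𝓝 p) ∧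
          Tendsto (fun Λ : Finset Γ => C β (-1) A Λ) atTop (𝓝 m) ∧
          a ≠ (p + m) / 2) ∧
      (∀ q : ℝ, 1 < q → ∃ ε : ℝ, 0 < ε ∧ ∀ β : ℝ, 0 < β → β < βc + ε →
        ∃ B : ℝ, ∀ τ : Γ → Γ → ℝ, (∀ x, τ x x = 1) →
          (∀ x y, x ≠ y → Tendsto (fun Λ : Finset Γ => C β 0 {x, y} Λ) atTop (𝓝 (τ x y))) →
          ∀ (S T : Finset Γ) (f : Γ → ℝ),
            ∑ u ∈ T, |∑ v ∈ S, τ u v * f v| ^ q ≤ B * ∑ v ∈ S, |f v| ^ q) := by
  obtain ⟨hA1, hA2, hA3, hA4⟩ := cayley G hconn hinv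
  obtain ⟨hl0, hl1, hlm⟩ := specLink Γ G σ hσ E hE C hC
  set A : Finset Γ := G.neighborFinset 1 with hA
  have hF := hISF Γ A hA1 hA2 hA3 G hA4
  obtain ⟨hP1, hP2⟩ := hISP Γ A hA1 hA2 G hA4
  obtain ⟨pc, h0, h1, hlow, hhigh, hq⟩ := hFAM Γ A (fun p => p / (2 - p)) (tau G) hΓ hF
  have hinf : Infinite Γ := AHP.FamM.infinite_of_acylHyp hΓ
  set βc : ℝ := -Real.log (1 - pc) / 2 with hβc
  have hprc : pr βc = pc := pr_log h1
  have hβpos : 0 < βc := by
    have : pr 0 < pr βc := by
      rw [hprc]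
      unfold pr
      simpa using h0
    exact pr_lt_iff.1 this
  have hpos : ∀ β : ℝ, βc < β → 0 < tp G β {1} := by
    intro β hβ
    have := hP2 βc hβpos.le (fun β' hβ' S hS => hhigh _ (by rw [← hprc]; exact pr_le_iff.2 hβ')
      (pr_le_one β') S hS) β hβ.le
    have h2 : Real.exp (-(β - βc)) < 1 := by
      rw [← Real.exp_zero]
      exact Real.exp_lt_exp.2 (by linarith)
    linarith
  have htr : ∀ x y : Γ, ∃ g : Γ ≃ Γ, IsAut G g ∧ g x = y := by
    intro x y
    refine ⟨Equiv.mulLeft (y * x⁻¹), fun a b => ?_, ?_⟩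
    · exact hinv _ _ _
    · simp
  -- boundedness in finite volume
  have hOB : ∀ q : ℝ, 1 < q → ∃ ε B : ℝ, 0 < ε ∧ ∀ β : ℝ, 0 < β → β < βc + ε →
      ∀ Λ : Finset Γ, AHP.OB q (tau G (pr β) Λ) B := by
    intro q hq1
    obtain ⟨ε, B, hε, -, hB⟩ := hq q hq1
    refine ⟨ε / 2, B, by linarith, fun β hβ hβ2 Λ => hB (pr β) (pr_nonneg hβ.le) ?_ Λ⟩
    rcases le_total β βc with h | h
    · have := pr_le_iff.2 h
      rw [hprc] at this
      linarith
    · have := pr_sub_le hβpos.le h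
      rw [hprc] at this
      linarith
  refine ⟨βc, hβpos, ?_, ?_, ?_, ?_⟩
  · intro β hβ hβ2
    have hlt : pr β < pc := by rw [← hprc]; exact pr_lt_iff.2 hβ2
    have h3 := hP1 β hβ.le (hlow _ (pr_nonneg hβ.le) hlt)
    simp only [hl1]
    have := tendsto_Tp G hβ.le {(1 : Γ)}
    rwa [h3] at this
  · intro β hβ
    refine ⟨_, hpos β hβ, ?_⟩
    simp only [hl1]
    exact tendsto_Tp G (hβpos.le.trans hβ.le) {(1 : Γ)}
  · obtain ⟨ε, B, hε, hB⟩ := hOB 2 one_lt_two
    refine ⟨ε, hε, fun β hβ hβ2 => ?_⟩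
    have hβ0 : 0 < β := hβpos.trans hβ
    set m : ℝ := tp G β {1} with hm
    have hmpos : 0 < m := hpos β hβ
    -- a vertex with small free two point function
    have hex : ∃ g : Γ, g ≠ 1 ∧ tf G β {g, 1} < m ^ 2 := by
      by_contra hcon
      push Not at hcon
      obtain ⟨N, hN⟩ := exists_nat_gt (B / m ^ 4)
      obtain ⟨D, hD⟩ := Infinite.exists_subset_card_eq Γ (N + 1)
      have hcard : N ≤ (D.erase 1).card := by
        have := Finset.pred_card_le_card_erase (s := D) (a := (1 : Γ))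
        omega
      have h3 : Tendsto (fun Λ : Finset Γ => ∑ x ∈ D.erase 1,
          (∑ y ∈ ({1} : Finset Γ), tau G (pr β) Λ x y * 1) ^ (2 : ℝ)) atTop
          (𝓝 (∑ x ∈ D.erase 1, (∑ y ∈ ({1} : Finset Γ),
            (if x = y then 1 else tf G β {x, y}) * 1) ^ (2 : ℝ))) := by
        refine tendsto_finsetSum _ fun u _ => ?_
        refine Tendsto.rpow_const ?_ (Or.inr (by norm_num))
        exact tendsto_finsetSum _ fun v _ => (tau_tendsto G hβ0.le u v).mul_const _
      have h4 := le_of_tendsto' h3 fun Λ => hB β hβ0 hβ2 Λ (D.erase 1) {1} (fun _ => 1)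
        fun _ => zero_le_one
      rw [Finset.sum_singleton, Real.one_rpow, mul_one] at h4
      have h5 : ∑ x ∈ D.erase 1, (m ^ 4 : ℝ) ≤ ∑ x ∈ D.erase 1, (∑ y ∈ ({1} : Finset Γ),
            (if x = y then 1 else tf G β {x, y}) * 1) ^ (2 : ℝ) := by
        refine Finset.sum_le_sum fun x hx => ?_
        have hx1 : x ≠ 1 := (Finset.mem_erase.1 hx).1
        rw [Finset.sum_singleton, if_neg hx1, mul_one, Real.rpow_two]
        have h6 := hcon x hx1
        calc m ^ 4 = (m ^ 2) ^ 2 := by ring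
          _ ≤ _ := pow_le_pow_left₀ (by positivity) h6 2
      rw [Finset.sum_const, nsmul_eq_mul] at h5
      have h7 : (N : ℝ) * m ^ 4 ≤ ((D.erase 1).card : ℝ) * m ^ 4 :=
        mul_le_mul_of_nonneg_right (by exact_mod_cast hcard) (by positivity)
      have h8 : B < N * m ^ 4 := by
        rwa [div_lt_iff₀ (by positivity)] at hN
      linarith
    obtain ⟨g, hg, hlt⟩ := hex
    have hsq : m ^ 2 ≤ tp G β {g, 1} := sq_le_tp G hβ0.le htr hg 1
    refine ⟨{g, 1}, tf G β {g, 1}, tp G β {g, 1}, tp G β {g, 1}, ?_, ?_, ?_, ?_⟩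
    · refine (tendsto_Tf G hβ0.le {g, 1}).congr' ?_
      filter_upwards [eventually_ge_atTop ({g, 1} : Finset Γ)] with Λ hΛ
      exact (hl0 β {g, 1} Λ hΛ).symm
    · simp only [hl1]
      exact tendsto_Tp G hβ0.le {g, 1}
    · simp only [hlm, Finset.card_pair hg]
      norm_num
      exact tendsto_Tp G hβ0.le {g, 1}
    · intro h
      have : (tp G β {g, 1} + tp G β {g, 1}) / 2 = tp G β {g, 1} := by ring
      rw [this] at h
      linarith
  · intro q hq1
    obtain ⟨ε, B, hε, hB⟩ := hOB q hq1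
    refine ⟨ε, hε, fun β hβ hβ2 => ⟨B, fun τ hτ1 hτ2 S T f => ?_⟩⟩
    have hτ : ∀ x y, Tendsto (fun Λ : Finset Γ => tau G (pr β) Λ x y) atTop (𝓝 (τ x y)) := by
      intro x y
      have h3 := tau_tendsto G hβ.le x y
      by_cases hxy : x = y
      · subst hxy
        rw [if_pos rfl] at h3
        rw [hτ1]
        exact h3
      · rw [if_neg hxy] at h3
        have h4 : τ x y = tf G β {x, y} := by
          refine tendsto_nhds_unique (hτ2 x y hxy) ((tendsto_Tf G hβ.le {x, y}).congr' ?_)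
          filter_upwards [eventually_ge_atTop ({x, y} : Finset Γ)] with Λ hΛ
          exact (hl0 β {x, y} Λ hΛ).symm
        rw [h4]
        exact h3
    have hτ0 : ∀ x y, 0 ≤ τ x y := fun x y => ge_of_tendsto' (hτ x y) fun Λ =>
      hF.nonneg _ ⟨pr_nonneg hβ.le, pr_le_one β⟩ Λ x y
    have h5 : ∑ u ∈ T, |∑ v ∈ S, τ u v * f v| ^ q ≤ ∑ u ∈ T, (∑ v ∈ S, τ u v * |f v|) ^ q := by
      refine Finset.sum_le_sum fun u _ => Real.rpow_le_rpow (abs_nonneg _) ?_ (by linarith)
      refine (Finset.abs_sum_le_sum_abs _ _).trans (Finset.sum_le_sum fun v _ => ?_)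
      rw [abs_mul, abs_of_nonneg (hτ0 u v)]
    refine h5.trans ?_
    have h6 : Tendsto (fun Λ : Finset Γ => ∑ u ∈ T, (∑ v ∈ S, tau G (pr β) Λ u v * |f v|) ^ q)
        atTop (𝓝 (∑ u ∈ T, (∑ v ∈ S, τ u v * |f v|) ^ q)) := by
      refine tendsto_finsetSum _ fun u _ => ?_
      refine Tendsto.rpow_const ?_ (Or.inr (by linarith))
      exact tendsto_finsetSum _ fun v _ => (hτ u v).mul_const _
    exact le_of_tendsto' h6 fun Λ => hB β hβ hβ2 Λ T S (fun v => |f v|) fun x => abs_nonneg _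

end MP8622
end

section
set_option autoImplicit false

open Classical Filter Topology

/-! CHG: the plus end of a field edge is irrelevant. -/

namespace MP8622

namespace NU

namespace CHGM

variable {V : Type}

theorem mem_fan {L : Finset V} {u : V → V} {e : Sym2 V} :
    e ∈ fan L u ↔ ∃ v ∈ L, s(v, u v) = e := by
  simp [fan]

/-- a product over a fan -/
theorem prod_fan {L Λ : Finset V} {u : V → V} (hL : L ⊆ Λ) (hu : ∀ v ∈ L, u v ∉ Λ)
    (f : Sym2 V → ℝ) : ∏ e ∈ fan L u, f e = ∏ v ∈ L, f s(v, u v) := by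
  unfold fan
  rw [Finset.prod_image]
  intro v hv w hw h
  rw [Finset.mem_coe] at hv hw
  rcases Sym2.eq_iff.1 h with ⟨h1, -⟩ | ⟨h1, -⟩
  · exact h1
  · exact absurd (h1 ▸ hL hv) (hu w hw)

/-- the Boltzmann weight of a fan whose other ends are plus -/
theorem sw_fan (P : Sym2 V → ℝ) {L Λ S : Finset V} {u : V → V} (hL : L ⊆ Λ)
    (hu : ∀ v ∈ L, u v ∉ Λ) (hS : S ⊆ Λ) :
    sw P (fan L u) S = ∏ v ∈ L, if v ∈ S then 1 - P s(v, u v) else 1 := by
  unfold sw
  rw [prod_fan hL hu]
  refine Finset.prod_congr rfl fun v hv => ?_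
  have h1 : u v ∉ S := fun h => hu v hv (hS h)
  by_cases h2 : v ∈ S
  · rw [if_neg, if_pos h2]
    rw [SlM.mono_mk]
    tauto
  · rw [if_pos, if_neg h2]
    rw [SlM.mono_mk]
    tauto

theorem sw_union (P : Sym2 V → ℝ) {E F : Finset (Sym2 V)} (h : Disjoint E F) (S : Finset V) :
    sw P (E ∪ F) S = sw P E S * sw P F S := by
  unfold sw
  exact Finset.prod_union h

end CHGM

open CHGM in
theorem specCHG : SpecCHG := by
  intro V P P' E Λ L A u u' hL hu hu' hE hE' hP hPE
  have d1 : Disjoint E (fan L u) := by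
    rw [Finset.disjoint_right]
    intro e he
    obtain ⟨v, hv, rfl⟩ := mem_fan.1 he
    exact hE v hv
  have d2 : Disjoint E (fan L u') := by
    rw [Finset.disjoint_right]
    intro e he
    obtain ⟨v, hv, rfl⟩ := mem_fan.1 he
    exact hE' v hv
  have key : ∀ S ∈ Λ.powerset, sw P (E ∪ fan L u) S = sw P' (E ∪ fan L u') S := by
    intro S hS
    rw [Finset.mem_powerset] at hS
    rw [sw_union P d1, sw_union P' d2, sw_fan P hL hu hS, sw_fan P' hL hu' hS]
    congr 1
    · unfold sw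
      refine Finset.prod_congr rfl fun e he => ?_
      rw [hPE e he]
    · refine Finset.prod_congr rfl fun v hv => ?_
      rw [hP v hv]
  unfold corr
  rw [Finset.sum_congr rfl key, Finset.sum_congr rfl fun S hS => by rw [key S hS]]

end NU

end MP8622
end

section
set_option autoImplicit false

open Classical Filter Topology

/-! CMB: comparison of an environment with a field, all interactions zero or infinite. -/

namespace MP8622

namespace NU

namespace CMBM

open CHGM

variable {V : Type}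

/-- adjacency through an edge with opening probability one -/
def Rl (P : Sym2 V → ℝ) (E : Finset (Sym2 V)) (a b : V) : Prop :=
  s(a, b) ∈ E ∧ P s(a, b) = 1

/-- the component of `x` -/
noncomputable def comp (P : Sym2 V → ℝ) (E : Finset (Sym2 V)) (Λ : Finset V) (x : V) : Finset V :=
  Λ.filter (fun z => Relation.ReflTransGen (Rl P E) x z)

/-- the edges with opening probability one inside the component -/
noncomputable def eK (P : Sym2 V → ℝ) (E : Finset (Sym2 V)) (K : Finset V) : Finset (Sym2 V) :=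
  E.filter (fun e => P e = 1 ∧ ∀ z ∈ e, z ∈ K)

/-- the edges with opening probability one outside the component -/
noncomputable def eO (P : Sym2 V → ℝ) (E : Finset (Sym2 V)) (K : Finset V) : Finset (Sym2 V) :=
  E.filter (fun e => P e = 1 ∧ ∀ z ∈ e, z ∉ K)

theorem mem_eK {P : Sym2 V → ℝ} {E : Finset (Sym2 V)} {K : Finset V} {e : Sym2 V} :
    e ∈ eK P E K ↔ e ∈ E ∧ P e = 1 ∧ ∀ z ∈ e, z ∈ K := by
  simp [eK]

theorem mem_eO {P : Sym2 V → ℝ} {E : Finset (Sym2 V)} {K : Finset V} {e : Sym2 V} :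
    e ∈ eO P E K ↔ e ∈ E ∧ P e = 1 ∧ ∀ z ∈ e, z ∉ K := by
  simp [eO]

theorem mem_comp {P : Sym2 V → ℝ} {E : Finset (Sym2 V)} {Λ : Finset V} {x z : V} :
    z ∈ comp P E Λ x ↔ z ∈ Λ ∧ Relation.ReflTransGen (Rl P E) x z := by
  simp [comp]

theorem comp_subset (P : Sym2 V → ℝ) (E : Finset (Sym2 V)) (Λ : Finset V) (x : V) :
    comp P E Λ x ⊆ Λ := Finset.filter_subset _ _

theorem self_mem_comp {P : Sym2 V → ℝ} {E : Finset (Sym2 V)} {Λ : Finset V} {x : V}
    (hx : x ∈ Λ) : x ∈ comp P E Λ x := mem_comp.2 ⟨hx, Relation.ReflTransGen.refl⟩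

theorem exists_mem_sym (e : Sym2 V) : ∃ z, z ∈ e := by
  induction e using Sym2.ind with
  | _ a b => exact ⟨a, Sym2.mem_mk_left a b⟩

theorem comp_closed {P : Sym2 V → ℝ} {E : Finset (Sym2 V)} {Λ : Finset V} {x z : V}
    (hE : ∀ e ∈ E, ∀ z ∈ e, z ∈ Λ) (hz : z ∈ comp P E Λ x) {e : Sym2 V} (he : e ∈ E)
    (hP : P e = 1) (hze : z ∈ e) : ∀ w ∈ e, w ∈ comp P E Λ x := by
  intro w hw
  obtain ⟨y, rfl⟩ := Sym2.mem_iff_exists.1 hze
  rcases Sym2.mem_iff.1 hw with rfl | rfl
  · exact hz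
  · exact mem_comp.2 ⟨hE _ he _ (Sym2.mem_mk_right _ _), (mem_comp.1 hz).2.tail ⟨he, hP⟩⟩

/-- the spins of a component agree -/
theorem const {P : Sym2 V → ℝ} {E E' : Finset (Sym2 V)} (hE : E ⊆ E') {S : Finset V}
    (hS : sw P E' S ≠ 0) {x z : V} (h : Relation.ReflTransGen (Rl P E) x z) :
    z ∈ S ↔ x ∈ S := by
  induction h with
  | refl => exact Iff.rfl
  | @tail b c _ hbc ih =>
    rw [← ih]
    have hm : Mono S s(b, c) := by
      by_contra hne
      apply hS
      unfold sw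
      exact Finset.prod_eq_zero (hE hbc.1) (by rw [if_neg hne, hbc.2, sub_self])
    exact ((SlM.mono_mk S b c).1 hm).symm

theorem path_inside {P : Sym2 V → ℝ} {E : Finset (Sym2 V)} {Λ : Finset V} {x z : V}
    (hE : ∀ e ∈ E, ∀ z ∈ e, z ∈ Λ) (hx : x ∈ Λ) (h : Relation.ReflTransGen (Rl P E) x z) :
    z ∈ comp P E Λ x ∧ Relation.ReflTransGen (Rl P (eK P E (comp P E Λ x))) x z := by
  induction h with
  | refl => exact ⟨self_mem_comp hx, Relation.ReflTransGen.refl⟩
  | @tail b c _ hbc ih =>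
    have h2 := comp_closed hE ih.1 hbc.1 hbc.2 (Sym2.mem_mk_left b c)
    refine ⟨h2 c (Sym2.mem_mk_right b c), ih.2.tail ⟨?_, hbc.2⟩⟩
    exact mem_eK.2 ⟨hbc.1, hbc.2, h2⟩

theorem chi_const {A S : Finset V} {x : V} (h : ∀ z ∈ A, (z ∈ S ↔ x ∈ S)) :
    chi A S = if x ∈ S then (-1 : ℝ) ^ A.card else 1 := by
  unfold chi
  split_ifs with hx
  · rw [Finset.inter_eq_left.2 fun z hz => (h z hz).2 hx]
  · have : A ∩ S = ∅ := by
      rw [Finset.eq_empty_iff_forall_notMem]
      intro z hz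
      rw [Finset.mem_inter] at hz
      exact hx ((h z hz.1).1 hz.2)
    rw [this]
    simp

theorem corr_even {P : Sym2 V → ℝ} (h1 : ∀ e, P e ≤ 1) {E E' : Finset (Sym2 V)} (hE : E ⊆ E')
    {Λ A : Finset V} {x : V} (hA : ∀ z ∈ A, Relation.ReflTransGen (Rl P E) x z)
    (hev : Even A.card) : corr P E' Λ A = 1 := by
  have key : ∀ S ∈ Λ.powerset, chi A S * sw P E' S = sw P E' S := by
    intro S _
    by_cases hS : sw P E' S = 0
    · rw [hS, mul_zero]
    · rw [chi_const fun z hz => const hE hS (hA z hz)]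
      split_ifs
      · rw [hev.neg_one_pow, one_mul]
      · rw [one_mul]
  unfold corr
  rw [Finset.sum_congr rfl key, div_self (Z_pos h1 E' Λ).ne']

theorem corr_odd {P : Sym2 V → ℝ} {E E' : Finset (Sym2 V)} (hE : E ⊆ E')
    {Λ A : Finset V} {x : V} (hA : ∀ z ∈ A, Relation.ReflTransGen (Rl P E) x z)
    (hodd : ¬ Even A.card) : corr P E' Λ A = corr P E' Λ {x} := by
  have key : ∀ S ∈ Λ.powerset, chi A S * sw P E' S = chi {x} S * sw P E' S := by
    intro S _
    by_cases hS : sw P E' S = 0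
    · rw [hS, mul_zero, mul_zero]
    · rw [chi_const fun z hz => const hE hS (hA z hz), SlM.chi_single]
      split_ifs
      · rw [(Nat.not_even_iff_odd.1 hodd).neg_one_pow]
      · rfl
  unfold corr
  rw [Finset.sum_congr rfl key]

theorem corr_out {P : Sym2 V → ℝ} {E : Finset (Sym2 V)} {Λ B : Finset V} {a : V} (ha : a ∉ Λ) :
    corr P E Λ (insert a B) = corr P E Λ B := by
  unfold corr
  congr 1
  refine Finset.sum_congr rfl fun S hS => ?_
  rw [Finset.mem_powerset] at hS
  unfold chi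
  congr 2
  congr 1
  ext z
  simp only [Finset.mem_inter, Finset.mem_insert]
  constructor
  · rintro ⟨rfl | h, h2⟩
    · exact absurd (hS h2) ha
    · exact ⟨h, h2⟩
  · rintro ⟨h, h2⟩
    exact ⟨Or.inr h, h2⟩

/-- factorisation of the system with fields -/
theorem factor_left {P : Sym2 V → ℝ} {Em : Finset (Sym2 V)} {Λm D : Finset V} {g x : V}
    (hP : ∀ e ∈ Em, P e = 0 ∨ P e = 1)
    (hEm : ∀ e ∈ Em, ∀ z ∈ e, z ∈ Λm) (hg : g ∉ Λm)
    {A : Finset V} (hA : A ⊆ Λm) :
    corr P (Em ∪ fan D (fun _ => g)) Λm A =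
      corr P (eK P Em (comp P Em Λm x) ∪ fan (D ∩ comp P Em Λm x) (fun _ => g))
        (comp P Em Λm x) (A ∩ comp P Em Λm x) *
      corr P (eO P Em (comp P Em Λm x) ∪ fan (D \ comp P Em Λm x) (fun _ => g))
        (Λm \ comp P Em Λm x) (A \ comp P Em Λm x) := by
  have hcl := fun z (hz : z ∈ comp P Em Λm x) e (he : e ∈ Em) (hPe : P e = 1) (hze : z ∈ e) =>
    comp_closed hEm hz he hPe hze
  have hKΛ := comp_subset P Em Λm x
  generalize comp P Em Λm x = K at *
  have hgK : g ∉ K := fun h => hg (hKΛ h)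
  have e1 : ∀ e ∈ eK P Em K ∪ fan (D ∩ K) (fun _ => g), ∃ z ∈ e, z ∈ K := by
    intro e he
    rcases Finset.mem_union.1 he with he | he
    · obtain ⟨z, hz⟩ := exists_mem_sym e
      exact ⟨z, hz, (mem_eK.1 he).2.2 z hz⟩
    · obtain ⟨v, hv, rfl⟩ := mem_fan.1 he
      exact ⟨v, Sym2.mem_mk_left _ _, (Finset.mem_inter.1 hv).2⟩
  have e2 : ∀ e ∈ eO P Em K ∪ fan (D \ K) (fun _ => g), ∀ z ∈ e, z ∉ K := by
    intro e he z hz
    rcases Finset.mem_union.1 he with he | he
    · exact (mem_eO.1 he).2.2 z hz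
    · obtain ⟨v, hv, rfl⟩ := mem_fan.1 he
      rcases Sym2.mem_iff.1 hz with rfl | rfl
      · exact (Finset.mem_sdiff.1 hv).2
      · exact hgK
  have e3 : ∀ e ∈ eK P Em K ∪ fan (D ∩ K) (fun _ => g), ∀ z ∈ e, z ∉ Λm \ K := by
    intro e he z hz hz2
    rw [Finset.mem_sdiff] at hz2
    rcases Finset.mem_union.1 he with he | he
    · exact hz2.2 ((mem_eK.1 he).2.2 z hz)
    · obtain ⟨v, hv, rfl⟩ := mem_fan.1 he
      rcases Sym2.mem_iff.1 hz with rfl | rfl
      · exact hz2.2 (Finset.mem_inter.1 hv).2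
      · exact hg hz2.1
  have hdis : Disjoint (eK P Em K ∪ fan (D ∩ K) (fun _ => g))
      (eO P Em K ∪ fan (D \ K) (fun _ => g)) := by
    rw [Finset.disjoint_left]
    intro e he he2
    obtain ⟨z, hz, hzK⟩ := e1 e he
    exact e2 e he2 z hz hzK
  have hu := corr_union (P := P) (Λ₁ := K) (Λ₂ := Λm \ K) (A₁ := A ∩ K) (A₂ := A \ K)
    Finset.disjoint_sdiff hdis e3 e2 Finset.inter_subset_right
    (Finset.sdiff_subset_sdiff hA (Finset.Subset.refl K))
  rw [Finset.union_sdiff_of_subset hKΛ, Finset.union_comm (A ∩ K), Finset.sdiff_union_inter] at hu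
  rw [← hu]
  symm
  refine corr_congr ?_ (fun _ _ => rfl) ?_ A
  · intro e he
    rcases Finset.mem_union.1 he with he | he <;> rcases Finset.mem_union.1 he with he | he
    · exact Finset.mem_union_left _ (mem_eK.1 he).1
    · obtain ⟨v, hv, rfl⟩ := mem_fan.1 he
      exact Finset.mem_union_right _ (mem_fan.2 ⟨v, (Finset.mem_inter.1 hv).1, rfl⟩)
    · exact Finset.mem_union_left _ (mem_eO.1 he).1
    · obtain ⟨v, hv, rfl⟩ := mem_fan.1 he
      exact Finset.mem_union_right _ (mem_fan.2 ⟨v, (Finset.mem_sdiff.1 hv).1, rfl⟩)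
  · intro e he hne
    rcases Finset.mem_union.1 he with he | he
    · rcases hP e he with h | h
      · exact Or.inr h
      · exfalso
        apply hne
        by_cases hex : ∃ z ∈ e, z ∈ K
        · obtain ⟨z, hz, hzK⟩ := hex
          exact Finset.mem_union_left _ (Finset.mem_union_left _
            (mem_eK.2 ⟨he, h, hcl z hzK e he h hz⟩))
        · push Not at hex
          exact Finset.mem_union_right _ (Finset.mem_union_left _ (mem_eO.2 ⟨he, h, hex⟩))
    · exfalso
      apply hne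
      obtain ⟨v, hv, rfl⟩ := mem_fan.1 he
      by_cases hvK : v ∈ K
      · exact Finset.mem_union_left _ (Finset.mem_union_right _
          (mem_fan.2 ⟨v, Finset.mem_inter.2 ⟨hv, hvK⟩, rfl⟩))
      · exact Finset.mem_union_right _ (Finset.mem_union_right _
          (mem_fan.2 ⟨v, Finset.mem_sdiff.2 ⟨hv, hvK⟩, rfl⟩))

/-- the magnetisation of a component in a field -/
theorem comp_field {P : Sym2 V → ℝ} {Em : Finset (Sym2 V)} {Λm D : Finset V} {g x : V} {k : ℝ}
    (hEm : ∀ e ∈ Em, ∀ z ∈ e, z ∈ Λm) (hg : g ∉ Λm)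
    (hD : ∀ v ∈ D, P s(v, g) = k) (hx : x ∈ Λm) :
    corr P (eK P Em (comp P Em Λm x) ∪ fan (D ∩ comp P Em Λm x) (fun _ => g))
        (comp P Em Λm x) {x} =
      (1 - (1 - k) ^ (D ∩ comp P Em Λm x).card) / (1 + (1 - k) ^ (D ∩ comp P Em Λm x).card) := by
  have hpath : ∀ z ∈ comp P Em Λm x,
      Relation.ReflTransGen (Rl P (eK P Em (comp P Em Λm x))) x z := fun z hz =>
    (path_inside hEm hx (mem_comp.1 hz).2).2
  have hxK := self_mem_comp (P := P) (E := Em) hx
  have hKΛ := comp_subset P Em Λm x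
  generalize comp P Em Λm x = K at *
  have hgK : g ∉ K := fun h => hg (hKΛ h)
  have hdis : Disjoint (eK P Em K) (fan (D ∩ K) (fun _ => g)) := by
    rw [Finset.disjoint_left]
    intro e he he2
    obtain ⟨v, hv, rfl⟩ := mem_fan.1 he2
    exact hgK ((mem_eK.1 he).2.2 g (Sym2.mem_mk_right v g))
  have hswK : sw P (eK P Em K ∪ fan (D ∩ K) (fun _ => g)) K = (1 - k) ^ (D ∩ K).card := by
    rw [sw_union P hdis, sw_fan P (Λ := K) Finset.inter_subset_right (fun _ _ => hgK)
      (Finset.Subset.refl K)]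
    have h1 : sw P (eK P Em K) K = 1 := by
      unfold sw
      refine Finset.prod_eq_one fun e he => ?_
      rw [if_pos]
      intro y hy z hz
      exact iff_of_true ((mem_eK.1 he).2.2 y hy) ((mem_eK.1 he).2.2 z hz)
    rw [h1, one_mul, Finset.prod_congr rfl (g := fun _ => 1 - k), Finset.prod_const]
    intro v hv
    rw [if_pos (Finset.mem_inter.1 hv).2, hD v (Finset.mem_inter.1 hv).1]
  have hzero : ∀ S ∈ K.powerset, S ≠ ∅ ∧ S ≠ K →
      sw P (eK P Em K ∪ fan (D ∩ K) (fun _ => g)) S = 0 := by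
    intro S hS hne
    rw [Finset.mem_powerset] at hS
    by_contra h
    have hc : ∀ z ∈ K, (z ∈ S ↔ x ∈ S) := fun z hz =>
      const Finset.subset_union_left h (hpath z hz)
    by_cases hxS : x ∈ S
    · exact hne.2 (Finset.Subset.antisymm hS fun z hz => (hc z hz).2 hxS)
    · apply hne.1
      rw [Finset.eq_empty_iff_forall_notMem]
      intro z hz
      exact hxS ((hc z (hS hz)).1 hz)
  have hKne : (∅ : Finset V) ≠ K := fun h => by
    rw [← h] at hxK
    exact Finset.notMem_empty _ hxK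
  unfold corr
  rw [Finset.sum_eq_add (∅ : Finset V) K hKne
    (fun S hS hne => by rw [hzero S hS hne, mul_zero])
    (fun h => absurd (Finset.empty_mem_powerset K) h)
    (fun h => absurd (Finset.mem_powerset_self K) h),
    Finset.sum_eq_add (∅ : Finset V) K hKne
    (fun S hS hne => hzero S hS hne)
    (fun h => absurd (Finset.empty_mem_powerset K) h)
    (fun h => absurd (Finset.mem_powerset_self K) h), hswK, sw_empty,
    SlM.chi_single, SlM.chi_single, if_neg (Finset.notMem_empty x), if_pos hxK]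
  congr 1
  ring

/-- lower bound for the magnetisation of a component joined to the environment -/
theorem right_lower (hFLP : SpecFLP) {P : Sym2 V → ℝ} {Em Ep : Finset (Sym2 V)}
    {Λm Λp D : Finset V} {g x : V} {u : V → V} (h0 : ∀ e, 0 ≤ P e) (h1 : ∀ e, P e ≤ 1)
    (hΛ : Disjoint Λm Λp) (hgm : g ∉ Λm) (hgp : g ∉ Λp)
    (hEm : ∀ e ∈ Em, ∀ z ∈ e, z ∈ Λm) (hEp : ∀ e ∈ Ep, ∀ z ∈ e, z ∈ insert g Λp)
    (hD : D ⊆ Λm) (hu : ∀ v ∈ D, u v ∈ Λp) (hx : x ∈ Λm)
    (hne : (D ∩ comp P Em Λm x).Nonempty) :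
    corr P (Ep ∪ fan (D ∩ comp P Em Λm x) u) (insert g Λp) {g} ≤
      corr P (Em ∪ fan D u ∪ Ep) (Λm ∪ Λp) {x} := by
  have hpath : ∀ z ∈ comp P Em Λm x,
      Relation.ReflTransGen (Rl P (eK P Em (comp P Em Λm x))) x z := fun z hz =>
    (path_inside hEm hx (mem_comp.1 hz).2).2
  have hpath' : ∀ z ∈ comp P Em Λm x, Relation.ReflTransGen (Rl P Em) x z := fun z hz =>
    (mem_comp.1 hz).2
  have hKΛ := comp_subset P Em Λm x
  generalize comp P Em Λm x = K at *
  obtain ⟨x0, hx0⟩ := hne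
  have hx0D := (Finset.mem_inter.1 hx0).1
  have hx0K := (Finset.mem_inter.1 hx0).2
  have hx0m : x0 ∈ Λm := hKΛ hx0K
  have hΛl := Finset.disjoint_left.1 hΛ
  have hgK : g ∉ K := fun h => hgm (hKΛ h)
  have hx0g : x0 ≠ g := fun h => hgm (h ▸ hx0m)
  set E2 : Finset (Sym2 V) := eK P Em K ∪ fan (D ∩ K) u ∪ Ep with hE2
  have hE2sub : E2 ⊆ Em ∪ fan D u ∪ Ep := by
    refine Finset.union_subset_union (Finset.union_subset_union ?_ ?_) (Finset.Subset.refl _)
    · intro e he
      exact (mem_eK.1 he).1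
    · intro e he
      obtain ⟨v, hv, rfl⟩ := mem_fan.1 he
      exact mem_fan.2 ⟨v, (Finset.mem_inter.1 hv).1, rfl⟩
  -- edges of `E2`
  have hE2mem : ∀ e ∈ E2, ∀ z ∈ e, z ∈ insert g (K ∪ Λp) := by
    intro e he z hz
    rcases Finset.mem_union.1 he with he | he
    · rcases Finset.mem_union.1 he with he | he
      · exact Finset.mem_insert_of_mem (Finset.mem_union_left _ ((mem_eK.1 he).2.2 z hz))
      · obtain ⟨v, hv, rfl⟩ := mem_fan.1 he
        rcases Sym2.mem_iff.1 hz with rfl | rfl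
        · exact Finset.mem_insert_of_mem (Finset.mem_union_left _ (Finset.mem_inter.1 hv).2)
        · exact Finset.mem_insert_of_mem (Finset.mem_union_right _
            (hu v (Finset.mem_inter.1 hv).1))
    · rcases Finset.mem_insert.1 (hEp e he z hz) with h | h
      · rw [h]; exact Finset.mem_insert_self _ _
      · exact Finset.mem_insert_of_mem (Finset.mem_union_right _ h)
  -- (0) from `x` to `x0`
  have s0 : corr P (Em ∪ fan D u ∪ Ep) (Λm ∪ Λp) {x0} = corr P (Em ∪ fan D u ∪ Ep) (Λm ∪ Λp) {x} :=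
    corr_odd (E := Em) (Finset.subset_union_left.trans Finset.subset_union_left)
      (fun z hz => by rw [Finset.mem_singleton] at hz; rw [hz]; exact hpath' x0 hx0K)
      (by rw [Finset.card_singleton]; decide)
  -- (1)
  have s1 : corr P E2 (Λm ∪ Λp) {x0} ≤ corr P (Em ∪ fan D u ∪ Ep) (Λm ∪ Λp) {x0} :=
    SlM.corr_mono_edges h0 h1 hE2sub _ _
  -- (2)
  have s2 : corr P E2 (Λm ∪ Λp) {x0} = corr P E2 (K ∪ Λp) {x0} := by
    have hd : Disjoint (K ∪ Λp) (Λm \ K) := by
      rw [Finset.disjoint_left]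
      intro z hz hz2
      rw [Finset.mem_sdiff] at hz2
      rcases Finset.mem_union.1 hz with hz | hz
      · exact hz2.2 hz
      · exact hΛl hz2.1 hz
    have h := corr_union (P := P) (E₁ := E2) (E₂ := ∅) (Λ₁ := K ∪ Λp) (Λ₂ := Λm \ K)
      (A₁ := {x0}) (A₂ := ∅) hd (Finset.disjoint_empty_right _)
      (fun e he z hz hz2 => by
        rw [Finset.mem_sdiff] at hz2
        rcases Finset.mem_insert.1 (hE2mem e he z hz) with h | h
        · exact hgm (h ▸ hz2.1)
        · rcases Finset.mem_union.1 h with h | h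
          · exact hz2.2 h
          · exact hΛl hz2.1 h) (by simp)
      (Finset.singleton_subset_iff.2 (Finset.mem_union_left _ hx0K)) (Finset.empty_subset _)
    rw [Finset.union_empty, Finset.union_empty, corr_empty h1, mul_one] at h
    rw [← h]
    congr 1
    ext z
    simp only [Finset.mem_union, Finset.mem_sdiff]
    constructor
    · rintro (hz | hz)
      · by_cases hzK : z ∈ K
        · exact Or.inl (Or.inl hzK)
        · exact Or.inr ⟨hz, hzK⟩
      · exact Or.inl (Or.inr hz)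
    · rintro ((hz | hz) | hz)
      · exact Or.inl (hKΛ hz)
      · exact Or.inr hz
      · exact Or.inl hz.1
  have hcard : ({x0, g} : Finset V).card = 2 := Finset.card_pair hx0g
  have hgU : g ∉ K ∪ Λp := by
    rw [Finset.mem_union]
    rintro (h | h)
    · exact hgK h
    · exact hgp h
  -- (3)
  have s3 : corr P E2 (insert g (K ∪ Λp)) {x0, g} = corr P E2 (K ∪ Λp) {x0} := by
    have h := hFLP V P E2 (insert g (K ∪ Λp)) {x0, g} g hE2mem (by
      intro z hz
      rw [Finset.mem_insert, Finset.mem_singleton] at hz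
      rcases hz with rfl | rfl
      · exact Finset.mem_insert_of_mem (Finset.mem_union_left _ hx0K)
      · exact Finset.mem_insert_self _ _) (by rw [hcard]; decide) (Finset.mem_insert_self _ _)
    rw [h, Finset.erase_insert hgU, Finset.pair_comm]
    exact corr_out hgU
  -- (4)
  have s4 : corr P E2 (insert g (K ∪ Λp)) {x0, g} =
      corr P E2 ((insert g (K ∪ Λp)).erase x0) {g} := by
    have h := hFLP V P E2 (insert g (K ∪ Λp)) {x0, g} x0 hE2mem (by
      intro z hz
      rw [Finset.mem_insert, Finset.mem_singleton] at hz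
      rcases hz with rfl | rfl
      · exact Finset.mem_insert_of_mem (Finset.mem_union_left _ hx0K)
      · exact Finset.mem_insert_self _ _) (by rw [hcard]; decide)
      (Finset.mem_insert_of_mem (Finset.mem_union_left _ hx0K))
    rw [h]
    exact corr_out (Finset.notMem_erase _ _)
  -- (5)
  have s5 : corr P E2 ((insert g (K ∪ Λp)).erase x0) {g} = corr P E2 (insert g Λp) {g} := by
    have hsub : insert g Λp ⊆ (insert g (K ∪ Λp)).erase x0 := by
      intro z hz
      rw [Finset.mem_erase]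
      rcases Finset.mem_insert.1 hz with rfl | hz
      · exact ⟨hx0g.symm, Finset.mem_insert_self _ _⟩
      · refine ⟨?_, Finset.mem_insert_of_mem (Finset.mem_union_right _ hz)⟩
        rintro rfl
        exact hΛl hx0m hz
    have hz0 : ∀ S ∈ ((insert g (K ∪ Λp)).erase x0).powerset, S ∉ (insert g Λp).powerset →
        sw P E2 S = 0 := by
      intro S hS hnS
      rw [Finset.mem_powerset] at hS hnS
      by_contra h
      apply hnS
      have hc : ∀ z ∈ K, (z ∈ S ↔ x ∈ S) := fun z hz =>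
        const (Finset.subset_union_left.trans Finset.subset_union_left) h (hpath z hz)
      have hx0S : x0 ∉ S := fun h2 => (Finset.mem_erase.1 (hS h2)).1 rfl
      have hxS : x ∉ S := fun h2 => hx0S ((hc x0 hx0K).2 h2)
      intro z hz
      rcases Finset.mem_insert.1 (Finset.mem_erase.1 (hS hz)).2 with h2 | h2
      · rw [h2]; exact Finset.mem_insert_self _ _
      · rcases Finset.mem_union.1 h2 with h2 | h2
        · exact absurd ((hc z h2).1 hz) hxS
        · exact Finset.mem_insert_of_mem h2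
    unfold corr
    rw [← Finset.sum_subset (Finset.powerset_mono.2 hsub)
      (fun S hS hnS => by rw [hz0 S hS hnS, mul_zero]),
      ← Finset.sum_subset (Finset.powerset_mono.2 hsub) hz0]
  -- (6)
  have s6 : corr P (Ep ∪ fan (D ∩ K) u) (insert g Λp) {g} = corr P E2 (insert g Λp) {g} := by
    refine corr_congr ?_ (fun _ _ => rfl) ?_ _
    · intro e he
      rcases Finset.mem_union.1 he with he | he
      · exact Finset.mem_union_right _ he
      · exact Finset.mem_union_left _ (Finset.mem_union_right _ he)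
    · intro e he hne
      left
      intro z hz hz2
      have heK : e ∈ eK P Em K := by
        rcases Finset.mem_union.1 he with he | he
        · rcases Finset.mem_union.1 he with he | he
          · exact he
          · exact absurd (Finset.mem_union_right _ he) hne
        · exact absurd (Finset.mem_union_left _ he) hne
      have hzK := (mem_eK.1 heK).2.2 z hz
      rcases Finset.mem_insert.1 hz2 with h | h
      · exact hgK (h ▸ hzK)
      · exact hΛl (hKΛ hzK) h
  rw [s6, ← s5, ← s4, s3, ← s2, ← s0]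
  exact s1

end CMBM

open CMBM CHGM in
theorem specCMB (hFLP : SpecFLP) : SpecCMB := by
  intro V P Em Ep Λm Λp D g u k h0 h1 hP01 hdm hdp hΛ hgm hgp hEm hEp hD hDk hk0 hk1 hH A
  generalize hn : A.card = n
  induction n using Nat.strong_induction_on generalizing A with
  | _ n ih =>
    intro hA
    rcases A.eq_empty_or_nonempty with rfl | ⟨x, hxA⟩
    · rw [corr_empty h1, corr_empty h1]
    · have hx : x ∈ Λm := hA hxA
      have hxK := self_mem_comp (P := P) (E := Em) hx
      have hKpath : ∀ z ∈ comp P Em Λm x, Relation.ReflTransGen (Rl P Em) x z := fun z hz =>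
        (mem_comp.1 hz).2
      have hf : ∀ B : Finset V, B ⊆ Λm → _ := fun B hB =>
        factor_left (P := P) (Em := Em) (Λm := Λm) (D := D) (g := g) (x := x) hP01 hEm hgm
          (A := B) hB
      have hfield := comp_field (P := P) (Em := Em) (Λm := Λm) (D := D) (g := g) (x := x) (k := k)
        hEm hgm (fun v hv => (hDk v hv).2) hx
      have hright := fun hne => right_lower hFLP (P := P) (Em := Em) (Ep := Ep) (Λm := Λm)
        (Λp := Λp) (D := D) (g := g) (x := x) (u := u) h0 h1 hΛ hgm hgp hEm hEp hD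
        (fun v hv => (hDk v hv).1) hx hne
      have hKΛ := comp_subset P Em Λm x
      generalize comp P Em Λm x = K at *
      -- the magnetisation
      have hmag : corr P (Em ∪ fan D (fun _ => g)) Λm {x} ≤
          corr P (Em ∪ fan D u ∪ Ep) (Λm ∪ Λp) {x} := by
        have e1 : ({x} : Finset V) ∩ K = {x} :=
          Finset.inter_eq_left.2 (Finset.singleton_subset_iff.2 hxK)
        have e2 : ({x} : Finset V) \ K = ∅ :=
          Finset.sdiff_eq_empty_iff_subset.2 (Finset.singleton_subset_iff.2 hxK)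
        rw [hf {x} (Finset.singleton_subset_iff.2 hx), e1, e2, corr_empty h1, mul_one, hfield]
        rcases (D ∩ K).eq_empty_or_nonempty with h | h
        · rw [h, Finset.card_empty, pow_zero, sub_self, zero_div]
          exact corr_nonneg h0 h1 _
        · exact (hH (D ∩ K) Finset.inter_subset_left h).trans (hright h)
      -- the part of `A` in `K`
      have hA1K : ∀ z ∈ A ∩ K, Relation.ReflTransGen (Rl P Em) x z := fun z hz =>
        hKpath z (Finset.mem_inter.1 hz).2
      have hA1 : corr P (Em ∪ fan D (fun _ => g)) Λm (A ∩ K) ≤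
          corr P (Em ∪ fan D u ∪ Ep) (Λm ∪ Λp) (A ∩ K) := by
        by_cases hev : Even (A ∩ K).card
        · rw [corr_even (E := Em) (E' := Em ∪ fan D u ∪ Ep) h1
            (Finset.subset_union_left.trans Finset.subset_union_left) hA1K hev]
          exact corr_le_one h1 _
        · rw [corr_odd (E := Em) (E' := Em ∪ fan D u ∪ Ep)
            (Finset.subset_union_left.trans Finset.subset_union_left) hA1K hev,
            corr_odd (E := Em) (E' := Em ∪ fan D (fun _ => g)) Finset.subset_union_left hA1K hev]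
          exact hmag
      -- the rest of `A`
      have hA2 : corr P (Em ∪ fan D (fun _ => g)) Λm (A \ K) ≤
          corr P (Em ∪ fan D u ∪ Ep) (Λm ∪ Λp) (A \ K) := by
        refine ih (A \ K).card ?_ (A \ K) rfl (Finset.sdiff_subset.trans hA)
        rw [← hn]
        refine Finset.card_lt_card ?_
        rw [Finset.ssubset_iff_of_subset Finset.sdiff_subset]
        exact ⟨x, hxA, fun h => (Finset.mem_sdiff.1 h).2 hxK⟩
      -- factorisation
      have hfac : corr P (Em ∪ fan D (fun _ => g)) Λm A =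
          corr P (Em ∪ fan D (fun _ => g)) Λm (A ∩ K) *
            corr P (Em ∪ fan D (fun _ => g)) Λm (A \ K) := by
        have i1 : A ∩ K ∩ K = A ∩ K := by rw [Finset.inter_assoc, Finset.inter_self]
        have i2 : (A ∩ K) \ K = ∅ :=
          Finset.sdiff_eq_empty_iff_subset.2 Finset.inter_subset_right
        have i3 : (A \ K) ∩ K = ∅ := by
          rw [Finset.eq_empty_iff_forall_notMem]
          intro z hz
          rw [Finset.mem_inter, Finset.mem_sdiff] at hz
          exact hz.1.2 hz.2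
        have i4 : (A \ K) \ K = A \ K := by
          rw [sdiff_sdiff_left, sup_idem]
        rw [hf A hA, hf (A ∩ K) (Finset.inter_subset_left.trans hA),
          hf (A \ K) (Finset.sdiff_subset.trans hA), i1, i2, i3, i4, corr_empty h1, corr_empty h1,
          mul_one, one_mul]
      rw [hfac]
      have hsd : symmDiff (A ∩ K) (A \ K) = A := by
        ext z
        rw [Finset.mem_symmDiff, Finset.mem_inter, Finset.mem_sdiff]
        tauto
      have hgks := corr_gks (P := P) (E := Em ∪ fan D u ∪ Ep) (Λ := Λm ∪ Λp) h0 h1 (A ∩ K) (A \ K)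
      rw [hsd] at hgks
      refine le_trans ?_ hgks
      exact mul_le_mul hA1 hA2 (corr_nonneg h0 h1 _) (corr_nonneg h0 h1 _)

end NU

end MP8622
end

section
set_option autoImplicit false

open Classical Filter Topology

/-! CMP: comparison of an environment with a field. -/

namespace MP8622

namespace NU

namespace CMPM

variable {V : Type}

theorem mem_fan {L : Finset V} {u : V → V} {e : Sym2 V} :
    e ∈ fan L u ↔ ∃ v ∈ L, s(v, u v) = e := by
  simp [fan]

theorem corr_upd {P : Sym2 V → ℝ} {E : Finset (Sym2 V)} {Λ A : Finset V} {e : Sym2 V} {a : ℝ}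
    (he : e ∉ E) : corr (upd P e a) E Λ A = corr P E Λ A := by
  refine corr_congr (Finset.Subset.refl E) (fun f hf => ?_) (fun f hf hne => absurd hf hne) A
  unfold upd
  rw [if_neg]
  rintro rfl
  exact he hf

theorem F_mono {t c c' : ℝ} (ht0 : 0 ≤ t) (ht1 : t ≤ 1) (hc : 0 ≤ c) (hcc : c ≤ c') :
    t * (1 + c) / (1 + t * c) ≤ t * (1 + c') / (1 + t * c') := by
  have h1 : 0 < 1 + t * c := by positivity
  have h2 : 0 < 1 + t * c' := by
    have : 0 ≤ c' := hc.trans hcc
    positivity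
  rw [div_le_div_iff₀ h1 h2]
  have e : t * (1 + c') * (1 + t * c) - t * (1 + c) * (1 + t * c') = t * (1 - t) * (c' - c) := by
    ring
  have : 0 ≤ t * (1 - t) * (c' - c) :=
    mul_nonneg (mul_nonneg ht0 (by linarith)) (by linarith)
  linarith

end CMPM

open CMPM in
theorem specCMP (hCMB : SpecCMB) (hMIX : SpecMIX) : SpecCMP := by
  intro V P Em Ep Λm Λp D g u k
  generalize hn : (Em.filter (fun e => 0 < P e ∧ P e < 1)).card = n
  induction n using Nat.strong_induction_on generalizing P with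
  | _ n ih =>
    intro h0 h1 hdm hdp hΛ hgm hgp hEm hEp hD hDk hk0 hk1 hH A hA
    by_cases hex : ∃ e ∈ Em, 0 < P e ∧ P e < 1
    · obtain ⟨e, heE, he0, he1⟩ := hex
      -- the two modified systems
      have hstep : ∀ a : ℝ, 0 ≤ a → a ≤ 1 → (a = 0 ∨ a = 1) → ∀ B : Finset V, B ⊆ Λm →
          corr (upd P e a) (Em ∪ fan D (fun _ => g)) Λm B ≤
            corr (upd P e a) (Em ∪ fan D u ∪ Ep) (Λm ∪ Λp) B := by
        intro a ha0 ha1 ha B hB
        have hlt : (Em.filter (fun f => 0 < upd P e a f ∧ upd P e a f < 1)).card < n := by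
          rw [← hn]
          refine Finset.card_lt_card ?_
          rw [Finset.ssubset_iff_of_subset]
          · refine ⟨e, Finset.mem_filter.2 ⟨heE, he0, he1⟩, ?_⟩
            rw [Finset.mem_filter]
            unfold upd
            rw [if_pos rfl]
            rcases ha with rfl | rfl
            · rintro ⟨-, h, -⟩; exact lt_irrefl _ h
            · rintro ⟨-, -, h⟩; exact lt_irrefl _ h
          · intro f hf
            rw [Finset.mem_filter] at hf ⊢
            refine ⟨hf.1, ?_⟩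
            by_cases hfe : f = e
            · rw [hfe]; exact ⟨he0, he1⟩
            · have : upd P e a f = P f := by unfold upd; rw [if_neg hfe]
              rw [this] at hf
              exact hf.2
        have hfar : ∀ f : Sym2 V, (∃ z ∈ f, z ∉ Λm) → upd P e a f = P f := by
          rintro f ⟨z, hz, hzm⟩
          unfold upd
          rw [if_neg]
          rintro rfl
          exact hzm (hEm f heE z hz)
        refine ih _ hlt (upd P e a) rfl ?_ ?_ hdm hdp hΛ hgm hgp hEm hEp hD ?_ hk0 hk1 ?_ B hB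
        · intro f
          unfold upd
          split_ifs
          · exact ha0
          · exact h0 f
        · intro f
          unfold upd
          split_ifs
          · exact ha1
          · exact h1 f
        · intro x hx
          refine ⟨(hDk x hx).1, ?_⟩
          rw [hfar s(x, g) ⟨g, Sym2.mem_mk_right x g, hgm⟩]
          exact (hDk x hx).2
        · intro X hX hXn
          refine (hH X hX hXn).trans (le_of_eq ?_)
          symm
          refine corr_upd ?_
          intro he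
          rcases Finset.mem_union.1 he with he | he
          · obtain ⟨v, w, rfl⟩ : ∃ v w, e = s(v, w) := by
              induction e using Sym2.ind with
              | _ v w => exact ⟨v, w, rfl⟩
            have h5 := hEm _ heE v (Sym2.mem_mk_left v w)
            have h6 := hEp _ he v (Sym2.mem_mk_left v w)
            rcases Finset.mem_insert.1 h6 with h6 | h6
            · exact hgm (h6 ▸ h5)
            · exact Finset.disjoint_left.1 hΛ h5 h6
          · obtain ⟨v, hv, rfl⟩ := mem_fan.1 he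
            have h5 := hEm _ heE (u v) (Sym2.mem_mk_right v (u v))
            exact Finset.disjoint_left.1 hΛ h5 (hDk v (hX hv)).1
      obtain ⟨x, v, rfl⟩ : ∃ v w, e = s(v, w) := by
        induction e using Sym2.ind with
        | _ v w => exact ⟨v, w, rfl⟩
      have hx : x ∈ Λm := hEm _ heE x (Sym2.mem_mk_left x v)
      have hv : v ∈ Λm := hEm _ heE v (Sym2.mem_mk_right x v)
      have heL : s(x, v) ∈ Em ∪ fan D (fun _ => g) := Finset.mem_union_left _ heE
      have heR : s(x, v) ∈ Em ∪ fan D u ∪ Ep :=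
        Finset.mem_union_left _ (Finset.mem_union_left _ heE)
      obtain ⟨qL0, qL1, HL⟩ := hMIX V P _ Λm x v h0 h1 heL _ rfl
      obtain ⟨qR0, qR1, HR⟩ := hMIX V P _ (Λm ∪ Λp) x v h0 h1 heR _ rfl
      -- comparison of the weights
      have ht0 : 0 ≤ th (P s(x, v)) := div_nonneg (h0 _) (by linarith [h1 s(x, v)])
      have ht1 : th (P s(x, v)) ≤ 1 := by
        unfold th
        rw [div_le_one (by linarith)]
        linarith
      have hc : c2 P ((Em ∪ fan D (fun _ => g)).erase s(x, v)) Λm x v ≤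
          c2 P ((Em ∪ fan D u ∪ Ep).erase s(x, v)) (Λm ∪ Λp) x v := by
        unfold c2
        rw [← (HL (symmDiff {x} {v})).2, ← (HR (symmDiff {x} {v})).2]
        exact hstep 0 le_rfl zero_le_one (Or.inl rfl) _ (SlM.pair_subset hx hv)
      have hq := F_mono ht0 ht1 (corr_nonneg (P := P) (E := (Em ∪ fan D (fun _ => g)).erase s(x, v))
        (Λ := Λm) h0 h1 (symmDiff {x} {v})) hc
      have e1 := (HL A).1
      have e2 := (HR A).1
      rw [← (HL A).2] at e1
      rw [← (HR A).2] at e2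
      have s0 := hstep 0 le_rfl zero_le_one (Or.inl rfl) A hA
      have s1 := hstep 1 zero_le_one le_rfl (Or.inr rfl) A hA
      have hmono : corr (upd P s(x, v) 0) (Em ∪ fan D u ∪ Ep) (Λm ∪ Λp) A ≤
          corr (upd P s(x, v) 1) (Em ∪ fan D u ∪ Ep) (Λm ∪ Λp) A := by
        refine corr_mono ?_ ?_ ?_ (Finset.Subset.refl _) A
        · intro f
          unfold upd
          split_ifs
          · exact le_rfl
          · exact h0 f
        · intro f
          unfold upd
          split_ifs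
          · exact zero_le_one
          · exact le_rfl
        · intro f
          unfold upd
          split_ifs
          · exact le_rfl
          · exact h1 f
      rw [e1, e2]
      change th (P s(x, v)) * (1 + c2 P ((Em ∪ fan D (fun _ => g)).erase s(x, v)) Λm x v) /
        (1 + th (P s(x, v)) * c2 P ((Em ∪ fan D (fun _ => g)).erase s(x, v)) Λm x v) ≤ _ at hq
      generalize th (P s(x, v)) * (1 + c2 P ((Em ∪ fan D (fun _ => g)).erase s(x, v)) Λm x v) /
        (1 + th (P s(x, v)) * c2 P ((Em ∪ fan D (fun _ => g)).erase s(x, v)) Λm x v) = qL at *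
      generalize th (P s(x, v)) *
        (1 + c2 P ((Em ∪ fan D u ∪ Ep).erase s(x, v)) (Λm ∪ Λp) x v) /
        (1 + th (P s(x, v)) * c2 P ((Em ∪ fan D u ∪ Ep).erase s(x, v)) (Λm ∪ Λp) x v) = qR at *
      nlinarith
    · push Not at hex
      refine hCMB V P Em Ep Λm Λp D g u k h0 h1 ?_ hdm hdp hΛ hgm hgp hEm hEp hD hDk hk0 hk1 hH A hA
      intro e he
      rcases (h0 e).lt_or_eq with h | h
      · exact Or.inr (le_antisymm (h1 e) (hex e he h))
      · exact Or.inl h.symm

end NU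

end MP8622
end

section
set_option autoImplicit false

open Classical Filter Topology

/-!
# ITA: properties of the free two point function in a region
-/

namespace MP8622

namespace NU

namespace ITAM

variable {V : Type} (G : SimpleGraph V) [G.LocallyFinite] {p : ℝ}

theorem tau_symm (p : ℝ) (Λ : Finset V) (x y : V) : tau G p Λ x y = tau G p Λ y x := by
  unfold tau
  rw [symmDiff_comm]
  simp only [and_comm]

theorem filter_mono_set {R R' : Set V} (h : R ⊆ R') (Λ : Finset V) :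
    Λ.filter (· ∈ R) ⊆ Λ.filter (· ∈ R') := by
  intro z hz
  rw [Finset.mem_filter] at hz ⊢
  exact ⟨hz.1, h hz.2⟩

theorem map_filter (g : V ≃ V) (R : Set V) (Λ : Finset V) :
    (Λ.map g.toEmbedding).filter (· ∈ g '' R) = (Λ.filter (· ∈ R)).map g.toEmbedding := by
  ext z
  rw [Finset.mem_filter, Finset.mem_map_equiv, Finset.mem_map_equiv, Finset.mem_filter]
  constructor
  · rintro ⟨h1, w, hw, rfl⟩
    rw [Equiv.symm_apply_apply] at h1 ⊢
    exact ⟨h1, hw⟩
  · rintro ⟨h1, h2⟩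
    exact ⟨h1, g.symm z, h2, Equiv.apply_symm_apply g z⟩

theorem main (h0 : 0 ≤ p) (h1 : p ≤ 1) : TTA G p := by
  have tm : ∀ {Λ Λ' : Finset V}, Λ ⊆ Λ' → ∀ x y : V,
      ENNReal.ofReal (tau G p Λ x y) ≤ ENNReal.ofReal (tau G p Λ' x y) := fun h x y =>
    ENNReal.ofReal_le_ofReal (IsfM.tau_mono G h0 le_rfl h1 h x y)
  have le_one : ∀ (R : Set V) (x y : V), TT G p R x y ≤ 1 := by
    intro R x y
    exact iSup_le fun Λ => ENNReal.ofReal_le_one.2 (IsfM.tau_le_one G h1 _ _ _)
  have mono : ∀ R R' : Set V, R ⊆ R' → ∀ x y : V, TT G p R x y ≤ TT G p R' x y := by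
    intro R R' h x y
    exact iSup_mono fun Λ => tm (filter_mono_set h Λ) x y
  refine ⟨le_one, ?_, ?_, ?_, mono, ?_, ?_, ?_, ?_, ?_, ?_⟩
  · -- self
    intro R x hx
    refine le_antisymm (le_one R x x) ?_
    refine le_iSup_of_le {x} ?_
    have h2 : ({x} : Finset V).filter (· ∈ R) = {x} := by
      rw [Finset.filter_singleton, if_pos hx]
    rw [h2, IsfM.tau_eq G (Finset.mem_singleton_self x) (Finset.mem_singleton_self x),
      SlM.symmDiff_self_empty, corr_empty (fun _ => h1)]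
    simp
  · -- out
    intro R x y h
    unfold TT
    rw [ENNReal.iSup_eq_zero]
    intro Λ
    have h2 : tau G p (Λ.filter (· ∈ R)) x y = 0 := by
      refine if_neg ?_
      rintro ⟨ha, hb⟩
      rcases h with h | h
      · exact h (Finset.mem_filter.1 ha).2
      · exact h (Finset.mem_filter.1 hb).2
    rw [h2, ENNReal.ofReal_zero]
  · -- symm
    intro R x y
    unfold TT
    exact iSup_congr fun Λ => by rw [tau_symm]
  · -- mul
    intro R x y z
    unfold TT
    rw [ENNReal.iSup_mul]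
    refine iSup_le fun Λ => ?_
    rw [ENNReal.mul_iSup]
    refine iSup_le fun Λ' => ?_
    refine le_iSup_of_le (Λ ∪ Λ') ?_
    have ha : Λ.filter (· ∈ R) ⊆ (Λ ∪ Λ').filter (· ∈ R) :=
      Finset.filter_subset_filter _ Finset.subset_union_left
    have hb : Λ'.filter (· ∈ R) ⊆ (Λ ∪ Λ').filter (· ∈ R) :=
      Finset.filter_subset_filter _ Finset.subset_union_right
    refine (mul_le_mul' (tm ha x y) (tm hb y z)).trans ?_
    rw [← ENNReal.ofReal_mul (IsfM.tau_nonneg G h0 h1 _ _ _)]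
    exact ENNReal.ofReal_le_ofReal (IsfM.tau_mul G h0 h1 _ _ _ _)
  · -- edge
    intro R x y hx hy hxy
    refine le_iSup_of_le {x, y} ?_
    refine ENNReal.ofReal_le_ofReal ?_
    refine IsfM.mem_edge G h0 h1 ?_ ?_ hxy
    · exact Finset.mem_filter.2 ⟨by simp, hx⟩
    · exact Finset.mem_filter.2 ⟨by simp, hy⟩
  · -- inv
    intro g hg R x y
    unfold TT
    symm
    refine Equiv.iSup_congr (Equiv.finsetCongr g) fun Λ => ?_
    show ENNReal.ofReal (tau G p ((Λ.map g.toEmbedding).filter (· ∈ g '' R)) (g x) (g y)) = _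
    rw [map_filter, IsfM.tau_map G hg]
  · -- dir
    intro Rn hRn x y
    refine le_antisymm ?_ (iSup_le fun n => mono _ _ (Set.subset_iUnion Rn n) x y)
    refine iSup_le fun Λ => ?_
    have hf : ∀ z : V, ∃ n, z ∈ (⋃ n, Rn n) → z ∈ Rn n := by
      intro z
      by_cases hz : z ∈ ⋃ n, Rn n
      · obtain ⟨n, hn⟩ := Set.mem_iUnion.1 hz
        exact ⟨n, fun _ => hn⟩
      · exact ⟨0, fun h => absurd h hz⟩
    choose f hf using hf
    refine le_iSup_of_le (Λ.sup f) (le_iSup_of_le Λ (tm ?_ x y))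
    intro z hz
    rw [Finset.mem_filter] at hz ⊢
    exact ⟨hz.1, hRn (Finset.le_sup hz.1) (hf z hz.2)⟩
  · -- tau_le
    intro Λ x y
    refine le_iSup_of_le Λ (tm ?_ x y)
    intro z hz
    exact (@Finset.mem_filter V (fun a => a ∈ (Set.univ : Set V))
      (fun a => propDecidable (a ∈ (Set.univ : Set V))) Λ z).2 ⟨hz, Set.mem_univ z⟩
  · -- appr
    intro R Y ψ hψ
    have hf : ∀ x y : V, ∃ Λ : Finset V, x ∈ Y → y ∈ Y → y ∈ R →
        ψ x y ≤ ENNReal.ofReal (tau G p (Λ.filter (· ∈ R)) x y) := by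
      intro x y
      by_cases h : x ∈ Y ∧ y ∈ Y ∧ y ∈ R
      · rcases hψ x h.1 y h.2.1 h.2.2 with h2 | h2
        · obtain ⟨Λ, hΛ⟩ := lt_iSup_iff.1 h2
          exact ⟨Λ, fun _ _ _ => hΛ.le⟩
        · exact ⟨∅, fun _ _ _ => by rw [h2]; exact bot_le⟩
      · exact ⟨∅, fun a b c => absurd ⟨a, b, c⟩ h⟩
    choose f hf using hf
    refine ⟨(Y ∪ Y.biUnion (fun x => Y.biUnion (fun y => f x y))).filter (· ∈ R), ?_, ?_, ?_⟩
    · intro z hz
      exact (Finset.mem_filter.1 hz).2
    · intro z hz hzR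
      exact Finset.mem_filter.2 ⟨Finset.mem_union_left _ hz, hzR⟩
    · intro x hx y hy hyR
      refine (hf x y hx hy hyR).trans (tm ?_ x y)
      refine Finset.filter_subset_filter _ ?_
      intro z hz
      refine Finset.mem_union_right _ ?_
      rw [Finset.mem_biUnion]
      refine ⟨x, hx, ?_⟩
      rw [Finset.mem_biUnion]
      exact ⟨y, hy, hz⟩

end ITAM

theorem specITA : SpecITA := fun _ G _ _ h0 h1 => ITAM.main G h0 h1

end NU

end MP8622
end

section
set_option autoImplicit false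

open Classical Filter Topology

/-!
# DWN: sums downwards from the top layer
-/

namespace MP8622

namespace NU

namespace DWNM

variable {V : Type}

theorem sm_mono {C C' : Set V} {f g : V → ENNReal} (h : ∀ y ∈ C, y ∈ C' ∧ f y ≤ g y) :
    sm C f ≤ sm C' g := by
  unfold sm
  refine ENNReal.tsum_le_tsum fun y => ?_
  by_cases hy : y ∈ C
  · rw [Set.indicator_of_mem hy, Set.indicator_of_mem (h y hy).1]
    exact (h y hy).2
  · rw [Set.indicator_of_notMem hy]
    exact zero_le

theorem sm_union_le (C C' : Set V) (f : V → ENNReal) : sm (C ∪ C') f ≤ sm C f + sm C' f := by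
  unfold sm
  rw [← ENNReal.tsum_add]
  refine ENNReal.tsum_le_tsum fun y => ?_
  by_cases hy : y ∈ C
  · rw [Set.indicator_of_mem (Set.mem_union_left C' hy), Set.indicator_of_mem hy]
    exact le_self_add
  · by_cases hy' : y ∈ C'
    · rw [Set.indicator_of_mem (Set.mem_union_right C hy'), Set.indicator_of_mem hy']
      exact le_add_self
    · rw [Set.indicator_of_notMem (fun h => h.elim hy hy')]
      exact zero_le

theorem bel_mono {h : V → ℝ} {a b : ℝ} (hab : a ≤ b) : bel h a ⊆ bel h b := fun _ hy =>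
  lt_of_lt_of_le hy hab

theorem lay_sub_bel {h : V → ℝ} {a b c : ℝ} (hbc : b ≤ c) : lay h a b ⊆ bel h c := fun _ hy =>
  lt_of_lt_of_le hy.2 hbc

end DWNM

open DWNM

theorem specDWN (hMTI : SpecMTI) (hPSH : SpecPSH) : SpecDWN := by
  intro Γ V _ _ G _ h τ d p₀ hC
  obtain ⟨K₁, hK₁, hP⟩ := hPSH Γ V G h τ d p₀ hC
  have hτ : 0 < τ := hC.ht.pos
  have hp₀ : 0 < p₀ := hC.ppos
  have hK0 : 0 ≤ K₁ := by linarith
  have he1 : 1 ≤ Real.exp τ := Real.one_le_exp hτ.le
  refine ⟨2 * K₁ ^ 2 * Real.exp τ, by nlinarith [mul_self_nonneg (K₁ - 1)], ?_⟩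
  intro p hp hp1 A c hA hc hB T u y hTy hu
  have h0p : 0 ≤ p := by linarith
  have tta : TTA G p := specITA V G p h0p hp1
  by_cases hyT : T ≤ h y
  · have hz : sm (lay h (T - u - τ) (T - u)) (fun z => TT G p (bel h T) y z) = 0 := by
      unfold sm
      rw [ENNReal.tsum_eq_zero]
      intro z
      by_cases hz : z ∈ lay h (T - u - τ) (T - u)
      · rw [Set.indicator_of_mem hz]
        exact tta.out _ _ _ (Or.inl (fun hlt => absurd hlt (not_lt.2 hyT)))
      · rw [Set.indicator_of_notMem hz]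
    rw [hz]
    exact zero_le
  have hyT' : h y < T := not_le.1 hyT
  set S : ℝ := h y + u + 2 * τ with hS
  set ϕ : ℝ → ENNReal := fun s => if u - τ < s ∧ s < u + τ then ENNReal.ofReal (Real.exp s) else 0
    with hϕ
  have hM := (hMTI Γ V G h τ p hC.ht h0p hp1 ϕ τ y).1
  have hQ := hP p hp hp1 (bel h S) y
  -- step one
  have s1 : sm (lay h (T - u - τ) (T - u)) (fun z => TT G p (bel h T) y z) ≤
      ∑' z, TT G p (bel h (h y + τ)) z y * ϕ (h y - h z) *
        ENNReal.ofReal (Real.exp (h z - h y)) := by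
    unfold sm
    refine ENNReal.tsum_le_tsum fun z => ?_
    by_cases hz : z ∈ lay h (T - u - τ) (T - u)
    · rw [Set.indicator_of_mem hz]
      have hz1 := hz.1
      have hz2 := hz.2
      have hc1 : u - τ < h y - h z ∧ h y - h z < u + τ := ⟨by linarith, by linarith⟩
      have hϕz : ϕ (h y - h z) = ENNReal.ofReal (Real.exp (h y - h z)) := by
        rw [hϕ]
        exact if_pos hc1
      rw [hϕz, mul_assoc, ← ENNReal.ofReal_mul (Real.exp_pos _).le, ← Real.exp_add,
        show h y - h z + (h z - h y) = 0 by ring, Real.exp_zero, ENNReal.ofReal_one, mul_one,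
        tta.symm _ z y]
      exact tta.mono _ _ (bel_mono (by linarith)) y z
    · rw [Set.indicator_of_notMem hz]
      exact zero_le
  -- step two
  have s2 : ∑' z, TT G p (bel h (h z + τ)) y z * ϕ (h z - h y) ≤
      ENNReal.ofReal (Real.exp (u + τ)) *
        sm (lay h (h y + u - τ) (h y + u) ∪ lay h (h y + u) (h y + u + τ))
          (fun z => TT G p (bel h S) y z) := by
    unfold sm
    rw [← ENNReal.tsum_mul_left]
    refine ENNReal.tsum_le_tsum fun z => ?_
    by_cases hc1 : u - τ < h z - h y ∧ h z - h y < u + τ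
    · have hϕz : ϕ (h z - h y) = ENNReal.ofReal (Real.exp (h z - h y)) := by
        rw [hϕ]
        exact if_pos hc1
      have hmem : z ∈ lay h (h y + u - τ) (h y + u) ∪ lay h (h y + u) (h y + u + τ) := by
        by_cases hlt : h z < h y + u
        · exact Or.inl ⟨by linarith [hc1.1], hlt⟩
        · exact Or.inr ⟨not_lt.1 hlt, by linarith [hc1.2]⟩
      rw [hϕz, Set.indicator_of_mem hmem, mul_comm]
      refine mul_le_mul' (ENNReal.ofReal_le_ofReal (Real.exp_le_exp.2 hc1.2.le)) ?_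
      exact tta.mono _ _ (bel_mono (by rw [hS]; linarith [hc1.2])) y z
    · have hϕz : ϕ (h z - h y) = 0 := by
        rw [hϕ]
        exact if_neg hc1
      rw [hϕz, mul_zero]
      exact zero_le
  -- step three
  have hET : sm (lay h (h y + u + τ) (h y + u + τ + τ)) (fun z => TT G p (bel h S) y z) ≤
      ENNReal.ofReal (A * Real.exp (-c * u)) := by
    have h1 := hB S y
    unfold ET at h1
    have e1 : S - τ = h y + u + τ := by rw [hS]; ring
    have e2 : h y + u + τ + τ = S := by rw [hS]; ring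
    rw [e1] at h1
    rw [e2]
    refine h1.trans (ENNReal.ofReal_le_ofReal (mul_le_mul_of_nonneg_left
      (Real.exp_le_exp.2 ?_) hA))
    have e3 : S - h y = u + 2 * τ := by rw [hS]; ring
    rw [e3]
    nlinarith
  have p1 : sm (lay h (h y + u) (h y + u + τ)) (fun z => TT G p (bel h S) y z) ≤
      ENNReal.ofReal K₁ * ENNReal.ofReal (A * Real.exp (-c * u)) := by
    refine ((hQ (h y + u) (h y + u + τ)).1 (lay_sub_bel (by rw [hS]; linarith))).trans ?_
    exact mul_le_mul' le_rfl hET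
  have p2 : sm (lay h (h y + u - τ) (h y + u)) (fun z => TT G p (bel h S) y z) ≤
      ENNReal.ofReal K₁ * (ENNReal.ofReal K₁ * ENNReal.ofReal (A * Real.exp (-c * u))) := by
    have e1 : h y + u - τ + τ = h y + u := by ring
    have h2 := (hQ (h y + u - τ) (h y + u)).1
    rw [e1] at h2
    refine (h2 (lay_sub_bel (by rw [hS]; linarith))).trans ?_
    exact mul_le_mul' le_rfl p1
  refine s1.trans ?_
  rw [← hM]
  refine s2.trans ?_
  refine (mul_le_mul' le_rfl ((sm_union_le _ _ _).trans (add_le_add p2 p1))).trans ?_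
  have hE0 : 0 ≤ A * Real.exp (-c * u) := mul_nonneg hA (Real.exp_pos _).le
  rw [← ENNReal.ofReal_mul hK0, ← ENNReal.ofReal_mul hK0, ← ENNReal.ofReal_add
    (mul_nonneg hK0 (mul_nonneg hK0 hE0)) (mul_nonneg hK0 hE0),
    ← ENNReal.ofReal_mul (Real.exp_pos _).le]
  refine ENNReal.ofReal_le_ofReal ?_
  have e4 : Real.exp ((1 - c) * u) = Real.exp u * Real.exp (-c * u) := by
    rw [← Real.exp_add]
    congr 1
    ring
  rw [e4, Real.exp_add]
  have hpos : 0 ≤ Real.exp u * Real.exp τ * (A * Real.exp (-c * u)) :=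
    mul_nonneg (mul_nonneg (Real.exp_pos _).le (Real.exp_pos _).le) hE0
  have hkk : K₁ * K₁ + K₁ ≤ 2 * K₁ ^ 2 := by nlinarith
  calc Real.exp u * Real.exp τ * (K₁ * (K₁ * (A * Real.exp (-c * u))) +
        K₁ * (A * Real.exp (-c * u)))
      = (K₁ * K₁ + K₁) * (Real.exp u * Real.exp τ * (A * Real.exp (-c * u))) := by ring
    _ ≤ (2 * K₁ ^ 2) * (Real.exp u * Real.exp τ * (A * Real.exp (-c * u))) :=
        mul_le_mul_of_nonneg_right hkk hpos
    _ = 2 * K₁ ^ 2 * Real.exp τ * A * (Real.exp u * Real.exp (-c * u)) := by ring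

end NU

end MP8622
end

section
set_option autoImplicit false

open Classical Filter Topology

/-!
# EMP: Ellis-Monroe positivity
-/

namespace MP8622

namespace NU

namespace EMPM

variable {V : Type}

/-- the configurations of four copies -/
noncomputable def om (Λ : Finset V) : Finset (Fin 4 → Finset V) :=
  Fintype.piFinset (fun _ : Fin 4 => Λ.powerset)

/-- factorisation over the vertices -/
theorem fac (Λ : Finset V) (φ : V → (Fin 4 → Bool) → ℝ) :
    ∑ S ∈ om Λ, ∏ v ∈ Λ, φ v (fun i => decide (v ∈ S i)) =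
      ∏ v ∈ Λ, ∑ b : Fin 4 → Bool, φ v b := by
  rw [← Finset.prod_coe_sort Λ (fun v => ∑ b, φ v b)]
  have h1 := Finset.prod_univ_sum (fun _ : Λ => (Finset.univ : Finset (Fin 4 → Bool)))
    (fun v b => φ v.1 b)
  rw [h1, Fintype.piFinset_univ]
  refine Finset.sum_bij' (fun S _ => fun v i => decide (v.1 ∈ S i))
    (fun p _ => fun i => Λ.filter (fun v => ∃ h : v ∈ Λ, p ⟨v, h⟩ i = true)) ?_ ?_ ?_ ?_ ?_
  · intro S _
    exact Finset.mem_univ _
  · intro p _
    rw [om, Fintype.mem_piFinset]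
    intro i
    rw [Finset.mem_powerset]
    exact Finset.filter_subset _ _
  · intro S hS
    rw [om, Fintype.mem_piFinset] at hS
    funext i
    ext v
    rw [Finset.mem_filter]
    constructor
    · rintro ⟨_, h, h2⟩
      simpa using h2
    · intro h
      have h3 := Finset.mem_powerset.mp (hS i) h
      exact ⟨h3, h3, by simpa using h⟩
  · intro p _
    funext v i
    have : (v.1 ∈ Λ.filter (fun v => ∃ h : v ∈ Λ, p ⟨v, h⟩ i = true)) ↔ p v i = true := by
      rw [Finset.mem_filter]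
      constructor
      · rintro ⟨_, h, h2⟩
        exact h2
      · intro h
        exact ⟨v.2, v.2, h⟩
    by_cases hp : p v i = true
    · rw [hp]
      exact decide_eq_true (this.mpr hp)
    · have hp2 : p v i = false := by simpa using hp
      rw [hp2]
      exact decide_eq_false (fun h => hp (this.mp h))
  · intro S _
    rw [← Finset.prod_coe_sort Λ (fun v => φ v (fun i => decide (v ∈ S i)))]

/-- four booleans -/
def eq4 : (Fin 4 → Bool) ≃ Bool × Bool × Bool × Bool where
  toFun f := (f 0, f 1, f 2, f 3)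
  invFun p := ![p.1, p.2.1, p.2.2.1, p.2.2.2]
  left_inv := by
    intro f
    funext i
    fin_cases i <;> rfl
  right_inv := by
    intro p
    rfl

/-- one spin -/
def sp (b : Bool) : ℝ := if b then -1 else 1

theorem pow_pm {x : ℝ} (hx : x = 1 ∨ x = -1) (n : ℕ) : x ^ n = 1 ∨ x ^ n = -1 := by
  rcases hx with h | h
  · left; rw [h, one_pow]
  · rw [h]
    exact neg_one_pow_eq_or ℝ n

theorem sg0 (x : Fin 4 → ℝ) : ∑ i, sg 0 i * x i = x 0 + x 1 + x 2 + x 3 := by
  simp [sg, Fin.sum_univ_four]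

theorem sg1 (x : Fin 4 → ℝ) : ∑ i, sg 1 i * x i = x 0 + x 1 - x 2 - x 3 := by
  simp [sg, Fin.sum_univ_four]
  ring

theorem sg2 (x : Fin 4 → ℝ) : ∑ i, sg 2 i * x i = x 0 - x 1 + x 2 - x 3 := by
  simp [sg, Fin.sum_univ_four]
  ring

theorem sg3 (x : Fin 4 → ℝ) : ∑ i, sg 3 i * x i = -x 0 + x 1 + x 2 - x 3 := by
  simp [sg, Fin.sum_univ_four]
  ring

theorem be0 (S : Fin 4 → Finset V) (v : V) :
    be S 0 v = (chi {v} (S 0) + chi {v} (S 1) + chi {v} (S 2) + chi {v} (S 3)) / 2 := by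
  rw [be, sg0]

theorem be1 (S : Fin 4 → Finset V) (v : V) :
    be S 1 v = (chi {v} (S 0) + chi {v} (S 1) - chi {v} (S 2) - chi {v} (S 3)) / 2 := by
  rw [be, sg1]

theorem be2 (S : Fin 4 → Finset V) (v : V) :
    be S 2 v = (chi {v} (S 0) - chi {v} (S 1) + chi {v} (S 2) - chi {v} (S 3)) / 2 := by
  rw [be, sg2]

theorem be3 (S : Fin 4 → Finset V) (v : V) :
    be S 3 v = (-chi {v} (S 0) + chi {v} (S 1) + chi {v} (S 2) - chi {v} (S 3)) / 2 := by
  rw [be, sg3]

theorem e0 (a b c d : Bool) : eq4.symm (a, b, c, d) 0 = a := rfl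
theorem e1 (a b c d : Bool) : eq4.symm (a, b, c, d) 1 = b := rfl
theorem e2 (a b c d : Bool) : eq4.symm (a, b, c, d) 2 = c := rfl
theorem e3 (a b c d : Bool) : eq4.symm (a, b, c, d) 3 = d := rfl
theorem st : sp true = -1 := rfl
theorem sf : sp false = 1 := rfl

theorem zp (n : ℕ) : (0 : ℝ) ≤ 0 ^ n := by positivity

theorem two_neg (n : ℕ) : (0 : ℝ) ≤ 2 ^ n + (-2) ^ n := by
  rcases Nat.even_or_odd n with h | h
  · rw [h.neg_pow]; positivity
  · rw [h.neg_pow]; simp

theorem vtx (n : Fin 4 → ℕ) :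
    0 ≤ ∑ b : Fin 4 → Bool, ∏ k, ((∑ i, sg k i * sp (b i)) / 2) ^ n k := by
  rw [← eq4.symm.sum_comp]
  simp only [Fintype.sum_prod_type, Fintype.sum_bool, Fin.prod_univ_four, sg0, sg1, sg2, sg3,
    e0, e1, e2, e3, st, sf]
  norm_num
  have h0 := pow_pm (Or.inr rfl : (-1 : ℝ) = 1 ∨ (-1 : ℝ) = -1) (n 0)
  have h1 := pow_pm (Or.inr rfl : (-1 : ℝ) = 1 ∨ (-1 : ℝ) = -1) (n 1)
  have h2 := pow_pm (Or.inr rfl : (-1 : ℝ) = 1 ∨ (-1 : ℝ) = -1) (n 2)
  have h3 := pow_pm (Or.inr rfl : (-1 : ℝ) = 1 ∨ (-1 : ℝ) = -1) (n 3)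
  have t0 := mul_nonneg (mul_nonneg (mul_nonneg (two_neg (n 0)) (zp (n 1))) (zp (n 2))) (zp (n 3))
  have t1 := mul_nonneg (mul_nonneg (mul_nonneg (two_neg (n 1)) (zp (n 0))) (zp (n 2))) (zp (n 3))
  have t2 := mul_nonneg (mul_nonneg (mul_nonneg (two_neg (n 2)) (zp (n 0))) (zp (n 1))) (zp (n 3))
  have t3 := mul_nonneg (mul_nonneg (mul_nonneg (two_neg (n 3)) (zp (n 0))) (zp (n 1))) (zp (n 2))
  have key : ∀ a b c d : ℝ, (a = 1 ∨ a = -1) → (b = 1 ∨ b = -1) → (c = 1 ∨ c = -1) →
      (d = 1 ∨ d = -1) → 0 ≤ 1 + a * b + a * c + a * d + b * c + b * d + c * d + a * b * c * d := by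
    rintro a b c d (rfl | rfl) (rfl | rfl) (rfl | rfl) (rfl | rfl) <;> norm_num
  have k0 := key _ _ _ _ h0 h1 h2 h3
  nlinarith [t0, t1, t2, t3, k0]

/-- monomials in the `be` -/
noncomputable def mon (Λ : Finset V) (N : V → Fin 4 → ℕ) (S : Fin 4 → Finset V) : ℝ :=
  ∏ v ∈ Λ, ∏ k, be S k v ^ N v k

/-- all moments are nonnegative -/
def Good (Λ : Finset V) (F : (Fin 4 → Finset V) → ℝ) : Prop :=
  ∀ N : V → Fin 4 → ℕ, 0 ≤ ∑ S ∈ om Λ, mon Λ N S * F S

theorem sp_chi (v : V) (S : Finset V) : chi {v} S = sp (decide (v ∈ S)) := by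
  rw [SlM.chi_single]
  by_cases h : v ∈ S <;> simp [sp, h]

theorem good_one (Λ : Finset V) : Good Λ (fun _ => 1) := by
  intro N
  have h1 := fac Λ (fun v b => ∏ k, ((∑ i, sg k i * sp (b i)) / 2) ^ N v k)
  have h2 : ∑ S ∈ om Λ, mon Λ N S * 1 =
      ∏ v ∈ Λ, ∑ b : Fin 4 → Bool, ∏ k, ((∑ i, sg k i * sp (b i)) / 2) ^ N v k := by
    rw [← h1]
    refine Finset.sum_congr rfl fun S _ => ?_
    rw [mul_one, mon]
    refine Finset.prod_congr rfl fun v _ => Finset.prod_congr rfl fun k _ => ?_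
    rw [be]
    simp only [sp_chi]
  rw [h2]
  exact Finset.prod_nonneg fun v _ => vtx (N v)

theorem mon_succ {Λ : Finset V} (N : V → Fin 4 → ℕ) {v : V} (hv : v ∈ Λ) (k : Fin 4)
    (S : Fin 4 → Finset V) :
    mon Λ (fun v' k' => N v' k' + if v' = v ∧ k' = k then 1 else 0) S =
      mon Λ N S * be S k v := by
  have h : ∏ v' ∈ Λ, ∏ k', be S k' v' ^ (if v' = v ∧ k' = k then 1 else 0) = be S k v := by
    rw [Finset.prod_eq_single v]
    · rw [Finset.prod_eq_single k]
      · simp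
      · intro k' _ hk'
        simp [hk']
      · intro h; exact absurd (Finset.mem_univ _) h
    · intro v' _ hv'
      refine Finset.prod_eq_one fun k' _ => ?_
      simp [hv']
    · intro h; exact absurd hv h
  rw [mon, mon, ← h, ← Finset.prod_mul_distrib]
  refine Finset.prod_congr rfl fun v' _ => ?_
  rw [← Finset.prod_mul_distrib]
  refine Finset.prod_congr rfl fun k' _ => ?_
  rw [pow_add]

theorem good_be {Λ : Finset V} {F : (Fin 4 → Finset V) → ℝ} (hF : Good Λ F) {v : V} (hv : v ∈ Λ)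
    (k : Fin 4) : Good Λ (fun S => F S * be S k v) := by
  intro N
  have h1 := hF (fun v' k' => N v' k' + if v' = v ∧ k' = k then 1 else 0)
  have h2 : ∑ S ∈ om Λ, mon Λ N S * (F S * be S k v) =
      ∑ S ∈ om Λ, mon Λ (fun v' k' => N v' k' + if v' = v ∧ k' = k then 1 else 0) S * F S := by
    refine Finset.sum_congr rfl fun S _ => ?_
    rw [mon_succ N hv k S]
    ring
  rw [h2]
  exact h1

theorem exp_hasSum (x : ℝ) : HasSum (fun n : ℕ => x ^ n / n.factorial) (Real.exp x) := by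
  rw [Real.exp_eq_exp_ℝ]
  exact NormedSpace.expSeries_div_hasSum_exp x

theorem good_pow {Λ : Finset V} {X : (Fin 4 → Finset V) → ℝ}
    (hX : ∀ F, Good Λ F → Good Λ (fun S => F S * X S)) (n : ℕ) :
    ∀ F, Good Λ F → Good Λ (fun S => F S * X S ^ n) := by
  induction n with
  | zero => intro F hF; simpa using hF
  | succ n ih =>
    intro F hF
    have h1 := hX _ (ih F hF)
    have h2 : (fun S => F S * X S ^ (n + 1)) = fun S => F S * X S ^ n * X S := by
      funext S
      rw [pow_succ]; ring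
    rw [h2]
    exact h1

theorem good_exp {Λ : Finset V} {X : (Fin 4 → Finset V) → ℝ}
    (hX : ∀ F, Good Λ F → Good Λ (fun S => F S * X S)) {c : ℝ} (hc : 0 ≤ c)
    {F : (Fin 4 → Finset V) → ℝ} (hF : Good Λ F) :
    Good Λ (fun S => F S * Real.exp (c * X S)) := by
  intro N
  have h1 : HasSum (fun n : ℕ => ∑ S ∈ om Λ, mon Λ N S * F S * ((c * X S) ^ n / n.factorial))
      (∑ S ∈ om Λ, mon Λ N S * F S * Real.exp (c * X S)) :=
    hasSum_sum fun S _ => (exp_hasSum (c * X S)).mul_left _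
  have h2 : ∑ S ∈ om Λ, mon Λ N S * (F S * Real.exp (c * X S)) =
      ∑ S ∈ om Λ, mon Λ N S * F S * Real.exp (c * X S) :=
    Finset.sum_congr rfl fun S _ => by ring
  rw [h2]
  refine h1.nonneg fun n => ?_
  have h3 := good_pow hX n F hF N
  have h4 : ∑ S ∈ om Λ, mon Λ N S * F S * ((c * X S) ^ n / n.factorial) =
      (c ^ n / n.factorial) * ∑ S ∈ om Λ, mon Λ N S * (F S * X S ^ n) := by
    rw [Finset.mul_sum]
    refine Finset.sum_congr rfl fun S _ => ?_
    rw [mul_pow]
    ring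
  rw [h4]
  exact mul_nonneg (by positivity) h3

theorem good_const {Λ : Finset V} {c : ℝ} (hc : 0 ≤ c)
    {F : (Fin 4 → Finset V) → ℝ} (hF : Good Λ F) : Good Λ (fun S => F S * c) := by
  intro N
  have h4 : ∑ S ∈ om Λ, mon Λ N S * (F S * c) = c * ∑ S ∈ om Λ, mon Λ N S * F S := by
    rw [Finset.mul_sum]
    refine Finset.sum_congr rfl fun S _ => ?_
    ring
  rw [h4]
  exact mul_nonneg hc (hF N)

theorem chi_pm (v : V) (S : Finset V) : chi {v} S = 1 ∨ chi {v} S = -1 := by
  rw [SlM.chi_single]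
  by_cases h : v ∈ S <;> simp [h]

theorem one_edge {p : ℝ} (h1 : p < 1) (v w : V) (S : Finset V) :
    (if Mono S s(v, w) then 1 else 1 - p) =
      Real.exp ((-Real.log (1 - p) / 2) * (chi {v} S * chi {w} S - 1)) := by
  have hp : 0 < 1 - p := by linarith
  rw [SlM.chi_single, SlM.chi_single]
  have hm := SlM.mono_mk S v w
  by_cases hv : v ∈ S <;> by_cases hw : w ∈ S
  · rw [if_pos (hm.mpr (by simp [hv, hw])), if_pos hv, if_pos hw]
    simp
  · rw [if_neg (fun h => by have := hm.mp h; simp [hv, hw] at this), if_pos hv, if_neg hw]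
    have : (-Real.log (1 - p) / 2) * (-1 * 1 - 1) = Real.log (1 - p) := by ring
    rw [this, Real.exp_log hp]
  · rw [if_neg (fun h => by have := hm.mp h; simp [hv, hw] at this), if_neg hv, if_pos hw]
    have : (-Real.log (1 - p) / 2) * (1 * -1 - 1) = Real.log (1 - p) := by ring
    rw [this, Real.exp_log hp]
  · rw [if_pos (hm.mpr (by simp [hv, hw])), if_neg hv, if_neg hw]
    simp

theorem four_edge {p : ℝ} (h1 : p < 1) (v w : V) (S : Fin 4 → Finset V) :
    ∏ i, (if Mono (S i) s(v, w) then 1 else 1 - p) =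
      Real.exp (-(4 * (-Real.log (1 - p) / 2))) *
      Real.exp ((-Real.log (1 - p) / 2) * (be S 0 v * be S 0 w)) *
      Real.exp ((-Real.log (1 - p) / 2) * (be S 1 v * be S 1 w)) *
      Real.exp ((-Real.log (1 - p) / 2) * (be S 2 v * be S 2 w)) *
      Real.exp ((-Real.log (1 - p) / 2) * (be S 3 v * be S 3 w)) := by
  rw [Finset.prod_congr rfl (fun i _ => one_edge h1 v w (S i)), ← Real.exp_sum,
    ← Real.exp_add, ← Real.exp_add, ← Real.exp_add, ← Real.exp_add]
  congr 1
  simp only [be0, be1, be2, be3, Fin.sum_univ_four]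
  ring

theorem good_edge {Λ : Finset V} {P : Sym2 V → ℝ} (h0 : ∀ e, 0 ≤ P e) (h1 : ∀ e, P e < 1)
    (e : Sym2 V) (he : ∀ z ∈ e, z ∈ Λ) {F : (Fin 4 → Finset V) → ℝ} (hF : Good Λ F) :
    Good Λ (fun S => F S * ∏ i, (if Mono (S i) e then 1 else 1 - P e)) := by
  induction e using Sym2.ind with
  | _ v w =>
    have hv : v ∈ Λ := he v (Sym2.mem_mk_left v w)
    have hw : w ∈ Λ := he w (Sym2.mem_mk_right v w)
    set J : ℝ := -Real.log (1 - P s(v, w)) / 2 with hJ
    have hJ0 : 0 ≤ J := by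
      have := Real.log_nonpos (by linarith [h1 s(v, w)] : 0 ≤ 1 - P s(v, w))
        (by linarith [h0 s(v, w)])
      rw [hJ]; linarith
    have hb : ∀ k : Fin 4, ∀ F, Good Λ F → Good Λ (fun S => F S * (be S k v * be S k w)) := by
      intro k F hF
      have h2 := good_be (good_be hF hv k) hw k
      have h3 : (fun S => F S * (be S k v * be S k w)) = fun S => F S * be S k v * be S k w := by
        funext S; ring
      rw [h3]
      exact h2
    have h5 := good_exp (hb 3) hJ0 (good_exp (hb 2) hJ0 (good_exp (hb 1) hJ0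
      (good_exp (hb 0) hJ0 (good_const (Real.exp_pos (-(4 * J))).le hF))))
    have h6 : (fun S : Fin 4 → Finset V => F S * ∏ i, (if Mono (S i) s(v, w) then 1 else
        1 - P s(v, w))) = fun S => F S * Real.exp (-(4 * J)) *
          Real.exp (J * (be S 0 v * be S 0 w)) * Real.exp (J * (be S 1 v * be S 1 w)) *
          Real.exp (J * (be S 2 v * be S 2 w)) * Real.exp (J * (be S 3 v * be S 3 w)) := by
      funext S
      rw [four_edge (h1 s(v, w)) v w S]
      ring
    rw [h6]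
    exact h5

theorem good_sw {Λ : Finset V} {P : Sym2 V → ℝ} (h0 : ∀ e, 0 ≤ P e) (h1 : ∀ e, P e < 1)
    (E : Finset (Sym2 V)) (hE : ∀ e ∈ E, ∀ z ∈ e, z ∈ Λ) :
    Good Λ (fun S => ∏ i, sw P E (S i)) := by
  induction E using Finset.induction_on with
  | empty => simpa [sw] using good_one Λ
  | insert e E he ih =>
    have h2 := good_edge h0 h1 e (hE e (Finset.mem_insert_self _ _))
      (ih fun e' he' => hE e' (Finset.mem_insert_of_mem he'))
    have h3 : (fun S : Fin 4 → Finset V => ∏ i, sw P (insert e E) (S i)) =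
        fun S => (∏ i, sw P E (S i)) * ∏ i, (if Mono (S i) e then 1 else 1 - P e) := by
      funext S
      rw [← Finset.prod_mul_distrib]
      refine Finset.prod_congr rfl fun i _ => ?_
      rw [sw, Finset.prod_insert he, sw, mul_comm]
    rw [h3]
    exact h2

theorem good_fields {Λ : Finset V} {a : Fin 4 → V → ℝ} (ha : ∀ k v, 0 ≤ a k v)
    {F : (Fin 4 → Finset V) → ℝ} (hF : Good Λ F) (T : Finset V) (hT : T ⊆ Λ) :
    Good Λ (fun S => F S * Real.exp (∑ v ∈ T, ∑ k, a k v * be S k v)) := by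
  induction T using Finset.induction_on with
  | empty => simpa using hF
  | insert v T hv ih =>
    have hvΛ : v ∈ Λ := hT (Finset.mem_insert_self _ _)
    have hb : ∀ k : Fin 4, ∀ F, Good Λ F → Good Λ (fun S => F S * be S k v) :=
      fun k F hF => good_be hF hvΛ k
    have h5 := good_exp (hb 3) (ha 3 v) (good_exp (hb 2) (ha 2 v) (good_exp (hb 1) (ha 1 v)
      (good_exp (hb 0) (ha 0 v) (ih fun x hx => hT (Finset.mem_insert_of_mem hx)))))
    have h6 : (fun S : Fin 4 → Finset V => F S *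
        Real.exp (∑ v ∈ insert v T, ∑ k, a k v * be S k v)) = fun S =>
          F S * Real.exp (∑ v ∈ T, ∑ k, a k v * be S k v) *
          Real.exp (a 0 v * be S 0 v) * Real.exp (a 1 v * be S 1 v) *
          Real.exp (a 2 v * be S 2 v) * Real.exp (a 3 v * be S 3 v) := by
      funext S
      rw [Finset.sum_insert hv, Real.exp_add, Fin.sum_univ_four, Real.exp_add, Real.exp_add,
        Real.exp_add]
      ring
    rw [h6]
    exact h5

end EMPM

open EMPM in
theorem specEMP : SpecEMP := by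
  intro V P E Λ a N h0 h1 hE ha
  have h := good_fields ha (good_sw h0 h1 E hE) Λ subset_rfl N
  have h2 : ∑ S ∈ Fintype.piFinset (fun _ : Fin 4 => Λ.powerset),
      (∏ v ∈ Λ, ∏ k, be S k v ^ N v k) * (∏ i, sw P E (S i)) *
        Real.exp (∑ v ∈ Λ, ∑ k, a k v * be S k v) =
      ∑ S ∈ om Λ, mon Λ N S * ((∏ i, sw P E (S i)) *
        Real.exp (∑ v ∈ Λ, ∑ k, a k v * be S k v)) := by
    refine Finset.sum_congr rfl fun S _ => ?_
    rw [mon]
    ring
  rw [h2]
  exact h

end NU

end MP8622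
end

section
set_option autoImplicit false

open Classical Filter Topology

/-!
# Module EXP: lower bound for the truncated two point function
-/

namespace MP8622

namespace NU

namespace EXPM

variable {V : Type}

/-- a spin outside the free set is plus -/
theorem corr_out {P : Sym2 V → ℝ} {E : Finset (Sym2 V)} {Λ : Finset V} (A : Finset V) {s : V}
    (hs : s ∉ Λ) : corr P E Λ (symmDiff A {s}) = corr P E Λ A := by
  unfold corr
  congr 1
  refine Finset.sum_congr rfl fun S hS => ?_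
  rw [Finset.mem_powerset] at hS
  rw [chi_symmDiff_left, SlM.chi_single, if_neg (fun h => hs (hS h)), mul_one]

theorem corr_one_out {P : Sym2 V → ℝ} (h1 : ∀ e, P e ≤ 1) {E : Finset (Sym2 V)} {Λ : Finset V}
    {s : V} (hs : s ∉ Λ) : corr P E Λ {s} = 1 := by
  have h := corr_out (P := P) (E := E) ∅ hs
  rw [← Finset.bot_eq_empty, bot_symmDiff, Finset.bot_eq_empty, corr_empty h1] at h
  exact h

theorem th_nonneg {p : ℝ} (h0 : 0 ≤ p) (h1 : p ≤ 1) : 0 ≤ th p :=
  div_nonneg h0 (by linarith)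

theorem th_le_one {p : ℝ} (h1 : p ≤ 1) : th p ≤ 1 := by
  unfold th
  rw [div_le_one (by linarith)]
  linarith

/-- the mixture for a boundary edge -/
theorem bmix (hMIX : SpecMIX) (hWIR : SpecWIR) {P : Sym2 V → ℝ} {E : Finset (Sym2 V)}
    {Λ : Finset V} (h0 : ∀ e, 0 ≤ P e) (h1 : ∀ e, P e ≤ 1) {v s : V} (he : s(v, s) ∈ E)
    (hv : v ∈ Λ) (hs : s ∉ Λ) :
    ∃ q : ℝ, 0 ≤ q ∧ q ≤ 1 ∧
      q * (1 + th (P s(v, s)) * corr P (E.erase s(v, s)) Λ {v}) =
        th (P s(v, s)) * (1 + corr P (E.erase s(v, s)) Λ {v}) ∧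
      (∀ A : Finset V, corr P E Λ A = (1 - q) * corr P (E.erase s(v, s)) Λ A +
        q * corr P E (Λ.erase v) A) ∧
      ∀ A : Finset V, corr P E (Λ.erase v) A * (1 + corr P (E.erase s(v, s)) Λ {v}) =
        corr P (E.erase s(v, s)) Λ A + corr P (E.erase s(v, s)) Λ (symmDiff A {v}) := by
  set e := s(v, s) with hedef
  set E' := E.erase e with hE'
  have hne : e ∉ E' := Finset.notMem_erase _ _
  have hins : insert e E' = E := Finset.insert_erase he
  have hc2 : c2 P E' Λ v s = corr P E' Λ {v} := corr_out {v} hs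
  have ht0 := th_nonneg (h0 e) (h1 e)
  have hv0 : 0 ≤ corr P E' Λ {v} := corr_nonneg h0 h1 _
  have hden : 0 < 1 + th (P e) * corr P E' Λ {v} := by
    have := mul_nonneg ht0 hv0
    linarith
  obtain ⟨hq0, hq1, hq⟩ := hMIX V P E Λ v s h0 h1 he _ rfl
  rw [← hedef, ← hE', hc2] at hq0 hq1
  simp only [← hedef, ← hE', hc2] at hq
  have hup1 : ∀ f, upd P e 1 f ≤ 1 := by
    intro f
    unfold upd
    split_ifs
    · exact le_rfl
    · exact h1 f
  have hupe : upd P e 1 e = 1 := by simp [upd]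
  have hout : ∀ x ∈ e, x ∉ Λ.erase v := by
    intro x hx
    rcases Sym2.mem_iff.1 hx with rfl | rfl
    · exact Finset.notMem_erase _ _
    · exact fun h => hs (Finset.mem_of_mem_erase h)
  have hE'P : ∀ f ∈ E', P f = upd P e 1 f := by
    intro f hf
    unfold upd
    rw [if_neg]
    rintro rfl
    exact hne hf
  have hEE : ∀ f ∈ E, f ∉ E' → f = e := by
    intro f hf hf'
    by_contra h
    exact hf' (Finset.mem_erase.2 ⟨h, hf⟩)
  -- the contracted system
  have hplus : ∀ A, corr (upd P e 1) E Λ A = corr P E (Λ.erase v) A := by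
    intro A
    rw [hWIR V (upd P e 1) E Λ A v s he hupe hv hs]
    rw [← corr_congr (P := P) (P' := upd P e 1) (E := E') (E' := E) (Λ := Λ.erase v)
      (Finset.erase_subset _ _) hE'P (fun f hf hf' => Or.inl (hEE f hf hf' ▸ hout)) A]
    exact corr_congr (Finset.erase_subset _ _) (fun _ _ => rfl)
      (fun f hf hf' => Or.inl (hEE f hf hf' ▸ hout)) A
  refine ⟨_, hq0, hq1, ?_, ?_, ?_⟩
  · field_simp
  · intro A
    rw [← hplus A]
    exact (hq A).1
  · intro A
    have h2 := SlM.corr_insert (P := upd P e 1) hup1 (E := E') (x := v) (v := s) hne Λ A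
    have h3 : ∀ B, corr (upd P e 1) E' Λ B = corr P E' Λ B := by
      intro B
      exact (corr_congr (Finset.Subset.refl _) hE'P (fun f hf hf' => absurd hf hf') B).symm
    rw [← hedef, hins, hupe, h3, h3, h3, ← symmDiff_assoc, corr_out _ hs, corr_out _ hs, hplus A]
      at h2
    have h4 : (1 : ℝ) / (2 - 1) = 1 := by norm_num
    rw [h4, one_mul, one_mul] at h2
    rw [h2, div_mul_cancel₀]
    linarith

/-- the boundary edges -/
noncomputable def bd (E : Finset (Sym2 V)) (Λ : Finset V) : Finset (Sym2 V) :=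
  E.filter (fun e => (∃ z ∈ e, z ∈ Λ) ∧ ∃ w ∈ e, w ∉ Λ)

theorem mem_del {E : Finset (Sym2 V)} {z : V} {e : Sym2 V} : e ∈ del E z ↔ e ∈ E ∧ z ∉ e := by
  simp [del]

theorem del_erase (E : Finset (Sym2 V)) (e : Sym2 V) (g : V) :
    del (E.erase e) g = (del E g).erase e := by
  ext f
  simp only [mem_del, Finset.mem_erase]
  exact and_assoc

theorem del_erase_of_mem (E : Finset (Sym2 V)) {e : Sym2 V} {g : V} (h : g ∈ e) :
    del (E.erase e) g = del E g := by
  rw [del_erase]
  exact Finset.erase_eq_of_notMem fun h2 => (mem_del.1 h2).2 h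

theorem ein_erase (E : Finset (Sym2 V)) {e : Sym2 V} {S : Finset V} (h : ∃ z ∈ e, z ∉ S) :
    ein (E.erase e) S = ein E S := by
  ext f
  rw [SlM.mem_ein, SlM.mem_ein, Finset.mem_erase]
  constructor
  · rintro ⟨⟨_, h2⟩, h3⟩
    exact ⟨h2, h3⟩
  · rintro ⟨h2, h3⟩
    refine ⟨⟨?_, h2⟩, h3⟩
    rintro rfl
    obtain ⟨z, hz, hzS⟩ := h
    exact hzS (h3 z hz)

/-- the base case: no boundary edges -/
theorem base {P : Sym2 V → ℝ} (h0 : ∀ e, 0 ≤ P e) (h1 : ∀ e, P e ≤ 1) {E : Finset (Sym2 V)}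
    {Λ : Finset V} {y g : V} (hg : g ∈ Λ) {T : ℝ} {τ : V → ℝ} (hτ : ∀ z, 0 ≤ τ z)
    (hC : ∀ C : Finset V, C ⊆ Λ → T - ∑ z ∈ C, τ z ≤
      if y ∈ C ∨ g ∈ C then 0 else c2 P (ein E (Λ \ C)) (Λ \ C) y g) (hb : bd E Λ = ∅) :
    (1 - corr P E Λ {g}) *
        (T - ∑ z ∈ Λ.erase g, corr P (del E g) (Λ.erase g) {z} * τ z) ≤
      c2 P E Λ y g - corr P E Λ {y} * corr P E Λ {g} := by
  have hE : ∀ A, corr P E Λ A = corr P (ein E Λ) Λ A := by
    intro A
    symm
    refine corr_congr (SlM.ein_subset E Λ) (fun _ _ => rfl) (fun e he hne => Or.inl ?_) A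
    intro x hx hxΛ
    have h2 : ∃ w ∈ e, w ∉ Λ := by
      by_contra h3
      push Not at h3
      exact hne (SlM.mem_ein.2 ⟨he, h3⟩)
    have h3 : e ∈ bd E Λ := Finset.mem_filter.2 ⟨he, ⟨x, hx, hxΛ⟩, h2⟩
    rw [hb] at h3
    exact absurd h3 (Finset.notMem_empty _)
  have hg0 : corr P E Λ {g} = 0 := by
    rw [hE]
    exact corr_single_zero (fun e he => (SlM.mem_ein.1 he).2) hg
  have h2 := hC ∅ (Finset.empty_subset _)
  rw [Finset.sum_empty, if_neg (by simp), Finset.sdiff_empty] at h2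
  have h3 : c2 P (ein E Λ) Λ y g = c2 P E Λ y g := (hE _).symm
  have h4 : 0 ≤ ∑ z ∈ Λ.erase g, corr P (del E g) (Λ.erase g) {z} * τ z :=
    Finset.sum_nonneg fun z _ => mul_nonneg (corr_nonneg h0 h1 _) (hτ z)
  rw [hg0]
  linarith

theorem main (hMIX : SpecMIX) (hWIR : SpecWIR) (hFKM : SpecFKM) {P : Sym2 V → ℝ}
    (h0 : ∀ e, 0 ≤ P e) (h1 : ∀ e, P e ≤ 1) {y g : V} (hyg : y ≠ g) {τ : V → ℝ}
    (hτ : ∀ z, 0 ≤ τ z) : ∀ n m : ℕ, ∀ (E : Finset (Sym2 V)) (Λ : Finset V) (T : ℝ),
    Λ.card = n → (bd E Λ).card = m → (∀ e ∈ E, ¬ e.IsDiag) → y ∈ Λ → g ∈ Λ →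
    (∀ C : Finset V, C ⊆ Λ → T - ∑ z ∈ C, τ z ≤
      if y ∈ C ∨ g ∈ C then 0 else c2 P (ein E (Λ \ C)) (Λ \ C) y g) →
    (1 - corr P E Λ {g}) *
        (T - ∑ z ∈ Λ.erase g, corr P (del E g) (Λ.erase g) {z} * τ z) ≤
      c2 P E Λ y g - corr P E Λ {y} * corr P E Λ {g} := by
  intro n
  induction n using Nat.strong_induction_on with
  | _ n ihn =>
  intro m
  induction m using Nat.strong_induction_on with
  | _ m ihm =>
  intro E Λ T hn hm hdiag hy hg hC
  by_cases hb : bd E Λ = ∅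
  · exact base h0 h1 hg hτ hC hb
  obtain ⟨e, heb⟩ := Finset.nonempty_iff_ne_empty.2 hb
  obtain ⟨heE, ⟨v, hve, hv⟩, ⟨s, hse, hs⟩⟩ := Finset.mem_filter.1 heb
  have hvs : v ≠ s := by
    rintro rfl
    exact hs hv
  obtain rfl : e = s(v, s) := (Sym2.mem_and_mem_iff hvs).1 ⟨hve, hse⟩
  set E' := E.erase s(v, s) with hE'
  have hsubE : E' ⊆ E := Finset.erase_subset _ _
  have hbd : bd E' Λ = (bd E Λ).erase s(v, s) := by
    ext f
    simp only [bd, hE', Finset.mem_filter, Finset.mem_erase]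
    exact and_assoc
  have hlt : (bd E' Λ).card < m := by
    rw [hbd, ← hm]
    exact Finset.card_erase_lt_of_mem heb
  obtain ⟨q, hq0, hq1, hq, hmix, hpl⟩ := bmix hMIX hWIR h0 h1 heE hv hs
  rw [← hE'] at hq
  simp only [← hE'] at hmix hpl
  set t := th (P s(v, s)) with ht
  have ht0 : 0 ≤ t := th_nonneg (h0 _) (h1 _)
  have ht1 : t ≤ 1 := th_le_one (h1 _)
  -- monotonicity between the two systems
  have hmono : ∀ A, corr P E' Λ A ≤ corr P E (Λ.erase v) A := by
    intro A
    refine (SlM.corr_mono_edges h0 h1 hsubE Λ A).trans ?_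
    exact corr_mono h0 (fun _ => le_rfl) h1 (Finset.erase_subset _ _) A
  -- induction hypothesis, system 0
  have IH0 := ihm _ hlt E' Λ T hn rfl (fun e he => hdiag e (hsubE he)) hy hg (by
    intro C hCΛ
    rw [hE', ein_erase E ⟨s, hse, fun h => hs (Finset.mem_sdiff.1 h).1⟩]
    exact hC C hCΛ)
  -- the algebra
  have key : ∀ Sp : ℝ,
      (1 - corr P E (Λ.erase v) {g}) * (T - Sp) ≤ c2 P E (Λ.erase v) y g -
        corr P E (Λ.erase v) {y} * corr P E (Λ.erase v) {g} →
      (1 - q) * (1 - corr P E' Λ {g}) *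
        (∑ z ∈ Λ.erase g, corr P (del E' g) (Λ.erase g) {z} * τ z) +
        q * (1 - corr P E (Λ.erase v) {g}) * Sp ≤
      (1 - corr P E Λ {g}) * ∑ z ∈ Λ.erase g, corr P (del E g) (Λ.erase g) {z} * τ z →
      (1 - corr P E Λ {g}) *
        (T - ∑ z ∈ Λ.erase g, corr P (del E g) (Λ.erase g) {z} * τ z) ≤
      c2 P E Λ y g - corr P E Λ {y} * corr P E Λ {g} := by
    intro Sp hp hS
    have e1 : c2 P E Λ y g = (1 - q) * c2 P E' Λ y g + q * c2 P E (Λ.erase v) y g := hmix _
    have e2 := hmix {y}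
    have e3 := hmix {g}
    have m1 := hmono {y}
    have m2 := hmono {g}
    have e4 : 1 - corr P E Λ {g} =
        (1 - q) * (1 - corr P E' Λ {g}) + q * (1 - corr P E (Λ.erase v) {g}) := by
      rw [e3]; ring
    have e5 : c2 P E Λ y g - corr P E Λ {y} * corr P E Λ {g} =
        (1 - q) * (c2 P E' Λ y g - corr P E' Λ {y} * corr P E' Λ {g}) +
        q * (c2 P E (Λ.erase v) y g - corr P E (Λ.erase v) {y} * corr P E (Λ.erase v) {g}) +
        q * (1 - q) * ((corr P E (Λ.erase v) {y} - corr P E' Λ {y}) *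
          (corr P E (Λ.erase v) {g} - corr P E' Λ {g})) := by
      rw [e1, e2, e3]; ring
    have h3 : 0 ≤ q * (1 - q) * ((corr P E (Λ.erase v) {y} - corr P E' Λ {y}) *
          (corr P E (Λ.erase v) {g} - corr P E' Λ {g})) :=
      mul_nonneg (mul_nonneg hq0 (by linarith)) (mul_nonneg (by linarith) (by linarith))
    have h4 := mul_le_mul_of_nonneg_left IH0 (show 0 ≤ 1 - q by linarith)
    have h5 := mul_le_mul_of_nonneg_left hp hq0
    rw [e5]
    have e6 : (1 - corr P E Λ {g}) *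
        (T - ∑ z ∈ Λ.erase g, corr P (del E g) (Λ.erase g) {z} * τ z) =
        (1 - q) * (1 - corr P E' Λ {g}) * T + q * (1 - corr P E (Λ.erase v) {g}) * T -
        (1 - corr P E Λ {g}) * ∑ z ∈ Λ.erase g, corr P (del E g) (Λ.erase g) {z} * τ z := by
      rw [mul_sub, e4]; ring
    rw [e6]
    linarith
  by_cases hvg : v = g
  · -- the inner end of the edge is g
    subst hvg
    have hgp : corr P E (Λ.erase v) {v} = 1 := corr_one_out h1 (Finset.notMem_erase _ _)
    have hcp : c2 P E (Λ.erase v) y v = corr P E (Λ.erase v) {y} :=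
      corr_out {y} (Finset.notMem_erase _ _)
    refine key (∑ z ∈ Λ.erase v, corr P (del E v) (Λ.erase v) {z} * τ z) ?_ ?_
    · rw [hgp, hcp]
      linarith
    · have e3 := hmix {v}
      rw [hE', del_erase_of_mem E hve, ← hE', hgp] at *
      have e4 : 1 - corr P E Λ {v} = (1 - q) * (1 - corr P E' Λ {v}) := by
        rw [e3]; ring
      rw [e4]
      linarith
  -- the mixture for the magnetisations without g
  have hge : g ∉ s(v, s) := by
    intro h
    rcases Sym2.mem_iff.1 h with h | h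
    · exact hvg h.symm
    · exact hs (h ▸ hg)
  have heD : s(v, s) ∈ del E g := mem_del.2 ⟨heE, hge⟩
  have hvD : v ∈ Λ.erase g := Finset.mem_erase.2 ⟨hvg, hv⟩
  have hsD : s ∉ Λ.erase g := fun h => hs (Finset.mem_of_mem_erase h)
  obtain ⟨ρ, hρ0, hρ1, hρ, hmixD, -⟩ := bmix hMIX hWIR h0 h1 heD hvD hsD
  rw [← del_erase, ← hE', ← ht] at hρ
  simp only [← del_erase, ← hE'] at hmixD
  set w := corr P (del E' g) (Λ.erase g) {v} with hw
  have hw0 : 0 ≤ w := corr_nonneg h0 h1 _
  have hv0 : 0 ≤ corr P E' Λ {v} := corr_nonneg h0 h1 _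
  have hfk := hFKM V P E' Λ v g h0 h1 (fun e he => hdiag e (hsubE he)) hv hg hvg
  have hc2 : c2 P E' Λ v g = corr P E' Λ (symmDiff {g} {v}) := by
    unfold c2
    rw [symmDiff_comm]
  rw [hc2, ← hw] at hfk
  have hb : q * (1 - corr P E (Λ.erase v) {g}) ≤ ρ * (1 - corr P E Λ {g}) := by
    have hK : 0 < (1 + t * corr P E' Λ {v}) * (1 + t * w) :=
      mul_pos (by have := mul_nonneg ht0 hv0; linarith) (by have := mul_nonneg ht0 hw0; linarith)
    have e1 := hpl {g}
    have e2 := hmix {g}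
    have e3 : (1 - corr P E Λ {g}) * (1 + t * corr P E' Λ {v}) =
        (1 - corr P E' Λ {g}) + t * (corr P E' Λ {v} - corr P E' Λ (symmDiff {g} {v})) := by
      rw [e2]
      linear_combination (corr P E' Λ {g} - corr P E (Λ.erase v) {g}) * hq - t * e1
    have e4 : q * (1 - corr P E (Λ.erase v) {g}) * (1 + t * corr P E' Λ {v}) =
        t * ((1 - corr P E' Λ {g}) + (corr P E' Λ {v} - corr P E' Λ (symmDiff {g} {v}))) := by
      linear_combination (1 - corr P E (Λ.erase v) {g}) * hq - t * e1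
    refine le_of_mul_le_mul_right ?_ hK
    have e5 : q * (1 - corr P E (Λ.erase v) {g}) * ((1 + t * corr P E' Λ {v}) * (1 + t * w)) =
        t * ((1 - corr P E' Λ {g}) + (corr P E' Λ {v} - corr P E' Λ (symmDiff {g} {v}))) *
          (1 + t * w) := by
      rw [← mul_assoc, e4]
    have e6 : ρ * (1 - corr P E Λ {g}) * ((1 + t * corr P E' Λ {v}) * (1 + t * w)) =
        t * (1 + w) * ((1 - corr P E' Λ {g}) +
          t * (corr P E' Λ {v} - corr P E' Λ (symmDiff {g} {v}))) := by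
      rw [← hρ, ← e3]; ring
    rw [e5, e6]
    have h5 : 0 ≤ t * (1 - t) * ((1 - corr P E' Λ {g}) * w -
        (corr P E' Λ {v} - corr P E' Λ (symmDiff {g} {v}))) :=
      mul_nonneg (mul_nonneg ht0 (by linarith)) (by linarith)
    nlinarith [h5]
  -- the plus system
  have hSp : (1 - corr P E (Λ.erase v) {g}) *
      (T - ∑ z ∈ Λ.erase g, corr P (del E g) ((Λ.erase g).erase v) {z} * τ z) ≤
      c2 P E (Λ.erase v) y g - corr P E (Λ.erase v) {y} * corr P E (Λ.erase v) {g} := by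
    have hthv : corr P (del E g) ((Λ.erase g).erase v) {v} = 1 :=
      corr_one_out h1 (Finset.notMem_erase _ _)
    have hsum : ∑ z ∈ Λ.erase g, corr P (del E g) ((Λ.erase g).erase v) {z} * τ z =
        τ v + ∑ z ∈ (Λ.erase g).erase v,
          corr P (del E g) ((Λ.erase g).erase v) {z} * τ z := by
      rw [← Finset.add_sum_erase _ _ hvD, hthv, one_mul]
    have hnn : 0 ≤ ∑ z ∈ (Λ.erase g).erase v,
          corr P (del E g) ((Λ.erase g).erase v) {z} * τ z :=
      Finset.sum_nonneg fun z _ => mul_nonneg (corr_nonneg h0 h1 _) (hτ z)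
    by_cases hvy : v = y
    · subst hvy
      have h2 : c2 P E (Λ.erase v) v g = corr P E (Λ.erase v) {g} := by
        unfold c2
        rw [symmDiff_comm]
        exact corr_out {g} (Finset.notMem_erase _ _)
      have h3 : corr P E (Λ.erase v) {v} = 1 := corr_one_out h1 (Finset.notMem_erase _ _)
      have h4 := hC {v} (Finset.singleton_subset_iff.2 hv)
      rw [Finset.sum_singleton, if_pos (Or.inl (Finset.mem_singleton_self v))] at h4
      rw [h2, h3, hsum]
      have h5 : 0 ≤ 1 - corr P E (Λ.erase v) {g} := by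
        have := corr_le_one (P := P) (E := E) (Λ := Λ.erase v) h1 {g}
        linarith
      have h6 := mul_nonneg h5 (show 0 ≤ -(T - (τ v + ∑ z ∈ (Λ.erase g).erase v,
          corr P (del E g) ((Λ.erase g).erase v) {z} * τ z)) by linarith)
      linarith
    · have hcard : (Λ.erase v).card < n := by
        rw [← hn]
        exact Finset.card_erase_lt_of_mem hv
      have IHp := ihn _ hcard _ E (Λ.erase v) (T - τ v) rfl rfl hdiag
        (Finset.mem_erase.2 ⟨fun h => hvy h.symm, hy⟩)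
        (Finset.mem_erase.2 ⟨fun h => hvg h.symm, hg⟩) (by
          intro C hCΛ
          have hvC : v ∉ C := fun h => Finset.notMem_erase v Λ (hCΛ h)
          have h2 := hC (insert v C) (Finset.insert_subset hv
            (hCΛ.trans (Finset.erase_subset _ _)))
          rw [Finset.sum_insert hvC] at h2
          have h3 : Λ \ insert v C = Λ.erase v \ C := by
            rw [Finset.sdiff_insert, Finset.erase_sdiff_comm]
          rw [h3] at h2
          have h4 : (y ∈ insert v C ∨ g ∈ insert v C) ↔ (y ∈ C ∨ g ∈ C) := by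
            rw [Finset.mem_insert, Finset.mem_insert]
            constructor
            · rintro ((h | h) | (h | h))
              · exact absurd h.symm hvy
              · exact Or.inl h
              · exact absurd h.symm hvg
              · exact Or.inr h
            · rintro (h | h)
              · exact Or.inl (Or.inr h)
              · exact Or.inr (Or.inr h)
          rw [if_congr h4 rfl rfl] at h2
          linarith)
      rw [Finset.erase_right_comm] at IHp
      rw [hsum, ← sub_sub]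
      exact IHp
  refine key _ hSp ?_
  -- comparison of the sums
  have ha : 0 ≤ 1 - corr P E Λ {g} := by
    have := corr_le_one (P := P) (E := E) (Λ := Λ) h1 {g}
    linarith
  have e4 : (1 - q) * (1 - corr P E' Λ {g}) =
      (1 - corr P E Λ {g}) - q * (1 - corr P E (Λ.erase v) {g}) := by
    rw [hmix {g}]; ring
  rw [e4, Finset.mul_sum, Finset.mul_sum, Finset.mul_sum, ← Finset.sum_add_distrib]
  refine Finset.sum_le_sum fun z _ => ?_
  have m1 : corr P (del E' g) (Λ.erase g) {z} ≤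
      corr P (del E g) ((Λ.erase g).erase v) {z} := by
    have hsub : del E' g ⊆ del E g := by
      intro f hf
      obtain ⟨h2, h3⟩ := mem_del.1 hf
      exact mem_del.2 ⟨hsubE h2, h3⟩
    refine (SlM.corr_mono_edges h0 h1 hsub _ _).trans ?_
    exact corr_mono h0 (fun _ => le_rfl) h1 (Finset.erase_subset _ _) _
  rw [hmixD {z}]
  have h6 := mul_nonneg (mul_nonneg (sub_nonneg.2 hb) (sub_nonneg.2 m1)) (hτ z)
  nlinarith [h6]

end EXPM

theorem specEXP (hMIX : SpecMIX) (hWIR : SpecWIR) (hFKM : SpecFKM) : SpecEXP := by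
  intro V P E Λ y g T τ h0 h1 hdiag hy hg hyg hτ hC
  exact EXPM.main hMIX hWIR hFKM h0 h1 hyg hτ Λ.card (EXPM.bd E Λ).card E Λ T rfl rfl hdiag hy hg hC

end NU

end MP8622
end

section
set_option autoImplicit false

open Classical Filter Topology

/-!
# FLD: edges to plus spins are fields
-/

namespace MP8622

namespace NU

namespace FLDM

variable {V : Type}

/-- the factor of an edge which is not inside `Λ` -/
theorem edge {p : ℝ} (h1 : p < 1) {Λ S : Finset V} (hS : S ⊆ Λ) (e : Sym2 V)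
    (he : ¬ ∀ z ∈ e, z ∈ Λ) :
    (if Mono S e then 1 else 1 - p) =
      ∏ v ∈ Λ, (if v ∈ e then Real.exp ((-Real.log (1 - p) / 2) * (chi {v} S - 1)) else 1) := by
  induction e using Sym2.ind with
  | _ v w =>
    rw [EMPM.one_edge h1 v w S]
    have hchi : ∀ z, z ∉ Λ → chi {z} S = 1 := by
      intro z hz
      rw [SlM.chi_single, if_neg (fun h => hz (hS h))]
    by_cases hv : v ∈ Λ
    · by_cases hw : w ∈ Λ
      · exact absurd (fun z hz => by
          rcases Sym2.mem_iff.mp hz with h | h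
          · rw [h]; exact hv
          · rw [h]; exact hw) he
      · rw [Finset.prod_eq_single v]
        · rw [if_pos (Sym2.mem_mk_left v w), hchi w hw, mul_one]
        · intro u hu huv
          rw [if_neg]
          intro h
          rcases Sym2.mem_iff.mp h with h | h
          · exact huv h
          · rw [h] at hu; exact hw hu
        · intro h; exact absurd hv h
    · by_cases hw : w ∈ Λ
      · rw [Finset.prod_eq_single w]
        · rw [if_pos (Sym2.mem_mk_right v w), hchi v hv, one_mul]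
        · intro u hu huv
          rw [if_neg]
          intro h
          rcases Sym2.mem_iff.mp h with h | h
          · rw [h] at hu; exact hv hu
          · exact huv h
        · intro h; exact absurd hw h
      · rw [hchi v hv, hchi w hw, Finset.prod_eq_one]
        · simp
        · intro u hu
          rw [if_neg]
          intro h
          rcases Sym2.mem_iff.mp h with h | h
          · rw [h] at hu; exact hv hu
          · rw [h] at hu; exact hw hu

/-- the field -/
noncomputable def fd (P : Sym2 V → ℝ) (E : Finset (Sym2 V)) (Λ : Finset V) (v : V) : ℝ :=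
  ∑ e ∈ E.filter (fun e => v ∈ e ∧ ¬ ∀ z ∈ e, z ∈ Λ), -Real.log (1 - P e) / 2

theorem sw_eq {P : Sym2 V → ℝ} (h1 : ∀ e, P e < 1) (E : Finset (Sym2 V)) {Λ S : Finset V}
    (hS : S ⊆ Λ) :
    sw P E S = (∏ v ∈ Λ, Real.exp (-fd P E Λ v)) * wf P (ein E Λ) Λ (fd P E Λ) S := by
  have h2 : sw P E S = sw P (ein E Λ) S *
      ∏ e ∈ E.filter (fun e => ¬ ∀ z ∈ e, z ∈ Λ), (if Mono S e then 1 else 1 - P e) := by
    rw [sw, sw, ein, Finset.prod_filter_mul_prod_filter_not]
  have h3 : ∏ e ∈ E.filter (fun e => ¬ ∀ z ∈ e, z ∈ Λ), (if Mono S e then 1 else 1 - P e) =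
      ∏ v ∈ Λ, Real.exp (fd P E Λ v * (chi {v} S - 1)) := by
    rw [Finset.prod_congr rfl (fun e he => edge (h1 e) hS e (Finset.mem_filter.mp he).2),
      Finset.prod_comm]
    refine Finset.prod_congr rfl fun v _ => ?_
    rw [← Finset.prod_filter, Finset.filter_filter, fd, Finset.sum_mul, Real.exp_sum]
    refine Finset.prod_congr ?_ fun e _ => rfl
    ext e
    simp only [Finset.mem_filter]
    tauto
  rw [h2, h3, wf, mul_left_comm]
  congr 1
  rw [← Finset.prod_mul_distrib]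
  refine Finset.prod_congr rfl fun v _ => ?_
  rw [← Real.exp_add]
  congr 1
  ring

end FLDM

open FLDM in
theorem specFLD : SpecFLD := by
  intro V P E Λ x h0 h1 hx
  show corr P E Λ {x} = mf P (ein E Λ) Λ (fd P E Λ) x
  have hc : 0 < ∏ v ∈ Λ, Real.exp (-fd P E Λ v) := Finset.prod_pos fun v _ => Real.exp_pos _
  rw [corr, mf]
  have e1 : ∑ S ∈ Λ.powerset, chi {x} S * sw P E S = (∏ v ∈ Λ, Real.exp (-fd P E Λ v)) *
      ∑ S ∈ Λ.powerset, chi {x} S * wf P (ein E Λ) Λ (fd P E Λ) S := by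
    rw [Finset.mul_sum]
    refine Finset.sum_congr rfl fun S hS => ?_
    rw [sw_eq h1 E (Finset.mem_powerset.mp hS)]
    ring
  have e2 : ∑ S ∈ Λ.powerset, sw P E S = (∏ v ∈ Λ, Real.exp (-fd P E Λ v)) *
      ∑ S ∈ Λ.powerset, wf P (ein E Λ) Λ (fd P E Λ) S := by
    rw [Finset.mul_sum]
    refine Finset.sum_congr rfl fun S hS => ?_
    rw [sw_eq h1 E (Finset.mem_powerset.mp hS)]
  rw [e1, e2, mul_div_mul_left _ _ hc.ne']

end NU

end MP8622
end
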