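import Pool.Agent.Lib.MP_8622f1_pr.NU.SpecF
import Pool.Agent.Lib.MP_8622f1_pr.NU.FLD
import Pool.Agent.Lib.MP_8622f1_pr.Mtpc

section
set_option autoImplicit false

open Classical Filter Topology

/-!
MP_8622f1_pr, block NU: FKG with a minus spin.
-/

namespace MP8622

namespace NU

namespace FKMM

variable {V : Type}

/-- weight of the edges at `g` -/
noncomputable def ph (P : Sym2 V → ℝ) (E : Finset (Sym2 V)) (g : V) (S : Finset V) : ℝ :=
  ∏ e ∈ E.filter (fun e => ¬ g ∉ e), if Mono (insert g S) e then (1 : ℝ) else 1 - P e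

theorem sw_split (P : Sym2 V → ℝ) (E : Finset (Sym2 V)) (g : V) (S : Finset V) :
    sw P E (insert g S) = sw P (del E g) S * ph P E g S := by
  unfold sw ph del
  rw [← Finset.prod_filter_mul_prod_filter_not E (fun e => g ∉ e)]
  congr 1
  refine Finset.prod_congr rfl fun e he => ?_
  rw [Finset.mem_filter] at he
  have h3 : ∀ x ∈ e, (x ∈ insert g S ↔ x ∈ S) := by
    intro x hx
    rw [Finset.mem_insert]
    constructor
    · rintro (rfl | h)
      · exact absurd hx he.2
      · exact h
    · exact Or.inr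
  have : Mono (insert g S) e ↔ Mono S e := by
    unfold Mono
    refine forall₂_congr fun a ha => forall₂_congr fun c hc => ?_
    rw [h3 a ha, h3 c hc]
  simp only [this]

theorem ph_nonneg {P : Sym2 V → ℝ} (h1 : ∀ e, P e ≤ 1) (E : Finset (Sym2 V)) (g : V)
    (S : Finset V) : 0 ≤ ph P E g S := by
  refine Finset.prod_nonneg fun e _ => ?_
  split_ifs
  · exact zero_le_one
  · linarith [h1 e]

theorem ph_le_one {P : Sym2 V → ℝ} (h0 : ∀ e, 0 ≤ P e) (h1 : ∀ e, P e ≤ 1)
    (E : Finset (Sym2 V)) (g : V) (S : Finset V) : ph P E g S ≤ 1 := by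
  refine Finset.prod_le_one (fun e _ => ?_) (fun e _ => ?_)
  · split_ifs
    · exact zero_le_one
    · linarith [h1 e]
  · split_ifs
    · exact le_rfl
    · linarith [h0 e]

theorem ph_mono {P : Sym2 V → ℝ} (h0 : ∀ e, 0 ≤ P e) (h1 : ∀ e, P e ≤ 1)
    (E : Finset (Sym2 V)) (g : V) {S T : Finset V} (hST : S ⊆ T) : ph P E g S ≤ ph P E g T := by
  refine Finset.prod_le_prod (fun e _ => ?_) (fun e he => ?_)
  · split_ifs
    · exact zero_le_one
    · linarith [h1 e]
  · rw [Finset.mem_filter, not_not] at he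
    obtain ⟨w, rfl⟩ := Sym2.mem_iff_exists.1 he.2
    simp only [SlM.mono_mk, Finset.mem_insert, true_or, true_iff]
    have hp0 := h0 s(g, w)
    have hp1 := h1 s(g, w)
    by_cases h2 : w = g ∨ w ∈ S
    · have h3 : w = g ∨ w ∈ T := h2.imp id fun h => hST h
      rw [if_pos h2, if_pos h3]
    · rw [if_neg h2]
      split_ifs <;> linarith

end FKMM

open FKMM in
theorem specFKM : SpecFKM := by
  intro V P E Λ v g h0 h1 _ hv hg hvg
  set Λ' := Λ.erase g with hΛ'
  have hgΛ' : g ∉ Λ' := Finset.notMem_erase g Λ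
  have hins : insert g Λ' = Λ := Finset.insert_erase hg
  set E' := del E g with hE'
  have hZ : 0 < ∑ S ∈ Λ.powerset, sw P E S := Z_pos h1 E Λ
  have hZ' : 0 < ∑ S ∈ Λ'.powerset, sw P E' S := Z_pos h1 E' Λ'
  set Z := ∑ S ∈ Λ.powerset, sw P E S with hZdef
  set Z' := ∑ S ∈ Λ'.powerset, sw P E' S with hZ'def
  set X := ∑ S ∈ Λ'.powerset, chi {v} S * ph P E g S * sw P E' S with hX
  set Y := ∑ S ∈ Λ'.powerset, ph P E g S * sw P E' S with hY
  set B := ∑ S ∈ Λ'.powerset, chi {v} S * sw P E' S with hB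
  -- splitting
  have hsplit : ∀ F : Finset V → ℝ, ∑ S ∈ Λ.powerset, F S =
      ∑ S ∈ Λ'.powerset, F S + ∑ S ∈ Λ'.powerset, F (insert g S) := by
    intro F
    rw [← hins, Finset.sum_powerset_insert hgΛ']
  have hchg : ∀ S ∈ Λ'.powerset, chi {g} S = 1 := by
    intro S hS
    rw [SlM.chi_single, if_neg fun h => hgΛ' ((Finset.mem_powerset.1 hS) h)]
  have hchg' : ∀ S : Finset V, chi {g} (insert g S) = -1 := by
    intro S
    rw [SlM.chi_single, if_pos (Finset.mem_insert_self g S)]
  have hchv' : ∀ S : Finset V, chi {v} (insert g S) = chi {v} S := by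
    intro S
    rw [SlM.chi_single, SlM.chi_single]
    simp only [Finset.mem_insert, hvg, false_or]
  have e1 : corr P E Λ {v} - c2 P E Λ v g = 2 * X / Z := by
    unfold c2 corr
    rw [← sub_div, ← Finset.sum_sub_distrib, hsplit]
    congr 1
    rw [Finset.sum_eq_zero (s := Λ'.powerset), zero_add, hX, Finset.mul_sum]
    · refine Finset.sum_congr rfl fun S _ => ?_
      rw [chi_symmDiff_left, hchg', hchv', sw_split]
      ring
    · intro S hS
      rw [chi_symmDiff_left, hchg S hS]
      ring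
  have e2 : 1 - corr P E Λ {g} = 2 * Y / Z := by
    unfold corr
    rw [eq_div_iff hZ.ne', sub_mul, one_mul, div_mul_cancel₀ _ hZ.ne', hZdef,
      ← Finset.sum_sub_distrib, hsplit]
    rw [Finset.sum_eq_zero (s := Λ'.powerset), zero_add, hY, Finset.mul_sum]
    · refine Finset.sum_congr rfl fun S _ => ?_
      rw [hchg', sw_split]
      ring
    · intro S hS
      rw [hchg S hS]
      ring
  have e3 : corr P E' Λ' {v} = B / Z' := rfl
  have key := fkg_anti h0 h1 E' Λ' (fun S => 1 - ph P E g S) (fun S => 1 + chi {v} S)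
    (fun S => by have := ph_le_one h0 h1 E g S; linarith)
    (fun S => by
      show 0 ≤ 1 + chi {v} S
      rw [SlM.chi_single]; split_ifs <;> norm_num)
    (fun S T hST _ => by have := ph_mono h0 h1 E g hST; linarith)
    (fun S T hST _ => by
      show 1 + chi {v} T ≤ 1 + chi {v} S
      rw [SlM.chi_single, SlM.chi_single]
      by_cases h2 : v ∈ S
      · rw [if_pos h2, if_pos (hST h2)]
      · rw [if_neg h2]; split_ifs <;> norm_num)
  have k1 : ∑ S ∈ Λ'.powerset, (1 - ph P E g S) * sw P E' S = Z' - Y := by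
    rw [hZ'def, hY, ← Finset.sum_sub_distrib]
    exact Finset.sum_congr rfl fun S _ => by ring
  have k2 : ∑ S ∈ Λ'.powerset, (1 + chi {v} S) * sw P E' S = Z' + B := by
    rw [hZ'def, hB, ← Finset.sum_add_distrib]
    exact Finset.sum_congr rfl fun S _ => by ring
  have k3 : ∑ S ∈ Λ'.powerset, (1 - ph P E g S) * (1 + chi {v} S) * sw P E' S =
      Z' - Y + B - X := by
    rw [hZ'def, hB, hY, hX, ← Finset.sum_sub_distrib, ← Finset.sum_add_distrib,
      ← Finset.sum_sub_distrib]
    exact Finset.sum_congr rfl fun S _ => by ring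
  rw [k1, k2, k3] at key
  have hfin : X * Z' ≤ Y * B := by nlinarith [key]
  rw [e1, e2, e3, div_mul_div_comm, div_le_div_iff₀ hZ (mul_pos hZ hZ')]
  nlinarith [mul_le_mul_of_nonneg_right hfin hZ.le]

end NU

end MP8622
end

section
set_option autoImplicit false

open Classical Filter Topology

/-!
# MP_8622f1_pr, NU: WIR, a vertex joined to a plus spin by an edge with `P = 1`
-/

namespace MP8622

namespace NU

namespace WIRM

variable {V : Type}

/-- if the sets containing `x` have weight zero, `x` may be removed from the free set -/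
theorem corr_erase {P : Sym2 V → ℝ} {E : Finset (Sym2 V)} {Λ : Finset V} {x : V}
    (h : ∀ S ⊆ Λ, x ∈ S → sw P E S = 0) (A : Finset V) :
    corr P E Λ A = corr P E (Λ.erase x) A := by
  unfold corr
  have key : ∀ f : Finset V → ℝ, (∀ S ⊆ Λ, x ∈ S → f S = 0) →
      ∑ S ∈ Λ.powerset, f S = ∑ S ∈ (Λ.erase x).powerset, f S := by
    intro f hf
    symm
    refine Finset.sum_subset (Finset.powerset_mono.2 (Finset.erase_subset x Λ)) ?_
    intro S hS hS'
    rw [Finset.mem_powerset] at hS hS'
    apply hf S hS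
    by_contra hx
    apply hS'
    intro v hv
    rw [Finset.mem_erase]
    exact ⟨fun hvx => hx (hvx ▸ hv), hS hv⟩
  rw [key (fun S => chi A S * sw P E S) (fun S hS hx => by
      show chi A S * sw P E S = 0
      rw [h S hS hx, mul_zero]), key (fun S => sw P E S) h]

end WIRM

open WIRM in
theorem specWIR : SpecWIR := by
  intro V P E Λ A x y he hP hx hy
  apply corr_erase
  intro S hS hxS
  unfold sw
  apply Finset.prod_eq_zero he
  have : ¬ Mono S s(x, y) := by
    rw [mono_mk]
    intro h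
    exact hy (hS (h.1 hxS))
  rw [if_neg this, hP, sub_self]

end NU

end MP8622
end

section
set_option autoImplicit false

open Classical Filter Topology

/-!
# MP_8622f1_pr, NU: ONE, a spin which is almost surely plus
-/

namespace MP8622

namespace NU

theorem specONE : SpecONE := by
  intro V P E Λ A x h0 h1 hc
  apply WIRM.corr_erase
  have hZ := Z_pos h1 E Λ
  unfold corr at hc
  rw [div_eq_one_iff_eq hZ.ne'] at hc
  have hsum : ∑ S ∈ Λ.powerset, (1 - chi {x} S) * sw P E S = 0 := by
    have : ∀ S ∈ Λ.powerset, (1 - chi {x} S) * sw P E S = sw P E S - chi {x} S * sw P E S := by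
      intro S _
      ring
    rw [Finset.sum_congr rfl this, Finset.sum_sub_distrib, hc, sub_self]
  have hnn : ∀ S ∈ Λ.powerset, 0 ≤ (1 - chi {x} S) * sw P E S := by
    intro S _
    apply mul_nonneg _ (sw_nonneg h1 E S)
    have := (le_abs_self (chi {x} S)).trans (abs_chi {x} S).le
    linarith
  intro S hS hx
  have h2 := (Finset.sum_eq_zero_iff_of_nonneg hnn).1 hsum S (Finset.mem_powerset.2 hS)
  have h3 : chi {x} S = -1 := by
    rw [chi_eq_prod, Finset.prod_singleton, if_pos hx]
  rw [h3] at h2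
  linarith

end NU

end MP8622
end

section
set_option autoImplicit false

open Classical Filter Topology

/-!
PSI: the magnetisation of the ghost when a set is plus (helper67).
-/

namespace MP8622

namespace NU

namespace PSIM

variable {V : Type}

theorem mem_fan {L : Finset V} {u : V → V} {e : Sym2 V} :
    e ∈ fan L u ↔ ∃ x ∈ L, s(x, u x) = e := by
  unfold fan
  rw [Finset.mem_image]

/-- plus spins may be dropped -/
theorem corr_out {P : Sym2 V → ℝ} {E : Finset (Sym2 V)} {Λ : Finset V} {x : V} (hx : x ∉ Λ)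
    (A : Finset V) : corr P E Λ (symmDiff {x} A) = corr P E Λ A := by
  unfold corr
  congr 1
  refine Finset.sum_congr rfl fun S hS => ?_
  rw [Finset.mem_powerset] at hS
  rw [chi_symmDiff_left, SlM.chi_single, if_neg (fun h => hx (hS h)), one_mul]

theorem c2_comm (P : Sym2 V → ℝ) (E : Finset (Sym2 V)) (Λ : Finset V) (x y : V) :
    c2 P E Λ x y = c2 P E Λ y x := by
  unfold c2
  rw [symmDiff_comm]

theorem c2_self {P : Sym2 V → ℝ} (h1 : ∀ e, P e ≤ 1) (E : Finset (Sym2 V)) (Λ : Finset V)
    (x : V) : c2 P E Λ x x = 1 := by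
  unfold c2
  rw [SlM.symmDiff_self_empty, corr_empty h1]

theorem th_nonneg {p : ℝ} (h0 : 0 ≤ p) (h1 : p ≤ 1) : 0 ≤ th p :=
  div_nonneg h0 (by linarith)

theorem th_le_one {p : ℝ} (h1 : p ≤ 1) : th p ≤ 1 := by
  unfold th
  rw [div_le_one (by linarith)]
  linarith

/-- upper bound for the magnetisation, the fields coming from the plus spins of `Y` -/
theorem mub {P : Sym2 V → ℝ} {E : Finset (Sym2 V)} {Λ Y : Finset V} {u : V → V} {q : ℝ}
    (h0 : ∀ e, 0 ≤ P e) (h1 : ∀ e, P e ≤ 1) (hd : ∀ e ∈ E, ¬ e.IsDiag)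
    (hE : ∀ e ∈ E, ∀ z ∈ e, z ∈ Λ) (hY : ∀ x ∈ Y, x ∉ Λ ∧ u x ∈ Λ ∧ P s(x, u x) = q)
    (hq0 : 0 ≤ q) (hq1 : q ≤ 1) {z : V} (hz : z ∈ Λ) :
    corr P (E ∪ fan Y u) Λ {z} ≤ th q * ∑ x ∈ Y, c2 P E Λ z (u x) := by
  have hdiag : ∀ e ∈ E ∪ fan Y u, ¬ e.IsDiag := by
    intro e he
    rcases Finset.mem_union.1 he with he | he
    · exact hd e he
    · obtain ⟨x, hx, rfl⟩ := mem_fan.1 he
      intro h
      have h2 : x = u x := Sym2.mk_isDiag_iff.1 h
      exact (hY x hx).1 (h2 ▸ (hY x hx).2.1)
  have hW : ∀ e ∈ E ∪ fan Y u, ∀ w ∈ e, w ∈ Λ ∪ Y := by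
    intro e he w hw
    rcases Finset.mem_union.1 he with he | he
    · exact Finset.mem_union_left _ (hE e he w hw)
    · obtain ⟨x, hx, rfl⟩ := mem_fan.1 he
      rcases Sym2.mem_iff.1 hw with rfl | rfl
      · exact Finset.mem_union_right _ hx
      · exact Finset.mem_union_left _ (hY x hx).2.1
  have hein : ein (E ∪ fan Y u) Λ = E := by
    ext e
    rw [SlM.mem_ein, Finset.mem_union]
    constructor
    · rintro ⟨he | he, h⟩
      · exact he
      · obtain ⟨x, hx, rfl⟩ := mem_fan.1 he
        exact absurd (h x (Sym2.mem_mk_left _ _)) (hY x hx).1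
    · exact fun he => ⟨Or.inl he, hE e he⟩
  have hsl := specSL V P (E ∪ fan Y u) Λ Λ ∅ z h0 h1 hdiag (Finset.Subset.refl Λ) hz
    (Finset.disjoint_empty_left _) (Λ ∪ Y) hW
  have e0 : symmDiff ({z} : Finset V) ∅ = {z} := by
    rw [← Finset.bot_eq_empty, symmDiff_bot]
  rw [e0, hein] at hsl
  refine hsl.trans ?_
  rw [Finset.mul_sum, Finset.sum_comm]
  have hsub : (Λ ∪ Y) \ Λ ⊆ Y := by
    intro w hw
    rw [Finset.mem_sdiff, Finset.mem_union] at hw
    exact hw.1.resolve_left hw.2
  refine (Finset.sum_le_sum fun v hv => ?_ : _ ≤ ∑ v ∈ (Λ ∪ Y) \ Λ, th q * c2 P E Λ z (u v)).trans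
    (Finset.sum_le_sum_of_subset_of_nonneg hsub fun v _ _ =>
      mul_nonneg (th_nonneg hq0 hq1) (corr_nonneg h0 h1 _))
  have hvY := hsub hv
  have hvΛ : v ∉ Λ := (Finset.mem_sdiff.1 hv).2
  rw [Finset.sum_eq_single (u v)]
  · split_ifs
    · have e1 : P s(u v, v) = q := by rw [Sym2.eq_swap]; exact (hY v hvY).2.2
      rw [e1]
      have e2 := corr_le_one (P := P) (E := E ∪ fan Y u) (Λ := Λ) h1 (symmDiff {v} ∅)
      have e3 : 0 ≤ q / (2 - q) * corr P E Λ (symmDiff {z} {u v}) :=
        mul_nonneg (th_nonneg hq0 hq1) (corr_nonneg h0 h1 _)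
      calc q / (2 - q) * corr P E Λ (symmDiff {z} {u v}) *
            corr P (E ∪ fan Y u) Λ (symmDiff {v} ∅) ≤
            q / (2 - q) * corr P E Λ (symmDiff {z} {u v}) * 1 := mul_le_mul_of_nonneg_left e2 e3
        _ = th q * c2 P E Λ z (u v) := by rw [mul_one]; rfl
    · exact mul_nonneg (th_nonneg hq0 hq1) (corr_nonneg h0 h1 _)
  · intro w _ hne
    rw [if_neg]
    intro he
    rcases Finset.mem_union.1 he with he | he
    · exact hvΛ (hE _ he v (Sym2.mem_mk_right _ _))
    · obtain ⟨x, hx, hxe⟩ := mem_fan.1 he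
      rcases Sym2.eq_iff.1 hxe with ⟨h2, h3⟩ | ⟨h2, h3⟩
      · exact hvΛ (h3 ▸ (hY x hx).2.1)
      · apply hne
        rw [← h2]
        exact h3.symm
  · intro h
    exact absurd (hY v hvY).2.1 h

end PSIM

open PSIM in
theorem specPSI (hEXP : SpecEXP) (hVRC : SpecVRC) (hQUA : SpecQUA) (hFLP : SpecFLP) :
    SpecPSI := by
  intro V P E Λ L X g u k₀ q e h0 h1 hd hE hg hL hXΛ hgX hLg hX hk0 hk1 hq0 hq1 he H1 H2 H3
  have hXΛ' : ∀ x ∈ X, x ∉ Λ := fun x hx => Finset.disjoint_left.1 hXΛ hx
  set a := th k₀ with ha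
  have ha0 : 0 ≤ a := th_nonneg hk0 hk1
  set t := th q with ht
  have ht0 : 0 ≤ t := th_nonneg hq0 hq1
  have ht1 : t ≤ 1 := th_le_one hq1
  set T : V → V → ℝ := fun x y => c2 P E Λ x y with hT
  have hT0 : ∀ x y, 0 ≤ T x y := fun x y => corr_nonneg h0 h1 _
  set ee : V → ℝ := fun z => ∑ v ∈ L, T z v with hee
  have hee0 : ∀ z, 0 ≤ ee z := fun z => Finset.sum_nonneg fun v _ => hT0 z v
  set E₁ := E ∪ fan L (fun _ => g) with hE₁
  have hfanL : ∀ f ∈ fan L (fun _ => g), ∃ v ∈ L, f = s(v, g) := by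
    intro f hf
    obtain ⟨v, hv, hvf⟩ := mem_fan.1 hf
    exact ⟨v, hv, hvf.symm⟩
  -- the key estimate
  have key : ∀ Y ⊆ X, ∀ x ∈ X, x ∉ Y →
      1 - corr P (E₁ ∪ fan (insert x Y) u) (insert g Λ) {g} ≤
        (1 - t * a * e / 16) * (1 - corr P (E₁ ∪ fan Y u) (insert g Λ) {g}) := by
    intro Y hYX x hx hxY
    have hY : ∀ x ∈ Y, x ∉ Λ ∧ u x ∈ Λ ∧ P s(x, u x) = q := fun x hx =>
      ⟨hXΛ' x (hYX hx), hX x (hYX hx)⟩
    set F := E₁ ∪ fan Y u with hF
    set y := u x with hy
    have hyΛ : y ∈ Λ := (hX x hx).1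
    have hyg : y ≠ g := fun h => hg (h ▸ hyΛ)
    have hxΛ : x ∉ Λ := hXΛ' x hx
    have hxg : x ≠ g := fun h => hgX (h ▸ hx)
    have hxΛg : x ∉ insert g Λ := by
      rw [Finset.mem_insert]
      rintro (h | h)
      · exact hxg h
      · exact hxΛ h
    have hgY : g ∉ Y := fun h => hgX (hYX h)
    -- edges of `F`
    have hmemF : ∀ f, f ∈ F ↔ f ∈ E ∨ (∃ v ∈ L, f = s(v, g)) ∨ ∃ x' ∈ Y, f = s(x', u x') := by
      intro f
      rw [hF, hE₁, Finset.mem_union, Finset.mem_union, mem_fan, mem_fan]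
      constructor
      · rintro ((h | ⟨v, hv, rfl⟩) | ⟨x', hx', rfl⟩)
        · exact Or.inl h
        · exact Or.inr (Or.inl ⟨v, hv, rfl⟩)
        · exact Or.inr (Or.inr ⟨x', hx', rfl⟩)
      · rintro (h | ⟨v, hv, rfl⟩ | ⟨x', hx', rfl⟩)
        · exact Or.inl (Or.inl h)
        · exact Or.inl (Or.inr ⟨v, hv, rfl⟩)
        · exact Or.inr ⟨x', hx', rfl⟩
    have hdF : ∀ f ∈ F, ¬ f.IsDiag := by
      intro f hf
      rcases (hmemF f).1 hf with h | ⟨v, hv, rfl⟩ | ⟨x', hx', rfl⟩
      · exact hd f h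
      · intro h
        have h2 : v = g := Sym2.mk_isDiag_iff.1 h
        exact hg (h2 ▸ hL hv)
      · intro h
        have h2 : x' = u x' := Sym2.mk_isDiag_iff.1 h
        exact (hY x' hx').1 (h2 ▸ (hY x' hx').2.1)
    have hne : s(x, y) ∉ F := by
      intro h
      rcases (hmemF _).1 h with h | ⟨v, hv, h⟩ | ⟨x', hx', h⟩
      · exact hxΛ (hE _ h x (Sym2.mem_mk_left _ _))
      · rcases Sym2.eq_iff.1 h with ⟨h2, -⟩ | ⟨h2, -⟩
        · exact hxΛ (h2 ▸ hL hv)
        · exact hxg h2
      · rcases Sym2.eq_iff.1 h with ⟨h2, -⟩ | ⟨h2, -⟩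
        · exact hxY (h2 ▸ hx')
        · exact hxΛ (h2 ▸ (hY x' hx').2.1)
    have hins : E₁ ∪ fan (insert x Y) u = insert s(x, y) F := by
      have e1 : fan (insert x Y) u = insert s(x, y) (fan Y u) := by
        unfold fan
        rw [Finset.image_insert]
      rw [e1, Finset.union_insert]
    clear_value F
    -- the increment
    have hPe : P s(x, y) / (2 - P s(x, y)) = t := by
      rw [(hX x hx).2]
      rfl
    set ψ := corr P F (insert g Λ) {g} with hψ
    set my := corr P F (insert g Λ) {y} with hmy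
    have hψ0 : 0 ≤ ψ := corr_nonneg h0 h1 _
    have hψ1 : ψ ≤ 1 := corr_le_one h1 _
    have hmy0 : 0 ≤ my := corr_nonneg h0 h1 _
    have hmy1 : my ≤ 1 := corr_le_one h1 _
    have hform : corr P (insert s(x, y) F) (insert g Λ) {g} =
        (ψ + t * c2 P F (insert g Λ) y g) / (1 + t * my) := by
      rw [SlM.corr_insert h1 hne, hPe, corr_out hxΛg]
      congr 3
      rw [symmDiff_comm ({g} : Finset V), symmDiff_assoc, corr_out hxΛg]
      rfl
    -- EXP
    set Q := ∑ z ∈ Λ, T y z * ee z ^ 2 with hQ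
    have hQ0 : 0 ≤ Q := Finset.sum_nonneg fun z _ => mul_nonneg (hT0 _ _) (sq_nonneg _)
    have H2' : a * Q ≤ e / 2 := H2 x hx
    have H1' : e ≤ ee y := H1 x hx
    have H3' : t * ∑ z ∈ Λ, T y z * ee z * ∑ x' ∈ X, T z (u x') ≤ e / 4 := H3 x hx
    set T' := a / 2 * ee y - a ^ 2 / 2 * Q with hT'
    have hT'low : a * e / 4 ≤ T' := by
      have e1 : a * (a * Q) ≤ a * (e / 2) := mul_le_mul_of_nonneg_left H2' ha0
      have e2 : a * e ≤ a * ee y := mul_le_mul_of_nonneg_left H1' ha0
      rw [hT']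
      nlinarith
    have hT'0 : 0 ≤ T' := le_trans (by positivity) hT'low
    set τ : V → ℝ := fun z => if z = g then T' else a / 2 * (T y z * ee z) with hτ
    have hτ0 : ∀ z, 0 ≤ τ z := by
      intro z
      rw [hτ]
      dsimp only
      split_ifs
      · exact hT'0
      · exact mul_nonneg (by positivity) (mul_nonneg (hT0 _ _) (hee0 _))
    have hτg : τ g = T' := if_pos rfl
    have hτz : ∀ z, z ≠ g → τ z = a / 2 * (T y z * ee z) := fun z hz => if_neg hz
    have hC : ∀ C : Finset V, C ⊆ insert g Λ → T' - ∑ z ∈ C, τ z ≤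
        if y ∈ C ∨ g ∈ C then 0 else
          c2 P (ein F (insert g Λ \ C)) (insert g Λ \ C) y g := by
      intro C hCsub
      split_ifs with hcase
      · rcases hcase with hcy | hcg
        · have h2 : τ y ≤ ∑ z ∈ C, τ z := Finset.single_le_sum (fun z _ => hτ0 z) hcy
          rw [hτz y hyg] at h2
          have h3 : T y y = 1 := c2_self h1 _ _ _
          rw [h3, one_mul] at h2
          have h4 : 0 ≤ a ^ 2 / 2 * Q := mul_nonneg (by positivity) hQ0
          rw [hT']
          linarith
        · have h2 : τ g ≤ ∑ z ∈ C, τ z := Finset.single_le_sum (fun z _ => hτ0 z) hcg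
          rw [hτg] at h2
          linarith
      · rw [not_or] at hcase
        obtain ⟨hyC, hgC⟩ := hcase
        have hCΛ : C ⊆ Λ := by
          intro z hz
          rcases Finset.mem_insert.1 (hCsub hz) with h | h
          · exact absurd (h ▸ hz) hgC
          · exact h
        set ΛC := Λ \ C with hΛC
        have hΛg : insert g Λ \ C = insert g ΛC := by
          rw [hΛC, Finset.insert_sdiff_of_notMem _ hgC]
        have hgΛC : g ∉ ΛC := fun h => hg (Finset.mem_sdiff.1 h).1
        have hyΛC : y ∈ ΛC := Finset.mem_sdiff.2 ⟨hyΛ, hyC⟩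
        set EC := ein E ΛC with hEC
        have hedge : ein F (insert g ΛC) = EC ∪ fan (L \ C) (fun _ => g) := by
          ext f
          rw [SlM.mem_ein, Finset.mem_union, hEC, SlM.mem_ein, mem_fan, hmemF]
          constructor
          · rintro ⟨h | ⟨v, hv, rfl⟩ | ⟨x', hx', rfl⟩, hin⟩
            · left
              refine ⟨h, fun z hz => ?_⟩
              rcases Finset.mem_insert.1 (hin z hz) with h2 | h2
              · exact absurd (hE f h z hz) (h2 ▸ hg)
              · exact h2
            · right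
              refine ⟨v, Finset.mem_sdiff.2 ⟨hv, fun hvC => ?_⟩, rfl⟩
              rcases Finset.mem_insert.1 (hin v (Sym2.mem_mk_left _ _)) with h2 | h2
              · exact hg (h2 ▸ hL hv)
              · exact (Finset.mem_sdiff.1 h2).2 hvC
            · exfalso
              rcases Finset.mem_insert.1 (hin x' (Sym2.mem_mk_left _ _)) with h2 | h2
              · exact hgY (h2 ▸ hx')
              · exact (hY x' hx').1 (Finset.mem_sdiff.1 h2).1
          · rintro (⟨h, hin⟩ | ⟨v, hv, rfl⟩)
            · exact ⟨Or.inl h, fun z hz => Finset.mem_insert_of_mem (hin z hz)⟩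
            · rw [Finset.mem_sdiff] at hv
              refine ⟨Or.inr (Or.inl ⟨v, hv.1, rfl⟩), fun z hz => ?_⟩
              rcases Sym2.mem_iff.1 hz with rfl | rfl
              · exact Finset.mem_insert_of_mem (Finset.mem_sdiff.2 ⟨hL hv.1, hv.2⟩)
              · exact Finset.mem_insert_self _ _
        rw [hΛg, hedge]
        -- the spin at `g` may be fixed
        have hflp : c2 P (EC ∪ fan (L \ C) (fun _ => g)) (insert g ΛC) y g =
            corr P (EC ∪ fan (L \ C) (fun _ => g)) ΛC {y} := by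
          unfold c2
          have h2 := hFLP V P (EC ∪ fan (L \ C) (fun _ => g)) (insert g ΛC) (symmDiff {y} {g}) g
            (by
              intro f hf w hw
              rw [← hedge, SlM.mem_ein] at hf
              exact hf.2 w hw)
            (SlM.pair_subset (Finset.mem_insert_of_mem hyΛC) (Finset.mem_insert_self _ _))
            (by
              have h3 : symmDiff ({y} : Finset V) {g} = {y, g} := by
                ext z
                rw [Finset.mem_symmDiff, Finset.mem_singleton, Finset.mem_singleton,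
                  Finset.mem_insert, Finset.mem_singleton]
                constructor
                · rintro (⟨h, -⟩ | ⟨h, -⟩)
                  · exact Or.inl h
                  · exact Or.inr h
                · rintro (h | h)
                  · exact Or.inl ⟨h, fun h' => hyg (h ▸ h')⟩
                  · exact Or.inr ⟨h, fun h' => hyg (h' ▸ h)⟩
              rw [h3, Finset.card_pair hyg]
              exact even_two)
            (Finset.mem_insert_self _ _)
          rw [h2, Finset.erase_insert hgΛC, symmDiff_comm, corr_out hgΛC]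
        rw [hflp]
        -- QUA
        have hqua := hQUA V P EC ΛC (L \ C) (fun _ => g) k₀ y h0 h1
          (fun f hf => hd f (SlM.mem_ein.1 hf).1) (fun f hf => (SlM.mem_ein.1 hf).2)
          (fun v hv => Finset.mem_sdiff.2 ⟨hL (Finset.mem_sdiff.1 hv).1, (Finset.mem_sdiff.1 hv).2⟩)
          (fun v hv => ⟨hgΛC, hLg v (Finset.mem_sdiff.1 hv).1⟩) hyΛC hk0 hk1
        -- comparison of the two point functions
        have hTC : ∀ z ∈ ΛC, ∀ w ∈ ΛC, c2 P EC ΛC z w ≤ T z w := fun z hz w hw =>
          SlM.corr_ein_le h0 h1 E Finset.sdiff_subset (SlM.pair_subset hz hw)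
        have hLC : ∀ v ∈ L \ C, v ∈ ΛC := fun v hv =>
          Finset.mem_sdiff.2 ⟨hL (Finset.mem_sdiff.1 hv).1, (Finset.mem_sdiff.1 hv).2⟩
        have hQC : ∑ z ∈ ΛC, c2 P EC ΛC y z * (∑ v ∈ L \ C, c2 P EC ΛC z v) ^ 2 ≤ Q := by
          refine (Finset.sum_le_sum fun z hz => ?_ :
            _ ≤ ∑ z ∈ ΛC, T y z * ee z ^ 2).trans
            (Finset.sum_le_sum_of_subset_of_nonneg Finset.sdiff_subset fun z _ _ =>
              mul_nonneg (hT0 _ _) (sq_nonneg _))
          have e1 : ∑ v ∈ L \ C, c2 P EC ΛC z v ≤ ee z :=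
            (Finset.sum_le_sum fun v hv => hTC z hz v (hLC v hv)).trans
              (Finset.sum_le_sum_of_subset_of_nonneg Finset.sdiff_subset fun v _ _ => hT0 _ _)
          have e2 : 0 ≤ ∑ v ∈ L \ C, c2 P EC ΛC z v :=
            Finset.sum_nonneg fun v _ => corr_nonneg h0 h1 _
          exact mul_le_mul (hTC y hyΛC z hz) (pow_le_pow_left₀ e2 e1 2) (sq_nonneg _) (hT0 _ _)
        -- VRC
        have hvrc : ee y - ∑ z ∈ C, T y z * ee z ≤ ∑ v ∈ L \ C, c2 P EC ΛC y v := by
          have e1 : ee y - ∑ z ∈ C, T y z * ee z = ∑ v ∈ L, (T y v - ∑ z ∈ C, T y z * T z v) := by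
            rw [Finset.sum_sub_distrib, Finset.sum_comm]
            congr 1
            refine Finset.sum_congr rfl fun z _ => ?_
            rw [hee]
            dsimp only
            rw [Finset.mul_sum]
          have e2 : ∑ v ∈ L \ C, c2 P EC ΛC y v =
              ∑ v ∈ L, if v ∈ C then 0 else c2 P EC ΛC y v := by
            rw [← Finset.sum_filter_add_sum_filter_not L (fun v => v ∈ C)]
            have e3 : ∑ v ∈ L.filter (fun v => v ∈ C), (if v ∈ C then (0 : ℝ) else
                c2 P EC ΛC y v) = 0 := by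
              refine Finset.sum_eq_zero fun v hv => ?_
              rw [if_pos (Finset.mem_filter.1 hv).2]
            rw [e3, zero_add]
            have e4 : L.filter (fun v => v ∉ C) = L \ C := by
              ext v
              rw [Finset.mem_filter, Finset.mem_sdiff]
            rw [e4]
            refine Finset.sum_congr rfl fun v hv => ?_
            rw [if_neg (Finset.mem_sdiff.1 hv).2]
          rw [e1, e2]
          refine Finset.sum_le_sum fun v hv => ?_
          have h2 := hVRC V P E Λ C y v h0 h1 hd hE hyΛ (hL hv) hCΛ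
          by_cases hvC : v ∈ C
          · rw [if_pos (Or.inr hvC)] at h2
            rw [if_pos hvC]
            have h3 : T y v ≤ 0 + ∑ z ∈ C, T y z * T z v := h2
            linarith
          · rw [if_neg (by rintro (h | h); exacts [hyC h, hvC h])] at h2
            rw [if_neg hvC]
            have h3 : T y v ≤ c2 P EC ΛC y v + ∑ z ∈ C, T y z * T z v := h2
            linarith
        have hsumτ : ∑ z ∈ C, τ z = a / 2 * ∑ z ∈ C, T y z * ee z := by
          rw [Finset.mul_sum]
          refine Finset.sum_congr rfl fun z hz => hτz z fun h => hgC (h ▸ hz)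
        rw [hsumτ, hT']
        have f1 := mul_le_mul_of_nonneg_left hvrc ha0
        have f2 := mul_le_mul_of_nonneg_left hQC (sq_nonneg a)
        have f3 : a * ∑ v ∈ L \ C, c2 P EC ΛC y v ≤
            2 * corr P (EC ∪ fan (L \ C) (fun _ => g)) ΛC {y} +
            a ^ 2 * ∑ z ∈ ΛC, c2 P EC ΛC y z * (∑ v ∈ L \ C, c2 P EC ΛC z v) ^ 2 := hqua
        linarith
    have hexp := hEXP V P F (insert g Λ) y g T' τ h0 h1 hdF (Finset.mem_insert_of_mem hyΛ)
      (Finset.mem_insert_self _ _) hyg hτ0 hC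
    rw [Finset.erase_insert hg] at hexp
    -- the system without `g`
    have hdel : del F g = E ∪ fan Y u := by
      ext f
      unfold del
      rw [Finset.mem_filter, hmemF, Finset.mem_union, mem_fan]
      constructor
      · rintro ⟨h | ⟨v, hv, rfl⟩ | ⟨x', hx', rfl⟩, h2⟩
        · exact Or.inl h
        · exact absurd (Sym2.mem_mk_right _ _) h2
        · exact Or.inr ⟨x', hx', rfl⟩
      · rintro (h | ⟨x', hx', rfl⟩)
        · exact ⟨Or.inl h, fun h2 => hg (hE f h g h2)⟩
        · refine ⟨Or.inr (Or.inr ⟨x', hx', rfl⟩), fun h2 => ?_⟩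
          rcases Sym2.mem_iff.1 h2 with h3 | h3
          · exact hgY (h3 ▸ hx')
          · exact hg (h3 ▸ (hY x' hx').2.1)
    rw [hdel] at hexp
    have hsum : ∑ z ∈ Λ, corr P (E ∪ fan Y u) Λ {z} * τ z ≤ a * e / 8 := by
      have e1 : ∀ z ∈ Λ, corr P (E ∪ fan Y u) Λ {z} * τ z ≤
          a / 2 * (t * (T y z * ee z * ∑ x' ∈ X, T z (u x'))) := by
        intro z hz
        have hzg : z ≠ g := fun h => hg (h ▸ hz)
        have e2 := mub h0 h1 hd hE hY hq0 hq1 hz
        have e3 : th q * ∑ x' ∈ Y, c2 P E Λ z (u x') ≤ t * ∑ x' ∈ X, T z (u x') :=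
          mul_le_mul_of_nonneg_left
            (Finset.sum_le_sum_of_subset_of_nonneg hYX fun v _ _ => hT0 _ _) ht0
        have e4 := mul_le_mul_of_nonneg_right (e2.trans e3) (hτ0 z)
        refine e4.trans (le_of_eq ?_)
        rw [hτz z hzg]
        ring
      refine (Finset.sum_le_sum e1).trans ?_
      rw [← Finset.mul_sum, ← Finset.mul_sum]
      have e5 := mul_le_mul_of_nonneg_left H3' (by positivity : (0 : ℝ) ≤ a / 2)
      linarith
    have hcov : (1 - ψ) * (a * e / 8) ≤ c2 P F (insert g Λ) y g - my * ψ := by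
      refine le_trans ?_ hexp
      refine mul_le_mul_of_nonneg_left ?_ (by linarith)
      linarith
    -- conclusion
    rw [hins, hform]
    have hden : 0 < 1 + t * my := by positivity
    have hden2 : 1 + t * my ≤ 2 := by nlinarith
    have hcov0 : 0 ≤ c2 P F (insert g Λ) y g - my * ψ := by
      have := mul_nonneg (sub_nonneg.2 hψ1) (by positivity : (0 : ℝ) ≤ a * e / 8)
      linarith
    have e6 : (ψ + t * c2 P F (insert g Λ) y g) / (1 + t * my) =
        ψ + t * (c2 P F (insert g Λ) y g - my * ψ) / (1 + t * my) := by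
      field_simp
      ring
    have e7 : t * (c2 P F (insert g Λ) y g - my * ψ) / 2 ≤
        t * (c2 P F (insert g Λ) y g - my * ψ) / (1 + t * my) :=
      div_le_div_of_nonneg_left (mul_nonneg ht0 hcov0) hden hden2
    have e8 := mul_le_mul_of_nonneg_left hcov ht0
    rw [e6]
    nlinarith
  -- the factor is nonnegative
  have hc : X.Nonempty → 0 ≤ 1 - t * a * e / 16 := by
    rintro ⟨x, hx⟩
    have hyΛ : u x ∈ Λ := (hX x hx).1
    have e1 : a * ee (u x) ^ 2 ≤ e / 2 := by
      refine le_trans ?_ (H2 x hx)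
      refine mul_le_mul_of_nonneg_left ?_ ha0
      have h2 : T (u x) (u x) * ee (u x) ^ 2 ≤ ∑ z ∈ Λ, T (u x) z * ee z ^ 2 :=
        Finset.single_le_sum (f := fun z => T (u x) z * ee z ^ 2)
          (fun z _ => mul_nonneg (hT0 _ _) (sq_nonneg _)) hyΛ
      rw [show T (u x) (u x) = 1 from c2_self h1 _ _ _, one_mul] at h2
      exact h2
    have e2 : e ≤ ee (u x) := H1 x hx
    have e3 : a * e ^ 2 ≤ e / 2 :=
      (mul_le_mul_of_nonneg_left (pow_le_pow_left₀ he e2 2) ha0).trans e1
    have e4 : a * e ≤ 1 / 2 := by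
      rcases he.eq_or_lt with h | h
      · rw [← h, mul_zero]
        norm_num
      · by_contra hcon
        rw [not_le] at hcon
        nlinarith
    have e5 : t * (a * e) ≤ 1 * (1 / 2) := mul_le_mul ht1 e4 (mul_nonneg ha0 he) zero_le_one
    linarith
  have main : ∀ Y : Finset V, Y ⊆ X →
      1 - corr P (E₁ ∪ fan Y u) (insert g Λ) {g} ≤ (1 - t * a * e / 16) ^ Y.card := by
    intro Y
    induction Y using Finset.induction_on with
    | empty =>
      intro _
      rw [Finset.card_empty, pow_zero]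
      linarith [corr_nonneg (P := P) (E := E₁ ∪ fan ∅ u) (Λ := insert g Λ) h0 h1 {g}]
    | insert x Y hxY ih =>
      intro hsub
      have hx : x ∈ X := hsub (Finset.mem_insert_self _ _)
      have hYX : Y ⊆ X := fun z hz => hsub (Finset.mem_insert_of_mem hz)
      have h2 := key Y hYX x hx hxY
      rw [Finset.card_insert_of_notMem hxY, pow_succ]
      refine h2.trans ?_
      rw [mul_comm]
      exact mul_le_mul_of_nonneg_right (ih hYX) (hc ⟨x, hx⟩)
  have := main X (Finset.Subset.refl X)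
  linarith

end NU

end MP8622
end
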