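import Pool.Agent.Lib.MP_8622f1_pr.NU.SpecL

section
set_option autoImplicit false

open Classical Filter Topology

/-!
# THB: bound for the magnetisation in a half space
-/

namespace MP8622

namespace NU

namespace THBM

variable {V : Type}

theorem th_pos {p : ℝ} (h0 : 0 < p) (h1 : p ≤ 1) : 0 < th p := by
  unfold th; exact div_pos h0 (by linarith)

theorem th_lt_one {p : ℝ} (h1 : p < 1) : th p < 1 := by
  unfold th; rw [div_lt_one (by linarith)]; linarith

theorem th_mono {p q : ℝ} (h : p ≤ q) (h1 : q ≤ 1) : th p ≤ th q := by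
  unfold th
  rw [div_le_div_iff₀ (by linarith) (by linarith)]
  nlinarith

/-- dividing by a positive constant -/
theorem le_div {a s : ℝ} {M : ENNReal} (ha : 0 < a)
    (h : ENNReal.ofReal a * M ≤ ENNReal.ofReal s) : M ≤ ENNReal.ofReal (s / a) := by
  have h1 : M = ENNReal.ofReal (1 / a) * (ENNReal.ofReal a * M) := by
    rw [← mul_assoc, ← ENNReal.ofReal_mul (by positivity), one_div,
      inv_mul_cancel₀ ha.ne', ENNReal.ofReal_one, one_mul]
  rw [h1]
  refine (mul_le_mul_right h _).trans ?_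
  rw [← ENNReal.ofReal_mul (by positivity)]
  apply le_of_eq
  congr 1
  field_simp

theorem down_path {G : SimpleGraph V} [G.LocallyFinite] {h : V → ℝ} {τ p t : ℝ}
    (tt : TTA G p) (hdn : ∀ x : V, ∃ y, G.Adj x y ∧ h y = h x - τ) (hτ : 0 < τ) (ht0 : 0 ≤ t)
    (htp : t ≤ th p) (n : ℕ) : ∀ x : V, ∃ z : V, h z = h x - n * τ ∧
      ∀ T : ℝ, h x < T → ENNReal.ofReal (t ^ n) ≤ TT G p (lay h (h z) T) z x := by
  induction n with
  | zero =>
    intro x
    refine ⟨x, by simp, fun T hT => ?_⟩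
    rw [tt.self (lay h (h x) T) x ⟨le_refl _, hT⟩]
    simp
  | succ n ih =>
    intro x
    obtain ⟨z, hz, hzT⟩ := ih x
    obtain ⟨y, hy, hyz⟩ := hdn z
    refine ⟨y, by rw [hyz, hz]; push_cast; ring, fun T hT => ?_⟩
    have hn : 0 ≤ (n : ℝ) * τ := by positivity
    have hzx : h z < T := by rw [hz]; linarith
    have h1 := tt.mul (lay h (h y) T) y z x
    have h2 := tt.edge (lay h (h y) T) y z ⟨le_refl _, by rw [hyz]; linarith⟩
      ⟨by rw [hyz]; linarith, hzx⟩ hy.symm
    have h3 : TT G p (lay h (h z) T) z x ≤ TT G p (lay h (h y) T) z x := by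
      apply tt.mono
      intro v hv
      exact ⟨by have := hv.1; rw [hyz]; linarith, hv.2⟩
    refine le_trans ?_ h1
    rw [pow_succ', ENNReal.ofReal_mul ht0]
    exact mul_le_mul' ((ENNReal.ofReal_le_ofReal htp).trans h2) ((hzT T hT).trans h3)

theorem push_sum (G : SimpleGraph V) [G.LocallyFinite] {d : ℕ}
    (hdeg : ∀ x, (G.neighborFinset x).card ≤ d) (f : V → V) (hf : ∀ z, G.Adj z (f z))
    (g : V → ENNReal) (S S' : Set V) (hS : ∀ z ∈ S, f z ∈ S') :
    ∑' z, S.indicator (fun z => g (f z)) z ≤ (d : ENNReal) * ∑' z', S'.indicator g z' := by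
  calc ∑' z, S.indicator (fun z => g (f z)) z
      ≤ ∑' z, ∑' z', (if f z = z' then S'.indicator g z' else 0) := by
        refine ENNReal.tsum_le_tsum fun z => ?_
        rw [tsum_eq_single (f z) (fun z' hz' => if_neg (Ne.symm hz')), if_pos rfl]
        by_cases hz : z ∈ S
        · rw [Set.indicator_of_mem hz, Set.indicator_of_mem (hS z hz)]
        · rw [Set.indicator_of_notMem hz]; exact zero_le
    _ = ∑' z', ∑' z, (if f z = z' then S'.indicator g z' else 0) := ENNReal.tsum_comm
    _ ≤ ∑' z', (d : ENNReal) * S'.indicator g z' := by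
        refine ENNReal.tsum_le_tsum fun z' => ?_
        rw [tsum_eq_sum (s := G.neighborFinset z')]
        · calc ∑ z ∈ G.neighborFinset z', (if f z = z' then S'.indicator g z' else 0)
              ≤ ∑ _z ∈ G.neighborFinset z', S'.indicator g z' := by
                refine Finset.sum_le_sum fun z _ => ?_
                split_ifs
                · exact le_refl _
                · exact zero_le
            _ = ((G.neighborFinset z').card : ENNReal) * S'.indicator g z' := by
                rw [Finset.sum_const, nsmul_eq_mul]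
            _ ≤ (d : ENNReal) * S'.indicator g z' := by
                apply mul_le_mul_left
                exact_mod_cast hdeg z'
        · intro z hz
          rw [if_neg]
          intro h
          apply hz
          rw [SimpleGraph.mem_neighborFinset, ← h]
          exact (hf z).symm
    _ = (d : ENNReal) * ∑' z', S'.indicator g z' := ENNReal.tsum_mul_left

theorem lay_disj (h : V → ℝ) (a T : ℝ) : Disjoint (lay h a T) (abv h T) := by
  rw [Set.disjoint_left]
  intro y hy hy2
  have h1 : h y < T := hy.2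
  have h2 : T ≤ h y := hy2
  linarith

/-- the magnetisation near the bottom of a slab -/
theorem mag_bottom {G : SimpleGraph V} [G.LocallyFinite] {h : V → ℝ} {τ p t α : ℝ}
    (tt : TTA G p) (mm : MMA G p) (hτ : 0 < τ) (ht0 : 0 < t) (htp : t ≤ th p)
    (hST : Bd h (ST G p h) 1 α) {z z' : V} (hz' : G.Adj z z') (hzz : h z' = h z - τ)
    {b T : ℝ} (hb : h z' < b) (hzT : h z < T) :
    MM G p (lay h b T) (abv h T) z ≤ ENNReal.ofReal (Real.exp (-α * (T - h z')) / t) := by
  apply le_div ht0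
  have hzR : z ∈ lay h (h z') T := ⟨by rw [hzz]; linarith, hzT⟩
  have h1 := mm.mul (lay h (h z') T) (abv h T) z' z (lay_disj h _ T)
  have h2 := tt.edge (lay h (h z') T) z' z ⟨le_refl _, by rw [hzz]; linarith⟩ hzR hz'.symm
  have h3 : MM G p (lay h b T) (abv h T) z ≤ MM G p (lay h (h z') T) (abv h T) z := by
    apply mm.mono _ _ _ _ (Set.Subset.refl _) _ (lay_disj h _ T) z hzR
    intro v hv
    exact Or.inl ⟨by have := hv.1; linarith, hv.2⟩
  have h4 := hST T z'
  rw [one_mul] at h4
  exact (mul_le_mul' ((ENNReal.ofReal_le_ofReal htp).trans h2) h3).trans (h1.trans h4)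

/-- one step down for the two point function -/
theorem tt_down {G : SimpleGraph V} [G.LocallyFinite] {h : V → ℝ} {τ p t : ℝ}
    (tt : TTA G p) (hτ : 0 < τ) (ht0 : 0 < t) (htp : t ≤ th p)
    {x z z' : V} (hz' : G.Adj z z') (hzz : h z' = h z - τ) {b T : ℝ} (hb : h z' < b) :
    TT G p (lay h b T) x z ≤ ENNReal.ofReal (1 / t) * TT G p (abv h (h z')) x z' := by
  have h1 : TT G p (lay h b T) x z ≤ TT G p (abv h (h z')) x z := by
    apply tt.mono
    intro v hv
    have := hv.1
    show h z' ≤ h v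
    linarith
  have h2 := tt.edge (abv h (h z')) z z' (by show h z' ≤ h z; rw [hzz]; linarith)
    (le_refl (h z')) hz'
  have h3 := tt.mul (abv h (h z')) x z z'
  have h4 : ENNReal.ofReal t * TT G p (lay h b T) x z ≤ TT G p (abv h (h z')) x z' := by
    rw [mul_comm]
    exact (mul_le_mul' h1 ((ENNReal.ofReal_le_ofReal htp).trans h2)).trans h3
  have h5 : TT G p (lay h b T) x z =
      ENNReal.ofReal (1 / t) * (ENNReal.ofReal t * TT G p (lay h b T) x z) := by
    rw [← mul_assoc, ← ENNReal.ofReal_mul (by positivity), one_div,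
      inv_mul_cancel₀ ht0.ne', ENNReal.ofReal_one, one_mul]
  rw [h5]
  exact mul_le_mul_right h4 _

/-- the mass transport step -/
theorem mass {G : SimpleGraph V} [G.LocallyFinite] {h : V → ℝ} {τ p A c : ℝ}
    (tt : TTA G p) (hτ : 0 < τ) (hA : 0 ≤ A) (hc : 0 < c)
    (hMT : ∀ (ϕ : ℝ → ENNReal) (r : ℝ) (x : V),
      (∑' z, TT G p (abv h (h z + r)) x z * ϕ (h z - h x) =
      ∑' z, TT G p (abv h (h x + r)) z x * ϕ (h x - h z) *
        ENNReal.ofReal (Real.exp (h z - h x))))
    (hUT : Bd h (UT G p h τ) A c) (x : V) {u : ℝ} :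
    ∑' z, (lay h (h x - u - τ) (h x - u)).indicator (fun z => TT G p (abv h (h z)) x z *
      ENNReal.ofReal (Real.exp (h z - h x))) z ≤
      ENNReal.ofReal (2 * A * Real.exp (-c * u)) := by
  set ϕ : ℝ → ENNReal := fun s =>
    if -u - τ ≤ s ∧ s < -u then ENNReal.ofReal (Real.exp s) else 0 with hϕ
  have e1 : ∑' z, (lay h (h x - u - τ) (h x - u)).indicator (fun z => TT G p (abv h (h z)) x z *
      ENNReal.ofReal (Real.exp (h z - h x))) z =
      ∑' z, TT G p (abv h (h z + 0)) x z * ϕ (h z - h x) := by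
    refine tsum_congr fun z => ?_
    rw [add_zero]
    by_cases hz : z ∈ lay h (h x - u - τ) (h x - u)
    · rw [Set.indicator_of_mem hz, hϕ]
      simp only
      rw [if_pos ⟨by have := hz.1; linarith, by have := hz.2; linarith⟩]
    · rw [Set.indicator_of_notMem hz, hϕ]
      simp only
      rw [if_neg, mul_zero]
      rintro ⟨h1, h2⟩
      exact hz ⟨by linarith, by linarith⟩
  rw [e1, hMT ϕ 0 x]
  have e2 : ∀ z, TT G p (abv h (h x + 0)) z x * ϕ (h x - h z) *
      ENNReal.ofReal (Real.exp (h z - h x)) ≤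
      (lay h (h x + u + τ - τ) (h x + u + τ)).indicator (fun y => TT G p (abv h (h x)) x y) z +
      (lay h (h x + u + 2 * τ - τ) (h x + u + 2 * τ)).indicator
        (fun y => TT G p (abv h (h x)) x y) z := by
    intro z
    rw [add_zero, hϕ]
    simp only
    by_cases hz : -u - τ ≤ h x - h z ∧ h x - h z < -u
    · rw [if_pos hz, mul_assoc, ← ENNReal.ofReal_mul (Real.exp_pos _).le, ← Real.exp_add,
        show h x - h z + (h z - h x) = 0 by ring, Real.exp_zero, ENNReal.ofReal_one, mul_one,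
        tt.symm]
      by_cases hz2 : h z < h x + u + τ
      · rw [Set.indicator_of_mem (show z ∈ lay h (h x + u + τ - τ) (h x + u + τ) from
          ⟨by linarith [hz.2], hz2⟩)]
        exact le_self_add
      · rw [Set.indicator_of_mem (show z ∈ lay h (h x + u + 2 * τ - τ) (h x + u + 2 * τ) from
          ⟨by linarith, by linarith [hz.1]⟩)]
        exact le_add_self
    · rw [if_neg hz, mul_zero, zero_mul]
      exact zero_le
  refine (ENNReal.tsum_le_tsum e2).trans ?_
  rw [ENNReal.tsum_add]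
  have b1 := hUT (h x + u + τ) x
  have b2 := hUT (h x + u + 2 * τ) x
  refine (add_le_add b1 b2).trans ?_
  rw [← ENNReal.ofReal_add (by positivity) (by positivity)]
  apply ENNReal.ofReal_le_ofReal
  have f1 : Real.exp (-c * (h x + u + τ - h x)) ≤ Real.exp (-c * u) := by
    apply Real.exp_le_exp.2
    nlinarith
  have f2 : Real.exp (-c * (h x + u + 2 * τ - h x)) ≤ Real.exp (-c * u) := by
    apply Real.exp_le_exp.2
    nlinarith
  have g1 := mul_le_mul_of_nonneg_left f1 hA
  have g2 := mul_le_mul_of_nonneg_left f2 hA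
  linarith

end THBM

open THBM in
theorem specTHB (hLPD : SpecLPD) (hMTI : SpecMTI) (hIMA : SpecIMA) (hITA : SpecITA) :
    SpecTHB := by
  intro Γ V _ _ G _ h τ d p₀ hcx c hc
  have hτ := hcx.ht.pos
  set t := th p₀ with htdef
  have ht0 : 0 < t := th_pos hcx.ppos hcx.plt.le
  have ht1 : t < 1 := th_lt_one hcx.plt
  set l := Real.log (1 / t) with hl
  have hl0 : 0 < l := Real.log_pos (by rw [lt_div_iff₀ ht0]; linarith)
  set κ := l / τ with hκ
  have hκ0 : 0 < κ := by positivity
  set q := Real.exp (-c * τ) with hq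
  have hq0 : 0 < q := Real.exp_pos _
  have hq1 : q < 1 := by
    rw [hq, Real.exp_lt_one_iff]
    nlinarith
  set C₂ := 2 * (d : ℝ) / t ^ 2 / (1 - q) with hC₂
  have hC₂0 : 0 ≤ C₂ := by
    have : 0 < 1 - q := by linarith
    positivity
  refine ⟨1 / t + C₂, κ / (κ + c), ?_, by positivity, ?_, ?_⟩
  · have : 1 ≤ 1 / t := by rw [le_div_iff₀ ht0]; linarith
    linarith
  · rw [div_lt_one (by positivity)]; linarith
  intro p hp hp1 A α hA hα hST hUT T x
  have tt := hITA V G p (hcx.ppos.le.trans hp) hp1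
  have mm := hIMA V G p (hcx.ppos.le.trans hp) hp1
  have htp : t ≤ th p := th_mono hp hp1
  by_cases hT : T ≤ h x
  · unfold AT
    rw [mm.out _ _ x (by show ¬ h x < T; linarith)]
    exact zero_le
  push Not at hT
  have hA0 : 0 < A := by linarith
  have hlA : 0 ≤ Real.log A := Real.log_nonneg hA
  set ℓ := Real.log A / (κ + c) with hℓ
  have hℓ0 : 0 ≤ ℓ := by positivity
  set ω := κ / (κ + c) with hω
  have eA1 : Real.exp (κ * ℓ) = A ^ ω := by
    rw [Real.rpow_def_of_pos hA0, hℓ, hω]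
    congr 1
    ring
  have eA2 : A * Real.exp (-c * ℓ) = A ^ ω := by
    rw [Real.rpow_def_of_pos hA0]
    nth_rewrite 1 [← Real.exp_log hA0]
    rw [← Real.exp_add, hℓ, hω]
    congr 1
    have : κ + c ≠ 0 := by positivity
    field_simp
    ring
  choose dn hdn hdn2 using hcx.ht.dn
  -- first term
  have first : MM G p (lay h (h x - ℓ) T) (abv h T) x ≤
      ENNReal.ofReal (1 / t * A ^ ω * Real.exp (-α * (T - h x))) := by
    set n := ⌈ℓ / τ⌉₊ with hn
    have hn1 : ℓ ≤ n * τ := by
      have := Nat.le_ceil (ℓ / τ)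
      rwa [div_le_iff₀ hτ] at this
    have hn2 : (n : ℝ) ≤ ℓ / τ + 1 := (Nat.ceil_lt_add_one (by positivity)).le
    obtain ⟨z, hz, hzT⟩ := down_path tt hcx.ht.dn hτ ht0.le htp n x
    have hzx : h z ≤ h x := by rw [hz]; nlinarith [Nat.cast_nonneg (α := ℝ) n]
    have h1 := mm.mul (lay h (h z) T) (abv h T) z x (lay_disj h _ T)
    have h3 : MM G p (lay h (h x - ℓ) T) (abv h T) x ≤ MM G p (lay h (h z) T) (abv h T) x := by
      apply mm.mono _ _ _ _ (Set.Subset.refl _) _ (lay_disj h _ T) x ⟨hzx, hT⟩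
      intro v hv
      exact Or.inl ⟨by have := hv.1; rw [hz]; linarith, hv.2⟩
    have h4 := hST T z
    rw [one_mul] at h4
    have h5 := le_div (pow_pos ht0 n) ((mul_le_mul' (hzT T hT) h3).trans (h1.trans h4))
    refine h5.trans (ENNReal.ofReal_le_ofReal ?_)
    have f1 : Real.exp (-α * (T - h z)) ≤ Real.exp (-α * (T - h x)) := by
      apply Real.exp_le_exp.2
      nlinarith
    have f2 : 1 / t ^ n ≤ 1 / t * A ^ ω := by
      have e1 : 1 / t = Real.exp l := by rw [hl, Real.exp_log (by positivity)]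
      have e2 : 1 / t ^ n = Real.exp (n * l) := by
        rw [Real.exp_nat_mul, ← e1, one_div, one_div, inv_pow]
      rw [e2, ← eA1, e1, ← Real.exp_add]
      apply Real.exp_le_exp.2
      have := mul_le_mul_of_nonneg_right hn2 hl0.le
      have e3 : (ℓ / τ + 1) * l = l + κ * ℓ := by rw [hκ]; ring
      linarith
    calc Real.exp (-α * (T - h z)) / t ^ n = 1 / t ^ n * Real.exp (-α * (T - h z)) := by ring
      _ ≤ 1 / t * A ^ ω * Real.exp (-α * (T - h x)) :=
          mul_le_mul f2 f1 (Real.exp_pos _).le (by positivity)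
  -- the layers
  have hMT := fun (ϕ : ℝ → ENNReal) (r : ℝ) (y : V) =>
    (hMTI Γ V G h τ p hcx.ht (hcx.ppos.le.trans hp) hp1 ϕ r y).2.1
  set D := Real.exp (-α * (T - h x)) / t ^ 2 with hD
  have hD0 : 0 ≤ D := by positivity
  have layer : ∀ i : ℕ, sm (lay h (h x - ℓ - (i + 1) * τ) (h x - ℓ - i * τ)) (fun z =>
        TT G p (lay h (h x - ℓ - (i + 1) * τ) T) x z *
          MM G p (lay h (h x - ℓ - (i + 1) * τ) T) (abv h T) z) ≤
      ENNReal.ofReal (D * d * (2 * A * Real.exp (-c * ℓ)) * q ^ i) := by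
    intro i
    have hi : 0 ≤ (i : ℝ) * τ := by positivity
    set b := h x - ℓ - (i + 1) * τ with hb
    have hbi : h x - ℓ - i * τ = b + τ := by rw [hb]; ring
    rw [hbi]
    have s1 : sm (lay h b (b + τ)) (fun z => TT G p (lay h b T) x z *
          MM G p (lay h b T) (abv h T) z) ≤
        ∑' z, (lay h b (b + τ)).indicator (fun z => ENNReal.ofReal D *
          (TT G p (abv h (h (dn z))) x (dn z) *
            ENNReal.ofReal (Real.exp (h (dn z) - h x)))) z := by
      unfold sm
      refine ENNReal.tsum_le_tsum fun z => ?_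
      by_cases hz : z ∈ lay h b (b + τ)
      · rw [Set.indicator_of_mem hz, Set.indicator_of_mem hz]
        have hz1 : b ≤ h z := hz.1
        have hz2 : h z < b + τ := hz.2
        have hdb : h (dn z) < b := by rw [hdn2]; linarith
        have hzT : h z < T := by
          have : b + τ ≤ h x := by rw [← hbi]; linarith
          linarith
        have hdx : h (dn z) ≤ h x := by
          rw [hb] at hdb; nlinarith
        have m1 := mag_bottom tt mm hτ ht0 htp hST (hdn z) (hdn2 z) hdb hzT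
        have m2 := tt_down (x := x) (T := T) tt hτ ht0 htp (hdn z) (hdn2 z) hdb
        refine (mul_le_mul' m2 m1).trans ?_
        have e1 : ENNReal.ofReal (1 / t) * TT G p (abv h (h (dn z))) x (dn z) *
            ENNReal.ofReal (Real.exp (-α * (T - h (dn z))) / t) =
            ENNReal.ofReal (1 / t * (Real.exp (-α * (T - h (dn z))) / t)) *
              TT G p (abv h (h (dn z))) x (dn z) := by
          rw [ENNReal.ofReal_mul (by positivity)]; ring
        rw [e1]
        have e2 : ENNReal.ofReal D * (TT G p (abv h (h (dn z))) x (dn z) *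
            ENNReal.ofReal (Real.exp (h (dn z) - h x))) =
            ENNReal.ofReal (D * Real.exp (h (dn z) - h x)) *
              TT G p (abv h (h (dn z))) x (dn z) := by
          rw [ENNReal.ofReal_mul hD0]; ring
        rw [e2]
        apply mul_le_mul_left
        apply ENNReal.ofReal_le_ofReal
        have e3 : Real.exp (-α * (T - h (dn z))) ≤
            Real.exp (-α * (T - h x)) * Real.exp (h (dn z) - h x) := by
          rw [← Real.exp_add]
          apply Real.exp_le_exp.2
          nlinarith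
        rw [hD]
        calc 1 / t * (Real.exp (-α * (T - h (dn z))) / t)
            = Real.exp (-α * (T - h (dn z))) / t ^ 2 := by field_simp
          _ ≤ (Real.exp (-α * (T - h x)) * Real.exp (h (dn z) - h x)) / t ^ 2 := by gcongr
          _ = Real.exp (-α * (T - h x)) / t ^ 2 * Real.exp (h (dn z) - h x) := by ring
      · rw [Set.indicator_of_notMem hz]
        exact zero_le
    refine s1.trans ?_
    have s2 := push_sum G hcx.deg dn hdn (fun z' => ENNReal.ofReal D *
          (TT G p (abv h (h z')) x z' * ENNReal.ofReal (Real.exp (h z' - h x))))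
      (lay h b (b + τ)) (lay h (h x - (ℓ + (i + 1) * τ) - τ) (h x - (ℓ + (i + 1) * τ)))
      (fun z hz => by
        have hz1 : b ≤ h z := hz.1
        have hz2 : h z < b + τ := hz.2
        rw [hb] at hz1 hz2
        refine ⟨?_, ?_⟩
        · rw [hdn2]; linarith
        · rw [hdn2]; linarith)
    refine s2.trans ?_
    have s3 : ∑' z', (lay h (h x - (ℓ + (i + 1) * τ) - τ) (h x - (ℓ + (i + 1) * τ))).indicator
        (fun z' => ENNReal.ofReal D * (TT G p (abv h (h z')) x z' *
          ENNReal.ofReal (Real.exp (h z' - h x)))) z' =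
        ENNReal.ofReal D * ∑' z', (lay h (h x - (ℓ + (i + 1) * τ) - τ)
          (h x - (ℓ + (i + 1) * τ))).indicator
        (fun z' => (TT G p (abv h (h z')) x z' *
          ENNReal.ofReal (Real.exp (h z' - h x)))) z' := by
      rw [← ENNReal.tsum_mul_left]
      refine tsum_congr fun z' => ?_
      by_cases hz : z' ∈ lay h (h x - (ℓ + (i + 1) * τ) - τ) (h x - (ℓ + (i + 1) * τ))
      · rw [Set.indicator_of_mem hz, Set.indicator_of_mem hz]
      · rw [Set.indicator_of_notMem hz, Set.indicator_of_notMem hz, mul_zero]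
    rw [s3]
    have s4 := mass (u := ℓ + (i + 1) * τ) tt hτ hA0.le hc hMT hUT x
    refine (mul_le_mul_right (mul_le_mul_right s4 _) _).trans ?_
    rw [← ENNReal.ofReal_mul hD0, ← ENNReal.ofReal_natCast d,
      ← ENNReal.ofReal_mul (Nat.cast_nonneg d)]
    apply ENNReal.ofReal_le_ofReal
    have e4 : Real.exp (-c * (ℓ + (i + 1) * τ)) ≤ Real.exp (-c * ℓ) * q ^ i := by
      rw [hq, ← Real.exp_nat_mul, ← Real.exp_add]
      apply Real.exp_le_exp.2
      nlinarith [mul_pos hc hτ]
    have e5 := mul_le_mul_of_nonneg_left e4 (by positivity : 0 ≤ D * d * (2 * A))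
    calc (d : ℝ) * (D * (2 * A * Real.exp (-c * (ℓ + (i + 1) * τ))))
        = D * d * (2 * A) * Real.exp (-c * (ℓ + (i + 1) * τ)) := by ring
      _ ≤ D * d * (2 * A) * (Real.exp (-c * ℓ) * q ^ i) := e5
      _ = D * d * (2 * A * Real.exp (-c * ℓ)) * q ^ i := by ring
  -- sum
  have main := hLPD V G h τ p hτ (hcx.ppos.le.trans hp) hp1 (h x - ℓ) T x
  unfold AT
  refine main.trans ?_
  have sumb : ∑' i : ℕ, sm (lay h (h x - ℓ - (i + 1) * τ) (h x - ℓ - i * τ)) (fun z =>
        TT G p (lay h (h x - ℓ - (i + 1) * τ) T) x z *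
          MM G p (lay h (h x - ℓ - (i + 1) * τ) T) (abv h T) z) ≤
      ENNReal.ofReal (C₂ * A ^ ω * Real.exp (-α * (T - h x))) := by
    refine (ENNReal.tsum_le_tsum layer).trans ?_
    rw [← ENNReal.ofReal_tsum_of_nonneg (fun i => by positivity)
      ((summable_geometric_of_lt_one hq0.le hq1).mul_left _), tsum_mul_left,
      tsum_geometric_of_lt_one hq0.le hq1]
    apply ENNReal.ofReal_le_ofReal
    apply le_of_eq
    rw [← eA2, hC₂, hD]
    have : 1 - q ≠ 0 := by linarith
    field_simp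
  refine (add_le_add first sumb).trans ?_
  rw [← ENNReal.ofReal_add (by positivity) (by positivity)]
  apply ENNReal.ofReal_le_ofReal
  apply le_of_eq
  ring

end NU

end MP8622
end

section
set_option autoImplicit false

open Classical Filter Topology

/-!
# ALP: the rate of the slab magnetisation
-/

namespace MP8622

namespace NU

namespace ALPM

open THBM

variable {V : Type}

theorem ST_inv {Γ : Type} [Group Γ] [MulAction Γ V] {G : SimpleGraph V} [G.LocallyFinite]
    {h : V → ℝ} {τ p : ℝ} (ht : HT Γ G h τ) (mm : MMA G p) (x y : V) (t : ℝ) :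
    ST G p h (h x + t) x = ST G p h (h y + t) y := by
  obtain ⟨γ, rfl⟩ := ht.tra x y
  have hg : IsAut G (MulAction.toPerm γ : Equiv.Perm V) := fun a b => ht.aut γ a b
  have key := mm.inv (MulAction.toPerm γ : Equiv.Perm V) hg (lay h (h x) (h x + t))
    (abv h (h x + t)) x
  have hh : ∀ v : V, h (γ⁻¹ • v) - h x = h v - h (γ • x) := by
    intro v
    have := ht.eqv γ x (γ⁻¹ • v)
    rw [smul_inv_smul] at this
    exact this.symm
  have e1 : (MulAction.toPerm γ : Equiv.Perm V) '' (lay h (h x) (h x + t)) =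
      lay h (h (γ • x)) (h (γ • x) + t) := by
    rw [Equiv.image_eq_preimage_symm]
    ext v
    have h1 := hh v
    show (h x ≤ h (γ⁻¹ • v) ∧ h (γ⁻¹ • v) < h x + t) ↔
      (h (γ • x) ≤ h v ∧ h v < h (γ • x) + t)
    constructor
    · rintro ⟨a, b⟩; exact ⟨by linarith, by linarith⟩
    · rintro ⟨a, b⟩; exact ⟨by linarith, by linarith⟩
  have e2 : (MulAction.toPerm γ : Equiv.Perm V) '' (abv h (h x + t)) =
      abv h (h (γ • x) + t) := by
    rw [Equiv.image_eq_preimage_symm]
    ext v
    have h1 := hh v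
    show (h x + t ≤ h (γ⁻¹ • v)) ↔ (h (γ • x) + t ≤ h v)
    constructor
    · intro a; linarith
    · intro a; linarith
  rw [e1, e2] at key
  exact key.symm

theorem up_path {G : SimpleGraph V} [G.LocallyFinite] {h : V → ℝ} {τ p t : ℝ}
    (tt : TTA G p) (hup : ∀ x : V, ∃ y, G.Adj x y ∧ h y = h x + τ) (hτ : 0 < τ) (ht0 : 0 ≤ t)
    (htp : t ≤ th p) (n : ℕ) : ∀ x : V, ∃ z : V, h z = h x + n * τ ∧
      ∀ T : ℝ, h z < T → ENNReal.ofReal (t ^ n) ≤ TT G p (lay h (h x) T) x z := by
  induction n with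
  | zero =>
    intro x
    refine ⟨x, by simp, fun T hT => ?_⟩
    rw [tt.self (lay h (h x) T) x ⟨le_refl _, hT⟩]
    simp
  | succ n ih =>
    intro x
    obtain ⟨z, hz, hzT⟩ := ih x
    obtain ⟨y, hy, hyz⟩ := hup z
    refine ⟨y, by rw [hyz, hz]; push_cast; ring, fun T hT => ?_⟩
    have hn : 0 ≤ (n : ℝ) * τ := by positivity
    have hzx : h z < T := by rw [hyz] at hT; linarith
    have h1 := tt.mul (lay h (h x) T) x z y
    have h2 := tt.edge (lay h (h x) T) z y ⟨by rw [hz]; linarith, hzx⟩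
      ⟨by rw [hyz, hz]; linarith, hT⟩ hy
    refine le_trans ?_ h1
    rw [pow_succ, ENNReal.ofReal_mul (pow_nonneg ht0 n)]
    exact mul_le_mul' (hzT T hzx) ((ENNReal.ofReal_le_ofReal htp).trans h2)

/-- lower bound for the slab magnetisation -/
theorem low {G : SimpleGraph V} [G.LocallyFinite] {h : V → ℝ} {τ p t : ℝ}
    (tt : TTA G p) (mm : MMA G p) (hup : ∀ x : V, ∃ y, G.Adj x y ∧ h y = h x + τ)
    (hτ : 0 < τ) (ht0 : 0 ≤ t) (htp : t ≤ th p) (x : V) (T : ℝ) (hT : h x < T) :
    ENNReal.ofReal (t ^ ⌈(T - h x) / τ⌉₊) ≤ ST G p h T x := by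
  have hu : 0 < (T - h x) / τ := div_pos (by linarith) hτ
  have hN1 := Nat.le_ceil ((T - h x) / τ)
  have hN2 := Nat.ceil_lt_add_one hu.le
  obtain ⟨M, hM⟩ : ∃ M, ⌈(T - h x) / τ⌉₊ = M + 1 :=
    ⟨⌈(T - h x) / τ⌉₊ - 1, by have := Nat.ceil_pos.2 hu; omega⟩
  rw [hM] at hN1 hN2 ⊢
  push_cast at hN1 hN2
  rw [div_le_iff₀ hτ] at hN1
  have hN3 : (M : ℝ) * τ < T - h x := by
    have : (M : ℝ) < (T - h x) / τ := by linarith
    rwa [lt_div_iff₀ hτ] at this
  obtain ⟨z, hz, hzT⟩ := up_path tt hup hτ ht0 htp M x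
  obtain ⟨y, hy, hyz⟩ := hup z
  have hM0 : 0 ≤ (M : ℝ) * τ := by positivity
  have hzT' : h z < T := by rw [hz]; linarith
  have hyT : T ≤ h y := by rw [hyz, hz]; linarith
  have h1 := mm.mul (lay h (h x) T) (abv h T) x z (lay_disj h _ T)
  have h2 := mm.bdry (lay h (h x) T) (abv h T) z y ⟨by rw [hz]; linarith, hzT'⟩ hyT
    (fun hh => by have := hh.2; linarith) hy
  refine le_trans ?_ h1
  rw [pow_succ, ENNReal.ofReal_mul (pow_nonneg ht0 M)]
  exact mul_le_mul' (hzT T hzT') ((ENNReal.ofReal_le_ofReal htp).trans h2)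

/-- supermultiplicativity -/
theorem smul {Γ : Type} [Group Γ] [MulAction Γ V] (hISM : SpecISM) {G : SimpleGraph V}
    [G.LocallyFinite] {h : V → ℝ} {τ p : ℝ} (ht : HT Γ G h τ) (mm : MMA G p) (hp0 : 0 ≤ p)
    (hp1 : p ≤ 1) (o : V) {s t : ℝ} (hs : 0 < s) (htt : 0 < t) :
    ST G p h (h o + t) o * ST G p h (h o + s) o ≤ ST G p h (h o + (s + t)) o := by
  have hd : ∀ a b c : ℝ, b ≤ c → Disjoint (lay h a b) (abv h c) := by
    intro a b c hbc
    rw [Set.disjoint_left]
    intro y hy hy2
    have h1 : h y < b := hy.2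
    have h2 : c ≤ h y := hy2
    linarith
  have key := hISM V G p hp0 hp1 (lay h (h o) (h o + s)) (lay h (h o + s) (h o + (s + t)))
    (abv h (h o + (s + t))) (ST G p h (h o + t) o) ?_ (hd _ _ _ (by linarith))
    (hd _ _ _ (le_refl _)) (mm.le_one _ _ _) ?_ o ⟨le_refl _, by linarith⟩
  · have e1 : lay h (h o + s) (h o + (s + t)) ∪ abv h (h o + (s + t)) = abv h (h o + s) := by
      ext y
      show ((h o + s ≤ h y ∧ h y < h o + (s + t)) ∨ h o + (s + t) ≤ h y) ↔ h o + s ≤ h y
      constructor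
      · rintro (a | a)
        · exact a.1
        · linarith
      · intro a
        by_cases b : h y < h o + (s + t)
        · exact Or.inl ⟨a, b⟩
        · exact Or.inr (by linarith)
    have e2 : lay h (h o) (h o + s) ∪ lay h (h o + s) (h o + (s + t)) =
        lay h (h o) (h o + (s + t)) := by
      ext y
      show ((h o ≤ h y ∧ h y < h o + s) ∨ (h o + s ≤ h y ∧ h y < h o + (s + t))) ↔
        (h o ≤ h y ∧ h y < h o + (s + t))
      constructor
      · rintro (a | a)
        · exact ⟨a.1, by linarith [a.2]⟩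
        · exact ⟨by linarith [a.1], a.2⟩
      · rintro ⟨a, b⟩
        by_cases c : h y < h o + s
        · exact Or.inl ⟨a, c⟩
        · exact Or.inr ⟨by linarith, b⟩
    rw [e1, e2] at key
    exact key
  · rw [Set.disjoint_left]
    intro y hy hy2
    have h1 : h y < h o + s := hy.2
    have h2 : h o + s ≤ h y := hy2.1
    linarith
  · intro b hb _
    rw [ST_inv ht mm o b t]
    have hb1 : h o + s ≤ h b := hb.1
    apply mm.mono
    · intro v hv
      have : h b + t ≤ h v := hv
      show h o + (s + t) ≤ h v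
      linarith
    · intro v hv
      have h1 : h b ≤ h v := hv.1
      by_cases c : h v < h o + (s + t)
      · exact Or.inl ⟨by linarith, c⟩
      · exact Or.inr (by show h o + (s + t) ≤ h v; linarith)
    · exact hd _ _ _ (le_refl _)
    · exact hb

/-- upper bound with the susceptibility -/
theorem upp {Γ : Type} [Group Γ] [MulAction Γ V] (hIMU : SpecIMU) {G : SimpleGraph V}
    [G.LocallyFinite] {h : V → ℝ} {τ p : ℝ} {d : ℕ} (ht : HT Γ G h τ) (hp0 : 0 ≤ p)
    (hp1 : p ≤ 1) (tt : TTA G p) (hdeg : ∀ x : V, (G.neighborFinset x).card ≤ d) (x : V)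
    (T : ℝ) : ST G p h T x ≤ (d : ENNReal) * GT G p h τ T x := by
  have key := hIMU V G d p hp0 hp1 hdeg (lay h (h x) T) (abv h T) x (lay_disj h _ T)
  refine key.trans (mul_le_mul_right ?_ _)
  unfold GT sm
  refine ENNReal.tsum_le_tsum fun y => ?_
  by_cases hy : y ∈ {y | ∃ z ∈ abv h T, G.Adj y z}
  · rw [Set.indicator_of_mem hy]
    by_cases hyR : y ∈ lay h (h x) T
    · obtain ⟨z, hz, hyz⟩ := hy
      have h1 : T ≤ h z := hz
      have h2 := ht.lip y z hyz
      have h3 : h z - h y ≤ τ := (le_abs_self _).trans h2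
      rw [Set.indicator_of_mem (show y ∈ lay h (T - τ) T from ⟨by linarith, hyR.2⟩)]
    · rw [tt.out _ x y (Or.inr hyR)]
      exact zero_le
  · rw [Set.indicator_of_notMem hy]
    exact zero_le

/-- a bounded sequence of powers -/
theorem pow_bdd {a C : ℝ} (h : ∀ n : ℕ, a ^ n ≤ C) : a ≤ 1 := by
  by_contra hn
  push Not at hn
  obtain ⟨n, hn2⟩ := pow_unbounded_of_one_lt C hn
  exact absurd (h n) (not_le.2 hn2)

end ALPM

open THBM ALPM in
theorem specALP (hISM : SpecISM) (hIMA : SpecIMA) (hIMU : SpecIMU) (hFCH : SpecFCH)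
    (hITA : SpecITA) : SpecALP := by
  intro Γ V _ _ G _ h τ d p₀ hcx pc hpc hpc1 hchi
  have ht := hcx.ht
  have hτ := ht.pos
  obtain ⟨o⟩ := hcx.conn.nonempty
  set t₀ := th p₀ with ht₀
  have ht0 : 0 < t₀ := th_pos hcx.ppos hcx.plt.le
  have ht1 : t₀ < 1 := th_lt_one hcx.plt
  have pz : ∀ p, p₀ ≤ p → 0 ≤ p := fun p hp => hcx.ppos.le.trans hp
  have hTT : ∀ p, p₀ ≤ p → p < pc → TTA G p := fun p hp hp' =>
    hITA V G p (pz p hp) (hp'.le.trans hpc1)
  have hMM : ∀ p, p₀ ≤ p → p < pc → MMA G p := fun p hp hp' =>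
    hIMA V G p (pz p hp) (hp'.le.trans hpc1)
  set S : ℝ → ℝ → ENNReal := fun p t => ST G p h (h o + t) o with hS
  have hSx : ∀ p, p₀ ≤ p → p < pc → ∀ (x : V) (T : ℝ), ST G p h T x = S p (T - h x) := by
    intro p hp hp' x T
    have := ST_inv ht (hMM p hp hp') x o (T - h x)
    rw [add_sub_cancel] at this
    exact this
  have hSle : ∀ p, p₀ ≤ p → p < pc → ∀ t, S p t ≤ 1 := fun p hp hp' t =>
    (hMM p hp hp').le_one _ _ _
  have hSne : ∀ p, p₀ ≤ p → p < pc → ∀ t, S p t ≠ ⊤ := fun p hp hp' t =>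
    ne_top_of_le_ne_top ENNReal.one_ne_top (hSle p hp hp' t)
  have hlow : ∀ p, p₀ ≤ p → p < pc → ∀ t, 0 < t → ENNReal.ofReal (t₀ ^ ⌈t / τ⌉₊) ≤ S p t := by
    intro p hp hp' t htt
    have := low (hTT p hp hp') (hMM p hp hp') ht.up hτ ht0.le
      (th_mono hp (hp'.le.trans hpc1)) o (h o + t) (by linarith)
    rwa [add_sub_cancel_left] at this
  have hmul : ∀ p, p₀ ≤ p → p < pc → ∀ s t, 0 < s → 0 < t → S p t * S p s ≤ S p (s + t) :=
    fun p hp hp' s t hs htt =>
      ALPM.smul hISM ht (hMM p hp hp') (pz p hp) (hp'.le.trans hpc1) o hs htt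
  have hiter : ∀ p, p₀ ≤ p → p < pc → ∀ t₁ ρ, 0 < t₁ → 0 < ρ → ∀ n : ℕ,
      S p t₁ ^ n * S p ρ ≤ S p (ρ + n * t₁) := by
    intro p hp hp' t₁ ρ ht₁ hρ n
    induction n with
    | zero => simp
    | succ n ih =>
      have hn : 0 ≤ (n : ℝ) * t₁ := by positivity
      have h1 := hmul p hp hp' (ρ + n * t₁) t₁ (by linarith) ht₁
      calc S p t₁ ^ (n + 1) * S p ρ = S p t₁ * (S p t₁ ^ n * S p ρ) := by ring
        _ ≤ S p t₁ * S p (ρ + n * t₁) := mul_le_mul_right ih _
        _ ≤ S p (ρ + n * t₁ + t₁) := h1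
        _ = S p (ρ + ((n + 1 : ℕ) : ℝ) * t₁) := by
          congr 1; push_cast; ring
  -- real version
  set r : ℝ → ℝ → ℝ := fun p t => (S p t).toReal with hr
  have hrS : ∀ p, p₀ ≤ p → p < pc → ∀ t, S p t = ENNReal.ofReal (r p t) := fun p hp hp' t =>
    (ENNReal.ofReal_toReal (hSne p hp hp' t)).symm
  have hrlow : ∀ p, p₀ ≤ p → p < pc → ∀ t, 0 < t → t₀ ^ ⌈t / τ⌉₊ ≤ r p t := by
    intro p hp hp' t htt
    have h1 := hlow p hp hp' t htt
    exact (ENNReal.ofReal_le_iff_le_toReal (hSne p hp hp' t)).1 h1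
  have hrpos : ∀ p, p₀ ≤ p → p < pc → ∀ t, 0 < t → 0 < r p t := fun p hp hp' t htt =>
    lt_of_lt_of_le (pow_pos ht0 _) (hrlow p hp hp' t htt)
  -- upper bound
  have hrupp : ∀ p, p₀ ≤ p → p < pc → ∀ t, 0 < t → r p t ≤ Real.exp (-t) := by
    intro p hp hp' t htt
    obtain ⟨X, hX0, hX⟩ := hchi p hp hp'
    have hG := (hFCH Γ V G h τ d p₀ hcx p X hp (hp'.le.trans hpc1) hX0 hX 1 zero_le_one
      (le_refl 1)).2.1
    set C := (d : ℝ) * (X * Real.exp τ) with hC
    have hC0 : 0 ≤ C := by positivity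
    have hb : ∀ u, 0 < u → r p u ≤ C * Real.exp (-u) := by
      intro u hu
      have h1 : S p u ≤ ENNReal.ofReal (C * Real.exp (-u)) := by
        refine (upp (τ := τ) hIMU ht (pz p hp) (hp'.le.trans hpc1) (hTT p hp hp') hcx.deg o
          (h o + u)).trans ?_
        refine (mul_le_mul_right (hG (h o + u) o) _).trans ?_
        rw [← ENNReal.ofReal_natCast d, ← ENNReal.ofReal_mul (Nat.cast_nonneg d)]
        apply ENNReal.ofReal_le_ofReal
        apply le_of_eq
        rw [hC, add_sub_cancel_left, neg_one_mul]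
        ring
      exact ENNReal.toReal_le_of_le_ofReal (by positivity) h1
    have hpw : ∀ n : ℕ, (r p t * Real.exp t) ^ n ≤ max 1 C := by
      intro n
      rcases Nat.eq_zero_or_pos n with rfl | hn
      · simp
      · obtain ⟨m, rfl⟩ : ∃ m, n = m + 1 := ⟨n - 1, by omega⟩
        have h1 := hiter p hp hp' t t htt htt m
        rw [← pow_succ] at h1
        have h2 : t + m * t = ((m + 1 : ℕ) : ℝ) * t := by push_cast; ring
        rw [h2, hrS p hp hp' t, hrS p hp hp' _, ← ENNReal.ofReal_pow (hrpos p hp hp' t htt).le]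
          at h1
        have hpos : 0 < ((m + 1 : ℕ) : ℝ) * t := by positivity
        have h3 : r p t ^ (m + 1) ≤ r p (((m + 1 : ℕ) : ℝ) * t) :=
          (ENNReal.ofReal_le_ofReal_iff (hrpos p hp hp' _ hpos).le).1 h1
        have h4 := h3.trans (hb _ hpos)
        rw [mul_pow, ← Real.exp_nat_mul]
        have h5 := mul_le_mul_of_nonneg_right h4 (Real.exp_pos (((m + 1 : ℕ) : ℝ) * t)).le
        rw [mul_assoc, ← Real.exp_add, neg_add_cancel, Real.exp_zero, mul_one] at h5
        exact h5.trans (le_max_right _ _)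
    have h6 := pow_bdd hpw
    rw [Real.exp_neg, ← one_div, le_div_iff₀ (Real.exp_pos t)]
    exact h6
  -- the rate
  set A : Set ℝ := {y | ∃ p t : ℝ, p₀ ≤ p ∧ p < pc ∧ 0 < t ∧ y = -Real.log (r p t) / t} with hA
  have hA1 : ∀ y ∈ A, 1 ≤ y := by
    rintro y ⟨p, t, hp, hp', htt, rfl⟩
    rw [le_div_iff₀ htt, one_mul]
    have h1 := Real.log_le_log (hrpos p hp hp' t htt) (hrupp p hp hp' t htt)
    rw [Real.log_exp] at h1
    linarith
  have hAne : A.Nonempty := ⟨_, p₀, 1, le_refl _, hpc, one_pos, rfl⟩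
  have hAbd : BddBelow A := ⟨1, fun y hy => hA1 y hy⟩
  refine ⟨sInf A, le_csInf hAne hA1, ?_, ?_⟩
  · intro p hp hp' T x
    by_cases hT : T ≤ h x
    · unfold ST
      rw [(hMM p hp hp').out _ _ x (fun hh => by have := hh.2; linarith)]
      exact zero_le
    · push Not at hT
      rw [hSx p hp hp' x T, one_mul, hrS p hp hp']
      apply ENNReal.ofReal_le_ofReal
      have htt : 0 < T - h x := by linarith
      have h1 : sInf A ≤ -Real.log (r p (T - h x)) / (T - h x) :=
        csInf_le hAbd ⟨p, T - h x, hp, hp', htt, rfl⟩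
      rw [le_div_iff₀ htt] at h1
      rw [← Real.log_le_iff_le_exp (hrpos p hp hp' _ htt)]
      linarith
  · intro η hη
    obtain ⟨y, ⟨p', t₁, hp, hp', ht₁, rfl⟩, hy⟩ := exists_lt_of_csInf_lt hAne
      (show sInf A < sInf A + η by linarith)
    refine ⟨p', t₀ ^ ⌈t₁ / τ⌉₊, hp, hp', pow_pos ht0 _, pow_le_one₀ ht0.le ht1.le, ?_⟩
    intro x T hxT
    rw [hSx p' hp hp' x T]
    set t := T - h x with htdef
    have htt : 0 < t := by linarith
    have hb0 : 0 < sInf A + η := by
      have := le_csInf hAne hA1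
      linarith
    have hr1 : Real.exp (-(sInf A + η) * t₁) ≤ r p' t₁ := by
      rw [div_lt_iff₀ ht₁] at hy
      rw [← Real.le_log_iff_exp_le (hrpos p' hp hp' t₁ ht₁)]
      linarith
    -- division with remainder
    have hu : 0 < t / t₁ := div_pos htt ht₁
    obtain ⟨n, hn⟩ : ∃ n, ⌈t / t₁⌉₊ = n + 1 :=
      ⟨⌈t / t₁⌉₊ - 1, by have := Nat.ceil_pos.2 hu; omega⟩
    have hN1 := Nat.le_ceil (t / t₁)
    have hN2 := Nat.ceil_lt_add_one hu.le
    rw [hn] at hN1 hN2
    push_cast at hN1 hN2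
    rw [div_le_iff₀ ht₁] at hN1
    have hN3 : (n : ℝ) * t₁ < t := by
      have : (n : ℝ) < t / t₁ := by linarith
      rwa [lt_div_iff₀ ht₁] at this
    set ρ := t - n * t₁ with hρ
    have hρ0 : 0 < ρ := by linarith
    have hρ1 : ρ ≤ t₁ := by linarith
    have h1 := hiter p' hp hp' t₁ ρ ht₁ hρ0 n
    have h2 : ρ + n * t₁ = t := by rw [hρ]; ring
    rw [h2] at h1
    refine le_trans ?_ h1
    have h3 : ENNReal.ofReal (Real.exp (-(sInf A + η) * (n * t₁))) ≤ S p' t₁ ^ n := by
      rw [hrS p' hp hp' t₁, ← ENNReal.ofReal_pow (hrpos p' hp hp' t₁ ht₁).le]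
      apply ENNReal.ofReal_le_ofReal
      have e : Real.exp (-(sInf A + η) * (n * t₁)) = Real.exp (-(sInf A + η) * t₁) ^ n := by
        rw [← Real.exp_nat_mul]; congr 1; ring
      rw [e]
      exact pow_le_pow_left₀ (Real.exp_pos _).le hr1 n
    have h4 : ENNReal.ofReal (t₀ ^ ⌈t₁ / τ⌉₊) ≤ S p' ρ := by
      refine le_trans (ENNReal.ofReal_le_ofReal ?_) (hlow p' hp hp' ρ hρ0)
      apply pow_le_pow_of_le_one ht0.le ht1.le
      exact Nat.ceil_mono (div_le_div_of_nonneg_right hρ1 hτ.le)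
    refine le_trans ?_ (mul_le_mul' h3 h4)
    rw [← ENNReal.ofReal_mul (Real.exp_pos _).le]
    apply ENNReal.ofReal_le_ofReal
    rw [mul_comm]
    apply mul_le_mul_of_nonneg_right _ (pow_pos ht0 _).le
    apply Real.exp_le_exp.2
    nlinarith

end NU

end MP8622
end

section
set_option autoImplicit false

open Classical Filter Topology

/-!
# MP_8622f1_pr, module BOO (helper30): the uniform bound
-/

namespace MP8622

namespace NU

namespace BOOM

theorem bd_mono {V : Type} {h : V → ℝ} {f : ℝ → V → ENNReal} {A B c : ℝ} (hAB : A ≤ B)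
    (H : Bd h f A c) : Bd h f B c := by
  intro T x
  refine (H T x).trans (ENNReal.ofReal_le_ofReal ?_)
  exact mul_le_mul_of_nonneg_right hAB (Real.exp_pos _).le

end BOOM

open BOOM in
/-- BOO -/
theorem specBOO (hFCH : SpecFCH) (hALP : SpecALP) (hRAT : SpecRAT) (hDCL : SpecDCL)
    (hETA : SpecETA) (hETB : SpecETB) (hUBD : SpecUBD) (hTHB : SpecTHB) : SpecBOO := by
  intro Γ V _ _ G _ h τ d p₀ hC pc hpc hpc1 hχ
  obtain ⟨KT, ω, hKT, hω0, hω1, hT⟩ := hTHB Γ V G h τ d p₀ hC (3 / 4) (by norm_num)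
  obtain ⟨α, hα, hST, hal⟩ := hALP Γ V G h τ d p₀ hC pc hpc hpc1 hχ
  set δ : ℝ := (1 - ω) / 4 with hδ
  set η : ℝ := δ / 24 with hη
  have hδ0 : 0 < δ := by rw [hδ]; linarith
  have hδ1 : δ ≤ 1 / 4 := by rw [hδ]; linarith
  have hη0 : 0 < η := by rw [hη]; linarith
  have hη1 : η ≤ 1 / 96 := by rw [hη]; linarith
  have h24 : 24 * η = δ := by rw [hη]; ring
  obtain ⟨p', c₁, hp0, hp', hc1, hc1', hlow⟩ := hal η hη0
  obtain ⟨X, hX0, hX⟩ := hχ p' hp0 hp'
  have hp'1 : p' < 1 := lt_of_lt_of_le hp' hpc1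
  obtain ⟨KR, hKR, hR⟩ := hRAT Γ V G h τ d p₀ hC p' X α hp0 hp'1.le hX0 hX hα (hST p' hp0 hp')
    (α - η) (by linarith)
  obtain ⟨c₀, hc0, hc0', hDec⟩ := hDCL Γ V G h τ d p₀ hC p' X α η KR c₁ hp0 hp'1 hX0 hX hη0
    (by linarith) hKR hR hc1 hc1' hlow
  obtain ⟨KA, hKA, hA⟩ := hETA Γ V G h τ d p₀ hC p' α η c₀ hp0 hp'1 hα hη0 (by linarith) hc0 hc0'
    hDec
  obtain ⟨KB, hKB, hB⟩ := hETB Γ V G h τ d p₀ hC p' α η c₀ hp0 hp'1 hα hη0 (by linarith) hc0 hc0'
    hDec
  obtain ⟨KU, hKU, hU⟩ := hUBD Γ V G h τ d p₀ hC (3 / 4) (by norm_num)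
  obtain ⟨kT, hkT0, rfl⟩ : ∃ k : ℝ, 0 ≤ k ∧ Real.exp k = KT :=
    ⟨Real.log KT, Real.log_nonneg hKT, Real.exp_log (by linarith)⟩
  obtain ⟨kA, hkA0, rfl⟩ : ∃ k : ℝ, 0 ≤ k ∧ Real.exp k = KA :=
    ⟨Real.log KA, Real.log_nonneg hKA, Real.exp_log (by linarith)⟩
  obtain ⟨kB, hkB0, rfl⟩ : ∃ k : ℝ, 0 ≤ k ∧ Real.exp k = KB :=
    ⟨Real.log KB, Real.log_nonneg hKB, Real.exp_log (by linarith)⟩
  obtain ⟨kU, hkU0, rfl⟩ : ∃ k : ℝ, 0 ≤ k ∧ Real.exp k = KU :=
    ⟨Real.log KU, Real.log_nonneg hKU, Real.exp_log (by linarith)⟩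
  set θ : ℝ := ω * (1 + δ) + δ with hθ
  have hθ0 : 0 ≤ θ := by
    rw [hθ]
    positivity
  have hθ1 : θ < 1 := by
    rw [hθ]
    have : ω = 1 - 4 * δ := by rw [hδ]; ring
    rw [this]
    nlinarith
  set k' : ℝ := kB + kT + ω * (kU + kA) with hk'
  have hk'0 : 0 ≤ k' := by
    rw [hk']
    have := mul_nonneg hω0 (add_nonneg hkU0 hkA0)
    linarith
  set Ls : ℝ := k' / (1 - θ) with hLs
  have hLs0 : 0 ≤ Ls := div_nonneg hk'0 (by linarith)
  have hLs1 : k' + θ * Ls = Ls := by
    rw [hLs]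
    have : (1 - θ) ≠ 0 := by linarith
    field_simp
    ring
  refine ⟨p', Real.exp (Ls + 1), hp0, hp', by simpa using by linarith, ?_⟩
  intro p hpp hppc
  have hp1 : p ≤ 1 := by linarith
  have hp0p : p₀ ≤ p := hp0.trans hpp
  have step : ∀ y : ℝ, 0 ≤ y → Bd h (ET G p h τ) (Real.exp y) (3 / 4) →
      Bd h (ET G p h τ) (Real.exp (k' + θ * y)) (3 / 4) := by
    intro y hy hE
    have hAy : 1 ≤ Real.exp y := by simpa using hy
    have h1 := hA p (Real.exp y) hpp hp1 hAy hE (hST p hp0p hppc)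
    rw [h24, ← Real.exp_mul, ← Real.exp_add] at h1
    have h2 := hU p hp0p hp1 (Real.exp y) (Real.exp (kA + y * δ)) hAy (Real.exp_pos _).le hE h1
    rw [← Real.exp_add, ← Real.exp_add] at h2
    have hnn : 0 ≤ kU + (kA + y * δ) + y := by
      have := mul_nonneg hy hδ0.le
      linarith
    have h3 := hT p hp0p hp1 (Real.exp (kU + (kA + y * δ) + y)) α (by simpa using hnn) hα
      (hST p hp0p hppc) h2
    rw [← Real.exp_mul, ← Real.exp_add] at h3
    have hnn2 : 0 ≤ kT + (kU + (kA + y * δ) + y) * ω := by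
      have := mul_nonneg hnn hω0
      linarith
    have h4 := hB p (Real.exp y) (Real.exp (kT + (kU + (kA + y * δ) + y) * ω)) hpp hp1 hAy
      (by simpa using hnn2) hE h3
    rw [h24, ← Real.exp_mul, ← Real.exp_add, ← Real.exp_add] at h4
    have e : kB + (kT + (kU + (kA + y * δ) + y) * ω) + y * δ = k' + θ * y := by
      rw [hk', hθ]
      ring
    rw [e] at h4
    exact h4
  obtain ⟨Xp, hXp0, hXp⟩ := hχ p hp0p hppc
  have hF := (hFCH Γ V G h τ d p₀ hC p Xp hp0p hp1 hXp0 hXp (3 / 4) (by norm_num)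
    (by norm_num)).1
  obtain ⟨L0, hL0, hE0⟩ : ∃ L0 : ℝ, 0 ≤ L0 ∧ Bd h (ET G p h τ) (Real.exp L0) (3 / 4) := by
    refine ⟨Xp * Real.exp τ, mul_nonneg hXp0 (Real.exp_pos _).le, bd_mono ?_ hF⟩
    have := Real.add_one_le_exp (Xp * Real.exp τ)
    linarith
  have iter : ∀ n : ℕ, 0 ≤ Ls + θ ^ n * (L0 - Ls) ∧
      Bd h (ET G p h τ) (Real.exp (Ls + θ ^ n * (L0 - Ls))) (3 / 4) := by
    intro n
    induction n with
    | zero =>
      have e : Ls + θ ^ 0 * (L0 - Ls) = L0 := by ring
      rw [e]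
      exact ⟨hL0, hE0⟩
    | succ n ih =>
      have h1 := step _ ih.1 ih.2
      have e : k' + θ * (Ls + θ ^ n * (L0 - Ls)) = Ls + θ ^ (n + 1) * (L0 - Ls) := by
        rw [pow_succ]
        linear_combination hLs1
      rw [e] at h1
      refine ⟨?_, h1⟩
      rw [← e]
      have := mul_nonneg hθ0 ih.1
      linarith
  obtain ⟨n, hn⟩ : ∃ n : ℕ, θ ^ n * (L0 - Ls) ≤ 1 := by
    have ht : Tendsto (fun n : ℕ => θ ^ n * (L0 - Ls)) atTop (𝓝 (0 * (L0 - Ls))) :=
      (tendsto_pow_atTop_nhds_zero_of_lt_one hθ0 hθ1).mul_const _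
    rw [zero_mul] at ht
    exact ((ht.eventually (ge_mem_nhds (show (0 : ℝ) < 1 by norm_num))).exists)
  refine bd_mono ?_ (iter n).2
  apply Real.exp_le_exp.2
  linarith

end NU

end MP8622
end

section
set_option autoImplicit false

open Classical Filter Topology

/-! Module DCL of MP_8622f1_pr, block L (helper70): decoupling. -/

namespace MP8622

namespace NU

namespace DCLM

variable {V : Type}

lemma sm_mono {C C' : Set V} {f f' : V → ENNReal} (hC : C ⊆ C') (hf : ∀ y ∈ C, f y ≤ f' y) :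
    sm C f ≤ sm C' f' := by
  unfold sm
  refine ENNReal.tsum_le_tsum fun y => ?_
  by_cases hy : y ∈ C
  · rw [Set.indicator_of_mem hy, Set.indicator_of_mem (hC hy)]
    exact hf y hy
  · rw [Set.indicator_of_notMem hy]
    exact zero_le

lemma sm_union {C C₁ C₂ : Set V} {f : V → ENNReal} (hC : C ⊆ C₁ ∪ C₂) :
    sm C f ≤ sm C₁ f + sm C₂ f := by
  unfold sm
  rw [← ENNReal.tsum_add]
  refine ENNReal.tsum_le_tsum fun y => ?_
  by_cases hy : y ∈ C
  · rw [Set.indicator_of_mem hy]
    rcases hC hy with h | h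
    · rw [Set.indicator_of_mem h]
      exact le_self_add
    · rw [Set.indicator_of_mem h]
      exact le_add_self
  · rw [Set.indicator_of_notMem hy]
    exact zero_le

/-- the key sum over the layers of a slab -/
lemma sumB {h : V → ℝ} {τ T s : ℝ} (hτ : 0 < τ) {R₁ : Set V}
    (hR₁ : R₁ = lay h T (T + s)) {n : ℕ} (hn : s ≤ n * τ) {F FU g : V → ENNReal}
    (hF : ∀ z, F z ≤ FU z) (hF0 : ∀ z, z ∉ R₁ → F z = 0) {c ρ B M : ℝ}
    (hρ : 0 ≤ ρ) (hM : 0 ≤ M) (hB : 0 ≤ B)
    (hg : ∀ z ∈ R₁, g z ≤ ENNReal.ofReal (M * Real.exp (ρ * (h z - T))))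
    (hlay : ∀ j : ℕ, sm (lay h (T + j * τ) (T + j * τ + τ)) FU ≤
      ENNReal.ofReal (B * Real.exp (-c * (j * τ)))) :
    ∑' z, F z * g z ≤ ENNReal.ofReal (∑ j ∈ Finset.range n,
      B * Real.exp (-c * (j * τ)) * (M * Real.exp (ρ * ((j + 1) * τ)))) := by
  have hpt : ∀ z, F z * g z ≤ ∑ j ∈ Finset.range n,
      (lay h (T + j * τ) (T + j * τ + τ)).indicator FU z *
        ENNReal.ofReal (M * Real.exp (ρ * ((j + 1) * τ))) := by
    intro z
    by_cases hz : z ∈ R₁
    · have hz' := hz
      rw [hR₁] at hz'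
      obtain ⟨hz1, hz2⟩ := hz'
      have h0 : 0 ≤ (h z - T) / τ := div_nonneg (by linarith) hτ.le
      obtain ⟨j, hj⟩ : ∃ j : ℕ, j = ⌊(h z - T) / τ⌋₊ := ⟨_, rfl⟩
      have hj1 : (j : ℝ) * τ ≤ h z - T := by
        have := Nat.floor_le h0
        rw [← hj] at this
        rwa [le_div_iff₀ hτ] at this
      have hj2 : h z - T < (j + 1) * τ := by
        have := Nat.lt_floor_add_one ((h z - T) / τ)
        rw [← hj] at this
        rwa [div_lt_iff₀ hτ] at this
      have hjn : j < n := by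
        have : (j : ℝ) < n := by
          have : (j : ℝ) * τ < n * τ := by linarith
          exact lt_of_mul_lt_mul_right this hτ.le
        exact_mod_cast this
      refine le_trans ?_ (Finset.single_le_sum (f := fun j : ℕ =>
        (lay h (T + j * τ) (T + j * τ + τ)).indicator FU z *
        ENNReal.ofReal (M * Real.exp (ρ * ((j + 1) * τ)))) (fun _ _ => zero_le)
        (Finset.mem_range.2 hjn))
      have hmem : z ∈ lay h (T + j * τ) (T + j * τ + τ) := by
        constructor
        · linarith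
        · nlinarith
      show F z * g z ≤ (lay h (T + j * τ) (T + j * τ + τ)).indicator FU z *
        ENNReal.ofReal (M * Real.exp (ρ * ((j + 1) * τ)))
      rw [Set.indicator_of_mem hmem]
      refine mul_le_mul' (hF z) ((hg z hz).trans ?_)
      apply ENNReal.ofReal_le_ofReal
      refine mul_le_mul_of_nonneg_left ?_ hM
      exact Real.exp_le_exp.2 (mul_le_mul_of_nonneg_left hj2.le hρ)
    · rw [hF0 z hz, zero_mul]
      exact zero_le
  calc ∑' z, F z * g z ≤ ∑' z, ∑ j ∈ Finset.range n,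
      (lay h (T + j * τ) (T + j * τ + τ)).indicator FU z *
        ENNReal.ofReal (M * Real.exp (ρ * ((j + 1) * τ))) := ENNReal.tsum_le_tsum hpt
    _ = ∑ j ∈ Finset.range n, ∑' z,
      (lay h (T + j * τ) (T + j * τ + τ)).indicator FU z *
        ENNReal.ofReal (M * Real.exp (ρ * ((j + 1) * τ))) :=
        Summable.tsum_finsetSum (fun _ _ => ENNReal.summable)
    _ = ∑ j ∈ Finset.range n, sm (lay h (T + j * τ) (T + j * τ + τ)) FU *
        ENNReal.ofReal (M * Real.exp (ρ * ((j + 1) * τ))) := by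
        refine Finset.sum_congr rfl fun j _ => ?_
        rw [ENNReal.tsum_mul_right]; rfl
    _ ≤ ∑ j ∈ Finset.range n, ENNReal.ofReal (B * Real.exp (-c * (j * τ)) *
        (M * Real.exp (ρ * ((j + 1) * τ)))) := by
        refine Finset.sum_le_sum fun j _ => ?_
        rw [ENNReal.ofReal_mul (mul_nonneg hB (Real.exp_pos _).le)]
        exact mul_le_mul' (hlay j) le_rfl
    _ = _ := by
        rw [ENNReal.ofReal_sum_of_nonneg]
        intro j _
        have h1 := Real.exp_pos (-c * (j * τ))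
        have h2 := Real.exp_pos (ρ * ((j + 1) * τ))
        positivity

/-- the geometric sum for `ρ = 2 c` -/
lemma geo {c τ s : ℝ} (hc : 0 < c) (hτ : 0 < τ) {n : ℕ} (hn : (n : ℝ) * τ ≤ s + τ) :
    ∑ j ∈ Finset.range n, Real.exp (c * (j * τ)) ≤
      Real.exp (c * (s + τ)) / (Real.exp (c * τ) - 1) := by
  have hr : 1 < Real.exp (c * τ) := Real.one_lt_exp_iff.2 (mul_pos hc hτ)
  have he : ∀ j : ℕ, Real.exp (c * (j * τ)) = Real.exp (c * τ) ^ j := by
    intro j
    rw [← Real.exp_nat_mul]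
    congr 1
    ring
  rw [Finset.sum_congr rfl (fun j _ => he j), geom_sum_eq hr.ne']
  apply div_le_div_of_nonneg_right _ (by linarith)
  have : Real.exp (c * τ) ^ n ≤ Real.exp (c * (s + τ)) := by
    rw [← he n]
    exact Real.exp_le_exp.2 (mul_le_mul_of_nonneg_left hn hc.le)
  linarith


/-- a sum over `u x'`, when `x'` is adjacent to `u x'` -/
lemma sum_u {G : SimpleGraph V} [G.LocallyFinite] {d : ℕ}
    (hd : ∀ x : V, (G.neighborFinset x).card ≤ d) {u : V → V} (hu : ∀ y, G.Adj y (u y))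
    (f : V → ENNReal) : ∑' x', f (u x') ≤ (d : ENNReal) * ∑' w, f w := by
  calc ∑' x', f (u x') = ∑' x', ∑' w, (if u x' = w then f w else 0) := by
        refine tsum_congr fun x' => ?_
        rw [tsum_eq_single (u x')]
        · simp
        · intro w hw
          rw [if_neg (Ne.symm hw)]
    _ = ∑' w, ∑' x', (if u x' = w then f w else 0) := ENNReal.tsum_comm
    _ ≤ ∑' w, (d : ENNReal) * f w := by
        refine ENNReal.tsum_le_tsum fun w => ?_
        rw [tsum_eq_sum (s := G.neighborFinset w)]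
        · calc ∑ x' ∈ G.neighborFinset w, (if u x' = w then f w else 0)
              ≤ ∑ x' ∈ G.neighborFinset w, f w := by
                refine Finset.sum_le_sum fun x' _ => ?_
                split_ifs
                · exact le_rfl
                · exact zero_le
            _ = ((G.neighborFinset w).card : ENNReal) * f w := by
                rw [Finset.sum_const, nsmul_eq_mul]
            _ ≤ (d : ENNReal) * f w := by
                gcongr
                exact hd w
        · intro x' hx'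
          rw [if_neg]
          intro h
          apply hx'
          rw [SimpleGraph.mem_neighborFinset, ← h]
          exact (hu x').symm
    _ = (d : ENNReal) * ∑' w, f w := ENNReal.tsum_mul_left

lemma infV {Γ : Type} [Group Γ] [MulAction Γ V] {G : SimpleGraph V} [G.LocallyFinite]
    {h : V → ℝ} {τ : ℝ} (hT : HT Γ G h τ) (x : V) : Infinite V := by
  choose up hup using hT.up
  have hh : ∀ n : ℕ, h (up^[n] x) = h x + n * τ := by
    intro n
    induction n with
    | zero => simp
    | succ n ih =>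
      rw [Function.iterate_succ_apply', (hup _).2, ih]
      push_cast
      ring
  refine Infinite.of_injective (fun n : ℕ => up^[n] x) ?_
  intro a b hab
  have h1 : h (up^[a] x) = h (up^[b] x) := congrArg h hab
  rw [hh, hh] at h1
  have h2 : (a : ℝ) * τ = b * τ := by linarith
  have h3 : (a : ℝ) = b := mul_right_cancel₀ hT.pos.ne' h2
  exact_mod_cast h3

/-- the lower bound (from IMU) -/
lemma lowE (hIMU : SpecIMU) (hITA : SpecITA) {G : SimpleGraph V} [G.LocallyFinite] {d : ℕ}
    (hd : ∀ x : V, (G.neighborFinset x).card ≤ d) {h : V → ℝ} {τ : ℝ}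
    (hlip : ∀ x y : V, G.Adj x y → |h y - h x| ≤ τ) {p : ℝ} (hp0 : 0 ≤ p) (hp1 : p ≤ 1)
    {T s : ℝ} {y : V} (hy : T ≤ h y) :
    ST G p h (T + s) y ≤ (d : ENNReal) *
      ∑' v, (lay h (T + s - τ) (T + s)).indicator (fun v => TT G p (lay h T (T + s)) y v) v := by
  have hA := hITA V G p hp0 hp1
  refine (hIMU V G d p hp0 hp1 hd (lay h (h y) (T + s)) (abv h (T + s)) y ?_).trans ?_
  · rw [Set.disjoint_left]
    intro z hz hz'
    have h1 : h z < T + s := hz.2
    have h2 : T + s ≤ h z := hz'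
    linarith
  · refine mul_le_mul' le_rfl (ENNReal.tsum_le_tsum fun v => ?_)
    by_cases hv : v ∈ {v | ∃ z ∈ abv h (T + s), G.Adj v z}
    · rw [Set.indicator_of_mem hv]
      obtain ⟨z, hz, hvz⟩ := hv
      by_cases hvR : v ∈ lay h (h y) (T + s)
      · have hmem : v ∈ lay h (T + s - τ) (T + s) := by
          refine ⟨?_, hvR.2⟩
          have h1 := (abs_le.1 (hlip v z hvz)).2
          have h2 : T + s ≤ h z := hz
          linarith
        rw [Set.indicator_of_mem hmem]
        refine hA.mono _ _ ?_ _ _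
        intro w hw
        exact ⟨hy.trans hw.1, hw.2⟩
      · rw [hA.out _ _ _ (Or.inr hvR)]
        exact zero_le
    · rw [Set.indicator_of_notMem hv]
      exact zero_le


/-- the sum over one layer, seen from a vertex `y` at height in `[T, T + τ)` -/
lemma layB {h : V → ℝ} {τ T c B₁ : ℝ} (hτ : 0 < τ) (hc : 0 < c) (hB₁ : 0 ≤ B₁) {y : V}
    (hy1 : T ≤ h y) (hy2 : h y < T + τ) {f : V → ENNReal}
    (hup : ∀ T' : ℝ, h y ≤ T' → sm (lay h T' (T' + τ)) f ≤
      ENNReal.ofReal (B₁ * Real.exp (-c * (T' - h y))))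
    (hdn : sm (lay h (h y - τ) (h y)) f ≤ ENNReal.ofReal B₁) (j : ℕ) :
    sm (lay h (T + j * τ) (T + j * τ + τ)) f ≤
      ENNReal.ofReal (2 * B₁ * Real.exp (c * τ) * Real.exp (-c * (j * τ))) := by
  rcases Nat.eq_zero_or_pos j with hj | hj
  · subst hj
    have h1 : lay h (T + ((0 : ℕ) : ℝ) * τ) (T + ((0 : ℕ) : ℝ) * τ + τ) ⊆
        lay h (h y - τ) (h y) ∪ lay h (h y) (h y + τ) := by
      intro z hz
      have hz1 := hz.1
      have hz2 := hz.2
      simp only [Nat.cast_zero, zero_mul, add_zero] at hz1 hz2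
      rcases lt_or_ge (h z) (h y) with hzy | hzy
      · left
        exact ⟨by linarith, hzy⟩
      · right
        exact ⟨hzy, by linarith⟩
    refine (sm_union h1).trans ?_
    have h2 := hup (h y) le_rfl
    rw [sub_self, mul_zero, Real.exp_zero, mul_one] at h2
    refine (add_le_add hdn h2).trans ?_
    rw [← ENNReal.ofReal_add hB₁ hB₁]
    apply ENNReal.ofReal_le_ofReal
    have h3 : 1 ≤ Real.exp (c * τ) := Real.one_le_exp (mul_nonneg hc.le hτ.le)
    simp only [Nat.cast_zero, zero_mul, mul_zero, Real.exp_zero, mul_one]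
    nlinarith
  · have hj1 : (1 : ℝ) ≤ j := by exact_mod_cast hj
    have hjy : h y ≤ T + j * τ := by nlinarith
    refine (hup _ hjy).trans (ENNReal.ofReal_le_ofReal ?_)
    have h1 : Real.exp (-c * (T + j * τ - h y)) ≤ Real.exp (c * τ) * Real.exp (-c * (j * τ)) := by
      rw [← Real.exp_add]
      apply Real.exp_le_exp.2
      nlinarith
    have h2 : 0 ≤ Real.exp (c * τ) * Real.exp (-c * (j * τ)) := by positivity
    nlinarith [mul_le_mul_of_nonneg_left h1 hB₁]

lemma th_le {k : ℝ} (h0 : 0 ≤ k) (h1 : k ≤ 1) : th k ≤ k := by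
  unfold th
  rw [div_le_iff₀ (by linarith)]
  nlinarith

lemma le_th {k : ℝ} (h0 : 0 ≤ k) (h1 : k ≤ 1) : k / 2 ≤ th k := by
  unfold th
  rw [div_le_div_iff₀ (by norm_num) (by linarith)]
  nlinarith

lemma th_nonneg {k : ℝ} (h0 : 0 ≤ k) (h1 : k ≤ 1) : 0 ≤ th k := by
  have := le_th h0 h1
  linarith

/-- `1 + s / τ ≤ C exp (η s)` -/
lemma lin_exp {η τ s : ℝ} (hη : 0 < η) (hτ : 0 < τ) (hs : 0 ≤ s) :
    s / τ + 1 ≤ (1 + 1 / (η * τ)) * Real.exp (η * s) := by
  have h1 : 1 + η * s ≤ Real.exp (η * s) := by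
    have := Real.add_one_le_exp (η * s)
    linarith
  have h2 : s / τ = (1 / (η * τ)) * (η * s) := by
    field_simp
  have h3 : 0 < 1 / (η * τ) := by positivity
  have h4 : 0 ≤ η * s := by positivity
  rw [h2]
  nlinarith [mul_le_mul_of_nonneg_left h1 h3.le]

end DCLM

open DCLM in
theorem specDCL (hIDC : SpecIDC) (hIMU : SpecIMU) (hFSU : SpecFSU) (hITA : SpecITA)
    (hIFA : SpecIFA) : SpecDCL := by
  intro Γ V _ _ G _ h τ d p₀ hC p' X α η K c₁ hpp hp1 hX hChi hη hα hK hBd hc₁ hc₁1 h₁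
  have hτ := hC.ht.pos
  have hd0 : (0 : ℝ) < d := by
    have := hC.dpos
    exact_mod_cast this
  have hp'0 : 0 < p' := lt_of_lt_of_le hC.ppos hpp
  obtain ⟨c, hcdef⟩ : ∃ c : ℝ, c = α - η := ⟨_, rfl⟩
  have hc2 : 1 / 2 < c := by rw [hcdef]; exact hα
  have hc : 0 < c := by linarith
  rw [← hcdef] at hBd
  obtain ⟨K₁, hK₁, hF⟩ := hFSU Γ V G h τ d p₀ hC c hc2
  have hF' := hF p' hpp hp1.le K hK hBd
  have hA := hITA V G p' hp'0.le hp1.le
  -- constants
  obtain ⟨B₁, hB₁def⟩ : ∃ B₁ : ℝ, B₁ = K₁ * K ^ 2 := ⟨_, rfl⟩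
  have hB₁ : 0 ≤ B₁ := by rw [hB₁def]; positivity
  obtain ⟨B, hBdef⟩ : ∃ B : ℝ, B = 2 * B₁ * Real.exp (c * τ) := ⟨_, rfl⟩
  have hB : 0 ≤ B := by rw [hBdef]; positivity
  have hr : 1 < Real.exp (c * τ) := Real.one_lt_exp_iff.2 (mul_pos hc hτ)
  obtain ⟨CQ, hCQ⟩ : ∃ CQ : ℝ, CQ = B * K ^ 2 * (Real.exp (2 * c * τ) *
    (Real.exp (c * τ) / (Real.exp (c * τ) - 1))) := ⟨_, rfl⟩
  have hCQ0 : 0 ≤ CQ := by
    rw [hCQ]
    have : 0 < Real.exp (c * τ) - 1 := by linarith
    positivity
  obtain ⟨CL, hCL⟩ : ∃ CL : ℝ, CL = B * (K * (d * X)) * Real.exp (c * τ) *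
    (1 + 1 / (η * τ)) := ⟨_, rfl⟩
  have hCL0 : 0 ≤ CL := by
    rw [hCL]
    positivity
  obtain ⟨c₂, hc₂⟩ : ∃ c₂ : ℝ, c₂ = min p₀ (c₁ / (4 * d * (CQ + 1))) := ⟨_, rfl⟩
  obtain ⟨c₃, hc₃⟩ : ∃ c₃ : ℝ, c₃ = min p₀ (c₁ / (8 * d * (CL + 1))) := ⟨_, rfl⟩
  have hc₂0 : 0 < c₂ := by
    rw [hc₂]
    exact lt_min hC.ppos (by positivity)
  have hc₃0 : 0 < c₃ := by
    rw [hc₃]
    exact lt_min hC.ppos (by positivity)
  have hc₂p : c₂ ≤ p₀ := by rw [hc₂]; exact min_le_left _ _
  have hc₃p : c₃ ≤ p₀ := by rw [hc₃]; exact min_le_left _ _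
  have hc₂Q : c₂ * (CQ + 1) ≤ c₁ / (4 * d) := by
    have h1 : c₂ ≤ c₁ / (4 * d * (CQ + 1)) := by rw [hc₂]; exact min_le_right _ _
    calc c₂ * (CQ + 1) ≤ c₁ / (4 * d * (CQ + 1)) * (CQ + 1) :=
          mul_le_mul_of_nonneg_right h1 (by linarith)
      _ = c₁ / (4 * d) := by
          have : CQ + 1 ≠ 0 := by linarith
          field_simp
  have hc₃L : c₃ * (CL + 1) ≤ c₁ / (8 * d) := by
    have h1 : c₃ ≤ c₁ / (8 * d * (CL + 1)) := by rw [hc₃]; exact min_le_right _ _
    calc c₃ * (CL + 1) ≤ c₁ / (8 * d * (CL + 1)) * (CL + 1) :=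
          mul_le_mul_of_nonneg_right h1 (by linarith)
      _ = c₁ / (8 * d) := by
          have : CL + 1 ≠ 0 := by linarith
          field_simp
  have hd1 : (1 : ℝ) ≤ d := by exact_mod_cast hC.dpos
  have hc₂1 : c₂ ≤ 1 := hc₂p.trans hC.plt.le
  have hc₃1 : c₃ ≤ 1 := hc₃p.trans hC.plt.le
  have hc₀le : c₁ * c₂ * c₃ / (128 * d) ≤ 1 := by
    rw [div_le_one (by positivity)]
    have h1 : c₁ * c₂ ≤ 1 := mul_le_one₀ hc₁1 hc₂0.le hc₂1
    have h2 : c₁ * c₂ * c₃ ≤ 1 := mul_le_one₀ h1 hc₃0.le hc₃1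
    linarith
  refine ⟨c₁ * c₂ * c₃ / (128 * d), by positivity, hc₀le, ?_⟩
  intro u hu p hpp' hp1' s T R₀ hs hR₀ x
  have hs0 : 0 < s := lt_of_lt_of_le hτ hs
  have : Infinite V := infV hC.ht x
  obtain ⟨R₁, hR₁⟩ : ∃ R₁ : Set V, R₁ = lay h T (T + s) := ⟨_, rfl⟩
  obtain ⟨L₁, hL₁⟩ : ∃ L₁ : Set V, L₁ = lay h (T + s - τ) (T + s) := ⟨_, rfl⟩
  obtain ⟨e₀, he₀⟩ : ∃ e₀ : ℝ, e₀ = c₁ / (2 * d) * Real.exp (-(α + η) * s) := ⟨_, rfl⟩
  have hαη : 0 < α + η := by linarith
  have he₀0 : 0 < e₀ := by rw [he₀]; positivity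
  have he₀1 : e₀ ≤ 1 := by
    rw [he₀]
    have h1 : Real.exp (-(α + η) * s) ≤ 1 := Real.exp_le_one_iff.2 (by nlinarith)
    have h2 : c₁ / (2 * d) ≤ 1 := by
      rw [div_le_one (by positivity)]
      linarith
    exact mul_le_one₀ h2 (Real.exp_pos _).le h1
  obtain ⟨k₀, hk₀⟩ : ∃ k₀ : ℝ, k₀ = c₂ * Real.exp (-(2 * η * s)) := ⟨_, rfl⟩
  obtain ⟨q, hq⟩ : ∃ q : ℝ, q = c₃ * Real.exp (-(3 * η * s)) := ⟨_, rfl⟩
  have hk₀0 : 0 < k₀ := by rw [hk₀]; positivity
  have hq0 : 0 < q := by rw [hq]; positivity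
  have hk₀p : k₀ ≤ p' := by
    have h1 : Real.exp (-(2 * η * s)) ≤ 1 := Real.exp_le_one_iff.2 (by
      have : 0 < 2 * η * s := by positivity
      linarith)
    rw [hk₀]
    nlinarith
  have hqp : q ≤ p' := by
    have h1 : Real.exp (-(3 * η * s)) ≤ 1 := Real.exp_le_one_iff.2 (by
      have : 0 < 3 * η * s := by positivity
      linarith)
    rw [hq]
    nlinarith
  have hR₁bel : R₁ ⊆ bel h (T + s) := by
    rw [hR₁]
    intro z hz
    exact hz.2
  -- the function `e z`
  have heS : ∀ z : V, ∑' v, L₁.indicator (fun v => TT G p' R₁ z v) v ≤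
      ENNReal.ofReal (K * Real.exp (-c * (T + s - h z))) := by
    intro z
    refine le_trans ?_ (hBd (T + s) z)
    unfold ET sm
    rw [hL₁]
    refine ENNReal.tsum_le_tsum fun v => ?_
    by_cases hv : v ∈ lay h (T + s - τ) (T + s)
    · rw [Set.indicator_of_mem hv, Set.indicator_of_mem hv]
      exact hA.mono _ _ hR₁bel _ _
    · rw [Set.indicator_of_notMem hv]
      exact zero_le
  -- number of layers
  obtain ⟨n, hn⟩ : ∃ n : ℕ, n = ⌈s / τ⌉₊ := ⟨_, rfl⟩
  have hn1 : s ≤ n * τ := by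
    have h1 := Nat.le_ceil (s / τ)
    rw [← hn, div_le_iff₀ hτ] at h1
    exact h1
  have hn2' : (n : ℝ) < s / τ + 1 := by
    rw [hn]
    exact Nat.ceil_lt_add_one (by positivity)
  have hn2 : (n : ℝ) * τ ≤ s + τ := by
    have h1 : (n : ℝ) * τ ≤ (s / τ + 1) * τ := mul_le_mul_of_nonneg_right hn2'.le hτ.le
    have h2 : (s / τ + 1) * τ = s + τ := by
      field_simp
    linarith
  -- the layers
  have hlayers : ∀ y ∈ lay h (T - τ) T ∩ R₀, ∀ j : ℕ,
      sm (lay h (T + j * τ) (T + j * τ + τ)) (fun z => TT G p' Set.univ (u y) z) ≤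
        ENNReal.ofReal (B * Real.exp (-c * (j * τ))) := by
    intro y hy j
    have hyu := (hu y).2
    have h1 : T ≤ h (u y) := by
      have := hy.1.1
      linarith
    have h2 : h (u y) < T + τ := by
      have := hy.1.2
      linarith
    rw [hBdef]
    refine layB hτ hc hB₁ h1 h2 ?_ ?_ j
    · intro T' hT'
      rw [hB₁def]
      exact hF'.1 (u y) T' hT'
    · have h3 := hF'.2 (u y) (h (u y)) le_rfl
      rw [sub_self, mul_zero, Real.exp_zero, mul_one] at h3
      rw [hB₁def]
      exact h3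
  -- hQ
  have hQ : ∀ y ∈ lay h (T - τ) T ∩ R₀, ENNReal.ofReal (th k₀) * ∑' z, TT G p' R₁ (u y) z *
      (∑' v, L₁.indicator (fun v => TT G p' R₁ z v) v) ^ 2 ≤ ENNReal.ofReal (e₀ / 2) := by
    intro y hy
    have hM : (0 : ℝ) ≤ K ^ 2 * Real.exp (-(2 * c * s)) := by positivity
    have h1 := sumB (h := h) (n := n) hτ hR₁ hn1 (F := fun z => TT G p' R₁ (u y) z)
      (FU := fun z => TT G p' Set.univ (u y) z)
      (g := fun z => (∑' v, L₁.indicator (fun v => TT G p' R₁ z v) v) ^ 2)
      (fun z => hA.mono _ _ (Set.subset_univ _) _ _)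
      (fun z hz => hA.out _ _ _ (Or.inr hz)) (c := c) (ρ := 2 * c) (B := B)
      (M := K ^ 2 * Real.exp (-(2 * c * s))) (by positivity) hM hB ?_ (hlayers y hy)
    · refine (mul_le_mul' le_rfl h1).trans ?_
      rw [← ENNReal.ofReal_mul (th_nonneg hk₀0.le (hk₀p.trans hp1.le))]
      apply ENNReal.ofReal_le_ofReal
      have h2 : ∑ j ∈ Finset.range n, B * Real.exp (-c * (j * τ)) *
          (K ^ 2 * Real.exp (-(2 * c * s)) * Real.exp (2 * c * ((j + 1) * τ))) =
          (B * K ^ 2 * Real.exp (-(2 * c * s)) * Real.exp (2 * c * τ)) *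
            ∑ j ∈ Finset.range n, Real.exp (c * (j * τ)) := by
        rw [Finset.mul_sum]
        refine Finset.sum_congr rfl fun j _ => ?_
        have h3 : Real.exp (-c * (j * τ)) * Real.exp (2 * c * ((j + 1) * τ)) =
            Real.exp (2 * c * τ) * Real.exp (c * (j * τ)) := by
          rw [← Real.exp_add, ← Real.exp_add]
          congr 1
          ring
        calc _ = B * K ^ 2 * Real.exp (-(2 * c * s)) * (Real.exp (-c * (j * τ)) *
              Real.exp (2 * c * ((j + 1) * τ))) := by ring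
          _ = _ := by rw [h3]; ring
      have h4 := geo hc hτ hn2
      have h5 : ∑ j ∈ Finset.range n, B * Real.exp (-c * (j * τ)) *
          (K ^ 2 * Real.exp (-(2 * c * s)) * Real.exp (2 * c * ((j + 1) * τ))) ≤
          CQ * Real.exp (-(c * s)) := by
        rw [h2]
        refine (mul_le_mul_of_nonneg_left h4 (by positivity)).trans ?_
        apply le_of_eq
        have h6 : Real.exp (c * (s + τ)) = Real.exp (c * s) * Real.exp (c * τ) := by
          rw [← Real.exp_add]; congr 1; ring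
        have h7 : Real.exp (-(2 * c * s)) * Real.exp (c * s) = Real.exp (-(c * s)) := by
          rw [← Real.exp_add]; congr 1; ring
        rw [h6, hCQ, ← h7]
        ring
      refine (mul_le_mul (th_le hk₀0.le (hk₀p.trans hp1.le)) h5
        (Finset.sum_nonneg fun j _ => by positivity) hk₀0.le).trans ?_
      have h8 : k₀ * (CQ * Real.exp (-(c * s))) =
          c₂ * CQ * Real.exp (-(α + η) * s) := by
        have : Real.exp (-(α + η) * s) = Real.exp (-(2 * η * s)) * Real.exp (-(c * s)) := by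
          rw [← Real.exp_add, hcdef]; congr 1; ring
        rw [hk₀, this]; ring
      have h9 : e₀ / 2 = c₁ / (4 * d) * Real.exp (-(α + η) * s) := by
        rw [he₀]; field_simp; ring
      rw [h8, h9]
      refine mul_le_mul_of_nonneg_right ?_ (Real.exp_pos _).le
      nlinarith
    · intro z _
      show (∑' v, L₁.indicator (fun v => TT G p' R₁ z v) v) ^ 2 ≤ _
      refine (pow_le_pow_left' (heS z) 2).trans (le_of_eq ?_)
      rw [← ENNReal.ofReal_pow (by positivity)]
      congr 1
      have : Real.exp (-c * (T + s - h z)) ^ 2 =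
          Real.exp (-(2 * c * s)) * Real.exp (2 * c * (h z - T)) := by
        rw [← Real.exp_nat_mul, ← Real.exp_add]
        congr 1
        push_cast
        ring
      rw [mul_pow, this]
      ring
  -- hL
  have hL : ∀ y ∈ lay h (T - τ) T ∩ R₀, ENNReal.ofReal (th q) * ∑' z, TT G p' R₁ (u y) z *
      (∑' v, L₁.indicator (fun v => TT G p' R₁ z v) v) *
      (∑' x', (lay h (T - τ) T ∩ R₀).indicator (fun x' => TT G p' R₁ z (u x')) x') ≤
        ENNReal.ofReal (e₀ / 4) := by
    intro y hy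
    have hux : ∀ z : V, ∑' x', (lay h (T - τ) T ∩ R₀).indicator
        (fun x' => TT G p' R₁ z (u x')) x' ≤ ENNReal.ofReal (d * X) := by
      intro z
      calc ∑' x', (lay h (T - τ) T ∩ R₀).indicator (fun x' => TT G p' R₁ z (u x')) x' ≤
          ∑' x', (fun w => TT G p' Set.univ z w) (u x') := by
            refine ENNReal.tsum_le_tsum fun x' => ?_
            by_cases hx' : x' ∈ lay h (T - τ) T ∩ R₀
            · rw [Set.indicator_of_mem hx']
              exact hA.mono _ _ (Set.subset_univ _) _ _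
            · rw [Set.indicator_of_notMem hx']
              exact zero_le
        _ ≤ (d : ENNReal) * ∑' w, TT G p' Set.univ z w :=
            sum_u hC.deg (fun y => (hu y).1) _
        _ ≤ (d : ENNReal) * ENNReal.ofReal X := mul_le_mul' le_rfl (hChi z)
        _ = ENNReal.ofReal (d * X) := by
            rw [ENNReal.ofReal_mul (by positivity), ENNReal.ofReal_natCast]
    have hM : (0 : ℝ) ≤ K * (d * X) * Real.exp (-(c * s)) := by positivity
    have h1 := sumB (h := h) (n := n) hτ hR₁ hn1 (F := fun z => TT G p' R₁ (u y) z)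
      (FU := fun z => TT G p' Set.univ (u y) z)
      (g := fun z => (∑' v, L₁.indicator (fun v => TT G p' R₁ z v) v) *
        (∑' x', (lay h (T - τ) T ∩ R₀).indicator (fun x' => TT G p' R₁ z (u x')) x'))
      (fun z => hA.mono _ _ (Set.subset_univ _) _ _)
      (fun z hz => hA.out _ _ _ (Or.inr hz)) (c := c) (ρ := c) (B := B)
      (M := K * (d * X) * Real.exp (-(c * s))) hc.le hM hB ?_ (hlayers y hy)
    · simp only [mul_assoc] at h1 ⊢
      refine (mul_le_mul' le_rfl h1).trans ?_
      rw [← ENNReal.ofReal_mul (th_nonneg hq0.le (hqp.trans hp1.le))]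
      apply ENNReal.ofReal_le_ofReal
      have h2 : ∑ j ∈ Finset.range n, B * (Real.exp (-c * (j * τ)) *
          (K * (d * (X * (Real.exp (-(c * s)) * Real.exp (c * ((j + 1) * τ))))))) =
          (n : ℝ) * (B * (K * (d * X)) * Real.exp (c * τ) * Real.exp (-(c * s))) := by
        rw [Finset.sum_congr rfl (g := fun _ =>
          (B * (K * (d * X)) * Real.exp (c * τ) * Real.exp (-(c * s)))), Finset.sum_const,
          Finset.card_range, nsmul_eq_mul]
        intro j _
        have h3 : Real.exp (-c * (j * τ)) * Real.exp (c * ((j + 1) * τ)) =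
            Real.exp (c * τ) := by
          rw [← Real.exp_add]
          congr 1
          ring
        calc _ = B * (K * (d * X)) * Real.exp (-(c * s)) * (Real.exp (-c * (j * τ)) *
              Real.exp (c * ((j + 1) * τ))) := by ring
          _ = _ := by rw [h3]; ring
      have h5 : ∑ j ∈ Finset.range n, B * (Real.exp (-c * (j * τ)) *
          (K * (d * (X * (Real.exp (-(c * s)) * Real.exp (c * ((j + 1) * τ))))))) ≤
          CL * (Real.exp (η * s) * Real.exp (-(c * s))) := by
        rw [h2]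
        have h6 : (n : ℝ) ≤ (1 + 1 / (η * τ)) * Real.exp (η * s) :=
          hn2'.le.trans (lin_exp hη hτ hs0.le)
        refine (mul_le_mul_of_nonneg_right h6 (by positivity)).trans (le_of_eq ?_)
        rw [hCL]
        ring
      refine (mul_le_mul (th_le hq0.le (hqp.trans hp1.le)) h5
        (Finset.sum_nonneg fun j _ => by positivity) hq0.le).trans ?_
      have h8 : q * (CL * (Real.exp (η * s) * Real.exp (-(c * s)))) =
          c₃ * CL * Real.exp (-(α + η) * s) := by
        have : Real.exp (-(α + η) * s) = Real.exp (-(3 * η * s)) *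
            (Real.exp (η * s) * Real.exp (-(c * s))) := by
          rw [← Real.exp_add, ← Real.exp_add, hcdef]; congr 1; ring
        rw [hq, this]; ring
      have h9 : e₀ / 4 = c₁ / (8 * d) * Real.exp (-(α + η) * s) := by
        rw [he₀]; field_simp; ring
      rw [h8, h9]
      refine mul_le_mul_of_nonneg_right ?_ (Real.exp_pos _).le
      nlinarith
    · intro z _
      refine (mul_le_mul' (heS z) (hux z)).trans (le_of_eq ?_)
      rw [← ENNReal.ofReal_mul (by positivity)]
      congr 1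
      have : Real.exp (-c * (T + s - h z)) =
          Real.exp (-(c * s)) * Real.exp (c * (h z - T)) := by
        rw [← Real.exp_add]
        congr 1
        ring
      rw [this]
      ring
  -- hE
  have hE : ∀ y ∈ lay h (T - τ) T ∩ R₀, ENNReal.ofReal e₀ <
      ∑' v, L₁.indicator (fun v => TT G p' R₁ (u y) v) v := by
    intro y hy
    have hyu := (hu y).2
    have h1 : T ≤ h (u y) := by
      have := hy.1.1
      linarith
    have h2 : h (u y) < T + s := by
      have := hy.1.2
      linarith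
    have h3 := (h₁ (u y) (T + s) h2).trans
      (lowE hIMU hITA hC.deg hC.ht.lip hp'0.le hp1.le (s := s) h1)
    rw [← hR₁, ← hL₁] at h3
    by_contra hcon
    rw [not_lt] at hcon
    have h4 := h3.trans (mul_le_mul' le_rfl hcon)
    rw [← ENNReal.ofReal_natCast, ← ENNReal.ofReal_mul (by positivity),
      ENNReal.ofReal_le_ofReal_iff (by positivity)] at h4
    have h5 : Real.exp (-(α + η) * s) ≤ Real.exp (-(α + η) * (T + s - h (u y))) := by
      apply Real.exp_le_exp.2
      nlinarith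
    have h6 : (d : ℝ) * e₀ = c₁ / 2 * Real.exp (-(α + η) * s) := by
      rw [he₀]; field_simp
    rw [h6] at h4
    have h7 := Real.exp_pos (-(α + η) * s)
    nlinarith [mul_le_mul_of_nonneg_left h5 hc₁.le]
  -- conclusion
  have hmain := hIDC V G p p' k₀ q e₀ hp'0.le hpp' hp1' hk₀0.le hk₀p hq0.le hqp he₀0.le he₀1
    R₀ R₁ (abv h (T + s)) (lay h (T - τ) T ∩ R₀) L₁ u ?_ ?_ ?_ Set.inter_subset_right ?_ ?_ ?_
    hE hQ hL x
  · rw [← hR₁]
    refine le_trans ?_ hmain
    have hFA := hIFA V G p (hp'0.le.trans hpp') hp1'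
    have ht1 := le_th hk₀0.le (hk₀p.trans hp1.le)
    have ht2 := le_th hq0.le (hqp.trans hp1.le)
    have ht1' := th_le hk₀0.le (hk₀p.trans hp1.le)
    have ht2' := th_le hq0.le (hqp.trans hp1.le)
    have hk₀1 : k₀ ≤ 1 := hk₀p.trans hp1.le
    have hq1 : q ≤ 1 := hqp.trans hp1.le
    refine hFA.mono _ _ _ _ _ _ (by positivity) ?_ ?_
    · have h1 : c₁ * c₂ * c₃ / (128 * d) * Real.exp (-(α + 6 * η) * s) =
          (q / 2) * (k₀ / 2) * e₀ / 16 := by
        have : Real.exp (-(α + 6 * η) * s) = Real.exp (-(3 * η * s)) *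
            Real.exp (-(2 * η * s)) * Real.exp (-(α + η) * s) := by
          rw [← Real.exp_add, ← Real.exp_add]; congr 1; ring
        rw [this, hq, hk₀, he₀]
        field_simp
        ring
      rw [h1]
      have h2 : (q / 2) * (k₀ / 2) ≤ th q * th k₀ :=
        mul_le_mul ht2 ht1 (by positivity) (by linarith)
      have h3 := mul_le_mul_of_nonneg_right h2 he₀0.le
      linarith
    · have h2 : th q * th k₀ ≤ 1 :=
        mul_le_one₀ (ht2'.trans hq1) (by linarith) (ht1'.trans hk₀1)
      have h3 : th q * th k₀ * e₀ ≤ 1 := mul_le_one₀ h2 he₀0.le he₀1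
      linarith
  · rw [hR₁, Set.disjoint_left]
    intro z hz hz'
    have h1 : h z < T := hR₀ hz
    have h2 : T ≤ h z := hz'.1
    linarith
  · rw [Set.disjoint_left]
    intro z hz hz'
    have h1 : h z < T := hR₀ hz
    have h2 : T + s ≤ h z := hz'
    linarith
  · rw [hR₁, Set.disjoint_left]
    intro z hz hz'
    have h1 : h z < T + s := hz.2
    have h2 : T + s ≤ h z := hz'
    linarith
  · rw [hR₁, hL₁]
    intro z hz
    exact ⟨by have := hz.1; linarith, hz.2⟩
  · intro y hy
    refine ⟨(hu y).1, ?_⟩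
    rw [hR₁]
    have h1 := (hu y).2
    have h2 := hy.1.1
    have h3 := hy.1.2
    exact ⟨by linarith, by linarith⟩
  · intro v hv
    refine ⟨(hu v).1, ?_⟩
    rw [hL₁] at hv
    have h1 := (hu v).2
    have h2 := hv.1
    show T + s ≤ h (u v)
    linarith

end NU

end MP8622
end

section
set_option autoImplicit false

open Classical Filter Topology

/-!
# Module ETA: the bound for two point sums in a slab
-/

namespace MP8622

namespace NU

namespace ETAM

theorem th_bds {k : ℝ} (h0 : 0 ≤ k) (h1 : k ≤ 1) : k / 2 ≤ th k ∧ th k ≤ k := by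
  unfold th
  have h2 : 0 < 2 - k := by linarith
  constructor
  · rw [div_le_div_iff₀ two_pos h2]
    nlinarith
  · rw [div_le_iff₀ h2]
    nlinarith

theorem ind_mono {V : Type} {C D : Set V} {f g : V → ENNReal}
    (h : ∀ y ∈ C, y ∈ D ∧ f y ≤ g y) : ∑' y, C.indicator f y ≤ ∑' y, D.indicator g y := by
  refine ENNReal.tsum_le_tsum fun y => ?_
  by_cases hy : y ∈ C
  · rw [Set.indicator_of_mem hy, Set.indicator_of_mem (h y hy).1]
    exact (h y hy).2
  · rw [Set.indicator_of_notMem hy]
    exact zero_le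

/-- the real computation -/
theorem final_le {G k a M q : ℝ} (hk0 : 0 < k) (hk1 : k ≤ 1) (hM : 0 ≤ M)
    (hq : 0 ≤ q) (h : th k * G ≤ 2 * a + th k ^ 2 * q) (h1 : a ≤ M * k) : G ≤ 4 * M + k * q := by
  obtain ⟨h2, h3⟩ := th_bds hk0.le hk1
  have h4 : 0 < th k := by linarith
  have h5 : th k * G ≤ th k * (4 * M + k * q) := by
    have e1 : a ≤ M * (2 * th k) := h1.trans (mul_le_mul_of_nonneg_left (by linarith) hM)
    have e2 : th k ^ 2 * q ≤ th k * (k * q) := by
      have : th k * q ≤ k * q := mul_le_mul_of_nonneg_right h3 hq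
      nlinarith
    nlinarith
  exact le_of_mul_le_mul_left h5 h4

end ETAM

open ETAM in
theorem specETA (hITA : SpecITA) (hIFQ : SpecIFQ) (hQBD : SpecQBD) : SpecETA := by
  intro Γ V _ _ G _ h τ d p₀ hCx p' α η c₀ hp' hp'1 hα hη hη1 hc₀ hc₀1 hDec
  obtain ⟨K₁, hK₁, hqbd⟩ := hQBD Γ V G h τ d p₀ hCx (3 / 4) (by norm_num)
  have hτ : 0 < τ := hCx.ht.pos
  set b : ℝ := α + 6 * η with hb
  have hb1 : 1 ≤ b := by rw [hb]; linarith
  have hb0 : 0 < b := by linarith
  set C : ℝ := c₀⁻¹ * Real.exp (6 * η * τ) with hC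
  have hC0 : 0 ≤ C := by positivity
  refine ⟨4 * C + K₁, by linarith, ?_⟩
  intro p A hp hp1 hA hET hST T x
  have hp0 : p₀ ≤ p := hp'.trans hp
  have hpn : 0 ≤ p := hCx.ppos.le.trans hp0
  have hTT := hITA V G p hpn hp1
  have hA0 : 0 < A := by linarith
  rcases le_or_gt T (h x) with hT | hT
  · -- the slab is empty
    have e0 : GT G p h τ T x = 0 := by
      unfold GT sm
      rw [ENNReal.tsum_eq_zero]
      intro y
      by_cases hy : y ∈ lay h (T - τ) T
      · rw [Set.indicator_of_mem hy]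
        refine hTT.out _ _ _ (Or.inl ?_)
        intro hx
        have := hx.2
        linarith
      · rw [Set.indicator_of_notMem hy]
    rw [e0]
    exact zero_le
  -- the main case
  set R : Set V := lay h (h x) T with hR
  set L : Set V := lay h (T - τ) T ∩ R with hL
  choose u hu using hCx.ht.up
  have hlog : 0 ≤ Real.log A := Real.log_nonneg hA
  set s : ℝ := τ + 4 * Real.log A / b with hs
  have hsτ : τ ≤ s := by
    rw [hs]
    have : 0 ≤ 4 * Real.log A / b := by positivity
    linarith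
  set k : ℝ := c₀ * Real.exp (-b * s) with hk
  have hk0 : 0 < k := by positivity
  have hbs : b * s = b * τ + 4 * Real.log A := by
    rw [hs]
    field_simp
  have hexpA : Real.exp (4 * Real.log A) = A ^ 4 := by
    rw [show 4 * Real.log A = ((4 : ℕ) : ℝ) * Real.log A by norm_num, Real.exp_nat_mul,
      Real.exp_log hA0]
  have hkA : k * A ^ 4 ≤ 1 := by
    rw [hk, ← hexpA, mul_assoc, ← Real.exp_add]
    have e1 : -b * s + 4 * Real.log A = -(b * τ) := by
      rw [neg_mul, hbs]
      ring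
    rw [e1]
    have e2 : Real.exp (-(b * τ)) ≤ 1 := by
      rw [Real.exp_le_one_iff]
      have : 0 ≤ b * τ := by positivity
      linarith
    calc c₀ * Real.exp (-(b * τ)) ≤ 1 * 1 :=
          mul_le_mul hc₀1 e2 (Real.exp_pos _).le zero_le_one
      _ = 1 := one_mul 1
  have hA4 : 1 ≤ A ^ 4 := one_le_pow₀ hA
  have hk1 : k ≤ 1 := by
    calc k = k * 1 := (mul_one k).symm
      _ ≤ k * A ^ 4 := mul_le_mul_of_nonneg_left hA4 hk0.le
      _ ≤ 1 := hkA
  have hthk : 0 < th k := by
    have := (th_bds hk0.le hk1).1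
    linarith
  -- the quadratic inequality
  have hq := hIFQ V G p k hpn hp1 hk0.le hk1 R L u x (fun y hy hy' => by
    have h1 := (hu y).2
    have h2 : T - τ ≤ h y := hy.1.1
    have h3 : h (u y) < T := hy'.2
    linarith)
  -- the left side
  have e1 : ∑' y, L.indicator (fun y => TT G p R x y) y = GT G p h τ T x := by
    unfold GT sm
    refine tsum_congr fun y => ?_
    by_cases hy : y ∈ lay h (T - τ) T
    · by_cases hyR : y ∈ R
      · rw [Set.indicator_of_mem (show y ∈ L from ⟨hy, hyR⟩), Set.indicator_of_mem hy]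
      · rw [Set.indicator_of_notMem (fun hh => hyR hh.2), Set.indicator_of_mem hy]
        exact (hTT.out _ _ _ (Or.inr hyR)).symm
    · rw [Set.indicator_of_notMem (fun hh => hy hh.1), Set.indicator_of_notMem hy]
  -- the weak fields
  have e2 : FF G p k R L u x ≤ ENNReal.ofReal (1 * Real.exp (-α * (T + s - h x))) := by
    refine (hDec u (fun y => hu y) p hp hp1 s T R hsτ (fun y hy => hy.2) x).trans ?_
    have e3 : R ∪ lay h T (T + s) = lay h (h x) (T + s) := by
      ext y
      constructor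
      · rintro (hy | hy)
        · exact ⟨hy.1, by have := hy.2; linarith⟩
        · exact ⟨by have := hy.1; linarith, hy.2⟩
      · intro hy
        rcases lt_or_ge (h y) T with hyT | hyT
        · exact Or.inl ⟨hy.1, hyT⟩
        · exact Or.inr ⟨hyT, hy.2⟩
    rw [e3]
    exact hST (T + s) x
  -- the quadratic term
  have e4 : ∑' z, TT G p R x z * (∑' y, L.indicator (fun y => TT G p R z y) y) ^ 2 ≤
      ENNReal.ofReal (K₁ * A ^ 4 * Real.exp (-(3 / 4) * (T - h x))) := by
    refine le_trans (ENNReal.tsum_le_tsum fun z => ?_) (hqbd p hp0 hp1 A hA hET T x)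
    refine mul_le_mul' (hTT.mono _ _ (fun w hw => hw.2) _ _) (pow_le_pow_left' ?_ 2)
    refine ETAM.ind_mono (D := lay h (T - τ) T) (g := fun y => TT G p (bel h T) z y) fun y hy => ?_
    exact ⟨hy.1, hTT.mono _ _ (fun w hw => hw.2) _ _⟩
  rw [e1] at hq
  have hq2 : ENNReal.ofReal (th k) * GT G p h τ T x ≤
      2 * ENNReal.ofReal (1 * Real.exp (-α * (T + s - h x))) + ENNReal.ofReal (th k ^ 2) *
        ENNReal.ofReal (K₁ * A ^ 4 * Real.exp (-(3 / 4) * (T - h x))) :=
    hq.trans (add_le_add (mul_le_mul_right e2 _) (mul_le_mul_right e4 _))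
  have e5 : 2 * ENNReal.ofReal (1 * Real.exp (-α * (T + s - h x))) + ENNReal.ofReal (th k ^ 2) *
        ENNReal.ofReal (K₁ * A ^ 4 * Real.exp (-(3 / 4) * (T - h x))) =
      ENNReal.ofReal (2 * Real.exp (-α * (T + s - h x)) +
        th k ^ 2 * (K₁ * A ^ 4 * Real.exp (-(3 / 4) * (T - h x)))) := by
    rw [one_mul, ← ENNReal.ofReal_ofNat, ← ENNReal.ofReal_mul (by norm_num),
      ← ENNReal.ofReal_mul (by positivity), ← ENNReal.ofReal_add (by positivity) (by positivity)]
  rw [e5] at hq2
  -- `GT` is finite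
  have hfin : GT G p h τ T x ≠ ⊤ := by
    intro htop
    rw [htop, ENNReal.mul_top (by simpa using hthk)] at hq2
    exact absurd (top_le_iff.1 hq2) ENNReal.ofReal_ne_top
  set g : ℝ := (GT G p h τ T x).toReal with hg
  have hg0 : 0 ≤ g := ENNReal.toReal_nonneg
  have hgG : GT G p h τ T x = ENNReal.ofReal g := (ENNReal.ofReal_toReal hfin).symm
  rw [hgG, ← ENNReal.ofReal_mul hthk.le, ENNReal.ofReal_le_ofReal_iff (by positivity)] at hq2
  rw [hgG]
  refine ENNReal.ofReal_le_ofReal ?_
  set E : ℝ := Real.exp (-(3 / 4) * (T - h x)) with hE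
  have hE0 : 0 < E := Real.exp_pos _
  -- `exp (-α (t + s)) ≤ C A^(24η) E k`
  have h24 : 0 < A ^ (24 * η) := Real.rpow_pos_of_pos hA0 _
  have e6 : Real.exp (-α * (T + s - h x)) ≤ C * A ^ (24 * η) * E * k := by
    have e7 : C * A ^ (24 * η) * E * k =
        Real.exp (6 * η * τ + Real.log A * (24 * η) + -(3 / 4) * (T - h x) + -b * s) := by
      rw [Real.exp_add, Real.exp_add, Real.exp_add, ← Real.rpow_def_of_pos hA0, hC, hk, ← hE]
      field_simp
    rw [e7]
    refine Real.exp_le_exp.2 ?_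
    have e8 : 6 * η * s ≤ 6 * η * τ + Real.log A * (24 * η) := by
      have : 4 * Real.log A / b ≤ 4 * Real.log A := div_le_self (by positivity) hb1
      have e9 : 6 * η * (4 * Real.log A / b) ≤ 6 * η * (4 * Real.log A) :=
        mul_le_mul_of_nonneg_left this (by positivity)
      rw [hs]
      nlinarith
    have e10 : 0 ≤ (α - 3 / 4) * (T - h x) := mul_nonneg (by linarith) (by linarith)
    rw [hb]
    nlinarith
  have hfin2 := ETAM.final_le hk0 hk1 (M := C * A ^ (24 * η) * E) (by positivity)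
    (q := K₁ * A ^ 4 * E) (by positivity) hq2 e6
  refine hfin2.trans ?_
  have e11 : k * (K₁ * A ^ 4 * E) ≤ K₁ * A ^ (24 * η) * E := by
    have e12 : 1 ≤ A ^ (24 * η) := Real.one_le_rpow hA (by positivity)
    calc k * (K₁ * A ^ 4 * E) = K₁ * E * (k * A ^ 4) := by ring
      _ ≤ K₁ * E * 1 := mul_le_mul_of_nonneg_left hkA (by positivity)
      _ ≤ K₁ * E * A ^ (24 * η) := mul_le_mul_of_nonneg_left e12 (by positivity)
      _ = _ := by ring
  calc 4 * (C * A ^ (24 * η) * E) + k * (K₁ * A ^ 4 * E)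
      ≤ 4 * (C * A ^ (24 * η) * E) + K₁ * A ^ (24 * η) * E := by linarith
    _ = (4 * C + K₁) * A ^ (24 * η) * E := by ring

end NU

end MP8622
end

section
set_option autoImplicit false

open Classical Filter Topology

/-!
# MP_8622f1_pr, module ETB (helper28): bound for `ET`

IFQ with `R = bel h T`, `L = lay h (T-τ) T`, weak fields `k = c₀ exp (-b s)`, `b = α + 6η`,
`s = τ + 4 log A / b`, and Dec, QBD.
-/

namespace MP8622

namespace NU

theorem etb_div {κ M : ℝ} (hκ : 0 < κ) {E : ENNReal}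
    (h : ENNReal.ofReal κ * E ≤ ENNReal.ofReal M) : E ≤ ENNReal.ofReal (M / κ) := by
  rw [ENNReal.ofReal_div_of_pos hκ]
  rw [ENNReal.le_div_iff_mul_le (Or.inl (by simpa using hκ)) (Or.inl ENNReal.ofReal_ne_top)]
  rw [mul_comm]
  exact h

theorem etb_th {k : ℝ} (hk0 : 0 < k) (hk1 : k ≤ 1) : k / 2 ≤ th k ∧ th k ≤ k ∧ 0 < th k := by
  unfold th
  have h2 : 0 < 2 - k := by linarith
  refine ⟨?_, ?_, div_pos hk0 h2⟩
  · exact div_le_div_of_nonneg_left hk0.le h2 (by linarith)
  · rw [div_le_iff₀ h2]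
    nlinarith

/-- the real estimate -/
theorem etb_real {α η τ t c₀ A Θ K₁ : ℝ} (hα : 1 ≤ α) (hη : 0 < η) (hτ : 0 < τ) (ht : 0 < t)
    (hc0 : 0 < c₀) (hc1 : c₀ ≤ 1) (hA : 1 ≤ A) (hΘ : 1 ≤ Θ) (hK : 1 ≤ K₁) {s k : ℝ}
    (hs : s = τ + 4 * Real.log A / (α + 6 * η)) (hk : k = c₀ * Real.exp (-(α + 6 * η) * s)) :
    (2 * (Θ * Real.exp (-α * (t + s))) + th k ^ 2 * (K₁ * A ^ 4 * Real.exp (-(3 / 4) * t))) / th k
      ≤ (4 / c₀ * Real.exp (6 * η * τ) + K₁) * Θ * A ^ (24 * η) * Real.exp (-(3 / 4) * t) := by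
  have hb : 1 ≤ α + 6 * η := by linarith
  have hb0 : 0 < α + 6 * η := by linarith
  have hlog : 0 ≤ Real.log A := Real.log_nonneg hA
  have hA0 : 0 < A := by linarith
  have hs0 : 0 < s := by
    rw [hs]
    have : 0 ≤ 4 * Real.log A / (α + 6 * η) := by positivity
    linarith
  have hk0 : 0 < k := by
    rw [hk]
    exact mul_pos hc0 (Real.exp_pos _)
  have hexp1 : Real.exp (-(α + 6 * η) * s) ≤ 1 := by
    rw [Real.exp_le_one_iff]
    nlinarith
  have hk1 : k ≤ 1 := by
    rw [hk]
    calc c₀ * Real.exp (-(α + 6 * η) * s) ≤ 1 * 1 :=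
          mul_le_mul hc1 hexp1 (Real.exp_pos _).le zero_le_one
      _ = 1 := one_mul 1
  obtain ⟨ht1, ht2, ht3⟩ := etb_th hk0 hk1
  have hpow1 : 1 ≤ A ^ (24 * η) := Real.one_le_rpow hA (by positivity)
  -- `k * A ^ 4 ≤ 1`
  have hkA : k * A ^ 4 ≤ 1 := by
    have h1 : Real.exp (-(α + 6 * η) * s) * A ^ 4 = Real.exp (-(α + 6 * η) * τ) := by
      have h2 : A ^ 4 = Real.exp (4 * Real.log A) := by
        rw [show (4 : ℝ) * Real.log A = Real.log A * 4 by ring, Real.exp_mul, Real.exp_log hA0]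
        norm_cast
      rw [h2, ← Real.exp_add, hs]
      congr 1
      field_simp
      ring
    rw [hk, mul_assoc, h1]
    have h3 : Real.exp (-(α + 6 * η) * τ) ≤ 1 := by
      rw [Real.exp_le_one_iff]
      nlinarith
    calc c₀ * Real.exp (-(α + 6 * η) * τ) ≤ 1 * 1 :=
          mul_le_mul hc1 h3 (Real.exp_pos _).le zero_le_one
      _ = 1 := one_mul 1
  -- the exponential of `6 η s`
  have hexps : Real.exp (6 * η * s) ≤ Real.exp (6 * η * τ) * A ^ (24 * η) := by
    rw [Real.rpow_def_of_pos hA0, ← Real.exp_add]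
    apply Real.exp_le_exp.mpr
    rw [hs]
    have h4 : 4 * Real.log A / (α + 6 * η) ≤ 4 * Real.log A :=
      div_le_self (by positivity) hb
    have h5 : 6 * η * (4 * Real.log A / (α + 6 * η)) ≤ 6 * η * (4 * Real.log A) :=
      mul_le_mul_of_nonneg_left h4 (by positivity)
    nlinarith
  rw [div_le_iff₀ ht3]
  -- first term
  have hfirst : 2 * (Θ * Real.exp (-α * (t + s))) ≤
      4 / c₀ * Real.exp (6 * η * τ) * Θ * A ^ (24 * η) * Real.exp (-(3 / 4) * t) * th k := by
    have h6 : Real.exp (-α * (t + s)) ≤ Real.exp (-(3 / 4) * t) * Real.exp (-α * s) := by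
      rw [← Real.exp_add]
      apply Real.exp_le_exp.mpr
      nlinarith
    have h7 : Real.exp (-α * s) = Real.exp (6 * η * s) * Real.exp (-(α + 6 * η) * s) := by
      rw [← Real.exp_add]
      congr 1
      ring
    have h8 : Real.exp (-(α + 6 * η) * s) = k / c₀ := by
      rw [hk]
      field_simp
    have h9 : Real.exp (-α * s) ≤ Real.exp (6 * η * τ) * A ^ (24 * η) * (k / c₀) := by
      rw [h7, h8]
      exact mul_le_mul_of_nonneg_right hexps (div_nonneg hk0.le hc0.le)
    have h10 : k ≤ 2 * th k := by linarith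
    calc 2 * (Θ * Real.exp (-α * (t + s)))
        ≤ 2 * (Θ * (Real.exp (-(3 / 4) * t) * (Real.exp (6 * η * τ) * A ^ (24 * η) * (k / c₀)))) := by
          refine mul_le_mul_of_nonneg_left ?_ (by norm_num)
          refine mul_le_mul_of_nonneg_left ?_ (by linarith)
          exact le_trans h6 (mul_le_mul_of_nonneg_left h9 (Real.exp_pos _).le)
      _ = (2 / c₀ * Real.exp (6 * η * τ) * Θ * A ^ (24 * η) * Real.exp (-(3 / 4) * t)) * k := by
          ring
      _ ≤ (2 / c₀ * Real.exp (6 * η * τ) * Θ * A ^ (24 * η) * Real.exp (-(3 / 4) * t)) *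
            (2 * th k) := by
          refine mul_le_mul_of_nonneg_left h10 ?_
          positivity
      _ = 4 / c₀ * Real.exp (6 * η * τ) * Θ * A ^ (24 * η) * Real.exp (-(3 / 4) * t) * th k := by
          ring
  have hsecond : th k ^ 2 * (K₁ * A ^ 4 * Real.exp (-(3 / 4) * t)) ≤
      K₁ * Θ * A ^ (24 * η) * Real.exp (-(3 / 4) * t) * th k := by
    have h11 : th k * A ^ 4 ≤ 1 := by
      refine le_trans ?_ hkA
      exact mul_le_mul_of_nonneg_right ht2 (by positivity)
    have h12 : th k * A ^ 4 ≤ Θ * A ^ (24 * η) := by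
      refine le_trans h11 ?_
      calc (1 : ℝ) = 1 * 1 := (one_mul 1).symm
        _ ≤ Θ * A ^ (24 * η) := mul_le_mul hΘ hpow1 zero_le_one (by linarith)
    calc th k ^ 2 * (K₁ * A ^ 4 * Real.exp (-(3 / 4) * t))
        = (th k * K₁ * Real.exp (-(3 / 4) * t)) * (th k * A ^ 4) := by ring
      _ ≤ (th k * K₁ * Real.exp (-(3 / 4) * t)) * (Θ * A ^ (24 * η)) := by
          refine mul_le_mul_of_nonneg_left h12 ?_
          have := Real.exp_pos (-(3 / 4) * t)
          positivity
      _ = K₁ * Θ * A ^ (24 * η) * Real.exp (-(3 / 4) * t) * th k := by ring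
  calc _ ≤ 4 / c₀ * Real.exp (6 * η * τ) * Θ * A ^ (24 * η) * Real.exp (-(3 / 4) * t) * th k +
        K₁ * Θ * A ^ (24 * η) * Real.exp (-(3 / 4) * t) * th k := add_le_add hfirst hsecond
    _ = _ := by ring

/-- ETB -/
theorem specETB (hIFQ : SpecIFQ) (hQBD : SpecQBD) (hITA : SpecITA) : SpecETB := by
  intro Γ V _ _ G _ h τ d p₀ hC p' α η c₀ hp' hp'1 hα hη hη1 hc0 hc1 hDec
  obtain ⟨K₁, hK1, hQ⟩ := hQBD Γ V G h τ d p₀ hC (3 / 4) (by norm_num)
  refine ⟨4 / c₀ * Real.exp (6 * η * τ) + K₁, ?_, ?_⟩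
  · have : 0 ≤ 4 / c₀ * Real.exp (6 * η * τ) := by
      have := Real.exp_pos (6 * η * τ)
      positivity
    linarith
  intro p A Θ hp hp1 hA hΘ hE hAT T x
  have hτ : 0 < τ := hC.ht.pos
  have hp0 : 0 ≤ p := le_trans hC.ppos.le (le_trans hp' hp)
  have hTA := hITA V G p hp0 hp1
  by_cases hx : T ≤ h x
  · have h0 : ET G p h τ T x = 0 := by
      unfold ET sm
      rw [ENNReal.tsum_eq_zero]
      intro y
      by_cases hy : y ∈ lay h (T - τ) T
      · rw [Set.indicator_of_mem hy]
        refine hTA.out _ _ _ (Or.inl ?_)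
        intro hmem
        exact absurd (show h x < T from hmem) (not_lt.mpr hx)
      · rw [Set.indicator_of_notMem hy]
    rw [h0]
    exact zero_le
  have hx' : 0 < T - h x := by
    push Not at hx
    linarith
  -- the up-neighbours
  choose u hu using hC.ht.up
  set b : ℝ := α + 6 * η with hb
  set s : ℝ := τ + 4 * Real.log A / b with hs
  set k : ℝ := c₀ * Real.exp (-b * s) with hk
  have hb1 : 1 ≤ b := by
    rw [hb]
    linarith
  have hlog : 0 ≤ Real.log A := Real.log_nonneg hA
  have hτs : τ ≤ s := by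
    rw [hs]
    have : 0 ≤ 4 * Real.log A / b := by positivity
    linarith
  have hk0 : 0 < k := mul_pos hc0 (Real.exp_pos _)
  have hk1 : k ≤ 1 := by
    have hexp1 : Real.exp (-b * s) ≤ 1 := by
      rw [Real.exp_le_one_iff]
      nlinarith
    calc c₀ * Real.exp (-b * s) ≤ 1 * 1 :=
          mul_le_mul hc1 hexp1 (Real.exp_pos _).le zero_le_one
      _ = 1 := one_mul 1
  have hL : lay h (T - τ) T ∩ bel h T = lay h (T - τ) T := by
    apply Set.inter_eq_left.mpr
    intro y hy
    exact hy.2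
  have h1 := hIFQ V G p k hp0 hp1 hk0.le hk1 (bel h T) (lay h (T - τ) T) u x (by
    intro y hy hmem
    have h2 : h (u y) < T := hmem
    rw [(hu y).2] at h2
    have h3 : T - τ ≤ h y := hy.1
    linarith)
  have h2 : FF G p k (bel h T) (lay h (T - τ) T) u x ≤ AT G p h (T + s) x := by
    have h3 := hDec u hu p hp hp1 s T (bel h T) hτs (Set.Subset.refl _) x
    rw [hL] at h3
    have h4 : bel h T ∪ lay h T (T + s) = bel h (T + s) := by
      ext y
      simp only [bel, lay, Set.mem_union, Set.mem_ofPred_eq]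
      constructor
      · rintro (h5 | h5)
        · linarith
        · exact h5.2
      · intro h5
        by_cases h6 : h y < T
        · exact Or.inl h6
        · exact Or.inr ⟨not_lt.mp h6, h5⟩
    rw [h4] at h3
    exact h3
  have h3 := hAT (T + s) x
  have h4 := hQ p (le_trans hp' hp) hp1 A hA hE T x
  have h5 : ENNReal.ofReal (th k) * ET G p h τ T x ≤
      ENNReal.ofReal (2 * (Θ * Real.exp (-α * ((T - h x) + s))) +
        th k ^ 2 * (K₁ * A ^ 4 * Real.exp (-(3 / 4) * (T - h x)))) := by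
    have hnn1 : 0 ≤ 2 * (Θ * Real.exp (-α * ((T - h x) + s))) := by
      have := Real.exp_pos (-α * ((T - h x) + s))
      positivity
    have hnn2 : 0 ≤ th k ^ 2 * (K₁ * A ^ 4 * Real.exp (-(3 / 4) * (T - h x))) := by
      have := Real.exp_pos (-(3 / 4) * (T - h x))
      positivity
    rw [ENNReal.ofReal_add hnn1 hnn2, ENNReal.ofReal_mul (by norm_num : (0 : ℝ) ≤ 2),
      ENNReal.ofReal_mul (sq_nonneg (th k))]
    refine le_trans h1 (add_le_add ?_ ?_)
    · have h6 : FF G p k (bel h T) (lay h (T - τ) T) u x ≤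
          ENNReal.ofReal (Θ * Real.exp (-α * ((T - h x) + s))) := by
        refine le_trans h2 (le_trans h3 (le_of_eq ?_))
        congr 3
        ring
      refine mul_le_mul' ?_ h6
      simp
    · exact mul_le_mul_right h4 _
  have h6 := etb_div (etb_th hk0 hk1).2.2 h5
  refine le_trans h6 (ENNReal.ofReal_le_ofReal ?_)
  exact etb_real hα hη hτ hx' hc0 hc1 hA hΘ hK1 hs hk

end NU

end MP8622
end

section
set_option autoImplicit false

open Classical Filter Topology

/-!
# MP_8622f1_pr, module FCH (helper28): finite susceptibility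

For `T > h x` the layer `[T-τ, T)` is at least `T - τ - h x` above `x`; by the mass transport
principle (MTI, third part) the sum over this layer is at most `exp (-(T - τ - h x)) X`.
-/

namespace MP8622

namespace NU

theorem fch_mono {V : Type} {C : Set V} {f g : V → ENNReal} (h : ∀ y ∈ C, f y ≤ g y) :
    sm C f ≤ sm C g := by
  unfold sm
  refine ENNReal.tsum_le_tsum fun y => ?_
  by_cases hy : y ∈ C
  · rw [Set.indicator_of_mem hy, Set.indicator_of_mem hy]
    exact h y hy
  · rw [Set.indicator_of_notMem hy, Set.indicator_of_notMem hy]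

theorem fch_zero {V : Type} {C : Set V} {f : V → ENNReal} (h : ∀ y ∈ C, f y = 0) :
    sm C f = 0 := by
  unfold sm
  rw [ENNReal.tsum_eq_zero]
  intro y
  by_cases hy : y ∈ C
  · rw [Set.indicator_of_mem hy]
    exact h y hy
  · rw [Set.indicator_of_notMem hy]

theorem fch_main (hMTI : SpecMTI) (hITA : SpecITA) {Γ V : Type} [Group Γ] [MulAction Γ V]
    (G : SimpleGraph V) [G.LocallyFinite] (h : V → ℝ) (τ : ℝ) (hh : HT Γ G h τ) (p X : ℝ)
    (hp0 : 0 ≤ p) (hp1 : p ≤ 1) (hX0 : 0 ≤ X) (hX : Chi G p X) (x : V) (T : ℝ) :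
    sm (lay h (T - τ) T) (fun z => TT G p Set.univ x z) ≤
        ENNReal.ofReal (X * Real.exp τ * Real.exp (-(T - h x))) := by
  have hT := hITA V G p hp0 hp1
  set ϕ : ℝ → ENNReal := fun s => if T - τ ≤ s + h x ∧ s + h x < T then 1 else 0 with hϕ
  have h1 : sm (lay h (T - τ) T) (fun z => TT G p Set.univ x z) =
      ∑' z, TT G p Set.univ x z * ϕ (h z - h x) := by
    unfold sm
    refine tsum_congr fun z => ?_
    by_cases hz : z ∈ lay h (T - τ) T
    · rw [Set.indicator_of_mem hz]
      have h2 : ϕ (h z - h x) = 1 := by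
        simp only [hϕ]
        rw [if_pos]
        rw [sub_add_cancel]
        exact hz
      rw [h2, mul_one]
    · rw [Set.indicator_of_notMem hz]
      have h2 : ϕ (h z - h x) = 0 := by
        simp only [hϕ]
        rw [if_neg]
        rw [sub_add_cancel]
        exact hz
      rw [h2, mul_zero]
  rw [h1, (hMTI Γ V G h τ p hh hp0 hp1 ϕ 0 x).2.2]
  have h3 : ∀ z : V, TT G p Set.univ z x * ϕ (h x - h z) * ENNReal.ofReal (Real.exp (h z - h x)) ≤
      TT G p Set.univ x z * ENNReal.ofReal (Real.exp τ * Real.exp (-(T - h x))) := by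
    intro z
    rw [hT.symm Set.univ z x, mul_assoc]
    refine mul_le_mul_right ?_ _
    by_cases hz : T - τ ≤ h x - h z + h x ∧ h x - h z + h x < T
    · have h2 : ϕ (h x - h z) = 1 := by
        simp only [hϕ]
        rw [if_pos hz]
      rw [h2, one_mul]
      apply ENNReal.ofReal_le_ofReal
      rw [← Real.exp_add]
      apply Real.exp_le_exp.mpr
      linarith [hz.1]
    · have h2 : ϕ (h x - h z) = 0 := by
        simp only [hϕ]
        rw [if_neg hz]
      rw [h2, zero_mul]
      exact zero_le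
  refine le_trans (ENNReal.tsum_le_tsum h3) ?_
  rw [ENNReal.tsum_mul_right, mul_assoc, ENNReal.ofReal_mul hX0]
  exact mul_le_mul_left (hX x) _

/-- FCH -/
theorem specFCH (hMTI : SpecMTI) (hITA : SpecITA) : SpecFCH := by
  intro Γ V _ _ G _ h τ d p₀ hC p X hp0 hp1 hX0 hX c hc0 hc1
  have hp : 0 ≤ p := le_trans hC.ppos.le hp0
  have hT := hITA V G p hp hp1
  have hmain := fch_main hMTI hITA G h τ hC.ht p X hp hp1 hX0 hX
  have key : ∀ (R : ℝ → V → Set V), (∀ (T : ℝ) (x : V), T ≤ h x → ∀ y ∈ lay h (T - τ) T,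
      TT G p (R T x) x y = 0) →
      Bd h (fun T x => sm (lay h (T - τ) T) (fun y => TT G p (R T x) x y)) (X * Real.exp τ) c := by
    intro R hR T x
    by_cases hx : T ≤ h x
    · have h0 : sm (lay h (T - τ) T) (fun y => TT G p (R T x) x y) = 0 := fch_zero (hR T x hx)
      show sm (lay h (T - τ) T) (fun y => TT G p (R T x) x y) ≤ _
      rw [h0]
      exact zero_le
    · have h1 : sm (lay h (T - τ) T) (fun y => TT G p (R T x) x y) ≤
          sm (lay h (T - τ) T) (fun y => TT G p Set.univ x y) :=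
        fch_mono fun y _ => hT.mono _ _ (Set.subset_univ _) x y
      refine le_trans h1 (le_trans (hmain x T) ?_)
      apply ENNReal.ofReal_le_ofReal
      have hpos : 0 ≤ X * Real.exp τ := mul_nonneg hX0 (Real.exp_pos τ).le
      refine mul_le_mul_of_nonneg_left ?_ hpos
      apply Real.exp_le_exp.mpr
      have hx' : 0 < T - h x := by
        push Not at hx
        linarith
      nlinarith
  refine ⟨?_, ?_, ?_, fun x T => hmain x T⟩
  · refine key (fun T _ => bel h T) ?_
    intro T x hx y _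
    refine hT.out _ _ _ (Or.inl ?_)
    intro hmem
    exact absurd (show h x < T from hmem) (not_lt.mpr hx)
  · refine key (fun T x => lay h (h x) T) ?_
    intro T x hx y _
    refine hT.out _ _ _ (Or.inl ?_)
    intro hmem
    exact absurd (show h x < T from hmem.2) (not_lt.mpr hx)
  · refine key (fun _ x => abv h (h x)) ?_
    intro T x hx y hy
    refine hT.out _ _ _ (Or.inr ?_)
    intro hmem
    have h1 : h x ≤ h y := hmem
    have h2 : h y < T := hy.2
    linarith

end NU

end MP8622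
end

section
set_option autoImplicit false

open Classical Filter Topology

/-!
# Module FSU: sums over layers in the whole space
-/

namespace MP8622

namespace NU

namespace FSUM

variable {V : Type}

theorem sm_mono {C : Set V} {f g : V → ENNReal} (h : ∀ y ∈ C, f y ≤ g y) : sm C f ≤ sm C g := by
  refine ENNReal.tsum_le_tsum fun y => ?_
  by_cases hy : y ∈ C
  · rw [Set.indicator_of_mem hy, Set.indicator_of_mem hy]
    exact h y hy
  · rw [Set.indicator_of_notMem hy, Set.indicator_of_notMem hy]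

theorem sm_add (C : Set V) (f g : V → ENNReal) :
    sm C (fun y => f y + g y) = sm C f + sm C g := by
  unfold sm
  rw [← ENNReal.tsum_add]
  refine tsum_congr fun y => ?_
  by_cases hy : y ∈ C
  · rw [Set.indicator_of_mem hy, Set.indicator_of_mem hy, Set.indicator_of_mem hy]
  · rw [Set.indicator_of_notMem hy, Set.indicator_of_notMem hy, Set.indicator_of_notMem hy,
      add_zero]

theorem sm_tsum (C : Set V) {ι : Type} (f : ι → V → ENNReal) :
    sm C (fun y => ∑' i, f i y) = ∑' i, sm C (f i) := by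
  unfold sm
  rw [ENNReal.tsum_comm]
  refine tsum_congr fun y => ?_
  by_cases hy : y ∈ C
  · rw [Set.indicator_of_mem hy]
    exact tsum_congr fun i => by rw [Set.indicator_of_mem hy]
  · rw [Set.indicator_of_notMem hy]
    symm
    rw [ENNReal.tsum_eq_zero]
    intro i
    rw [Set.indicator_of_notMem hy]

theorem sm_mul_left (C : Set V) (a : ENNReal) (f : V → ENNReal) :
    sm C (fun y => a * f y) = a * sm C f := by
  unfold sm
  rw [← ENNReal.tsum_mul_left]
  refine tsum_congr fun y => ?_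
  by_cases hy : y ∈ C
  · rw [Set.indicator_of_mem hy, Set.indicator_of_mem hy]
  · rw [Set.indicator_of_notMem hy, Set.indicator_of_notMem hy, mul_zero]

theorem sm_mul_right (C : Set V) (a : ENNReal) (f : V → ENNReal) :
    sm C (fun y => f y * a) = sm C f * a := by
  rw [mul_comm (sm C f) a, ← sm_mul_left]
  exact congrArg (sm C) (funext fun y => mul_comm _ _)

theorem sm_comm (C D : Set V) (f : V → V → ENNReal) :
    sm C (fun z => sm D (fun y => f y z)) = sm D (fun y => sm C (fun z => f y z)) := by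
  unfold sm
  have h1 : ∀ z, C.indicator (fun z => ∑' y, D.indicator (fun y => f y z) y) z =
      ∑' y, C.indicator (fun z => D.indicator (fun y => f y z) y) z := by
    intro z
    by_cases hz : z ∈ C
    · rw [Set.indicator_of_mem hz]
      exact tsum_congr fun i => by rw [Set.indicator_of_mem hz]
    · rw [Set.indicator_of_notMem hz]
      symm
      rw [ENNReal.tsum_eq_zero]
      intro i
      rw [Set.indicator_of_notMem hz]
  rw [tsum_congr h1, ENNReal.tsum_comm]
  refine tsum_congr fun y => ?_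
  by_cases hy : y ∈ D
  · rw [Set.indicator_of_mem hy]
    refine tsum_congr fun z => ?_
    by_cases hz : z ∈ C
    · rw [Set.indicator_of_mem hz, Set.indicator_of_mem hz, Set.indicator_of_mem hy]
    · rw [Set.indicator_of_notMem hz, Set.indicator_of_notMem hz]
  · rw [Set.indicator_of_notMem hy, ENNReal.tsum_eq_zero]
    intro z
    by_cases hz : z ∈ C
    · rw [Set.indicator_of_mem hz, Set.indicator_of_notMem hy]
    · rw [Set.indicator_of_notMem hz]

theorem sm_union_le (C D E : Set V) (hE : E ⊆ C ∪ D) (f : V → ENNReal) :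
    sm E f ≤ sm C f + sm D f := by
  unfold sm
  rw [← ENNReal.tsum_add]
  refine ENNReal.tsum_le_tsum fun y => ?_
  by_cases hy : y ∈ E
  · rw [Set.indicator_of_mem hy]
    rcases hE hy with h | h
    · rw [Set.indicator_of_mem h]
      exact le_self_add
    · rw [Set.indicator_of_mem h]
      exact le_add_self
  · rw [Set.indicator_of_notMem hy]
    exact zero_le

end FSUM

open FSUM in
theorem specFSU (hITA : SpecITA) (hHPD : SpecHPD) (hDWN : SpecDWN) (hMTI : SpecMTI) :
    SpecFSU := by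
  intro Γ V _ _ G _ h τ d p₀ hCx c hc
  obtain ⟨K₁, hK₁, hdwn⟩ := hDWN Γ V G h τ d p₀ hCx
  have hτ : 0 < τ := hCx.ht.pos
  -- the geometric series
  set r : ℝ := Real.exp ((1 - 2 * c) * τ) with hr
  have hr0 : 0 < r := Real.exp_pos _
  have hr1 : r < 1 := by
    rw [hr, Real.exp_lt_one_iff]
    nlinarith
  have hsum : Summable (fun i : ℕ => r ^ (i + 1)) :=
    (summable_nat_add_iff 1).2 (summable_geometric_of_lt_one hr0.le hr1)
  set S : ℝ := ∑' i : ℕ, r ^ (i + 1) with hS
  have hS0 : 0 ≤ S := tsum_nonneg fun i => pow_nonneg hr0.le _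
  have hexp : ∀ i : ℕ, Real.exp ((1 - 2 * c) * ((i + 1) * τ)) = r ^ (i + 1) := by
    intro i
    rw [hr, ← Real.exp_nat_mul]
    congr 1
    push_cast
    ring
  have hK0 : 0 ≤ K₁ := zero_le_one.trans hK₁
  have hKS : 0 ≤ K₁ * S := mul_nonneg hK0 hS0
  have hK2 : 1 ≤ 1 + K₁ * S := by linarith
  have he1 : 1 ≤ Real.exp τ := Real.one_le_exp hτ.le
  refine ⟨2 * (1 + K₁ * S) * Real.exp τ, by nlinarith, ?_⟩
  intro p hp0 hp1 A hA hET
  have hp : 0 ≤ p := hCx.ppos.le.trans hp0
  have hTT := hITA V G p hp hp1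
  have hA0 : 0 ≤ A := zero_le_one.trans hA
  -- the first part with a better constant
  have hfirst : ∀ (x : V) (T : ℝ), h x ≤ T → sm (lay h T (T + τ)) (fun z => TT G p Set.univ x z) ≤
      ENNReal.ofReal ((1 + K₁ * S) * A ^ 2 * Real.exp (-c * (T - h x))) := by
    intro x T _
    set T₀ : ℝ := T + τ with hT₀
    have hterm : ∀ i : ℕ, sm (lay h (T₀ + i * τ) (T₀ + (i + 1) * τ)) (fun y =>
        sm (lay h T T₀) (fun z =>
          TT G p (Set.univ ∩ bel h (T₀ + (i + 1) * τ)) x y *
            TT G p (Set.univ ∩ bel h (T₀ + (i + 1) * τ)) y z)) ≤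
        ENNReal.ofReal (A * Real.exp (-c * (T₀ - h x)) * (K₁ * A) * r ^ (i + 1)) := by
      intro i
      have hi : (0 : ℝ) ≤ (i + 1) * τ := by positivity
      have e1 : ∀ y ∈ lay h (T₀ + i * τ) (T₀ + (i + 1) * τ),
          sm (lay h T T₀) (fun z =>
            TT G p (Set.univ ∩ bel h (T₀ + (i + 1) * τ)) x y *
              TT G p (Set.univ ∩ bel h (T₀ + (i + 1) * τ)) y z) ≤
          TT G p (bel h (T₀ + (i + 1) * τ)) x y *
            ENNReal.ofReal (K₁ * A * Real.exp ((1 - c) * ((i + 1) * τ))) := by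
        intro y hy
        rw [sm_mul_left, Set.univ_inter]
        refine mul_le_mul_right ?_ _
        have hd := hdwn p hp0 hp1 A c hA0 (by linarith) hET (T₀ + (i + 1) * τ) ((i + 1) * τ) y
          (by have := hy.1; nlinarith) hi
        have e2 : T₀ + (i + 1) * τ - (i + 1) * τ - τ = T := by rw [hT₀]; ring
        have e3 : T₀ + (i + 1) * τ - (i + 1) * τ = T₀ := by ring
        rw [e2, e3] at hd
        exact hd
      refine (sm_mono e1).trans ?_
      rw [sm_mul_right]
      have e4 : sm (lay h (T₀ + i * τ) (T₀ + (i + 1) * τ))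
          (fun y => TT G p (bel h (T₀ + (i + 1) * τ)) x y) =
          ET G p h τ (T₀ + (i + 1) * τ) x := by
        unfold ET
        have : T₀ + (i + 1) * τ - τ = T₀ + i * τ := by ring
        rw [this]
      rw [e4]
      refine (mul_le_mul_left (hET _ _) _).trans ?_
      rw [← ENNReal.ofReal_mul (by positivity)]
      refine ENNReal.ofReal_le_ofReal (le_of_eq ?_)
      have e5 : Real.exp (-c * (T₀ + (i + 1) * τ - h x)) * Real.exp ((1 - c) * ((i + 1) * τ)) =
          Real.exp (-c * (T₀ - h x)) * r ^ (i + 1) := by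
        rw [← hexp i, ← Real.exp_add, ← Real.exp_add]
        congr 1
        ring
      calc A * Real.exp (-c * (T₀ + (i + 1) * τ - h x)) *
            (K₁ * A * Real.exp ((1 - c) * ((i + 1) * τ)))
          = A * (K₁ * A) * (Real.exp (-c * (T₀ + (i + 1) * τ - h x)) *
            Real.exp ((1 - c) * ((i + 1) * τ))) := by ring
        _ = _ := by rw [e5]; ring
    -- the decomposition
    have hdec : sm (lay h T T₀) (fun z => TT G p Set.univ x z) ≤ ET G p h τ T₀ x +
        ∑' i : ℕ, sm (lay h (T₀ + i * τ) (T₀ + (i + 1) * τ)) (fun y =>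
        sm (lay h T T₀) (fun z =>
          TT G p (Set.univ ∩ bel h (T₀ + (i + 1) * τ)) x y *
            TT G p (Set.univ ∩ bel h (T₀ + (i + 1) * τ)) y z)) := by
      refine (sm_mono fun z _ => hHPD V G h τ p hτ hp hp1 Set.univ T₀ x z).trans ?_
      rw [sm_add, sm_tsum]
      refine add_le_add (le_of_eq ?_) (le_of_eq ?_)
      · unfold ET
        rw [Set.univ_inter]
        have : T₀ - τ = T := by rw [hT₀]; ring
        rw [this]
      · refine tsum_congr fun i => ?_
        rw [sm_comm]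
    refine hdec.trans ?_
    refine (add_le_add (hET T₀ x) (ENNReal.tsum_le_tsum hterm)).trans ?_
    rw [← ENNReal.ofReal_tsum_of_nonneg (fun i => by positivity) (hsum.mul_left _), tsum_mul_left,
      ← ENNReal.ofReal_add (by positivity) (by positivity)]
    refine ENNReal.ofReal_le_ofReal ?_
    have hX : Real.exp (-c * (T₀ - h x)) ≤ Real.exp (-c * (T - h x)) := by
      apply Real.exp_le_exp.2
      rw [hT₀]
      nlinarith
    have hX0 : 0 < Real.exp (-c * (T₀ - h x)) := Real.exp_pos _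
    have hAA : A ≤ A ^ 2 := by nlinarith
    calc A * Real.exp (-c * (T₀ - h x)) + A * Real.exp (-c * (T₀ - h x)) * (K₁ * A) * S
        ≤ A ^ 2 * Real.exp (-c * (T₀ - h x)) + A ^ 2 * Real.exp (-c * (T₀ - h x)) * (K₁ * S) := by
          have := mul_le_mul_of_nonneg_right hAA hX0.le
          nlinarith
      _ = (1 + K₁ * S) * A ^ 2 * Real.exp (-c * (T₀ - h x)) := by ring
      _ ≤ (1 + K₁ * S) * A ^ 2 * Real.exp (-c * (T - h x)) :=
          mul_le_mul_of_nonneg_left hX (by positivity)
  constructor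
  · intro x T hT
    refine (hfirst x T hT).trans (ENNReal.ofReal_le_ofReal ?_)
    refine mul_le_mul_of_nonneg_right ?_ (Real.exp_pos _).le
    refine mul_le_mul_of_nonneg_right ?_ (by positivity)
    nlinarith
  · intro x T hT
    set s : ℝ := h x - T with hs
    have hs0 : 0 ≤ s := by rw [hs]; linarith
    set ϕ : ℝ → ENNReal := fun v => if -s - τ ≤ v ∧ v < -s then 1 else 0 with hϕ
    have h1 : sm (lay h (T - τ) T) (fun z => TT G p Set.univ x z) =
        ∑' z, TT G p Set.univ x z * ϕ (h z - h x) := by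
      unfold sm
      refine tsum_congr fun z => ?_
      by_cases hz : z ∈ lay h (T - τ) T
      · rw [Set.indicator_of_mem hz]
        have h2 : ϕ (h z - h x) = 1 := by
          simp only [hϕ]
          rw [if_pos]
          have h3 := hz.1
          have h4 := hz.2
          constructor
          · rw [hs]; linarith
          · rw [hs]; linarith
        rw [h2, mul_one]
      · rw [Set.indicator_of_notMem hz]
        have h2 : ϕ (h z - h x) = 0 := by
          simp only [hϕ]
          rw [if_neg]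
          rintro ⟨h3, h4⟩
          refine hz ⟨?_, ?_⟩
          · rw [hs] at h3; linarith
          · rw [hs] at h4; linarith
        rw [h2, mul_zero]
    rw [h1, (hMTI Γ V G h τ p hCx.ht hp hp1 ϕ 0 x).2.2]
    have hE : {z : V | s < h z - h x ∧ h z - h x ≤ s + τ} ⊆
        lay h (h x + s) (h x + s + τ) ∪ lay h (h x + s + τ) (h x + s + τ + τ) := by
      intro z hz
      have h3 : s < h z - h x := hz.1
      have h4 : h z - h x ≤ s + τ := hz.2
      by_cases h5 : h z < h x + s + τ
      · exact Or.inl ⟨by linarith, h5⟩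
      · exact Or.inr ⟨not_lt.1 h5, by linarith⟩
    have h6 : ∑' z, TT G p Set.univ z x * ϕ (h x - h z) *
        ENNReal.ofReal (Real.exp (h z - h x)) ≤
        sm {z : V | s < h z - h x ∧ h z - h x ≤ s + τ} (fun z =>
          TT G p Set.univ x z * ENNReal.ofReal (Real.exp (s + τ))) := by
      unfold sm
      refine ENNReal.tsum_le_tsum fun z => ?_
      by_cases hz : z ∈ {z : V | s < h z - h x ∧ h z - h x ≤ s + τ}
      · rw [Set.indicator_of_mem hz]
        have h3 : s < h z - h x := hz.1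
        have h4 : h z - h x ≤ s + τ := hz.2
        have h2 : ϕ (h x - h z) = 1 := by
          simp only [hϕ]
          rw [if_pos]
          constructor <;> linarith
        rw [h2, mul_one, hTT.symm Set.univ z x]
        exact mul_le_mul_right (ENNReal.ofReal_le_ofReal (Real.exp_le_exp.2 h4)) _
      · rw [Set.indicator_of_notMem hz]
        have h2 : ϕ (h x - h z) = 0 := by
          simp only [hϕ]
          rw [if_neg]
          rintro ⟨h3, h4⟩
          exact hz ⟨by linarith, by linarith⟩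
        rw [h2, mul_zero, zero_mul]
    refine h6.trans ?_
    rw [sm_mul_right]
    have h7 : sm {z : V | s < h z - h x ∧ h z - h x ≤ s + τ} (fun z => TT G p Set.univ x z) ≤
        ENNReal.ofReal (2 * ((1 + K₁ * S) * A ^ 2 * Real.exp (-c * s))) := by
      refine (sm_union_le _ _ _ hE _).trans ?_
      refine (add_le_add (hfirst x (h x + s) (by linarith))
        (hfirst x (h x + s + τ) (by linarith))).trans ?_
      rw [← ENNReal.ofReal_add (by positivity) (by positivity)]
      refine ENNReal.ofReal_le_ofReal ?_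
      have e1 : h x + s - h x = s := by ring
      have e2 : Real.exp (-c * (h x + s + τ - h x)) ≤ Real.exp (-c * s) := by
        apply Real.exp_le_exp.2
        nlinarith
      rw [e1]
      have := mul_le_mul_of_nonneg_left e2 (show 0 ≤ (1 + K₁ * S) * A ^ 2 by positivity)
      linarith
    refine (mul_le_mul_left h7 _).trans ?_
    rw [← ENNReal.ofReal_mul (by positivity)]
    refine ENNReal.ofReal_le_ofReal (le_of_eq ?_)
    have e3 : Real.exp (-c * s) * Real.exp (s + τ) = Real.exp τ * Real.exp ((1 - c) * s) := by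
      rw [← Real.exp_add, ← Real.exp_add]
      congr 1
      ring
    calc 2 * ((1 + K₁ * S) * A ^ 2 * Real.exp (-c * s)) * Real.exp (s + τ)
        = 2 * ((1 + K₁ * S) * A ^ 2) * (Real.exp (-c * s) * Real.exp (s + τ)) := by ring
      _ = _ := by rw [e3]; ring

end NU

end MP8622
end

section
set_option autoImplicit false

open Classical Filter Topology

/-! MTT: the mass transport principle. -/

namespace MP8622

namespace NU

namespace MTTM

variable {Γ V : Type} [Group Γ] [MulAction Γ V]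

theorem mem_orb {x y w : V} :
    w ∈ MulAction.orbit (MulAction.stabilizer Γ x) y ↔ ∃ g : Γ, g • x = x ∧ g • y = w := by
  constructor
  · rintro ⟨⟨g, hg⟩, h⟩
    exact ⟨g, MulAction.mem_stabilizer_iff.1 hg, h⟩
  · rintro ⟨g, hg, h⟩
    exact ⟨⟨g, MulAction.mem_stabilizer_iff.2 hg⟩, h⟩

theorem os_smul (γ : Γ) (x y : V) : os Γ (γ • x) (γ • y) = os Γ x y := by
  unfold os
  have h : MulAction.orbit (MulAction.stabilizer Γ (γ • x)) (γ • y) =
      (fun v => γ • v) '' MulAction.orbit (MulAction.stabilizer Γ x) y := by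
    ext w
    rw [mem_orb, Set.mem_image]
    constructor
    · rintro ⟨g, hg, rfl⟩
      refine ⟨γ⁻¹ • g • γ • y, mem_orb.2 ⟨γ⁻¹ * g * γ, ?_, ?_⟩, ?_⟩
      · rw [mul_smul, mul_smul, hg, inv_smul_smul]
      · rw [mul_smul, mul_smul]
      · exact smul_inv_smul γ _
    · rintro ⟨v, hv, rfl⟩
      obtain ⟨g, hg, rfl⟩ := mem_orb.1 hv
      refine ⟨γ * g * γ⁻¹, ?_, ?_⟩
      · rw [mul_smul, mul_smul, inv_smul_smul, hg]
      · rw [mul_smul, mul_smul, inv_smul_smul]
  rw [h, Set.ncard_image_of_injective _ (MulAction.injective γ)]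

/-- the pair `(y, x)` is moved to the pair `(x, y')` -/
def Rl (Γ : Type) {V : Type} [Group Γ] [MulAction Γ V] (x y y' : V) : Prop :=
  ∃ γ : Γ, γ • y = x ∧ γ • x = y'

theorem Rl_symm {x y y' : V} (h : Rl Γ x y y') : Rl Γ x y' y := by
  obtain ⟨γ, h1, h2⟩ := h
  refine ⟨γ⁻¹, ?_, ?_⟩
  · rw [← h2, inv_smul_smul]
  · rw [← h1, inv_smul_smul]

theorem Rl_orbit {x y : V} {γ : Γ} (hγ : γ • y = x) :
    {y' | Rl Γ x y y'} = MulAction.orbit (MulAction.stabilizer Γ x) (γ • x) := by
  ext w
  rw [Set.mem_setOf_eq, mem_orb]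
  constructor
  · rintro ⟨g, h1, h2⟩
    refine ⟨g * γ⁻¹, ?_, ?_⟩
    · rw [mul_smul, ← hγ, inv_smul_smul, hγ, h1]
    · rw [mul_smul, inv_smul_smul, h2]
  · rintro ⟨g, h1, h2⟩
    refine ⟨g * γ, ?_, ?_⟩
    · rw [mul_smul, hγ, h1]
    · rw [mul_smul, h2]

theorem tsum_ind {α : Type} {s : Set α} (hs : s.Finite) (c : ENNReal) :
    ∑' a, (if a ∈ s then c else 0) = s.ncard * c := by
  rw [tsum_eq_sum (s := hs.toFinset)]
  · rw [Finset.sum_congr rfl (g := fun _ => c)]
    · rw [Finset.sum_const, nsmul_eq_mul, Set.ncard_eq_toFinset_card s hs]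
    · intro a ha
      rw [if_pos (hs.mem_toFinset.1 ha)]
  · intro a ha
    rw [if_neg fun h => ha (hs.mem_toFinset.2 h)]

theorem count (hfin : ∀ x y : V, (MulAction.orbit (MulAction.stabilizer Γ x) y).Finite)
    (htr : ∀ x y : V, ∃ γ : Γ, γ • x = y) (x y : V) (c : ENNReal) :
    ∑' y', (if Rl Γ x y y' then c else 0) = os Γ y x * c := by
  obtain ⟨γ, hγ⟩ := htr y x
  have h := Rl_orbit hγ
  have hf : ({y' | Rl Γ x y y'}).Finite := by rw [h]; exact hfin _ _
  have h2 := tsum_ind hf c
  rw [h] at h2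
  have h3 : (MulAction.orbit (MulAction.stabilizer Γ x) (γ • x)).ncard = os Γ y x := by
    have := os_smul γ y x
    rw [hγ] at this
    exact this
  rw [h3] at h2
  rw [← h2]
  refine tsum_congr fun y' => ?_
  rw [← h]
  rfl

end MTTM

open MTTM in
theorem specMTT : SpecMTT := by
  intro Γ V _ _ hfin htr F hF x
  have hpos : ∀ a b : V, (os Γ a b : ENNReal) ≠ 0 := by
    intro a b
    have : 0 < os Γ a b := by
      unfold os
      rw [Set.ncard_pos (hfin a b)]
      exact ⟨b, MulAction.mem_orbit_self b⟩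
    exact_mod_cast this.ne'
  have htop : ∀ a b : V, (os Γ a b : ENNReal) ≠ ⊤ := fun a b => ENNReal.natCast_ne_top _
  have h1 : ∀ y, F x y = ∑' y', (if Rl Γ x y y' then F x y / os Γ y x else 0) := by
    intro y
    rw [count hfin htr, ENNReal.mul_div_cancel (hpos y x) (htop y x)]
  have h2 : ∀ y y', (if Rl Γ x y y' then F x y / os Γ y x else 0) =
      (if Rl Γ x y' y then F y' x / os Γ x y' else 0) := by
    intro y y'
    by_cases h : Rl Γ x y y'
    · rw [if_pos h, if_pos (Rl_symm h)]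
      obtain ⟨γ, g1, g2⟩ := Rl_symm h
      have e1 : F y' x = F x y := by
        rw [← hF γ y' x, g1, g2]
      obtain ⟨δ, d1, d2⟩ := h
      have e2 : os Γ y x = os Γ x y' := by
        rw [← os_smul δ y x, d1, d2]
      rw [e1, e2]
    · rw [if_neg h, if_neg fun h' => h (Rl_symm h')]
  calc ∑' y, F x y = ∑' y, ∑' y', (if Rl Γ x y y' then F x y / os Γ y x else 0) :=
        tsum_congr h1
    _ = ∑' y, ∑' y', (if Rl Γ x y' y then F y' x / os Γ x y' else 0) :=
        tsum_congr fun y => tsum_congr fun y' => h2 y y'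
    _ = ∑' y', ∑' y, (if Rl Γ x y' y then F y' x / os Γ x y' else 0) := ENNReal.tsum_comm
    _ = ∑' y', F y' x * ((os Γ y' x : ENNReal) / (os Γ x y' : ENNReal)) := by
        refine tsum_congr fun y' => ?_
        rw [count hfin htr]
        rw [div_eq_mul_inv, div_eq_mul_inv]
        ring

end NU

end MP8622
end

section
set_option autoImplicit false

open Classical Filter Topology

/-! HGT: heights. -/

namespace MP8622

namespace NU

namespace HGTM

open MTTM

variable {Γ V : Type} [Group Γ] [MulAction Γ V]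

theorem orb_finite (G : SimpleGraph V) [G.LocallyFinite] (hc : G.Connected)
    (ha : ∀ (γ : Γ) (x y : V), G.Adj (γ • x) (γ • y) ↔ G.Adj x y) (x y : V) :
    (MulAction.orbit (MulAction.stabilizer Γ x) y).Finite := by
  have hr : Relation.ReflTransGen G.Adj x y :=
    (SimpleGraph.reachable_iff_reflTransGen x y).1 (hc.preconnected x y)
  induction hr with
  | refl =>
    refine (Set.finite_singleton x).subset ?_
    intro w hw
    obtain ⟨g, h1, h2⟩ := mem_orb.1 hw
    rw [Set.mem_singleton_iff, ← h2, h1]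
  | @tail b c _ hbc ih =>
    refine (ih.biUnion (t := fun w => (G.neighborFinset w : Set V))
      fun w _ => Finset.finite_toSet _).subset ?_
    intro w hw
    obtain ⟨g, h1, h2⟩ := mem_orb.1 hw
    refine Set.mem_biUnion (mem_orb.2 ⟨g, h1, rfl⟩ : g • b ∈ _) ?_
    rw [Finset.mem_coe, SimpleGraph.mem_neighborFinset, ← h2]
    exact (ha g b c).2 hbc

end HGTM

open HGTM MTTM in
theorem specHGT (hMOD : SpecMOD) (hMTT : SpecMTT) : SpecHGT := by
  intro Γ V _ _ G _ hc ha htr hne
  have hfin := orb_finite (Γ := Γ) G hc ha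
  obtain ⟨a0, b0, hab⟩ := hne
  set o : V := a0 with ho
  set h : V → ℝ := fun x => Real.log (os Γ x o) - Real.log (os Γ o x) with hh
  have pos : ∀ x y : V, (0 : ℝ) < (os Γ x y : ℝ) := fun x y => by
    exact_mod_cast (hMOD Γ V hfin x y x).1
  have key : ∀ x y : V, h y - h x = Real.log (os Γ y x) - Real.log (os Γ x y) := by
    intro x y
    have e := (hMOD Γ V hfin y x o).2
    have e' : (os Γ y x : ℝ) * os Γ x o * os Γ o y = os Γ x y * os Γ o x * os Γ y o := by
      exact_mod_cast e
    have e2 := congrArg Real.log e'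
    rw [Real.log_mul (mul_pos (pos _ _) (pos _ _)).ne' (pos _ _).ne',
      Real.log_mul (pos _ _).ne' (pos _ _).ne',
      Real.log_mul (mul_pos (pos _ _) (pos _ _)).ne' (pos _ _).ne',
      Real.log_mul (pos _ _).ne' (pos _ _).ne'] at e2
    rw [hh]
    simp only
    linarith
  have eqv : ∀ (γ : Γ) (x y : V), h (γ • y) - h (γ • x) = h y - h x := by
    intro γ x y
    rw [key, key, os_smul, os_smul]
  -- some edge has different heights
  have hedge : ∃ x y : V, G.Adj x y ∧ h y ≠ h x := by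
    by_contra hcon
    push Not at hcon
    have hconst : ∀ y : V, Relation.ReflTransGen G.Adj a0 y → h y = h a0 := by
      intro y hy
      induction hy with
      | refl => rfl
      | @tail b c _ hbc ih => rw [hcon b c hbc, ih]
    have h1 := hconst b0 ((SimpleGraph.reachable_iff_reflTransGen a0 b0).1
      (hc.preconnected a0 b0))
    have h2 := key a0 b0
    rw [h1, sub_self] at h2
    have h3 : Real.log (os Γ b0 a0) = Real.log (os Γ a0 b0) := by linarith
    have h4 : (os Γ b0 a0 : ℝ) = os Γ a0 b0 := by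
      have := congrArg Real.exp h3
      rwa [Real.exp_log (pos _ _), Real.exp_log (pos _ _)] at this
    exact hab (by exact_mod_cast h4.symm)
  obtain ⟨x0, y0, hxy0, hne0⟩ := hedge
  obtain ⟨y1, hy1, hmax⟩ := Finset.exists_max_image (G.neighborFinset x0)
    (fun y => |h y - h x0|) ⟨y0, by rw [SimpleGraph.mem_neighborFinset]; exact hxy0⟩
  rw [SimpleGraph.mem_neighborFinset] at hy1
  have hτ : 0 < |h y1 - h x0| := by
    have h1 : 0 < |h y0 - h x0| := abs_pos.2 (sub_ne_zero.2 hne0)
    exact lt_of_lt_of_le h1 (hmax y0 (by rw [SimpleGraph.mem_neighborFinset]; exact hxy0))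
  have hfw : ∀ x : V, ∃ y, G.Adj x y ∧ h y = h x + (h y1 - h x0) := by
    intro x
    obtain ⟨γ, hγ⟩ := htr x0 x
    refine ⟨γ • y1, ?_, ?_⟩
    · rw [← hγ]; exact (ha γ x0 y1).2 hy1
    · have := eqv γ x0 y1
      rw [hγ] at this
      linarith
  have hbw : ∀ x : V, ∃ y, G.Adj x y ∧ h y = h x - (h y1 - h x0) := by
    intro x
    obtain ⟨γ, hγ⟩ := htr y1 x
    refine ⟨γ • x0, ?_, ?_⟩
    · rw [← hγ]; exact (ha γ y1 x0).2 hy1.symm
    · have := eqv γ y1 x0
      rw [hγ] at this
      linarith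
  refine ⟨h, |h y1 - h x0|, hτ, ha, htr, eqv, ?_, ?_, ?_, ?_⟩
  · intro x y hxy
    obtain ⟨γ, hγ⟩ := htr x x0
    have h1 := eqv γ x y
    rw [hγ] at h1
    rw [← h1]
    refine hmax (γ • y) ?_
    rw [SimpleGraph.mem_neighborFinset, ← hγ]
    exact (ha γ x y).2 hxy
  · intro x
    rcases le_total 0 (h y1 - h x0) with hs | hs
    · rw [abs_of_nonneg hs]; exact hfw x
    · rw [abs_of_nonpos hs]
      obtain ⟨y, g1, g2⟩ := hbw x
      exact ⟨y, g1, by rw [g2]; ring⟩
  · intro x
    rcases le_total 0 (h y1 - h x0) with hs | hs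
    · rw [abs_of_nonneg hs]; exact hbw x
    · rw [abs_of_nonpos hs]
      obtain ⟨y, g1, g2⟩ := hfw x
      exact ⟨y, g1, by rw [g2]; ring⟩
  · intro F hF x
    rw [hMTT Γ V hfin htr F hF x]
    refine tsum_congr fun y => ?_
    congr 1
    rw [key, Real.exp_sub, Real.exp_log (pos _ _), Real.exp_log (pos _ _),
      ENNReal.ofReal_div_of_pos (pos _ _), ENNReal.ofReal_natCast, ENNReal.ofReal_natCast]

end NU

end MP8622
end

section
set_option autoImplicit false

open Classical Filter Topology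

namespace MP8622

namespace NU

/-- HPD: decomposition of the two point function at the highest layer. -/
theorem specHPD (hITR : SpecITR) (hITA : SpecITA) : SpecHPD := by
  intro V G _ h τ p hτ h0 h1 R₀ T₀ x z
  have M := hITA V G p h0 h1
  set F : ℕ → ENNReal := fun i => sm (lay h (T₀ + i * τ) (T₀ + (i + 1) * τ)) (fun y =>
    TT G p (R₀ ∩ bel h (T₀ + (i + 1) * τ)) x y * TT G p (R₀ ∩ bel h (T₀ + (i + 1) * τ)) y z)
    with hF
  have hun : R₀ = ⋃ n : ℕ, R₀ ∩ bel h (T₀ + n * τ) := by
    ext y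
    simp only [Set.mem_iUnion]
    constructor
    · intro hy
      obtain ⟨n, hn⟩ := exists_nat_gt ((h y - T₀) / τ)
      refine ⟨n, hy, ?_⟩
      rw [div_lt_iff₀ hτ] at hn
      show h y < T₀ + n * τ
      linarith
    · rintro ⟨n, hn⟩
      exact hn.1
  have hmono : Monotone (fun n : ℕ => R₀ ∩ bel h (T₀ + n * τ)) := by
    intro m n hmn y hy
    refine ⟨hy.1, ?_⟩
    have h2 : (m : ℝ) * τ ≤ n * τ := by
      have : (m : ℝ) ≤ n := by exact_mod_cast hmn
      exact mul_le_mul_of_nonneg_right this hτ.le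
    have h3 : h y < T₀ + m * τ := hy.2
    show h y < T₀ + n * τ
    linarith
  have hstep : ∀ n : ℕ, TT G p (R₀ ∩ bel h (T₀ + n * τ)) x z ≤
      TT G p (R₀ ∩ bel h T₀) x z + ∑ i ∈ Finset.range n, F i := by
    intro n
    induction n with
    | zero =>
      rw [Finset.sum_range_zero, add_zero, Nat.cast_zero, zero_mul, add_zero]
    | succ n ih =>
      have hset : (R₀ ∩ bel h (T₀ + ((n + 1 : ℕ) : ℝ) * τ)) \
          lay h (T₀ + n * τ) (T₀ + (n + 1) * τ) = R₀ ∩ bel h (T₀ + n * τ) := by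
        ext y
        simp only [lay, bel, Set.mem_sdiff, Set.mem_inter_iff, Set.mem_setOf_eq, Nat.cast_add,
          Nat.cast_one]
        constructor
        · rintro ⟨⟨h2, h3⟩, h4⟩
          refine ⟨h2, ?_⟩
          by_contra h5
          exact h4 ⟨not_lt.mp h5, h3⟩
        · rintro ⟨h2, h3⟩
          refine ⟨⟨h2, by linarith⟩, ?_⟩
          rintro ⟨h5, _⟩
          linarith
      have h2 := hITR V G p h0 h1 (R₀ ∩ bel h (T₀ + ((n + 1 : ℕ) : ℝ) * τ))
        (lay h (T₀ + n * τ) (T₀ + (n + 1) * τ)) x z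
      rw [hset] at h2
      rw [Finset.sum_range_succ, ← add_assoc]
      refine h2.trans ?_
      have h3 : ∑' y, (lay h (T₀ + n * τ) (T₀ + (n + 1) * τ)).indicator (fun y =>
          TT G p (R₀ ∩ bel h (T₀ + ((n + 1 : ℕ) : ℝ) * τ)) x y *
            TT G p (R₀ ∩ bel h (T₀ + ((n + 1 : ℕ) : ℝ) * τ)) y z) y = F n := by
        simp only [hF, sm, Nat.cast_add, Nat.cast_one]
      rw [h3]
      gcongr
  calc TT G p R₀ x z = TT G p (⋃ n : ℕ, R₀ ∩ bel h (T₀ + n * τ)) x z := by rw [← hun]
    _ = ⨆ n : ℕ, TT G p (R₀ ∩ bel h (T₀ + n * τ)) x z := M.dir _ hmono x z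
    _ ≤ _ := by
      refine iSup_le fun n => (hstep n).trans ?_
      gcongr
      exact ENNReal.sum_le_tsum _

end NU

end MP8622
end

section
set_option autoImplicit false

open Classical Filter Topology

namespace MP8622

namespace NU

/-- LPD: decomposition of the magnetisation at the lowest layer. -/
theorem specLPD (hIMR : SpecIMR) (hIMA : SpecIMA) : SpecLPD := by
  intro V G _ h τ p hτ h0 h1 b T x
  have M := hIMA V G p h0 h1
  set F : ℕ → ENNReal := fun i => sm (lay h (b - (i + 1) * τ) (b - i * τ)) (fun z =>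
    TT G p (lay h (b - (i + 1) * τ) T) x z * MM G p (lay h (b - (i + 1) * τ) T) (abv h T) z)
    with hF
  have hun : bel h T = ⋃ n : ℕ, lay h (b - n * τ) T := by
    ext y
    simp only [Set.mem_iUnion]
    constructor
    · intro hy
      obtain ⟨n, hn⟩ := exists_nat_gt ((b - h y) / τ)
      refine ⟨n, ?_, hy⟩
      rw [div_lt_iff₀ hτ] at hn
      linarith
    · rintro ⟨n, hn⟩
      exact hn.2
  have hmono : Monotone (fun n : ℕ => lay h (b - n * τ) T) := by
    intro m n hmn y hy
    refine ⟨?_, hy.2⟩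
    have h2 : (m : ℝ) * τ ≤ n * τ := by
      have : (m : ℝ) ≤ n := by exact_mod_cast hmn
      exact mul_le_mul_of_nonneg_right this hτ.le
    have h3 := hy.1
    linarith
  have hstep : ∀ n : ℕ, MM G p (lay h (b - n * τ) T) (abv h T) x ≤
      MM G p (lay h b T) (abv h T) x + ∑ i ∈ Finset.range n, F i := by
    intro n
    induction n with
    | zero =>
      rw [Finset.sum_range_zero, add_zero, Nat.cast_zero, zero_mul, sub_zero]
    | succ n ih =>
      have hdis : Disjoint (lay h (b - ((n + 1 : ℕ) : ℝ) * τ) T) (abv h T) := by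
        rw [Set.disjoint_left]
        intro y hy hy2
        exact absurd hy.2 (not_lt.mpr hy2)
      have hset : lay h (b - ((n + 1 : ℕ) : ℝ) * τ) T \ lay h (b - (n + 1) * τ) (b - n * τ) =
          lay h (b - n * τ) T := by
        ext y
        simp only [lay, Set.mem_diff, Set.mem_setOf_eq, Nat.cast_add, Nat.cast_one]
        constructor
        · rintro ⟨⟨h2, h3⟩, h4⟩
          refine ⟨?_, h3⟩
          by_contra h5
          exact h4 ⟨h2, not_le.mp h5⟩
        · rintro ⟨h2, h3⟩
          refine ⟨⟨by linarith, h3⟩, ?_⟩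
          rintro ⟨_, h5⟩
          linarith
      have h2 := hIMR V G p h0 h1 (lay h (b - ((n + 1 : ℕ) : ℝ) * τ) T) (abv h T)
        (lay h (b - (n + 1) * τ) (b - n * τ)) x hdis
      rw [hset] at h2
      rw [Finset.sum_range_succ, ← add_assoc]
      refine h2.trans ?_
      have h3 : ∑' z, (lay h (b - (n + 1) * τ) (b - n * τ)).indicator (fun z =>
          TT G p (lay h (b - ((n + 1 : ℕ) : ℝ) * τ) T) x z *
            MM G p (lay h (b - ((n + 1 : ℕ) : ℝ) * τ) T) (abv h T) z) z = F n := by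
        simp only [hF, sm, Nat.cast_add, Nat.cast_one]
      rw [h3]
      gcongr
  rw [hun, M.dir _ _ hmono]
  refine iSup_le fun n => (hstep n).trans ?_
  gcongr
  exact ENNReal.sum_le_tsum _

end NU

end MP8622
end

section
set_option autoImplicit false

open Classical Filter Topology

/-! MOD: the modular cocycle. -/

namespace MP8622

namespace NU

namespace MODM

variable {Γ V : Type} [Group Γ] [MulAction Γ V]

theorem os_eq (x y : V) :
    os Γ x y = (MulAction.stabilizer Γ y).relIndex (MulAction.stabilizer Γ x) := by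
  have h1 : MulAction.stabilizer (MulAction.stabilizer Γ x) y =
      (MulAction.stabilizer Γ y).subgroupOf (MulAction.stabilizer Γ x) := by
    ext g
    rw [Subgroup.mem_subgroupOf, MulAction.mem_stabilizer_iff, MulAction.mem_stabilizer_iff]
    rfl
  unfold os
  rw [← MulAction.index_stabilizer, h1]
  rfl

theorem os_pos (h : ∀ x y : V, (MulAction.orbit (MulAction.stabilizer Γ x) y).Finite)
    (x y : V) : 0 < os Γ x y := by
  unfold os
  rw [Set.ncard_pos (h x y)]
  exact ⟨y, MulAction.mem_orbit_self y⟩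

theorem tower (A B D : Subgroup Γ) (h : D ≤ A ⊓ B) :
    D.relIndex (A ⊓ B) * B.relIndex A = D.relIndex A := by
  have h1 : B.relIndex A = (A ⊓ B).relIndex A := by
    rw [inf_comm, Subgroup.inf_relIndex_right]
  rw [h1]
  exact Subgroup.relIndex_mul_relIndex _ _ _ h inf_le_left

end MODM

open MODM in
theorem specMOD : SpecMOD := by
  intro Γ V _ _ hfin x y z
  refine ⟨os_pos hfin x y, ?_⟩
  have p := fun a b : V => os_pos (Γ := Γ) hfin a b
  set A := MulAction.stabilizer Γ x with hA
  set B := MulAction.stabilizer Γ y with hB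
  set C := MulAction.stabilizer Γ z with hC
  set D : Subgroup Γ := A ⊓ B ⊓ C with hD
  have dAB : D ≤ A ⊓ B := inf_le_left
  have dBA : D ≤ B ⊓ A := by rw [inf_comm B A]; exact dAB
  have dAC : D ≤ A ⊓ C := le_inf (inf_le_left.trans inf_le_left) inf_le_right
  have dCA : D ≤ C ⊓ A := by rw [inf_comm C A]; exact dAC
  have dBC : D ≤ B ⊓ C := le_inf (inf_le_left.trans inf_le_right) inf_le_right
  have dCB : D ≤ C ⊓ B := by rw [inf_comm C B]; exact dBC
  have e1 := tower A B D dAB
  have e2 := tower A C D dAC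
  have e3 := tower B A D dBA
  have e4 := tower B C D dBC
  have e5 := tower C A D dCA
  have e6 := tower C B D dCB
  rw [inf_comm B A] at e3
  rw [inf_comm C A] at e5
  rw [inf_comm C B] at e6
  have o1 := os_eq (Γ := Γ) x y
  have o2 := os_eq (Γ := Γ) x z
  have o3 := os_eq (Γ := Γ) y x
  have o4 := os_eq (Γ := Γ) y z
  have o5 := os_eq (Γ := Γ) z x
  have o6 := os_eq (Γ := Γ) z y
  rw [← hA, ← hB] at o1 o3
  rw [← hA, ← hC] at o2 o5
  rw [← hB, ← hC] at o4 o6
  rw [← o1] at e1
  rw [← o2] at e2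
  rw [← o3] at e3
  rw [← o4] at e4
  rw [← o5] at e5
  rw [← o6] at e6
  -- finiteness of the indices
  have nAB : B.relIndex A ≠ 0 := by rw [← o1]; exact (p x y).ne'
  have nAC : C.relIndex A ≠ 0 := by rw [← o2]; exact (p x z).ne'
  have nBA : A.relIndex B ≠ 0 := by rw [← o3]; exact (p y x).ne'
  have nBC : C.relIndex B ≠ 0 := by rw [← o4]; exact (p y z).ne'
  have nDA : D.relIndex A ≠ 0 := by
    have h1 : D.relIndex A = (B ⊓ C).relIndex A := by
      rw [hD, inf_assoc, inf_comm A (B ⊓ C), Subgroup.inf_relIndex_right]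
    rw [h1]
    exact Subgroup.relIndex_inf_ne_zero nAB nAC
  have nDB : D.relIndex B ≠ 0 := by
    have h1 : D.relIndex B = (A ⊓ C).relIndex B := by
      have : D = (A ⊓ C) ⊓ B := by
        rw [hD, inf_assoc, inf_assoc, inf_comm B C]
      rw [this, Subgroup.inf_relIndex_right]
    rw [h1]
    exact Subgroup.relIndex_inf_ne_zero nBA nBC
  have i1 : D.relIndex (A ⊓ B) ≠ 0 := fun h => nDA (by rw [← e1, h, zero_mul])
  have i2 : D.relIndex (A ⊓ C) ≠ 0 := fun h => nDA (by rw [← e2, h, zero_mul])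
  have i3 : D.relIndex (B ⊓ C) ≠ 0 := fun h => nDB (by rw [← e4, h, zero_mul])
  generalize D.relIndex (A ⊓ B) = a at *
  generalize D.relIndex (A ⊓ C) = b at *
  generalize D.relIndex (B ⊓ C) = c at *
  have h12 : a * os Γ x y = b * os Γ x z := by rw [e1, e2]
  have h34 : a * os Γ y x = c * os Γ y z := by rw [e3, e4]
  have h56 : b * os Γ z x = c * os Γ z y := by rw [e5, e6]
  have hpos : 0 < a * b * c := by
    have := Nat.pos_of_ne_zero i1
    have := Nat.pos_of_ne_zero i2
    have := Nat.pos_of_ne_zero i3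
    positivity
  apply Nat.eq_of_mul_eq_mul_left hpos
  calc a * b * c * (os Γ x y * os Γ y z * os Γ z x)
      = (a * os Γ x y) * (c * os Γ y z) * (b * os Γ z x) := by ring
    _ = (b * os Γ x z) * (a * os Γ y x) * (c * os Γ z y) := by rw [h12, ← h34, h56]
    _ = a * b * c * (os Γ y x * os Γ z y * os Γ x z) := by ring

end NU

end MP8622
end

section
set_option autoImplicit false

open Classical Filter Topology

namespace MP8622

namespace NU

namespace MTIM

theorem aut {Γ V : Type} [Group Γ] [MulAction Γ V] {G : SimpleGraph V} {h : V → ℝ} {τ : ℝ}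
    (H : HT Γ G h τ) (γ : Γ) : IsAut G (MulAction.toPerm γ : V ≃ V) :=
  fun x y => H.aut γ x y

theorem img_bel {Γ V : Type} [Group Γ] [MulAction Γ V] {G : SimpleGraph V} {h : V → ℝ} {τ : ℝ}
    (H : HT Γ G h τ) (γ : Γ) (z : V) (r : ℝ) :
    (MulAction.toPerm γ : V ≃ V) '' bel h (h z + r) = bel h (h (γ • z) + r) := by
  ext y
  constructor
  · rintro ⟨w, hw, rfl⟩
    have h1 := H.eqv γ z w
    change h (γ • w) < h (γ • z) + r
    have h2 : h w < h z + r := hw
    linarith
  · intro hy
    refine ⟨γ⁻¹ • y, ?_, ?_⟩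
    · have h1 := H.eqv γ z (γ⁻¹ • y)
      rw [smul_inv_smul] at h1
      change h (γ⁻¹ • y) < h z + r
      have h2 : h y < h (γ • z) + r := hy
      linarith
    · change γ • γ⁻¹ • y = y
      rw [smul_inv_smul]

theorem img_abv {Γ V : Type} [Group Γ] [MulAction Γ V] {G : SimpleGraph V} {h : V → ℝ} {τ : ℝ}
    (H : HT Γ G h τ) (γ : Γ) (z : V) (r : ℝ) :
    (MulAction.toPerm γ : V ≃ V) '' abv h (h z + r) = abv h (h (γ • z) + r) := by
  ext y
  constructor
  · rintro ⟨w, hw, rfl⟩
    have h1 := H.eqv γ z w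
    change h (γ • z) + r ≤ h (γ • w)
    have h2 : h z + r ≤ h w := hw
    linarith
  · intro hy
    refine ⟨γ⁻¹ • y, ?_, ?_⟩
    · have h1 := H.eqv γ z (γ⁻¹ • y)
      rw [smul_inv_smul] at h1
      change h z + r ≤ h (γ⁻¹ • y)
      have h2 : h (γ • z) + r ≤ h y := hy
      linarith
    · change γ • γ⁻¹ • y = y
      rw [smul_inv_smul]

theorem img_univ {Γ V : Type} [Group Γ] [MulAction Γ V] (γ : Γ) :
    (MulAction.toPerm γ : V ≃ V) '' Set.univ = Set.univ := by
  rw [Set.image_univ]
  exact (MulAction.toPerm γ : V ≃ V).surjective.range_eq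

end MTIM

open MTIM in
/-- MTI: the mass transport principle for two point functions. -/
theorem specMTI (hITA : SpecITA) : SpecMTI := by
  intro Γ V _ _ G _ h τ p H h0 h1 ϕ r x
  have A := hITA V G p h0 h1
  refine ⟨?_, ?_, ?_⟩
  · refine H.mtp (fun x z => TT G p (bel h (h z + r)) x z * ϕ (h z - h x)) ?_ x
    intro γ x y
    have e1 := A.inv (MulAction.toPerm γ) (aut H γ) (bel h (h y + r)) x y
    rw [img_bel H γ y r] at e1
    have e2 : TT G p (bel h (h (γ • y) + r)) (γ • x) (γ • y) = TT G p (bel h (h y + r)) x y := e1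
    change TT G p (bel h (h (γ • y) + r)) (γ • x) (γ • y) * ϕ (h (γ • y) - h (γ • x)) = _
    rw [e2, H.eqv]
  · refine H.mtp (fun x z => TT G p (abv h (h z + r)) x z * ϕ (h z - h x)) ?_ x
    intro γ x y
    have e1 := A.inv (MulAction.toPerm γ) (aut H γ) (abv h (h y + r)) x y
    rw [img_abv H γ y r] at e1
    have e2 : TT G p (abv h (h (γ • y) + r)) (γ • x) (γ • y) = TT G p (abv h (h y + r)) x y := e1
    change TT G p (abv h (h (γ • y) + r)) (γ • x) (γ • y) * ϕ (h (γ • y) - h (γ • x)) = _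
    rw [e2, H.eqv]
  · refine H.mtp (fun x z => TT G p Set.univ x z * ϕ (h z - h x)) ?_ x
    intro γ x y
    have e1 := A.inv (MulAction.toPerm γ) (aut H γ) Set.univ x y
    rw [img_univ γ] at e1
    have e2 : TT G p Set.univ (γ • x) (γ • y) = TT G p Set.univ x y := e1
    change TT G p Set.univ (γ • x) (γ • y) * ϕ (h (γ • y) - h (γ • x)) = _
    rw [e2, H.eqv]

end NU

end MP8622
end

section
set_option autoImplicit false

open Classical Filter Topology

namespace MP8622

namespace NU

namespace PSHM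

/-- a sum over neighbours, exchanged -/
theorem nbr_sum {V : Type} (G : SimpleGraph V) [G.LocallyFinite] {d : ℕ}
    (hd : ∀ x : V, (G.neighborFinset x).card ≤ d) (up : V → V) (hup : ∀ y, G.Adj y (up y))
    (f : V → ENNReal) : ∑' y, f (up y) ≤ (d : ENNReal) * ∑' w, f w := by
  have h1 : ∀ y, f (up y) ≤ ∑' w, if w ∈ G.neighborFinset y then f w else 0 := by
    intro y
    have h2 : (if up y ∈ G.neighborFinset y then f (up y) else 0) = f (up y) :=
      if_pos (by rw [SimpleGraph.mem_neighborFinset]; exact hup y)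
    calc f (up y) = (if up y ∈ G.neighborFinset y then f (up y) else 0) := h2.symm
      _ ≤ _ := ENNReal.le_tsum (f := fun w => if w ∈ G.neighborFinset y then f w else 0) (up y)
  calc ∑' y, f (up y) ≤ ∑' y, ∑' w, (if w ∈ G.neighborFinset y then f w else 0) :=
        ENNReal.tsum_le_tsum h1
    _ = ∑' w, ∑' y, (if w ∈ G.neighborFinset y then f w else 0) := ENNReal.tsum_comm
    _ ≤ ∑' w, (d : ENNReal) * f w := by
        refine ENNReal.tsum_le_tsum fun w => ?_
        have h3 : ∑' y, (if w ∈ G.neighborFinset y then f w else 0) =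
            ∑ y ∈ G.neighborFinset w, (if w ∈ G.neighborFinset y then f w else 0) := by
          refine tsum_eq_sum fun y hy => ?_
          rw [if_neg]
          intro hw
          apply hy
          rw [SimpleGraph.mem_neighborFinset] at hw ⊢
          exact hw.symm
        rw [h3]
        calc ∑ y ∈ G.neighborFinset w, (if w ∈ G.neighborFinset y then f w else 0)
            ≤ ∑ _y ∈ G.neighborFinset w, f w := by
              refine Finset.sum_le_sum fun y _ => ?_
              split_ifs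
              · exact le_rfl
              · exact zero_le
          _ = ((G.neighborFinset w).card : ENNReal) * f w := by
              rw [Finset.sum_const, nsmul_eq_mul]
          _ ≤ (d : ENNReal) * f w := by
              gcongr
              exact hd w
    _ = (d : ENNReal) * ∑' w, f w := ENNReal.tsum_mul_left

theorem th_pos {p : ℝ} (h0 : 0 < p) (h1 : p ≤ 1) : 0 < th p := by
  unfold th
  exact div_pos h0 (by linarith)

theorem th_le_one {p : ℝ} (h1 : p ≤ 1) : th p ≤ 1 := by
  unfold th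
  rw [div_le_one (by linarith)]
  linarith

theorem th_mono {p p' : ℝ} (h : p ≤ p') (h1 : p' ≤ 1) : th p ≤ th p' := by
  unfold th
  rw [div_le_div_iff₀ (by linarith) (by linarith)]
  nlinarith

/-- pushing along the map `up` -/
theorem push {V : Type} {G : SimpleGraph V} [G.LocallyFinite] {p p₀ : ℝ} {d : ℕ}
    (hd : ∀ x : V, (G.neighborFinset x).card ≤ d) (h0 : 0 < p₀) (hp : p₀ ≤ p) (hp1 : p ≤ 1)
    (A : TTA G p) (up : V → V) (hup : ∀ y, G.Adj y (up y)) (C C' R : Set V)
    (hC : ∀ y ∈ C, up y ∈ C') (hR : C' ⊆ R) (x : V) :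
    sm C (fun y => TT G p R x y) ≤
      ENNReal.ofReal (d / th p₀) * sm C' (fun y => TT G p R x y) := by
  have ht0 : 0 < th p₀ := th_pos h0 (hp.trans hp1)
  have hne : ENNReal.ofReal (th p₀) ≠ 0 := by
    rw [Ne, ENNReal.ofReal_eq_zero, not_le]
    exact ht0
  have key : sm C (fun y => TT G p R x y) * ENNReal.ofReal (th p₀) ≤
      (d : ENNReal) * sm C' (fun y => TT G p R x y) := by
    unfold sm
    rw [← ENNReal.tsum_mul_right]
    refine le_trans ?_ (nbr_sum G hd up hup (C'.indicator (fun y => TT G p R x y)))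
    refine ENNReal.tsum_le_tsum fun y => ?_
    by_cases hy : y ∈ C
    · rw [Set.indicator_of_mem hy, Set.indicator_of_mem (hC y hy)]
      by_cases hyR : y ∈ R
      · calc TT G p R x y * ENNReal.ofReal (th p₀)
            ≤ TT G p R x y * TT G p R y (up y) := by
              gcongr
              refine le_trans (ENNReal.ofReal_le_ofReal (th_mono hp hp1)) ?_
              exact A.edge R y (up y) hyR (hR (hC y hy)) (hup y)
          _ ≤ TT G p R x (up y) := A.mul R x y (up y)
      · rw [A.out R x y (Or.inr hyR), zero_mul]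
        exact zero_le
    · rw [Set.indicator_of_notMem hy, zero_mul]
      exact zero_le
  have hofd : ENNReal.ofReal (d / th p₀) = (d : ENNReal) / ENNReal.ofReal (th p₀) := by
    rw [ENNReal.ofReal_div_of_pos ht0, ENNReal.ofReal_natCast]
  rw [hofd]
  calc sm C (fun y => TT G p R x y)
      = sm C (fun y => TT G p R x y) * ENNReal.ofReal (th p₀) / ENNReal.ofReal (th p₀) := by
        rw [mul_div_assoc, ENNReal.div_self hne ENNReal.ofReal_ne_top, mul_one]
    _ ≤ (d : ENNReal) * sm C' (fun y => TT G p R x y) / ENNReal.ofReal (th p₀) := by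
        gcongr
    _ = (d : ENNReal) / ENNReal.ofReal (th p₀) * sm C' (fun y => TT G p R x y) := by
        rw [div_eq_mul_inv, div_eq_mul_inv, mul_right_comm]

end PSHM

open PSHM in
/-- PSH: pushing a layer up or down by `τ`. -/
theorem specPSH (hITA : SpecITA) : SpecPSH := by
  intro Γ V _ _ G _ h τ d p₀ H
  have ht0 : 0 < th p₀ := th_pos H.ppos H.plt.le
  have ht1 : th p₀ ≤ 1 := th_le_one H.plt.le
  have hd1 : (1 : ℝ) ≤ d := by exact_mod_cast H.dpos
  refine ⟨d / th p₀, ?_, ?_⟩
  · rw [le_div_iff₀ ht0]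
    linarith
  intro p hp hp1 R x a b
  have A := hITA V G p (H.ppos.le.trans hp) hp1
  choose up hup1 hup2 using H.ht.up
  choose dn hdn1 hdn2 using H.ht.dn
  constructor
  · intro hR
    refine push H.deg H.ppos hp hp1 A up hup1 _ _ R ?_ hR x
    rintro y ⟨hy1, hy2⟩
    refine ⟨?_, ?_⟩
    · rw [hup2]; linarith
    · rw [hup2]; linarith
  · intro hR
    refine push H.deg H.ppos hp hp1 A dn hdn1 _ _ R ?_ hR x
    rintro y ⟨hy1, hy2⟩
    refine ⟨?_, ?_⟩
    · rw [hdn2]; linarith
    · rw [hdn2]; linarith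

end NU

end MP8622
end

section
set_option autoImplicit false

open Classical Filter Topology

/-!
# Module QBD: the quadratic sum in the half space

Layers `[T - (i+1)τ, T - iτ)`: `ET T z ≤ A exp (-c i τ)`, and the sum of the two point function over
any layer `[a, a+τ)` is at most `2 K₁ A² exp (c (h x - a))`.
-/

namespace MP8622

namespace NU

namespace QBDM

variable {V : Type}

theorem sm_mono {C : Set V} {f g : V → ENNReal} (h : ∀ y ∈ C, f y ≤ g y) : sm C f ≤ sm C g := by
  refine ENNReal.tsum_le_tsum fun y => ?_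
  by_cases hy : y ∈ C
  · rw [Set.indicator_of_mem hy, Set.indicator_of_mem hy]
    exact h y hy
  · rw [Set.indicator_of_notMem hy, Set.indicator_of_notMem hy]

theorem sm_mul_right (C : Set V) (a : ENNReal) (f : V → ENNReal) :
    sm C (fun y => f y * a) = sm C f * a := by
  unfold sm
  rw [← ENNReal.tsum_mul_right]
  refine tsum_congr fun y => ?_
  by_cases hy : y ∈ C
  · rw [Set.indicator_of_mem hy, Set.indicator_of_mem hy]
  · rw [Set.indicator_of_notMem hy, Set.indicator_of_notMem hy, zero_mul]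

theorem sm_union_le (C D E : Set V) (hE : E ⊆ C ∪ D) (f : V → ENNReal) :
    sm E f ≤ sm C f + sm D f := by
  unfold sm
  rw [← ENNReal.tsum_add]
  refine ENNReal.tsum_le_tsum fun y => ?_
  by_cases hy : y ∈ E
  · rw [Set.indicator_of_mem hy]
    rcases hE hy with h | h
    · rw [Set.indicator_of_mem h]
      exact le_self_add
    · rw [Set.indicator_of_mem h]
      exact le_add_self
  · rw [Set.indicator_of_notMem hy]
    exact zero_le

/-- every vertex below `T` is in one of the layers -/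
theorem exists_lay (h : V → ℝ) (τ T : ℝ) (hτ : 0 < τ) (z : V) (hz : h z < T) :
    ∃ i : ℕ, z ∈ lay h (T - (i + 1) * τ) (T - i * τ) := by
  have hpos : 0 < (T - h z) / τ := div_pos (by linarith) hτ
  obtain ⟨i, hi⟩ : ∃ i : ℕ, ⌈(T - h z) / τ⌉₊ = i + 1 :=
    Nat.exists_eq_succ_of_ne_zero (Nat.ceil_pos.2 hpos).ne'
  have h1 : (T - h z) / τ ≤ (i : ℝ) + 1 := by
    have := Nat.le_ceil ((T - h z) / τ)
    rw [hi] at this
    push_cast at this
    exact this
  have h2 : (i : ℝ) < (T - h z) / τ := Nat.lt_ceil.1 (by rw [hi]; exact Nat.lt_succ_self i)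
  rw [div_le_iff₀ hτ] at h1
  rw [lt_div_iff₀ hτ] at h2
  exact ⟨i, ⟨by linarith, by linarith⟩⟩

end QBDM

open QBDM in
theorem specQBD (hITA : SpecITA) (hFSU : SpecFSU) : SpecQBD := by
  intro Γ V _ _ G _ h τ d p₀ hCx c hc
  obtain ⟨K₁, hK₁, hfsu⟩ := hFSU Γ V G h τ d p₀ hCx c hc
  have hτ : 0 < τ := hCx.ht.pos
  have hc0 : 0 < c := by linarith
  -- the geometric series
  set r : ℝ := Real.exp (-c * τ) with hr
  have hr0 : 0 < r := Real.exp_pos _
  have hr1 : r < 1 := by
    rw [hr, Real.exp_lt_one_iff]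
    nlinarith
  have hsum : Summable (fun i : ℕ => r ^ i) := summable_geometric_of_lt_one hr0.le hr1
  set S : ℝ := ∑' i : ℕ, r ^ i with hS
  have hS1 : 1 ≤ S := by
    have := hsum.le_tsum 0 (fun i _ => pow_nonneg hr0.le i)
    simpa using this
  have hexp : ∀ i : ℕ, Real.exp (-c * (i * τ)) = r ^ i := by
    intro i
    rw [hr, ← Real.exp_nat_mul]
    congr 1
    ring
  have hK0 : 0 ≤ K₁ := zero_le_one.trans hK₁
  have he1 : 1 ≤ Real.exp (c * τ) := Real.one_le_exp (by positivity)
  refine ⟨2 * K₁ * Real.exp (c * τ) * S, ?_, ?_⟩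
  · have h1 : 1 ≤ 2 * K₁ := by linarith
    have h2 : 1 ≤ 2 * K₁ * Real.exp (c * τ) := one_le_mul_of_one_le_of_one_le h1 he1
    exact one_le_mul_of_one_le_of_one_le h2 hS1
  intro p hp0 hp1 A hA hET T x
  have hp : 0 ≤ p := hCx.ppos.le.trans hp0
  have hTT := hITA V G p hp hp1
  have hA0 : 0 ≤ A := zero_le_one.trans hA
  obtain ⟨hf1, hf2⟩ := hfsu p hp0 hp1 A hA hET
  -- the sum over any layer
  have hlay : ∀ a : ℝ, sm (lay h a (a + τ)) (fun z => TT G p Set.univ x z) ≤
      ENNReal.ofReal (2 * K₁ * A ^ 2 * Real.exp (c * (h x - a))) := by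
    intro a
    have hKA : 0 ≤ K₁ * A ^ 2 := by positivity
    rcases le_total (h x) a with ha | ha
    · refine (hf1 x a ha).trans (ENNReal.ofReal_le_ofReal ?_)
      have e1 : -c * (a - h x) = c * (h x - a) := by ring
      rw [e1]
      have := mul_nonneg hKA (Real.exp_pos (c * (h x - a))).le
      linarith
    · have hexp1 : 1 ≤ Real.exp (c * (h x - a)) := Real.one_le_exp (by nlinarith)
      rcases le_total (a + τ) (h x) with hb | hb
      · have h3 := hf2 x (a + τ) hb
        rw [add_sub_cancel_right] at h3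
        refine h3.trans (ENNReal.ofReal_le_ofReal ?_)
        have h4 : Real.exp ((1 - c) * (h x - (a + τ))) ≤ Real.exp (c * (h x - a)) := by
          apply Real.exp_le_exp.2
          have h5 : (1 - c) * (h x - (a + τ)) ≤ c * (h x - (a + τ)) :=
            mul_le_mul_of_nonneg_right (by linarith) (by linarith)
          nlinarith
        have := mul_le_mul_of_nonneg_left h4 hKA
        nlinarith
      · have hsub : lay h a (a + τ) ⊆ lay h (h x - τ) (h x) ∪ lay h (h x) (h x + τ) := by
          intro z hz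
          have h5 := hz.1
          have h6 := hz.2
          rcases lt_or_ge (h z) (h x) with h7 | h7
          · exact Or.inl ⟨by linarith, h7⟩
          · exact Or.inr ⟨h7, by linarith⟩
        refine (sm_union_le _ _ _ hsub _).trans ?_
        refine (add_le_add (hf2 x (h x) le_rfl) (hf1 x (h x) le_rfl)).trans ?_
        rw [sub_self, mul_zero, mul_zero, Real.exp_zero, mul_one,
          ← ENNReal.ofReal_add hKA hKA]
        refine ENNReal.ofReal_le_ofReal ?_
        have := mul_le_mul_of_nonneg_left hexp1 hKA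
        nlinarith
  -- the decomposition into layers
  have hdec : ∑' z, TT G p (bel h T) x z * ET G p h τ T z ^ 2 ≤
      ∑' i : ℕ, sm (lay h (T - (i + 1) * τ) (T - i * τ))
        (fun z => TT G p (bel h T) x z * ET G p h τ T z ^ 2) := by
    unfold sm
    rw [ENNReal.tsum_comm]
    refine ENNReal.tsum_le_tsum fun z => ?_
    by_cases hz : h z < T
    · obtain ⟨i, hi⟩ := exists_lay h τ T hτ z hz
      refine le_trans (le_of_eq ?_) (ENNReal.le_tsum i)
      rw [Set.indicator_of_mem hi]
    · have h0 : TT G p (bel h T) x z = 0 := hTT.out _ _ _ (Or.inr hz)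
      rw [h0, zero_mul]
      exact zero_le
  refine hdec.trans ?_
  have hterm : ∀ i : ℕ, sm (lay h (T - (i + 1) * τ) (T - i * τ))
      (fun z => TT G p (bel h T) x z * ET G p h τ T z ^ 2) ≤
      ENNReal.ofReal (2 * K₁ * Real.exp (c * τ) * A ^ 4 * Real.exp (-c * (T - h x)) * r ^ i) := by
    intro i
    have h1 : ∀ z ∈ lay h (T - (i + 1) * τ) (T - i * τ),
        TT G p (bel h T) x z * ET G p h τ T z ^ 2 ≤
          TT G p Set.univ x z * ENNReal.ofReal ((A * r ^ i) ^ 2) := by
      intro z hz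
      refine mul_le_mul' (hTT.mono _ _ (Set.subset_univ _) _ _) ?_
      rw [ENNReal.ofReal_pow (by positivity)]
      refine pow_le_pow_left' ((hET T z).trans (ENNReal.ofReal_le_ofReal ?_)) 2
      refine mul_le_mul_of_nonneg_left ?_ hA0
      rw [← hexp i]
      apply Real.exp_le_exp.2
      have := hz.2
      nlinarith
    refine (sm_mono h1).trans ?_
    rw [sm_mul_right]
    have h2 := hlay (T - (i + 1) * τ)
    have e1 : T - (i + 1) * τ + τ = T - i * τ := by ring
    rw [e1] at h2
    refine (mul_le_mul_left h2 _).trans ?_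
    rw [← ENNReal.ofReal_mul (by positivity)]
    refine ENNReal.ofReal_le_ofReal (le_of_eq ?_)
    have e2 : Real.exp (c * (h x - (T - (i + 1) * τ))) * (r ^ i) ^ 2 =
        Real.exp (c * τ) * Real.exp (-c * (T - h x)) * r ^ i := by
      rw [← hexp i, ← Real.exp_add, ← Real.exp_add, sq, ← Real.exp_add, ← Real.exp_add]
      congr 1
      ring
    calc 2 * K₁ * A ^ 2 * Real.exp (c * (h x - (T - (i + 1) * τ))) * (A * r ^ i) ^ 2
        = 2 * K₁ * A ^ 4 * (Real.exp (c * (h x - (T - (i + 1) * τ))) * (r ^ i) ^ 2) := by ring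
      _ = _ := by rw [e2]; ring
  refine (ENNReal.tsum_le_tsum hterm).trans ?_
  rw [← ENNReal.ofReal_tsum_of_nonneg (fun i => by positivity) (hsum.mul_left _), tsum_mul_left]
  refine ENNReal.ofReal_le_ofReal (le_of_eq ?_)
  rw [← hS]
  ring

end NU

end MP8622
end
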