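import Pool.Agent.Lib.MP_8622f1_pr.NU.FLD
import Pool.Agent.Lib.MP_8622f1_pr.NU.SpecF

section
set_option autoImplicit false

open Classical Filter Topology

/-!
# GHS: difference form of the GHS inequality
-/

namespace MP8622

namespace NU

namespace GHSM

variable {V : Type}

theorem wf_nonneg {P : Sym2 V → ℝ} (h1 : ∀ e, P e ≤ 1) (E : Finset (Sym2 V)) (Λ : Finset V)
    (b : V → ℝ) (S : Finset V) : 0 ≤ wf P E Λ b S := by
  rw [wf]
  exact mul_nonneg (sw_nonneg h1 E S) (Finset.prod_nonneg fun v _ => (Real.exp_pos _).le)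

theorem Zw_pos {P : Sym2 V → ℝ} (h1 : ∀ e, P e ≤ 1) (E : Finset (Sym2 V)) (Λ : Finset V)
    (b : V → ℝ) : 0 < ∑ S ∈ Λ.powerset, wf P E Λ b S := by
  refine Finset.sum_pos' (fun S _ => wf_nonneg h1 E Λ b S) ⟨∅, Finset.empty_mem_powerset _, ?_⟩
  rw [wf, sw_empty, one_mul]
  exact Finset.prod_pos fun v _ => Real.exp_pos _

theorem wf_exp (P : Sym2 V → ℝ) (E : Finset (Sym2 V)) (Λ : Finset V) (b : V → ℝ) (S : Finset V) :
    wf P E Λ b S = sw P E S * Real.exp (∑ v ∈ Λ, b v * chi {v} S) := by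
  rw [wf, Real.exp_sum]

theorem mon_single {Λ : Finset V} {v : V} (hv : v ∈ Λ) (k : Fin 4) (S : Fin 4 → Finset V) :
    ∏ v' ∈ Λ, ∏ k', be S k' v' ^ (if v' = v ∧ k' = k then 1 else 0) = be S k v := by
  rw [Finset.prod_eq_single v]
  · rw [Finset.prod_eq_single k]
    · simp
    · intro k' _ hk'
      simp [hk']
    · intro h; exact absurd (Finset.mem_univ _) h
  · intro v' _ hv'
    refine Finset.prod_eq_one fun k' _ => ?_
    simp [hv']
  · intro h; exact absurd hv h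

theorem sum_fac (Λ : Finset V) (x : V) (w : Fin 4 → Finset V → ℝ) (j : Fin 4) :
    ∑ S ∈ Fintype.piFinset (fun _ : Fin 4 => Λ.powerset), chi {x} (S j) * ∏ i, w i (S i) =
      ∏ i, ∑ T ∈ Λ.powerset, (if i = j then chi {x} T else 1) * w i T := by
  rw [Finset.prod_univ_sum]
  refine Finset.sum_congr rfl fun S _ => ?_
  rw [Finset.prod_mul_distrib]
  congr 1
  rw [Finset.prod_ite_eq' Finset.univ j (fun i => chi {x} (S i)), if_pos (Finset.mem_univ _)]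

theorem strict (hEMP : SpecEMP) (P : Sym2 V → ℝ) (E : Finset (Sym2 V)) (Λ : Finset V)
    (b₁ b₂ b₃ b₄ : V → ℝ) (h0 : ∀ e, 0 ≤ P e) (h1 : ∀ e, P e < 1)
    (hE : ∀ e ∈ E, ∀ z ∈ e, z ∈ Λ)
    (a0 : ∀ v, 0 ≤ b₁ v + b₂ v + b₃ v + b₄ v) (a1 : ∀ v, b₃ v + b₄ v ≤ b₁ v + b₂ v)
    (a2 : ∀ v, b₂ v + b₄ v ≤ b₁ v + b₃ v) (a3 : ∀ v, b₁ v + b₄ v ≤ b₂ v + b₃ v)
    (x : V) (hx : x ∈ Λ) :
    mf P E Λ b₁ x + mf P E Λ b₄ x ≤ mf P E Λ b₂ x + mf P E Λ b₃ x := by
  set a : Fin 4 → V → ℝ := ![fun v => (b₁ v + b₂ v + b₃ v + b₄ v) / 2,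
    fun v => (b₁ v + b₂ v - b₃ v - b₄ v) / 2, fun v => (b₁ v - b₂ v + b₃ v - b₄ v) / 2,
    fun v => (-b₁ v + b₂ v + b₃ v - b₄ v) / 2] with ha
  have ha0 : ∀ v, a 0 v = (b₁ v + b₂ v + b₃ v + b₄ v) / 2 := fun v => rfl
  have ha1 : ∀ v, a 1 v = (b₁ v + b₂ v - b₃ v - b₄ v) / 2 := fun v => rfl
  have ha2 : ∀ v, a 2 v = (b₁ v - b₂ v + b₃ v - b₄ v) / 2 := fun v => rfl
  have ha3 : ∀ v, a 3 v = (-b₁ v + b₂ v + b₃ v - b₄ v) / 2 := fun v => rfl
  have hpos : ∀ k v, 0 ≤ a k v := by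
    intro k v
    fin_cases k
    · show 0 ≤ a 0 v
      rw [ha0]; linarith [a0 v]
    · show 0 ≤ a 1 v
      rw [ha1]; linarith [a1 v]
    · show 0 ≤ a 2 v
      rw [ha2]; linarith [a2 v]
    · show 0 ≤ a 3 v
      rw [ha3]; linarith [a3 v]
  have hm := hEMP V P E Λ a (fun v k => if v = x ∧ k = 3 then 1 else 0) h0 h1 hE hpos
  set w : Fin 4 → Finset V → ℝ := ![wf P E Λ b₁, wf P E Λ b₂, wf P E Λ b₃, wf P E Λ b₄] with hw
  have hw0 : w 0 = wf P E Λ b₁ := rfl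
  have hw1 : w 1 = wf P E Λ b₂ := rfl
  have hw2 : w 2 = wf P E Λ b₃ := rfl
  have hw3 : w 3 = wf P E Λ b₄ := rfl
  have key : ∀ S : Fin 4 → Finset V,
      (∏ v ∈ Λ, ∏ k, be S k v ^ (if v = x ∧ k = 3 then 1 else 0)) * (∏ i, sw P E (S i)) *
        Real.exp (∑ v ∈ Λ, ∑ k, a k v * be S k v) =
      (1 / 2) * (-(chi {x} (S 0) * ∏ i, w i (S i)) + chi {x} (S 1) * ∏ i, w i (S i) +
        chi {x} (S 2) * ∏ i, w i (S i) - chi {x} (S 3) * ∏ i, w i (S i)) := by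
    intro S
    have h5 : ∏ i, w i (S i) = (∏ i, sw P E (S i)) *
        Real.exp (∑ v ∈ Λ, ∑ k, a k v * be S k v) := by
      rw [Fin.prod_univ_four, Fin.prod_univ_four, hw0, hw1, hw2, hw3, wf_exp, wf_exp, wf_exp,
        wf_exp]
      have h6 : ∑ v ∈ Λ, ∑ k, a k v * be S k v = (∑ v ∈ Λ, b₁ v * chi {v} (S 0)) +
          (∑ v ∈ Λ, b₂ v * chi {v} (S 1)) + (∑ v ∈ Λ, b₃ v * chi {v} (S 2)) +
          (∑ v ∈ Λ, b₄ v * chi {v} (S 3)) := by
        rw [← Finset.sum_add_distrib, ← Finset.sum_add_distrib, ← Finset.sum_add_distrib]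
        refine Finset.sum_congr rfl fun v _ => ?_
        rw [Fin.sum_univ_four, ha0, ha1, ha2, ha3, EMPM.be0, EMPM.be1, EMPM.be2, EMPM.be3]
        ring
      rw [h6, Real.exp_add, Real.exp_add, Real.exp_add]
      ring
    rw [mon_single hx 3 S, h5, EMPM.be3]
    ring
  rw [Finset.sum_congr rfl (fun S _ => key S), ← Finset.mul_sum, Finset.sum_sub_distrib,
    Finset.sum_add_distrib, Finset.sum_add_distrib, Finset.sum_neg_distrib, sum_fac, sum_fac,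
    sum_fac, sum_fac] at hm
  simp only [Fin.prod_univ_four, hw0, hw1, hw2, hw3, if_true] at hm
  have q : ∀ i j : Fin 4, i ≠ j → ∀ b : V → ℝ,
      ∑ T ∈ Λ.powerset, (if i = j then chi {x} T else 1) * wf P E Λ b T =
        ∑ T ∈ Λ.powerset, wf P E Λ b T := by
    intro i j hij b
    refine Finset.sum_congr rfl fun T _ => ?_
    rw [if_neg hij, one_mul]
  have q2 : ∀ b : V → ℝ,
      ∑ T ∈ Λ.powerset, chi {x} T * wf P E Λ b T =
        mf P E Λ b x * ∑ T ∈ Λ.powerset, wf P E Λ b T := by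
    intro b
    rw [mf, div_mul_cancel₀ _ (Zw_pos (fun e => (h1 e).le) E Λ b).ne']
  rw [q2, q2, q2, q2, q 0 1 (by decide), q 0 2 (by decide), q 0 3 (by decide),
    q 1 0 (by decide), q 1 2 (by decide), q 1 3 (by decide), q 2 0 (by decide),
    q 2 1 (by decide), q 2 3 (by decide), q 3 0 (by decide), q 3 1 (by decide),
    q 3 2 (by decide)] at hm
  have z1 := Zw_pos (fun e => (h1 e).le) E Λ b₁
  have z2 := Zw_pos (fun e => (h1 e).le) E Λ b₂
  have z3 := Zw_pos (fun e => (h1 e).le) E Λ b₃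
  have z4 := Zw_pos (fun e => (h1 e).le) E Λ b₄
  set Z1 := ∑ T ∈ Λ.powerset, wf P E Λ b₁ T
  set Z2 := ∑ T ∈ Λ.powerset, wf P E Λ b₂ T
  set Z3 := ∑ T ∈ Λ.powerset, wf P E Λ b₃ T
  set Z4 := ∑ T ∈ Λ.powerset, wf P E Λ b₄ T
  have hz : 0 < Z1 * Z2 * Z3 * Z4 := by positivity
  by_contra hcon
  push Not at hcon
  have : (Z1 * Z2 * Z3 * Z4) * (mf P E Λ b₂ x + mf P E Λ b₃ x) <
      (Z1 * Z2 * Z3 * Z4) * (mf P E Λ b₁ x + mf P E Λ b₄ x) :=
    mul_lt_mul_of_pos_left hcon hz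
  nlinarith [this, hm]

theorem sw_tendsto {Pn : ℕ → Sym2 V → ℝ} {P : Sym2 V → ℝ} (E : Finset (Sym2 V)) (S : Finset V)
    (h : ∀ e, Tendsto (fun n => Pn n e) atTop (𝓝 (P e))) :
    Tendsto (fun n => sw (Pn n) E S) atTop (𝓝 (sw P E S)) := by
  unfold sw
  refine tendsto_finsetProd _ fun e _ => ?_
  by_cases hm : Mono S e
  · simp [hm]
  · simp only [hm, if_false]
    exact (h e).const_sub 1

theorem mf_tendsto {Pn : ℕ → Sym2 V → ℝ} {P : Sym2 V → ℝ} (h1 : ∀ e, P e ≤ 1)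
    (E : Finset (Sym2 V)) (Λ : Finset V) (b : V → ℝ) (x : V)
    (h : ∀ e, Tendsto (fun n => Pn n e) atTop (𝓝 (P e))) :
    Tendsto (fun n => mf (Pn n) E Λ b x) atTop (𝓝 (mf P E Λ b x)) := by
  unfold mf
  refine Tendsto.div ?_ ?_ (Zw_pos h1 E Λ b).ne'
  · refine tendsto_finsetSum _ fun S _ => ?_
    refine Tendsto.const_mul _ ?_
    unfold wf
    exact (sw_tendsto E S h).mul_const _
  · refine tendsto_finsetSum _ fun S _ => ?_
    unfold wf
    exact (sw_tendsto E S h).mul_const _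

end GHSM

open GHSM in
theorem specGHS (hEMP : SpecEMP) : SpecGHS := by
  intro V P E Λ b₁ b₂ b₃ b₄ h0 h1 hE a0 a1 a2 a3 x hx
  set Pn : ℕ → Sym2 V → ℝ := fun n e => (1 - 1 / ((n : ℝ) + 1)) * P e with hPn
  have hc : Tendsto (fun n : ℕ => (1 : ℝ) - 1 / ((n : ℝ) + 1)) atTop (𝓝 1) := by
    have := tendsto_one_div_add_atTop_nhds_zero_nat (𝕜 := ℝ)
    simpa using this.const_sub 1
  have hlim : ∀ e, Tendsto (fun n => Pn n e) atTop (𝓝 (P e)) := by
    intro e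
    have h2 := hc.mul_const (P e)
    rw [one_mul] at h2
    exact h2
  have hpos : ∀ n : ℕ, 0 < 1 / ((n : ℝ) + 1) := fun n => by positivity
  have hle : ∀ n : ℕ, 1 / ((n : ℝ) + 1) ≤ 1 := by
    intro n
    rw [div_le_one (by positivity)]
    have : (0 : ℝ) ≤ n := Nat.cast_nonneg n
    linarith
  have hn0 : ∀ n e, 0 ≤ Pn n e := fun n e => mul_nonneg (by linarith [hle n]) (h0 e)
  have hn1 : ∀ n e, Pn n e < 1 := by
    intro n e
    have h2 : (1 - 1 / ((n : ℝ) + 1)) * P e ≤ (1 - 1 / ((n : ℝ) + 1)) * 1 :=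
      mul_le_mul_of_nonneg_left (h1 e) (by linarith [hle n])
    have h3 := hpos n
    show (1 - 1 / ((n : ℝ) + 1)) * P e < 1
    linarith
  have hs : ∀ n, mf (Pn n) E Λ b₁ x + mf (Pn n) E Λ b₄ x ≤
      mf (Pn n) E Λ b₂ x + mf (Pn n) E Λ b₃ x := fun n =>
    strict hEMP (Pn n) E Λ b₁ b₂ b₃ b₄ (hn0 n) (hn1 n) hE a0 a1 a2 a3 x hx
  exact le_of_tendsto_of_tendsto'
    ((mf_tendsto h1 E Λ b₁ x hlim).add (mf_tendsto h1 E Λ b₄ x hlim))
    ((mf_tendsto h1 E Λ b₂ x hlim).add (mf_tendsto h1 E Λ b₃ x hlim)) hs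

end NU

end MP8622
end

section
set_option autoImplicit false

open Classical Filter Topology

/-!
# MP_8622f1_pr, NU: QUA, quadratic lower bound for the magnetisation
-/

namespace MP8622

namespace NU

namespace QUAM

variable {V : Type}

theorem corr_out (P : Sym2 V → ℝ) (E : Finset (Sym2 V)) {Λ A B : Finset V}
    (h : ∀ z ∈ Λ, z ∈ A ↔ z ∈ B) : corr P E Λ A = corr P E Λ B := by
  have key : ∀ S ∈ Λ.powerset, chi A S = chi B S := by
    intro S hS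
    rw [Finset.mem_powerset] at hS
    have : A ∩ S = B ∩ S := by
      ext z
      rw [Finset.mem_inter, Finset.mem_inter]
      constructor
      · rintro ⟨h1, h2⟩; exact ⟨(h z (hS h2)).1 h1, h2⟩
      · rintro ⟨h1, h2⟩; exact ⟨(h z (hS h2)).2 h1, h2⟩
    unfold chi
    rw [this]
  unfold corr
  rw [Finset.sum_congr rfl fun S hS => by rw [key S hS]]

theorem c2_nonneg {P : Sym2 V → ℝ} (h0 : ∀ e, 0 ≤ P e) (h1 : ∀ e, P e ≤ 1)
    (E : Finset (Sym2 V)) (Λ : Finset V) (x y : V) : 0 ≤ c2 P E Λ x y :=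
  corr_nonneg h0 h1 _

theorem c2_self {P : Sym2 V → ℝ} (h1 : ∀ e, P e ≤ 1)
    (E : Finset (Sym2 V)) (Λ : Finset V) (x : V) : c2 P E Λ x x = 1 := by
  unfold c2
  rw [SlM.symmDiff_self_empty, corr_empty h1]

theorem c2_comm (P : Sym2 V → ℝ) (E : Finset (Sym2 V)) (Λ : Finset V) (x y : V) :
    c2 P E Λ x y = c2 P E Λ y x := by
  unfold c2
  rw [symmDiff_comm]

theorem mem_fan {L : Finset V} {u : V → V} {e : Sym2 V} :
    e ∈ fan L u ↔ ∃ v ∈ L, s(v, u v) = e := by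
  unfold fan
  rw [Finset.mem_image]

theorem th_nonneg {k : ℝ} (h0 : 0 ≤ k) (h1 : k ≤ 1) : 0 ≤ th k :=
  div_nonneg h0 (by linarith)

theorem th_le_one {k : ℝ} (h1 : k ≤ 1) : th k ≤ 1 := by
  unfold th
  rw [div_le_one (by linarith)]
  linarith

theorem step_num {t m F c : ℝ} (ht0 : 0 ≤ t) (ht1 : t ≤ 1) (hm0 : 0 ≤ m) (hm1 : m ≤ 1)
    (hcov : 0 ≤ c - F * m) : t * (c - F * m) ≤ 2 * ((F + t * c) / (1 + t * m) - F) := by
  have htm0 : 0 ≤ t * m := mul_nonneg ht0 hm0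
  have htm1 : t * m ≤ 1 := mul_le_one₀ ht1 hm0 hm1
  have hden : 0 < 1 + t * m := by linarith
  have hden2 : 1 + t * m ≤ 2 := by linarith
  have e3 : (F + t * c) / (1 + t * m) - F = t * (c - F * m) / (1 + t * m) := by
    rw [eq_div_iff hden.ne', sub_mul, div_mul_cancel₀ _ hden.ne']
    ring
  rw [e3]
  have e4 : t * (c - F * m) / 2 ≤ t * (c - F * m) / (1 + t * m) :=
    div_le_div_of_nonneg_left (mul_nonneg ht0 hcov) hden hden2
  linarith

theorem one_sub_num {F s : ℝ} (hF0 : 0 ≤ F) (hF1 : F ≤ 1) (hs : 0 ≤ s) :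
    (1 - F) * (1 - s) ≤ 1 - F * F := by
  have h3 : 0 ≤ (1 - F) * s := mul_nonneg (by linarith) hs
  have h4 : 0 ≤ F * (1 - F) := mul_nonneg hF0 (by linarith)
  have e1 : (1 - F) * (1 - s) = (1 - F) - (1 - F) * s := by ring
  have e2 : F * (1 - F) = F - F * F := by ring
  linarith

/-- the step: add one field edge -/
theorem step {P : Sym2 V → ℝ} (h0 : ∀ e, 0 ≤ P e) (h1 : ∀ e, P e ≤ 1) {E' : Finset (Sym2 V)}
    {Λ : Finset V} {o y w : V} (hw : w ∉ Λ) (he : s(y, w) ∉ E') {k : ℝ}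
    (hk : P s(y, w) = k) (hk0 : 0 ≤ k) (hk1 : k ≤ 1) :
    0 ≤ c2 P E' Λ o y - corr P E' Λ {o} * corr P E' Λ {y} ∧
    th k * (c2 P E' Λ o y - corr P E' Λ {o} * corr P E' Λ {y}) ≤
      2 * (corr P (insert s(y, w) E') Λ {o} - corr P E' Λ {o}) := by
  have hcov : 0 ≤ c2 P E' Λ o y - corr P E' Λ {o} * corr P E' Λ {y} := by
    have := corr_gks (Λ := Λ) (E := E') h0 h1 {o} {y}
    unfold c2
    linarith
  refine ⟨hcov, ?_⟩
  have hins := SlM.corr_insert h1 he Λ {o}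
  have e1 : corr P E' Λ (symmDiff {y} {w}) = corr P E' Λ {y} := by
    apply corr_out
    intro z hz
    rw [Finset.mem_symmDiff, Finset.mem_singleton, Finset.mem_singleton]
    have hzw : z ≠ w := fun h => hw (h ▸ hz)
    tauto
  have e2 : corr P E' Λ (symmDiff {o} (symmDiff {y} {w})) = c2 P E' Λ o y := by
    unfold c2
    apply corr_out
    intro z hz
    simp only [Finset.mem_symmDiff, Finset.mem_singleton]
    have hzw : z ≠ w := fun h => hw (h ▸ hz)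
    tauto
  rw [e1, e2, hk] at hins
  have ht0 := th_nonneg hk0 hk1
  have ht1 := th_le_one hk1
  have hm0 : 0 ≤ corr P E' Λ {y} := corr_nonneg h0 h1 _
  have hm1 : corr P E' Λ {y} ≤ 1 := corr_le_one h1 _
  change corr P (insert s(y, w) E') Λ {o} = (corr P E' Λ {o} + th k * c2 P E' Λ o y) /
    (1 + th k * corr P E' Λ {y}) at hins
  rw [hins]
  exact step_num ht0 ht1 hm0 hm1 hcov

theorem del_union_fan {E : Finset (Sym2 V)} {Λ L' : Finset V} {u : V → V} {o : V} (ho : o ∈ Λ)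
    (hu : ∀ v ∈ L', u v ∉ Λ) :
    del (E ∪ fan L' u) o = del E o ∪ fan (L'.erase o) u := by
  ext e
  unfold del
  rw [Finset.mem_filter, Finset.mem_union, Finset.mem_union, Finset.mem_filter, mem_fan, mem_fan]
  constructor
  · rintro ⟨he | ⟨v, hv, rfl⟩, h2⟩
    · exact Or.inl ⟨he, h2⟩
    · refine Or.inr ⟨v, Finset.mem_erase.2 ⟨?_, hv⟩, rfl⟩
      rintro rfl
      exact h2 (Sym2.mem_mk_left _ _)
  · rintro (⟨he, h2⟩ | ⟨v, hv, rfl⟩)
    · exact ⟨Or.inl he, h2⟩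
    · rw [Finset.mem_erase] at hv
      refine ⟨Or.inr ⟨v, hv.2, rfl⟩, ?_⟩
      intro h
      rcases Sym2.mem_iff.1 h with h | h
      · exact hv.1 h.symm
      · exact hu v hv.2 (h ▸ ho)

theorem del_eq_ein {E : Finset (Sym2 V)} {Λ : Finset V} (hE : ∀ e ∈ E, ∀ z ∈ e, z ∈ Λ) (o : V) :
    del E o = ein E (Λ.erase o) := by
  ext e
  unfold del
  rw [Finset.mem_filter, SlM.mem_ein]
  constructor
  · rintro ⟨he, h⟩
    refine ⟨he, fun z hz => Finset.mem_erase.2 ⟨?_, hE e he z hz⟩⟩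
    rintro rfl
    exact h hz
  · rintro ⟨he, h⟩
    exact ⟨he, fun ho => (Finset.mem_erase.1 (h o ho)).1 rfl⟩

theorem ein_union_fan {E : Finset (Sym2 V)} {Λ L' S : Finset V} {u : V → V} (hS : S ⊆ Λ)
    (hu : ∀ v ∈ L', u v ∉ Λ) : ein (E ∪ fan L' u) S = ein E S := by
  ext e
  rw [SlM.mem_ein, SlM.mem_ein, Finset.mem_union, mem_fan]
  constructor
  · rintro ⟨he | ⟨v, hv, rfl⟩, h2⟩
    · exact ⟨he, h2⟩
    · exact absurd (hS (h2 _ (Sym2.mem_mk_right _ _))) (hu v hv)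
  · rintro ⟨he, h2⟩
    exact ⟨Or.inl he, h2⟩

/-- magnetisation without `o` -/
theorem theta_le (hMUB : SpecMUB) {P : Sym2 V → ℝ} (h0 : ∀ e, 0 ≤ P e) (h1 : ∀ e, P e ≤ 1)
    {E : Finset (Sym2 V)} (hd : ∀ e ∈ E, ¬ e.IsDiag) {Λ L L' : Finset V} {u : V → V}
    (hE : ∀ e ∈ E, ∀ z ∈ e, z ∈ Λ) (hL : L ⊆ Λ) (hL' : L' ⊆ L) {k : ℝ}
    (hu : ∀ v ∈ L, u v ∉ Λ ∧ P s(v, u v) = k) {o : V} (ho : o ∈ Λ) (hk0 : 0 ≤ k) (hk1 : k ≤ 1)
    {z : V} (hz : z ∈ Λ.erase o) :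
    corr P (del (E ∪ fan L' u) o) (Λ.erase o) {z} ≤ th k * ∑ v ∈ L, c2 P E Λ z v := by
  rw [del_union_fan ho (fun v hv => (hu v (hL' hv)).1)]
  have hsub : L'.erase o ⊆ Λ.erase o := Finset.erase_subset_erase o (hL'.trans hL)
  have h2 := hMUB V P (del E o) (Λ.erase o) (L'.erase o) u k z h0 h1
    (fun e he => hd e (Finset.mem_filter.1 he).1)
    (fun e he => by
      rw [del_eq_ein hE] at he
      exact (SlM.mem_ein.1 he).2) hsub
    (fun v hv => ⟨fun h => (hu v (hL' (Finset.mem_of_mem_erase hv))).1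
      (Finset.mem_of_mem_erase h), (hu v (hL' (Finset.mem_of_mem_erase hv))).2⟩) hz
  refine h2.trans (mul_le_mul_of_nonneg_left ?_ (th_nonneg hk0 hk1))
  have h3 : ∑ v ∈ L'.erase o, c2 P (del E o) (Λ.erase o) z v ≤
      ∑ v ∈ L'.erase o, c2 P E Λ z v := by
    refine Finset.sum_le_sum fun v hv => ?_
    rw [del_eq_ein hE]
    exact SlM.corr_ein_le h0 h1 E (Finset.erase_subset o Λ) (SlM.pair_subset hz (hsub hv))
  refine h3.trans (Finset.sum_le_sum_of_subset_of_nonneg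
    ((Finset.erase_subset o L').trans hL') fun v _ _ => c2_nonneg h0 h1 E Λ z v)

/-- the covariance bound -/
theorem cov_ge (hEXP : SpecEXP) (hVRC : SpecVRC) (hMUB : SpecMUB) {P : Sym2 V → ℝ}
    (h0 : ∀ e, 0 ≤ P e) (h1 : ∀ e, P e ≤ 1)
    {E : Finset (Sym2 V)} (hd : ∀ e ∈ E, ¬ e.IsDiag) {Λ L L' : Finset V} {u : V → V}
    (hE : ∀ e ∈ E, ∀ z ∈ e, z ∈ Λ) (hL : L ⊆ Λ) (hL' : L' ⊆ L) {k : ℝ}
    (hu : ∀ v ∈ L, u v ∉ Λ ∧ P s(v, u v) = k) {o : V} (ho : o ∈ Λ) (hk0 : 0 ≤ k) (hk1 : k ≤ 1)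
    {y : V} (hy : y ∈ L) :
    (1 - corr P (E ∪ fan L' u) Λ {o}) * (c2 P E Λ o y - th k *
      ∑ z ∈ Λ.erase o, c2 P E Λ o z * c2 P E Λ z y * ∑ v ∈ L, c2 P E Λ z v) ≤
    c2 P (E ∪ fan L' u) Λ o y - corr P (E ∪ fan L' u) Λ {o} * corr P (E ∪ fan L' u) Λ {y} := by
  have ht0 := th_nonneg hk0 hk1
  have hF0 : 0 ≤ corr P (E ∪ fan L' u) Λ {o} := corr_nonneg h0 h1 _
  have hF1 : corr P (E ∪ fan L' u) Λ {o} ≤ 1 := corr_le_one h1 _
  have hpos : ∀ z, 0 ≤ c2 P E Λ o z * c2 P E Λ z y * ∑ v ∈ L, c2 P E Λ z v := fun z =>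
    mul_nonneg (mul_nonneg (c2_nonneg h0 h1 _ _ _ _) (c2_nonneg h0 h1 _ _ _ _))
      (Finset.sum_nonneg fun v _ => c2_nonneg h0 h1 _ _ _ _)
  by_cases hyo : y = o
  · subst hyo
    rw [c2_self h1, c2_self h1]
    have h2 : 0 ≤ th k * ∑ z ∈ Λ.erase y, c2 P E Λ y z * c2 P E Λ z y *
        ∑ v ∈ L, c2 P E Λ z v := mul_nonneg ht0 (Finset.sum_nonneg fun z _ => hpos z)
    exact one_sub_num hF0 hF1 h2
  · have h2 := hEXP V P (E ∪ fan L' u) Λ y o (c2 P E Λ y o)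
      (fun z => c2 P E Λ y z * c2 P E Λ z o) h0 h1 (by
        intro e he
        rcases Finset.mem_union.1 he with he | he
        · exact hd e he
        · obtain ⟨v, hv, rfl⟩ := mem_fan.1 he
          rw [Sym2.mk_isDiag_iff]
          intro h
          exact (hu v (hL' hv)).1 (h ▸ hL (hL' hv))) (hL hy) ho hyo
      (fun z => mul_nonneg (c2_nonneg h0 h1 _ _ _ _) (c2_nonneg h0 h1 _ _ _ _)) (by
        intro C hC
        have h3 := hVRC V P E Λ C y o h0 h1 hd hE (hL hy) ho hC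
        rw [ein_union_fan Finset.sdiff_subset (fun v hv => (hu v (hL' hv)).1)]
        linarith)
    have h4 : ∑ z ∈ Λ.erase o, corr P (del (E ∪ fan L' u) o) (Λ.erase o) {z} *
        (c2 P E Λ y z * c2 P E Λ z o) ≤
        th k * ∑ z ∈ Λ.erase o, c2 P E Λ o z * c2 P E Λ z y * ∑ v ∈ L, c2 P E Λ z v := by
      rw [Finset.mul_sum]
      refine Finset.sum_le_sum fun z hz => ?_
      have h5 := theta_le hMUB h0 h1 hd hE hL hL' hu ho hk0 hk1 hz
      have h6 : 0 ≤ c2 P E Λ y z * c2 P E Λ z o :=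
        mul_nonneg (c2_nonneg h0 h1 _ _ _ _) (c2_nonneg h0 h1 _ _ _ _)
      calc _ ≤ (th k * ∑ v ∈ L, c2 P E Λ z v) * (c2 P E Λ y z * c2 P E Λ z o) :=
            mul_le_mul_of_nonneg_right h5 h6
        _ = _ := by rw [c2_comm P E Λ y z, c2_comm P E Λ z o]; ring
    have h7 : (1 - corr P (E ∪ fan L' u) Λ {o}) * (c2 P E Λ o y - th k *
        ∑ z ∈ Λ.erase o, c2 P E Λ o z * c2 P E Λ z y * ∑ v ∈ L, c2 P E Λ z v) ≤
        (1 - corr P (E ∪ fan L' u) Λ {o}) * (c2 P E Λ y o - ∑ z ∈ Λ.erase o,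
          corr P (del (E ∪ fan L' u) o) (Λ.erase o) {z} * (c2 P E Λ y z * c2 P E Λ z o)) := by
      apply mul_le_mul_of_nonneg_left _ (by linarith)
      rw [c2_comm P E Λ o y]
      linarith
    refine h7.trans (h2.trans (le_of_eq ?_))
    rw [c2_comm P (E ∪ fan L' u) Λ y o, mul_comm (corr P (E ∪ fan L' u) Λ {y})]

end QUAM

open QUAM in
theorem specQUA (hEXP : SpecEXP) (hVRC : SpecVRC) (hMUB : SpecMUB) : SpecQUA := by
  intro V P E Λ L u k o h0 h1 hd hE hL hu ho hk0 hk1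
  have ht0 := th_nonneg hk0 hk1
  set F := corr P (E ∪ fan L u) Λ {o} with hF
  have hF0 : 0 ≤ F := corr_nonneg h0 h1 _
  have hF1 : F ≤ 1 := corr_le_one h1 _
  set D : V → ℝ := fun y => c2 P E Λ o y - th k *
      ∑ z ∈ Λ.erase o, c2 P E Λ o z * c2 P E Λ z y * ∑ v ∈ L, c2 P E Λ z v with hD
  -- induction over the field edges
  have hind : ∀ L' : Finset V, L' ⊆ L →
      th k * ((1 - F) * ∑ y ∈ L', D y) ≤ 2 * corr P (E ∪ fan L' u) Λ {o} := by
    intro L'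
    induction L' using Finset.induction_on with
    | empty =>
      intro _
      rw [Finset.sum_empty, mul_zero, mul_zero]
      exact mul_nonneg zero_le_two (corr_nonneg h0 h1 _)
    | insert y L' hyL ih =>
      intro hsub
      have hL' : L' ⊆ L := (Finset.subset_insert y L').trans hsub
      have hy : y ∈ L := hsub (Finset.mem_insert_self y L')
      have ih' := ih hL'
      have hne : s(y, u y) ∉ E ∪ fan L' u := by
        intro h
        rcases Finset.mem_union.1 h with h | h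
        · exact (hu y hy).1 (hE _ h _ (Sym2.mem_mk_right _ _))
        · obtain ⟨v, hv, hev⟩ := mem_fan.1 h
          rw [Sym2.eq_iff] at hev
          rcases hev with ⟨rfl, _⟩ | ⟨_, h3⟩
          · exact hyL hv
          · exact (hu v (hL' hv)).1 (h3 ▸ hL hy)
      obtain ⟨hc0, hst⟩ := step (o := o) h0 h1 (hu y hy).1 hne (hu y hy).2 hk0 hk1
      have hcov := cov_ge hEXP hVRC hMUB h0 h1 hd hE hL hL' hu ho hk0 hk1 hy
      have hFi : corr P (E ∪ fan L' u) Λ {o} ≤ F := by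
        apply SlM.corr_mono_edges h0 h1
        apply Finset.union_subset_union_right
        unfold fan
        exact Finset.image_subset_image hL'
      have hins : E ∪ fan (insert y L') u = insert s(y, u y) (E ∪ fan L' u) := by
        unfold fan
        rw [Finset.image_insert, Finset.union_insert]
      rw [hins, Finset.sum_insert hyL]
      have hkey : (1 - F) * D y ≤ c2 P (E ∪ fan L' u) Λ o y -
          corr P (E ∪ fan L' u) Λ {o} * corr P (E ∪ fan L' u) Λ {y} := by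
        by_cases hDy : 0 ≤ D y
        · refine le_trans ?_ hcov
          exact mul_le_mul_of_nonneg_right (by linarith) hDy
        · refine le_trans ?_ hc0
          exact mul_nonpos_of_nonneg_of_nonpos (by linarith) (by linarith)
      have h5 := mul_le_mul_of_nonneg_left hkey ht0
      have e5 : th k * ((1 - F) * (D y + ∑ y ∈ L', D y)) =
        th k * ((1 - F) * D y) + th k * ((1 - F) * ∑ y ∈ L', D y) := by ring
      rw [e5]
      linarith
  have hfin := hind L (Finset.Subset.refl L)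
  -- the sum of the `D y`
  set eo := ∑ y ∈ L, c2 P E Λ o y with heo
  have heo0 : 0 ≤ eo := Finset.sum_nonneg fun y _ => c2_nonneg h0 h1 _ _ _ _
  set Q' := ∑ z ∈ Λ.erase o, c2 P E Λ o z * (∑ v ∈ L, c2 P E Λ z v) ^ 2 with hQ'
  have hQ0 : 0 ≤ Q' := Finset.sum_nonneg fun z _ =>
    mul_nonneg (c2_nonneg h0 h1 _ _ _ _) (sq_nonneg _)
  have hsumD : ∑ y ∈ L, D y = eo - th k * Q' := by
    rw [hD]
    simp only
    rw [Finset.sum_sub_distrib, ← Finset.mul_sum, Finset.sum_comm]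
    congr 2
    refine Finset.sum_congr rfl fun z _ => ?_
    rw [← Finset.sum_mul, ← Finset.mul_sum]
    ring
  rw [hsumD] at hfin
  have htot : ∑ z ∈ Λ, c2 P E Λ o z * (∑ y ∈ L, c2 P E Λ z y) ^ 2 = eo ^ 2 + Q' := by
    rw [← Finset.add_sum_erase Λ _ ho, c2_self h1, one_mul]
  rw [htot]
  have hM := hMUB V P E Λ L u k o h0 h1 hd hE hL hu ho
  by_cases hc : eo ≤ th k * Q'
  · have h6 := mul_le_mul_of_nonneg_left hc ht0
    have h7 : 0 ≤ th k ^ 2 * eo ^ 2 := mul_nonneg (sq_nonneg _) (sq_nonneg _)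
    calc th k * eo ≤ th k * (th k * Q') := h6
      _ = th k ^ 2 * Q' := by ring
      _ ≤ 2 * F + th k ^ 2 * (eo ^ 2 + Q') := by
        rw [mul_add]
        linarith
  · rw [not_le] at hc
    have h8 : F * (eo - th k * Q') ≤ (th k * eo) * eo := by
      have h9 : 0 ≤ th k * Q' := mul_nonneg ht0 hQ0
      calc F * (eo - th k * Q') ≤ F * eo := mul_le_mul_of_nonneg_left (by linarith) hF0
        _ ≤ (th k * eo) * eo := mul_le_mul_of_nonneg_right hM heo0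
    have h10 := mul_le_mul_of_nonneg_left h8 ht0
    have e6 : th k * ((1 - F) * (eo - th k * Q')) =
      th k * eo - th k ^ 2 * Q' - th k * (F * (eo - th k * Q')) := by ring
    rw [e6] at hfin
    have e7 : th k * (th k * eo * eo) = th k ^ 2 * eo ^ 2 := by ring
    rw [e7] at h10
    rw [mul_add]
    linarith

end NU

end MP8622
end
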