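import Pool.Agent.Lib.MP_8622f1_pr.NU.QBD

set_option autoImplicit false

open Classical Filter Topology

/-!
# MP_8622f1_pr, module RAT (helper30): rates at a fixed parameter
-/

namespace MP8622

namespace NU

namespace RATM

theorem et_zero (hITA : SpecITA) {V : Type} (G : SimpleGraph V) [G.LocallyFinite] {h : V → ℝ}
    {τ p : ℝ} (hp0 : 0 ≤ p) (hp1 : p ≤ 1) {T : ℝ} {x : V} (hx : T ≤ h x) :
    ET G p h τ T x = 0 := by
  have hTA := hITA V G p hp0 hp1
  unfold ET sm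
  rw [ENNReal.tsum_eq_zero]
  intro y
  by_cases hy : y ∈ lay h (T - τ) T
  · rw [Set.indicator_of_mem hy]
    refine hTA.out _ _ _ (Or.inl ?_)
    intro hmem
    exact absurd (show h x < T from hmem) (not_lt.mpr hx)
  · rw [Set.indicator_of_notMem hy]

/-- the real estimate -/
theorem real {α c t p p₀ M Θ k : ℝ} (ht : 0 < t) (hp₀ : 0 < p₀) (hp : p₀ ≤ p) (hp1 : p ≤ 1)
    (hcα : c < α) (hM : 0 ≤ M) (hΘ : 1 ≤ Θ) (hk : k = p * Real.exp (-((α - c) / 2) * t)) :
    (2 * (Θ * Real.exp (-α * t)) + th k ^ 2 * (M * Real.exp (-c * t))) / th k ≤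
      (4 * Θ / p₀ + M) * Real.exp (-((α + c) / 2) * t) := by
  set E1 := Real.exp (-((α - c) / 2) * t) with hE1
  set E2 := Real.exp (-((α + c) / 2) * t) with hE2
  have h1 : 0 < E1 := Real.exp_pos _
  have h2 : 0 < E2 := Real.exp_pos _
  have h11 : E1 ≤ 1 := by
    rw [hE1, Real.exp_le_one_iff]
    have := mul_pos (sub_pos.2 hcα) ht
    nlinarith
  have e1 : Real.exp (-α * t) = E2 * E1 := by
    rw [hE1, hE2, ← Real.exp_add]
    congr 1
    ring
  have e2 : Real.exp (-c * t) * E1 = E2 := by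
    rw [hE1, hE2, ← Real.exp_add]
    congr 1
    ring
  have hpp : 0 < p := lt_of_lt_of_le hp₀ hp
  have hk0 : 0 < k := by rw [hk]; exact mul_pos hpp h1
  have hkE : k ≤ E1 := by
    rw [hk]
    calc p * E1 ≤ 1 * E1 := mul_le_mul_of_nonneg_right hp1 h1.le
      _ = E1 := one_mul _
  have hk1 : k ≤ 1 := hkE.trans h11
  obtain ⟨t1, t2, t3⟩ := etb_th hk0 hk1
  rw [div_le_iff₀ t3, e1]
  have hc1 : 0 < Real.exp (-c * t) := Real.exp_pos _
  have first : 2 * (Θ * (E2 * E1)) ≤ 4 * Θ / p₀ * E2 * th k := by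
    have h3 : E1 * p₀ ≤ 2 * th k := by
      have : E1 * p₀ ≤ k := by
        rw [hk, mul_comm]
        exact mul_le_mul_of_nonneg_right hp h1.le
      linarith
    have h4 : E1 ≤ 2 * th k / p₀ := by
      rw [le_div_iff₀ hp₀]
      exact h3
    calc 2 * (Θ * (E2 * E1)) = (2 * Θ * E2) * E1 := by ring
      _ ≤ (2 * Θ * E2) * (2 * th k / p₀) := mul_le_mul_of_nonneg_left h4 (by positivity)
      _ = 4 * Θ / p₀ * E2 * th k := by ring
  have second : th k ^ 2 * (M * Real.exp (-c * t)) ≤ M * E2 * th k := by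
    have h5 : th k * Real.exp (-c * t) ≤ E2 := by
      rw [← e2]
      calc th k * Real.exp (-c * t) ≤ E1 * Real.exp (-c * t) :=
            mul_le_mul_of_nonneg_right (t2.trans hkE) hc1.le
        _ = _ := mul_comm _ _
    calc th k ^ 2 * (M * Real.exp (-c * t)) = (M * th k) * (th k * Real.exp (-c * t)) := by ring
      _ ≤ (M * th k) * E2 := mul_le_mul_of_nonneg_left h5 (mul_nonneg hM t3.le)
      _ = M * E2 * th k := by ring
  calc _ ≤ 4 * Θ / p₀ * E2 * th k + M * E2 * th k := add_le_add first second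
    _ = _ := by ring

theorem step (hIFQ : SpecIFQ) (hQBD : SpecQBD) (hITA : SpecITA) (hIFA : SpecIFA) {Γ V : Type}
    [Group Γ] [MulAction Γ V] (G : SimpleGraph V) [G.LocallyFinite] {h : V → ℝ} {τ : ℝ} {d : ℕ}
    {p₀ : ℝ} (hC : Cx Γ G h τ d p₀) {p α c A Θ : ℝ} (hp : p₀ ≤ p) (hp1 : p ≤ 1)
    (hc : 1 / 2 < c) (hcα : c < α) (hA : 1 ≤ A) (hΘ : 1 ≤ Θ) (hE : Bd h (ET G p h τ) A c)
    (hAT : Bd h (AT G p h) Θ α) :
    ∃ A' : ℝ, 1 ≤ A' ∧ Bd h (ET G p h τ) A' ((α + c) / 2) := by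
  obtain ⟨K, hK, hQ⟩ := hQBD Γ V G h τ d p₀ hC c hc
  have hp0 : 0 ≤ p := hC.ppos.le.trans hp
  have hpp : 0 < p := lt_of_lt_of_le hC.ppos hp
  refine ⟨4 * Θ / p₀ + K * A ^ 4, ?_, ?_⟩
  · have h1 : 0 ≤ 4 * Θ / p₀ := div_nonneg (by linarith) hC.ppos.le
    have h2 : 1 ≤ K * A ^ 4 := by
      have : 1 ≤ A ^ 4 := one_le_pow₀ hA
      nlinarith
    linarith
  intro T x
  by_cases hx : T ≤ h x
  · rw [et_zero hITA G hp0 hp1 hx]
    exact zero_le
  have hx' : 0 < T - h x := by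
    push Not at hx
    linarith
  choose u hu using hC.ht.up
  set k : ℝ := p * Real.exp (-((α - c) / 2) * (T - h x)) with hk
  have hk0 : 0 < k := mul_pos hpp (Real.exp_pos _)
  have hexp1 : Real.exp (-((α - c) / 2) * (T - h x)) ≤ 1 := by
    rw [Real.exp_le_one_iff]
    have := mul_pos (sub_pos.2 hcα) hx'
    nlinarith
  have hkp : k ≤ p := by
    rw [hk]
    calc p * Real.exp (-((α - c) / 2) * (T - h x)) ≤ p * 1 :=
          mul_le_mul_of_nonneg_left hexp1 hp0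
      _ = p := mul_one p
  have hk1 : k ≤ 1 := hkp.trans hp1
  have hup : ∀ y ∈ lay h (T - τ) T, T ≤ h (u y) := by
    intro y hy
    rw [(hu y).2]
    have h3 : T - τ ≤ h y := hy.1
    linarith
  have h1 := hIFQ V G p k hp0 hp1 hk0.le hk1 (bel h T) (lay h (T - τ) T) u x (by
    intro y hy hmem
    have h2 : h (u y) < T := hmem
    have := hup y hy
    linarith)
  have h2 : FF G p k (bel h T) (lay h (T - τ) T) u x ≤ AT G p h T x := by
    refine (hIFA V G p hp0 hp1).le_MM k (bel h T) (lay h (T - τ) T) (abv h T) u x hk0.le hkp ?_ ?_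
    · rw [Set.disjoint_left]
      intro y hy hy'
      exact absurd (show h y < T from hy) (not_lt.2 hy')
    · intro y hy
      exact ⟨(hu y).1, hup y hy⟩
  have h3 := hAT T x
  have h4 := hQ p hp hp1 A hA hE T x
  have h5 : ENNReal.ofReal (th k) * ET G p h τ T x ≤
      ENNReal.ofReal (2 * (Θ * Real.exp (-α * (T - h x))) +
        th k ^ 2 * (K * A ^ 4 * Real.exp (-c * (T - h x)))) := by
    have hnn1 : 0 ≤ 2 * (Θ * Real.exp (-α * (T - h x))) := by
      have := Real.exp_pos (-α * (T - h x))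
      positivity
    have hnn2 : 0 ≤ th k ^ 2 * (K * A ^ 4 * Real.exp (-c * (T - h x))) := by
      have := Real.exp_pos (-c * (T - h x))
      positivity
    rw [ENNReal.ofReal_add hnn1 hnn2, ENNReal.ofReal_mul (by norm_num : (0 : ℝ) ≤ 2),
      ENNReal.ofReal_mul (sq_nonneg (th k))]
    refine le_trans h1 (add_le_add ?_ ?_)
    · refine mul_le_mul' ?_ (le_trans h2 h3)
      simp
    · exact mul_le_mul_right h4 _
  have h6 := etb_div (etb_th hk0 hk1).2.2 h5
  refine le_trans h6 (ENNReal.ofReal_le_ofReal ?_)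
  exact real hx' hC.ppos hp hp1 hcα (by positivity) hΘ hk

end RATM

open RATM BOOM in
/-- RAT -/
theorem specRAT (hFCH : SpecFCH) (hTHB : SpecTHB) (hQBD : SpecQBD) (hIFA : SpecIFA)
    (hIFQ : SpecIFQ) (hITA : SpecITA) : SpecRAT := by
  intro Γ V _ _ G _ h τ d p₀ hC p X α hp hp1 hX0 hX hα hST c hc
  have hp0 : 0 ≤ p := hC.ppos.le.trans hp
  obtain ⟨KT, ω, hKT, hω0, hω1, hT⟩ := hTHB Γ V G h τ d p₀ hC (3 / 4) (by norm_num)
  obtain ⟨f1, -, f3, -⟩ := hFCH Γ V G h τ d p₀ hC p X hp hp1 hX0 hX (3 / 4) (by norm_num)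
    (by norm_num)
  set A₀ : ℝ := max 1 (X * Real.exp τ) with hA₀
  have hA1 : 1 ≤ A₀ := le_max_left _ _
  have g1 : Bd h (ET G p h τ) A₀ (3 / 4) := bd_mono (le_max_right _ _) f1
  have g3 : Bd h (UT G p h τ) A₀ (3 / 4) := bd_mono (le_max_right _ _) f3
  have hAT := hT p hp hp1 A₀ α hA1 hα hST g3
  set Θ : ℝ := KT * A₀ ^ ω with hΘ
  have hΘ1 : 1 ≤ Θ := by
    rw [hΘ]
    have := Real.one_le_rpow hA1 hω0
    nlinarith
  have iter : ∀ n : ℕ, ∃ A : ℝ, 1 ≤ A ∧ Bd h (ET G p h τ) A (α - (α - 3 / 4) / 2 ^ n) := by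
    intro n
    induction n with
    | zero =>
      refine ⟨A₀, hA1, ?_⟩
      have e : α - (α - 3 / 4) / 2 ^ 0 = 3 / 4 := by ring
      rw [e]
      exact g1
    | succ n ih =>
      obtain ⟨A, hA, hE⟩ := ih
      have hpow : (1 : ℝ) ≤ 2 ^ n := one_le_pow₀ (by norm_num)
      have h34 : 0 < α - 3 / 4 := by linarith
      have h1 : (α - 3 / 4) / 2 ^ n ≤ α - 3 / 4 := div_le_self h34.le hpow
      have h2 : 0 < (α - 3 / 4) / 2 ^ n := by positivity
      obtain ⟨A', hA', hE'⟩ := step hIFQ hQBD hITA hIFA G hC hp hp1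
        (show 1 / 2 < α - (α - 3 / 4) / 2 ^ n by linarith) (by linarith) hA hΘ1 hE hAT
      refine ⟨A', hA', ?_⟩
      have e : (α + (α - (α - 3 / 4) / 2 ^ n)) / 2 = α - (α - 3 / 4) / 2 ^ (n + 1) := by
        rw [pow_succ]
        field_simp
        ring
      rw [e] at hE'
      exact hE'
  obtain ⟨n, hn⟩ := pow_unbounded_of_one_lt ((α - 3 / 4) / (α - c)) (show (1 : ℝ) < 2 by norm_num)
  obtain ⟨A, hA, hE⟩ := iter n
  refine ⟨A, hA, ?_⟩
  intro T x
  by_cases hx : T ≤ h x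
  · rw [et_zero hITA G hp0 hp1 hx]
    exact zero_le
  have hx' : 0 < T - h x := by
    push Not at hx
    linarith
  refine (hE T x).trans (ENNReal.ofReal_le_ofReal ?_)
  refine mul_le_mul_of_nonneg_left (Real.exp_le_exp.2 ?_) (by linarith)
  have hαc : 0 < α - c := by linarith
  have h2n : (0 : ℝ) < 2 ^ n := by positivity
  have h7 : (α - 3 / 4) / 2 ^ n ≤ α - c := by
    rw [div_lt_iff₀ hαc] at hn
    rw [div_le_iff₀ h2n]
    linarith
  nlinarith

end NU

end MP8622
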