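import Pool.Agent.Lib.MP_8622f1_pr.NU.SpecL

set_option autoImplicit false

open Classical Filter Topology

/-!
# Module UBD: two point sums in the region above `x`
-/

namespace MP8622

namespace NU

namespace UBDM

variable {V : Type}

theorem sm_mono {C : Set V} {f g : V → ENNReal} (h : ∀ y ∈ C, f y ≤ g y) : sm C f ≤ sm C g := by
  refine ENNReal.tsum_le_tsum fun y => ?_
  by_cases hy : y ∈ C
  · rw [Set.indicator_of_mem hy, Set.indicator_of_mem hy]
    exact h y hy
  · rw [Set.indicator_of_notMem hy, Set.indicator_of_notMem hy]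

theorem sm_add (C : Set V) (f g : V → ENNReal) :
    sm C (fun y => f y + g y) = sm C f + sm C g := by
  unfold sm
  rw [← ENNReal.tsum_add]
  refine tsum_congr fun y => ?_
  by_cases hy : y ∈ C
  · rw [Set.indicator_of_mem hy, Set.indicator_of_mem hy, Set.indicator_of_mem hy]
  · rw [Set.indicator_of_notMem hy, Set.indicator_of_notMem hy, Set.indicator_of_notMem hy,
      add_zero]

theorem sm_tsum (C : Set V) {ι : Type} (f : ι → V → ENNReal) :
    sm C (fun y => ∑' i, f i y) = ∑' i, sm C (f i) := by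
  unfold sm
  rw [ENNReal.tsum_comm]
  refine tsum_congr fun y => ?_
  by_cases hy : y ∈ C
  · rw [Set.indicator_of_mem hy]
    exact tsum_congr fun i => by rw [Set.indicator_of_mem hy]
  · rw [Set.indicator_of_notMem hy]
    symm
    rw [ENNReal.tsum_eq_zero]
    intro i
    rw [Set.indicator_of_notMem hy]

theorem sm_mul_left (C : Set V) (a : ENNReal) (f : V → ENNReal) :
    sm C (fun y => a * f y) = a * sm C f := by
  unfold sm
  rw [← ENNReal.tsum_mul_left]
  refine tsum_congr fun y => ?_
  by_cases hy : y ∈ C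
  · rw [Set.indicator_of_mem hy, Set.indicator_of_mem hy]
  · rw [Set.indicator_of_notMem hy, Set.indicator_of_notMem hy, mul_zero]

theorem sm_mul_right (C : Set V) (a : ENNReal) (f : V → ENNReal) :
    sm C (fun y => f y * a) = sm C f * a := by
  rw [mul_comm (sm C f) a, ← sm_mul_left]
  exact congrArg (sm C) (funext fun y => mul_comm _ _)

theorem sm_comm (C D : Set V) (f : V → V → ENNReal) :
    sm C (fun z => sm D (fun y => f y z)) = sm D (fun y => sm C (fun z => f y z)) := by
  unfold sm
  have h1 : ∀ z, C.indicator (fun z => ∑' y, D.indicator (fun y => f y z) y) z =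
      ∑' y, C.indicator (fun z => D.indicator (fun y => f y z) y) z := by
    intro z
    by_cases hz : z ∈ C
    · rw [Set.indicator_of_mem hz]
      exact tsum_congr fun i => by rw [Set.indicator_of_mem hz]
    · rw [Set.indicator_of_notMem hz]
      symm
      rw [ENNReal.tsum_eq_zero]
      intro i
      rw [Set.indicator_of_notMem hz]
  rw [tsum_congr h1, ENNReal.tsum_comm]
  refine tsum_congr fun y => ?_
  by_cases hy : y ∈ D
  · rw [Set.indicator_of_mem hy]
    refine tsum_congr fun z => ?_
    by_cases hz : z ∈ C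
    · rw [Set.indicator_of_mem hz, Set.indicator_of_mem hz, Set.indicator_of_mem hy]
    · rw [Set.indicator_of_notMem hz, Set.indicator_of_notMem hz]
  · rw [Set.indicator_of_notMem hy, ENNReal.tsum_eq_zero]
    intro z
    by_cases hz : z ∈ C
    · rw [Set.indicator_of_mem hz, Set.indicator_of_notMem hy]
    · rw [Set.indicator_of_notMem hz]

theorem abv_inter_bel (h : V → ℝ) (a b : ℝ) : abv h a ∩ bel h b = lay h a b := rfl

end UBDM

open UBDM in
theorem specUBD (hITA : SpecITA) (hHPD : SpecHPD) (hDWN : SpecDWN) : SpecUBD := by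
  intro Γ V _ _ G _ h τ d p₀ hCx c hc
  obtain ⟨K₁, hK₁, hdwn⟩ := hDWN Γ V G h τ d p₀ hCx
  have hτ : 0 < τ := hCx.ht.pos
  -- the geometric series
  set r : ℝ := Real.exp ((1 - 2 * c) * τ) with hr
  have hr0 : 0 < r := Real.exp_pos _
  have hr1 : r < 1 := by
    rw [hr, Real.exp_lt_one_iff]
    nlinarith
  have hsum : Summable (fun i : ℕ => r ^ (i + 1)) :=
    (summable_nat_add_iff 1).2 (summable_geometric_of_lt_one hr0.le hr1)
  set S : ℝ := ∑' i : ℕ, r ^ (i + 1) with hS
  have hS0 : 0 ≤ S := tsum_nonneg fun i => pow_nonneg hr0.le _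
  have hexp : ∀ i : ℕ, Real.exp ((1 - 2 * c) * ((i + 1) * τ)) = r ^ (i + 1) := by
    intro i
    rw [hr, ← Real.exp_nat_mul]
    congr 1
    push_cast
    ring
  refine ⟨1 + K₁ * S, by nlinarith [mul_nonneg (zero_le_one.trans hK₁) hS0], ?_⟩
  intro p hp0 hp1 A B hA hB hET hGT T x
  have hp : 0 ≤ p := hCx.ppos.le.trans hp0
  have hTT := hITA V G p hp hp1
  have hA0 : 0 ≤ A := zero_le_one.trans hA
  have hK0 : 0 ≤ K₁ := zero_le_one.trans hK₁
  -- a bound for each term
  have hterm : ∀ i : ℕ, sm (lay h (T + i * τ) (T + (i + 1) * τ)) (fun y =>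
      sm (lay h (T - τ) T) (fun z =>
        TT G p (abv h (h x) ∩ bel h (T + (i + 1) * τ)) x y *
          TT G p (abv h (h x) ∩ bel h (T + (i + 1) * τ)) y z)) ≤
      ENNReal.ofReal (B * Real.exp (-c * (T - h x)) * (K₁ * A) * r ^ (i + 1)) := by
    intro i
    have hi : (0 : ℝ) ≤ (i + 1) * τ := by positivity
    have e1 : ∀ y ∈ lay h (T + i * τ) (T + (i + 1) * τ),
        sm (lay h (T - τ) T) (fun z =>
          TT G p (abv h (h x) ∩ bel h (T + (i + 1) * τ)) x y *
            TT G p (abv h (h x) ∩ bel h (T + (i + 1) * τ)) y z) ≤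
        TT G p (lay h (h x) (T + (i + 1) * τ)) x y *
          ENNReal.ofReal (K₁ * A * Real.exp ((1 - c) * ((i + 1) * τ))) := by
      intro y hy
      rw [sm_mul_left, abv_inter_bel]
      refine mul_le_mul_right ?_ _
      have hd := hdwn p hp0 hp1 A c hA0 (by linarith) hET (T + (i + 1) * τ) ((i + 1) * τ) y
        (by have := hy.1; nlinarith) hi
      have e2 : T + (i + 1) * τ - (i + 1) * τ - τ = T - τ := by ring
      have e3 : T + (i + 1) * τ - (i + 1) * τ = T := by ring
      rw [e2, e3] at hd
      refine le_trans (sm_mono fun z _ => ?_) hd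
      exact hTT.mono _ _ (fun w hw => hw.2) _ _
    refine (sm_mono e1).trans ?_
    rw [sm_mul_right]
    have e4 : sm (lay h (T + i * τ) (T + (i + 1) * τ))
        (fun y => TT G p (lay h (h x) (T + (i + 1) * τ)) x y) =
        GT G p h τ (T + (i + 1) * τ) x := by
      unfold GT
      have : T + (i + 1) * τ - τ = T + i * τ := by ring
      rw [this]
    rw [e4]
    refine (mul_le_mul_left (hGT _ _) _).trans ?_
    rw [← ENNReal.ofReal_mul (by positivity)]
    refine ENNReal.ofReal_le_ofReal (le_of_eq ?_)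
    have e5 : Real.exp (-c * (T + (i + 1) * τ - h x)) * Real.exp ((1 - c) * ((i + 1) * τ)) =
        Real.exp (-c * (T - h x)) * r ^ (i + 1) := by
      rw [← hexp i, ← Real.exp_add, ← Real.exp_add]
      congr 1
      ring
    calc B * Real.exp (-c * (T + (i + 1) * τ - h x)) *
          (K₁ * A * Real.exp ((1 - c) * ((i + 1) * τ)))
        = B * (K₁ * A) * (Real.exp (-c * (T + (i + 1) * τ - h x)) *
          Real.exp ((1 - c) * ((i + 1) * τ))) := by ring
      _ = _ := by rw [e5]; ring
  -- the decomposition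
  have hdec : UT G p h τ T x ≤ GT G p h τ T x +
      ∑' i : ℕ, sm (lay h (T + i * τ) (T + (i + 1) * τ)) (fun y =>
      sm (lay h (T - τ) T) (fun z =>
        TT G p (abv h (h x) ∩ bel h (T + (i + 1) * τ)) x y *
          TT G p (abv h (h x) ∩ bel h (T + (i + 1) * τ)) y z)) := by
    unfold UT
    refine (sm_mono fun z _ => hHPD V G h τ p hτ hp hp1 (abv h (h x)) T x z).trans ?_
    rw [sm_add, sm_tsum]
    refine add_le_add (le_of_eq rfl) (le_of_eq ?_)
    refine tsum_congr fun i => ?_
    rw [sm_comm]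
  refine hdec.trans ?_
  refine (add_le_add (hGT T x) (ENNReal.tsum_le_tsum hterm)).trans ?_
  rw [← ENNReal.ofReal_tsum_of_nonneg (fun i => by positivity) (hsum.mul_left _), tsum_mul_left,
    ← ENNReal.ofReal_add (by positivity) (by positivity)]
  refine ENNReal.ofReal_le_ofReal ?_
  have hX : 0 ≤ B * Real.exp (-c * (T - h x)) := by positivity
  have e6 : B * Real.exp (-c * (T - h x)) ≤ B * Real.exp (-c * (T - h x)) * A :=
    le_mul_of_one_le_right hX hA
  calc B * Real.exp (-c * (T - h x)) + B * Real.exp (-c * (T - h x)) * (K₁ * A) * S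
      ≤ B * Real.exp (-c * (T - h x)) * A + B * Real.exp (-c * (T - h x)) * (K₁ * A) * S := by
        linarith
    _ = (1 + K₁ * S) * B * A * Real.exp (-c * (T - h x)) := by ring

end NU

end MP8622
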