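import Pool.Agent.Lib.MP_8622f1_pr.NU.SpecI
import Pool.Agent.Lib.MP_8622f1_pr.NU.FLD
import Pool.Agent.Lib.MP_8622f1_pr.NU.SpecL

section
set_option autoImplicit false

open Classical Filter Topology

/-!
# MP_8622f1_pr, nonunimodular graphs: module IDC
-/

namespace MP8622

namespace NU

namespace IDCM

variable {V : Type} (G : SimpleGraph V) [G.LocallyFinite]

theorem mag_le_MM {p : ℝ} {Λ : Finset V} {R : Set V} (D : Set V) (x : V) (h : ∀ z ∈ Λ, z ∈ R) :
    ENNReal.ofReal (mag G p Λ D x) ≤ MM G p R D x := by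
  have h2 := le_iSup (fun Λ : Finset V => ENNReal.ofReal (mag G p (Λ.filter (· ∈ R)) D x)) Λ
  have h3 : Λ.filter (· ∈ R) = Λ := Finset.filter_true_of_mem h
  simp only [h3] at h2
  exact h2

theorem tau_le_TT {p : ℝ} {Λ : Finset V} {R : Set V} (x y : V) (h : ∀ z ∈ Λ, z ∈ R) :
    ENNReal.ofReal (tau G p Λ x y) ≤ TT G p R x y := by
  have h2 := le_iSup (fun Λ : Finset V => ENNReal.ofReal (tau G p (Λ.filter (· ∈ R)) x y)) Λ
  have h3 : Λ.filter (· ∈ R) = Λ := Finset.filter_true_of_mem h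
  simp only [h3] at h2
  exact h2

/-- approximation of a sum of two point functions from inside -/
theorem appr {p : ℝ} (h0 : 0 ≤ p) (h1 : p ≤ 1) (R L₁ : Set V) (a : V) (e : ℝ)
    (h : ENNReal.ofReal e < ∑' v, L₁.indicator (fun v => TT G p R a v) v) :
    ∃ Λ : Finset V, (∀ z ∈ Λ, z ∈ R) ∧ ∀ Λ' : Finset V, Λ ⊆ Λ' →
      e ≤ ∑ v ∈ Λ'.filter (· ∈ L₁), tau G p Λ' a v := by
  rw [ENNReal.tsum_eq_iSup_sum, lt_iSup_iff] at h
  obtain ⟨F, hF⟩ := h
  have h2 : ∑ v ∈ F, L₁.indicator (fun v => TT G p R a v) v =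
      ⨆ Λ : Finset V, ∑ v ∈ F, L₁.indicator
        (fun v => ENNReal.ofReal (tau G p (Λ.filter (· ∈ R)) a v)) v := by
    rw [← ENNReal.finsetSum_iSup_of_monotone]
    · refine Finset.sum_congr rfl fun v _ => ?_
      by_cases hv : v ∈ L₁
      · simp only [Set.indicator_of_mem hv]
        rfl
      · simp only [Set.indicator_of_notMem hv, ENNReal.iSup_zero]
    · intro v Λ Λ' hΛ
      by_cases hv : v ∈ L₁
      · simp only [Set.indicator_of_mem hv]
        exact ENNReal.ofReal_le_ofReal (IsfM.tau_mono G h0 le_rfl h1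
          (Finset.filter_subset_filter _ hΛ) a v)
      · simp only [Set.indicator_of_notMem hv]
        exact le_rfl
  rw [h2, lt_iSup_iff] at hF
  obtain ⟨Λ, hΛ⟩ := hF
  refine ⟨Λ.filter (· ∈ R), fun z hz => (Finset.mem_filter.1 hz).2, fun Λ' hΛ' => ?_⟩
  have h3 : ∑ v ∈ F, L₁.indicator
        (fun v => ENNReal.ofReal (tau G p (Λ.filter (· ∈ R)) a v)) v ≤
      ENNReal.ofReal (∑ v ∈ Λ'.filter (· ∈ L₁), tau G p Λ' a v) := by
    rw [ENNReal.ofReal_sum_of_nonneg fun v _ => IsfM.tau_nonneg G h0 h1 _ _ _]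
    have h4 : ∀ v ∈ F, L₁.indicator
        (fun v => ENNReal.ofReal (tau G p (Λ.filter (· ∈ R)) a v)) v ≤
        if v ∈ Λ'.filter (· ∈ L₁) then ENNReal.ofReal (tau G p Λ' a v) else 0 := by
      intro v _
      by_cases hv : v ∈ L₁
      · simp only [Set.indicator_of_mem hv]
        by_cases hv2 : v ∈ Λ'
        · rw [if_pos (Finset.mem_filter.2 ⟨hv2, hv⟩)]
          exact ENNReal.ofReal_le_ofReal (IsfM.tau_mono G h0 le_rfl h1 hΛ' a v)
        · have : tau G p (Λ.filter (· ∈ R)) a v = 0 := if_neg fun h => hv2 (hΛ' h.2)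
          rw [this, ENNReal.ofReal_zero]
          exact bot_le
      · simp only [Set.indicator_of_notMem hv]
        exact bot_le
    refine (Finset.sum_le_sum h4).trans ?_
    rw [← Finset.sum_filter]
    exact Finset.sum_le_sum_of_subset fun v hv => (Finset.mem_filter.1 hv).2
  have h5 := (hΛ.le.trans h3)
  have h6 : 0 ≤ ∑ v ∈ Λ'.filter (· ∈ L₁), tau G p Λ' a v :=
    Finset.sum_nonneg fun v _ => IsfM.tau_nonneg G h0 h1 _ _ _
  exact (ENNReal.ofReal_le_ofReal_iff h6).1 h5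

omit [G.LocallyFinite] in
theorem sum_le (M : Finset V) (S : Set V) (f : V → ℝ) (F : V → ENNReal) (hf : ∀ v ∈ M, 0 ≤ f v)
    (hM : ∀ v ∈ M, v ∈ S) (h : ∀ v ∈ M, ENNReal.ofReal (f v) ≤ F v) :
    ENNReal.ofReal (∑ v ∈ M, f v) ≤ ∑' v, S.indicator F v := by
  rw [ENNReal.ofReal_sum_of_nonneg hf]
  refine le_trans (Finset.sum_le_sum fun v hv => ?_) (ENNReal.sum_le_tsum M)
  rw [Set.indicator_of_mem (hM v hv)]
  exact h v hv

omit [G.LocallyFinite] in
theorem sum_le' (M : Finset V) (f : V → ℝ) (F : V → ENNReal) (hf : ∀ v ∈ M, 0 ≤ f v)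
    (h : ∀ v ∈ M, ENNReal.ofReal (f v) ≤ F v) :
    ENNReal.ofReal (∑ v ∈ M, f v) ≤ ∑' v, F v := by
  rw [ENNReal.ofReal_sum_of_nonneg hf]
  exact le_trans (Finset.sum_le_sum fun v hv => h v hv) (ENNReal.sum_le_tsum M)

theorem mem_edD {Λ : Finset V} {D : Set V} {e : Sym2 V} :
    e ∈ edD G Λ D ↔ (e ∈ G.edgeSet ∧ ∃ x ∈ e, x ∈ Λ) ∧ ∀ z ∈ e, z ∈ Λ ∨ z ∈ D := by
  unfold edD
  rw [Finset.mem_filter, mem_ed']

omit [G.LocallyFinite] in
theorem mem_fan {L : Finset V} {u : V → V} {e : Sym2 V} :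
    e ∈ fan L u ↔ ∃ x ∈ L, s(x, u x) = e := by
  unfold fan
  rw [Finset.mem_image]

theorem th_nonneg {p : ℝ} (h0 : 0 ≤ p) (h1 : p ≤ 1) : 0 ≤ th p := div_nonneg h0 (by linarith)

theorem th_le_one {p : ℝ} (h1 : p ≤ 1) : th p ≤ 1 := by
  unfold th
  rw [div_le_one (by linarith)]
  linarith

theorem th_le_self {p : ℝ} (h0 : 0 ≤ p) (h1 : p ≤ 1) : th p ≤ p := by
  unfold th
  rw [div_le_iff₀ (by linarith)]
  nlinarith

end IDCM

open IDCM in
theorem specIDC (hCMP : SpecCMP) (hPSI : SpecPSI) (hCHG : SpecCHG) : SpecIDC := by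
  intro V _ G _ p p' k₀ q e hp'0 hp'p hp1 hk0 hkp' hq0 hqp' he0 he1 R₀ R₁ D L L₁ u hR₀₁ hR₀D hR₁D
    hLR₀ hL₁R₁ hLu hL₁u hE hQ hT x
  have hp'1 : p' ≤ 1 := hp'p.trans hp1
  have hp0 : 0 ≤ p := hp'0.trans hp'p
  have hk1 : k₀ ≤ 1 := hkp'.trans hp'1
  have hq1 : q ≤ 1 := hqp'.trans hp'1
  set k : ℝ := th q * th k₀ * e / 16 with hk
  have hthq0 := th_nonneg hq0 hq1
  have hthq1 := th_le_one hq1
  have hthk0 := th_nonneg hk0 hk1
  have hthk1 := th_le_one hk1
  have hk0' : 0 ≤ k := by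
    rw [hk]
    exact div_nonneg (mul_nonneg (mul_nonneg hthq0 hthk0) he0) (by norm_num)
  have hkq : k ≤ q := by
    have h1 : th q * th k₀ * e ≤ th q := by
      calc th q * th k₀ * e = th q * (th k₀ * e) := by ring
        _ ≤ th q * 1 := mul_le_mul_of_nonneg_left (by nlinarith) hthq0
        _ = th q := mul_one _
    have h2 := th_le_self hq0 hq1
    rw [hk]
    linarith
  have hk1' : k ≤ 1 := hkq.trans hq1
  refine iSup_le fun Λ₀ => ?_
  set Λ : Finset V := Λ₀.filter (· ∈ R₀) with hΛ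
  have hΛR : ∀ z ∈ Λ, z ∈ R₀ := fun z hz => (Finset.mem_filter.1 hz).2
  clear_value Λ
  by_cases hxΛ : x ∈ Λ
  swap
  · have : fld G p k R₀ Λ L u x = 0 := if_neg hxΛ
    rw [this, ENNReal.ofReal_zero]
    exact bot_le
  set Y : Finset V := Λ.filter (· ∈ L) with hY
  have hYΛ : Y ⊆ Λ := Finset.filter_subset _ _
  have hYL : ∀ y ∈ Y, y ∈ L := fun y hy => (Finset.mem_filter.1 hy).2
  -- the finite environment
  have hA : ∀ y : V, ∃ Λ' : Finset V, (∀ z ∈ Λ', z ∈ R₁) ∧ (y ∈ L → ∀ Λ'' : Finset V, Λ' ⊆ Λ'' →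
      e ≤ ∑ v ∈ Λ''.filter (· ∈ L₁), tau G p' Λ'' (u y) v) := by
    intro y
    by_cases hy : y ∈ L
    · obtain ⟨Λ', h1, h2⟩ := appr G hp'0 hp'1 R₁ L₁ (u y) e (hE y hy)
      exact ⟨Λ', h1, fun _ => h2⟩
    · exact ⟨∅, by simp, fun h => absurd h hy⟩
  choose F hF1 hF2 using hA
  set Λp : Finset V := Y.biUnion F ∪ Y.image u with hΛp
  have hΛpR : ∀ z ∈ Λp, z ∈ R₁ := by
    intro z hz
    rcases Finset.mem_union.1 hz with h | h
    · obtain ⟨y, -, hy⟩ := Finset.mem_biUnion.1 h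
      exact hF1 y z hy
    · obtain ⟨y, hy, rfl⟩ := Finset.mem_image.1 h
      exact (hLu y (hYL y hy)).2
  have huY : ∀ y ∈ Y, u y ∈ Λp := fun y hy =>
    Finset.mem_union_right _ (Finset.mem_image_of_mem u hy)
  have hFe : ∀ y ∈ Y, e ≤ ∑ v ∈ Λp.filter (· ∈ L₁), tau G p' Λp (u y) v := by
    intro y hy
    exact hF2 y (hYL y hy) Λp ((Finset.subset_biUnion_of_mem F hy).trans
      Finset.subset_union_left)
  clear_value Λp
  set M : Finset V := Λp.filter (· ∈ L₁) with hM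
  have hMΛ : M ⊆ Λp := Finset.filter_subset _ _
  have hML : ∀ v ∈ M, v ∈ L₁ := fun v hv => (Finset.mem_filter.1 hv).2
  obtain ⟨g, hg⟩ := Infinite.exists_notMem_finset (Λ ∪ Λp)
  have hgΛ : g ∉ Λ := fun h => hg (Finset.mem_union_left _ h)
  have hgp : g ∉ Λp := fun h => hg (Finset.mem_union_right _ h)
  have hd : Disjoint Λ Λp := Finset.disjoint_left.2 fun z h1 h2 =>
    Set.disjoint_left.1 hR₀₁ (hΛR z h1) (hΛpR z h2)
  have hYp : Disjoint Y Λp := Finset.disjoint_of_subset_left hYΛ hd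
  -- the opening probabilities
  set P : Sym2 V → ℝ := fun f => if g ∈ f then (if ∃ z ∈ f, z ∈ Λp then k₀ else k) else
    if ∀ z ∈ f, z ∈ R₀ then p else if ∀ z ∈ f, z ∈ R₁ then p' else q with hP
  have hP0 : ∀ f, 0 ≤ P f := by
    intro f
    simp only [hP]
    split_ifs <;> assumption
  have hPp : ∀ f, P f ≤ p := by
    intro f
    simp only [hP]
    split_ifs <;> linarith
  have hP1 : ∀ f, P f ≤ 1 := fun f => (hPp f).trans hp1
  have hPvg : ∀ v ∈ Λp, P s(v, g) = k₀ := by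
    intro v hv
    simp only [hP]
    rw [if_pos (Sym2.mem_mk_right v g), if_pos ⟨v, Sym2.mem_mk_left v g, hv⟩]
  have hPyg : ∀ y ∈ Y, P s(y, g) = k := by
    intro y hy
    simp only [hP]
    rw [if_pos (Sym2.mem_mk_right y g), if_neg]
    rintro ⟨z, hz, hz2⟩
    rcases Sym2.mem_iff.1 hz with rfl | rfl
    · exact Finset.disjoint_left.1 hYp hy hz2
    · exact hgp hz2
  have hPyu : ∀ y ∈ Y, P s(y, u y) = q := by
    intro y hy
    simp only [hP]
    rw [if_neg, if_neg, if_neg]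
    · intro h
      exact Set.disjoint_left.1 hR₀₁ (hΛR y (hYΛ hy)) (h y (Sym2.mem_mk_left _ _))
    · intro h
      exact Set.disjoint_left.1 hR₀₁ (h (u y) (Sym2.mem_mk_right _ _)) (hΛpR _ (huY y hy))
    · intro h
      rcases Sym2.mem_iff.1 h with h | h
      · exact hgΛ (h ▸ hYΛ hy)
      · exact hgp (h ▸ huY y hy)
  have hPm : ∀ f ∈ ed0 G Λ, P f = p := by
    intro f hf
    rw [mem_ed0] at hf
    simp only [hP]
    rw [if_neg fun h => hgΛ (hf.2 g h), if_pos fun z hz => hΛR z (hf.2 z hz)]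
  have hPe : ∀ f ∈ ed0 G Λp, P f = p' := by
    intro f hf
    rw [mem_ed0, mem_ed'] at hf
    obtain ⟨⟨-, z, hz, hz2⟩, h3⟩ := hf
    simp only [hP]
    rw [if_neg fun h => hgp (h3 g h), if_neg, if_pos fun z hz => hΛpR z (h3 z hz)]
    intro h
    exact Set.disjoint_left.1 hR₀₁ (h z hz) (hΛpR z hz2)
  have hc2 : ∀ a ∈ Λp, ∀ b ∈ Λp, c2 P (ed0 G Λp) Λp a b = tau G p' Λp a b := by
    intro a ha b hb
    rw [IsfM.tau_eq G ha hb]
    exact corr_congr (Finset.Subset.refl _) hPe (fun f hf hne => absurd hf hne) _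
  -- PSI
  have hpsi : ∀ X : Finset V, X ⊆ Y → 1 - (1 - k) ^ X.card ≤
      corr P (ed0 G Λp ∪ fan M (fun _ => g) ∪ fan X u) (insert g Λp) {g} := by
    intro X hX
    refine hPSI V P (ed0 G Λp) Λp M X g u k₀ q e hP0 hP1
      (fun f hf => IsfM.not_isDiag_ed G ((mem_ed0 G).1 hf).1)
      (fun f hf => ((mem_ed0 G).1 hf).2) hgp hMΛ (Finset.disjoint_of_subset_left hX hYp)
      (fun h => hgΛ (hYΛ (hX h))) (fun v hv => hPvg v (hMΛ hv))
      (fun y hy => ⟨huY y (hX hy), hPyu y (hX hy)⟩) hk0 hk1 hq0 hq1 he0 ?_ ?_ ?_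
    · intro y hy
      rw [Finset.sum_congr rfl fun v hv => hc2 (u y) (huY y (hX hy)) v (hMΛ hv)]
      exact hFe y (hX hy)
    · intro y hy
      rw [Finset.sum_congr rfl fun z hz => by
        rw [hc2 (u y) (huY y (hX hy)) z hz,
          Finset.sum_congr rfl fun v hv => hc2 z hz v (hMΛ hv)]]
      refine (ENNReal.ofReal_le_ofReal_iff (by positivity)).1
        (le_trans ?_ (hQ y (hYL y (hX hy))))
      rw [ENNReal.ofReal_mul hthk0]
      refine mul_le_mul' le_rfl (sum_le' Λp _ _ (fun z _ => mul_nonneg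
        (IsfM.tau_nonneg G hp'0 hp'1 _ _ _) (sq_nonneg _)) fun z _ => ?_)
      rw [ENNReal.ofReal_mul (IsfM.tau_nonneg G hp'0 hp'1 _ _ _), ENNReal.ofReal_pow
        (Finset.sum_nonneg fun v _ => IsfM.tau_nonneg G hp'0 hp'1 _ _ _)]
      refine mul_le_mul' (tau_le_TT G _ _ hΛpR) (pow_le_pow_left' (sum_le M L₁ _ _ (fun v _ =>
        IsfM.tau_nonneg G hp'0 hp'1 _ _ _) hML fun v _ => tau_le_TT G _ _ hΛpR) 2)
    · intro y hy
      rw [Finset.sum_congr rfl fun z hz => by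
        rw [hc2 (u y) (huY y (hX hy)) z hz,
          Finset.sum_congr rfl fun v hv => hc2 z hz v (hMΛ hv),
          Finset.sum_congr rfl fun x' hx' => hc2 z hz (u x') (huY x' (hX hx'))]]
      refine (ENNReal.ofReal_le_ofReal_iff (by positivity)).1
        (le_trans ?_ (hT y (hYL y (hX hy))))
      have hn : ∀ a b : V, 0 ≤ tau G p' Λp a b := fun a b => IsfM.tau_nonneg G hp'0 hp'1 _ a b
      rw [ENNReal.ofReal_mul hthq0]
      refine mul_le_mul' le_rfl (sum_le' Λp _ _ (fun z _ => mul_nonneg (mul_nonneg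
        (hn _ _) (Finset.sum_nonneg fun v _ => hn _ _)) (Finset.sum_nonneg fun v _ => hn _ _))
        fun z _ => ?_)
      rw [ENNReal.ofReal_mul (mul_nonneg (hn _ _) (Finset.sum_nonneg fun v _ => hn _ _)),
        ENNReal.ofReal_mul (hn _ _)]
      exact mul_le_mul' (mul_le_mul' (tau_le_TT G _ _ hΛpR) (sum_le M L₁ _ _ (fun v _ => hn _ _)
        hML fun v _ => tau_le_TT G _ _ hΛpR)) (sum_le X L _ _ (fun v _ => hn _ _)
        (fun v hv => hYL v (hX hv)) fun v _ => tau_le_TT G _ _ hΛpR)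
  -- CMP
  have hcmp := hCMP V P (ed0 G Λ) (ed0 G Λp ∪ fan M (fun _ => g)) Λ Λp Y g u k hP0 hP1
    (fun f hf => IsfM.not_isDiag_ed G ((mem_ed0 G).1 hf).1) (by
      intro f hf
      rcases Finset.mem_union.1 hf with h | h
      · exact IsfM.not_isDiag_ed G ((mem_ed0 G).1 h).1
      · obtain ⟨v, hv, rfl⟩ := mem_fan.1 h
        rw [Sym2.mk_isDiag_iff]
        rintro rfl
        exact hgp (hMΛ hv)) hd hgΛ hgp (fun f hf => ((mem_ed0 G).1 hf).2) (by
      intro f hf z hz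
      rcases Finset.mem_union.1 hf with h | h
      · exact Finset.mem_insert_of_mem (((mem_ed0 G).1 h).2 z hz)
      · obtain ⟨v, hv, rfl⟩ := mem_fan.1 h
        rcases Sym2.mem_iff.1 hz with rfl | rfl
        · exact Finset.mem_insert_of_mem (hMΛ hv)
        · exact Finset.mem_insert_self _ _) hYΛ
    (fun y hy => ⟨huY y hy, hPyg y hy⟩) hk0' hk1' (by
      intro X hX _
      refine le_trans ?_ (hpsi X hX)
      have h1 : 0 ≤ (1 - k) ^ X.card := pow_nonneg (by linarith) _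
      have h2 : (1 - k) ^ X.card ≤ 1 := pow_le_one₀ (by linarith) (by linarith)
      rw [div_le_iff₀ (by linarith)]
      nlinarith) {x} (Finset.singleton_subset_iff.2 hxΛ)
  -- left side
  have hleft : fld G p k R₀ Λ L u x =
      corr P (ed0 G Λ ∪ fan Y (fun _ => g)) Λ {x} := by
    unfold fld
    rw [if_pos hxΛ]
    refine hCHG V (Pk p k R₀) P (ed0 G Λ) Λ Y {x} u (fun _ => g) hYΛ ?_ ?_ ?_ ?_ ?_ ?_
    · intro v hv h
      exact Set.disjoint_left.1 hR₀₁ (hΛR _ h) (hΛpR _ (huY v hv))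
    · intro v _
      exact hgΛ
    · intro v hv h
      exact Set.disjoint_left.1 hR₀₁ (hΛR _ ((mem_ed0_mk G).1 h).2.2) (hΛpR _ (huY v hv))
    · intro v _ h
      exact hgΛ ((mem_ed0_mk G).1 h).2.2
    · intro v hv
      rw [hPyg v hv]
      unfold Pk
      rw [if_neg]
      intro h
      exact Set.disjoint_left.1 hR₀₁ (h (u v) (Sym2.mem_mk_right _ _)) (hΛpR _ (huY v hv))
    · intro f hf
      rw [hPm f hf]
      unfold Pk
      rw [if_pos fun z hz => hΛR z (((mem_ed0 G).1 hf).2 z hz)]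
  -- right side
  set P' : Sym2 V → ℝ := fun f => if ∃ z ∈ f, z ∈ D then k₀ else P f with hP'
  have hP'0 : ∀ f, 0 ≤ P' f := by
    intro f
    simp only [hP']
    split_ifs
    · exact hk0
    · exact hP0 f
  have hP'p : ∀ f, P' f ≤ p := by
    intro f
    simp only [hP']
    split_ifs
    · linarith
    · exact hPp f
  have hDΛ : ∀ z ∈ D, z ∉ Λ ∪ Λp := by
    intro z hz h
    rcases Finset.mem_union.1 h with h | h
    · exact Set.disjoint_left.1 hR₀D (hΛR z h) hz
    · exact Set.disjoint_left.1 hR₁D (hΛpR z h) hz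
  set E' : Finset (Sym2 V) := ed0 G Λ ∪ fan Y u ∪ ed0 G Λp with hE'
  have hE'in : ∀ f ∈ E', ∀ z ∈ f, z ∈ Λ ∪ Λp := by
    intro f hf z hz
    rcases Finset.mem_union.1 hf with hf | hf
    · rcases Finset.mem_union.1 hf with hf | hf
      · exact Finset.mem_union_left _ (((mem_ed0 G).1 hf).2 z hz)
      · obtain ⟨y, hy, rfl⟩ := mem_fan.1 hf
        rcases Sym2.mem_iff.1 hz with rfl | rfl
        · exact Finset.mem_union_left _ (hYΛ hy)
        · exact Finset.mem_union_right _ (huY y hy)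
    · exact Finset.mem_union_right _ (((mem_ed0 G).1 hf).2 z hz)
  have hright : corr P (ed0 G Λ ∪ fan Y u ∪ (ed0 G Λp ∪ fan M (fun _ => g))) (Λ ∪ Λp) {x} =
      corr P' (E' ∪ fan M u) (Λ ∪ Λp) {x} := by
    rw [← Finset.union_assoc]
    refine hCHG V P P' E' (Λ ∪ Λp) M {x} (fun _ => g) u
      (hMΛ.trans Finset.subset_union_right) ?_ ?_ ?_ ?_ ?_ ?_
    · intro v _
      exact hg
    · intro v hv
      exact hDΛ _ (hL₁u v (hML v hv)).2
    · intro v _ h
      exact hg (hE'in _ h g (Sym2.mem_mk_right _ _))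
    · intro v hv h
      exact hDΛ _ (hL₁u v (hML v hv)).2 (hE'in _ h (u v) (Sym2.mem_mk_right _ _))
    · intro v hv
      rw [hPvg v (hMΛ hv)]
      simp only [hP']
      rw [if_pos ⟨u v, Sym2.mem_mk_right _ _, (hL₁u v (hML v hv)).2⟩]
    · intro f hf
      simp only [hP']
      rw [if_neg]
      rintro ⟨z, hz, hz2⟩
      exact hDΛ z hz2 (hE'in f hf z hz)
  have hfin : corr P' (E' ∪ fan M u) (Λ ∪ Λp) {x} ≤ mag G p (Λ ∪ Λp) D x := by
    unfold mag
    rw [if_pos (Finset.mem_union_left _ hxΛ)]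
    refine (corr_mono hP'0 hP'p (P' := fun _ => p) (fun _ => hp1) (Finset.Subset.refl _) _).trans
      (SlM.corr_mono_edges (fun _ => hp0) (fun _ => hp1) ?_ _ _)
    intro f hf
    rw [mem_edD]
    rcases Finset.mem_union.1 hf with hf | hf
    · refine ⟨⟨?_, ?_⟩, fun z hz => Or.inl (hE'in f hf z hz)⟩
      · rcases Finset.mem_union.1 hf with hf | hf
        · rcases Finset.mem_union.1 hf with hf | hf
          · exact ((mem_ed' G).1 ((mem_ed0 G).1 hf).1).1
          · obtain ⟨y, hy, rfl⟩ := mem_fan.1 hf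
            exact (SimpleGraph.mem_edgeSet _).2 (hLu y (hYL y hy)).1
        · exact ((mem_ed' G).1 ((mem_ed0 G).1 hf).1).1
      · induction f using Sym2.ind with
        | _ a b => exact ⟨a, Sym2.mem_mk_left a b, hE'in _ hf a (Sym2.mem_mk_left a b)⟩
    · obtain ⟨v, hv, rfl⟩ := mem_fan.1 hf
      have h1 := hL₁u v (hML v hv)
      refine ⟨⟨(SimpleGraph.mem_edgeSet _).2 h1.1, v, Sym2.mem_mk_left _ _,
        Finset.mem_union_right _ (hMΛ hv)⟩, fun z hz => ?_⟩
      rcases Sym2.mem_iff.1 hz with rfl | rfl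
      · exact Or.inl (Finset.mem_union_right _ (hMΛ hv))
      · exact Or.inr h1.2
  refine le_trans (ENNReal.ofReal_le_ofReal ?_) (mag_le_MM G D x (Λ := Λ ∪ Λp) ?_)
  · rw [hleft]
    rw [hright] at hcmp
    exact hcmp.trans hfin
  · intro z hz
    rcases Finset.mem_union.1 hz with h | h
    · exact Or.inl (hΛR z h)
    · exact Or.inr (hΛpR z h)

end NU

end MP8622
end

section
set_option autoImplicit false

open Classical Filter Topology

/-!
# Module IFQ: the quadratic inequality in infinite volume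
-/

namespace MP8622

namespace NU

namespace IFQM

variable {V : Type} (G : SimpleGraph V) [G.LocallyFinite]

theorem th_nonneg {k : ℝ} (h0 : 0 ≤ k) (h1 : k ≤ 1) : 0 ≤ th k :=
  div_nonneg h0 (by linarith)

theorem fan_not_ed0 {R : Set V} {Λ : Finset V} {y w : V} (hΛ : ∀ z ∈ Λ, z ∈ R) (hw : w ∉ R) :
    s(y, w) ∉ ed0 G Λ := fun h => hw (hΛ w (((mem_ed0 G).1 h).2 w (Sym2.mem_mk_right y w)))

/-- on the edges inside `Λ ⊆ R` the opening probability is `p` -/
theorem c2_Pk {p k : ℝ} {R : Set V} {Λ : Finset V} (hΛ : ∀ z ∈ Λ, z ∈ R) {x y : V} (hx : x ∈ Λ)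
    (hy : y ∈ Λ) : c2 (Pk p k R) (ed0 G Λ) Λ x y = tau G p Λ x y := by
  rw [c2, IsfM.tau_eq G hx hy]
  refine corr_congr (Finset.Subset.refl _) (fun e he => ?_) (fun e he hne => absurd he hne) _
  have h2 : ∀ z ∈ e, z ∈ R := fun z hz => hΛ z (((mem_ed0 G).1 he).2 z hz)
  rw [Pk, if_pos h2]

/-- the finite volume inequality -/
theorem fin (hQUA : SpecQUA) {p k : ℝ} (h0 : 0 ≤ p) (h1 : p ≤ 1) (hk0 : 0 ≤ k) (hk1 : k ≤ 1)
    {R L : Set V} {u : V → V} {x : V} (hu : ∀ y ∈ L, u y ∉ R) {Λ : Finset V}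
    (hΛ : ∀ z ∈ Λ, z ∈ R) (hx : x ∈ Λ) :
    th k * ∑ y ∈ Λ.filter (· ∈ L), tau G p Λ x y ≤ 2 * fld G p k R Λ L u x +
      th k ^ 2 * ∑ z ∈ Λ, tau G p Λ x z * (∑ y ∈ Λ.filter (· ∈ L), tau G p Λ z y) ^ 2 := by
  have hP0 : ∀ e, 0 ≤ Pk p k R e := fun e => by
    rw [Pk]
    split_ifs
    · exact h0
    · exact hk0
  have hP1 : ∀ e, Pk p k R e ≤ 1 := fun e => by
    rw [Pk]
    split_ifs
    · exact h1
    · exact hk1
  have key := hQUA V (Pk p k R) (ed0 G Λ) Λ (Λ.filter (· ∈ L)) u k x hP0 hP1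
    (fun e he => IsfM.not_isDiag_ed G ((mem_ed0 G).1 he).1)
    (fun e he => ((mem_ed0 G).1 he).2) (Finset.filter_subset _ _)
    (fun v hv => by
      have hvL := (Finset.mem_filter.1 hv).2
      refine ⟨fun h => hu v hvL (hΛ _ h), ?_⟩
      rw [Pk, if_neg]
      intro h
      exact hu v hvL (h (u v) (Sym2.mem_mk_right v (u v)))) hx hk0 hk1
  have hc : ∀ z ∈ Λ, ∀ y ∈ Λ, c2 (Pk p k R) (ed0 G Λ) Λ z y = tau G p Λ z y :=
    fun z hz y hy => c2_Pk G hΛ hz hy
  have e1 : ∑ y ∈ Λ.filter (· ∈ L), c2 (Pk p k R) (ed0 G Λ) Λ x y =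
      ∑ y ∈ Λ.filter (· ∈ L), tau G p Λ x y :=
    Finset.sum_congr rfl fun y hy => hc x hx y (Finset.mem_filter.1 hy).1
  have e2 : ∑ z ∈ Λ, c2 (Pk p k R) (ed0 G Λ) Λ x z *
      (∑ y ∈ Λ.filter (· ∈ L), c2 (Pk p k R) (ed0 G Λ) Λ z y) ^ 2 =
      ∑ z ∈ Λ, tau G p Λ x z * (∑ y ∈ Λ.filter (· ∈ L), tau G p Λ z y) ^ 2 := by
    refine Finset.sum_congr rfl fun z hz => ?_
    rw [hc x hx z hz, Finset.sum_congr rfl fun y hy => hc z hz y (Finset.mem_filter.1 hy).1]
  rw [e1, e2] at key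
  rw [fld, if_pos hx]
  exact key

end IFQM

/-- IFQ: the quadratic inequality -/
theorem specIFQ (hQUA : SpecQUA) : SpecIFQ := by
  intro V G _ p k h0 h1 hk0 hk1 R L u x hu
  have ht := IFQM.th_nonneg hk0 hk1
  have hn : ∀ (Λ : Finset V) (a b : V), 0 ≤ tau G p Λ a b := fun Λ a b =>
    IsfM.tau_nonneg G h0 h1 Λ a b
  have hTT : ∀ (Λ : Finset V) (a b : V), ENNReal.ofReal (tau G p (Λ.filter (· ∈ R)) a b) ≤
      TT G p R a b := fun Λ a b =>
    le_iSup (fun Λ : Finset V => ENNReal.ofReal (tau G p (Λ.filter (· ∈ R)) a b)) Λ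
  rw [← ENNReal.tsum_mul_left, ENNReal.tsum_eq_iSup_sum]
  refine iSup_le fun Y => ?_
  rw [← Finset.mul_sum]
  have e0 : ∀ y : V, L.indicator (fun y => TT G p R x y) y = ⨆ Λ : Finset V,
      (if y ∈ L then ENNReal.ofReal (tau G p (Λ.filter (· ∈ R)) x y) else 0) := by
    intro y
    by_cases hy : y ∈ L
    · rw [Set.indicator_of_mem hy]
      simp only [if_pos hy]
      rfl
    · rw [Set.indicator_of_notMem hy]
      simp only [if_neg hy, iSup_const]
  simp only [e0]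
  rw [ENNReal.finsetSum_iSup_of_monotone]
  swap
  · intro y Λ Λ' hΛ
    show (if y ∈ L then ENNReal.ofReal (tau G p (Λ.filter (· ∈ R)) x y) else 0) ≤
      if y ∈ L then ENNReal.ofReal (tau G p (Λ'.filter (· ∈ R)) x y) else 0
    split_ifs
    · exact ENNReal.ofReal_le_ofReal (IsfM.tau_mono G h0 le_rfl h1
        (Finset.filter_subset_filter _ hΛ) x y)
    · exact le_rfl
  rw [ENNReal.mul_iSup]
  refine iSup_le fun Λ₀ => ?_
  set Λ : Finset V := (Λ₀ ∪ Y).filter (· ∈ R) with hΛ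
  have hΛR : ∀ z ∈ Λ, z ∈ R := fun z hz => (Finset.mem_filter.1 hz).2
  have step : ∑ y ∈ Y, (if y ∈ L then ENNReal.ofReal (tau G p (Λ₀.filter (· ∈ R)) x y) else 0) ≤
      ∑ y ∈ Λ.filter (· ∈ L), ENNReal.ofReal (tau G p Λ x y) := by
    have h2 : ∀ y ∈ Y, (if y ∈ L then ENNReal.ofReal (tau G p (Λ₀.filter (· ∈ R)) x y) else 0) ≤
        if y ∈ Λ.filter (· ∈ L) then ENNReal.ofReal (tau G p Λ x y) else 0 := by
      intro y hy
      by_cases hyL : y ∈ L
      · rw [if_pos hyL]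
        by_cases hyR : y ∈ R
        · rw [if_pos (Finset.mem_filter.2 ⟨Finset.mem_filter.2
            ⟨Finset.mem_union_right _ hy, hyR⟩, hyL⟩)]
          exact ENNReal.ofReal_le_ofReal (IsfM.tau_mono G h0 le_rfl h1
            (Finset.filter_subset_filter _ Finset.subset_union_left) x y)
        · have h3 : tau G p (Λ₀.filter (· ∈ R)) x y = 0 :=
            if_neg fun h => hyR (Finset.mem_filter.1 h.2).2
          rw [h3, ENNReal.ofReal_zero]
          exact zero_le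
      · rw [if_neg hyL]
        exact zero_le
    refine (Finset.sum_le_sum h2).trans ?_
    rw [← Finset.sum_filter]
    exact Finset.sum_le_sum_of_subset fun y hy => (Finset.mem_filter.1 hy).2
  refine (mul_le_mul_right step _).trans ?_
  by_cases hx : x ∈ Λ
  · have key := IFQM.fin G hQUA h0 h1 hk0 hk1 hu hΛR hx
    rw [← ENNReal.ofReal_sum_of_nonneg (fun y _ => hn Λ x y), ← ENNReal.ofReal_mul ht]
    refine (ENNReal.ofReal_le_ofReal key).trans (ENNReal.ofReal_add_le.trans (add_le_add ?_ ?_))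
    · rw [ENNReal.ofReal_mul zero_le_two, ENNReal.ofReal_ofNat]
      refine mul_le_mul_right ?_ _
      exact le_iSup (fun Λ : Finset V => ENNReal.ofReal (fld G p k R (Λ.filter (· ∈ R)) L u x))
        (Λ₀ ∪ Y)
    · rw [ENNReal.ofReal_mul (pow_nonneg ht 2)]
      refine mul_le_mul_right ?_ _
      rw [ENNReal.ofReal_sum_of_nonneg fun z _ => mul_nonneg (hn Λ x z) (pow_nonneg
        (Finset.sum_nonneg fun y _ => hn Λ z y) 2)]
      refine le_trans ?_ (ENNReal.sum_le_tsum Λ)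
      refine Finset.sum_le_sum fun z _ => ?_
      rw [ENNReal.ofReal_mul (hn Λ x z), ENNReal.ofReal_pow (Finset.sum_nonneg fun y _ => hn Λ z y)]
      refine mul_le_mul' (hTT (Λ₀ ∪ Y) x z) (pow_le_pow_left' ?_ 2)
      rw [ENNReal.ofReal_sum_of_nonneg fun y _ => hn Λ z y]
      refine le_trans ?_ (ENNReal.sum_le_tsum (Λ.filter (· ∈ L)))
      refine Finset.sum_le_sum fun y hy => ?_
      rw [Set.indicator_of_mem (Finset.mem_filter.1 hy).2]
      exact hTT (Λ₀ ∪ Y) z y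
  · have h2 : ∀ y, tau G p Λ x y = 0 := fun y => if_neg fun h => hx h.1
    simp only [h2, ENNReal.ofReal_zero, Finset.sum_const_zero, mul_zero]
    exact zero_le

end NU

end MP8622
end

section
set_option autoImplicit false

open Classical Filter Topology

/-!
# MP_8622f1_pr, nonunimodular graphs: module IMA (properties of the magnetisation `MM`)
-/

namespace MP8622

namespace NU

namespace IMAM

variable {V : Type} (G : SimpleGraph V) [G.LocallyFinite]

theorem mem_edD {Λ : Finset V} {D : Set V} {e : Sym2 V} :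
    e ∈ edD G Λ D ↔ (e ∈ G.edgeSet ∧ ∃ x ∈ e, x ∈ Λ) ∧ ∀ z ∈ e, z ∈ Λ ∨ z ∈ D := by
  unfold edD
  rw [Finset.mem_filter, mem_ed']

theorem mag_nonneg {p : ℝ} (h0 : 0 ≤ p) (h1 : p ≤ 1) (Λ : Finset V) (D : Set V) (x : V) :
    0 ≤ mag G p Λ D x := by
  unfold mag
  split_ifs
  · exact corr_nonneg (fun _ => h0) (fun _ => h1) _
  · exact le_rfl

theorem mag_le_one {p : ℝ} (h1 : p ≤ 1) (Λ : Finset V) (D : Set V) (x : V) :
    mag G p Λ D x ≤ 1 := by
  unfold mag
  split_ifs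
  · exact corr_le_one (fun _ => h1) _
  · exact zero_le_one

theorem mag_le_MM {p : ℝ} {Λ : Finset V} {R : Set V} (D : Set V) (x : V) (h : ∀ z ∈ Λ, z ∈ R) :
    ENNReal.ofReal (mag G p Λ D x) ≤ MM G p R D x := by
  have h2 := le_iSup (fun Λ : Finset V => ENNReal.ofReal (mag G p (Λ.filter (· ∈ R)) D x)) Λ
  have h3 : Λ.filter (· ∈ R) = Λ := Finset.filter_true_of_mem h
  simp only [h3] at h2
  exact h2

theorem MM_le {p : ℝ} {R D : Set V} {x : V} {c : ENNReal}
    (h : ∀ Λ : Finset V, (∀ z ∈ Λ, z ∈ R) → ENNReal.ofReal (mag G p Λ D x) ≤ c) :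
    MM G p R D x ≤ c :=
  iSup_le fun _ => h _ (fun _ hz => (Finset.mem_filter.1 hz).2)

theorem tau_le_TT {p : ℝ} {Λ : Finset V} {R : Set V} (x y : V) (h : ∀ z ∈ Λ, z ∈ R) :
    ENNReal.ofReal (tau G p Λ x y) ≤ TT G p R x y := by
  have h2 := le_iSup (fun Λ : Finset V => ENNReal.ofReal (tau G p (Λ.filter (· ∈ R)) x y)) Λ
  have h3 : Λ.filter (· ∈ R) = Λ := Finset.filter_true_of_mem h
  simp only [h3] at h2
  exact h2

/-- fewer free spins, more plus spins -/
theorem mag_mono {p : ℝ} (h0 : 0 ≤ p) (h1 : p ≤ 1) {Λ Λ' : Finset V} {D D' : Set V} {x : V}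
    (hΛ : Λ' ⊆ Λ) (hD : D ⊆ D') (hR : ∀ z ∈ Λ, z ∈ Λ' ∨ z ∈ D') (hx : x ∈ Λ') :
    mag G p Λ D x ≤ mag G p Λ' D' x := by
  unfold mag
  rw [if_pos (hΛ hx), if_pos hx]
  refine (corr_mono (fun _ => h0) (fun _ => le_rfl) (fun _ => h1) hΛ {x}).trans ?_
  rw [← corr_congr (P := fun _ => p) (P' := fun _ => p)
    (E := (edD G Λ D).filter (fun e => ∃ z ∈ e, z ∈ Λ')) (E' := edD G Λ D)
    (Finset.filter_subset _ _) (fun _ _ => rfl) (fun e he hne => Or.inl fun z hz hzΛ => hne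
      (Finset.mem_filter.2 ⟨he, z, hz, hzΛ⟩)) {x}]
  refine SlM.corr_mono_edges (fun _ => h0) (fun _ => h1) ?_ _ _
  intro e he
  rw [Finset.mem_filter, mem_edD] at he
  rw [mem_edD]
  obtain ⟨⟨⟨h2, -⟩, h3⟩, h4⟩ := he
  refine ⟨⟨h2, h4⟩, fun z hz => ?_⟩
  rcases h3 z hz with h5 | h5
  · exact hR z h5
  · exact Or.inr (hD h5)

/-- more vertices, away from the plus spins -/
theorem mag_ext {p : ℝ} (h0 : 0 ≤ p) (h1 : p ≤ 1) {Λ Λ' : Finset V} {D : Set V} (x : V)
    (hΛ : Λ ⊆ Λ') (hD : ∀ z ∈ Λ', z ∉ D) : mag G p Λ D x ≤ mag G p Λ' D x := by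
  by_cases hx : x ∈ Λ
  · unfold mag
    rw [if_pos hx, if_pos (hΛ hx)]
    have h := corr_union (P := fun _ => p) (E₁ := edD G Λ D) (E₂ := ∅) (Λ₁ := Λ)
      (Λ₂ := Λ' \ Λ) (A₁ := {x}) (A₂ := ∅) Finset.disjoint_sdiff (Finset.disjoint_empty_right _)
      (fun e he z hz hz2 => by
        rw [Finset.mem_sdiff] at hz2
        rw [mem_edD] at he
        rcases he.2 z hz with h3 | h3
        · exact hz2.2 h3
        · exact hD z hz2.1 h3) (by simp) (Finset.singleton_subset_iff.2 hx)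
      (Finset.empty_subset _)
    rw [Finset.union_empty, Finset.union_empty, Finset.union_sdiff_of_subset hΛ,
      corr_empty (fun _ => h1), mul_one] at h
    rw [← h]
    refine SlM.corr_mono_edges (fun _ => h0) (fun _ => h1) ?_ _ _
    intro e he
    rw [mem_edD] at he ⊢
    obtain ⟨⟨h2, z, hz, hz2⟩, h3⟩ := he
    exact ⟨⟨h2, z, hz, hΛ hz2⟩, fun z hz => (h3 z hz).imp (fun h => hΛ h) id⟩
  · have : mag G p Λ D x = 0 := if_neg hx
    rw [this]
    exact mag_nonneg G h0 h1 _ _ _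

theorem mem_map_iff (g : V ≃ V) (Λ : Finset V) (x : V) : g x ∈ Λ.map g.toEmbedding ↔ x ∈ Λ := by
  rw [Finset.mem_map_equiv, Equiv.symm_apply_apply]

theorem mem_img_iff (g : V ≃ V) (D : Set V) (x : V) : g x ∈ g '' D ↔ x ∈ D :=
  g.injective.mem_set_image

theorem edD_map {g : V ≃ V} (hg : IsAut G g) (Λ : Finset V) (D : Set V) :
    edD G (Λ.map g.toEmbedding) (g '' D) = (edD G Λ D).image (Sym2.map g) := by
  ext e
  unfold edD
  rw [Finset.mem_filter, ed_map G hg, Finset.mem_image, Finset.mem_image]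
  constructor
  · rintro ⟨⟨e', he', rfl⟩, h⟩
    refine ⟨e', Finset.mem_filter.2 ⟨he', fun x hx => ?_⟩, rfl⟩
    have := h (g x) (Sym2.mem_map.2 ⟨x, hx, rfl⟩)
    rwa [mem_map_iff, mem_img_iff] at this
  · rintro ⟨e', he', rfl⟩
    rw [Finset.mem_filter] at he'
    refine ⟨⟨e', he'.1, rfl⟩, fun x hx => ?_⟩
    obtain ⟨y, hy, rfl⟩ := Sym2.mem_map.1 hx
    rw [mem_map_iff, mem_img_iff]
    exact he'.2 y hy

theorem mag_map {g : V ≃ V} (hg : IsAut G g) (p : ℝ) (Λ : Finset V) (D : Set V) (x : V) :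
    mag G p (Λ.map g.toEmbedding) (g '' D) (g x) = mag G p Λ D x := by
  unfold mag
  have h2 : ({g x} : Finset V) = ({x} : Finset V).map g.toEmbedding := by
    rw [Finset.map_singleton]
    rfl
  simp only [mem_map_iff]
  rw [h2, edD_map G hg, corr_map]

theorem mag_mul {p : ℝ} (h0 : 0 ≤ p) (h1 : p ≤ 1) (Λ : Finset V) (D : Set V) (x y : V) :
    tau G p Λ x y * mag G p Λ D y ≤ mag G p Λ D x := by
  by_cases h : x ∈ Λ ∧ y ∈ Λ
  · rw [IsfM.tau_eq G h.1 h.2]
    unfold mag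
    rw [if_pos h.1, if_pos h.2]
    have h3 : corr (fun _ => p) (ed0 G Λ) Λ (symmDiff {x} {y}) ≤
        corr (fun _ => p) (edD G Λ D) Λ (symmDiff {x} {y}) := by
      refine SlM.corr_mono_edges (fun _ => h0) (fun _ => h1) ?_ _ _
      intro e he
      rw [mem_ed0] at he
      unfold edD
      exact Finset.mem_filter.2 ⟨he.1, fun z hz => Or.inl (he.2 z hz)⟩
    have h2 := corr_gks (P := fun _ => p) (E := edD G Λ D) (Λ := Λ) (fun _ => h0) (fun _ => h1)
      (symmDiff {x} {y}) {y}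
    rw [symmDiff_assoc, symmDiff_self, symmDiff_bot] at h2
    exact (mul_le_mul_of_nonneg_right h3 (corr_nonneg (fun _ => h0) (fun _ => h1) _)).trans h2
  · have : tau G p Λ x y = 0 := if_neg h
    rw [this, zero_mul]
    exact mag_nonneg G h0 h1 _ _ _

theorem th_le {p : ℝ} (h0 : 0 ≤ p) (h1 : p ≤ 1) {D : Set V} {x y : V} (hy : y ∈ D)
    (hxy : G.Adj x y) : th p ≤ mag G p {x} D x := by
  unfold mag
  rw [if_pos (Finset.mem_singleton_self x)]
  have hne : x ≠ y := hxy.ne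
  have h2 : ({s(x, y)} : Finset (Sym2 V)) ⊆ edD G {x} D := by
    rw [Finset.singleton_subset_iff, mem_edD]
    refine ⟨⟨(SimpleGraph.mem_edgeSet _).2 hxy, x, Sym2.mem_mk_left x y,
      Finset.mem_singleton_self x⟩, fun z hz => ?_⟩
    rcases Sym2.mem_iff.1 hz with rfl | rfl
    · exact Or.inl (Finset.mem_singleton_self _)
    · exact Or.inr hy
  refine le_trans (le_of_eq ?_) (SlM.corr_mono_edges (P := fun _ => p) (fun _ => h0)
    (fun _ => h1) h2 {x} _)
  have h3 := SlM.corr_insert (P := fun _ : Sym2 V => p) (fun _ => h1) (E := ∅) (x := x) (v := y)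
    (Finset.notMem_empty _) {x} {x}
  have h4 : corr (fun _ : Sym2 V => p) ∅ {x} {x} = 0 :=
    SlM.corr_zero (Finset.mem_singleton_self x) (Finset.mem_singleton_self x) (by simp)
  have h5 : corr (fun _ : Sym2 V => p) ∅ {x} (symmDiff {x} {y}) = 0 := by
    refine SlM.corr_zero (Finset.mem_singleton_self x) ?_ (by simp)
    rw [Finset.mem_symmDiff]
    exact Or.inl ⟨Finset.mem_singleton_self x, fun h => hne (Finset.mem_singleton.1 h)⟩
  have h6 : corr (fun _ : Sym2 V => p) ∅ {x} {y} = 1 := by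
    have hZ := Z_pos (P := fun _ : Sym2 V => p) (fun _ => h1) ∅ {x}
    unfold corr
    rw [div_eq_one_iff_eq hZ.ne']
    refine Finset.sum_congr rfl fun S hS => ?_
    rw [SlM.chi_single, if_neg, one_mul]
    intro h
    exact hne (Finset.mem_singleton.1 (Finset.mem_powerset.1 hS h)).symm
  have h7 : symmDiff ({x} : Finset V) (symmDiff {x} {y}) = {y} :=
    symmDiff_symmDiff_cancel_left _ _
  rw [h7, h4, h5, h6] at h3
  have h8 : (insert s(x, y) ∅ : Finset (Sym2 V)) = {s(x, y)} := rfl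
  rw [h8] at h3
  rw [h3]
  unfold th
  simp

end IMAM

open IMAM in
theorem specIMA : SpecIMA := by
  intro V G _ p h0 h1
  refine ⟨?_, ?_, ?_, ?_, ?_, ?_, ?_⟩
  · intro R D x
    refine MM_le G fun Λ _ => ?_
    rw [ENNReal.ofReal_le_one]
    exact mag_le_one G h1 _ _ _
  · intro R D x hx
    refine le_antisymm (MM_le G fun Λ hΛ => ?_) bot_le
    have : mag G p Λ D x = 0 := if_neg fun h => hx (hΛ x h)
    rw [this, ENNReal.ofReal_zero]
  · intro R D R' D' hD hR hRD x hx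
    refine MM_le G fun Λ hΛ => ?_
    by_cases hxΛ : x ∈ Λ
    · refine le_trans (ENNReal.ofReal_le_ofReal (mag_mono G h0 h1
        (Λ' := Λ.filter (· ∈ R')) (Finset.filter_subset _ _) hD (fun z hz => ?_)
        (Finset.mem_filter.2 ⟨hxΛ, hx⟩))) (mag_le_MM G D' x fun z hz => (Finset.mem_filter.1 hz).2)
      rcases hR (hΛ z hz) with h | h
      · exact Or.inl (Finset.mem_filter.2 ⟨hz, h⟩)
      · exact Or.inr h
    · have : mag G p Λ D x = 0 := if_neg hxΛ
      rw [this, ENNReal.ofReal_zero]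
      exact bot_le
  · intro g hg R D x
    apply le_antisymm
    · refine MM_le G fun Λ hΛ => ?_
      have h2 : (Λ.map g.symm.toEmbedding).map g.toEmbedding = Λ := by
        ext z
        rw [Finset.mem_map_equiv, Finset.mem_map_equiv]
        simp
      rw [← h2, mag_map G hg]
      refine mag_le_MM G D x fun z hz => ?_
      rw [Finset.mem_map_equiv] at hz
      have h3 := hΛ _ hz
      rw [Equiv.symm_symm] at h3
      rwa [mem_img_iff] at h3
    · refine MM_le G fun Λ hΛ => ?_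
      rw [← mag_map G hg]
      refine mag_le_MM G _ _ fun z hz => ?_
      rw [Finset.mem_map_equiv] at hz
      exact ⟨g.symm z, hΛ _ hz, g.apply_symm_apply z⟩
  · intro R D x y hRD
    rw [TT, ENNReal.iSup_mul]
    refine iSup_le fun Λ₁ => ?_
    rw [MM, ENNReal.mul_iSup]
    refine iSup_le fun Λ₂ => ?_
    have hR : ∀ z ∈ Λ₁.filter (· ∈ R) ∪ Λ₂.filter (· ∈ R), z ∈ R := by
      intro z hz
      rcases Finset.mem_union.1 hz with h | h
      · exact (Finset.mem_filter.1 h).2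
      · exact (Finset.mem_filter.1 h).2
    rw [← ENNReal.ofReal_mul (IsfM.tau_nonneg G h0 h1 _ _ _)]
    refine le_trans (ENNReal.ofReal_le_ofReal ?_) (mag_le_MM G D x hR)
    refine le_trans ?_ (mag_mul G h0 h1 _ D x y)
    refine mul_le_mul (IsfM.tau_mono G h0 le_rfl h1 Finset.subset_union_left x y)
      (mag_ext G h0 h1 y Finset.subset_union_right fun z hz hzD =>
        Set.disjoint_left.1 hRD (hR z hz) hzD) (mag_nonneg G h0 h1 _ _ _)
      (IsfM.tau_nonneg G h0 h1 _ _ _)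
  · intro R D x y hx hy _ hxy
    refine le_trans (ENNReal.ofReal_le_ofReal (th_le G h0 h1 hy hxy)) (mag_le_MM G D x ?_)
    intro z hz
    rw [Finset.mem_singleton.1 hz]
    exact hx
  · intro Rn D hRn x
    apply le_antisymm
    · refine MM_le G fun Λ hΛ => ?_
      have h2 : ∃ n, ∀ z ∈ Λ, z ∈ Rn n := by
        clear h0 h1
        induction Λ using Finset.induction_on with
        | empty => exact ⟨0, by simp⟩
        | insert a s _ ih =>
          obtain ⟨n, hn⟩ := ih fun z hz => hΛ z (Finset.mem_insert_of_mem hz)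
          obtain ⟨k, hk⟩ := Set.mem_iUnion.1 (hΛ a (Finset.mem_insert_self a s))
          refine ⟨max n k, fun z hz => ?_⟩
          rcases Finset.mem_insert.1 hz with rfl | hz
          · exact hRn (le_max_right n k) hk
          · exact hRn (le_max_left n k) (hn z hz)
      obtain ⟨n, hn⟩ := h2
      exact (mag_le_MM G D x hn).trans (le_iSup (fun n => MM G p (Rn n) D x) n)
    · refine iSup_le fun n => MM_le G fun Λ hΛ => mag_le_MM G D x fun z hz => ?_
      exact Set.mem_iUnion.2 ⟨n, hΛ z hz⟩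

end NU

end MP8622
end

section
set_option autoImplicit false

open Classical Filter Topology

/-!
# Module IMR: removing a set of vertices from a region, magnetisation
-/

namespace MP8622

namespace NU

namespace IMRM

variable {V : Type} (G : SimpleGraph V) [G.LocallyFinite]

theorem mem_edD {Λ : Finset V} {D : Set V} {e : Sym2 V} :
    e ∈ edD G Λ D ↔ e ∈ ed G Λ ∧ ∀ z ∈ e, z ∈ Λ ∨ z ∈ D := by
  simp [edD]

theorem ein_edD (Λ : Finset V) (D : Set V) : ein (edD G Λ D) Λ = ed0 G Λ := by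
  ext e
  rw [SlM.mem_ein, mem_ed0, mem_edD]
  constructor
  · rintro ⟨⟨h1, _⟩, h2⟩
    exact ⟨h1, h2⟩
  · rintro ⟨h1, h2⟩
    exact ⟨⟨h1, fun z hz => Or.inl (h2 z hz)⟩, h2⟩

theorem filter_edD {L K : Finset V} {D : Set V} (hD : ∀ z ∈ L, z ∉ D) (hK : K ⊆ L) :
    (edD G L D).filter (fun e => ∀ z ∈ e, z ∉ K) = edD G (L \ K) D := by
  ext e
  rw [Finset.mem_filter, mem_edD, mem_edD, mem_ed', mem_ed']
  constructor
  · rintro ⟨⟨⟨h1, z, hz, hzL⟩, h2⟩, h3⟩
    exact ⟨⟨h1, z, hz, Finset.mem_sdiff.2 ⟨hzL, h3 z hz⟩⟩, fun w hw =>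
      (h2 w hw).imp (fun h => Finset.mem_sdiff.2 ⟨h, h3 w hw⟩) id⟩
  · rintro ⟨⟨h1, z, hz, hzL⟩, h2⟩
    refine ⟨⟨⟨h1, z, hz, (Finset.mem_sdiff.1 hzL).1⟩, fun w hw =>
      (h2 w hw).imp (fun h => (Finset.mem_sdiff.1 h).1) id⟩, fun w hw hwK => ?_⟩
    rcases h2 w hw with h | h
    · exact (Finset.mem_sdiff.1 h).2 hwK
    · exact hD w (hK hwK) h

end IMRM

/-- IMR: removing the set `C` from the region, magnetisation -/
theorem specIMR (hMRC : SpecMRC) : SpecIMR := by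
  intro V G _ p h0 h1 R D C x hRD
  rw [MM]
  refine iSup_le fun Λ => ?_
  set L : Finset V := Λ.filter (· ∈ R) with hL
  have hLR : ∀ z ∈ L, z ∈ R := fun z hz => (Finset.mem_filter.1 hz).2
  have hLD : ∀ z ∈ L, z ∉ D := fun z hz hzD => Set.disjoint_left.1 hRD (hLR z hz) hzD
  by_cases hx : x ∈ L
  · set K : Finset V := L.filter (· ∈ C) with hK
    have hKL : K ⊆ L := Finset.filter_subset _ _
    have hdiag : ∀ e ∈ edD G L D, ¬ e.IsDiag := fun e he =>
      IsfM.not_isDiag_ed G ((IMRM.mem_edD G).1 he).1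
    have key := hMRC V (fun _ => p) (edD G L D) L K x (fun _ => h0) (fun _ => h1) hdiag hx hKL
    rw [IMRM.filter_edD G hLD hKL, IMRM.ein_edD G] at key
    have hM : ∀ z ∈ L, corr (fun _ => p) (edD G L D) L {z} = mag G p L D z := fun z hz => by
      rw [mag, if_pos hz]
    have hc0 : ∀ a b : V, 0 ≤ c2 (fun _ => p) (ed0 G L) L a b := fun a b =>
      corr_nonneg (fun _ => h0) (fun _ => h1) _
    have hm0 : ∀ a : V, 0 ≤ corr (fun _ => p) (edD G L D) L {a} := fun a =>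
      corr_nonneg (fun _ => h0) (fun _ => h1) _
    rw [← hM x hx]
    refine (ENNReal.ofReal_le_ofReal key).trans (ENNReal.ofReal_add_le.trans (add_le_add ?_ ?_))
    · split_ifs with h4
      · simp
      · have hx' : x ∈ L \ K := Finset.mem_sdiff.2 ⟨hx, h4⟩
        have h2 : corr (fun _ => p) (edD G (L \ K) D) (L \ K) {x} = mag G p (L \ K) D x := by
          rw [mag, if_pos hx']
        rw [h2, MM]
        refine le_iSup_of_le Λ (le_of_eq ?_)
        congr 2
        ext z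
        simp only [hK, hL, Finset.mem_sdiff, Finset.mem_filter, Set.mem_sdiff]
        tauto
    · rw [ENNReal.ofReal_sum_of_nonneg fun z _ => mul_nonneg (hc0 x z) (hm0 z)]
      refine le_trans ?_ (ENNReal.sum_le_tsum K)
      refine Finset.sum_le_sum fun z hz => ?_
      have hzL : z ∈ L := hKL hz
      have hzC : z ∈ C := (Finset.mem_filter.1 hz).2
      rw [Set.indicator_of_mem hzC, ENNReal.ofReal_mul (hc0 x z)]
      refine mul_le_mul' ?_ ?_
      · have h2 : c2 (fun _ => p) (ed0 G L) L x z = tau G p L x z := (IsfM.tau_eq G hx hzL).symm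
        rw [h2]
        exact le_iSup (fun Λ : Finset V => ENNReal.ofReal (tau G p (Λ.filter (· ∈ R)) x z)) Λ
      · rw [hM z hzL]
        exact le_iSup (fun Λ : Finset V => ENNReal.ofReal (mag G p (Λ.filter (· ∈ R)) D z)) Λ
  · have h2 : mag G p L D x = 0 := if_neg hx
    rw [h2, ENNReal.ofReal_zero]
    exact zero_le

end NU

end MP8622
end

section
set_option autoImplicit false

open Classical Filter Topology

/-!
# Module IMU: upper bound for the magnetisation of a region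
-/

namespace MP8622

namespace NU

namespace IMUM

variable {V : Type} (G : SimpleGraph V) [G.LocallyFinite]

theorem mem_edD {Λ : Finset V} {D : Set V} {e : Sym2 V} :
    e ∈ edD G Λ D ↔ e ∈ ed G Λ ∧ ∀ z ∈ e, z ∈ Λ ∨ z ∈ D := by
  simp [edD]

theorem ein_edD (Λ : Finset V) (D : Set V) : ein (edD G Λ D) Λ = ed0 G Λ := by
  ext e
  rw [SlM.mem_ein, mem_ed0, mem_edD]
  constructor
  · rintro ⟨⟨h1, _⟩, h2⟩
    exact ⟨h1, h2⟩
  · rintro ⟨h1, h2⟩
    exact ⟨⟨h1, fun z hz => Or.inl (h2 z hz)⟩, h2⟩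

theorem real_bound {d : ℕ} {p : ℝ} (h0 : 0 ≤ p) (h1 : p ≤ 1)
    (hd : ∀ x, (G.neighborFinset x).card ≤ d) (Λ : Finset V) (D : Set V) {x : V} (hx : x ∈ Λ) :
    corr (fun _ => p) (edD G Λ D) Λ {x} ≤
      ∑ u ∈ Λ, (d : ℝ) * (if ∃ z ∈ D, G.Adj u z then tau G p Λ x u else 0) := by
  have hW : ∀ e ∈ edD G Λ D, ∀ z ∈ e, z ∈ Λ ∪ Λ.biUnion (fun u => G.neighborFinset u) := by
    intro e he z hz
    obtain ⟨hed, -⟩ := (mem_edD G).1 he
    obtain ⟨a, ha, b, hab, rfl⟩ := (mem_ed G).1 hed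
    rw [Finset.mem_union]
    rcases Sym2.mem_iff.1 hz with rfl | rfl
    · exact Or.inl ha
    · right
      rw [Finset.mem_biUnion]
      exact ⟨a, ha, (G.mem_neighborFinset _ _).2 hab⟩
  have hSL := specSL V (fun _ => p) (edD G Λ D) Λ Λ ∅ x (fun _ => h0) (fun _ => h1)
    (fun e he => IsfM.not_isDiag_ed G ((mem_edD G).1 he).1) (Finset.Subset.refl _) hx
    (Finset.disjoint_empty_left _) _ hW
  rw [← Finset.bot_eq_empty, symmDiff_bot, ein_edD] at hSL
  refine hSL.trans (Finset.sum_le_sum fun u hu => ?_)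
  have ht0 := IsfM.tau_nonneg G h0 h1 Λ x u
  have hE : ∀ v ∈ (Λ ∪ Λ.biUnion fun u => G.neighborFinset u) \ Λ, s(u, v) ∈ edD G Λ D →
      G.Adj u v ∧ v ∈ D := by
    intro v hv he
    obtain ⟨hed, hD⟩ := (mem_edD G).1 he
    refine ⟨((mem_ed_mk G).1 hed).1, ?_⟩
    rcases hD v (Sym2.mem_mk_right u v) with h | h
    · exact absurd h (Finset.mem_sdiff.1 hv).2
    · exact h
  split_ifs with hz
  · have h2 : ∀ v ∈ (Λ ∪ Λ.biUnion fun u => G.neighborFinset u) \ Λ,
        (if s(u, v) ∈ edD G Λ D then p / (2 - p) *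
          corr (fun _ => p) (ed0 G Λ) Λ (symmDiff {x} {u}) *
          corr (fun _ => p) (edD G Λ D) Λ (symmDiff {v} ⊥) else 0) ≤
        if v ∈ G.neighborFinset u then tau G p Λ x u else 0 := by
      intro v hv
      by_cases he : s(u, v) ∈ edD G Λ D
      · rw [if_pos he, if_pos ((G.mem_neighborFinset _ _).2 (hE v hv he).1),
          ← IsfM.tau_eq G hx hu]
        have h3 : p / (2 - p) * tau G p Λ x u ≤ 1 * tau G p Λ x u :=
          mul_le_mul_of_nonneg_right (IsfM.t_le_one h1) ht0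
        have h4 : corr (fun _ => p) (edD G Λ D) Λ (symmDiff {v} ⊥) ≤ 1 :=
          corr_le_one (fun _ => h1) _
        have h5 : 0 ≤ p / (2 - p) * tau G p Λ x u := mul_nonneg (IsfM.t_nonneg h0 h1) ht0
        calc p / (2 - p) * tau G p Λ x u * corr (fun _ => p) (edD G Λ D) Λ (symmDiff {v} ⊥)
            ≤ p / (2 - p) * tau G p Λ x u * 1 := mul_le_mul_of_nonneg_left h4 h5
          _ ≤ tau G p Λ x u := by linarith
      · rw [if_neg he]
        split_ifs
        · exact ht0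
        · exact le_rfl
    refine (Finset.sum_le_sum h2).trans ?_
    rw [← Finset.sum_filter, Finset.sum_const, nsmul_eq_mul]
    refine mul_le_mul_of_nonneg_right ?_ ht0
    have h6 : (((Λ ∪ Λ.biUnion fun u => G.neighborFinset u) \ Λ).filter
        (fun v => v ∈ G.neighborFinset u)).card ≤ (G.neighborFinset u).card :=
      Finset.card_le_card fun v hv => (Finset.mem_filter.1 hv).2
    exact_mod_cast h6.trans (hd u)
  · rw [mul_zero]
    refine Finset.sum_nonpos fun v hv => ?_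
    rw [if_neg]
    intro he
    exact hz ⟨v, (hE v hv he).2, (hE v hv he).1⟩

end IMUM

theorem specIMU : SpecIMU := by
  intro V G _ d p h0 h1 hd R D x _
  refine iSup_le fun Λ₀ => ?_
  unfold mag
  split_ifs with hx
  · refine (ENNReal.ofReal_le_ofReal (IMUM.real_bound G h0 h1 hd _ D hx)).trans ?_
    rw [ENNReal.ofReal_sum_of_nonneg]
    · have h2 : ∀ u ∈ Λ₀.filter (· ∈ R), ENNReal.ofReal ((d : ℝ) *
          (if ∃ z ∈ D, G.Adj u z then tau G p (Λ₀.filter (· ∈ R)) x u else 0)) ≤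
          (d : ENNReal) * {y | ∃ z ∈ D, G.Adj y z}.indicator (fun y => TT G p R x y) u := by
        intro u _
        rw [ENNReal.ofReal_mul (Nat.cast_nonneg d), ENNReal.ofReal_natCast]
        refine mul_le_mul_right ?_ _
        by_cases hz : ∃ z ∈ D, G.Adj u z
        · rw [if_pos hz, Set.indicator_of_mem (show u ∈ {y | ∃ z ∈ D, G.Adj y z} from hz)]
          exact le_iSup (fun Λ : Finset V => ENNReal.ofReal (tau G p (Λ.filter (· ∈ R)) x u)) Λ₀
        · rw [if_neg hz, ENNReal.ofReal_zero]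
          exact zero_le
      refine (Finset.sum_le_sum h2).trans ?_
      rw [← Finset.mul_sum]
      exact mul_le_mul_right (ENNReal.sum_le_tsum _) _
    · intro u _
      refine mul_nonneg (Nat.cast_nonneg d) ?_
      split_ifs
      · exact IsfM.tau_nonneg G h0 h1 _ _ _
      · exact le_rfl
  · rw [ENNReal.ofReal_zero]
    exact zero_le

end NU

end MP8622
end

section
set_option autoImplicit false

open Classical Filter Topology

/-!
# ISM: supermultiplicativity of the magnetisation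
-/

namespace MP8622

namespace NU

namespace ISMM

variable {V : Type} (G : SimpleGraph V) [G.LocallyFinite] {p : ℝ}

theorem mem_edD {Λ : Finset V} {D : Set V} {e : Sym2 V} :
    e ∈ edD G Λ D ↔ e ∈ ed G Λ ∧ ∀ z ∈ e, z ∈ Λ ∨ z ∈ D := by
  simp [edD]

/-- extra free spins which do not occur in the edges -/
theorem extend {P : Sym2 V → ℝ} (h1 : ∀ e, P e ≤ 1) {E : Finset (Sym2 V)}
    {Λ Λ' A : Finset V} (hΛ : Λ ⊆ Λ') (hE : ∀ e ∈ E, ∀ x ∈ e, x ∉ Λ' \ Λ) (hA : A ⊆ Λ) :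
    corr P E Λ' A = corr P E Λ A := by
  have h := corr_union (P := P) (E₁ := E) (E₂ := ∅) (Λ₁ := Λ) (Λ₂ := Λ' \ Λ) (A₁ := A)
    (A₂ := ∅) Finset.disjoint_sdiff (Finset.disjoint_empty_right _)
    (fun e he x hx hx2 => hE e he x hx hx2) (by simp) hA
    (Finset.empty_subset _)
  rwa [Finset.union_empty, Finset.union_empty, Finset.union_sdiff_of_subset hΛ,
    corr_empty h1, mul_one] at h

theorem mag_mono (h0 : 0 ≤ p) (h1 : p ≤ 1) {Λ Λ' : Finset V} {D : Set V} (hΛ : Λ ⊆ Λ')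
    (hD : ∀ z ∈ Λ', z ∉ D) (x : V) : mag G p Λ D x ≤ mag G p Λ' D x := by
  by_cases hx : x ∈ Λ
  · have e1 : mag G p Λ D x = corr (fun _ => p) (edD G Λ D) Λ {x} := if_pos hx
    have e2 : mag G p Λ' D x = corr (fun _ => p) (edD G Λ' D) Λ' {x} := if_pos (hΛ hx)
    rw [e1, e2, ← extend (P := fun _ => p) (fun _ => h1) hΛ (E := edD G Λ D) ?_
      (Finset.singleton_subset_iff.2 hx)]
    · refine SlM.corr_mono_edges (P := fun _ => p) (fun _ => h0) (fun _ => h1) ?_ Λ' _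
      intro e he
      rw [mem_edD] at he ⊢
      exact ⟨ed_mono G hΛ he.1, fun z hz => (he.2 z hz).imp (fun h => hΛ h) id⟩
    · intro e he z hz hz2
      rw [Finset.mem_sdiff] at hz2
      rcases ((mem_edD G).1 he).2 z hz with h | h
      · exact hz2.2 h
      · exact hD z hz2.1 h
  · have e1 : mag G p Λ D x = 0 := if_neg hx
    rw [e1]
    unfold mag
    split_ifs
    · exact corr_nonneg (fun _ => h0) (fun _ => h1) _
    · exact le_rfl

theorem corr_out {P : Sym2 V → ℝ} (h1 : ∀ e, P e ≤ 1) {E : Finset (Sym2 V)} {Λ : Finset V}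
    {b : V} (hb : b ∉ Λ) : corr P E Λ {b} = 1 := by
  rw [corr]
  have : ∀ S ∈ Λ.powerset, chi {b} S * sw P E S = sw P E S := by
    intro S hS
    rw [Finset.mem_powerset] at hS
    rw [SlM.chi_single, if_neg (fun h => hb (hS h)), one_mul]
  rw [Finset.sum_congr rfl this, div_self (Z_pos h1 E Λ).ne']

theorem main (hSMU : SpecSMU) (h0 : 0 ≤ p) (h1 : p ≤ 1)
    (I O D : Set V) (a : ENNReal) (hIO : Disjoint I O) (hID : Disjoint I D) (hOD : Disjoint O D)
    (ha1 : a ≤ 1) (ha : ∀ b ∈ O, (∃ i ∈ I, G.Adj i b) → a ≤ MM G p O D b) (x : V) (_hx : x ∈ I) :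
    a * MM G p I (O ∪ D) x ≤ MM G p (I ∪ O) D x := by
  refine ENNReal.mul_le_of_forall_lt fun a' ha' b' hb' => ?_
  obtain ⟨Λ0, hΛ0⟩ := lt_iSup_iff.1 hb'
  set Λ : Finset V := Λ0.filter (· ∈ I) with hΛ
  have hΛI : ∀ z ∈ Λ, z ∈ I := fun z hz => (Finset.mem_filter.1 hz).2
  have hxΛ : x ∈ Λ := by
    by_contra hne
    have h2 : mag G p Λ (O ∪ D) x = 0 := if_neg hne
    rw [h2, ENNReal.ofReal_zero] at hΛ0
    exact absurd hΛ0 (not_lt.2 bot_le)
  set EI : Finset (Sym2 V) := edD G Λ (O ∪ D) with hEI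
  set B : Finset V := (EI.biUnion (fun e => e.toFinset)).filter (· ∈ O ∪ D) with hB
  have memB : ∀ z, z ∈ B ↔ (∃ e ∈ EI, z ∈ e) ∧ z ∈ O ∪ D := by
    intro z
    rw [hB, Finset.mem_filter, Finset.mem_biUnion]
    simp only [Sym2.mem_toFinset]
  -- the approximations at the vertices of `B ∩ O`
  have hf : ∀ b : V, ∃ Λb : Finset V, b ∈ B → b ∈ O →
      a' < ENNReal.ofReal (mag G p (Λb.filter (· ∈ O)) D b) := by
    intro b
    by_cases hb : b ∈ B ∧ b ∈ O
    · obtain ⟨⟨e, he, hbe⟩, -⟩ := (memB b).1 hb.1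
      obtain ⟨he1, i, hie, hi⟩ := (mem_ed' G).1 ((mem_edD G).1 he).1
      have hne : b ≠ i := by
        rintro rfl
        exact (Set.disjoint_left.1 hIO) (hΛI _ hi) hb.2
      have hadj : G.Adj i b := by
        have h3 : e = s(i, b) := ((Sym2.mem_and_mem_iff hne.symm).1 ⟨hie, hbe⟩)
        rw [h3, SimpleGraph.mem_edgeSet] at he1
        exact he1
      have h4 := lt_of_lt_of_le ha' (ha b hb.2 ⟨i, hΛI _ hi, hadj⟩)
      obtain ⟨Λb, hΛb⟩ := lt_iSup_iff.1 h4
      exact ⟨Λb, fun _ _ => hΛb⟩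
    · exact ⟨∅, fun h2 h3 => absurd ⟨h2, h3⟩ hb⟩
  choose f hf using hf
  set ΛO : Finset V := (B.biUnion f).filter (· ∈ O) with hΛO
  have hΛOO : ∀ z ∈ ΛO, z ∈ O := fun z hz => (Finset.mem_filter.1 hz).2
  have hsubO : ∀ b ∈ B, (f b).filter (· ∈ O) ⊆ ΛO := by
    intro b hb z hz
    rw [Finset.mem_filter] at hz
    exact Finset.mem_filter.2 ⟨Finset.mem_biUnion.2 ⟨b, hb, hz.1⟩, hz.2⟩
  have hmag : ∀ b ∈ B, b ∈ O → a' < ENNReal.ofReal (mag G p ΛO D b) := by
    intro b hb hbO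
    refine lt_of_lt_of_le (hf b hb hbO) (ENNReal.ofReal_le_ofReal ?_)
    exact mag_mono G h0 h1 (hsubO b hb)
      (fun z hz hzD => (Set.disjoint_left.1 hOD) (hΛOO z hz) hzD) b
  have hBO : ∀ b ∈ B, b ∈ O → b ∈ ΛO := by
    intro b hb hbO
    by_contra hne
    have h2 : mag G p ΛO D b = 0 := if_neg hne
    have h3 := hmag b hb hbO
    rw [h2, ENNReal.ofReal_zero] at h3
    exact absurd h3 (not_lt.2 bot_le)
  have ha'top : a' ≠ ⊤ := (lt_of_lt_of_le ha' (ha1.trans le_top)).ne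
  set a₀ : ℝ := a'.toReal with ha₀
  have ha₀' : ENNReal.ofReal a₀ = a' := ENNReal.ofReal_toReal ha'top
  have ha₀0 : 0 ≤ a₀ := ENNReal.toReal_nonneg
  have ha₀1 : a₀ ≤ 1 := by
    have h2 : ENNReal.ofReal a₀ ≤ 1 := by rw [ha₀']; exact ha'.le.trans ha1
    exact ENNReal.ofReal_le_one.1 h2
  have key := hSMU V (fun _ => p) EI (edD G ΛO D) Λ ΛO B x a₀ (fun _ => h0) (fun _ => h1)
    (fun e he => IsfM.not_isDiag_ed G ((mem_edD G).1 he).1)
    (fun e he => IsfM.not_isDiag_ed G ((mem_edD G).1 he).1)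
    (Finset.disjoint_left.2 fun z hz hz2 => (Set.disjoint_left.1 hIO) (hΛI z hz) (hΛOO z hz2))
    (Finset.disjoint_left.2 fun z hz hz2 => by
      rcases ((memB z).1 hz2).2 with h | h
      · exact (Set.disjoint_left.1 hIO) (hΛI z hz) h
      · exact (Set.disjoint_left.1 hID) (hΛI z hz) h) hxΛ
    (fun e he => by
      refine ⟨?_, fun z hz => ?_⟩
      · obtain ⟨-, i, hie, hi⟩ := (mem_ed' G).1 ((mem_edD G).1 he).1
        exact ⟨i, hie, hi⟩
      · rcases ((mem_edD G).1 he).2 z hz with h | h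
        · exact Or.inl h
        · exact Or.inr ((memB z).2 ⟨⟨e, he, hz⟩, h⟩))
    (fun e he z hz hzΛ => by
      rcases ((mem_edD G).1 he).2 z hz with h | h
      · exact (Set.disjoint_left.1 hIO) (hΛI z hzΛ) (hΛOO z h)
      · exact (Set.disjoint_left.1 hID) (hΛI z hzΛ) h)
    ha₀0
    (fun b hb => by
      rcases ((memB b).1 hb).2 with h | h
      · have h2 := hmag b hb h
        have h3 : mag G p ΛO D b = corr (fun _ => p) (edD G ΛO D) ΛO {b} :=
          if_pos (hBO b hb h)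
        rw [h3, ← ha₀'] at h2
        exact (ENNReal.ofReal_lt_ofReal_iff_of_nonneg ha₀0).1 h2 |>.le
      · rw [corr_out (P := fun _ => p) (fun _ => h1)
          (fun h2 => (Set.disjoint_left.1 hOD) (hΛOO b h2) h)]
        exact ha₀1)
  have hmagI : mag G p Λ (O ∪ D) x = corr (fun _ => p) EI Λ {x} := if_pos hxΛ
  have hfin : corr (fun _ => p) (EI ∪ edD G ΛO D) (Λ ∪ ΛO) {x} ≤ mag G p (Λ ∪ ΛO) D x := by
    have h2 : mag G p (Λ ∪ ΛO) D x = corr (fun _ => p) (edD G (Λ ∪ ΛO) D) (Λ ∪ ΛO) {x} :=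
      if_pos (Finset.mem_union_left _ hxΛ)
    rw [h2]
    refine SlM.corr_mono_edges (P := fun _ => p) (fun _ => h0) (fun _ => h1) ?_ _ _
    intro e he
    rw [Finset.mem_union] at he
    rcases he with he | he
    · rw [mem_edD]
      refine ⟨ed_mono G Finset.subset_union_left ((mem_edD G).1 he).1, fun z hz => ?_⟩
      rcases ((mem_edD G).1 he).2 z hz with h | h | h
      · exact Or.inl (Finset.mem_union_left _ h)
      · exact Or.inl (Finset.mem_union_right _
          (hBO z ((memB z).2 ⟨⟨e, he, hz⟩, Or.inl h⟩) h))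
      · exact Or.inr h
    · rw [mem_edD] at he ⊢
      exact ⟨ed_mono G Finset.subset_union_right he.1,
        fun z hz => (he.2 z hz).imp (fun h => Finset.mem_union_right _ h) id⟩
  have hfil : ∀ inst : DecidablePred (fun z => z ∈ I ∪ O),
      @Finset.filter V (fun z => z ∈ I ∪ O) inst (Λ ∪ ΛO) = Λ ∪ ΛO := by
    intro inst
    rw [Finset.filter_eq_self]
    intro z hz
    rw [Finset.mem_union] at hz
    exact hz.imp (hΛI z) (hΛOO z)
  calc a' * b' ≤ ENNReal.ofReal a₀ * ENNReal.ofReal (mag G p Λ (O ∪ D) x) := by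
        rw [ha₀']
        exact mul_le_mul' le_rfl hΛ0.le
    _ = ENNReal.ofReal (a₀ * corr (fun _ => p) EI Λ {x}) := by
        rw [hmagI, ENNReal.ofReal_mul ha₀0]
    _ ≤ ENNReal.ofReal (mag G p (Λ ∪ ΛO) D x) :=
        ENNReal.ofReal_le_ofReal (key.trans hfin)
    _ ≤ MM G p (I ∪ O) D x := by
        refine le_iSup_of_le (Λ ∪ ΛO) (le_of_eq ?_)
        rw [hfil]

end ISMM

theorem specISM (hSMU : SpecSMU) : SpecISM :=
  fun _ G _ _ h0 h1 I O D a hIO hID hOD ha1 ha x hx =>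
    ISMM.main G hSMU h0 h1 I O D a hIO hID hOD ha1 ha x hx

end NU

end MP8622
end

section
set_option autoImplicit false

open Classical Filter Topology

namespace MP8622

namespace NU

/-- ITR: removing the set `C` from the region -/
theorem specITR (hVRC : SpecVRC) : SpecITR := by
  intro V G _ p h0 h1 R C x y
  rw [TT]
  refine iSup_le fun Λ => ?_
  set L : Finset V := Λ.filter (· ∈ R) with hL
  by_cases hxy : x ∈ L ∧ y ∈ L
  · obtain ⟨hx, hy⟩ := hxy
    set D : Finset V := L.filter (· ∈ C) with hD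
    have hDL : D ⊆ L := Finset.filter_subset _ _
    have hdiag : ∀ e ∈ ed0 G L, ¬ e.IsDiag := fun e he =>
      IsfM.not_isDiag_ed G ((mem_ed0 G).1 he).1
    have hend : ∀ e ∈ ed0 G L, ∀ z ∈ e, z ∈ L := fun e he => ((mem_ed0 G).1 he).2
    have key := hVRC V (fun _ => p) (ed0 G L) L D x y (fun _ => h0) (fun _ => h1) hdiag hend
      hx hy hDL
    have hsub : L \ D ⊆ L := Finset.sdiff_subset
    rw [IsfM.ein_ed0 G hsub] at key
    have hT : ∀ a b : V, a ∈ L → b ∈ L → ENNReal.ofReal (c2 (fun _ => p) (ed0 G L) L a b) ≤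
        TT G p R a b := by
      intro a b ha hb
      have h2 : c2 (fun _ => p) (ed0 G L) L a b = tau G p L a b := (IsfM.tau_eq G ha hb).symm
      rw [h2]
      exact le_iSup (fun Λ : Finset V => ENNReal.ofReal (tau G p (Λ.filter (· ∈ R)) a b)) Λ
    have hc0 : ∀ a b : V, 0 ≤ c2 (fun _ => p) (ed0 G L) L a b := fun a b =>
      corr_nonneg (fun _ => h0) (fun _ => h1) _
    rw [IsfM.tau_eq G hx hy]
    have h3 : ENNReal.ofReal (corr (fun _ => p) (ed0 G L) L (symmDiff {x} {y})) ≤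
        ENNReal.ofReal (if x ∈ D ∨ y ∈ D then 0 else c2 (fun _ => p) (ed0 G (L \ D)) (L \ D) x y) +
        ENNReal.ofReal (∑ z ∈ D, c2 (fun _ => p) (ed0 G L) L x z *
          c2 (fun _ => p) (ed0 G L) L z y) := by
      refine (ENNReal.ofReal_le_ofReal key).trans ?_
      exact ENNReal.ofReal_add_le
    refine h3.trans (add_le_add ?_ ?_)
    · split_ifs with h4
      · simp
      · push Not at h4
        have hx' : x ∈ L \ D := Finset.mem_sdiff.2 ⟨hx, h4.1⟩
        have hy' : y ∈ L \ D := Finset.mem_sdiff.2 ⟨hy, h4.2⟩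
        have h2 : c2 (fun _ => p) (ed0 G (L \ D)) (L \ D) x y = tau G p (L \ D) x y :=
          (IsfM.tau_eq G hx' hy').symm
        rw [h2, TT]
        refine le_iSup_of_le Λ (le_of_eq ?_)
        congr 2
        ext z
        simp only [hD, hL, Finset.mem_sdiff, Finset.mem_filter, Set.mem_sdiff]
        tauto
    · rw [ENNReal.ofReal_sum_of_nonneg fun z _ => mul_nonneg (hc0 x z) (hc0 z y)]
      refine le_trans ?_ (ENNReal.sum_le_tsum D)
      refine Finset.sum_le_sum fun z hz => ?_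
      have hzL : z ∈ L := hDL hz
      have hzC : z ∈ C := (Finset.mem_filter.1 hz).2
      rw [Set.indicator_of_mem hzC, ENNReal.ofReal_mul (hc0 x z)]
      exact mul_le_mul' (hT x z hx hzL) (hT z y hzL hy)
  · have h2 : tau G p L x y = 0 := if_neg hxy
    rw [h2, ENNReal.ofReal_zero]
    exact zero_le

end NU

end MP8622
end

section
set_option autoImplicit false

open Classical Filter Topology

/-!
# MP_8622f1_pr, module SCT (helper28): Schur test

`∑_y TT univ x y exp ((h y - h x)/2) ≤ B₀` (layers, FSU with `c = 3/4`), then the Schur test with the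
weight `w y = exp (h y / 2)`.
-/

namespace MP8622

namespace NU

/-- decomposition into layers -/
theorem sct_layers {V : Type} {h : V → ℝ} {τ : ℝ} (hτ : 0 < τ) (x : V) (f : V → ENNReal) :
    ∑' y, f y ≤ ∑' j : ℕ, sm (lay h (h x + j * τ) (h x + j * τ + τ)) f +
      ∑' j : ℕ, sm (lay h (h x - j * τ - τ) (h x - j * τ)) f := by
  unfold sm
  rw [ENNReal.tsum_comm (f := fun (j : ℕ) (y : V) =>
      (lay h (h x + j * τ) (h x + j * τ + τ)).indicator f y),
    ENNReal.tsum_comm (f := fun (j : ℕ) (y : V) =>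
      (lay h (h x - j * τ - τ) (h x - j * τ)).indicator f y), ← ENNReal.tsum_add]
  refine ENNReal.tsum_le_tsum fun y => ?_
  by_cases hy : h x ≤ h y
  · set j : ℕ := ⌊(h y - h x) / τ⌋₊ with hj
    have h0 : 0 ≤ (h y - h x) / τ := div_nonneg (by linarith) hτ.le
    have h1 : (j : ℝ) ≤ (h y - h x) / τ := Nat.floor_le h0
    have h2 : (h y - h x) / τ < j + 1 := Nat.lt_floor_add_one _
    have h3 : y ∈ lay h (h x + j * τ) (h x + j * τ + τ) := by
      rw [le_div_iff₀ hτ] at h1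
      rw [div_lt_iff₀ hτ] at h2
      constructor
      · show h x + j * τ ≤ h y
        linarith
      · show h y < h x + j * τ + τ
        nlinarith
    refine le_trans ?_ (le_add_of_nonneg_right zero_le)
    refine le_trans (le_of_eq ?_) (ENNReal.le_tsum j)
    rw [Set.indicator_of_mem h3]
  · push Not at hy
    obtain ⟨j, hj⟩ : ∃ j : ℕ, ⌈(h x - h y) / τ⌉₊ = j + 1 := by
      have h0 : 0 < (h x - h y) / τ := div_pos (by linarith) hτ
      have h1 : 0 < ⌈(h x - h y) / τ⌉₊ := Nat.ceil_pos.mpr h0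
      exact ⟨⌈(h x - h y) / τ⌉₊ - 1, by omega⟩
    have h1 : (h x - h y) / τ ≤ (j : ℝ) + 1 := by
      have := Nat.le_ceil ((h x - h y) / τ)
      rw [hj] at this
      push_cast at this
      exact this
    have h2 : (j : ℝ) < (h x - h y) / τ := by
      apply Nat.lt_ceil.mp
      omega
    have h3 : y ∈ lay h (h x - j * τ - τ) (h x - j * τ) := by
      rw [div_le_iff₀ hτ] at h1
      rw [lt_div_iff₀ hτ] at h2
      constructor
      · show h x - j * τ - τ ≤ h y
        nlinarith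
      · show h y < h x - j * τ
        linarith
    refine le_trans ?_ (le_add_of_nonneg_left zero_le)
    refine le_trans (le_of_eq ?_) (ENNReal.le_tsum j)
    rw [Set.indicator_of_mem h3]

theorem sct_sm {V : Type} {C : Set V} {f g : V → ENNReal} {c : ENNReal}
    (h : ∀ y ∈ C, g y ≤ c) : sm C (fun y => f y * g y) ≤ sm C f * c := by
  unfold sm
  rw [← ENNReal.tsum_mul_right]
  refine ENNReal.tsum_le_tsum fun y => ?_
  by_cases hy : y ∈ C
  · rw [Set.indicator_of_mem hy, Set.indicator_of_mem hy]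
    exact mul_le_mul_right (h y hy) _
  · rw [Set.indicator_of_notMem hy, Set.indicator_of_notMem hy]
    simp

theorem sct_geom {C r : ℝ} (hC : 0 ≤ C) (hr0 : 0 ≤ r) (hr1 : r < 1) :
    ∑' j : ℕ, ENNReal.ofReal (C * r ^ j) = ENNReal.ofReal (C * (1 - r)⁻¹) := by
  rw [← ENNReal.ofReal_tsum_of_nonneg (fun n => mul_nonneg hC (pow_nonneg hr0 n))
    ((summable_geometric_of_lt_one hr0 hr1).mul_left C), tsum_mul_left,
    tsum_geometric_of_lt_one hr0 hr1]

/-- the weighted row sums -/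
theorem sct_row {V : Type} {G : SimpleGraph V} [G.LocallyFinite] {h : V → ℝ} {τ p M : ℝ}
    (hτ : 0 < τ) (hM : 0 ≤ M)
    (h1 : ∀ (x : V) (T : ℝ), h x ≤ T → sm (lay h T (T + τ)) (fun z => TT G p Set.univ x z) ≤
        ENNReal.ofReal (M * Real.exp (-(3 / 4) * (T - h x))))
    (h2 : ∀ (x : V) (T : ℝ), T ≤ h x → sm (lay h (T - τ) T) (fun z => TT G p Set.univ x z) ≤
        ENNReal.ofReal (M * Real.exp ((1 - 3 / 4) * (h x - T)))) (x : V) :
    ∑' y, TT G p Set.univ x y * ENNReal.ofReal (Real.exp ((h y - h x) / 2)) ≤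
      ENNReal.ofReal (M * (Real.exp (τ / 2) + 1) * (1 - Real.exp (-(τ / 4)))⁻¹) := by
  set r : ℝ := Real.exp (-(τ / 4)) with hr
  have hr0 : 0 ≤ r := (Real.exp_pos _).le
  have hr1 : r < 1 := by
    rw [hr, Real.exp_lt_one_iff]
    linarith
  have hrpow : ∀ j : ℕ, r ^ j = Real.exp (-(j * τ / 4)) := by
    intro j
    rw [hr, ← Real.exp_nat_mul]
    congr 1
    ring
  refine le_trans (sct_layers (h := h) hτ x _) ?_
  have hA : ∀ j : ℕ, sm (lay h (h x + j * τ) (h x + j * τ + τ))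
      (fun y => TT G p Set.univ x y * ENNReal.ofReal (Real.exp ((h y - h x) / 2))) ≤
      ENNReal.ofReal (M * Real.exp (τ / 2) * r ^ j) := by
    intro j
    have hj : 0 ≤ (j : ℝ) * τ := by positivity
    refine le_trans (sct_sm (c := ENNReal.ofReal (Real.exp ((j * τ + τ) / 2))) ?_) ?_
    · intro y hy
      apply ENNReal.ofReal_le_ofReal
      apply Real.exp_le_exp.mpr
      have := hy.2
      linarith
    · refine le_trans (mul_le_mul_left (h1 x (h x + j * τ) (by linarith)) _) ?_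
      rw [← ENNReal.ofReal_mul (mul_nonneg hM (Real.exp_pos _).le)]
      apply ENNReal.ofReal_le_ofReal
      rw [hrpow j, mul_assoc, mul_assoc, ← Real.exp_add, ← Real.exp_add]
      refine le_of_eq ?_
      congr 2
      ring
  have hB : ∀ j : ℕ, sm (lay h (h x - j * τ - τ) (h x - j * τ))
      (fun y => TT G p Set.univ x y * ENNReal.ofReal (Real.exp ((h y - h x) / 2))) ≤
      ENNReal.ofReal (M * r ^ j) := by
    intro j
    have hj : 0 ≤ (j : ℝ) * τ := by positivity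
    refine le_trans (sct_sm (c := ENNReal.ofReal (Real.exp (-(j * τ / 2)))) ?_) ?_
    · intro y hy
      apply ENNReal.ofReal_le_ofReal
      apply Real.exp_le_exp.mpr
      have := hy.2
      linarith
    · refine le_trans (mul_le_mul_left (h2 x (h x - j * τ) (by linarith)) _) ?_
      rw [← ENNReal.ofReal_mul (mul_nonneg hM (Real.exp_pos _).le)]
      apply ENNReal.ofReal_le_ofReal
      rw [hrpow j, mul_assoc, ← Real.exp_add]
      refine le_of_eq ?_
      congr 2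
      ring
  refine le_trans (add_le_add (ENNReal.tsum_le_tsum hA) (ENNReal.tsum_le_tsum hB)) ?_
  have hMe : 0 ≤ M * Real.exp (τ / 2) := mul_nonneg hM (Real.exp_pos _).le
  have hinv : 0 ≤ (1 - r)⁻¹ := inv_nonneg.mpr (by linarith)
  rw [sct_geom hMe hr0 hr1, sct_geom hM hr0 hr1,
    ← ENNReal.ofReal_add (mul_nonneg hMe hinv) (mul_nonneg hM hinv)]
  apply ENNReal.ofReal_le_ofReal
  refine le_of_eq ?_
  ring

theorem sct_tau_symm {V : Type} (G : SimpleGraph V) [G.LocallyFinite] (p : ℝ) (Λ : Finset V)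
    (x y : V) : tau G p Λ x y = tau G p Λ y x := by
  unfold tau
  rw [symmDiff_comm]
  simp only [and_comm]

/-- Schur test -/
theorem sct_schur {V : Type} {k : V → V → ℝ} {w : V → ℝ} {B : ℝ} (hk : ∀ x y, 0 ≤ k x y)
    (hsym : ∀ x y, k x y = k y x) (hw : ∀ x, 0 < w x) (hB : 0 ≤ B)
    (hrow : ∀ (W : Finset V) (x : V), ∑ y ∈ W, k x y * w y ≤ B * w x) :
    AHP.OB 2 k (B ^ 2) := by
  intro U W v hv
  have h2 : ∀ a : ℝ, a ^ (2 : ℝ) = a ^ 2 := fun a => by norm_cast
  simp only [h2]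
  have hg : ∀ x y : V, 0 ≤ k x y * v y ^ 2 / w y := fun x y =>
    div_nonneg (mul_nonneg (hk x y) (sq_nonneg _)) (hw y).le
  have h3 : ∀ x ∈ U, (∑ y ∈ W, k x y * v y) ^ 2 ≤
      B * w x * ∑ y ∈ W, k x y * v y ^ 2 / w y := by
    intro x _
    refine le_trans (Finset.sum_sq_le_sum_mul_sum_of_sq_le_mul W
      (f := fun y => k x y * w y) (g := fun y => k x y * v y ^ 2 / w y)
      (fun y _ => mul_nonneg (hk x y) (hw y).le) (fun y _ => hg x y) ?_) ?_
    · intro y _
      have := (hw y).ne'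
      refine le_of_eq ?_
      field_simp
    · exact mul_le_mul_of_nonneg_right (hrow W x) (Finset.sum_nonneg fun y _ => hg x y)
  refine le_trans (Finset.sum_le_sum h3) ?_
  have h4 : ∑ x ∈ U, B * w x * ∑ y ∈ W, k x y * v y ^ 2 / w y =
      ∑ y ∈ W, B * (v y ^ 2 / w y) * ∑ x ∈ U, k y x * w x := by
    simp only [Finset.mul_sum]
    rw [Finset.sum_comm]
    refine Finset.sum_congr rfl fun y _ => Finset.sum_congr rfl fun x _ => ?_
    rw [hsym y x]
    ring
  rw [h4, Finset.mul_sum]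
  refine Finset.sum_le_sum fun y _ => ?_
  have h5 : 0 ≤ B * (v y ^ 2 / w y) := mul_nonneg hB (div_nonneg (sq_nonneg _) (hw y).le)
  refine le_trans (mul_le_mul_of_nonneg_left (hrow U y) h5) (le_of_eq ?_)
  have := (hw y).ne'
  field_simp

/-- SCT -/
theorem specSCT (hFSU : SpecFSU) (hITA : SpecITA) : SpecSCT := by
  intro Γ V _ _ G _ h τ d p₀ hC A hA
  obtain ⟨K, hK1, hK⟩ := hFSU Γ V G h τ d p₀ hC (3 / 4) (by norm_num)
  have hτ : 0 < τ := hC.ht.pos
  set M : ℝ := K * A ^ 2 with hM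
  have hM0 : 0 < M := by positivity
  set B₀ : ℝ := M * (Real.exp (τ / 2) + 1) * (1 - Real.exp (-(τ / 4)))⁻¹ with hB₀
  have hr1 : Real.exp (-(τ / 4)) < 1 := by
    rw [Real.exp_lt_one_iff]
    linarith
  have hB0 : 0 < B₀ := by
    have h1 : 0 < (1 - Real.exp (-(τ / 4)))⁻¹ := inv_pos.mpr (by linarith)
    have h2 := Real.exp_pos (τ / 2)
    positivity
  refine ⟨B₀ ^ 2, by positivity, ?_⟩
  intro p hp hp1 hE Λ
  have hp0 : 0 ≤ p := le_trans hC.ppos.le hp
  have hTA := hITA V G p hp0 hp1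
  obtain ⟨h1, h2⟩ := hK p hp hp1 A hA hE
  have hrow := sct_row (G := G) (p := p) hτ hM0.le h1 h2
  refine sct_schur (w := fun y => Real.exp (h y / 2)) (fun x y => IsfM.tau_nonneg G hp0 hp1 Λ x y)
    (sct_tau_symm G p Λ) (fun x => Real.exp_pos _) hB0.le ?_
  intro W x
  have h3 : ∑ y ∈ W, ENNReal.ofReal (tau G p Λ x y * Real.exp ((h y - h x) / 2)) ≤
      ENNReal.ofReal B₀ := by
    refine le_trans ?_ (hrow x)
    refine le_trans (Finset.sum_le_sum fun y _ => ?_) (ENNReal.sum_le_tsum W)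
    rw [ENNReal.ofReal_mul (IsfM.tau_nonneg G hp0 hp1 Λ x y)]
    exact mul_le_mul_left (hTA.tau_le Λ x y) _
  rw [← ENNReal.ofReal_sum_of_nonneg (fun y _ => mul_nonneg (IsfM.tau_nonneg G hp0 hp1 Λ x y)
    (Real.exp_pos _).le), ENNReal.ofReal_le_ofReal_iff hB0.le] at h3
  have h4 : ∑ y ∈ W, tau G p Λ x y * Real.exp (h y / 2) =
      (∑ y ∈ W, tau G p Λ x y * Real.exp ((h y - h x) / 2)) * Real.exp (h x / 2) := by
    rw [Finset.sum_mul]
    refine Finset.sum_congr rfl fun y _ => ?_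
    rw [mul_assoc, ← Real.exp_add]
    congr 2
    ring
  rw [h4]
  exact mul_le_mul_of_nonneg_right h3 (Real.exp_pos _).le

end NU

end MP8622
end

section
set_option autoImplicit false

open Classical Filter Topology

/-!
# MP_8622f1_pr, module UNI (helper28): uniform operator bound

BOO gives the uniform bound for `ET` on `[p', pc)`, SCT the operator bound; below `p'` the two point
functions are smaller.
-/

namespace MP8622

namespace NU

theorem uni_ob_mono {V : Type} {k k' : V → V → ℝ} {B : ℝ} (hk : ∀ x y, 0 ≤ k x y)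
    (hkk : ∀ x y, k x y ≤ k' x y) (h : AHP.OB 2 k' B) : AHP.OB 2 k B := by
  intro U W v hv
  refine le_trans (Finset.sum_le_sum fun x _ => ?_) (h U W v hv)
  refine Real.rpow_le_rpow (Finset.sum_nonneg fun y _ => mul_nonneg (hk x y) (hv y)) ?_
    (by norm_num)
  exact Finset.sum_le_sum fun y _ => mul_le_mul_of_nonneg_right (hkk x y) (hv y)

theorem uni_chi {V : Type} {G : SimpleGraph V} [G.LocallyFinite] {p B : ℝ} (hp0 : 0 ≤ p)
    (hp1 : p ≤ 1) (hB : ∀ (Λ : Finset V) (x : V), ∑ z ∈ Λ, tau G p Λ x z ≤ B) : Chi G p B := by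
  intro x
  rw [ENNReal.tsum_eq_iSup_sum]
  refine iSup_le fun S => ?_
  have h1 : ∀ y : V, TT G p Set.univ x y = ⨆ Λ : Finset V, ENNReal.ofReal (tau G p Λ x y) := by
    intro y
    unfold TT
    refine iSup_congr fun Λ => ?_
    refine congrArg (fun S => ENNReal.ofReal (tau G p S x y)) ?_
    ext z
    simp
  simp only [h1]
  rw [ENNReal.finsetSum_iSup_of_monotone (f := fun y (Λ : Finset V) =>
    ENNReal.ofReal (tau G p Λ x y)) (fun y Λ Λ' hΛ =>
      ENNReal.ofReal_le_ofReal (IsfM.tau_mono G hp0 le_rfl hp1 hΛ x y))]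
  refine iSup_le fun Λ => ?_
  rw [← ENNReal.ofReal_sum_of_nonneg (fun y _ => IsfM.tau_nonneg G hp0 hp1 Λ x y)]
  apply ENNReal.ofReal_le_ofReal
  refine le_trans ?_ (hB Λ x)
  have h2 : ∑ y ∈ S, tau G p Λ x y = ∑ y ∈ S ∩ Λ, tau G p Λ x y := by
    symm
    refine Finset.sum_subset Finset.inter_subset_left fun y hyS hy => ?_
    unfold tau
    rw [if_neg]
    intro h3
    exact hy (Finset.mem_inter.mpr ⟨hyS, h3.2⟩)
  rw [h2]
  exact Finset.sum_le_sum_of_subset_of_nonneg Finset.inter_subset_right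
    (fun y _ _ => IsfM.tau_nonneg G hp0 hp1 Λ x y)

/-- UNI -/
theorem specUNI (hBOO : SpecBOO) (hSCT : SpecSCT) : SpecUNI := by
  intro Γ V _ _ G _ h τ hT hconn pc hpc0 hpc1 hB
  obtain ⟨x₀⟩ := hconn.nonempty
  set d : ℕ := (G.neighborFinset x₀).card with hd
  have hdeg : ∀ x : V, (G.neighborFinset x).card ≤ d := by
    intro x
    obtain ⟨γ, hγ⟩ := hT.tra x₀ x
    have hsub : G.neighborFinset x ⊆ (G.neighborFinset x₀).image (fun y => γ • y) := by
      intro y hy
      rw [SimpleGraph.mem_neighborFinset] at hy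
      rw [Finset.mem_image]
      refine ⟨γ⁻¹ • y, ?_, smul_inv_smul γ y⟩
      rw [SimpleGraph.mem_neighborFinset, ← hT.aut γ, smul_inv_smul, hγ]
      exact hy
    exact le_trans (Finset.card_le_card hsub) Finset.card_image_le
  have hd1 : 1 ≤ d := by
    obtain ⟨y, hy, _⟩ := hT.up x₀
    exact Finset.card_pos.mpr ⟨y, (SimpleGraph.mem_neighborFinset G x₀ y).mpr hy⟩
  have hC : Cx Γ G h τ d (pc / 2) :=
    { ht := hT, conn := hconn, deg := hdeg, dpos := hd1, ppos := by linarith, plt := by linarith }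
  obtain ⟨p', A, hp'0, hp'1, hA, hE⟩ := hBOO Γ V G h τ d (pc / 2) hC pc (by linarith) hpc1 (by
    intro p hp hp1
    obtain ⟨B, hB'⟩ := hB p (by linarith) hp1
    refine ⟨max B 0, le_max_right _ _, ?_⟩
    exact uni_chi (by linarith) (by linarith) (fun Λ x => le_trans (hB' Λ x) (le_max_left _ _)))
  obtain ⟨B, hB0, hOB⟩ := hSCT Γ V G h τ d (pc / 2) hC A hA
  refine ⟨B, hB0, ?_⟩
  intro p hp0 hp1 Λ
  by_cases hpp : p' ≤ p
  · exact hOB p (by linarith) (by linarith) (hE p hpp hp1) Λ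
  · push Not at hpp
    refine uni_ob_mono (fun x y => IsfM.tau_nonneg G hp0 (by linarith) Λ x y) (fun x y => ?_)
      (hOB p' hp'0 (by linarith) (hE p' le_rfl hp'1) Λ)
    exact IsfM.tau_mono G hp0 hpp.le (by linarith) (Finset.Subset.refl Λ) x y

end NU

end MP8622
end
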