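import Pool.Agent.Lib.MP_8622f1_pr.NU.SpecI
import Pool.Agent.Lib.MP_8622f1_pr.NU.FLD
import Pool.Agent.Lib.MP_8622f1_pr.NU.SpecF

section
set_option autoImplicit false

open Classical Filter Topology

/-!
# MP_8622f1_pr, nonunimodular transitive graphs, module IFA (helper83)
-/

namespace MP8622

namespace NU

namespace IFAM

variable {V : Type}

theorem pk_nonneg {p k : ℝ} (hp : 0 ≤ p) (hk : 0 ≤ k) (R : Set V) (e : Sym2 V) :
    0 ≤ Pk p k R e := by
  unfold Pk
  split_ifs
  · exact hp
  · exact hk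

theorem pk_le_one {p k : ℝ} (hp : p ≤ 1) (hk : k ≤ 1) (R : Set V) (e : Sym2 V) :
    Pk p k R e ≤ 1 := by
  unfold Pk
  split_ifs
  · exact hp
  · exact hk

theorem pk_mono {p k k' : ℝ} (hkk : k ≤ k') (R : Set V) (e : Sym2 V) :
    Pk p k R e ≤ Pk p k' R e := by
  unfold Pk
  split_ifs
  · exact le_rfl
  · exact hkk

theorem pk_le {p k : ℝ} (hk : k ≤ p) (R : Set V) (e : Sym2 V) : Pk p k R e ≤ p := by
  unfold Pk
  split_ifs
  · exact le_rfl
  · exact hk

variable (G : SimpleGraph V) [G.LocallyFinite]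

theorem sub_edD {Λ : Finset V} {L D : Set V} {u : V → V}
    (hu : ∀ y ∈ L, G.Adj y (u y) ∧ u y ∈ D) :
    ed0 G Λ ∪ fan (Λ.filter (· ∈ L)) u ⊆ edD G Λ D := by
  intro e he
  rw [edD, Finset.mem_filter]
  rcases Finset.mem_union.1 he with h | h
  · rw [mem_ed0] at h
    exact ⟨h.1, fun z hz => Or.inl (h.2 z hz)⟩
  · rw [fan, Finset.mem_image] at h
    obtain ⟨y, hy, rfl⟩ := h
    rw [Finset.mem_filter] at hy
    obtain ⟨h1, h2⟩ := hu y hy.2
    refine ⟨(mem_ed_mk G).2 ⟨h1, Or.inl hy.1⟩, fun z hz => ?_⟩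
    rcases Sym2.mem_iff.1 hz with rfl | rfl
    · exact Or.inl hy.1
    · exact Or.inr h2

end IFAM

open IFAM

theorem specIFA : SpecIFA := by
  intro V G _ p hp0 hp1
  constructor
  · intro k k' R L u x hk hkk hk1
    refine iSup_mono fun Λ => ENNReal.ofReal_le_ofReal ?_
    unfold fld
    split_ifs
    · exact corr_mono (pk_nonneg hp0 hk R) (pk_mono hkk R) (pk_le_one hp1 hk1 R)
        (Finset.Subset.refl _) _
    · exact le_rfl
  · intro k R L D u x hk hkp _ hu
    refine iSup_mono fun Λ => ENNReal.ofReal_le_ofReal ?_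
    unfold fld mag
    split_ifs
    · exact (corr_mono (pk_nonneg hp0 hk R) (pk_le hkp R) (fun _ => hp1)
        (Finset.Subset.refl _) _).trans
        (SlM.corr_mono_edges (fun _ => hp0) (fun _ => hp1) (sub_edD G hu) _ _)
    · exact le_rfl

end NU

end MP8622
end

section
set_option autoImplicit false

open Classical Filter Topology

/-!
MIX: the system is a mixture of the systems with one edge removed and with one edge contracted.
-/

namespace MP8622

namespace NU

namespace MIXM

variable {V : Type}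

theorem upd_self (P : Sym2 V → ℝ) (e : Sym2 V) (a : ℝ) : upd P e a e = a := by
  unfold upd; rw [if_pos rfl]

theorem upd_ne (P : Sym2 V → ℝ) {e f : Sym2 V} (a : ℝ) (h : f ≠ e) : upd P e a f = P f := by
  unfold upd; rw [if_neg h]

/-- the value at the edge does not matter when the edge is removed -/
theorem corr_upd_erase (P : Sym2 V → ℝ) (E : Finset (Sym2 V)) (e : Sym2 V) (a : ℝ)
    (Λ A : Finset V) : corr (upd P e a) (E.erase e) Λ A = corr P (E.erase e) Λ A :=
  corr_congr (Finset.Subset.refl _) (fun _ hf => upd_ne P a (Finset.ne_of_mem_erase hf))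
    (fun _ hf hnf => absurd hf hnf) A

end MIXM

theorem specMIX : SpecMIX := by
  intro V P E Λ x v h0 h1 hE q hq
  set e := s(x, v) with he
  have hne : e ∉ E.erase e := Finset.notMem_erase _ _
  have hins : insert e (E.erase e) = E := Finset.insert_erase hE
  set c := c2 P (E.erase e) Λ x v with hc
  have hc' : corr P (E.erase e) Λ (symmDiff {x} {v}) = c := rfl
  have hc0 : 0 ≤ c := corr_nonneg h0 h1 _
  have hc1 : c ≤ 1 := corr_le_one h1 _
  set t := th (P e) with ht
  have h2 : (0 : ℝ) < 2 - P e := by linarith [h1 e]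
  have ht0 : 0 ≤ t := div_nonneg (h0 e) h2.le
  have ht1 : t ≤ 1 := by
    rw [ht, th, div_le_one h2]
    linarith [h1 e]
  have htc : 0 ≤ t * c := mul_nonneg ht0 hc0
  have hden : (0 : ℝ) < 1 + t * c := by linarith
  have hden2 : (0 : ℝ) < 1 + c := by linarith
  refine ⟨?_, ?_, ?_⟩
  · rw [hq]
    exact div_nonneg (mul_nonneg ht0 hden2.le) hden.le
  · rw [hq, div_le_one hden]
    nlinarith
  · intro A
    constructor
    · have h1' : ∀ f, upd P e 1 f ≤ 1 := by
        intro f
        by_cases hf : f = e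
        · rw [hf, MIXM.upd_self]
        · rw [MIXM.upd_ne P 1 hf]; exact h1 f
      have e1 : corr P E Λ A = (corr P (E.erase e) Λ A +
          t * corr P (E.erase e) Λ (symmDiff A (symmDiff {x} {v}))) / (1 + t * c) := by
        have := SlM.corr_insert h1 hne Λ A
        rw [← he, hins, hc'] at this
        exact this
      have e2 : corr (upd P e 1) E Λ A = (corr P (E.erase e) Λ A +
          corr P (E.erase e) Λ (symmDiff A (symmDiff {x} {v}))) / (1 + c) := by
        have := SlM.corr_insert h1' hne Λ A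
        rw [← he, hins, MIXM.corr_upd_erase, MIXM.corr_upd_erase, MIXM.corr_upd_erase,
          MIXM.upd_self, hc'] at this
        have h3 : (1 : ℝ) / (2 - 1) = 1 := by norm_num
        rw [h3, one_mul, one_mul] at this
        exact this
      rw [e1, e2, hq]
      generalize corr P (E.erase e) Λ A = a
      generalize corr P (E.erase e) Λ (symmDiff A (symmDiff {x} {v})) = b
      field_simp
      ring
    · symm
      refine corr_congr (Finset.erase_subset _ _)
        (fun f hf => (MIXM.upd_ne P 0 (Finset.ne_of_mem_erase hf)).symm) ?_ A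
      intro f hf hnf
      right
      have : f = e := by
        by_contra hfe
        exact hnf (Finset.mem_erase.2 ⟨hfe, hf⟩)
      rw [this, MIXM.upd_self]

end NU

end MP8622
end

section
set_option autoImplicit false

open Classical Filter Topology

/-!
MP_8622f1_pr, block NU: upper bound for the magnetisation with weak fields.
-/

namespace MP8622

namespace NU

theorem specMUB : SpecMUB := by
  intro V P E Λ L u k x h0 h1 hdiag hE hL hu hx
  have hfan : ∀ e ∈ fan L u, ∃ v ∈ L, e = s(v, u v) := by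
    intro e he
    unfold fan at he
    rw [Finset.mem_image] at he
    obtain ⟨v, hv, rfl⟩ := he
    exact ⟨v, hv, rfl⟩
  have hdiag' : ∀ e ∈ E ∪ fan L u, ¬ e.IsDiag := by
    intro e he
    rcases Finset.mem_union.1 he with he | he
    · exact hdiag e he
    · obtain ⟨v, hv, rfl⟩ := hfan e he
      rw [Sym2.mk_isDiag_iff]
      intro h
      exact (hu v hv).1 (h ▸ hL hv)
  have hW : ∀ e ∈ E ∪ fan L u, ∀ z ∈ e, z ∈ Λ ∪ L.image u := by
    intro e he z hz
    rcases Finset.mem_union.1 he with he | he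
    · exact Finset.mem_union_left _ (hE e he z hz)
    · obtain ⟨v, hv, rfl⟩ := hfan e he
      rcases Sym2.mem_iff.1 hz with rfl | rfl
      · exact Finset.mem_union_left _ (hL hv)
      · exact Finset.mem_union_right _ (Finset.mem_image_of_mem u hv)
  have h2 := specSL V P (E ∪ fan L u) Λ Λ ∅ x h0 h1 hdiag' (Finset.Subset.refl Λ) hx
    (Finset.disjoint_empty_left _) (Λ ∪ L.image u) hW
  have h3 : symmDiff ({x} : Finset V) ∅ = {x} := by
    rw [← Finset.bot_eq_empty, symmDiff_bot]
  rw [h3] at h2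
  refine h2.trans ?_
  have hein : ein (E ∪ fan L u) Λ = E := by
    ext e
    rw [SlM.mem_ein, Finset.mem_union]
    constructor
    · rintro ⟨he | he, h4⟩
      · exact he
      · obtain ⟨v, hv, rfl⟩ := hfan e he
        exact absurd (h4 _ (Sym2.mem_mk_right _ _)) (hu v hv).1
    · intro he
      exact ⟨Or.inl he, hE e he⟩
  have hth : ∀ v ∈ L, 0 ≤ th k * c2 P E Λ x v := by
    intro v hv
    refine mul_nonneg ?_ (corr_nonneg h0 h1 _)
    unfold th
    rw [← (hu v hv).2]
    exact SlM.t_nonneg h0 h1 _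
  have hsum : th k * ∑ v ∈ L, c2 P E Λ x v = ∑ a ∈ Λ, if a ∈ L then th k * c2 P E Λ x a
      else 0 := by
    rw [Finset.mul_sum, ← Finset.sum_filter]
    congr 1
    ext a
    rw [Finset.mem_filter]
    exact ⟨fun h => ⟨hL h, h⟩, fun h => h.2⟩
  rw [hsum]
  refine Finset.sum_le_sum fun a ha => ?_
  -- the only edge from `a` to the outside
  have h5 : ∀ w ∈ (Λ ∪ L.image u) \ Λ, (if s(a, w) ∈ E ∪ fan L u then
      P s(a, w) / (2 - P s(a, w)) * corr P (ein (E ∪ fan L u) Λ) Λ (symmDiff {x} {a}) *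
        corr P (E ∪ fan L u) Λ (symmDiff {w} ∅) else 0) ≤
      if w = u a then (if a ∈ L then th k * c2 P E Λ x a else 0) else 0 := by
    intro w hw
    rw [Finset.mem_sdiff] at hw
    split_ifs with h6 h7 h8 h8
    · rw [h7, (hu a h8).2, hein]
      have h9 : 0 ≤ k / (2 - k) * corr P E Λ (symmDiff {x} {a}) := hth a h8
      calc k / (2 - k) * corr P E Λ (symmDiff {x} {a}) *
            corr P (E ∪ fan L u) Λ (symmDiff {u a} ∅)
          ≤ k / (2 - k) * corr P E Λ (symmDiff {x} {a}) * 1 :=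
            mul_le_mul_of_nonneg_left (corr_le_one h1 _) h9
        _ = _ := mul_one _
    · exfalso
      rcases Finset.mem_union.1 h6 with he | he
      · exact hw.2 (hE _ he w (Sym2.mem_mk_right _ _))
      · obtain ⟨v, hv, hev⟩ := hfan _ he
        rw [Sym2.eq_iff] at hev
        rcases hev with ⟨rfl, _⟩ | ⟨_, rfl⟩
        · exact h8 hv
        · exact hw.2 (hL hv)
    · exfalso
      rcases Finset.mem_union.1 h6 with he | he
      · exact hw.2 (hE _ he w (Sym2.mem_mk_right _ _))
      · obtain ⟨v, hv, hev⟩ := hfan _ he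
        rw [Sym2.eq_iff] at hev
        rcases hev with ⟨rfl, hh⟩ | ⟨_, rfl⟩
        · exact h7 hh
        · exact hw.2 (hL hv)
    · exact hth a (by assumption)
    · exact le_rfl
    · exact le_rfl
  refine (Finset.sum_le_sum h5).trans ?_
  by_cases haL : a ∈ L
  · rw [if_pos haL]
    calc ∑ w ∈ (Λ ∪ L.image u) \ Λ, (if w = u a then th k * c2 P E Λ x a else 0)
        ≤ th k * c2 P E Λ x a := by
          rw [Finset.sum_ite_eq']
          split_ifs
          · exact le_rfl
          · exact hth a haL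
      _ = _ := rfl
  · rw [if_neg haL]
    simp

end NU

end MP8622
end

section
set_option autoImplicit false

open Classical Filter Topology

/-!
MP_8622f1_pr, block NU: removing a set of vertices, two point function of a zero field system.
-/

namespace MP8622

namespace NU

namespace VRCM

variable {V : Type}

theorem c2_nonneg {P : Sym2 V → ℝ} (h0 : ∀ e, 0 ≤ P e) (h1 : ∀ e, P e ≤ 1)
    (E : Finset (Sym2 V)) (Λ : Finset V) (x y : V) : 0 ≤ c2 P E Λ x y :=
  corr_nonneg h0 h1 _

theorem c2_self {P : Sym2 V → ℝ} (h1 : ∀ e, P e ≤ 1)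
    (E : Finset (Sym2 V)) (Λ : Finset V) (x : V) : c2 P E Λ x x = 1 := by
  unfold c2
  rw [SlM.symmDiff_self_empty, corr_empty h1]

theorem corr_pair (P : Sym2 V → ℝ) (E : Finset (Sym2 V)) (Λ : Finset V) (x y : V)
    (hy : y ∉ Λ) : corr P E Λ (symmDiff {x} {y}) = corr P E Λ {x} := by
  unfold corr
  congr 1
  refine Finset.sum_congr rfl fun S hS => ?_
  rw [chi_symmDiff_left, SlM.chi_single y, if_neg fun h => hy (Finset.mem_powerset.1 hS h),
    mul_one]

theorem even_pair {x y : V} (hxy : x ≠ y) : Even (symmDiff ({x} : Finset V) {y}).card := by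
  have h3 : symmDiff ({x} : Finset V) {y} = {x, y} := by
    ext z
    simp only [Finset.mem_symmDiff, Finset.mem_singleton, Finset.mem_insert]
    constructor
    · rintro (h | h)
      · exact Or.inl h.1
      · exact Or.inr h.1
    · rintro (rfl | rfl)
      · exact Or.inl ⟨rfl, hxy⟩
      · exact Or.inr ⟨rfl, fun h => hxy h.symm⟩
  rw [h3, Finset.card_pair hxy]
  exact ⟨1, rfl⟩

/-- two point function with one of the spins fixed -/
theorem c2_plus (hFLP : SpecFLP) (P : Sym2 V → ℝ) (E : Finset (Sym2 V)) (Λ : Finset V) (x y : V)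
    (hE : ∀ e ∈ E, ∀ z ∈ e, z ∈ Λ) (hx : x ∈ Λ) (hy : y ∈ Λ) (hxy : x ≠ y) :
    c2 P E Λ x y = corr P E (Λ.erase y) {x} := by
  unfold c2
  rw [hFLP V P E Λ _ y hE (SlM.pair_subset hx hy) (even_pair hxy) hy,
    corr_pair P E (Λ.erase y) x y (Finset.notMem_erase y Λ)]

end VRCM

open VRCM in
theorem specVRC (hMRC : SpecMRC) (hFLP : SpecFLP) : SpecVRC := by
  intro V P E Λ C x y h0 h1 hdiag hE hx hy hC
  have hterm : ∀ z ∈ C, 0 ≤ c2 P E Λ x z * c2 P E Λ z y := fun z _ =>
    mul_nonneg (c2_nonneg h0 h1 _ _ _ _) (c2_nonneg h0 h1 _ _ _ _)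
  by_cases hxC : x ∈ C
  · rw [if_pos (Or.inl hxC), zero_add]
    have h2 := Finset.single_le_sum (f := fun z => c2 P E Λ x z * c2 P E Λ z y) hterm hxC
    simp only [c2_self h1, one_mul] at h2
    exact h2
  by_cases hyC : y ∈ C
  · rw [if_pos (Or.inr hyC), zero_add]
    have h2 := Finset.single_le_sum (f := fun z => c2 P E Λ x z * c2 P E Λ z y) hterm hyC
    simp only [c2_self h1, mul_one] at h2
    exact h2
  rw [if_neg (by tauto)]
  by_cases hxy : x = y
  · subst hxy
    rw [c2_self h1, c2_self h1]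
    linarith [Finset.sum_nonneg hterm]
  · have hxe : x ∈ Λ.erase y := Finset.mem_erase.2 ⟨hxy, hx⟩
    have hCe : C ⊆ Λ.erase y := by
      intro w hw
      rw [Finset.mem_erase]
      refine ⟨?_, hC hw⟩
      rintro rfl
      exact hyC hw
    have h2 := hMRC V P E (Λ.erase y) C x h0 h1 hdiag hxe hCe
    rw [if_neg hxC] at h2
    rw [c2_plus hFLP P E Λ x y hE hx hy hxy]
    have h3 : E.filter (fun e => ∀ z ∈ e, z ∉ C) = ein E (Λ \ C) := by
      ext e
      rw [Finset.mem_filter, SlM.mem_ein]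
      constructor
      · rintro ⟨a, b⟩
        exact ⟨a, fun z hz => Finset.mem_sdiff.2 ⟨hE e a z hz, b z hz⟩⟩
      · rintro ⟨a, b⟩
        exact ⟨a, fun z hz => (Finset.mem_sdiff.1 (b z hz)).2⟩
    have h4 : (Λ.erase y) \ C = (Λ \ C).erase y := by
      ext w
      simp only [Finset.mem_sdiff, Finset.mem_erase]
      tauto
    have h5 : corr P (E.filter (fun e => ∀ z ∈ e, z ∉ C)) ((Λ.erase y) \ C) {x} =
        c2 P (ein E (Λ \ C)) (Λ \ C) x y := by
      rw [h3, h4, c2_plus hFLP P (ein E (Λ \ C)) (Λ \ C) x y (fun e he => (SlM.mem_ein.1 he).2)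
        (Finset.mem_sdiff.2 ⟨hx, hxC⟩) (Finset.mem_sdiff.2 ⟨hy, hyC⟩) hxy]
    rw [h5] at h2
    refine h2.trans (add_le_add le_rfl (Finset.sum_le_sum fun z hz => ?_))
    have hzΛ : z ∈ Λ := hC hz
    have hzy : z ≠ y := fun h => hyC (h ▸ hz)
    rw [← c2_plus hFLP P E Λ z y hE hzΛ hy hzy]
    refine mul_le_mul_of_nonneg_right ?_ (c2_nonneg h0 h1 _ _ _ _)
    exact SlM.corr_ein_le h0 h1 E (Finset.erase_subset y Λ)
      (SlM.pair_subset hxe (hCe hz))

end NU

end MP8622
end
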