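import Pool.Agent.Lib.MP_8622f1_pr.NU.SpecF
import Pool.Agent.Lib.MP_8622f1_pr.NU.FLD
import Pool.Agent.Lib.MP_8622f1_pr.Mtpc

section
set_option autoImplicit false

open Classical Filter Topology

/-!
# MP_8622f1_pr, NU: CTP, continuity of the correlations in the opening probabilities
-/

namespace MP8622

namespace NU

namespace CTPM

theorem tendsto_sw {V ι : Type} {F : Filter ι} {Pn : ι → Sym2 V → ℝ} {P : Sym2 V → ℝ}
    {E : Finset (Sym2 V)} (h : ∀ e ∈ E, Tendsto (fun i => Pn i e) F (𝓝 (P e))) (S : Finset V) :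
    Tendsto (fun i => sw (Pn i) E S) F (𝓝 (sw P E S)) := by
  unfold sw
  refine tendsto_finsetProd _ fun e he => ?_
  split_ifs
  · exact tendsto_const_nhds
  · exact (h e he).const_sub 1

end CTPM

open CTPM in
theorem specCTP : SpecCTP := by
  intro V ι F Pn P E Λ A h1 h
  unfold corr
  refine Tendsto.div ?_ ?_ (Z_pos h1 E Λ).ne'
  · exact tendsto_finsetSum _ fun S _ => (tendsto_sw h S).const_mul _
  · exact tendsto_finsetSum _ fun S _ => tendsto_sw h S

end NU

end MP8622
end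

section
set_option autoImplicit false

open Classical Filter Topology

/-!
# MP_8622f1_pr, NU: FLP, fixing one spin of a zero field system
-/

namespace MP8622

namespace NU

namespace FLPM

variable {V : Type}

theorem sw_flip {P : Sym2 V → ℝ} {E : Finset (Sym2 V)} {Λ : Finset V}
    (hE : ∀ e ∈ E, ∀ w ∈ e, w ∈ Λ) (S : Finset V) : sw P E (Λ \ S) = sw P E S := by
  unfold sw
  refine Finset.prod_congr rfl fun e he => ?_
  have : Mono (Λ \ S) e ↔ Mono S e := by
    unfold Mono
    refine forall₂_congr fun a ha => forall₂_congr fun c hc => ?_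
    rw [Finset.mem_sdiff, Finset.mem_sdiff]
    simp only [hE e he a ha, hE e he c hc, true_and]
    exact not_iff_not
  simp only [this]

theorem chi_flip {Λ A S : Finset V} (hA : A ⊆ Λ) (hev : Even A.card) (hS : S ⊆ Λ) :
    chi A (Λ \ S) = chi A S := by
  have h1 : Λ \ S = symmDiff S Λ := by
    ext v
    rw [Finset.mem_sdiff, Finset.mem_symmDiff]
    constructor
    · rintro ⟨h1, h2⟩; exact Or.inr ⟨h1, h2⟩
    · rintro (⟨h1, h2⟩ | ⟨h1, h2⟩)
      · exact absurd (hS h1) h2
      · exact ⟨h1, h2⟩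
  rw [h1, chi_symmDiff_right]
  have h2 : chi A Λ = 1 := by
    apply chi_eq_one
    rwa [Finset.inter_eq_left.2 hA]
  rw [h2, mul_one]

/-- both sums are twice the sum over the sets not containing `z` -/
theorem sum_two {Λ : Finset V} {z : V} (hz : z ∈ Λ) (f : Finset V → ℝ)
    (hf : ∀ S ⊆ Λ, f (Λ \ S) = f S) :
    ∑ S ∈ Λ.powerset, f S = 2 * ∑ S ∈ (Λ.erase z).powerset, f S := by
  have h1 : Λ = insert z (Λ.erase z) := (Finset.insert_erase hz).symm
  have h2 : ∑ S ∈ Λ.powerset, f S = ∑ S ∈ (Λ.erase z).powerset, f S +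
      ∑ S ∈ (Λ.erase z).powerset, f (insert z S) := by
    conv_lhs => rw [h1]
    rw [Finset.sum_powerset_insert (Finset.notMem_erase z Λ)]
  have h3 : ∑ S ∈ (Λ.erase z).powerset, f (insert z S) = ∑ S ∈ (Λ.erase z).powerset, f S := by
    refine Finset.sum_bij' (fun S _ => (Λ.erase z) \ S) (fun S _ => (Λ.erase z) \ S) ?_ ?_ ?_ ?_ ?_
    · intro S _; rw [Finset.mem_powerset]; exact Finset.sdiff_subset
    · intro S _; rw [Finset.mem_powerset]; exact Finset.sdiff_subset
    · intro S hS; rw [Finset.mem_powerset] at hS; exact Finset.sdiff_sdiff_eq_self hS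
    · intro S hS; rw [Finset.mem_powerset] at hS; exact Finset.sdiff_sdiff_eq_self hS
    · intro S hS
      rw [Finset.mem_powerset] at hS
      have hsub : insert z S ⊆ Λ := by
        intro v hv
        rcases Finset.mem_insert.1 hv with rfl | hv
        · exact hz
        · exact Finset.mem_of_mem_erase (hS hv)
      rw [← hf (insert z S) hsub]
      congr 1
      ext v
      simp only [Finset.mem_sdiff, Finset.mem_insert, Finset.mem_erase, not_or]
      tauto
  rw [h2, h3]
  ring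

end FLPM

open FLPM in
theorem specFLP : SpecFLP := by
  intro V P E Λ A z hE hA hev hz
  unfold corr
  rw [sum_two hz (fun S => chi A S * sw P E S) (fun S hS => by
      show chi A (Λ \ S) * sw P E (Λ \ S) = chi A S * sw P E S
      rw [sw_flip hE, chi_flip hA hev hS]),
    sum_two hz (fun S => sw P E S) (fun S _ => sw_flip hE S)]
  exact mul_div_mul_left _ _ (by norm_num)

end NU

end MP8622
end

section
set_option autoImplicit false

open Classical Filter Topology

/-!
MP_8622f1_pr, block NU: removing a set of vertices, magnetisation.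
-/

namespace MP8622

namespace NU

namespace MRCM

variable {V : Type}

theorem mem_del {E : Finset (Sym2 V)} {z : V} {e : Sym2 V} : e ∈ del E z ↔ e ∈ E ∧ z ∉ e := by
  simp [del]

theorem corr_del_le {P : Sym2 V → ℝ} (h0 : ∀ e, 0 ≤ P e) (h1 : ∀ e, P e ≤ 1)
    (E : Finset (Sym2 V)) {Λ : Finset V} {z : V} (hz : z ∈ Λ) {A : Finset V}
    (hA : A ⊆ Λ.erase z) : corr P (del E z) (Λ.erase z) A ≤ corr P E Λ A := by
  have h := corr_union (P := P) (E₁ := del E z) (E₂ := ∅) (Λ₁ := Λ.erase z) (Λ₂ := {z})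
    (A₁ := A) (A₂ := ∅) (by
      rw [Finset.disjoint_singleton_right]
      exact Finset.notMem_erase z Λ) (Finset.disjoint_empty_right _)
    (fun e he x hx hx2 => by
      rw [Finset.mem_singleton] at hx2
      subst hx2
      exact (mem_del.1 he).2 hx) (by simp) hA (Finset.empty_subset _)
  have h2 : Λ.erase z ∪ {z} = Λ := by
    rw [Finset.union_comm, ← Finset.insert_eq, Finset.insert_erase hz]
  rw [Finset.union_empty, Finset.union_empty, h2, corr_empty h1, mul_one] at h
  rw [← h]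
  exact SlM.corr_mono_edges h0 h1 (Finset.filter_subset _ _) Λ A

theorem c2_nonneg {P : Sym2 V → ℝ} (h0 : ∀ e, 0 ≤ P e) (h1 : ∀ e, P e ≤ 1)
    (E : Finset (Sym2 V)) (Λ : Finset V) (x y : V) : 0 ≤ c2 P E Λ x y :=
  corr_nonneg h0 h1 _

theorem c2_self {P : Sym2 V → ℝ} (h1 : ∀ e, P e ≤ 1)
    (E : Finset (Sym2 V)) (Λ : Finset V) (x : V) : c2 P E Λ x x = 1 := by
  unfold c2
  rw [SlM.symmDiff_self_empty, corr_empty h1]

theorem c2_ein_le {P : Sym2 V → ℝ} (h0 : ∀ e, 0 ≤ P e) (h1 : ∀ e, P e ≤ 1)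
    (E : Finset (Sym2 V)) {S Λ : Finset V} (hS : S ⊆ Λ) {x y : V} (hx : x ∈ S) (hy : y ∈ S) :
    c2 P (ein E S) S x y ≤ c2 P (ein E Λ) Λ x y := by
  have h2 : ein E S = ein (ein E Λ) S := by
    ext e
    rw [SlM.mem_ein, SlM.mem_ein, SlM.mem_ein]
    exact ⟨fun h => ⟨⟨h.1, fun z hz => hS (h.2 z hz)⟩, h.2⟩, fun h => ⟨h.1.1, h.2⟩⟩
  unfold c2
  rw [h2]
  exact SlM.corr_ein_le h0 h1 (ein E Λ) hS (SlM.pair_subset hx hy)

theorem aux (hVRM : SpecVRM) (P : Sym2 V → ℝ) (h0 : ∀ e, 0 ≤ P e) (h1 : ∀ e, P e ≤ 1) (x : V)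
    (C : Finset V) : ∀ (E : Finset (Sym2 V)) (Λ : Finset V), (∀ e ∈ E, ¬ e.IsDiag) → x ∈ Λ →
      C ⊆ Λ → x ∉ C → corr P E Λ {x} ≤
        corr P (E.filter (fun e => ∀ z ∈ e, z ∉ C)) (Λ \ C) {x} +
          ∑ z ∈ C, c2 P (ein E Λ) Λ x z * corr P E Λ {z} := by
  induction C using Finset.induction_on with
  | empty =>
    intro E Λ _ _ _ _
    have h2 : E.filter (fun e => ∀ z ∈ e, z ∉ (∅ : Finset V)) = E := by
      rw [Finset.filter_true_of_mem]
      intro e _ z _
      exact Finset.notMem_empty z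
    rw [h2, Finset.sdiff_empty, Finset.sum_empty, add_zero]
  | insert z C hzC IH =>
    intro E Λ hdiag hx hC hxC
    rw [Finset.mem_insert, not_or] at hxC
    obtain ⟨hxz, hxC⟩ := hxC
    have hz : z ∈ Λ := hC (Finset.mem_insert_self z C)
    have hCΛ : C ⊆ Λ.erase z := by
      intro w hw
      rw [Finset.mem_erase]
      refine ⟨?_, hC (Finset.mem_insert_of_mem hw)⟩
      rintro rfl
      exact hzC hw
    have hxe : x ∈ Λ.erase z := Finset.mem_erase.2 ⟨hxz, hx⟩
    have h2 := hVRM V P E Λ x z h0 h1 hdiag hx hz hxz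
    have h3 := IH (del E z) (Λ.erase z) (fun e he => hdiag e (mem_del.1 he).1) hxe hCΛ hxC
    have h4 : (del E z).filter (fun e => ∀ w ∈ e, w ∉ C) =
        E.filter (fun e => ∀ w ∈ e, w ∉ insert z C) := by
      ext e
      rw [Finset.mem_filter, mem_del, Finset.mem_filter]
      constructor
      · rintro ⟨⟨h5, h6⟩, h7⟩
        refine ⟨h5, fun w hw hw2 => ?_⟩
        rcases Finset.mem_insert.1 hw2 with rfl | hw2
        · exact h6 hw
        · exact h7 w hw hw2
      · rintro ⟨h5, h6⟩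
        exact ⟨⟨h5, fun h => h6 z h (Finset.mem_insert_self z C)⟩,
          fun w hw hw2 => h6 w hw (Finset.mem_insert_of_mem hw2)⟩
    have h5 : (Λ.erase z) \ C = Λ \ insert z C := by
      ext w
      simp only [Finset.mem_sdiff, Finset.mem_erase, Finset.mem_insert, not_or]
      tauto
    rw [h4, h5] at h3
    rw [Finset.sum_insert hzC]
    have h6 : ∑ w ∈ C, c2 P (ein (del E z) (Λ.erase z)) (Λ.erase z) x w *
        corr P (del E z) (Λ.erase z) {w} ≤ ∑ w ∈ C, c2 P (ein E Λ) Λ x w * corr P E Λ {w} := by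
      refine Finset.sum_le_sum fun w hw => ?_
      refine mul_le_mul ?_ ?_ (corr_nonneg h0 h1 _) (c2_nonneg h0 h1 _ _ _ _)
      · have h7 : ein (del E z) (Λ.erase z) = ein E (Λ.erase z) := by
          ext e
          rw [SlM.mem_ein, SlM.mem_ein, mem_del]
          constructor
          · rintro ⟨⟨a, _⟩, c⟩
            exact ⟨a, c⟩
          · rintro ⟨a, c⟩
            exact ⟨⟨a, fun h => Finset.notMem_erase z Λ (c z h)⟩, c⟩
        rw [h7]
        exact c2_ein_le h0 h1 E (Finset.erase_subset z Λ) hxe (hCΛ hw)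
      · exact corr_del_le h0 h1 E hz (Finset.singleton_subset_iff.2 (hCΛ hw))
    linarith

end MRCM

open MRCM in
theorem specMRC (hVRM : SpecVRM) : SpecMRC := by
  intro V P E Λ C x h0 h1 hdiag hx hC
  by_cases hxC : x ∈ C
  · rw [if_pos hxC, zero_add]
    have h2 := Finset.single_le_sum (f := fun z => c2 P (ein E Λ) Λ x z * corr P E Λ {z})
      (fun z _ => mul_nonneg (c2_nonneg h0 h1 _ _ _ _) (corr_nonneg h0 h1 _)) hxC
    simp only [c2_self h1, one_mul] at h2
    exact h2
  · rw [if_neg hxC]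
    exact aux hVRM P h0 h1 x C E Λ hdiag hx hC hxC

end NU

end MP8622
end

section
set_option autoImplicit false

open Classical Filter Topology

/-!
# SBM: submodularity in the set of plus edges
-/

namespace MP8622

namespace NU

namespace SBMM

variable {V : Type}

/-- the field of the plus edges -/
noncomputable def fd (P : Sym2 V → ℝ) (E : Finset (Sym2 V)) (Λ : Finset V) (v : V) : ℝ :=
  ∑ e ∈ E.filter (fun e => v ∈ e ∧ ¬ ∀ z ∈ e, z ∈ Λ), -Real.log (1 - P e) / 2

theorem fd_nonneg {P : Sym2 V → ℝ} (h0 : ∀ e, 0 ≤ P e) (h1 : ∀ e, P e < 1)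
    (E : Finset (Sym2 V)) (Λ : Finset V) (v : V) : 0 ≤ fd P E Λ v := by
  refine Finset.sum_nonneg fun e _ => ?_
  have h2 : Real.log (1 - P e) ≤ 0 :=
    Real.log_nonpos (by linarith [h1 e]) (by linarith [h0 e])
  linarith

theorem fd_union {P : Sym2 V → ℝ} {E F : Finset (Sym2 V)} (h : Disjoint E F) (Λ : Finset V)
    (v : V) : fd P (E ∪ F) Λ v = fd P E Λ v + fd P F Λ v := by
  unfold fd
  rw [Finset.filter_union, Finset.sum_union]
  exact Finset.disjoint_filter_filter h

theorem ein_union_left {E F : Finset (Sym2 V)} {Λ : Finset V}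
    (h : ∀ e ∈ F, ¬ ∀ z ∈ e, z ∈ Λ) : ein (E ∪ F) Λ = ein E Λ := by
  ext e
  rw [SlM.mem_ein, SlM.mem_ein, Finset.mem_union]
  constructor
  · rintro ⟨h1 | h1, h2⟩
    · exact ⟨h1, h2⟩
    · exact absurd h2 (h e h1)
  · rintro ⟨h1, h2⟩
    exact ⟨Or.inl h1, h2⟩

/-- the sequence `(1 - 1/(n+1)) P` -/
noncomputable def Pn (P : Sym2 V → ℝ) (n : ℕ) (e : Sym2 V) : ℝ := (1 - 1 / ((n : ℝ) + 1)) * P e

theorem fac (n : ℕ) : 0 ≤ 1 - 1 / ((n : ℝ) + 1) ∧ 1 - 1 / ((n : ℝ) + 1) < 1 := by
  have h : (0 : ℝ) < (n : ℝ) + 1 := by positivity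
  have h2 : 1 / ((n : ℝ) + 1) ≤ 1 := by
    rw [div_le_one h]
    have : (0 : ℝ) ≤ n := Nat.cast_nonneg n
    linarith
  have h3 : 0 < 1 / ((n : ℝ) + 1) := by positivity
  constructor <;> linarith

theorem Pn_nonneg {P : Sym2 V → ℝ} (h0 : ∀ e, 0 ≤ P e) (n : ℕ) (e : Sym2 V) :
    0 ≤ Pn P n e := mul_nonneg (fac n).1 (h0 e)

theorem Pn_lt {P : Sym2 V → ℝ} (h0 : ∀ e, 0 ≤ P e) (h1 : ∀ e, P e ≤ 1) (n : ℕ) (e : Sym2 V) :
    Pn P n e < 1 := by
  unfold Pn
  have h2 := (fac n).1
  have h3 := (fac n).2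
  calc (1 - 1 / ((n : ℝ) + 1)) * P e ≤ (1 - 1 / ((n : ℝ) + 1)) * 1 :=
        mul_le_mul_of_nonneg_left (h1 e) h2
    _ < 1 := by linarith

theorem Pn_tendsto (P : Sym2 V → ℝ) (e : Sym2 V) :
    Tendsto (fun n : ℕ => Pn P n e) atTop (𝓝 (P e)) := by
  have h := (tendsto_one_div_add_atTop_nhds_zero_nat (𝕜 := ℝ)).const_sub 1
  have h2 := h.mul_const (P e)
  simpa [Pn] using h2

end SBMM

open SBMM in
theorem specSBM (hGHS : SpecGHS) (hFLD : SpecFLD) (hCTP : SpecCTP) : SpecSBM := by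
  intro V P E₀ Ea Eb Λ x h0 h1 hx hd1 hd2 hd3 ha hb
  have main : ∀ Q : Sym2 V → ℝ, (∀ e, 0 ≤ Q e) → (∀ e, Q e < 1) →
      corr Q (E₀ ∪ Ea ∪ Eb) Λ {x} + corr Q E₀ Λ {x} ≤
        corr Q (E₀ ∪ Ea) Λ {x} + corr Q (E₀ ∪ Eb) Λ {x} := by
    intro Q q0 q1
    have e1 := hFLD V Q (E₀ ∪ Ea ∪ Eb) Λ x q0 q1 hx
    have e2 := hFLD V Q E₀ Λ x q0 q1 hx
    have e3 := hFLD V Q (E₀ ∪ Ea) Λ x q0 q1 hx
    have e4 := hFLD V Q (E₀ ∪ Eb) Λ x q0 q1 hx
    rw [e1, e2, e3, e4, ein_union_left hb, ein_union_left ha, ein_union_left hb]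
    have hdis : Disjoint (E₀ ∪ Ea) Eb := by
      rw [Finset.disjoint_union_left]
      exact ⟨hd2, hd3⟩
    have f1 : ∀ v, fd Q (E₀ ∪ Ea ∪ Eb) Λ v = fd Q E₀ Λ v + fd Q Ea Λ v + fd Q Eb Λ v := by
      intro v
      rw [fd_union hdis, fd_union hd1]
    have f2 : ∀ v, fd Q (E₀ ∪ Ea) Λ v = fd Q E₀ Λ v + fd Q Ea Λ v := fun v => fd_union hd1 Λ v
    have f3 : ∀ v, fd Q (E₀ ∪ Eb) Λ v = fd Q E₀ Λ v + fd Q Eb Λ v := fun v => fd_union hd2 Λ v
    have p0 : ∀ v, 0 ≤ fd Q E₀ Λ v := fd_nonneg q0 q1 E₀ Λ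
    have pa : ∀ v, 0 ≤ fd Q Ea Λ v := fd_nonneg q0 q1 Ea Λ
    have pb : ∀ v, 0 ≤ fd Q Eb Λ v := fd_nonneg q0 q1 Eb Λ
    have key := hGHS V Q (ein E₀ Λ) Λ (fd Q (E₀ ∪ Ea ∪ Eb) Λ) (fd Q (E₀ ∪ Ea) Λ)
      (fd Q (E₀ ∪ Eb) Λ) (fd Q E₀ Λ) q0 (fun e => (q1 e).le)
      (fun e he => (SlM.mem_ein.1 he).2)
      (fun v => by rw [f1, f2, f3]; linarith [p0 v, pa v, pb v])
      (fun v => by rw [f1, f2, f3]; linarith [p0 v, pa v, pb v])
      (fun v => by rw [f1, f2, f3]; linarith [p0 v, pa v, pb v])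
      (fun v => by rw [f1, f2, f3]; linarith [p0 v, pa v, pb v]) x hx
    exact key
  have lim : ∀ E : Finset (Sym2 V),
      Tendsto (fun n : ℕ => corr (Pn P n) E Λ {x}) atTop (𝓝 (corr P E Λ {x})) := by
    intro E
    exact hCTP V ℕ atTop (Pn P) P E Λ {x} h1 (fun e _ => Pn_tendsto P e)
  exact le_of_tendsto_of_tendsto' ((lim _).add (lim _)) ((lim _).add (lim _))
    (fun n => main (Pn P n) (Pn_nonneg h0 n) (Pn_lt h0 h1 n))

end NU

end MP8622
end

section
set_option autoImplicit false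

open Classical Filter Topology

/-!
# SMU: supermultiplicativity
-/

namespace MP8622

namespace NU

namespace SMUM

variable {V : Type}

/-- the edges of `EI` inside `I ∪ S` -/
noncomputable def eis (EI : Finset (Sym2 V)) (I S : Finset V) : Finset (Sym2 V) :=
  EI.filter (fun e => ∀ z ∈ e, z ∈ I ∨ z ∈ S)

theorem mem_eis {EI : Finset (Sym2 V)} {I S : Finset V} {e : Sym2 V} :
    e ∈ eis EI I S ↔ e ∈ EI ∧ ∀ z ∈ e, z ∈ I ∨ z ∈ S := by
  simp [eis]

theorem eis_mono {EI : Finset (Sym2 V)} {I S T : Finset V} (h : S ⊆ T) :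
    eis EI I S ⊆ eis EI I T := by
  intro e he
  rw [mem_eis] at he ⊢
  exact ⟨he.1, fun z hz => (he.2 z hz).imp id (fun h' => h h')⟩

/-- a correlation only depends on the free vertices of the set -/
theorem corr_inter (P : Sym2 V → ℝ) (E : Finset (Sym2 V)) (Λ A : Finset V) :
    corr P E Λ A = corr P E Λ (A ∩ Λ) := by
  unfold corr
  congr 1
  refine Finset.sum_congr rfl fun S hS => ?_
  rw [Finset.mem_powerset] at hS
  unfold chi
  rw [Finset.inter_assoc, Finset.inter_eq_right.2 hS]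

/-- free spins which touch no edge may be added -/
theorem corr_add {P : Sym2 V → ℝ} (h1 : ∀ e, P e ≤ 1) {E : Finset (Sym2 V)} {O I A : Finset V}
    (hd : Disjoint O I) (hE : ∀ e ∈ E, ∀ z ∈ e, z ∉ I) (hA : Disjoint A I) :
    corr P E (O ∪ I) A = corr P E O A := by
  rw [corr_inter P E (O ∪ I) A, corr_inter P E O A]
  have e1 : A ∩ (O ∪ I) = A ∩ O := by
    rw [Finset.inter_union_distrib_left, Finset.disjoint_iff_inter_eq_empty.1 hA,
      Finset.union_empty]
  rw [e1]
  have h := corr_union (P := P) (E₁ := E) (E₂ := ∅) (Λ₁ := O) (Λ₂ := I) (A₁ := A ∩ O)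
    (A₂ := ∅) hd (Finset.disjoint_empty_right _) hE (by simp) Finset.inter_subset_right
    (Finset.empty_subset _)
  rwa [Finset.union_empty, Finset.union_empty, corr_empty h1, mul_one] at h

/-- spins which are almost surely plus may be fixed -/
theorem corr_fix (hONE : SpecONE) {P : Sym2 V → ℝ} (h0 : ∀ e, 0 ≤ P e) (h1 : ∀ e, P e ≤ 1)
    (E : Finset (Sym2 V)) (Λ A : Finset V) (S : Finset V) :
    (∀ b ∈ S, corr P E Λ {b} = 1) → corr P E Λ A = corr P E (Λ \ S) A := by
  induction S using Finset.induction_on with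
  | empty => intro _; rw [Finset.sdiff_empty]
  | insert b S hb ih =>
    intro h
    rw [ih (fun c hc => h c (Finset.mem_insert_of_mem hc))]
    have h2 : corr P E (Λ \ S) {b} = 1 := by
      apply le_antisymm (corr_le_one h1 _)
      rw [← h b (Finset.mem_insert_self b S)]
      exact corr_mono h0 (fun e => le_refl _) h1 Finset.sdiff_subset _
    rw [hONE V P E (Λ \ S) A b h0 h1 h2]
    congr 1
    ext z
    simp only [Finset.mem_erase, Finset.mem_sdiff, Finset.mem_insert]
    tauto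

section
variable {P : Sym2 V → ℝ} {EI : Finset (Sym2 V)} {I B : Finset V} {o : V}

theorem submod (hSBM : SpecSBM) (h0 : ∀ e, 0 ≤ P e) (h1 : ∀ e, P e ≤ 1)
    (hIB : Disjoint I B) (ho : o ∈ I)
    (hEI : ∀ e ∈ EI, (∃ z ∈ e, z ∈ I) ∧ ∀ z ∈ e, z ∈ I ∨ z ∈ B) {S T : Finset V} {b : V}
    (hST : S ⊆ T) (hbT : b ∉ T) (hbB : b ∈ B) :
    corr P (eis EI I (insert b T)) I {o} + corr P (eis EI I S) I {o} ≤
      corr P (eis EI I T) I {o} + corr P (eis EI I (insert b S)) I {o} := by
  have hbI : b ∉ I := fun h => (Finset.disjoint_left.1 hIB) h hbB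
  have hS1 : eis EI I S ⊆ eis EI I T := eis_mono hST
  have hS2 : eis EI I S ⊆ eis EI I (insert b S) := eis_mono (Finset.subset_insert b S)
  have e1 : eis EI I S ∪ (eis EI I T \ eis EI I S) = eis EI I T :=
    Finset.union_sdiff_of_subset hS1
  have e2 : eis EI I S ∪ (eis EI I (insert b S) \ eis EI I S) = eis EI I (insert b S) :=
    Finset.union_sdiff_of_subset hS2
  have e3 : eis EI I T ∪ (eis EI I (insert b S) \ eis EI I S) = eis EI I (insert b T) := by
    ext e
    rw [Finset.mem_union, Finset.mem_sdiff, mem_eis, mem_eis, mem_eis, mem_eis]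
    constructor
    · rintro (⟨a, c⟩ | ⟨⟨a, c⟩, -⟩)
      · exact ⟨a, fun z hz => (c z hz).imp id (fun h => Finset.mem_insert_of_mem h)⟩
      · exact ⟨a, fun z hz => (c z hz).imp id (fun h => Finset.insert_subset_insert b hST h)⟩
    · rintro ⟨a, c⟩
      by_cases hbe : b ∈ e
      · right
        obtain ⟨⟨z0, hz0, hz0I⟩, -⟩ := hEI e a
        have hne : z0 ≠ b := fun h => hbI (h ▸ hz0I)
        have he : e = s(z0, b) := (Sym2.mem_and_mem_iff hne).1 ⟨hz0, hbe⟩
        refine ⟨⟨a, fun z hz => ?_⟩, fun hcon => ?_⟩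
        · rw [he] at hz
          rcases Sym2.mem_iff.1 hz with rfl | rfl
          · exact Or.inl hz0I
          · exact Or.inr (Finset.mem_insert_self _ _)
        · rcases hcon.2 b hbe with h | h
          · exact hbI h
          · exact hbT (hST h)
      · left
        refine ⟨a, fun z hz => (c z hz).imp id (fun h => ?_)⟩
        rcases Finset.mem_insert.1 h with rfl | h
        · exact absurd hz hbe
        · exact h
  have hd3 : Disjoint (eis EI I T \ eis EI I S) (eis EI I (insert b S) \ eis EI I S) := by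
    rw [Finset.disjoint_left]
    intro e he1 he2
    rw [Finset.mem_sdiff, mem_eis] at he1 he2
    apply he1.2
    rw [mem_eis]
    refine ⟨he1.1.1, fun z hz => ?_⟩
    rcases he2.1.2 z hz with h | h
    · exact Or.inl h
    · rcases Finset.mem_insert.1 h with rfl | h
      · rcases he1.1.2 z hz with h' | h'
        · exact Or.inl h'
        · exact absurd h' hbT
      · exact Or.inr h
  have hout : ∀ F : Finset (Sym2 V), F ⊆ EI → ∀ e ∈ F \ eis EI I S, ¬ ∀ z ∈ e, z ∈ I := by
    intro F hF e he hcon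
    rw [Finset.mem_sdiff, mem_eis] at he
    exact he.2 ⟨hF he.1, fun z hz => Or.inl (hcon z hz)⟩
  have key := hSBM V P (eis EI I S) (eis EI I T \ eis EI I S)
    (eis EI I (insert b S) \ eis EI I S) I o h0 h1 ho Finset.disjoint_sdiff
    Finset.disjoint_sdiff hd3 (hout _ (Finset.filter_subset _ _))
    (hout _ (Finset.filter_subset _ _))
  rw [e1, e2, e3] at key
  exact key

theorem exw (hSBM : SpecSBM) (h0 : ∀ e, 0 ≤ P e) (h1 : ∀ e, P e ≤ 1)
    (hIB : Disjoint I B) (ho : o ∈ I)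
    (hEI : ∀ e ∈ EI, (∃ z ∈ e, z ∈ I) ∧ ∀ z ∈ e, z ∈ I ∨ z ∈ B) (T : Finset V) :
    T ⊆ B → ∃ w : V → ℝ, (∀ b, 0 ≤ w b) ∧
      (∀ S ⊆ T, ∑ b ∈ S, w b ≤ corr P (eis EI I S) I {o}) ∧
      ∑ b ∈ T, w b = corr P (eis EI I T) I {o} := by
  induction T using Finset.induction_on with
  | empty =>
    intro _
    have h : corr P (eis EI I ∅) I {o} = 0 := by
      apply corr_single_zero _ ho
      intro e he z hz
      rcases (mem_eis.1 he).2 z hz with h | h
      · exact h
      · exact absurd h (Finset.notMem_empty z)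
    refine ⟨fun _ => 0, fun _ => le_refl _, ?_, ?_⟩
    · intro S hS
      rw [Finset.subset_empty] at hS
      rw [hS, h]
      simp
    · rw [h]; simp
  | insert b T hb ih =>
    intro hT
    obtain ⟨w, w0, w1, w2⟩ := ih ((Finset.subset_insert b T).trans hT)
    have hbB : b ∈ B := hT (Finset.mem_insert_self b T)
    set w' : V → ℝ := fun c => if c = b then corr P (eis EI I (insert b T)) I {o} -
      corr P (eis EI I T) I {o} else w c with hw'
    have hw'b : w' b = corr P (eis EI I (insert b T)) I {o} - corr P (eis EI I T) I {o} := by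
      simp [hw']
    have hsum : ∀ S : Finset V, b ∉ S → ∑ c ∈ S, w' c = ∑ c ∈ S, w c := by
      intro S hS
      refine Finset.sum_congr rfl fun c hc => ?_
      have : c ≠ b := fun h => hS (h ▸ hc)
      simp [hw', this]
    refine ⟨w', ?_, ?_, ?_⟩
    · intro c
      by_cases hc : c = b
      · rw [hc, hw'b]
        have := SlM.corr_mono_edges h0 h1 (eis_mono (EI := EI) (I := I)
          (Finset.subset_insert b T)) I {o}
        linarith
      · simp only [hw', if_neg hc]
        exact w0 c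
    · intro S hS
      by_cases hbS : b ∈ S
      · have hS' : S.erase b ⊆ T := by
          intro z hz
          rw [Finset.mem_erase] at hz
          exact (Finset.mem_insert.1 (hS hz.2)).resolve_left hz.1
        have e1 : S = insert b (S.erase b) := (Finset.insert_erase hbS).symm
        have e2 : ∑ c ∈ S, w' c = w' b + ∑ c ∈ S.erase b, w c := by
          rw [← hsum _ (Finset.notMem_erase b S), Finset.add_sum_erase _ _ hbS]
        have e3 := submod hSBM h0 h1 hIB ho hEI hS' hb hbB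
        rw [← e1] at e3
        have e4 := w1 (S.erase b) hS'
        rw [e2, hw'b]
        linarith
      · rw [hsum S hbS]
        apply w1
        intro z hz
        exact (Finset.mem_insert.1 (hS hz)).resolve_left (fun h => hbS (h ▸ hz))
    · rw [Finset.sum_insert hb, hsum T hb, hw'b, w2]
      ring

end

theorem upd_self (P : Sym2 V → ℝ) (e : Sym2 V) (a : ℝ) : upd P e a e = a := by simp [upd]

theorem upd_ne (P : Sym2 V → ℝ) {e f : Sym2 V} (a : ℝ) (h : f ≠ e) : upd P e a f = P f := by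
  simp [upd, h]

theorem upd_mem {P : Sym2 V → ℝ} (h0 : ∀ e, 0 ≤ P e) (h1 : ∀ e, P e ≤ 1) (e : Sym2 V) {a : ℝ}
    (a0 : 0 ≤ a) (a1 : a ≤ 1) : (∀ f, 0 ≤ upd P e a f) ∧ ∀ f, upd P e a f ≤ 1 := by
  constructor
  · intro f; unfold upd; split_ifs
    · exact a0
    · exact h0 f
  · intro f; unfold upd; split_ifs
    · exact a1
    · exact h1 f

theorem th_nonneg {p : ℝ} (h0 : 0 ≤ p) (h1 : p ≤ 1) : 0 ≤ th p := by
  unfold th; exact div_nonneg h0 (by linarith)

theorem th_le_one {p : ℝ} (h1 : p ≤ 1) : th p ≤ 1 := by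
  unfold th; rw [div_le_one (by linarith)]; linarith

/-- the weight of the mixture increases with the correlation -/
theorem q_mono {t c c' : ℝ} (t0 : 0 ≤ t) (t1 : t ≤ 1) (c0 : 0 ≤ c) (h : c ≤ c') :
    t * (1 + c) / (1 + t * c) ≤ t * (1 + c') / (1 + t * c') := by
  have h1 : 0 < 1 + t * c := by nlinarith [mul_nonneg t0 c0]
  have h2 : 0 < 1 + t * c' := by nlinarith [mul_nonneg t0 (c0.trans h)]
  rw [div_le_div_iff₀ h1 h2]
  have h3 : 0 ≤ t * (1 - t) * (c' - c) :=
    mul_nonneg (mul_nonneg t0 (by linarith)) (by linarith)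
  nlinarith

theorem claim (hMIX : SpecMIX) (hZON : SpecZON) (hONE : SpecONE) (P : Sym2 V → ℝ)
    (EI EO : Finset (Sym2 V)) (I O B : Finset V) (o : V) (hIO : Disjoint I O)
    (hIB : Disjoint I B) (ho : o ∈ I)
    (hEI : ∀ e ∈ EI, (∃ z ∈ e, z ∈ I) ∧ ∀ z ∈ e, z ∈ I ∨ z ∈ B)
    (hEO : ∀ e ∈ EO, ∀ z ∈ e, z ∉ I) (w : V → ℝ) (w0 : ∀ b, 0 ≤ w b)
    (w1 : ∀ S ⊆ B, ∑ b ∈ S, w b ≤ corr P (eis EI I S) I {o}) (n : ℕ) :
    ∀ Q : Sym2 V → ℝ, (∀ e, 0 ≤ Q e) → (∀ e, Q e ≤ 1) → (∀ e ∈ EI, Q e = P e) →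
      (EO.filter (fun e => Q e ≠ 0 ∧ Q e ≠ 1)).card = n →
      ∑ b ∈ B, w b * corr Q EO O {b} ≤ corr Q (EI ∪ EO) (I ∪ O) {o} := by
  have hOI : Disjoint O I := hIO.symm
  -- comparison of the two systems
  have cmp : ∀ (Q : Sym2 V → ℝ) (F : Finset (Sym2 V)) (F' : Finset (Sym2 V)) (A : Finset V),
      (∀ e, 0 ≤ Q e) → (∀ e, Q e ≤ 1) → F ⊆ EO → F ⊆ F' → Disjoint A I →
      corr Q F O A ≤ corr Q F' (I ∪ O) A := by
    intro Q F F' A q0 q1 hF hF' hA
    rw [← corr_add q1 hOI (fun e he => hEO e (hF he)) hA, Finset.union_comm O I]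
    exact SlM.corr_mono_edges q0 q1 hF' (I ∪ O) A
  induction n using Nat.strong_induction_on with
  | _ n ih =>
    intro Q q0 q1 hQP hn
    by_cases hall : ∀ e ∈ EO, Q e = 0 ∨ Q e = 1
    · -- base case
      have hz : ∀ b, corr Q EO O {b} = 0 ∨ corr Q EO O {b} = 1 := fun b =>
        hZON V Q EO O {b} hall
      set S := B.filter (fun b => corr Q EO O {b} = 1) with hS
      have e1 : ∑ b ∈ B, w b * corr Q EO O {b} = ∑ b ∈ S, w b := by
        rw [hS, Finset.sum_filter]
        refine Finset.sum_congr rfl fun b _ => ?_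
        rcases hz b with h | h
        · rw [h, if_neg (by norm_num), mul_zero]
        · rw [h, if_pos rfl, mul_one]
      rw [e1]
      refine (w1 S (Finset.filter_subset _ _)).trans ?_
      have e2 : corr P (eis EI I S) I {o} = corr Q (eis EI I S) I {o} := by
        refine corr_congr (Finset.Subset.refl _) (fun e he => (hQP e (mem_eis.1 he).1).symm)
          (fun e he hne => absurd he hne) _
      have hone : ∀ b ∈ S, corr Q (EI ∪ EO) (I ∪ O) {b} = 1 := by
        intro b hb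
        rw [hS, Finset.mem_filter] at hb
        apply le_antisymm (corr_le_one q1 _)
        rw [← hb.2]
        refine cmp Q EO (EI ∪ EO) {b} q0 q1 (Finset.Subset.refl _)
          Finset.subset_union_right ?_
        rw [Finset.disjoint_singleton_left]
        exact fun h => (Finset.disjoint_left.1 hIB) h hb.1
      rw [e2, corr_fix hONE q0 q1 (EI ∪ EO) (I ∪ O) {o} S hone]
      have hIS : Disjoint I S := hIB.mono_right (Finset.filter_subset _ _)
      have e3 : (I ∪ O) \ S = I ∪ (O \ S) := by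
        rw [Finset.union_sdiff_distrib, Finset.sdiff_eq_self_of_disjoint hIS]
      rw [e3]
      have e4 : corr Q (eis EI I S) (I ∪ (O \ S)) {o} = corr Q (eis EI I S) I {o} := by
        apply corr_add q1
        · exact hIO.mono_right Finset.sdiff_subset
        · intro e he z hz hzO
          rw [Finset.mem_sdiff] at hzO
          rcases (mem_eis.1 he).2 z hz with h | h
          · exact (Finset.disjoint_left.1 hIO) h hzO.1
          · exact hzO.2 h
        · rw [Finset.disjoint_singleton_left]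
          exact fun h => (Finset.disjoint_left.1 hIO) ho (Finset.mem_sdiff.1 h).1
      rw [← e4]
      exact SlM.corr_mono_edges q0 q1
        ((Finset.filter_subset _ _).trans Finset.subset_union_left) _ _
    · push Not at hall
      obtain ⟨e, he, hne⟩ := hall
      have hme : e ∈ EO.filter (fun e => Q e ≠ 0 ∧ Q e ≠ 1) := Finset.mem_filter.2 ⟨he, hne⟩
      have heEI : e ∉ EI := by
        intro h
        obtain ⟨⟨z, hz, hzI⟩, -⟩ := hEI e h
        exact hEO e he z hz hzI
      have hdec : ∀ a : ℝ, (a = 0 ∨ a = 1) →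
          (EO.filter (fun f => upd Q e a f ≠ 0 ∧ upd Q e a f ≠ 1)).card < n := by
        intro a ha
        rw [← hn]
        apply Finset.card_lt_card
        rw [Finset.ssubset_iff_of_subset]
        · refine ⟨e, hme, ?_⟩
          rw [Finset.mem_filter, upd_self]
          rintro ⟨-, h2, h3⟩
          exact ha.elim h2 h3
        · intro f hf
          rw [Finset.mem_filter] at hf ⊢
          by_cases hfe : f = e
          · rw [hfe, upd_self] at hf
            exact absurd ha (by push Not; exact hf.2)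
          · rw [upd_ne Q a hfe] at hf
            exact hf
      have hsame : ∀ a : ℝ, ∀ f ∈ EI, upd Q e a f = P f := by
        intro a f hf
        have hfe : f ≠ e := by
          rintro rfl
          exact heEI hf
        rw [upd_ne Q a hfe]
        exact hQP f hf
      have u0 := upd_mem q0 q1 e (le_refl (0 : ℝ)) zero_le_one
      have u1 := upd_mem q0 q1 e zero_le_one (le_refl (1 : ℝ))
      have I0 := ih _ (hdec 0 (Or.inl rfl)) (upd Q e 0) u0.1 u0.2 (hsame 0) rfl
      have I1 := ih _ (hdec 1 (Or.inr rfl)) (upd Q e 1) u1.1 u1.2 (hsame 1) rfl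
      obtain ⟨x, v, rfl⟩ : ∃ x v, e = s(x, v) := by
        induction e using Sym2.ind with
        | _ x v => exact ⟨x, v, rfl⟩
      obtain ⟨qa, qb, qm⟩ := hMIX V Q EO O x v q0 q1 he _ rfl
      obtain ⟨qa', qb', qm'⟩ := hMIX V Q (EI ∪ EO) (I ∪ O) x v q0 q1
        (Finset.mem_union_right _ he) _ rfl
      set q := th (Q s(x, v)) * (1 + c2 Q (EO.erase s(x, v)) O x v) /
        (1 + th (Q s(x, v)) * c2 Q (EO.erase s(x, v)) O x v) with hq
      set q' := th (Q s(x, v)) * (1 + c2 Q ((EI ∪ EO).erase s(x, v)) (I ∪ O) x v) /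
        (1 + th (Q s(x, v)) * c2 Q ((EI ∪ EO).erase s(x, v)) (I ∪ O) x v) with hq'
      have hqq : q ≤ q' := by
        apply q_mono (th_nonneg (q0 _) (q1 _)) (th_le_one (q1 _)) (corr_nonneg q0 q1 _)
        refine cmp Q (EO.erase s(x, v)) ((EI ∪ EO).erase s(x, v)) (symmDiff {x} {v}) q0 q1
          (Finset.erase_subset _ _) (Finset.erase_subset_erase _ Finset.subset_union_right) ?_
        rw [Finset.disjoint_left]
        intro z hz
        rw [Finset.mem_symmDiff, Finset.mem_singleton, Finset.mem_singleton] at hz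
        rcases hz with ⟨rfl, -⟩ | ⟨rfl, -⟩
        · exact hEO _ he z (Sym2.mem_mk_left _ _)
        · exact hEO _ he z (Sym2.mem_mk_right _ _)
      have hR01 : corr (upd Q s(x, v) 0) (EI ∪ EO) (I ∪ O) {o} ≤
          corr (upd Q s(x, v) 1) (EI ∪ EO) (I ∪ O) {o} := by
        refine corr_mono u0.1 (fun f => ?_) u1.2 (Finset.Subset.refl _) _
        unfold upd
        split_ifs
        · exact zero_le_one
        · exact le_refl _
      have eR : corr Q (EI ∪ EO) (I ∪ O) {o} =
          (1 - q') * corr (upd Q s(x, v) 0) (EI ∪ EO) (I ∪ O) {o} +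
            q' * corr (upd Q s(x, v) 1) (EI ∪ EO) (I ∪ O) {o} := by
        rw [(qm' {o}).2]
        exact (qm' {o}).1
      have eL : ∑ b ∈ B, w b * corr Q EO O {b} =
          (1 - q) * ∑ b ∈ B, w b * corr (upd Q s(x, v) 0) EO O {b} +
            q * ∑ b ∈ B, w b * corr (upd Q s(x, v) 1) EO O {b} := by
        rw [Finset.mul_sum, Finset.mul_sum, ← Finset.sum_add_distrib]
        refine Finset.sum_congr rfl fun b _ => ?_
        rw [(qm {b}).2, (qm {b}).1]
        ring
      rw [eL, eR]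
      have k1 := mul_le_mul_of_nonneg_left I0 (by linarith : 0 ≤ 1 - q)
      have k2 := mul_le_mul_of_nonneg_left I1 qa
      have k3 : 0 ≤ (q' - q) * (corr (upd Q s(x, v) 1) (EI ∪ EO) (I ∪ O) {o} -
          corr (upd Q s(x, v) 0) (EI ∪ EO) (I ∪ O) {o}) :=
        mul_nonneg (by linarith) (by linarith)
      nlinarith

end SMUM

open SMUM in
theorem specSMU (hSBM : SpecSBM) (hMIX : SpecMIX) (hZON : SpecZON) (hONE : SpecONE) :
    SpecSMU := by
  intro V P EI EO I O B o a h0 h1 _ _ hIO hIB ho hEI hEO _ hab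
  obtain ⟨w, w0, w1, w2⟩ := exw hSBM h0 h1 hIB ho hEI B (Finset.Subset.refl B)
  have key := claim hMIX hZON hONE P EI EO I O B o hIO hIB ho hEI hEO w w0 w1 _ P h0 h1
    (fun _ _ => rfl) rfl
  have hfull : eis EI I B = EI := by
    unfold eis
    rw [Finset.filter_eq_self]
    intro e he
    exact (hEI e he).2
  rw [hfull] at w2
  rw [← w2, Finset.mul_sum]
  refine le_trans (Finset.sum_le_sum fun b hb => ?_) key
  rw [mul_comm]
  exact mul_le_mul_of_nonneg_left (hab b hb) (w0 b)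

end NU

end MP8622
end

section
set_option autoImplicit false

open Classical Filter Topology

/-!
# VRM: removing one vertex
-/

namespace MP8622

namespace NU

namespace VRMM

open SBMM

variable {V : Type}

theorem exp_factor {p : ℝ} (h1 : p < 1) : Real.exp (2 * (Real.log (1 - p) / 2)) = 1 - p := by
  rw [show 2 * (Real.log (1 - p) / 2) = Real.log (1 - p) by ring, Real.exp_log (by linarith)]

/-- factor of an edge which leaves `Λ` -/
theorem out_factor {P : Sym2 V → ℝ} (h1 : ∀ e, P e < 1) {Λ S : Finset V} (hS : S ⊆ Λ)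
    (e : Sym2 V) (he : ¬ ∀ z ∈ e, z ∈ Λ) :
    (if Mono S e then (1 : ℝ) else 1 - P e) =
      ∏ v ∈ Λ, if v ∈ e then Real.exp (-Real.log (1 - P e) / 2 * (chi {v} S - 1)) else 1 := by
  revert he
  refine Sym2.ind (fun a b => ?_) e
  intro he
  have hL : ∀ c : V, c ∈ Λ → ∀ d : V, d ∉ Λ → ∀ q : ℝ, q < 1 →
      (if (c ∈ S ↔ d ∈ S) then (1 : ℝ) else 1 - q) =
      Real.exp (-Real.log (1 - q) / 2 * (chi {c} S - 1)) := by
    intro c hc d hd q hq
    have hdS : d ∉ S := fun h => hd (hS h)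
    rw [SlM.chi_single]
    by_cases hcS : c ∈ S
    · rw [if_neg (by simp [hcS, hdS]), if_pos hcS]
      rw [show -Real.log (1 - q) / 2 * (-1 - 1) = 2 * (Real.log (1 - q) / 2) by ring,
        exp_factor hq]
    · rw [if_pos (by simp [hcS, hdS]), if_neg hcS]
      simp
  simp only [SlM.mono_mk]
  by_cases ha : a ∈ Λ
  · have hb : b ∉ Λ := by
      intro hb
      apply he
      intro z hz
      rcases Sym2.mem_iff.1 hz with rfl | rfl
      · exact ha
      · exact hb
    rw [hL a ha b hb _ (h1 _)]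
    rw [Finset.prod_eq_single_of_mem a ha]
    · rw [if_pos (Sym2.mem_mk_left a b)]
    · intro v hv hva
      rw [if_neg]
      intro h
      rcases Sym2.mem_iff.1 h with rfl | rfl
      · exact hva rfl
      · exact hb hv
  · by_cases hb : b ∈ Λ
    · rw [if_congr (show (a ∈ S ↔ b ∈ S) ↔ (b ∈ S ↔ a ∈ S) from ⟨Iff.symm, Iff.symm⟩) rfl rfl]
      rw [hL b hb a ha _ (h1 _)]
      rw [Finset.prod_eq_single_of_mem b hb]
      · rw [if_pos (Sym2.mem_mk_right a b)]
      · intro v hv hva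
        rw [if_neg]
        intro h
        rcases Sym2.mem_iff.1 h with rfl | rfl
        · exact ha hv
        · exact hva rfl
    · rw [if_pos (by
        have h1 : a ∉ S := fun h => ha (hS h)
        have h2 : b ∉ S := fun h => hb (hS h)
        simp [h1, h2])]
      symm
      apply Finset.prod_eq_one
      intro v hv
      rw [if_neg]
      intro h
      rcases Sym2.mem_iff.1 h with rfl | rfl
      · exact ha hv
      · exact hb hv

theorem prod_exp_swap (J : Sym2 V → ℝ) (R : Finset (Sym2 V)) (Λ : Finset V) (c : V → ℝ) :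
    ∏ e ∈ R, ∏ v ∈ Λ, (if v ∈ e then Real.exp (J e * c v) else 1) =
      ∏ v ∈ Λ, Real.exp ((∑ e ∈ R.filter (fun e => v ∈ e), J e) * c v) := by
  rw [Finset.prod_comm]
  refine Finset.prod_congr rfl fun v _ => ?_
  rw [← Finset.prod_filter, Finset.sum_mul, Real.exp_sum]

/-- plus edges are fields (weights) -/
theorem sw_field {P : Sym2 V → ℝ} (h1 : ∀ e, P e < 1) (E : Finset (Sym2 V)) {Λ S : Finset V}
    (hS : S ⊆ Λ) : sw P E S =
      (∏ v ∈ Λ, Real.exp (-fd P E Λ v)) * wf P (ein E Λ) Λ (fd P E Λ) S := by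
  unfold wf
  have e1 : sw P E S = sw P (ein E Λ) S *
      ∏ e ∈ E.filter (fun e => ¬ ∀ z ∈ e, z ∈ Λ), (if Mono S e then (1 : ℝ) else 1 - P e) := by
    unfold sw ein
    rw [Finset.prod_filter_mul_prod_filter_not]
  have e2 : ∏ e ∈ E.filter (fun e => ¬ ∀ z ∈ e, z ∈ Λ),
      (if Mono S e then (1 : ℝ) else 1 - P e) =
      ∏ v ∈ Λ, Real.exp (fd P E Λ v * (chi {v} S - 1)) := by
    rw [Finset.prod_congr rfl (fun e he => out_factor h1 hS e (Finset.mem_filter.1 he).2),
      prod_exp_swap (fun e => -Real.log (1 - P e) / 2)]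
    refine Finset.prod_congr rfl fun v _ => ?_
    unfold fd
    rw [Finset.filter_filter]
    congr 3
    ext e
    simp only [Finset.mem_filter]
    constructor
    · rintro ⟨a, b, c⟩; exact ⟨a, c, b⟩
    · rintro ⟨a, b, c⟩; exact ⟨a, c, b⟩
  rw [e1, e2, mul_left_comm, ← Finset.prod_mul_distrib]
  congr 1
  refine Finset.prod_congr rfl fun v _ => ?_
  rw [← Real.exp_add]
  congr 1
  ring

theorem mono_insert {z : V} {S : Finset V} {e : Sym2 V} (h : z ∉ e) :
    Mono (insert z S) e ↔ Mono S e := by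
  have h3 : ∀ x ∈ e, (x ∈ insert z S ↔ x ∈ S) := fun x hx => by
    rw [Finset.mem_insert]
    exact ⟨fun h' => h'.elim (fun h4 => absurd (h4 ▸ hx) h) id, Or.inr⟩
  constructor
  · intro h x hx y hy
    rw [← h3 x hx, ← h3 y hy]; exact h x hx y hy
  · intro h x hx y hy
    rw [h3 x hx, h3 y hy]; exact h x hx y hy

/-- factor of an edge at the minus spin `z` -/
theorem z_factor {P : Sym2 V → ℝ} (h1 : ∀ e, P e < 1) {A S : Finset V} {z : V} (hS : S ⊆ A)
    (hz : z ∉ A) (e : Sym2 V) (hd : ¬ e.IsDiag) (he : z ∈ e) :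
    (if Mono (insert z S) e then (1 : ℝ) else 1 - P e) =
      Real.exp (2 * (Real.log (1 - P e) / 2)) *
      ∏ v ∈ A, if v ∈ e then Real.exp (-Real.log (1 - P e) / 2 * (1 - chi {v} S)) else 1 := by
  obtain ⟨w, rfl⟩ := Sym2.mem_iff_exists.1 he
  have hzw : z ≠ w := fun h => hd (by rw [h]; exact Sym2.mk_isDiag_iff.2 rfl)
  simp only [SlM.mono_mk]
  have hzin : z ∈ insert z S := Finset.mem_insert_self z S
  have hw : w ∈ insert z S ↔ w ∈ S := by
    rw [Finset.mem_insert]
    exact ⟨fun h => h.elim (fun h' => absurd h'.symm hzw) id, Or.inr⟩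
  have hiff : (z ∈ insert z S ↔ w ∈ insert z S) ↔ w ∈ S :=
    ⟨fun h => hw.1 (h.1 hzin), fun h => ⟨fun _ => hw.2 h, fun _ => hzin⟩⟩
  rw [if_congr hiff rfl rfl]
  by_cases hwA : w ∈ A
  · rw [Finset.prod_eq_single_of_mem w hwA, if_pos (Sym2.mem_mk_right z w), SlM.chi_single]
    · by_cases hwS : w ∈ S
      · rw [if_pos hwS, if_pos hwS, ← Real.exp_add]
        rw [show 2 * (Real.log (1 - P s(z, w)) / 2) +
          -Real.log (1 - P s(z, w)) / 2 * (1 - -1) = 0 by ring, Real.exp_zero]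
      · rw [if_neg hwS, if_neg hwS, exp_factor (h1 _)]
        simp
    · intro v hv hvw
      rw [if_neg]
      intro h
      rcases Sym2.mem_iff.1 h with rfl | rfl
      · exact hz hv
      · exact hvw rfl
  · have hwS : w ∉ S := fun h => hwA (hS h)
    rw [if_neg hwS, exp_factor (h1 _), Finset.prod_eq_one, mul_one]
    intro v hv
    rw [if_neg]
    intro h
    rcases Sym2.mem_iff.1 h with rfl | rfl
    · exact hz hv
    · exact hwA hv

/-- the couplings to `z` -/
noncomputable def Jz (P : Sym2 V → ℝ) (E : Finset (Sym2 V)) (z v : V) : ℝ :=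
  ∑ e ∈ (E.filter (fun e => z ∈ e)).filter (fun e => v ∈ e), -Real.log (1 - P e) / 2

theorem Jz_nonneg {P : Sym2 V → ℝ} (h0 : ∀ e, 0 ≤ P e) (h1 : ∀ e, P e < 1)
    (E : Finset (Sym2 V)) (z v : V) : 0 ≤ Jz P E z v := by
  refine Finset.sum_nonneg fun e _ => ?_
  have h2 : Real.log (1 - P e) ≤ 0 :=
    Real.log_nonpos (by linarith [h1 e]) (by linarith [h0 e])
  linarith

theorem sw_insert_z {P : Sym2 V → ℝ} (h1 : ∀ e, P e < 1) {E : Finset (Sym2 V)}
    (hd : ∀ e ∈ E, ¬ e.IsDiag) {A S : Finset V} {z : V} (hS : S ⊆ A) (hz : z ∉ A) :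
    sw P E (insert z S) =
      ((∏ v ∈ A, Real.exp (-fd P (del E z) A v)) *
        (∏ e ∈ E.filter (fun e => z ∈ e), Real.exp (2 * (Real.log (1 - P e) / 2))) *
        ∏ v ∈ A, Real.exp (Jz P E z v)) *
      wf P (ein (del E z) A) A (fun v => fd P (del E z) A v - Jz P E z v) S := by
  have e1 : sw P E (insert z S) = sw P (del E z) S *
      ∏ e ∈ E.filter (fun e => z ∈ e), (if Mono (insert z S) e then (1 : ℝ) else 1 - P e) := by
    unfold sw del
    rw [← Finset.prod_filter_mul_prod_filter_not E (fun e => z ∈ e), mul_comm]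
    congr 1
    refine Finset.prod_congr rfl fun e he => ?_
    simp only [mono_insert (Finset.mem_filter.1 he).2]
  have e2 : ∏ e ∈ E.filter (fun e => z ∈ e),
      (if Mono (insert z S) e then (1 : ℝ) else 1 - P e) =
      (∏ e ∈ E.filter (fun e => z ∈ e), Real.exp (2 * (Real.log (1 - P e) / 2))) *
      ∏ v ∈ A, Real.exp (Jz P E z v * (1 - chi {v} S)) := by
    rw [Finset.prod_congr rfl (fun e he => z_factor h1 hS hz e
      (hd e (Finset.mem_filter.1 he).1) (Finset.mem_filter.1 he).2), Finset.prod_mul_distrib,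
      prod_exp_swap (fun e => -Real.log (1 - P e) / 2)]
    rfl
  rw [e1, e2, sw_field h1 (del E z) hS]
  unfold wf
  have e3 : ∏ v ∈ A, Real.exp (Jz P E z v * (1 - chi {v} S)) =
      (∏ v ∈ A, Real.exp (Jz P E z v)) * ∏ v ∈ A, Real.exp (-Jz P E z v * chi {v} S) := by
    rw [← Finset.prod_mul_distrib]
    refine Finset.prod_congr rfl fun v _ => ?_
    rw [← Real.exp_add]
    congr 1
    ring
  have e4 : ∏ v ∈ A, Real.exp ((fd P (del E z) A v - Jz P E z v) * chi {v} S) =
      (∏ v ∈ A, Real.exp (fd P (del E z) A v * chi {v} S)) *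
        ∏ v ∈ A, Real.exp (-Jz P E z v * chi {v} S) := by
    rw [← Finset.prod_mul_distrib]
    refine Finset.prod_congr rfl fun v _ => ?_
    rw [← Real.exp_add]
    congr 1
    ring
  rw [e3, e4]
  ring

theorem ein_del {E : Finset (Sym2 V)} {A : Finset V} {z : V} (hz : z ∉ A) :
    ein (del E z) A = ein E A := by
  ext e
  rw [SlM.mem_ein, SlM.mem_ein, del, Finset.mem_filter]
  constructor
  · rintro ⟨⟨a, b⟩, c⟩; exact ⟨a, c⟩
  · rintro ⟨a, c⟩; exact ⟨⟨a, fun h => hz (c z h)⟩, c⟩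

theorem fd_split {P : Sym2 V → ℝ} {E : Finset (Sym2 V)} {A : Finset V} {z : V} (hz : z ∉ A)
    (v : V) : fd P E A v = fd P (del E z) A v + Jz P E z v := by
  unfold fd Jz del
  rw [Finset.filter_filter, Finset.filter_filter,
    ← Finset.sum_filter_add_sum_filter_not (E.filter (fun e => v ∈ e ∧ ¬ ∀ z ∈ e, z ∈ A))
      (fun e => z ∉ e), Finset.filter_filter, Finset.filter_filter]
  congr 1
  · refine Finset.sum_congr ?_ fun _ _ => rfl
    ext e
    simp only [Finset.mem_filter]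
    tauto
  · refine Finset.sum_congr ?_ fun _ _ => rfl
    ext e
    simp only [Finset.mem_filter, not_not]
    constructor
    · rintro ⟨a, ⟨b, _⟩, d⟩; exact ⟨a, d, b⟩
    · rintro ⟨a, d, b⟩; exact ⟨a, ⟨b, fun h => hz (h z d)⟩, d⟩

theorem fd_ein {P : Sym2 V → ℝ} {E : Finset (Sym2 V)} {Λ : Finset V} {z v : V}
    (hz : z ∈ Λ) (hv : v ∈ Λ.erase z) : fd P (ein E Λ) (Λ.erase z) v = Jz P E z v := by
  unfold fd Jz ein
  rw [Finset.filter_filter, Finset.filter_filter]
  refine Finset.sum_congr ?_ fun _ _ => rfl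
  ext e
  simp only [Finset.mem_filter]
  rw [Finset.mem_erase] at hv
  constructor
  · rintro ⟨a, b, c, d⟩
    refine ⟨a, ?_, c⟩
    by_contra hze
    apply d
    intro w hw
    exact Finset.mem_erase.2 ⟨fun h => hze (h ▸ hw), b w hw⟩
  · rintro ⟨a, b, c⟩
    have he : e = s(z, v) := ((Sym2.mem_and_mem_iff (Ne.symm hv.1)).1 ⟨b, c⟩)
    refine ⟨a, ?_, c, ?_⟩
    · intro w hw
      rw [he] at hw
      rcases Sym2.mem_iff.1 hw with rfl | rfl
      · exact hz
      · exact hv.2
    · intro h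
      exact Finset.notMem_erase z Λ (h z b)

theorem mf_congr {P : Sym2 V → ℝ} {E : Finset (Sym2 V)} {Λ : Finset V} {b b' : V → ℝ}
    (h : ∀ v ∈ Λ, b v = b' v) (x : V) : mf P E Λ b x = mf P E Λ b' x := by
  unfold mf wf
  have e : ∀ S : Finset V, ∏ v ∈ Λ, Real.exp (b v * chi {v} S) =
      ∏ v ∈ Λ, Real.exp (b' v * chi {v} S) := by
    intro S
    refine Finset.prod_congr rfl fun v hv => ?_
    rw [h v hv]
  simp only [e]

theorem mf_scale {P : Sym2 V → ℝ} {E : Finset (Sym2 V)} {A : Finset V} {b : V → ℝ}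
    {w : Finset V → ℝ} {C : ℝ} (hw : ∀ S ∈ A.powerset, w S = C * wf P E A b S)
    (hZ : 0 < ∑ S ∈ A.powerset, w S) (x : V) :
    ∑ S ∈ A.powerset, chi {x} S * w S = mf P E A b x * ∑ S ∈ A.powerset, w S := by
  have e1 : ∑ S ∈ A.powerset, w S = C * ∑ S ∈ A.powerset, wf P E A b S := by
    rw [Finset.mul_sum]
    exact Finset.sum_congr rfl hw
  have e2 : ∑ S ∈ A.powerset, chi {x} S * w S =
      C * ∑ S ∈ A.powerset, chi {x} S * wf P E A b S := by
    rw [Finset.mul_sum]
    refine Finset.sum_congr rfl fun S hS => ?_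
    rw [hw S hS]; ring
  have hne : ∑ S ∈ A.powerset, wf P E A b S ≠ 0 := by
    intro h
    rw [e1, h, mul_zero] at hZ
    exact lt_irrefl _ hZ
  rw [e1, e2]
  unfold mf
  field_simp

/-- the case `P < 1` -/
theorem main (hGHS : SpecGHS) (hFLD : SpecFLD) (hFLP : SpecFLP) (P : Sym2 V → ℝ)
    (E : Finset (Sym2 V)) (Λ : Finset V) (x z : V) (h0 : ∀ e, 0 ≤ P e) (h1 : ∀ e, P e < 1)
    (hd : ∀ e ∈ E, ¬ e.IsDiag) (hx : x ∈ Λ) (hz : z ∈ Λ) (hxz : x ≠ z) :
    corr P E Λ {x} ≤ corr P (del E z) (Λ.erase z) {x} +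
      c2 P (ein E Λ) Λ x z * corr P E Λ {z} := by
  have h1' : ∀ e, P e ≤ 1 := fun e => (h1 e).le
  set A := Λ.erase z with hA
  have hzA : z ∉ A := Finset.notMem_erase z Λ
  have hxA : x ∈ A := Finset.mem_erase.2 ⟨hxz, hx⟩
  have hins : insert z A = Λ := Finset.insert_erase hz
  set h := fd P (del E z) A with hh
  set J := Jz P E z with hJ
  have hn : ∀ v, 0 ≤ h v := fd_nonneg h0 h1 (del E z) A
  have Jn : ∀ v, 0 ≤ J v := Jz_nonneg h0 h1 E z
  -- a0
  have a0 : corr P (del E z) A {x} = mf P (ein E A) A h x := by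
    have := hFLD V P (del E z) A x h0 h1 hxA
    rw [ein_del hzA] at this
    exact this
  -- b
  have b0 : c2 P (ein E Λ) Λ x z = mf P (ein E A) A J x := by
    unfold c2
    have hcard : (symmDiff ({x} : Finset V) {z}).card = 2 := by
      rw [show symmDiff ({x} : Finset V) {z} = {x, z} from ?_, Finset.card_pair hxz]
      ext w
      simp only [Finset.mem_symmDiff, Finset.mem_singleton, Finset.mem_insert]
      constructor
      · rintro (⟨a, _⟩ | ⟨a, _⟩)
        · exact Or.inl a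
        · exact Or.inr a
      · rintro (a | a)
        · exact Or.inl ⟨a, fun h => hxz (a.symm.trans h)⟩
        · exact Or.inr ⟨a, fun h => hxz (h.symm.trans a)⟩
    rw [hFLP V P (ein E Λ) Λ (symmDiff {x} {z}) z (fun e he => (SlM.mem_ein.1 he).2)
      (SlM.pair_subset hx hz) (by rw [hcard]; decide) hz]
    have e1 : corr P (ein E Λ) (Λ.erase z) (symmDiff {x} {z}) = corr P (ein E Λ) A {x} := by
      unfold corr
      congr 1
      refine Finset.sum_congr rfl fun S hS => ?_
      rw [Finset.mem_powerset] at hS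
      rw [chi_symmDiff_left, SlM.chi_single z, if_neg (fun h' => hzA (hS h')), mul_one]
    rw [e1]
    have e2 := hFLD V P (ein E Λ) A x h0 h1 hxA
    have e3 : ein (ein E Λ) A = ein E A := by
      ext e
      rw [SlM.mem_ein, SlM.mem_ein, SlM.mem_ein]
      constructor
      · rintro ⟨⟨a, _⟩, c⟩; exact ⟨a, c⟩
      · rintro ⟨a, c⟩; exact ⟨⟨a, fun w hw => Finset.erase_subset z Λ (c w hw)⟩, c⟩
    rw [e3] at e2
    refine e2.trans (mf_congr (fun v hv => ?_) x)
    exact fd_ein hz hv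
  -- zero field
  have m0 : mf P (ein E A) A (fun _ => 0) x = 0 := by
    have e2 := hFLD V P (ein E A) A x h0 h1 hxA
    rw [corr_single_zero (fun e he => (SlM.mem_ein.1 he).2) hxA] at e2
    have e3 : ein (ein E A) A = ein E A := by
      ext e
      rw [SlM.mem_ein, SlM.mem_ein]
      constructor
      · rintro ⟨a, _⟩; exact a
      · rintro a; exact ⟨a, a.2⟩
    rw [e3] at e2
    refine Eq.trans (mf_congr (fun v _ => ?_) x) e2.symm
    symm
    apply Finset.sum_eq_zero
    intro e he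
    rw [Finset.mem_filter] at he
    exact absurd (SlM.mem_ein.1 he.1).2 he.2.2
  -- partition functions
  set Zp := ∑ S ∈ A.powerset, sw P E S with hZp
  set Zm := ∑ S ∈ A.powerset, sw P E (insert z S) with hZm
  have Zp0 : 0 < Zp := Z_pos h1' E A
  have wm : ∀ S ∈ A.powerset, sw P E (insert z S) =
      ((∏ v ∈ A, Real.exp (-fd P (del E z) A v)) *
        (∏ e ∈ E.filter (fun e => z ∈ e), Real.exp (2 * (Real.log (1 - P e) / 2))) *
        ∏ v ∈ A, Real.exp (Jz P E z v)) * wf P (ein E A) A (fun v => h v - J v) S := by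
    intro S hS
    rw [Finset.mem_powerset] at hS
    rw [sw_insert_z h1 hd hS hzA, ein_del hzA]
  have Zm0 : 0 < Zm := by
    have hpos : ∀ S ∈ A.powerset, 0 ≤ sw P E (insert z S) := fun S _ => sw_nonneg h1' E _
    have h3 : sw P E (insert z ∅) ≤ Zm :=
      Finset.single_le_sum (f := fun S => sw P E (insert z S)) hpos
        (Finset.empty_mem_powerset A)
    have h4 : 0 < sw P E (insert z ∅) := by
      unfold sw
      refine Finset.prod_pos fun e _ => ?_
      split_ifs
      · exact one_pos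
      · linarith [h1 e]
    linarith
  have Np : ∑ S ∈ A.powerset, chi {x} S * sw P E S =
      mf P (ein E A) A (fun v => h v + J v) x * Zp := by
    refine mf_scale (C := ∏ v ∈ A, Real.exp (-fd P E A v)) (fun S hS => ?_) Zp0 x
    rw [Finset.mem_powerset] at hS
    rw [sw_field h1 E hS]
    congr 2
    funext v
    exact fd_split hzA v
  have Nm : ∑ S ∈ A.powerset, chi {x} S * sw P E (insert z S) =
      mf P (ein E A) A (fun v => h v - J v) x * Zm := mf_scale wm Zm0 x
  have hZ : ∑ S ∈ Λ.powerset, sw P E S = Zp + Zm := by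
    rw [← hins, Finset.sum_powerset_insert hzA]
  have cx : corr P E Λ {x} = (mf P (ein E A) A (fun v => h v + J v) x * Zp +
      mf P (ein E A) A (fun v => h v - J v) x * Zm) / (Zp + Zm) := by
    unfold corr
    rw [hZ, ← Np, ← Nm, ← hins, Finset.sum_powerset_insert hzA]
    congr 2
    refine Finset.sum_congr rfl fun S _ => ?_
    congr 1
    rw [SlM.chi_single, SlM.chi_single]
    simp [hxz]
  have cz : corr P E Λ {z} = (Zp - Zm) / (Zp + Zm) := by
    unfold corr
    rw [hZ, ← hins, Finset.sum_powerset_insert hzA]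
    congr 1
    rw [sub_eq_add_neg, hZp, hZm, ← Finset.sum_neg_distrib]
    congr 1
    · refine Finset.sum_congr rfl fun S hS => ?_
      rw [Finset.mem_powerset] at hS
      rw [SlM.chi_single, if_neg (fun h' => hzA (hS h')), one_mul]
    · refine Finset.sum_congr rfl fun S _ => ?_
      rw [SlM.chi_single, if_pos (Finset.mem_insert_self z S)]
      ring
  have hzn : 0 ≤ corr P E Λ {z} := corr_nonneg h0 h1' {z}
  have hZZ : 0 < Zp + Zm := by linarith
  have hdiff : 0 ≤ Zp - Zm := by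
    rw [cz] at hzn
    by_contra hneg
    push Not at hneg
    exact absurd hzn (not_le.2 (div_neg_of_neg_of_pos hneg hZZ))
  have hein : ∀ e ∈ ein E A, ∀ w ∈ e, w ∈ A := fun e he => (SlM.mem_ein.1 he).2
  have g1 := hGHS V P (ein E A) A (fun v => h v + J v) h h (fun v => h v - J v) h0 h1' hein
    (fun v => by linarith [hn v, Jn v]) (fun v => by linarith [hn v, Jn v])
    (fun v => by linarith [hn v, Jn v]) (fun v => by linarith [hn v, Jn v]) x hxA
  have g2 := hGHS V P (ein E A) A (fun v => h v + J v) h J (fun _ => 0) h0 h1' hein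
    (fun v => by linarith [hn v, Jn v]) (fun v => by linarith [hn v, Jn v])
    (fun v => by linarith [hn v, Jn v]) (fun v => by linarith [hn v, Jn v]) x hxA
  rw [m0, add_zero] at g2
  rw [cx, cz, a0, b0, div_le_iff₀ hZZ]
  have e5 : (mf P (ein E A) A h x + mf P (ein E A) A J x * ((Zp - Zm) / (Zp + Zm))) *
      (Zp + Zm) = mf P (ein E A) A h x * (Zp + Zm) + mf P (ein E A) A J x * (Zp - Zm) := by
    field_simp
  rw [e5]
  have e6 := mul_le_mul_of_nonneg_right g1 Zm0.le
  have e7 := mul_le_mul_of_nonneg_right g2 hdiff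
  nlinarith

end VRMM

open SBMM VRMM in
theorem specVRM (hGHS : SpecGHS) (hFLD : SpecFLD) (hFLP : SpecFLP) (hCTP : SpecCTP) :
    SpecVRM := by
  intro V P E Λ x z h0 h1 hd hx hz hxz
  have lim : ∀ (F : Finset (Sym2 V)) (Λ' B : Finset V),
      Tendsto (fun n : ℕ => corr (Pn P n) F Λ' B) atTop (𝓝 (corr P F Λ' B)) := by
    intro F Λ' B
    exact hCTP V ℕ atTop (Pn P) P F Λ' B h1 (fun e _ => Pn_tendsto P e)
  exact le_of_tendsto_of_tendsto' (lim E Λ {x})
    ((lim (del E z) (Λ.erase z) {x}).add ((lim (ein E Λ) Λ (symmDiff {x} {z})).mul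
      (lim E Λ {z})))
    (fun n => main hGHS hFLD hFLP (Pn P n) E Λ x z (Pn_nonneg h0 n) (Pn_lt h0 h1 n) hd hx hz hxz)

end NU

end MP8622
end
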